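import Pool.Agent.Lib.MP_ed43e6_ag.N.Defs

/-! The relative algebraic closure of a finitely generated subfield, and the statements of the
dimension argument with generation replaced by generation up to algebraic closure. -/

namespace Pool.Agent.Lib.MP_ed43e6_ag.Q

open MvPolynomial Module Matrix Finset N

universe u

/-- The elements of `Ω` that are algebraic over the field generated by `S`. -/
noncomputable def cl (K : Type u) [Field K] {Ω : Type u} [Field Ω] [Algebra K Ω] (S : Set Ω) :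
    IntermediateField K Ω :=
  (algebraicClosure (IntermediateField.adjoin K S) Ω).restrictScalars K

section

variable {K Ω : Type u} [Field K] [Field Ω] [Algebra K Ω] {S T : Set Ω} {x : Ω}

theorem mem_cl : x ∈ cl K S ↔ IsAlgebraic (IntermediateField.adjoin K S) x :=
  mem_algebraicClosure_iff

theorem adjoin_le_cl : IntermediateField.adjoin K S ≤ cl K S := fun x hx =>
  mem_cl.2 (isAlgebraic_algebraMap (⟨x, hx⟩ : IntermediateField.adjoin K S))

theorem subset_cl (hx : x ∈ S) : x ∈ cl K S :=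
  adjoin_le_cl (IntermediateField.subset_adjoin K S hx)

theorem alg_mono {E E' : IntermediateField K Ω} (h : E ≤ E') (hx : IsAlgebraic E x) :
    IsAlgebraic E' x := by
  let : Algebra E E' := (IntermediateField.inclusion h).toAlgebra
  have : IsScalarTower E E' Ω := IsScalarTower.of_algebraMap_eq fun _ => rfl
  exact hx.tower_top E'

theorem mem_cl_of_alg (hx : IsAlgebraic (cl K S) x) : x ∈ cl K S := by
  have h1 : IsAlgebraic (algebraicClosure (IntermediateField.adjoin K S) Ω) x := hx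
  exact mem_cl.2 (h1.restrictScalars _)

theorem cl_le (h : ∀ x ∈ S, x ∈ cl K T) : cl K S ≤ cl K T := fun _ hx =>
  mem_cl_of_alg (alg_mono (IntermediateField.adjoin_le_iff.2 h) (mem_cl.1 hx))

theorem cl_mono (h : S ⊆ T) : cl K S ≤ cl K T := cl_le fun _ hx => subset_cl (h hx)

theorem mem_cl_of_integral {A : Subalgebra K Ω} (hA : ∀ y ∈ A, y ∈ cl K S)
    (hx : IsIntegral A x) : x ∈ cl K S := by
  let : Algebra A (cl K S) := (Subalgebra.inclusion (S := A) (T := (cl K S).toSubalgebra)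
    hA).toAlgebra
  have : IsScalarTower A (cl K S) Ω := IsScalarTower.of_algebraMap_eq fun _ => rfl
  exact mem_cl_of_alg (hx.tower_top (A := cl K S)).isAlgebraic

theorem trdeg_le (S : Finset Ω) (h : ∀ x, x ∈ cl K (S : Set Ω)) :
    Algebra.trdeg K Ω ≤ (S.card : Cardinal) := by
  have h1 : Algebra.IsAlgebraic (IntermediateField.adjoin K (S : Set Ω)) Ω :=
    ⟨fun x => mem_cl.1 (h x)⟩
  have h2 : Algebra.IsAlgebraic (Algebra.adjoin K (S : Set Ω)) Ω :=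
    IntermediateField.isAlgebraic_adjoin_iff_top.mp h1
  have h3 := Algebra.IsAlgebraic.trdeg_le_cardinalMk K (S : Set Ω)
  simpa using h3

end

/-- A chain of three ideals with Borel initial sets has coefficients algebraic over few
elements. -/
def ChainStmt (n : ℕ) : Prop :=
  ∀ (K Ω : Type u) [Field K] [Field Ω] [Algebra K Ω], (∀ i : ℕ, 0 < i → i ≤ n → (i : Ω) ≠ 0) →
    ∀ I : Fin 3 → Ideal (SS Ω), I 0 ≤ I 1 → I 1 ≤ I 2 → mm Ω ^ (n + 1) ≤ I 0 → finrank Ω (SS Ω ⧸ I 0) = n + 1 →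
    finrank Ω (SS Ω ⧸ I 1) = n → finrank Ω (SS Ω ⧸ I 2) + 1 = n → (∀ j, IsBorel (ini (I j))) →
    ∃ (lam : Fin 3 → Finset (Fin 3 →₀ ℕ)) (nf : Fin 3 → SS Ω →ₗ[Ω] SS Ω) (S : Finset Ω),
      (∀ j, NF (I j) (lam j) (nf j)) ∧ S.card + 2 ≤ 3 * n ∧
      ∀ j u v, coeff v (nf j (monomial u 1)) ∈ cl K (S : Set Ω)

def CoreStmt (n : ℕ) : Prop :=
  ∀ (K Ω : Type u) [Field K] [Field Ω] [Algebra K Ω], (∀ i : ℕ, 0 < i → i ≤ n → (i : Ω) ≠ 0) →
    ∀ (ρ : SS Ω →ₐ[Ω] Matrix (Ix n) (Ix n) Ω) (v : Ix n → Ω) (s : Fin n → Ω),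
    Punct ρ v (n + 1) → s ≠ 0 → (∀ i, (ρ (X i)).toBlocks₁₁ *ᵥ s = 0) →
    ∀ I : Fin 3 → Ideal (SS Ω), (∀ f, f ∈ I 0 ↔ ρ f *ᵥ v = 0) →
      (∀ f, f ∈ I 1 ↔ ∀ a, (ρ f *ᵥ v) (Sum.inl a) = 0) →
      (∀ f, f ∈ I 2 ↔ ∃ μ : Ω, ∀ a, (ρ f *ᵥ v) (Sum.inl a) = μ * s a) →
      (∀ j, IsBorel (ini (I j))) →
      ∃ S : Finset Ω, S.card ≤ n * n + 4 * n ∧
        (∀ i a b, ρ (X i) a b ∈ cl K (S : Set Ω)) ∧ (∀ a, v a ∈ cl K (S : Set Ω)) ∧
        ∀ a, s a ∈ cl K (S : Set Ω)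

def UnipStmt (n : ℕ) : Prop :=
  ∀ (K F : Type u) [Field K] [Field F] [Algebra K F], (∀ i : ℕ, 0 < i → i ≤ n → (i : F) ≠ 0) →
    ∀ (ρ : SS F →ₐ[F] Matrix (Ix n) (Ix n) F) (v : Ix n → F) (s : Fin n → F),
    Punct ρ v (n + 1) → s ≠ 0 → (∀ i, (ρ (X i)).toBlocks₁₁ *ᵥ s = 0) →
    ∃ S : Finset (RF F 3), S.card ≤ n * n + 4 * n + 3 ∧
      (∀ i a b, algebraMap F (RF F 3) (ρ (X i) a b) ∈ cl K (S : Set (RF F 3))) ∧
      (∀ a, algebraMap F (RF F 3) (v a) ∈ cl K (S : Set (RF F 3))) ∧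
      (∀ a, algebraMap F (RF F 3) (s a) ∈ cl K (S : Set (RF F 3))) ∧
      ∀ i, algebraMap (MvPolynomial (Fin 3) F) (RF F 3) (X i) ∈ cl K (S : Set (RF F 3))

end Pool.Agent.Lib.MP_ed43e6_ag.Q
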