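import Pool.Agent.Lib.MP_ed43e6_ag.N.Defs

/-! Second order certificates: quadratic relations between the normal form coefficients of a
chain of three ideals lower the transcendence degree. -/

namespace Pool.Agent.Lib.MP_ed43e6_ag.Q

open MvPolynomial Finset N

universe u

abbrev T3 := ℕ × ℕ × ℕ

/-- Predicates on pairs (a monomial outside a staircase, a monomial inside). -/
abbrev Pr := ℕ → ℕ → ℕ → ℕ → ℕ → ℕ → Prop

def ap (G : Pr) (u v : T3) : Prop := G u.1 u.2.1 u.2.2 v.1 v.2.1 v.2.2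

def Neg (G : Pr) : Pr := fun p q s a b t => ¬ G p q s a b t

def ky (u : T3) : ℕ := key u.1 u.2.1 u.2.2

/-- Multiplication by the `i`-th variable. -/
def stp (i : Fin 3) (u : T3) : T3 :=
  ![(u.1 + 1, u.2.1, u.2.2), (u.1, u.2.1 + 1, u.2.2), (u.1, u.2.1, u.2.2 + 1)] i

/-- The box `u` lies in the staircase with column heights `g`. -/
def ins (g : ℕ → ℕ → ℕ) (u : T3) : Prop := u.2.2 < g u.1 u.2.1

/-- `G` sends the box `w` of the staircase, multiplied by the `i`-th variable, to `v`. -/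
def Arr (g : ℕ → ℕ → ℕ) (G : Pr) (i : Fin 3) (w v : T3) : Prop :=
  ins g w ∧ ¬ ins g (stp i w) ∧ ap G (stp i w) v

def cube : Finset T3 := range 128 ×ˢ range 128 ×ˢ range 128

open Classical in
/-- The trace of `N_i A_j B_k`: closed walks `w → v → m → w`. -/
noncomputable def tr3 (g : ℕ → ℕ → ℕ) (N A B : Pr) (i j k : Fin 3) : ℕ :=
  ((cube ×ˢ cube ×ˢ cube).filter fun x =>
    Arr g N i x.1 x.2.1 ∧ Arr g B k x.2.1 x.2.2 ∧ Arr g A j x.2.2 x.1).card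

/-- The coefficient of `y_A y_B` in the cyclic sum of `tr (N_i [C_j, C_k])`. -/
noncomputable def coef (g : ℕ → ℕ → ℕ) (N A B : Pr) : ℤ :=
  ∑ i : Fin 3, ((tr3 g N A B i (i + 1) (i + 2) : ℤ) - (tr3 g N A B i (i + 2) (i + 1) : ℤ))

/-- The symmetrised coefficient in an integer combination of such sums at the three levels. -/
noncomputable def sym (h : Fin 3 → ℕ → ℕ → ℕ) (row : List (Fin 3 × ℤ × Pr)) (A B : Pr) : ℤ :=
  (row.map fun e => e.2.1 * (coef (h e.1) e.2.2 A B + coef (h e.1) e.2.2 B A)).sum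

/-- The product `y_a y_b` is the leading term of a quadratic relation. -/
def Edge (h : Fin 3 → ℕ → ℕ → ℕ) (D : ℕ) (A : Finset ℕ) (X : ℕ → Pr) (γ η : ℕ → ℕ)
    (a b : ℕ) : Prop :=
  ∃ row : List (Fin 3 × ℤ × Pr),
    (∀ e ∈ row, Links (h e.1) (Neg e.2.2) ∧
      ∀ u v, ap e.2.2 u v → ky v + (γ a + γ b) + key 1 1 1 = ky u) ∧
    sym h row (X a) (X b) ≠ 0 ∧ (sym h row (X a) (X b)).natAbs ≤ D ∧
    ∀ a' ∈ A, ∀ b' ∈ A, (a' = a ∧ b' = b) ∨ (a' = b ∧ b' = a) ∨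
      sym h row (X a') (X b') = 0 ∨ η a' + η b' < η a + η b

/-- `A` indexes distinct classes `X a` of linked pairs that are not killed, of positive gap `γ a`,
and any `α + 1` of them contain an edge or a loop. -/
structure Valid (h : Fin 3 → ℕ → ℕ → ℕ) (D : ℕ) (A : Finset ℕ) (X : ℕ → Pr) (γ η : ℕ → ℕ)
    (α : ℕ) : Prop where
  links : ∀ a ∈ A, ∀ j, Links (h j) (Neg (X a))
  gap : ∀ a ∈ A, 0 < γ a ∧ ∀ u v, ap (X a) u v → ky u + γ a = ky v
  seed : ∀ a ∈ A, ∃ u v, ap (X a) u v ∧ (∃ j, ¬ ins (h j) u ∧ ins (h j) v) ∧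
    (∀ b ∈ A, b ≠ a → ¬ ap (X b) u v) ∧
    ∀ G : Pr, (∀ j, Links (h j) G) → ap G u v → ∀ u' v', ap (X a) u' v' → ap G u' v'
  indep : ∀ T ⊆ A, α < T.card → ∃ a ∈ T, ∃ b ∈ T, Edge h D A X γ η a b

/-- The quadratic relations save `k` generators. -/
def Gain (h : Fin 3 → ℕ → ℕ → ℕ) (D k : ℕ) : Prop :=
  ∃ (A : Finset ℕ) (X : ℕ → Pr) (γ η : ℕ → ℕ) (α : ℕ), Valid h D A X γ η α ∧ α + k ≤ A.card

/-- The normal form coefficients are algebraic over few elements. -/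
def SecondStmt : Prop :=
  ∀ (K Ω : Type u) [Field K] [Field Ω] [Algebra K Ω] (D : ℕ), 2 ≤ D →
    (∀ i : ℕ, 0 < i → i ≤ D → (i : Ω) ≠ 0) →
    ∀ (I : Fin 3 → Ideal (SS Ω)) (lam : Fin 3 → Finset (Fin 3 →₀ ℕ))
      (nf : Fin 3 → SS Ω →ₗ[Ω] SS Ω) (h : Fin 3 → ℕ → ℕ → ℕ),
      I 0 ≤ I 1 → I 1 ≤ I 2 → (∀ j, NF (I j) (lam j) (nf j)) →
      (∀ j a b t, N.mon a b t ∈ lam j ↔ t < h j a b) →
      (∀ j a b t, t < h j a b → a < 128 ∧ b < 128 ∧ t < 128) →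
      ∀ R, Roots (h 0) (h 1) (h 2) R → ∀ k, Gain h D k →
        ∃ S : Finset Ω, S.card + k ≤ R.card ∧ ∀ j u v,
          IsAlgebraic (IntermediateField.adjoin K (S : Set Ω)) (coeff v (nf j (monomial u 1)))

/-- The finite verification for middle staircases of size `32, …, M`. -/
def CheckQ (M : ℕ) : Prop :=
  ∀ (h0 h1 h2 : ℕ → ℕ → ℕ) (p0 q0 a1 b1 : ℕ), h0 = bump h1 p0 q0 → h1 = bump h2 a1 b1 →
    Bor h0 → Bor h1 → Bor h2 → 32 ≤ size h1 → size h1 ≤ M →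
    ∃ R k, Roots h0 h1 h2 R ∧ Gain ![h0, h1, h2] (size h1) k ∧ R.card + 2 ≤ 3 * size h1 + k

end Pool.Agent.Lib.MP_ed43e6_ag.Q
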