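import Pool.Agent.Lib.MP_ed43e6_ag.N.Chain
import Pool.Agent.Lib.MP_ed43e6_ag.Q.Cl
import Pool.Agent.Lib.MP_ed43e6_ag.Q.Defs

/-! From a chain of three ideals to column heights, with second order certificates. -/

namespace Pool.Agent.Lib.MP_ed43e6_ag.Q

open MvPolynomial Module Matrix Finset N

universe u

open N.Chain in
theorem chainStmtQ : NFStmt.{u} → SecondStmt.{u} → ∀ M, M ≤ 100 → CheckQ M →
    ∀ n, 32 ≤ n → n ≤ M → Q.ChainStmt.{u} n := by
  intro hNF hSec M hM100 hCheck n hn32 hnM K Ω _ _ _ hchar I h01 h12 hM f0 f1 f2 hB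
  have hMj : ∀ j, mm Ω ^ (n + 1) ≤ I j := by
    intro j
    fin_cases j
    · exact hM
    · exact hM.trans h01
    · exact (hM.trans h01).trans h12
  choose lam nf hnf using fun j => hNF Ω (I j) (n + 1) (by omega) (hMj j)
  choose h hh using fun j => exists_height (hMj j) (hnf j).mem_iff
  have hsub : ∀ j k, I j ≤ I k → lam k ⊆ lam j := fun j k hjk u hu =>
    ((hnf j).mem_iff u).2 fun hi => ((hnf k).mem_iff u).1 hu (ini_mono hjk hi)
  have c0 := (hnf 0).card
  have c1 := (hnf 1).card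
  have c2 := (hnf 2).card
  obtain ⟨p0, q0, e0⟩ := exists_bump (hh 1) (hh 0) (hsub 0 1 h01) (by omega)
  obtain ⟨a1, b1, e1⟩ := exists_bump (hh 2) (hh 1) (hsub 1 2 h12) (by omega)
  have hbor : ∀ j, Bor (h j) := fun j => bor_of (hB j) (hnf j).mem_iff (hh j)
  have hlt : ∀ j a b t, t < h j a b → a < 128 ∧ b < 128 ∧ t < 128 := by
    intro j a b t ht
    by_contra hc
    exact ((hnf j).mem_iff _).1 ((hh j a b t).2 ht) (mem_ini_of_deg (hMj j) (by omega))
  have hsz : size (h 1) = n := by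
    rw [size_eq (hh 1), c1, f1]
    intro a b t hu
    have := hlt 1 a b t ((hh 1 a b t).1 hu)
    exact ⟨this.1, this.2.1⟩
  obtain ⟨R, k, hR, hG, hcnt⟩ := hCheck (h 0) (h 1) (h 2) p0 q0 a1 b1 e0 e1 (hbor 0) (hbor 1)
    (hbor 2) (by omega) (by omega)
  have hh3 : ![h 0, h 1, h 2] = h := by
    funext j
    fin_cases j <;> rfl
  rw [hh3, hsz] at hG
  obtain ⟨S, hS, hmem⟩ := hSec K Ω n (by omega) hchar I lam nf h h01 h12 hnf hh hlt R hR k hG
  exact ⟨lam, nf, S, hnf, by omega, fun j u v => mem_cl.2 (hmem j u v)⟩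

end Pool.Agent.Lib.MP_ed43e6_ag.Q
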