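import Pool.Agent.Lib.MP_ed43e6_ag.Q.Cl
import Pool.Agent.Lib.MP_ed43e6_ag.N.Core
import Pool.Agent.Lib.MP_ed43e6_ag.N.Unip
import Pool.Agent.Lib.MP_ed43e6_ag.N.Punct
import Pool.Agent.Lib.MP_ed43e6_ag.N.Rat
import Pool.Agent.Lib.MP_ed43e6_ag.N.BC
import Pool.Agent.Lib.MP_ed43e6_ag.N.Borel
import Pool.Agent.Lib.MP_ed43e6_ag.N.Der

/-! From the chain bound up to algebraic closure to the bound for punctual nested pairs. -/

namespace Pool.Agent.Lib.MP_ed43e6_ag.Q

open MvPolynomial Module Matrix Finset N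

universe u

open N.Core in
theorem coreStmt : RatStmt.{u} → ∀ n, Q.ChainStmt.{u} n → Q.CoreStmt.{u} n := by
  classical
  intro hRat n hChain K Ω _ _ _ hch ρ v s hP hs _ I h0 h1 h2 hB
  -- the three quotient dimensions
  have hsur0 : Function.Surjective (orb ρ v) := hP.cyc
  let π₁ : (Ix n → Ω) →ₗ[Ω] (Fin n → Ω) := LinearMap.funLeft Ω Ω Sum.inl
  have hπ₁ : Function.Surjective π₁ :=
    LinearMap.funLeft_surjective_of_injective Ω Ω _ Sum.inl_injective
  have hd0 : finrank Ω (SS Ω ⧸ I 0) = n + 1 := by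
    rw [finrank_quot (I 0) (orb ρ v) hsur0 h0]
    simp
  have hd1 : finrank Ω (SS Ω ⧸ I 1) = n := by
    rw [finrank_quot (I 1) (π₁ ∘ₗ orb ρ v) (hπ₁.comp hsur0)
      (fun f => (h1 f).trans ⟨fun h => funext h, fun h a => congrFun h a⟩)]
    simp
  have hd2 : finrank Ω (SS Ω ⧸ I 2) + 1 = n := by
    rw [finrank_quot (I 2) ((Submodule.span Ω {s}).mkQ ∘ₗ π₁ ∘ₗ orb ρ v)
      ((Submodule.mkQ_surjective _).comp (hπ₁.comp hsur0)) ?_]
    · have := Submodule.finrank_quotient_add_finrank (Submodule.span Ω {s})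
      rw [finrank_span_singleton hs] at this
      simpa using this
    · intro f
      rw [h2 f, LinearMap.comp_apply, Submodule.mkQ_apply, Submodule.Quotient.mk_eq_zero,
        Submodule.mem_span_singleton]
      exact ⟨fun ⟨μ, h⟩ => ⟨μ, funext fun a => (h a).symm⟩,
        fun ⟨μ, h⟩ => ⟨μ, fun a => (congrFun h a).symm⟩⟩
  have h01 : I 0 ≤ I 1 := fun f hf => (h1 f).2 fun a => by rw [(h0 f).1 hf]; rfl
  have h12 : I 1 ≤ I 2 := fun f hf => (h2 f).2 ⟨0, fun a => by rw [(h1 f).1 hf a, zero_mul]⟩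
  have hm : mm Ω ^ (n + 1) ≤ I 0 := fun f hf => (h0 f).2 (by rw [hP.nil f hf, zero_mulVec])
  obtain ⟨lam, nf, S, hNF, hS, hc⟩ := hChain K Ω hch I h01 h12 hm hd0 hd1 hd2 hB
  have hl10 : lam 1 ⊆ lam 0 := lam_sub h01 (hNF 0) (hNF 1)
  have hl21 : lam 2 ⊆ lam 1 := lam_sub h12 (hNF 1) (hNF 2)
  have hc0 : (lam 0).card = n + 1 := (hNF 0).card.trans hd0
  have hc1 : (lam 1).card = n := (hNF 1).card.trans hd1
  have hc2 : (lam 2).card + 1 = n := by rw [(hNF 2).card]; exact hd2
  obtain ⟨u0, -, hu0⟩ := Finset.exists_eq_insert_iff.2 ⟨hl10, by rw [hc0, hc1]⟩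
  obtain ⟨sg, hsg2, hsg⟩ := Finset.exists_eq_insert_iff.2 ⟨hl21, by rw [hc2, hc1]⟩
  have hsg1 : sg ∈ lam 1 := hsg ▸ Finset.mem_insert_self _ _
  -- the two extra generators
  obtain ⟨la, hla⟩ := (h2 _).1 ((hNF 2).sub_mem (monomial sg 1))
  have hla0 : la ≠ 0 := by
    intro h
    have hg : monomial sg 1 - nf 2 (monomial sg 1) ∈ I 1 :=
      (h1 _).2 fun a => by rw [hla a, h, zero_mul]
    have hz := (hNF 1).eq_zero _ hg (by
      refine (support_sub _ _ _).trans (Finset.union_subset ?_ (((hNF 2).supp _).trans hl21))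
      refine support_monomial_subset.trans ?_
      simpa using hsg1)
    apply hsg2
    apply (hNF 2).supp (monomial sg 1)
    rw [← sub_eq_zero.1 hz]
    simp
  set mu : Ω := orb ρ v (monomial u0 1 - nf 1 (monomial u0 1)) (Sum.inr ()) with hmu
  let T : Finset Ω :=
    ((lam 1) ×ˢ (univ : Finset (Ix n))).image fun x => orb ρ v (monomial x.1 1) x.2
  have hT : T.card ≤ n * (n + 1) := by
    refine card_image_le.trans ?_
    rw [card_product, hc1]
    simp
  let S' : Finset Ω := insert mu (insert la (S ∪ T))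
  have hS' : S'.card ≤ n * n + 4 * n := by
    have e1 : S'.card ≤ (insert la (S ∪ T)).card + 1 := card_insert_le _ _
    have e2 : (insert la (S ∪ T)).card ≤ (S ∪ T).card + 1 := card_insert_le _ _
    have e3 : (S ∪ T).card ≤ S.card + T.card := card_union_le _ _
    have e4 : n * (n + 1) = n * n + n := by ring
    omega
  set E := cl K (S' : Set Ω) with hE
  have hSE : ∀ x ∈ S', x ∈ E := fun x hx => subset_cl hx
  have hcE : ∀ j w w', coeff w' (nf j (monomial w 1)) ∈ E := fun j w w' =>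
    cl_mono (fun x hx => by
      simp only [S', coe_insert, coe_union, Set.mem_insert_iff, Set.mem_union]
      exact Or.inr (Or.inr (Or.inl hx))) (hc j w w')
  have hmuE : mu ∈ E := hSE _ (mem_insert_self _ _)
  have hlaE : la ∈ E := hSE _ (mem_insert_of_mem (mem_insert_self _ _))
  have hE1 : ∀ m ∈ lam 1, ∀ a, orb ρ v (monomial m 1) a ∈ E := fun m hm' a =>
    hSE _ (mem_insert_of_mem (mem_insert_of_mem (mem_union_right _
      (mem_image.2 ⟨(m, a), mem_product.2 ⟨hm', mem_univ _⟩, rfl⟩))))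
  have hEu0 : ∀ a, orb ρ v (monomial u0 1) a ∈ E := by
    intro a
    have e : orb ρ v (monomial u0 1) a =
        orb ρ v (monomial u0 1 - nf 1 (monomial u0 1)) a + orb ρ v (nf 1 (monomial u0 1)) a := by
      rw [map_sub, Pi.sub_apply, sub_add_cancel]
    rw [e]
    refine add_mem ?_ (apply_mem E _ _ _ (hcE 1 u0) fun m hm' => hE1 m ((hNF 1).supp _ hm') a)
    rcases a with a | a
    · rw [orb_apply, (h1 _).1 ((hNF 1).sub_mem _) a]
      exact zero_mem _
    · exact hmuE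
  have hE0 : ∀ m ∈ lam 0, ∀ a, orb ρ v (monomial m 1) a ∈ E := by
    intro m hm' a
    rw [← hu0, mem_insert] at hm'
    rcases hm' with rfl | hm'
    · exact hEu0 a
    · exact hE1 m hm' a
  have hEall : ∀ m a, orb ρ v (monomial m 1) a ∈ E := by
    intro m a
    have e : orb ρ v (monomial m 1) = orb ρ v (nf 0 (monomial m 1)) := by
      rw [← sub_eq_zero, ← map_sub]
      exact (h0 _).1 ((hNF 0).sub_mem _)
    rw [e]
    exact apply_mem E _ _ _ (hcE 0 m) fun m' hm' => hE0 m' ((hNF 0).supp _ hm') a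
  refine ⟨S', hS', fun i a b => ?_, fun a => ?_, fun a => ?_⟩
  · obtain ⟨f, hf⟩ := hsur0 (Pi.single b 1)
    obtain ⟨c', hc', hy⟩ := hRat K Ω E (Fin 3 →₀ ℕ) (Ix n) f.support
      (fun m => orb ρ v (monomial m 1)) (fun m => coeff m f) (Pi.single b 1)
      (fun m _ a' => hEall m a')
      (fun a' => by
        by_cases h : a' = b
        · subst h
          rw [Pi.single_eq_same]
          exact one_mem _
        · rw [Pi.single_eq_of_ne h]
          exact zero_mem _)
      (fun a' => by rw [← hf]; exact apply_eq_sum _ _ _)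
    have hy' : (Pi.single b 1 : Ix n → Ω) = ∑ m ∈ f.support, c' m • orb ρ v (monomial m 1) := by
      funext a'
      rw [hy a', Finset.sum_apply]
      rfl
    have e : ρ (X i) a b = (ρ (X i) *ᵥ Pi.single b 1) a := by
      rw [mulVec_single_one]
      rfl
    rw [e, hy', mulVec_sum, Finset.sum_apply]
    refine sum_mem fun m _ => ?_
    rw [mulVec_smul, Pi.smul_apply, smul_eq_mul]
    refine mul_mem (hc' m) ?_
    have e' : ρ (X i) *ᵥ orb ρ v (monomial m 1) =
        orb ρ v (monomial (Finsupp.single i 1 + m) 1) := by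
      rw [orb_apply, orb_apply, mulVec_mulVec, ← map_mul, monomial_single_add, pow_one]
    rw [e']
    exact hEall _ a
  · have e : v = orb ρ v (monomial 0 1) := by
      rw [orb_apply, ← C_apply, C_1, map_one, one_mulVec]
    rw [e]
    exact hEall 0 a
  · have e : s a = orb ρ v (monomial sg 1 - nf 2 (monomial sg 1)) (Sum.inl a) / la := by
      rw [orb_apply, hla a, mul_div_cancel_left₀ _ hla0]
    rw [e, map_sub, Pi.sub_apply]
    exact div_mem (sub_mem (hEall _ _)
      (apply_mem E _ _ _ (hcE 2 sg) fun m _ => hEall m _)) hlaE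

section

variable {Ω : Type u} [Field Ω] {n : ℕ} (a b c : Ω)

open N.Unip in
/-- The statement over an extension field with two suitable derivations. -/
theorem unip_main (hB : BorelStmt.{u}) (hC : Q.CoreStmt.{u} n) (K : Type u) [Field K] [Algebra K Ω]
    {F : Type u} [Field F] [Algebra F Ω] (δ₁ δ₂ : Derivation F Ω Ω) (h1 : δ₁ a = 1) (h2 : δ₁ b = 0)
    (h3 : δ₁ c = 0) (h4 : δ₂ a = 0) (h5 : δ₂ b = 1) (h6 : δ₂ c = a)
    (hch : ∀ i : ℕ, 0 < i → i < n + 1 → (i : Ω) ≠ 0)
    {ρ : SS Ω →ₐ[Ω] Matrix (Ix n) (Ix n) Ω} {v : Ix n → Ω} {s : Fin n → Ω}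
    (hP : Punct ρ v (n + 1)) (hs : s ≠ 0) (hs' : ∀ i, (ρ (X i)).toBlocks₁₁ *ᵥ s = 0)
    (c1 : ∀ (δ : Derivation F Ω Ω) i x y, δ (ρ (X i) x y) = 0)
    (c2 : ∀ (δ : Derivation F Ω Ω) x, δ (v x) = 0) (c3 : ∀ (δ : Derivation F Ω Ω) x, δ (s x) = 0) :
    ∃ S : Finset Ω, S.card ≤ n * n + 4 * n ∧
      (∀ i x y, ρ.comp (unip a b c) (X i) x y ∈ cl K (S : Set Ω)) ∧
      (∀ x, v x ∈ cl K (S : Set Ω)) ∧
      ∀ x, s x ∈ cl K (S : Set Ω) := by
  have g2 : ∀ i, Unip.Good s (ρ (X i)) := fun i => ⟨hP.col i, hs' i⟩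
  have g1 : ∀ i, Unip.Good 0 (ρ (X i)) := fun i => ⟨hP.col i, mulVec_zero _⟩
  have w0 : ∀ i, ∀ w ∈ (⊥ : Submodule Ω (Ix n → Ω)),
      ρ (X i) *ᵥ w ∈ (⊥ : Submodule Ω (Ix n → Ω)) := fun i w hw => by
    rw [(Submodule.mem_bot Ω).1 hw, mulVec_zero]
    exact Submodule.zero_mem _
  have d0 : ∀ δ : Derivation F Ω Ω, ∀ w ∈ (⊥ : Submodule Ω (Ix n → Ω)),
      (fun x => δ (w x)) ∈ (⊥ : Submodule Ω (Ix n → Ω)) := fun δ w hw => by
    rw [(Submodule.mem_bot Ω).1 hw]
    exact (Submodule.mem_bot Ω).2 (funext fun x => map_zero δ)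
  have key : ∀ (W : Submodule Ω (Ix n → Ω)) (hW : ∀ i, ∀ w ∈ W, ρ (X i) *ᵥ w ∈ W),
      (∀ δ : Derivation F Ω Ω, ∀ w ∈ W, (fun x => δ (w x)) ∈ W) →
      IsBorel (ini ((idl ρ v W hW).comap (unip a b c))) := fun W hW hδ =>
    hB F Ω δ₁ δ₂ a b c h1 h2 h3 h4 h5 h6 _ (n + 1) (fun f hf => by
        show ρ f *ᵥ v ∈ W
        rw [hP.nil f hf, zero_mulVec]
        exact W.zero_mem) hch (coeffStable δ₁ (c1 δ₁) (c2 δ₁) hW (hδ δ₁))
      (coeffStable δ₂ (c1 δ₂) (c2 δ₂) hW (hδ δ₂))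
  have hP' : Punct (ρ.comp (unip a b c)) v (n + 1) :=
    ⟨fun f hf => hP.nil _ (unip_mm a b c _ hf), fun w => by
      obtain ⟨f, hf⟩ := hP.cyc w
      obtain ⟨g, rfl⟩ := unip_surj a b c f
      exact ⟨g, hf⟩, fun i => (good_unip a b c g2 i).1⟩
  refine hC K Ω (fun i hi hi' => hch i hi (by omega)) (ρ.comp (unip a b c)) v s hP' hs (fun i => (good_unip a b c g2 i).2)
    ![(idl ρ v ⊥ w0).comap (unip a b c), (idl ρ v (lin 0) fun i => (g1 i).lin).comap (unip a b c),
      (idl ρ v (lin s) fun i => (g2 i).lin).comap (unip a b c)]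
    (fun f => Submodule.mem_bot Ω) (fun f => mem_lin_zero _) (fun f => Iff.rfl) fun j => ?_
  fin_cases j
  · exact key _ w0 d0
  · exact key _ _ fun δ => der_lin δ fun _ => map_zero δ
  · exact key _ _ fun δ => der_lin δ (c3 δ)

end

open N.Unip in
theorem unipStmt : BorelStmt.{u} → DerStmt.{u} → BCStmt.{u} → ∀ n, Q.CoreStmt.{u} n →
    Q.UnipStmt.{u} n := by
  classical
  intro hB hD hBC n hC K F _ _ _ hch ρ v s hP hs hs'
  obtain ⟨ρ', hρ, hP'⟩ := hBC.1 F (RF F 3) n (n + 1) ρ v hP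
  obtain ⟨δ₁, h1⟩ := hD F ![1, 0, 0]
  obtain ⟨δ₂, h2⟩ := hD F ![0, 1, algebraMap (MvPolynomial (Fin 3) F) (RF F 3) (X 0)]
  have inj := (algebraMap F (RF F 3)).injective
  obtain ⟨S, s1, s2, s3, s4⟩ := unip_main (algebraMap (MvPolynomial (Fin 3) F) (RF F 3) (X 0))
    (algebraMap (MvPolynomial (Fin 3) F) (RF F 3) (X 1))
    (algebraMap (MvPolynomial (Fin 3) F) (RF F 3) (X 2)) hB hC K δ₁ δ₂ (h1 0) (h1 1) (h1 2) (h2 0)
    (h2 1) (h2 2) (s := fun x => algebraMap F (RF F 3) (s x))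
    (fun i hi hi' h => hch i hi (by omega) (inj (by rw [map_natCast, h, map_zero]))) hP'
    (fun h => hs (funext fun x => inj ((congrFun h x).trans (map_zero _).symm)))
    (fun i => funext fun x => by
      rw [hρ]
      exact (RingHom.map_mulVec (algebraMap F (RF F 3)) (ρ (X i)).toBlocks₁₁ s x).symm.trans
        (by rw [hs' i, Pi.zero_apply, map_zero, Pi.zero_apply]))
    (fun δ i x y => by
      rw [hρ]
      exact δ.map_algebraMap _)
    (fun δ x => δ.map_algebraMap _) fun δ x => δ.map_algebraMap _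
  let T : Finset (RF F 3) :=
    S ∪ Finset.univ.image fun i : Fin 3 => algebraMap (MvPolynomial (Fin 3) F) (RF F 3) (X i)
  have hST : cl K (S : Set (RF F 3)) ≤
      cl K (T : Set (RF F 3)) :=
    cl_mono (Finset.coe_subset.2 Finset.subset_union_left)
  have hX : ∀ i : Fin 3, algebraMap (MvPolynomial (Fin 3) F) (RF F 3) (X i) ∈
      cl K (T : Set (RF F 3)) := fun i =>
    subset_cl (Finset.mem_coe.2
      (Finset.mem_union_right _ (Finset.mem_image_of_mem _ (Finset.mem_univ i))))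
  refine ⟨T, (Finset.card_union_le _ _).trans (add_le_add s1 (Finset.card_image_le.trans
    (by simp))), fun i x y => ?_, fun x => hST (s3 x), fun x => hST (s4 x), hX⟩
  have h := invert _ _ _ (hX 0) (hX 1) (hX 2) (fun i x y => hST (s2 i x y)) i x y
  rwa [hρ] at h

open N.PunctAux in
theorem punctStmt : RatStmt.{u} → TrStmt.{u} → BCStmt.{u} → ∀ n, 0 < n → Q.UnipStmt.{u} n →
    PunctStmt.{u} n := by
  intro hRat hTr hBC n hn hU K F _ _ _ hchar ρ v p M hP hG
  classical
  obtain ⟨c, g, hrank, hli, hker, hpos⟩ := exists_ker_basis (fun i => ρ (X i))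
  have hc : 0 < c := hpos (hBC.2.2 F n M ρ v hn hP)
  -- base change to the function field
  obtain ⟨ρ', hρ', hP'⟩ := hBC.1 F (RF F c) n M ρ v hP
  have hP'' := hBC.2.1 (RF F c) n M ρ' _ hP'
  have hchar' : ∀ i : ℕ, 0 < i → i ≤ n → (i : RF F c) ≠ 0 := by
    intro i hi hin h
    apply hchar i hi hin
    apply (algebraMap F (RF F c)).injective
    rw [map_natCast, map_zero, h]
  let x : Fin c → RF F c := fun j => algebraMap (MvPolynomial (Fin c) F) (RF F c) (X j)
  let s : Fin n → RF F c := ∑ j, x j • (algebraMap F (RF F c) ∘ g j)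
  have hli1 : LinearIndependent (RF F c) (fun j => algebraMap F (RF F c) ∘ g j) :=
    linearIndependent_algebraMap_comp_iff.2 hli
  have hs0 : s ≠ 0 := by
    intro h
    have h0 := Fintype.linearIndependent_iff.1 hli1 x h ⟨0, hc⟩
    have hinj : Function.Injective (algebraMap (MvPolynomial (Fin c) F) (RF F c)) :=
      IsFractionRing.injective _ _
    exact X_ne_zero (R := F) (⟨0, hc⟩ : Fin c) (hinj (h0.trans (map_zero _).symm))
  have hsker : ∀ i, (ρ' (X i)).toBlocks₁₁ *ᵥ s = 0 := by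
    intro i
    have hb : (ρ' (X i)).toBlocks₁₁ = ((ρ (X i)).toBlocks₁₁).map (algebraMap F (RF F c)) := by
      rw [hρ' i]; rfl
    rw [hb]
    simp only [s, Matrix.mulVec_sum, Matrix.mulVec_smul]
    refine Finset.sum_eq_zero fun j _ => ?_
    have : ((ρ (X i)).toBlocks₁₁).map (algebraMap F (RF F c)) *ᵥ (algebraMap F (RF F c) ∘ g j)
        = 0 := by
      funext a
      rw [← RingHom.map_mulVec, hker j i]
      simp
    rw [this, smul_zero]
  obtain ⟨S, hScard, hS1, hS2, hS3, hS4⟩ := hU K (RF F c) hchar' ρ' _ s hP'' hs0 hsker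
  -- the enlarged generating set
  let j1 : RF F c →ₐ[K] RF (RF F c) 3 := IsScalarTower.toAlgHom K (RF F c) (RF (RF F c) 3)
  let j0 : F →ₐ[K] RF (RF F c) 3 := j1.comp (IsScalarTower.toAlgHom K F (RF F c))
  have hj0 : ∀ y : F, j0 y = algebraMap (RF F c) (RF (RF F c) 3) (algebraMap F (RF F c) y) :=
    fun y => rfl
  have hj1 : ∀ y, j1 y = algebraMap (RF F c) (RF (RF F c) 3) y := fun y => rfl
  let S' : Finset (RF (RF F c) 3) := S ∪ Finset.univ.image fun i => j0 (p i)
  have hS'card : S'.card ≤ n * n + 4 * n + 3 + 3 := by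
    refine (Finset.card_union_le _ _).trans (add_le_add hScard ?_)
    refine Finset.card_image_le.trans ?_
    simp
  set E := cl K (S' : Set (RF (RF F c) 3)) with hE
  have hle : cl K (S : Set (RF (RF F c) 3)) ≤ E :=
    cl_mono (by
      intro y hy
      exact Finset.mem_coe.2 (Finset.mem_union_left _ (Finset.mem_coe.1 hy)))
  have hF : ∀ y : F, j0 y ∈ E := by
    have htop : E.comap j0 = ⊤ := by
      refine hG (E.comap j0) ?_ ?_ ?_
      · intro i a b
        have := hle (hS1 i a b)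
        rw [hρ' i] at this
        exact this
      · intro a
        exact hle (hS2 a)
      · intro i
        refine subset_cl ?_
        exact Finset.mem_coe.2 (Finset.mem_union_right _
          (Finset.mem_image.2 ⟨i, Finset.mem_univ _, rfl⟩))
    intro y
    have : y ∈ E.comap j0 := htop ▸ IntermediateField.mem_top
    exact this
  have hX : ∀ j, j1 (x j) ∈ E := by
    have hsum : ∀ a, j1 (s a) = ∑ k ∈ Finset.univ, j1 (x k) * j0 (g k a) := by
      intro a
      simp only [s, Finset.sum_apply, Pi.smul_apply, smul_eq_mul, Function.comp_apply, map_sum,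
        map_mul]
      rfl
    obtain ⟨c', hc'E, hc'⟩ := hRat K (RF (RF F c) 3) E (Fin c) (Fin n) Finset.univ
      (fun k a => j0 (g k a)) (fun k => j1 (x k)) (fun a => j1 (s a))
      (fun k _ a => hF _) (fun a => hle (hS3 a)) hsum
    have hli2 : LinearIndependent (RF (RF F c) 3)
        (fun j => algebraMap (RF F c) (RF (RF F c) 3) ∘ (algebraMap F (RF F c) ∘ g j)) :=
      linearIndependent_algebraMap_comp_iff.2 hli1
    have hz := Fintype.linearIndependent_iff.1 hli2 (fun k => j1 (x k) - c' k) (by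
      funext a
      have h1 := hsum a
      have h2 := hc' a
      simp only [Finset.sum_apply, Pi.smul_apply, smul_eq_mul, Function.comp_apply, sub_mul,
        Finset.sum_sub_distrib, Pi.zero_apply, ← hj0]
      rw [← h1, ← h2, sub_self])
    intro j
    rw [sub_eq_zero.1 (hz j)]
    exact hc'E j
  have hF1 : ∀ y, j1 y ∈ E := hTr.2.1 K F _ c j1 E hF hX
  have hall : ∀ y, y ∈ E :=
    hTr.2.1 K (RF F c) _ 3 (AlgHom.id K _) E hF1 fun i => hle (hS4 i)
  have hup := trdeg_le S' hall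
  have h1 := hTr.1 K F c
  have h2 := hTr.1 K (RF F c) 3
  refine card_cancel (c := c) (w := Algebra.trdeg K (RF (RF F c) 3)) ?_ ?_ hrank
  · exact (add_le_add_left h1 _).trans h2
  · exact hup.trans (by exact_mod_cast hS'card)

theorem punct_of_chain (n : ℕ) (h0 : 0 < n) (h : Q.ChainStmt.{u} n) : PunctStmt.{u} n :=
  Q.punctStmt ratStmt trStmt bcStmt n h0
    (Q.unipStmt borelStmt derStmt bcStmt n (Q.coreStmt ratStmt n h))

end Pool.Agent.Lib.MP_ed43e6_ag.Q
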