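import Pool.Agent.Lib.MP_ed43e6_ag.N.All
import Pool.Agent.Lib.MP_ed43e6_ag.Q.ChainQ
import Pool.Agent.Lib.MP_ed43e6_ag.Q.Punct

/-! Smoothability of all ideals of bounded colength from the second order verification. -/

namespace Pool.Agent.Lib.MP_ed43e6_ag.Q

open MvPolynomial N

universe u

theorem smAllQ (hS : SecondStmt.{u}) (M : ℕ) (hM : M ≤ 100) (hC : CheckQ M) (D d : ℕ)
    (hD : d ≤ D) (hd : d ≤ M + 1) : SmAll.{u} D d := by
  induction d using Nat.strong_induction_on with | _ d ih => ?_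
  by_cases h32 : d ≤ 32
  · exact smAll D d hD h32
  obtain ⟨n, rfl⟩ : ∃ n, d = n + 1 := ⟨d - 1, by omega⟩
  exact step_of_punct D n (by omega) (Q.punct_of_chain n (by omega)
    (chainStmtQ nfStmt hS M hM hC n (by omega) (by omega)))
    fun e he => ih e he (by omega) (by omega)

theorem tables_primeQ (hS : SecondStmt.{u}) (M : ℕ) (hM : M ≤ 100) (hC : CheckQ M)
    (K : Type u) [Field K] [IsAlgClosed K] (d : ℕ) (hd : d ≤ M + 1)
    (hk : ringChar K = 0 ∨ d ≤ ringChar K) : (vanishingIdeal K (tables K (Fin d))).IsPrime :=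
  primeStmt K (Fin d) fun I hI h =>
    smAllQ hS M hM hC d d le_rfl hd K (cast_ne_zero hk) I hI (h.trans (Fintype.card_fin d))

end Pool.Agent.Lib.MP_ed43e6_ag.Q
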