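/-! Basic kernel friendly functions: packed lanes, loops and search trees. -/

namespace Pool.Agent.Lib.MP_ed43e6_ag.Q

noncomputable section

/-- The number with `n` lanes of `w` bits and lane values `f`. -/
def pk (w n : Nat) (f : Nat → Nat) : Nat :=
  Nat.rec 0 (fun i r => Nat.add r (Nat.shiftLeft (f i) (Nat.mul w i))) n

/-- Evaluate `n` before using it. -/
def frc {α : Type} (n : Nat) (f : Nat → α) : α := Nat.rec (f 0) (fun m _ => f (Nat.succ m)) n
def band (a b : Bool) : Bool := Bool.rec false b a
def bor (a b : Bool) : Bool := Bool.rec b true a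
def sel (c : Bool) (x y : Nat) : Nat := Bool.rec y x c
def allLt (n : Nat) (f : Nat → Bool) : Bool := Nat.rec true (fun i r => Bool.rec false r (f i)) n
def mn (a b : Nat) : Nat := Nat.sub a (Nat.sub a b)

/-- Lanes `2048 + x - y` of twelve bits become `x - y` truncated; `g` has all lanes `2048`. -/
def tsG (g d : Nat) : Nat :=
  Nat.land d (Nat.sub (Nat.land d g) (Nat.shiftRight (Nat.land d g) 11))
/-- Lanes `2048 + x - y` become the indicator of `y ≤ x`. -/
def geG (g d : Nat) : Nat := Nat.shiftRight (Nat.land d g) 11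
/-- Lanes `2048 + x` and `y` give `2048 + min x y`. -/
def mnG (g x y : Nat) : Nat := Nat.sub x (tsG g (Nat.sub x y))

/-- Search trees with numbers as keys and values. -/
inductive BT where
  | leaf : BT
  | node : Nat → Nat → BT → BT → BT

def BT.find (t : BT) (k : Nat) : Nat :=
  BT.rec 0 (fun k' v _ _ fl fr => Bool.rec (Bool.rec fr fl (Nat.ble k k')) v (Nat.beq k k')) t

/-- Finite sets of numbers as search trees. -/
inductive KT where
  | nil : KT
  | one : Nat → KT
  | br : Nat → KT → KT → KT

def KT.has (t : KT) (k : Nat) : Bool :=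
  KT.rec false (fun k' => Nat.beq k k') (fun p _ _ fl fr => Bool.rec fr fl (Nat.ble k p)) t

def KT.all (t : KT) (f : Nat → Bool) : Bool :=
  KT.rec true (fun k' => f k') (fun _ _ _ fl fr => Bool.rec false fr fl) t

end

end Pool.Agent.Lib.MP_ed43e6_ag.Q
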