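import Pool.Agent.Lib.MP_ed43e6_ag.N.Lane
import Pool.Agent.Lib.MP_ed43e6_ag.Q.Base

/-! Lanewise meaning of operations on packed numbers. -/

namespace Pool.Agent.Lib.MP_ed43e6_ag.Q

open Finset

theorem frc_eq {α : Type} (n : ℕ) (f : ℕ → α) : frc n f = f n := by cases n <;> rfl
theorem band_iff (a b : Bool) : band a b = true ↔ a = true ∧ b = true := by
  cases a <;> simp [band]
theorem bor_iff (a b : Bool) : bor a b = true ↔ a = true ∨ b = true := by
  cases a <;> simp [bor]
theorem sel_ble (a b x y : ℕ) : sel (Nat.ble a b) x y = if a ≤ b then x else y := by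
  by_cases h : a ≤ b
  · rw [if_pos h, Nat.ble_eq_true_of_le h]; rfl
  · rw [if_neg h, Bool.eq_false_iff.2 fun e => h (Nat.le_of_ble_eq_true e)]; rfl
theorem sel_beq (a b x y : ℕ) : sel (Nat.beq a b) x y = if a = b then x else y := by
  by_cases h : a = b
  · rw [if_pos h, h, Nat.beq_refl]; rfl
  · rw [if_neg h, Bool.eq_false_iff.2 fun e => h (Nat.eq_of_beq_eq_true e)]; rfl
theorem allLt_iff (n : ℕ) (f : ℕ → Bool) : allLt n f = true ↔ ∀ i < n, f i = true := by
  induction n with
  | zero => simp [allLt]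
  | succ n ih =>
    rw [show allLt (n + 1) f = band (f n) (allLt n f) from rfl, band_iff, ih,
      Nat.forall_lt_succ_right, and_comm]
theorem mn_eq (a b : ℕ) : mn a b = min a b := by
  change a - (a - b) = _
  omega

theorem KT.has_all (t : KT) (f : ℕ → Bool) (k : ℕ) (h : t.has k = true) (ha : t.all f = true) :
    f k = true := by
  induction t with
  | nil => exact absurd h Bool.false_ne_true
  | one k' => exact (Nat.eq_of_beq_eq_true h : k = k') ▸ ha
  | br p l r il ir =>
    have ha' := (band_iff (l.all f) (r.all f)).1 ha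
    have h' : (Bool.rec (r.has k) (l.has k) (Nat.ble k p) : Bool) = true := h
    cases e : Nat.ble k p
    · rw [e] at h'; exact ir h' ha'.2
    · rw [e] at h'; exact il h' ha'.1

theorem KT.has_br {p k : ℕ} {l r : KT} (h : (KT.br p l r).has k = true) :
    l.has k = true ∨ r.has k = true := by
  have h' : (Bool.rec (r.has k) (l.has k) (Nat.ble k p) : Bool) = true := h
  cases e : Nat.ble k p
  · rw [e] at h'; exact Or.inr h'
  · rw [e] at h'; exact Or.inl h'

section Basic

variable (w n : ℕ) (f g : ℕ → ℕ)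

theorem pk_zero : pk w 0 f = 0 := rfl
theorem pk_succ : pk w (n + 1) f = 2 ^ (w * n) * f n + pk w n f := MP_5a2675_co.pk_succ w n f
theorem pk_congr (h : ∀ i < n, f i = g i) : pk w n f = pk w n g := MP_5a2675_co.pk_congr w n f g h
theorem pk_add : pk w n f + pk w n g = pk w n fun i => f i + g i := MP_5a2675_co.pk_add w n f g
theorem pk_mul (c : ℕ) : pk w n f * c = pk w n fun i => f i * c := MP_5a2675_co.pk_mul w n c f
theorem pk_lt (h : ∀ i < n, f i < 2 ^ w) : pk w n f < 2 ^ (w * n) := MP_5a2675_co.pk_lt w n f h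
theorem pk_or (hf : ∀ i < n, f i < 2 ^ w) (hg : ∀ i < n, g i < 2 ^ w) :
    pk w n f ||| pk w n g = pk w n fun i => f i ||| g i := MP_5a2675_co.pk_or w n f g hf hg
theorem pk_and (hf : ∀ i < n, f i < 2 ^ w) (hg : ∀ i < n, g i < 2 ^ w) :
    pk w n f &&& pk w n g = pk w n fun i => f i &&& g i := MP_5a2675_co.pk_and w n f g hf hg
theorem pk_eq_zero (h : pk w n f = 0) : ∀ i < n, f i = 0 := MP_5a2675_co.pk_eq_zero w n f h
theorem pk_sub (h : ∀ i < n, g i ≤ f i) : pk w n f - pk w n g = pk w n fun i => f i - g i :=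
  N.Lane.pk_sub w n f g h
theorem pk_shr (k : ℕ) : (pk w n fun i => f i * 2 ^ k) >>> k = pk w n f := N.Lane.pk_shr w n k f
theorem pk_mod : pk w n f ≡ ∑ i ∈ range n, f i [MOD 2 ^ w - 1] := N.Lane.pk_mod w n f
theorem pk_get (j : ℕ) (h : ∀ i < n, f i < 2 ^ w) (hj : j < n) :
    pk w n f >>> (w * j) &&& (2 ^ w - 1) = f j := N.Lane.pk_get w n j f h hj

theorem pk_sum (h : ∑ i ∈ range n, f i < 2 ^ w - 1) :
    pk w n f % (2 ^ w - 1) = ∑ i ∈ range n, f i := by
  rw [pk_mod w n f, Nat.mod_eq_of_lt h]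

theorem pk_const_zero : pk w n (fun _ => 0) = 0 := by
  induction n with
  | zero => rfl
  | succ n ih => rw [pk_succ, ih]; rfl

theorem pk_split (m : ℕ) :
    pk w (m + n) f = pk w m f + 2 ^ (w * m) * pk w n fun i => f (m + i) := by
  induction n with
  | zero => rfl
  | succ n ih => rw [← add_assoc, pk_succ, pk_succ, ih]; ring

theorem pk_ext (m : ℕ) (hm : n ≤ m) (h : ∀ i, n ≤ i → i < m → f i = 0) : pk w m f = pk w n f := by
  obtain ⟨k, rfl⟩ := Nat.exists_eq_add_of_le hm
  rw [pk_split, pk_congr w k _ (fun _ => 0) fun i hi => h _ (by omega) (by omega), pk_const_zero,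
    mul_zero, add_zero]

theorem pk_pad (m : ℕ) (hm : n ≤ m) : pk w n f = pk w m fun i => if i < n then f i else 0 := by
  rw [pk_ext w n _ m hm fun i hi _ => if_neg (by omega)]
  exact pk_congr _ _ _ _ fun i hi => (if_pos hi).symm

theorem pk_shl (s : ℕ) :
    pk w n f <<< (w * s) = pk w (s + n) fun i => if s ≤ i then f (i - s) else 0 := by
  rw [pk_split, pk_congr w s _ (fun _ => 0) fun i hi => if_neg (by omega), pk_const_zero,
    zero_add, Nat.shiftLeft_eq, mul_comm]
  congr 1
  exact pk_congr _ _ _ _ fun i _ => by rw [if_pos (by omega), Nat.add_sub_cancel_left]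

theorem pk_shl' (s : ℕ) (h : ∀ i < n, n ≤ i + s → f i = 0) :
    pk w n f <<< (w * s) = pk w n fun i => if s ≤ i then f (i - s) else 0 := by
  rw [pk_shl, pk_ext w n _ (s + n) (by omega)]
  intro i h1 h2
  split_ifs with hs
  · exact h _ (by omega) (by omega)
  · rfl

theorem pk_shrl (s : ℕ) (h : ∀ i < n, f i < 2 ^ w) :
    pk w n f >>> (w * s) = pk w n fun i => if i + s < n then f (i + s) else 0 := by
  rw [Nat.shiftRight_eq_div_pow]
  by_cases hs : s ≤ n
  · obtain ⟨k, rfl⟩ := Nat.exists_eq_add_of_le hs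
    rw [pk_split, Nat.add_mul_div_left _ _ (by positivity),
      Nat.div_eq_of_lt (pk_lt _ _ _ fun i hi => h i (by omega)), zero_add,
      pk_ext w k _ (s + k) (by omega) fun i hi _ => if_neg (by omega)]
    exact pk_congr _ _ _ _ fun i hi => by rw [if_pos (by omega), add_comm]
  · rw [Nat.div_eq_of_lt ((pk_lt _ _ _ h).trans_le
      (Nat.pow_le_pow_right (by omega) (Nat.mul_le_mul_left _ (by omega)))),
      pk_congr w n _ (fun _ => 0) fun i _ => if_neg (by omega), pk_const_zero]

theorem pk_and' (m : ℕ) (hm : n ≤ m) (hf : ∀ i < m, f i < 2 ^ w) (hg : ∀ i < n, g i < 2 ^ w) :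
    pk w m f &&& pk w n g = pk w n fun i => f i &&& g i := by
  rw [pk_pad w n g m hm, pk_and w m _ _ hf fun i _ => by
    split_ifs with hi
    · exact hg i hi
    · positivity, pk_ext w n _ m hm fun i hi _ => by rw [if_neg (by omega), Nat.and_zero]]
  exact pk_congr _ _ _ _ fun i hi => by rw [if_pos hi]

theorem pk_nest (m : ℕ) (F : ℕ → ℕ → ℕ) :
    pk (w * n) m (fun j => pk w n (F j)) = pk w (n * m) fun l => F (l / n) (l % n) := by
  induction m with
  | zero => rfl
  | succ m ih =>
    rw [pk_succ, ih, Nat.mul_succ, pk_split, add_comm, mul_assoc]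
    congr 2
    refine pk_congr _ _ _ _ fun i hi => ?_
    rw [Nat.mul_add_div (by omega), Nat.div_eq_of_lt hi, add_zero, Nat.mul_add_mod,
      Nat.mod_eq_of_lt hi]

theorem pk_rep (m : ℕ) :
    pk w n f * pk (w * n) m (fun _ => 1) = pk w (n * m) fun l => f (l % n) := by
  rw [mul_comm, pk_mul, ← pk_nest w n m fun _ => f]
  exact pk_congr _ _ _ _ fun _ _ => one_mul _

theorem pk_brd (m : ℕ) :
    pk (w * n) m f * pk w n (fun _ => 1) = pk w (n * m) fun l => f (l / n) := by
  rw [pk_mul, ← pk_nest w n m fun j _ => f j]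
  refine pk_congr _ _ _ _ fun j _ => ?_
  rw [mul_comm, pk_mul]
  exact pk_congr _ _ _ _ fun _ _ => one_mul _

theorem pk_first (hn : 0 < n) (c : ℕ) : (pk w n fun i => if i = 0 then c else 0) = c := by
  rw [pk_ext w 1 _ n hn fun i hi _ => if_neg (by omega)]
  simp [pk_succ, pk_zero]

theorem pk_blk (m : ℕ) (hn : 0 < n) :
    pk (w * n) m f = pk w (n * m) fun l => if l % n = 0 then f (l / n) else 0 := by
  rw [← pk_nest w n m fun j i => if i = 0 then f j else 0]
  exact pk_congr _ _ _ _ fun j _ => (pk_first w n hn _).symm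

theorem pk_conv (s m : ℕ) : pk w n f * pk (w * s) m (fun _ => 1) =
    pk w (s * m + n) fun t => ∑ j ∈ range m,
      if s * j ≤ t ∧ t < s * j + n then f (t - s * j) else 0 := by
  induction m with
  | zero => simp [pk_zero, pk_const_zero]
  | succ m ih =>
    rw [pk_succ, mul_add, ih, mul_one, mul_assoc, ← Nat.shiftLeft_eq, pk_shl, pk_add,
      pk_pad w (s * m + n) _ (s * (m + 1) + n) (by rw [mul_add]; omega)]
    refine pk_congr _ _ _ _ fun t _ => ?_
    rw [sum_range_succ, add_comm]
    split_ifs with c1 c2 c3 c4 c5 <;> try omega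
    all_goals
      rw [add_zero]
      refine (sum_eq_zero fun j hj => if_neg ?_).symm
      have := Nat.mul_le_mul_left s (mem_range.1 hj).le
      omega

theorem sum_pk (m : ℕ) (F : ℕ → ℕ → ℕ) :
    ∑ j ∈ range m, pk w n (F j) = pk w n fun i => ∑ j ∈ range m, F j i := by
  induction m with
  | zero => simp [pk_const_zero]
  | succ m ih => simp only [sum_range_succ, ih, pk_add]

theorem pk_full : pk w n (fun _ => 2 ^ w - 1) + 1 = 2 ^ (w * n) := by
  have : 0 < 2 ^ w := by positivity
  induction n with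
  | zero => rfl
  | succ n ih =>
    obtain ⟨k, hk⟩ : ∃ k, 2 ^ w = k + 1 := ⟨2 ^ w - 1, by omega⟩
    rw [pk_succ, add_assoc, ih, Nat.mul_succ, pow_add, hk, Nat.add_sub_cancel]
    ring

theorem pk_fold (m : ℕ) (hn : 0 < n) (F : ℕ → ℕ → ℕ)
    (h : ∀ i < n, ∑ j ∈ range m, F j i < 2 ^ w - 1) :
    (pk w (n * m) fun l => F (l / n) (l % n)) % (2 ^ (w * n) - 1) =
      pk w n fun i => ∑ j ∈ range m, F j i := by
  rw [← pk_nest, pk_mod, sum_pk, Nat.mod_eq_of_lt]
  have h1 := pk_full w n
  have h2 := pk_add w n (fun i => ∑ j ∈ range m, F j i)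
    fun i => 2 ^ w - 1 - ∑ j ∈ range m, F j i
  rw [pk_congr w n (fun i => _ + _) (fun _ => 2 ^ w - 1) fun i hi => by
    have := h i hi; omega] at h2
  have h3 : (pk w n fun i => 2 ^ w - 1 - ∑ j ∈ range m, F j i) ≠ 0 := fun e => by
    have := pk_eq_zero _ _ _ e 0 hn
    have := h 0 hn
    omega
  omega

end Basic

section Twelve

variable (n : ℕ) (d y : ℕ → ℕ)

theorem and_2048 {x : ℕ} (hx : x < 4096) (c : Prop) [Decidable c] :
    x &&& (if c then 2048 else 0) = if c ∧ 2048 ≤ x then 2048 else 0 := by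
  by_cases hc : c
  · rw [if_pos hc, show (2048 : ℕ) = 2 ^ 11 from rfl, Nat.and_two_pow]
    by_cases e : 2 ^ 11 ≤ x
    · rw [Nat.testBit_of_two_pow_le_and_two_pow_add_one_gt e hx, if_pos ⟨hc, e⟩]; rfl
    · rw [Nat.testBit_lt_two_pow (by omega), if_neg fun h => e h.2]; rfl
  · rw [if_neg hc, if_neg fun h => hc h.1, Nat.and_zero]

theorem and_4095 {x : ℕ} (hx : x < 4096) (c : Prop) [Decidable c] :
    x &&& (if c then 4095 else 0) = if c then x else 0 := by
  split_ifs
  · exact (Nat.and_two_pow_sub_one_eq_mod x 12).trans (Nat.mod_eq_of_lt hx)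
  · exact Nat.and_zero _

theorem pk_landG (c : ℕ → Prop) [DecidablePred c] (h : ∀ i < n, d i < 4096) :
    pk 12 n d &&& pk 12 n (fun i => if c i then 2048 else 0) =
      pk 12 n fun i => if c i ∧ 2048 ≤ d i then 2048 else 0 := by
  rw [pk_and 12 n _ _ h fun i _ => by split_ifs <;> norm_num]
  exact pk_congr _ _ _ _ fun i hi => and_2048 (h i hi) _

theorem pk_landG' (h : ∀ i < n, d i < 4096) :
    pk 12 n d &&& pk 12 n (fun _ => 2048) = pk 12 n fun i => if 2048 ≤ d i then 2048 else 0 := by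
  simpa using pk_landG n d (fun _ => True) h

theorem pk_mask (m : ℕ) (hm : n ≤ m) (c : ℕ → Prop) [DecidablePred c] (h : ∀ i < m, d i < 4096) :
    pk 12 m d &&& pk 12 n (fun i => if c i then 4095 else 0) =
      pk 12 n fun i => if c i then d i else 0 := by
  rw [pk_and' 12 n _ _ m hm h fun i _ => by split_ifs <;> norm_num]
  exact pk_congr _ _ _ _ fun i hi => and_4095 (h i (by omega)) _

theorem pk_shrG (c : ℕ → Prop) [DecidablePred c] (k e : ℕ) (he : e * 2 ^ k = 2048) :
    pk 12 n (fun i => if c i then 2048 else 0) >>> k = pk 12 n fun i => if c i then e else 0 := by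
  rw [← pk_shr 12 n (fun i => if c i then e else 0) k]
  refine congrArg (· >>> k) (pk_congr _ _ _ _ fun i _ => ?_)
  split_ifs <;> simp [he]

theorem pk_geG (c : ℕ → Prop) [DecidablePred c] (h : ∀ i < n, d i < 4096) :
    geG (pk 12 n fun i => if c i then 2048 else 0) (pk 12 n d) =
      pk 12 n fun i => if c i ∧ 2048 ≤ d i then 1 else 0 := by
  change (pk 12 n d &&& _) >>> 11 = _
  rw [pk_landG n d c h, pk_shrG n _ 11 1 rfl]

theorem pk_geG' (h : ∀ i < n, d i < 4096) :
    geG (pk 12 n fun _ => 2048) (pk 12 n d) = pk 12 n fun i => if 2048 ≤ d i then 1 else 0 := by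
  simpa using pk_geG n d (fun _ => True) h

theorem pk_tsG (h : ∀ i < n, d i < 4096) :
    tsG (pk 12 n fun _ => 2048) (pk 12 n d) = pk 12 n fun i => d i - 2048 := by
  change pk 12 n d &&& ((pk 12 n d &&& _) - (pk 12 n d &&& _) >>> 11) = _
  rw [pk_landG' n d h, pk_shrG n _ 11 1 rfl, pk_sub _ _ _ _ fun i _ => by split_ifs <;> omega,
    pk_and 12 n _ _ h fun i _ => by split_ifs <;> norm_num]
  refine pk_congr _ _ _ _ fun i hi => ?_
  have := h i hi
  split_ifs with e
  · exact (Nat.and_two_pow_sub_one_eq_mod (d i) 11).trans (by omega)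
  · rw [Nat.and_zero]; omega

theorem pk_mnG (h : ∀ i < n, d i < 2048 ∧ y i ≤ 2048) :
    mnG (pk 12 n fun _ => 2048) (pk 12 n fun i => d i + 2048) (pk 12 n y) =
      pk 12 n fun i => min (d i) (y i) + 2048 := by
  change _ - tsG _ (_ - _) = _
  rw [pk_sub _ _ _ _ fun i hi => by have := h i hi; omega,
    pk_tsG _ _ fun i hi => by have := h i hi; omega, pk_sub _ _ _ _ fun i hi => by omega]
  exact pk_congr _ _ _ _ fun i hi => by have := h i hi; omega

theorem pk_bitand (h : ∀ i < n, d i ≤ 1 ∧ y i ≤ 1) :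
    pk 12 n d &&& pk 12 n y = pk 12 n fun i => d i * y i := by
  rw [pk_and 12 n _ _ (fun i hi => by have := h i hi; omega) fun i hi => by
    have := h i hi; omega]
  refine pk_congr _ _ _ _ fun i hi => ?_
  obtain ⟨h1, h2⟩ := h i hi
  interval_cases d i <;> interval_cases y i <;> rfl

theorem pk_orG (c c' : ℕ → Prop) [DecidablePred c] [DecidablePred c'] (e : ℕ) (he : e < 4096) :
    pk 12 n (fun i => if c i then e else 0) ||| pk 12 n (fun i => if c' i then e else 0) =
      pk 12 n fun i => if c i ∨ c' i then e else 0 := by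
  rw [pk_or 12 n _ _ (fun i _ => by split_ifs <;> omega) fun i _ => by split_ifs <;> omega]
  refine pk_congr _ _ _ _ fun i _ => ?_
  by_cases h1 : c i <;> by_cases h2 : c' i <;> simp [h1, h2]

theorem mL_eq (hn : 0 < n) : pk (12 * n) n (fun _ => 1) * 4095 =
    pk 12 (n * n) fun l => if l % n = 0 then 4095 else 0 := by
  rw [pk_mul, pk_blk 12 n _ n hn]

theorem pk_spr (hn : 2 ≤ n) (h : ∀ i < n, d i < 2048) :
    (pk 12 n d * pk (12 * (n - 1)) n fun _ => 1) &&& (pk (12 * n) n (fun _ => 1) * 4095) =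
      pk (12 * n) n d := by
  obtain ⟨k, rfl⟩ : ∃ k, n = k + 1 := ⟨n - 1, by omega⟩
  rw [Nat.add_sub_cancel, pk_conv, mL_eq _ (by omega), pk_mask _ _ _ (by nlinarith),
    pk_blk 12 (k + 1) d (k + 1) (by omega)]
  · refine pk_congr _ _ _ _ fun l hl => ?_
    split_ifs with c
    swap
    · rfl
    obtain ⟨i, rfl⟩ := Nat.dvd_of_mod_eq_zero c
    have hi : i < k + 1 := Nat.lt_of_mul_lt_mul_left hl
    rw [Nat.mul_div_cancel_left _ (by omega), sum_eq_single i, if_pos (by
      rw [add_mul]; omega), add_mul, one_mul, Nat.add_sub_cancel_left]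
    · intro j hj hne
      rw [mem_range] at hj
      rw [if_neg]
      rcases lt_or_gt_of_ne hne with h1 | h1
      · have : k * (j + 1) ≤ k * i := Nat.mul_le_mul_left k h1
        rw [mul_add] at this
        rw [add_mul]
        omega
      · have : k * (i + 1) ≤ k * j := Nat.mul_le_mul_left k h1
        rw [mul_add] at this
        rw [add_mul]
        omega
    · exact fun hn => absurd (mem_range.2 hi) hn
  · intro t _
    have key : ∀ j ∈ range (k + 1), (if k * j ≤ t ∧ t < k * j + (k + 1) then d (t - k * j) else 0) ≤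
        (if j = t / k then 2047 else 0) + if j = t / k - 1 then 2047 else 0 := by
      intro j _
      split_ifs with c1 c2 c3 c4 <;> try omega
      all_goals have := h (t - k * j) (by omega)
      · omega
      · omega
      · omega
      · have h1 : j ≤ t / k := (Nat.le_div_iff_mul_le (by omega)).2 (by rw [mul_comm]; omega)
        have h2 : t / k < j + 2 := (Nat.div_lt_iff_lt_mul (by omega)).2 (by
          rw [add_mul, mul_comm]; omega)
        omega
    refine (sum_le_sum key).trans_lt ?_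
    rw [sum_add_distrib, sum_ite_eq', sum_ite_eq']
    split_ifs <;> omega

theorem pk_bs (hn : 0 < n) (c : ℕ) (hc : n * c < 4096) (h : ∀ l < n * n, d l ≤ c) :
    (pk 12 (n * n) d * pk 12 n fun _ => 1) >>> (12 * (n - 1)) &&&
      (pk (12 * n) n (fun _ => 1) * 4095) =
      pk (12 * n) n fun j => ∑ i ∈ range n, d (n * j + i) := by
  have hb : ∀ t, (∑ j ∈ range n, if 1 * j ≤ t ∧ t < 1 * j + n * n then d (t - 1 * j) else 0) <
      4096 := fun t => by
    refine (sum_le_card_nsmul _ _ c fun j _ => ?_).trans_lt (by rwa [card_range, smul_eq_mul])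
    split_ifs with e
    · exact h _ (by omega)
    · exact Nat.zero_le _
  have e := pk_conv 12 (n * n) d 1 n
  rw [mul_one] at e
  rw [e, pk_shrl _ _ _ _ fun t _ => hb t, mL_eq _ hn, pk_mask _ _ _ (by omega),
    pk_blk 12 n _ n hn]
  · refine pk_congr _ _ _ _ fun l hl => ?_
    split_ifs with c1 c2
    · obtain ⟨j, rfl⟩ := Nat.dvd_of_mod_eq_zero c1
      have hj : j + 1 ≤ n := Nat.lt_of_mul_lt_mul_left hl
      have := Nat.mul_le_mul_left n hj
      rw [mul_add] at this
      rw [Nat.mul_div_cancel_left _ hn, ← sum_range_reflect]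
      refine sum_congr rfl fun i hi => ?_
      rw [mem_range] at hi
      rw [if_pos (by omega)]
      congr 1
      omega
    · omega
    · rfl
  · intro t _
    split_ifs
    · exact hb _
    · norm_num

end Twelve

end Pool.Agent.Lib.MP_ed43e6_ag.Q
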