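import Pool.Agent.Lib.MP_ed43e6_ag.Q.Tr
import Pool.Agent.Lib.MP_ed43e6_ag.Q.Pk

/-! The matrices of pairs of classes. -/

namespace Pool.Agent.Lib.MP_ed43e6_ag.Q.Bd

open Finset N

theorem pk_bit {w n : ℕ} {f : ℕ → ℕ} (h : ∀ i < n, f i < 2 ^ w) {l r : ℕ} (hr : r < w) :
    (pk w n f).testBit (w * l + r) ↔ l < n ∧ (f l).testBit r := by
  induction n with
  | zero => simp [pk_zero]
  | succ n ih =>
    have h' : ∀ i < n, f i < 2 ^ w := fun i hi => h i (by omega)
    rw [pk_succ, Nat.testBit_two_pow_mul_add _ (pk_lt w n f h')]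
    rcases lt_trichotomy l n with e | rfl | e
    · have : w * (l + 1) ≤ w * n := Nat.mul_le_mul_left w e
      rw [mul_add] at this
      rw [if_pos (by omega), ih h', and_iff_right e, and_iff_right (by omega)]
    · rw [if_neg (by omega), Nat.add_sub_cancel_left, and_iff_right (by omega)]
    · have : w * (n + 1) ≤ w * l := Nat.mul_le_mul_left w e
      rw [mul_add] at this
      rw [if_neg (by omega), Nat.testBit_lt_two_pow ((h n (by omega)).trans_le
        (Nat.pow_le_pow_right two_pos (by omega)))]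
      simp [e.not_ge]

theorem pk_xor {w n : ℕ} {f g : ℕ → ℕ} (hw : 0 < w) (hf : ∀ i < n, f i < 2 ^ w)
    (hg : ∀ i < n, g i < 2 ^ w) : pk w n f ^^^ pk w n g = pk w n fun i => f i ^^^ g i := by
  refine Nat.eq_of_testBit_eq fun p => ?_
  have r := Nat.mod_lt p hw
  rw [Bool.eq_iff_iff, ← Nat.xor_eq, bit_xor, ← Nat.div_add_mod p w, pk_bit hf r, pk_bit hg r,
    pk_bit (fun i hi => Nat.xor_lt_two_pow (hf i hi) (hg i hi)) r, ← Nat.xor_eq, bit_xor]
  tauto

theorem xor_mask (k c m : ℕ) {e e' : ℕ} (h : e < 2 ^ k) (h' : e' < 2 ^ k) :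
    ((2 ^ k * c + e) ^^^ (2 ^ k * c + e')) &&& (2 ^ k * m) = 0 := by
  refine Nat.eq_of_testBit_eq fun i => ?_
  rw [Nat.testBit_and, Nat.testBit_xor, Nat.testBit_two_pow_mul_add _ h,
    Nat.testBit_two_pow_mul_add _ h', Nat.testBit_two_pow_mul]
  split_ifs with a
  · simp [a.not_ge]
  · simp

/-- The matrix with entries `F a b`. -/
def mx (n : ℕ) (F : ℕ → ℕ → ℕ) : ℕ := pk 26 (n * n) fun l => F (l / n) (l % n)

variable {n C a b : ℕ} {F G : ℕ → ℕ → ℕ}

theorem oa_eq (n : ℕ) : oa n = mx n fun _ _ => 1 := pk_rep 26 n (fun _ => 1) n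

theorem oa_mul (n c : ℕ) : Nat.mul (oa n) c = mx n fun _ _ => c := by
  rw [oa_eq]
  exact (pk_mul 26 _ _ c).trans (pk_congr _ _ _ _ fun _ _ => one_mul c)

theorem tri_eq (e n : ℕ) : tri e n = mx n fun a b => if a + e ≤ b then 2 ^ 25 else 0 :=
  (pk_nest 26 n n _).trans (pk_congr _ _ _ _ fun _ _ => sel_ble _ _ _ _)

theorem mA_eq (C n : ℕ) : mA C n = mx n fun _ b => fk (wd C b) :=
  (pk_rep 26 n _ n).trans (pk_congr _ _ _ _ fun _ _ => frc_eq _ _)

theorem mB_eq (C n : ℕ) : mB C n = mx n fun a _ => fk (wd C a) :=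
  (pk_brd 26 n _ n).trans (pk_congr _ _ _ _ fun _ _ => frc_eq _ _)

theorem mx_add : Nat.add (mx n F) (mx n G) = mx n fun a b => F a b + G a b := pk_add _ _ _ _

theorem mx_sub (h : ∀ a b, G a b ≤ F a b) :
    Nat.sub (mx n F) (mx n G) = mx n fun a b => F a b - G a b := pk_sub _ _ _ _ fun _ _ => h _ _

theorem mx_xor_and {c : ℕ} (hF : ∀ a b, F a b < 2 ^ 26) (hG : ∀ a b, G a b < 2 ^ 26)
    (hc : c < 2 ^ 26) : Nat.land (Nat.xor (mx n F) (mx n G)) (mx n fun _ _ => c) =
      mx n fun a b => (F a b ^^^ G a b) &&& c := by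
  rw [Nat.xor_eq, mx, mx, pk_xor (by omega) (fun _ _ => hF _ _) fun _ _ => hG _ _]
  exact pk_and 26 _ _ _ (fun _ _ => Nat.xor_lt_two_pow (hF _ _) (hG _ _)) fun _ _ => hc

theorem lane_lt (ha : a < n) (hb : b < n) : n * a + b < n * n := by
  have : n * (a + 1) ≤ n * n := Nat.mul_le_mul_left n ha
  rw [mul_add] at this
  omega

theorem lane_div (hb : b < n) : (n * a + b) / n = a := by
  rw [Nat.mul_add_div (by omega), Nat.div_eq_of_lt hb, add_zero]

theorem lane_mod (hb : b < n) : (n * a + b) % n = b := by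
  rw [Nat.mul_add_mod, Nat.mod_eq_of_lt hb]

theorem mx_bit (hF : ∀ a b, F a b < 2 ^ 26) (ha : a < n) (hb : b < n) :
    (mx n F).testBit (26 * (n * a + b) + 25) ↔ (F a b).testBit 25 := by
  rw [mx, pk_bit (fun _ _ => hF _ _) (by omega), and_iff_right (lane_lt ha hb), lane_div hb,
    lane_mod hb]

/-- All bits of `x` are top bits of lanes. -/
def Tops (n x : ℕ) : Prop := ∀ p, x.testBit p → ∃ l < n * n, p = 26 * l + 25

theorem tops_tri (e n : ℕ) : Tops n (tri e n) := fun p h => by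
  rw [tri_eq, ← Nat.div_add_mod p 26, mx,
    pk_bit (fun _ _ => by split_ifs <;> omega) (Nat.mod_lt p (by omega))] at h
  refine ⟨p / 26, h.1, ?_⟩
  have := h.2
  split_ifs at this
  · rw [Nat.testBit_two_pow, decide_eq_true_eq] at this
    omega
  · simp at this

theorem bit_zer {t x p : ℕ} :
    (zer n t x).testBit p ↔ t.testBit p ∧ ¬ (Nat.add x (c25 n)).testBit p := by
  rw [zer, bit_xor, bit_and]
  tauto

theorem zer_mx {e : ℕ} (hF : ∀ a b, F a b < 2 ^ 25) (hab : a + e ≤ b) (hb : b < n)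
    (h0 : F a b = 0) : (zer n (tri e n) (mx n F)).testBit (26 * (n * a + b) + 25) := by
  rw [bit_zer, tri_eq, c25, oa_mul, mx_add,
    mx_bit (fun _ _ => by split_ifs <;> omega) (by omega) hb,
    mx_bit (fun a b => by have := hF a b; omega) (by omega) hb, if_pos hab, h0]
  decide

theorem low_eq (hn : n ≤ 126) {x l : ℕ} (hl : l < n * n) (h : Low x (26 * l + 25)) :
    low n x = l := by
  have e : n * n ≤ 126 * 126 := Nat.mul_le_mul hn hn
  obtain ⟨k, hk⟩ : ∃ k, n * n = l + 1 + k := ⟨n * n - (l + 1), by omega⟩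
  have s := pk_sum 26 (l + 1) (fun _ => 1) (by rw [sum_const, card_range, smul_eq_mul]; omega)
  rw [sum_const, card_range, smul_eq_mul, mul_one] at s
  rw [low, Nat.sub_eq (x := x), h.xor_pred, Nat.land_eq, Nat.and_comm, Nat.and_two_pow_sub_one_eq_mod,
    oa_eq, mx, hk, pk_split, show 26 * l + 25 + 1 = 26 * (l + 1) by omega, Nat.add_mul_mod_self_left,
    Nat.mod_eq_of_lt (pk_lt 26 (l + 1) _ fun _ _ => by omega)]
  exact congrArg (· - 1) s

theorem hits_spec (hn : n ≤ 126) {f : ℕ → ℕ → Bool} {fuel x : ℕ} (hx : Tops n x)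
    (h : hits n f fuel x = true) (hb : b < n) (e : x.testBit (26 * (n * a + b) + 25)) :
    f a b = true := by
  induction fuel generalizing x with
  | zero => exact Bool.noConfusion h
  | succ k ih =>
    have x0 : x ≠ 0 := fun y => by
      rw [y, Nat.zero_testBit] at e
      exact Bool.noConfusion e
    change (Bool.rec (band (f (low n x / n) (low n x % n)) (hits n f k (drop x))) true
      (Nat.beq x 0) : Bool) = true at h
    rw [Bool.eq_false_iff.2 (mt Nat.eq_of_beq_eq_true x0)] at h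
    obtain ⟨h1, h2⟩ := band_iff.1 h
    obtain ⟨p, hp⟩ := low_ex x0
    obtain ⟨l, hl, rfl⟩ := hx p hp.1
    by_cases c : l = n * a + b
    · rwa [low_eq hn hl hp, c, lane_div hb, lane_mod hb] at h1
    · exact ih (fun q y => hx q (hp.drop.1 y).1) h2 (hp.drop.2 ⟨e, by omega⟩)

theorem fc_le (w : ℕ) : fc w ≤ 18831 := by
  have a : fda w ≤ 15 := Nat.and_le_right
  have b : fdb w ≤ 31 := Nat.and_le_right
  have c : fdt w ≤ 63 := Nat.and_le_right
  simp only [fc, code_eq, ix]
  omega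

theorem fe_lt (C a : ℕ) : fe (wd C a) < 64 := by
  have : wd C a ≤ 17179869183 := Nat.and_le_right
  rw [fe, Nat.shiftRight_eq', Nat.shiftRight_eq_div_pow]
  omega

theorem fk_eq (w : ℕ) : fk w = fc w * 256 + fe w := rfl

theorem fk_lt (C a : ℕ) : fk (wd C a) < 2 ^ 23 := by
  have := fc_le (wd C a)
  have := fe_lt C a
  rw [fk_eq]
  omega

variable {z g : ℕ}

theorem land_zero {x y i : ℕ} (h : Nat.beq (Nat.land x y) 0 = true) (a : x.testBit i) :
    ¬ y.testBit i := fun b => by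
  have r := bit_and.2 ⟨a, b⟩
  rw [Nat.eq_of_beq_eq_true h, Nat.zero_testBit] at r
  exact Bool.noConfusion r

theorem dist_spec (hn : n ≤ 126) (h : dist z C n) (ha : a < n) (hb : b < a) (d : ¬ dup C a)
    (e : fc (wd C a) = fc (wd C b)) {i : ℕ} (x : (fX z (wd C a)).testBit i) :
    ¬ (fX z (wd C b)).testBit i := fun y => by
  rw [dist, mA_eq, mB_eq, cM, oa_mul, mx_xor_and (fun _ b => (fk_lt C b).trans (by omega))
    (fun a _ => (fk_lt C a).trans (by omega)) (by omega)] at h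
  have := hits_spec hn (fun p y => tops_tri 1 n p (bit_zer.1 y).1) h ha
    (zer_mx (fun _ _ => Nat.and_le_right.trans_lt (by omega)) hb ha (by
      have := xor_mask 8 (fc (wd C a)) 32767 ((fe_lt C a).trans (by omega))
        ((fe_lt C b).trans (by omega))
      rw [fk_eq, fk_eq, ← e, mul_comm]
      exact this))
  rw [bor_iff, frc_eq, frc_eq] at this
  exact land_zero (this.resolve_left d) y x

theorem ord_nosup {N cN wa wb : ℕ} (h : ord z N cN wa wb) :
    nosup N (shf (fX z wa) cN) (fU z wb) := by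
  rw [ord, bor_iff, bor_iff, ← or_assoc] at h
  refine h.elim (fun h => ?_) id
  have e : ∀ i k, tb N (shf (fX z wa) cN) (fU z wb) (ee i) (ee k) = 0 := fun i k => by
    by_contra c
    obtain ⟨p, hp⟩ := Nat.exists_testBit_of_ne_zero c
    obtain ⟨h1, h3⟩ := bit_and.1 hp
    obtain ⟨h1, h2⟩ := bit_and.1 h1
    obtain ⟨l2, h2⟩ := bit_shl.1 h2
    obtain ⟨l2', h2⟩ := bit_shf.1 h2
    rcases h with h | h
    · exact land_zero h h2 (bit_sm.2 ⟨i, (bit_ush' (by omega)).2 h1⟩)
    · exact land_zero h (bit_shr.1 h3) (bit_sp.2 ⟨k, p, rfl, h1⟩)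
  have e1 : tb N _ _ 1152 1 = 0 := e 0 2
  have e2 : tb N _ _ 48 1152 = 0 := e 1 0
  have e3 : tb N _ _ 1 48 = 0 := e 2 1
  have e4 : tb N _ _ 1152 48 = 0 := e 0 1
  have e5 : tb N _ _ 48 1 = 0 := e 1 2
  have e6 : tb N _ _ 1 1152 = 0 := e 2 0
  rw [nosup, e1, e2, e3, e4, e5, e6]
  rfl

theorem bit_ldM (hg : 2 * g + 1 < n) (hb : b < n)
    (h : (ldM C n g).testBit (26 * (n * a + b) + 25)) : a = 2 * g ∧ b = 2 * g + 1 ∨
      dup C (2 * g + 1) ∧ (a = 2 * g ∧ b = 2 * g ∨ a = 2 * g + 1 ∧ b = 2 * g + 1) := by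
  have u : ∀ a' b', b' < n → n * a + b = n * a' + b' → a = a' ∧ b = b' := fun a' b' x y =>
    ⟨by rw [← lane_div (a := a) hb, y, lane_div x], by rw [← lane_mod (a := a) hb, y, lane_mod x]⟩
  have s : Nat.mul (Nat.mul 52 (Nat.succ n)) g = 26 * (n * (2 * g) + 2 * g) := by
    change 52 * (n + 1) * g = _
    ring
  have m : n * (2 * g + 1) = n * (2 * g) + n := by ring
  rw [ldM, bit_shl, s] at h
  obtain ⟨h1, h2⟩ := h
  change (Bool.rec _ _ (dup C (2 * g + 1)) : ℕ).testBit _ = true at h2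
  cases d : dup C (2 * g + 1)
  · rw [d] at h2
    change (2 ^ 51).testBit _ = true at h2
    rw [Nat.testBit_two_pow, decide_eq_true_eq] at h2
    exact Or.inl (u _ _ hg (by omega))
  · rw [d] at h2
    change ((2 ^ 25 ||| 2 ^ 51) + 2 ^ 51 <<< (26 * n)).testBit _ = true at h2
    rw [Nat.shiftLeft_eq, ← pow_add, add_comm, ← mul_one (2 ^ (51 + 26 * n)),
      Nat.testBit_two_pow_mul_add _ (Nat.or_lt_two_pow (Nat.pow_lt_pow_right one_lt_two (by omega))
        (Nat.pow_lt_pow_right one_lt_two (by omega)))] at h2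
    split_ifs at h2 with c
    · rw [Nat.testBit_or, Nat.testBit_two_pow, Nat.testBit_two_pow, Bool.or_eq_true,
        decide_eq_true_eq, decide_eq_true_eq] at h2
      rcases h2 with h2 | h2
      · exact Or.inr ⟨rfl, Or.inl (u _ _ (by omega) (by omega))⟩
      · exact Or.inl (u _ _ hg (by omega))
    · rw [Nat.testBit_one_eq_true_iff_self_eq_zero] at h2
      exact Or.inr ⟨rfl, Or.inr (u _ _ hg (by omega))⟩

theorem others_le {N cN cs es : ℕ} (hn : n ≤ 126) (h : others z C n g N cN cs es)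
    (hcs : cs ≤ 37662) (hes : es < 128) (hab : a ≤ b) (hb : b < n)
    (e : fc (wd C a) + fc (wd C b) = cs) (e' : es ≤ fe (wd C a) + fe (wd C b))
    (l : ¬ (ldM C n g).testBit (26 * (n * a + b) + 25)) :
    ord z N cN (wd C a) (wd C b) ∧ ord z N cN (wd C b) (wd C a) := by
  rw [others, mS, mA_eq, mB_eq, g24, hiM, oa_mul, oa_mul, oa_mul, mx_add, mx_add,
    mx_sub (fun _ _ => by change cs * 256 + es ≤ _; omega),
    mx_xor_and (fun a b => by have := fk_lt C a; have := fk_lt C b; omega)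
      (fun _ _ => by omega) (by omega)] at h
  have := hits_spec hn (fun p y => tops_tri 0 n p (bit_zer.1 (bit_andn.1 y).1).1) h hb
    (bit_andn.2 ⟨zer_mx (fun _ _ => Nat.and_le_right.trans_lt (by omega)) hab hb (by
      have := fe_lt C a
      have := fe_lt C b
      have x := xor_mask 7 131072 262143 (e := fe (wd C a) + fe (wd C b) - es) (e' := 0) (by omega)
        (by omega)
      rw [show fk (wd C b) + fk (wd C a) + 16777216 - Nat.add (Nat.mul cs 256) es =
        2 ^ 7 * 131072 + (fe (wd C a) + fe (wd C b) - es) by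
          change _ - (cs * 256 + es) = _
          rw [fk_eq, fk_eq]
          omega]
      exact x), l⟩)
  rwa [frc_eq, frc_eq, band_iff] at this

theorem others_spec {N cN cs es : ℕ} (hn : n ≤ 126) (h : others z C n g N cN cs es)
    (hg : 2 * g + 1 < n) (hcs : cs ≤ 37662) (hes : es < 128) (ha : a < n) (hb : b < n)
    (e : fc (wd C a) + fc (wd C b) = cs) :
    (a / 2 = g ∧ b / 2 = g ∧ (dup C (2 * g + 1) ∨ a ≠ b)) ∨ fe (wd C a) + fe (wd C b) < es ∨
      nosup N (shf (fX z (wd C a)) cN) (fU z (wd C b)) := by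
  by_contra c
  simp only [not_or, not_lt] at c
  obtain ⟨c1, c2, c3⟩ := c
  rcases le_total a b with l | l
  · refine c3 (ord_nosup (others_le hn h hcs hes l hb e c2 fun x => c1 ?_).1)
    rcases bit_ldM hg hb x with y | ⟨d, y⟩
    · exact ⟨by omega, by omega, Or.inr (by omega)⟩
    · exact ⟨by omega, by omega, Or.inl d⟩
  · refine c3 (ord_nosup (others_le hn h hcs hes l ha (by omega) (by omega) fun x => c1 ?_).2)
    rcases bit_ldM hg ha x with y | ⟨d, y⟩
    · exact ⟨by omega, by omega, Or.inr (by omega)⟩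
    · exact ⟨by omega, by omega, Or.inl d⟩

end Pool.Agent.Lib.MP_ed43e6_ag.Q.Bd
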