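import Pool.Agent.Lib.MP_ed43e6_ag.Q.Ext
import Pool.Agent.Lib.MP_ed43e6_ag.Q.Mx

/-! Soundness of a block of groups. -/

namespace Pool.Agent.Lib.MP_ed43e6_ag.Q.Bd

open Finset N

variable {z w C n a b g : ℕ}

theorem okCl_spec (h : okCl z w) : Act z (fda w) (fdb w) (fdt w) (fX z w) ∧
    676120 ≤ key (fda w) (fdb w) (fdt w) ∧ fX z w ≠ 0 := by
  simp only [okCl, band_iff, Nat.ble_eq, sub_iff, Nat.add_eq, Nat.mul_eq] at h
  obtain ⟨⟨a, b⟩, c, d, e⟩ := h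
  exact ⟨⟨b, a, e⟩, by unfold key; omega, by omega⟩

theorem dup_iff : dup C a ↔ a % 2 = 1 ∧ wd C a = wd C (a - 1) := by
  rw [dup, band_iff, Nat.beq_eq, Nat.beq_eq, Nat.land_eq, Nat.and_one_is_mod]
  rfl

theorem sym_one (H : Fin 3 → ℕ → ℕ → ℕ) (j : Fin 3) (N A B : Pr) :
    sym H [(j, 1, N)] A B = coef (H j) N A B + coef (H j) N B A := by
  rw [sym, List.map_singleton, List.sum_singleton, one_mul]

theorem lead_aux {P P' Q Q' D : ℕ} (h1 : P + P' + (Q + Q') ≤ 32)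
    (h2 : (Bool.rec true false (Nat.beq (P + P') (Q + Q')) : Bool)) (hD : 32 ≤ D) :
    P < 100 ∧ P' < 100 ∧ Q < 100 ∧ Q' < 100 ∧ (P : ℤ) - Q + (P' - Q') ≠ 0 ∧
      ((P : ℤ) - Q + (P' - Q')).natAbs ≤ D := by
  have : P + P' ≠ Q + Q' := fun e => by
    rw [e, Nat.beq_refl] at h2
    exact Bool.noConfusion h2
  omega

variable {h0 h h2 : ℕ → ℕ → ℕ} {u0 u1 : T3}

/-- The class described by a word. -/
def XW (u0 u1 : T3) (z w : ℕ) : Pr := XC u0 u1 (fda w) (fdb w) (fdt w) (fX z w)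

/-- The gap of the class described by a word. -/
def gW (w : ℕ) : ℕ := key (fda w) (fdb w) (fdt w) - 676119

theorem edge_of (F : Flag h0 h h2 u0 u1 z) {D : ℕ} (hD : 32 ≤ D) (hn : n ≤ 126)
    (hg : 2 * g + 1 < n) {A : Finset ℕ}
    (hA : ∀ a ∈ A, a < n ∧ ¬ dup C a ∧ okCl z (wd C a))
    (hr : row z C n g (wd C (2 * g)) (wd C (2 * g + 1)))
    (hb : b = 2 * g ∧ dup C (2 * g + 1) ∨ b = 2 * g + 1 ∧ ¬ dup C (2 * g + 1)) :
    Edge ![h0, h, h2] D A (fun a => XW u0 u1 z (wd C a)) (fun a => gW (wd C a))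
      (fun a => fe (wd C a)) (2 * g) b := by
  have wb : wd C (2 * g + 1) = wd C b := by
    rcases hb with ⟨rfl, x⟩ | ⟨rfl, -⟩
    exacts [(dup_iff.1 x).2, rfl]
  rw [wb] at hr
  simp only [row, row1, row2, lead, band_iff, Nat.ble_eq, sub_iff, Nat.add_eq, Nat.sub_eq] at hr
  obtain ⟨⟨ca, cb⟩, ⟨s1, ⟨s2, s3⟩, s4, s5⟩, hs, ⟨l1, l2⟩, ho⟩ := hr
  obtain ⟨a1, a2, -⟩ := okCl_spec ca
  obtain ⟨b1, b2, -⟩ := okCl_spec cb
  obtain ⟨na, e1⟩ : ∃ x, 20 - (fda (wd C (2 * g)) + fda (wd C b)) = x := ⟨_, rfl⟩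
  obtain ⟨nb, e2⟩ : ∃ x, 32 - (fdb (wd C (2 * g)) + fdb (wd C b)) = x := ⟨_, rfl⟩
  obtain ⟨nt, e3⟩ : ∃ x, 68 - (fdt (wd C (2 * g)) + fdt (wd C b)) = x := ⟨_, rfl⟩
  rw [e1, e2, e3] at hs l1 l2 ho
  have lk := cls_links F.isb F.b1 F.a1 (by omega) (by omega) hs.right
  generalize cls z (oo z na nb nt) _ = N at hs l1 l2 ho lk
  have hN : Act z na nb nt N := ⟨by omega, by omega, hs⟩
  have sy : ∀ w w', sym ![h0, h, h2] [(1, 1, PB na nb nt N)] (XW u0 u1 z w) (XW u0 u1 z w') =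
      coef h (PB na nb nt N) (PB (fda w) (fdb w) (fdt w) (fX z w))
        (PB (fda w') (fdb w') (fdt w') (fX z w')) +
      coef h (PB na nb nt N) (PB (fda w') (fdb w') (fdt w') (fX z w'))
        (PB (fda w) (fdb w) (fdt w) (fX z w)) := fun w w' => by
    have e : ![h0, h, h2] 1 = h := rfl
    have c : ∀ w u v, ¬ ins h u → ins h v → (ap (XW u0 u1 z w) u v ↔
        ap (PB (fda w) (fdb w) (fdt w) (fX z w)) u v) := fun _ _ _ => F.act
    rw [sym_one, e, coef_congr (c w) (c w'), coef_congr (c w') (c w)]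
  obtain ⟨t1, t2, t3, t4, t5, t6⟩ := lead_aux l1 l2 hD
  clear l1 l2
  have v := sy (wd C (2 * g)) (wd C b)
  rw [coef_eq F.isb F.b1 hN a1 b1 (by omega) t1 t3, coef_eq F.isb F.b1 hN b1 a1 (by omega) t2 t4]
    at v
  refine ⟨[(1, 1, PB na nb nt N)], fun e he => ?_, v ▸ t5, v ▸ t6, fun a' ha' b' hb' => ?_⟩
  all_goals clear v t1 t2 t3 t4 t5 t6
  · rw [List.mem_singleton.1 he]
    refine ⟨lk, fun u v x => ?_⟩
    have := (ap_PB.1 x).1.ky
    change ky v + (gW (wd C (2 * g)) + gW (wd C b)) + key 1 1 1 = ky u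
    unfold gW
    unfold key at *
    omega
  have Z : ∀ a' ∈ A, ∀ b' ∈ A, ¬ (a' = 2 * g ∧ b' = b) → ¬ (a' = b ∧ b' = 2 * g) →
      ¬ fe (wd C a') + fe (wd C b') < fe (wd C (2 * g)) + fe (wd C b) →
      coef h (PB na nb nt N) (PB (fda (wd C a')) (fdb (wd C a')) (fdt (wd C a')) (fX z (wd C a')))
        (PB (fda (wd C b')) (fdb (wd C b')) (fdt (wd C b')) (fX z (wd C b'))) = 0 := by
    intro a' ha' b' hb' n1 n2 n3
    by_contra x
    have y := coef_ne x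
    obtain ⟨p1, p2, p3⟩ := hA a' ha'
    obtain ⟨q1, q2, q3⟩ := hA b' hb'
    rcases others_spec hn ho hg
      (by have := fc_le (wd C (2 * g)); have := fc_le (wd C b); omega)
      (by have := fe_lt C (2 * g); have := fe_lt C b; omega) p1 q1
      (by simp only [fc, code_eq, ix]; omega) with r | r | r
    · have c1 : dup C (2 * g + 1) → a' ≠ 2 * g + 1 := fun d e => p2 (e ▸ d)
      have c2 : dup C (2 * g + 1) → b' ≠ 2 * g + 1 := fun d e => q2 (e ▸ d)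
      rcases hb with ⟨rfl, d⟩ | ⟨rfl, d⟩
      · have := c1 d
        have := c2 d
        omega
      · have := r.2.2.resolve_left d
        omega
    · exact n3 r
    · exact x (coef_nosup F.isb F.b1 hN (okCl_spec p3).1 (okCl_spec q3).1 r)
  by_contra x
  simp only [not_or] at x
  obtain ⟨x1, x2, x3, x4⟩ := x
  refine x3 ?_
  rw [sy, Z a' ha' b' hb' x1 x2 x4, Z b' hb' a' ha' (fun y => x2 y.symm) (fun y => x1 y.symm)
    (by rwa [add_comm]), add_zero]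

theorem blk_flag (F : Flag h0 h h2 u0 u1 z) {D K : ℕ} (hD : 32 ≤ D) (hK64 : K < 64)
    (ok : okBlk z C K) {Al : Finset ℕ} (hK : Al ⊆ range K)
    (al : ∀ g ∈ Al,
      ¬ (Nat.lor (dead0 z (wd C (2 * g))) (dead0 z (wd C (2 * g + 1)))).testBit (pos u0) ∧
      ¬ (Nat.lor (dead2 z (wd C (2 * g))) (dead2 z (wd C (2 * g + 1)))).testBit (pos u1)) :
    Gain ![h0, h, h2] D Al.card := by
  rw [okBlk, frc_eq] at ok
  obtain ⟨hr, hd⟩ := band_iff.1 ok
  have hr : ∀ g ∈ Al, row z C (2 * K) g (wd C (2 * g)) (wd C (2 * g + 1)) := fun g e => by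
    have := allLt_iff.1 hr g (mem_range.1 (hK e))
    rwa [frc_eq, frc_eq] at this
  have hn : 2 * K ≤ 126 := by omega
  have hg : ∀ g ∈ Al, 2 * g + 1 < 2 * K := fun g e => by have := mem_range.1 (hK e); omega
  obtain ⟨A, mA⟩ : ∃ A : Finset ℕ, ∀ a, a ∈ A ↔ a / 2 ∈ Al ∧ ¬ dup C a :=
    ⟨(range (2 * K)).filter fun a => a / 2 ∈ Al ∧ ¬ dup C a, fun a => by
      rw [mem_filter, mem_range]
      exact and_iff_right_of_imp fun x => by have := mem_range.1 (hK x.1); omega⟩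
  have par : ∀ a, a = 2 * (a / 2) ∨ a = 2 * (a / 2) + 1 := fun a => by omega
  have hA : ∀ a ∈ A, a < 2 * K ∧ ¬ dup C a ∧ okCl z (wd C a) := fun a ha => by
    obtain ⟨x, y⟩ := (mA a).1 ha
    have := mem_range.1 (hK x)
    have r := band_iff.1 (band_iff.1 (hr _ x)).1
    refine ⟨by omega, y, ?_⟩
    rcases par a with e | e <;> rw [e]
    exacts [r.1, r.2]
  have hL : ∀ a ∈ A, Alive u0 u1 z (fda (wd C a)) (fdb (wd C a)) (fdt (wd C a)) (fX z (wd C a)) :=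
    fun a ha => by
      obtain ⟨x, y⟩ := al _ ((mA a).1 ha).1
      rw [bit_or, not_or] at x y
      rcases par a with e | e <;> rw [e]
      exacts [F.alive x.1 y.1, F.alive x.2 y.2]
  have ev : ∀ g, ¬ dup C (2 * g) := fun g x => by have := (dup_iff.1 x).1; omega
  refine ⟨A, fun a => XW u0 u1 z (wd C a), fun a => gW (wd C a), fun a => fe (wd C a),
    (Al.filter fun g => ¬ dup C (2 * g + 1)).card,
    ⟨fun a ha => F.links (okCl_spec (hA a ha).2.2).1 (cls_closed _ _ _) (hL a ha),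
      fun a ha => ?_, fun a ha => ?_, fun T hT hc => ?_⟩, ?_⟩
  · have := (okCl_spec (hA a ha).2.2).2.1
    refine ⟨by unfold gW; omega, fun u v x => ?_⟩
    have := (XC_dl x).ky
    unfold gW
    omega
  · obtain ⟨c1, c2, c3⟩ := okCl_spec (hA a ha).2.2
    have s := cls_seed c3
    obtain ⟨u, v, e, iv, d, nu⟩ := c1.ex F.isb F.b1 s
    have bv := F.b1.lt iv
    refine ⟨u, v, Or.inl ((ap_PB' F.b1 iv).2 ⟨d, e ▸ s⟩), ⟨1, nu, iv⟩, fun b hb ne x => ?_,
      fun G hG x => F.conn c1 c2 hG (conn F.isb F.b1 F.a1 c1.b c1.t c1.s.right (hG 1)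
        (e ▸ At.of d (by omega) (by omega) x))⟩
    obtain ⟨d', y⟩ := (ap_PB' F.b1 iv).1 ((F.act nu iv).1 x)
    have ec : fc (wd C a) = fc (wd C b) := by
      have := d.pos
      have := d'.pos
      unfold fc
      omega
    rcases lt_or_gt_of_ne ne with l | l
    · exact dist_spec hn hd (hA a ha).1 l (hA a ha).2.1 ec (e ▸ s) y
    · exact dist_spec hn hd (hA b hb).1 l (hA b hb).2.1 ec.symm y (e ▸ s)
  · by_cases c : ∃ a ∈ T, dup C (2 * (a / 2) + 1)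
    · obtain ⟨a, ha, d⟩ := c
      obtain ⟨x, y⟩ := (mA a).1 (hT ha)
      have e : 2 * (a / 2) = a := ((par a).resolve_right fun e => y (e ▸ d)).symm
      exact ⟨_, e.symm ▸ ha, _, e.symm ▸ ha, edge_of F hD hn (hg _ x) hA (hr _ x) (Or.inl ⟨rfl, d⟩)⟩
    · obtain ⟨a, ha, b, hb, ne, e⟩ := exists_ne_map_eq_of_card_lt_of_maps_to hc
        (f := fun a => a / 2) fun a ha => mem_coe.2 (mem_filter.2
          ⟨((mA a).1 (hT ha)).1, fun d => c ⟨a, ha, d⟩⟩)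
      have e' : a / 2 = b / 2 := e
      have t : 2 * (a / 2) ∈ T ∧ 2 * (a / 2) + 1 ∈ T := by
        rcases par a with x | x
        · exact ⟨x ▸ ha, (show b = 2 * (a / 2) + 1 by omega) ▸ hb⟩
        · exact ⟨(show b = 2 * (a / 2) by omega) ▸ hb, x ▸ ha⟩
      exact ⟨_, t.1, _, t.2, edge_of F hD hn (hg _ ((mA a).1 (hT ha)).1) hA
        (hr _ ((mA a).1 (hT ha)).1) (Or.inr ⟨rfl, fun d => c ⟨a, ha, d⟩⟩)⟩
  · rw [← card_image_of_injective (Al.filter fun g => ¬ dup C (2 * g + 1))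
      (f := fun g => 2 * g + 1) fun _ _ e => by simpa using e,
      ← card_image_of_injective Al (f := fun g => 2 * g) fun _ _ e => by simpa using e,
      ← card_union_of_disjoint]
    · refine card_le_card (union_subset (image_subset_iff.2 fun g x => (mA _).2 ?_)
        (image_subset_iff.2 fun g x => (mA _).2 ?_))
      · rw [show (2 * g + 1) / 2 = g by omega]
        exact mem_filter.1 x
      · rw [show 2 * g / 2 = g by omega]
        exact ⟨x, ev g⟩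
    · refine disjoint_left.2 fun a x y => ?_
      obtain ⟨g, -, rfl⟩ := mem_image.1 x
      obtain ⟨g', -, e⟩ := mem_image.1 y
      omega

theorem blk_sound {p0 q0 a1 b1 D K : ℕ} (e0 : h0 = bump h p0 q0) (e1 : h = bump h2 a1 b1)
    (B0 : Bor h0) (B1 : Bor h) (B2 : Bor h2) (hb : Bdd h0) (hz : IsB h z) (hD : 32 ≤ D)
    (hK64 : K < 64) (ok : okBlk z C K = true) (Al : Finset ℕ) (hK : Al ⊆ range K)
    (al : ∀ g ∈ Al,
      ¬ (Nat.lor (dead0 z (wd C (2 * g))) (dead0 z (wd C (2 * g + 1)))).testBit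
        (ix (p0 + 1) (q0 + 1) (h p0 q0 + 1)) ∧
      ¬ (Nat.lor (dead2 z (wd C (2 * g))) (dead2 z (wd C (2 * g + 1)))).testBit
        (ix (a1 + 1) (b1 + 1) (h a1 b1))) :
    Gain ![h0, h, h2] D Al.card := by
  have e : h a1 b1 = h2 a1 b1 + 1 := by rw [e1]; exact if_pos ⟨rfl, rfl⟩
  rw [e] at al
  exact blk_flag (flag_of e0 e1 B0 B1 B2 hb hz) hD hK64 ok hK al

end Pool.Agent.Lib.MP_ed43e6_ag.Q.Bd
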