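import Pool.Agent.Lib.MP_ed43e6_ag.Q.Defs
import Pool.Agent.Lib.MP_ed43e6_ag.N.Gen2

/-! The normal form coefficients of one ideal as a table indexed by pairs of boxes. -/

namespace Pool.Agent.Lib.MP_ed43e6_ag.Q

open MvPolynomial Finset N

universe u

/-- The weight of the `i`-th variable. -/
def kp (i : Fin 3) : ℕ := ![16384, 16512, 16513] i

theorem ky_stp (i : Fin 3) (u : T3) : ky (stp i u) = ky u + kp i := by
  fin_cases i <;> simp [ky, stp, kp, key] <;> omega

theorem stp_inj {i : Fin 3} {u v : T3} (h : stp i u = stp i v) : u = v := by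
  obtain ⟨a, b, c⟩ := u
  obtain ⟨a', b', c'⟩ := v
  fin_cases i <;> simpa [stp] using h

theorem stp_comm (i k : Fin 3) (u : T3) : stp i (stp k u) = stp k (stp i u) := by
  fin_cases i <;> fin_cases k <;> rfl

theorem kp_sum (i : Fin 3) : kp i + kp (i + 1) + kp (i + 2) = key 1 1 1 := by
  fin_cases i <;> rfl

/-- A relation on pairs of boxes as a predicate of six numbers. -/
def cur (G : T3 → T3 → Prop) : Pr := fun p q s a b t => G (p, q, s) (a, b, t)

theorem links_iff (g : ℕ → ℕ → ℕ) (G : Pr) : Links g G ↔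
    (∀ i u v, ¬ ins g u → ins g (stp i v) → (ap G u v ↔ ap G (stp i u) (stp i v))) ∧
    ∀ i u v, ¬ ins g u → ins g v → (∀ m, stp i m ≠ v) → ap G (stp i u) v := by
  constructor
  · intro h
    refine ⟨?_, ?_⟩
    · rintro i ⟨p, q, s⟩ ⟨a, b, t⟩ h1 h2
      fin_cases i
      exacts [h.lx p q s a b t (not_lt.1 h1) h2, h.ly p q s a b t (not_lt.1 h1) h2,
        h.lz p q s a b t (not_lt.1 h1) h2]
    · rintro i ⟨p, q, s⟩ ⟨a, b, t⟩ h1 h2 h3
      fin_cases i
      · cases a with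
        | zero => exact h.kx p q s b t (not_lt.1 h1) h2
        | succ a => exact (h3 (a, b, t) rfl).elim
      · cases b with
        | zero => exact h.ky p q s a t (not_lt.1 h1) h2
        | succ b => exact (h3 (a, b, t) rfl).elim
      · cases t with
        | zero => exact h.kz p q s a b (not_lt.1 h1) h2
        | succ t => exact (h3 (a, b, t) rfl).elim
  · rintro ⟨h1, h2⟩
    exact ⟨fun p q s a b t x y => h1 0 (p, q, s) (a, b, t) (not_lt.2 x) y,
      fun p q s a b t x y => h1 1 (p, q, s) (a, b, t) (not_lt.2 x) y,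
      fun p q s a b t x y => h1 2 (p, q, s) (a, b, t) (not_lt.2 x) y,
      fun p q s b t x y => h2 0 (p, q, s) (0, b, t) (not_lt.2 x) y (by simp [stp]),
      fun p q s a t x y => h2 1 (p, q, s) (a, 0, t) (not_lt.2 x) y (by simp [stp]),
      fun p q s a b x y => h2 2 (p, q, s) (a, b, 0) (not_lt.2 x) y (by simp [stp])⟩

variable {Ω : Type u} [Field Ω]

/-- The table `c'` is obtained by reducing the rows of the table `c`. -/
def Cmp (Q : Finset T3) (c c' : T3 → T3 → Ω) : Prop := ∀ u v, c' u v = ∑ w ∈ Q, c u w * c' w v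

open Classical in
/-- The properties of a table of normal form coefficients. -/
structure Lev (Q : Finset T3) (g : ℕ → ℕ → ℕ) (c : T3 → T3 → Ω) : Prop where
  bd : ∀ u, ins g u → u ∈ Q
  fix : ∀ u v, ins g u → c u v = if u = v then 1 else 0
  supp : ∀ u v, ¬ ins g v → c u v = 0
  up : ∀ i u, ¬ ins g u → ¬ ins g (stp i u)
  lt : ∀ u v, ¬ ins g u → c u v ≠ 0 → ky u < ky v
  exp : ∀ i u v, c (stp i u) v = ∑ w ∈ Q, c u w * c (stp i w) v

/-- The exponent vector of a box. -/
noncomputable def mo (u : T3) : Fin 3 →₀ ℕ := N.mon u.1 u.2.1 u.2.2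

/-- The box of an exponent vector. -/
def un (u : Fin 3 →₀ ℕ) : T3 := (u 0, u 1, u 2)

theorem mo_un (u : Fin 3 →₀ ℕ) : mo (un u) = u := Gen2.mon_eq u

theorem un_mo (u : T3) : un (mo u) = u := by simp [un, mo, N.mon]

theorem mo_stp (i : Fin 3) (u : T3) : mo (stp i u) = mo u + Finsupp.single i 1 := by
  fin_cases i
  exacts [Gen2.mon_x _ _ _, Gen2.mon_y _ _ _, Gen2.mon_z _ _ _]

theorem wt_mo (u : T3) : N.wt (mo u) = ky u := Gen2.wt_mon _ _ _

/-- The table of a normal form map. -/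
noncomputable def tab (nf : SS Ω →ₗ[Ω] SS Ω) (u v : T3) : Ω :=
  coeff (mo v) (nf (monomial (mo u) 1))

variable {I I' : Ideal (SS Ω)} {lam lam' : Finset (Fin 3 →₀ ℕ)} {nf nf' : SS Ω →ₗ[Ω] SS Ω}
  {Q : Finset T3} {g : ℕ → ℕ → ℕ}

theorem exp3 (h : NF I lam nf) (h' : NF I' lam' nf') (hI : I ≤ I')
    (hQ : ∀ u, mo u ∈ lam → u ∈ Q) (u : T3) (v e : Fin 3 →₀ ℕ) :
    coeff v (nf' (monomial (mo u + e) 1)) =
      ∑ w ∈ Q, tab nf u w * coeff v (nf' (monomial (mo w + e) 1)) := by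
  rw [Gen2.exp2 h h' hI]
  refine sum_of_injOn un (fun a _ b _ e => by rw [← mo_un a, e, mo_un]) (fun w hw => ?_)
    (fun w _ hw => ?_) fun w _ => by rw [tab, mo_un]
  · exact hQ _ (by rw [mo_un]; exact h.supp _ hw)
  · rw [tab, notMem_support_iff.1 fun e => hw ⟨mo w, e, un_mo w⟩, zero_mul]

theorem cmp_tab (h : NF I lam nf) (h' : NF I' lam' nf') (hI : I ≤ I')
    (hQ : ∀ u, mo u ∈ lam → u ∈ Q) : Cmp Q (tab nf) (tab nf') := fun u v => by
  simpa [tab] using exp3 h h' hI hQ u (mo v) 0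

theorem lev_tab (h : NF I lam nf) (hg : ∀ u, mo u ∈ lam ↔ ins g u) (hQ : ∀ u, ins g u → u ∈ Q) :
    Lev Q g (tab nf) where
  bd := hQ
  fix u v hu := by
    classical
    rw [tab, Gen2.fix h ((hg u).2 hu), coeff_monomial]
    exact if_congr ⟨fun e => by rw [← un_mo u, e, un_mo], fun e => e ▸ rfl⟩ rfl rfl
  supp u v hv := notMem_support_iff.1 fun e => hv ((hg v).1 (h.supp _ e))
  up i u hu := by
    rw [← hg, mo_stp]
    exact Gen2.up h (mt (hg u).1 hu) _
  lt u v hu hv := by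
    rw [← wt_mo, ← wt_mo]
    exact Gen2.lt h (mt (hg u).1 hu) hv
  exp i u v := by
    have := exp3 h h le_rfl (fun u e => hQ u ((hg u).1 e)) u (mo v) (Finsupp.single i 1)
    simp only [← mo_stp] at this
    exact this

theorem Lev.zero {c : T3 → T3 → Ω} (h : Lev Q g c) {u v : T3} (hne : u ≠ v) (hw : ky v ≤ ky u) :
    c u v = 0 := by
  by_cases hu : ins g u
  · rw [h.fix u v hu, if_neg hne]
  · exact not_not.1 fun e => (h.lt u v hu e).not_ge hw

end Pool.Agent.Lib.MP_ed43e6_ag.Q
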