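import Pool.Agent.Lib.MP_ed43e6_ag.Q.L1
import Pool.Agent.Lib.MP_ed43e6_ag.Q.Lev

/-! Bitboards: bits of the basic operations, flood fill, and classes of linked pairs. -/

namespace Pool.Agent.Lib.MP_ed43e6_ag.Q.Bd

open N

/-- The bit with the three digits `x`, `y`, `w`. -/
def ix (x y w : ℕ) : ℕ := 1152 * x + 48 * y + w

def Bdd (g : ℕ → ℕ → ℕ) : Prop := ∀ a b t, t < g a b → a < 6 ∧ b < 10 ∧ t < 22

/-- `z` is the board of the staircase `g`. -/
def IsB (g : ℕ → ℕ → ℕ) (z : ℕ) : Prop :=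
  ∀ i, z.testBit i ↔ ∃ a b t, i = ix (a + 1) (b + 1) (t + 1) ∧ t < g a b

def Sub (X Z : ℕ) : Prop := ∀ i, X.testBit i → Z.testBit i

/-- The pairs with a given difference whose second box is a bit of `X`. -/
def PB (da db dt X : ℕ) : Pr := fun p q s a b t =>
  p + da = a + 7 ∧ q + db = b + 11 ∧ s + dt = t + 23 ∧ b < 11 ∧ t < 23 ∧
    X.testBit (ix (a + 1) (b + 1) (t + 1))

/-- The bit of a box. -/
def pos (u : T3) : ℕ := ix (u.1 + 1) (u.2.1 + 1) (u.2.2 + 1)

/-- The shift of the `i`-th variable. -/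
def ee (i : Fin 3) : ℕ := ![1152, 48, 1] i

/-- The difference of the two boxes. -/
def Dl (da db dt : ℕ) (u v : T3) : Prop :=
  u.1 + da = v.1 + 7 ∧ u.2.1 + db = v.2.1 + 11 ∧ u.2.2 + dt = v.2.2 + 23

/-- The complement of the staircase is closed under the three moves. -/
def Anti (g : ℕ → ℕ → ℕ) : Prop := ∀ i u, ins g (stp i u) → ins g u

theorem code_eq (x y w : ℕ) : code x y w = ix x y w := rfl

theorem band_iff {a b : Bool} : band a b ↔ a ∧ b := by cases a <;> cases b <;> simp [band]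

theorem bor_iff {a b : Bool} : bor a b ↔ a ∨ b := by cases a <;> cases b <;> simp [bor]

theorem imp_iff {a b : Bool} : (Bool.rec true b a : Bool) ↔ (a → b) := by
  cases a <;> cases b <;> simp

theorem allLt_iff {n : ℕ} {f : ℕ → Bool} : allLt n f ↔ ∀ i < n, f i := by
  induction n with
  | zero => simp [allLt]
  | succ n ih =>
    have e : allLt (n + 1) f = band (f n) (allLt n f) := rfl
    rw [e, band_iff, ih, Nat.forall_lt_succ_right, and_comm]

variable {x y X Z B L e i j c : ℕ}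

theorem bit_and : (Nat.land x y).testBit i ↔ x.testBit i ∧ y.testBit i := by simp

theorem bit_or : (Nat.lor x y).testBit i ↔ x.testBit i ∨ y.testBit i := by simp

theorem bit_xor : (Nat.xor x y).testBit i ↔ ¬ (x.testBit i ↔ y.testBit i) := by
  rw [Nat.xor_eq, Nat.testBit_xor]
  cases x.testBit i <;> cases y.testBit i <;> simp

theorem bit_andn : (andn x y).testBit i ↔ x.testBit i ∧ ¬ y.testBit i := by
  rw [andn, bit_xor, bit_and]
  tauto

theorem bit_shl : (Nat.shiftLeft x e).testBit j ↔ e ≤ j ∧ x.testBit (j - e) := by simp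

theorem bit_shl' (h : j = i + e) : (Nat.shiftLeft x e).testBit j ↔ x.testBit i := by simp [h]

theorem bit_shr : (Nat.shiftRight x e).testBit j ↔ x.testBit (j + e) := by simp [add_comm]

theorem bit_one : (Nat.shiftLeft 1 i).testBit j ↔ j = i := by
  rw [Nat.shiftLeft_eq', Nat.one_shiftLeft, Nat.testBit_two_pow, decide_eq_true_eq, eq_comm]

theorem bit_mv (a b : ℕ) :
    (Nat.shiftRight (Nat.shiftLeft B (Nat.sub a b)) (Nat.sub b a)).testBit j ↔
      a ≤ j + b ∧ B.testBit (j + b - a) := by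
  rw [bit_shr, bit_shl, Nat.sub_eq, Nat.sub_eq]
  exact and_congr (by omega) (by rw [show j + (b - a) - (a - b) = j + b - a by omega])

theorem bit_shf : (shf B c).testBit j ↔ c ≤ j + 8615 ∧ B.testBit (j + 8615 - c) := bit_mv c 8615

theorem bit_ush : (ush B c).testBit j ↔ 8615 ≤ j + c ∧ B.testBit (j + c - 8615) := bit_mv 8615 c

theorem bit_shf' (h : i + c = j + 8615) : (shf B c).testBit j ↔ B.testBit i := by
  rw [bit_shf, show j + 8615 - c = i by omega, and_iff_right (by omega)]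

theorem bit_ush' (h : i + 8615 = j + c) : (ush B c).testBit j ↔ B.testBit i := by
  rw [bit_ush, show j + c - 8615 = i by omega, and_iff_right (by omega)]

theorem bit_sp : (sp B).testBit j ↔ ∃ k i, j = i + ee k ∧ B.testBit i := by
  rw [sp, bit_or, bit_or, bit_shl, bit_shl, bit_shl]
  constructor
  · rintro ((h | h) | h)
    exacts [⟨0, _, (Nat.sub_add_cancel h.1).symm, h.2⟩, ⟨1, _, (Nat.sub_add_cancel h.1).symm, h.2⟩,
      ⟨2, _, (Nat.sub_add_cancel h.1).symm, h.2⟩]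
  · rintro ⟨k, i, rfl, h⟩
    fin_cases k <;> simp [ee, h]

theorem bit_sm : (sm B).testBit j ↔ ∃ k, B.testBit (j + ee k) := by
  rw [sm, bit_or, bit_or, bit_shr, bit_shr, bit_shr]
  constructor
  · rintro ((h | h) | h)
    exacts [⟨0, h⟩, ⟨1, h⟩, ⟨2, h⟩]
  · rintro ⟨k, h⟩
    fin_cases k
    exacts [Or.inl (Or.inl h), Or.inl (Or.inr h), Or.inr h]

theorem sub_iff : sub? X Z ↔ Sub X Z := by
  rw [sub?, Nat.beq_eq]
  refine ⟨fun h i a => (bit_and.1 (h.symm ▸ a)).2, fun h => Nat.eq_of_testBit_eq fun i => ?_⟩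
  rw [Bool.eq_iff_iff, bit_and]
  exact ⟨fun a => a.1, fun a => ⟨a, h i a⟩⟩

theorem Sub.left (h : Sub X (Nat.land x y)) : Sub X x := fun i a => (bit_and.1 (h i a)).1

theorem Sub.right (h : Sub X (Nat.land x y)) : Sub X y := fun i a => (bit_and.1 (h i a)).2

theorem Sub.trans (h : Sub X Z) (h' : Sub Z B) : Sub X B := fun i a => h' i (h i a)

theorem bit_lk {z O : ℕ} : (lk z O e).testBit (i + e) ↔ O.testBit i ∧ z.testBit (i + e) := by
  rw [lk, bit_and, bit_shl' rfl]

theorem bit_up : (up L e X).testBit j ↔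
    X.testBit j ∨ ∃ i, j = i + e ∧ X.testBit i ∧ L.testBit (i + e) := by
  rw [up, bit_or, bit_and, bit_shl]
  refine or_congr_right ⟨fun h => ⟨j - e, (Nat.sub_add_cancel h.1.1).symm, h.1.2,
    (Nat.sub_add_cancel h.1.1).symm ▸ h.2⟩, ?_⟩
  rintro ⟨i, rfl, a, b⟩
  exact ⟨⟨Nat.le_add_left _ _, by rwa [Nat.add_sub_cancel]⟩, b⟩

theorem bit_dn : (dn L e X).testBit j ↔ X.testBit j ∨ X.testBit (j + e) ∧ L.testBit (j + e) := by
  rw [dn, bit_or, bit_shr, bit_and]

/-! ### Flood fill -/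

/-- `X` is closed under the links of the mask `L`. -/
def Cl1 (L e X : ℕ) : Prop := ∀ i, L.testBit (i + e) → (X.testBit i ↔ X.testBit (i + e))

theorem Cl1.mono {L' : ℕ} (h : Cl1 L e X) (s : Sub L' L) : Cl1 L' e X := fun i a => h i (s _ a)

theorem sub_ud (L e X : ℕ) : Sub X (dn L e (up L e X)) := fun _ a =>
  bit_dn.2 (Or.inl (bit_up.2 (Or.inl a)))

theorem cl1_of {Y : ℕ} (h1 : Sub X Y) (h2 : Sub (dn L e (up L e Y)) X) : Cl1 L e X := fun i a =>
  ⟨fun b => h2 _ (bit_dn.2 (Or.inl (bit_up.2 (Or.inr ⟨i, rfl, h1 _ b, a⟩)))),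
    fun b => h2 _ (bit_dn.2 (Or.inr ⟨bit_up.2 (Or.inl (h1 _ b)), a⟩))⟩

theorem ind_ud {Q : ℕ → Prop} (hZ : Sub (dn L e (up L e X)) Z)
    (hQ : ∀ i, L.testBit (i + e) → Z.testBit i → Z.testBit (i + e) → (Q i ↔ Q (i + e)))
    (h : ∀ i, X.testBit i → Q i) (i : ℕ) (a : (dn L e (up L e X)).testBit i) : Q i := by
  have h1 : ∀ i, (up L e X).testBit i → Q i := fun i a => by
    rcases bit_up.1 a with b | ⟨i, rfl, b, c⟩
    · exact h i b
    · exact (hQ i c (hZ _ (sub_ud _ _ _ _ b)) (hZ _ (bit_dn.2 (Or.inl a)))).1 (h i b)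
  rcases bit_dn.1 a with b | ⟨b, c⟩
  · exact h1 i b
  · exact (hQ i c (hZ _ a) (hZ _ (bit_dn.2 (Or.inl b)))).2 (h1 _ b)

variable {L0 L1 L2 f : ℕ}

theorem sub_step (L0 L1 L2 X : ℕ) : Sub X (step L0 L1 L2 X) :=
  ((sub_ud _ _ _).trans (sub_ud _ _ _)).trans (sub_ud _ _ _)

theorem fill_succ (X : ℕ) : fill L0 L1 L2 (f + 1) X =
    if step L0 L1 L2 X = X then X else fill L0 L1 L2 f (step L0 L1 L2 X) := by
  change (Bool.rec (fill L0 L1 L2 f (step L0 L1 L2 X)) X (Nat.beq (step L0 L1 L2 X) X) : ℕ) = _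
  split_ifs with h
  · rw [h, Nat.beq_refl]
  · rw [Bool.eq_false_iff.2 (mt Nat.eq_of_beq_eq_true h)]

theorem sub_fill (h : fill L0 L1 L2 f X ≠ 0) : Sub X (fill L0 L1 L2 f X) := by
  induction f generalizing X with
  | zero => exact (h rfl).elim
  | succ f ih =>
    rw [fill_succ] at h ⊢
    split_ifs at h ⊢ with a
    · exact fun _ b => b
    · exact (sub_step _ _ _ _).trans (ih h)

theorem fill_closed (L0 L1 L2 f X : ℕ) : Cl1 L0 1152 (fill L0 L1 L2 f X) ∧
    Cl1 L1 48 (fill L0 L1 L2 f X) ∧ Cl1 L2 1 (fill L0 L1 L2 f X) := by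
  induction f generalizing X with
  | zero => exact ⟨fun _ _ => by simp [fill], fun _ _ => by simp [fill], fun _ _ => by simp [fill]⟩
  | succ f ih =>
    rw [fill_succ]
    split_ifs with a
    · have s : Sub (step L0 L1 L2 X) X := fun i b => a ▸ b
      exact ⟨cl1_of ((sub_ud _ _ _).trans (sub_ud _ _ _)) s,
        cl1_of (sub_ud _ _ _) ((sub_ud _ _ _).trans s),
        cl1_of (fun _ b => b) (((sub_ud _ _ _).trans (sub_ud _ _ _)).trans s)⟩
    · exact ih _

theorem fill_ind {Q : ℕ → Prop} (hZ : Sub (fill L0 L1 L2 f X) Z)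
    (q0 : ∀ i, L0.testBit (i + 1152) → Z.testBit i → Z.testBit (i + 1152) → (Q i ↔ Q (i + 1152)))
    (q1 : ∀ i, L1.testBit (i + 48) → Z.testBit i → Z.testBit (i + 48) → (Q i ↔ Q (i + 48)))
    (q2 : ∀ i, L2.testBit (i + 1) → Z.testBit i → Z.testBit (i + 1) → (Q i ↔ Q (i + 1)))
    (h : ∀ i, X.testBit i → Q i) (i : ℕ) (a : (fill L0 L1 L2 f X).testBit i) : Q i := by
  induction f generalizing X with
  | zero => simp [fill] at a
  | succ f ih =>
    rw [fill_succ] at hZ a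
    split_ifs at hZ a with b
    · exact h i a
    · have s : Sub (step L0 L1 L2 X) Z :=
        (sub_fill fun e => by rw [e, Nat.zero_testBit] at a; exact Bool.noConfusion a).trans hZ
      exact ih hZ (ind_ud s q0 (ind_ud ((sub_ud _ _ _).trans s) q1
        (ind_ud (((sub_ud _ _ _).trans (sub_ud _ _ _)).trans s) q2 h))) a

/-! ### Boxes -/

variable {g g' : ℕ → ℕ → ℕ} {z z' da db dt w : ℕ} {u v : T3}

theorem full_bit (hy : y < 24) (hw : w < 48) :
    full.testBit (ix x y w) ↔ x < 7 ∧ y < 12 ∧ w < 24 := by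
  have h1 : ∀ x < 7, ∀ y < 24, ∀ w < 48,
      full.testBit (1152 * x + 48 * y + w) = decide (y < 12 ∧ w < 24) := by decide +kernel
  have h2 : ∀ n, 8064 ≤ n → full < 2 ^ n := fun n hn => by
    obtain ⟨k, rfl⟩ := Nat.exists_eq_add_of_le hn
    rw [← Nat.one_shiftLeft, Nat.shiftLeft_add]
    exact lt_of_lt_of_le (by decide +kernel) Nat.le_shiftLeft
  by_cases hx : x < 7
  · rw [ix, h1 x hx y hy w hw, decide_eq_true_eq, and_iff_right hx]
  · rw [Nat.testBit_lt_two_pow (h2 _ (by unfold ix; omega))]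
    simp [hx]

theorem pos_stp (i : Fin 3) (u : T3) : pos (stp i u) = pos u + ee i := by
  fin_cases i <;> simp [pos, stp, ee, ix] <;> omega

theorem pos_inj (h : pos u = pos v) (h1 : u.2.1 < 23) (h2 : u.2.2 < 47) (h3 : v.2.1 < 23)
    (h4 : v.2.2 < 47) : u = v := by
  unfold pos ix at h
  exact Prod.ext (by omega) (Prod.ext (by omega) (by omega))

theorem stp_le (i : Fin 3) (u : T3) : (stp i u).1 ≤ u.1 + 1 ∧ (stp i u).2.1 ≤ u.2.1 + 1 ∧
    (stp i u).2.2 ≤ u.2.2 + 1 := by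
  fin_cases i <;> simp [stp]

theorem Dl.stp (i : Fin 3) : Dl da db dt (stp i u) (stp i v) ↔ Dl da db dt u v := by
  fin_cases i <;> simp [Dl, Q.stp] <;> omega

theorem Dl.pos (h : Dl da db dt u v) : pos u + code da db dt = pos v + 8615 := by
  obtain ⟨a, b, c⟩ := h
  simp only [code_eq, Bd.pos, ix]
  omega

theorem Dl.ky (h : Dl da db dt u v) : ky u + key da db dt = ky v + 676119 := by
  obtain ⟨a, b, c⟩ := h
  simp only [Q.ky, key]
  omega

theorem Dl.left {u' : T3} (h : Dl da db dt u v) (h' : Dl da db dt u' v) : u = u' :=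
  Prod.ext (by have := h.1; have := h'.1; omega) (Prod.ext
    (by have := h.2.1; have := h'.2.1; omega) (by have := h.2.2; have := h'.2.2; omega))

theorem ap_PB : ap (PB da db dt X) u v ↔
    Dl da db dt u v ∧ v.2.1 < 11 ∧ v.2.2 < 23 ∧ X.testBit (pos v) :=
  ⟨fun ⟨a, b, c, d⟩ => ⟨⟨a, b, c⟩, d⟩, fun ⟨⟨a, b, c⟩, d⟩ => ⟨a, b, c, d⟩⟩

theorem Bdd.lt (hb : Bdd g) (h : ins g v) : v.1 < 6 ∧ v.2.1 < 10 ∧ v.2.2 < 22 := hb _ _ _ h

theorem ap_PB' (hb : Bdd g) (h : ins g v) :
    ap (PB da db dt X) u v ↔ Dl da db dt u v ∧ X.testBit (pos v) := by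
  have := hb.lt h
  rw [ap_PB, and_iff_right (by omega : v.2.1 < 11), and_iff_right (by omega : v.2.2 < 23)]

theorem IsB.ex (hz : IsB g z) (h : z.testBit i) : ∃ v, i = pos v ∧ ins g v :=
  let ⟨a, b, t, h⟩ := (hz i).1 h
  ⟨(a, b, t), h⟩

theorem IsB.pos (hz : IsB g z) (h : ins g v) : z.testBit (pos v) := (hz _).2 ⟨_, _, _, rfl, h⟩

theorem IsB.iff (hz : IsB g z) (hb : Bdd g) (h1 : v.2.1 < 23) (h2 : v.2.2 < 47) :
    z.testBit (Bd.pos v) ↔ ins g v := by
  refine ⟨fun h => ?_, hz.pos⟩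
  obtain ⟨v', e, a⟩ := hz.ex h
  have := hb.lt a
  rwa [pos_inj e h1 h2 (by omega) (by omega)]

/-- A box one step above a bit of the board has a box below it. -/
theorem IsB.below (hz : IsB g z) (hb : Bdd g) {k : Fin 3} (h : z.testBit i)
    (e : Bd.pos v = i + ee k) (h1 : v.2.1 < 23) (h2 : v.2.2 < 47) :
    ∃ m, i = Bd.pos m ∧ ins g m ∧ stp k m = v := by
  obtain ⟨m, rfl, a⟩ := hz.ex h
  have := hb.lt a
  have := stp_le k m
  exact ⟨m, rfl, a, pos_inj (by rw [pos_stp, e]) (by omega) (by omega) h1 h2⟩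

theorem oo_bit (hz : IsB g z) (hb : Bdd g) (h1 : db ≤ 22) (h2 : dt ≤ 46) (hx : x < 7)
    (hy : y < 12) (hw : w < 24) : (oo z da db dt).testBit (ix x y w) ↔
      da ≤ x + 6 ∧ db ≤ y + 10 ∧ dt ≤ w + 22 ∧ g (x + 6 - da) (y + 10 - db) ≤ w + 22 - dt := by
  rw [oo, bit_andn, bit_shl, code_eq, Nat.sub_eq, Nat.sub_eq, Nat.sub_eq]
  have e1 : (ix (da - 6) (db - 10) (dt - 22) ≤ ix x y w ∧
      full.testBit (ix x y w - ix (da - 6) (db - 10) (dt - 22))) ↔
      da ≤ x + 6 ∧ db ≤ y + 10 ∧ dt ≤ w + 22 := by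
    constructor
    · rintro ⟨a, b⟩
      obtain ⟨k, hk⟩ := Nat.exists_eq_add_of_le a
      rw [hk, Nat.add_sub_cancel_left, show k = ix (k / 1152) (k % 1152 / 48) (k % 48) by
        unfold ix; omega, full_bit (by omega) (by omega)] at b
      unfold ix at hk
      omega
    · intro a
      refine ⟨by unfold ix; omega, ?_⟩
      rw [show ix x y w - ix (da - 6) (db - 10) (dt - 22) =
        ix (x - (da - 6)) (y - (db - 10)) (w - (dt - 22)) by unfold ix; omega,
        full_bit (by omega) (by omega)]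
      omega
  rw [e1, ← and_assoc, ← and_assoc, ← and_assoc]
  refine and_congr_right fun a => ?_
  rw [bit_shf' (i := pos (x + 6 - da, y + 10 - db, w + 22 - dt))
    (by simp only [pos, code_eq, ix]; omega), hz.iff hb (by simp only; omega) (by simp only; omega)]
  exact not_lt

/-- The bit below `v` belongs to `oo` when the source is outside the staircase. -/
theorem oo_below (hz : IsB g z) (hb : Bdd g) (h1 : db ≤ 22) (h2 : dt ≤ 46) {k : Fin 3}
    (hv : v.1 < 6 ∧ v.2.1 < 11 ∧ v.2.2 < 23) (hd : Dl da db dt (stp k u) v) (hu : ¬ ins g u) :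
    ∃ i, pos v = i + ee k ∧ (oo z da db dt).testBit i := by
  obtain ⟨p, q, s⟩ := u
  obtain ⟨a, b, t⟩ := v
  obtain ⟨d1, d2, d3⟩ := hd
  have hu' : g p q ≤ s := not_lt.1 hu
  simp only at hv
  fin_cases k <;> simp only [stp] at d1 d2 d3
  · refine ⟨ix a (b + 1) (t + 1), by simp [pos, ix, ee]; omega, ?_⟩
    change p + 1 + da = a + 7 at d1
    change q + db = b + 11 at d2
    change s + dt = t + 23 at d3
    rw [oo_bit hz hb h1 h2 (by omega) (by omega) (by omega), show a + 6 - da = p by omega,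
      show b + 1 + 10 - db = q by omega]
    omega
  · refine ⟨ix (a + 1) b (t + 1), by simp [pos, ix, ee]; omega, ?_⟩
    change p + da = a + 7 at d1
    change q + 1 + db = b + 11 at d2
    change s + dt = t + 23 at d3
    rw [oo_bit hz hb h1 h2 (by omega) (by omega) (by omega), show a + 1 + 6 - da = p by omega,
      show b + 10 - db = q by omega]
    omega
  · refine ⟨ix (a + 1) (b + 1) t, by simp [pos, ix, ee]; omega, ?_⟩
    change p + da = a + 7 at d1
    change q + db = b + 11 at d2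
    change s + 1 + dt = t + 23 at d3
    rw [oo_bit hz hb h1 h2 (by omega) (by omega) (by omega), show a + 1 + 6 - da = p by omega,
      show b + 1 + 10 - db = q by omega]
    omega

theorem oo_pos (hz : IsB g z) (hb : Bdd g) (h1 : db ≤ 22) (h2 : dt ≤ 46)
    (hv : v.1 < 6 ∧ v.2.1 < 11 ∧ v.2.2 < 23) :
    (oo z da db dt).testBit (pos v) ↔ ∃ u, Dl da db dt u v ∧ ¬ ins g u := by
  rw [pos, oo_bit hz hb h1 h2 (by omega) (by omega) (by omega)]
  constructor
  · rintro ⟨a, b, c, d⟩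
    exact ⟨(v.1 + 1 + 6 - da, v.2.1 + 1 + 10 - db, v.2.2 + 1 + 22 - dt),
      ⟨by simp only; omega, by simp only; omega, by simp only; omega⟩, not_lt.2 d⟩
  · rintro ⟨u, ⟨a, b, c⟩, d⟩
    have := not_lt.1 d
    rw [show v.1 + 1 + 6 - da = u.1 by omega, show v.2.1 + 1 + 10 - db = u.2.1 by omega]
    omega

theorem anti_of_bor (h : Bor g) : Anti g := by
  rintro i ⟨a, b, t⟩ e
  have h1 := h.1 a b
  have h2 := h.2 a b
  fin_cases i
  · change t < g (a + 1) b at e
    change t < g a b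
    omega
  · change t < g a (b + 1) at e
    change t < g a b
    omega
  · change t + 1 < g a b at e
    change t < g a b
    omega

/-- A board closed under the links of the level `g` and without bits in the three outer layers is
a union of classes that are not killed. -/
theorem links_of_closed (hz : IsB g z) (hb : Bdd g) (ha : Anti g) (h1 : db ≤ 22) (h2 : dt ≤ 46)
    (hc : ∀ k, Cl1 (lk z (oo z da db dt) (ee k)) (ee k) X) (hz' : IsB g' z') (hb' : Bdd g')
    (hs : Sub X z') : Links g (Neg (PB da db dt X)) := by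
  refine (links_iff _ _).2 ⟨fun i u v hu hv => not_iff_not.2 ?_, fun i u v hu hv h0 a => ?_⟩
  · have hv0 := ha i v hv
    have := hb.lt hv0
    change ap (PB da db dt X) u v ↔ ap (PB da db dt X) (stp i u) (stp i v)
    rw [ap_PB' hb hv0, ap_PB' hb hv, Dl.stp, pos_stp]
    exact and_congr_right fun d => hc i _ (bit_lk.2
      ⟨(oo_pos hz hb h1 h2 (by omega)).2 ⟨u, d, hu⟩, pos_stp i v ▸ hz.pos hv⟩)
  · have := hb.lt hv
    obtain ⟨d, a⟩ := (ap_PB' hb hv).1 a
    obtain ⟨j, e, o⟩ := oo_below hz hb h1 h2 (by omega) d hu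
    have x := (hc i j (bit_lk.2 ⟨o, e ▸ hz.pos hv⟩)).2 (e ▸ a)
    obtain ⟨m, -, -, r⟩ := hz'.below hb' (hs _ x) e (by omega) (by omega)
    exact h0 m r

theorem cls_closed (z O i : ℕ) (k : Fin 3) : Cl1 (lk z O (ee k)) (ee k) (cls z O i) := by
  have := fill_closed (lk z O 1152) (lk z O 48) (lk z O 1) 40 (Nat.shiftLeft 1 i)
  fin_cases k
  exacts [this.1, this.2.1, this.2.2]

theorem cls_seed {O : ℕ} (h : cls z O i ≠ 0) : (cls z O i).testBit i := sub_fill h i (bit_one.2 rfl)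

theorem cls_links (hz : IsB g z) (hb : Bdd g) (ha : Anti g) (h1 : db ≤ 22) (h2 : dt ≤ 46)
    (hs : Sub (cls z (oo z da db dt) i) z) :
    Links g (Neg (PB da db dt (cls z (oo z da db dt) i))) :=
  links_of_closed hz hb ha h1 h2 (cls_closed _ _ _) hz hb hs

/-- `G` holds at the pair with the given difference whose second box sits at the bit `i`. -/
def At (da db dt : ℕ) (G : Pr) (i : ℕ) : Prop :=
  ∀ u v, i = pos v → Dl da db dt u v → v.2.1 < 11 → v.2.2 < 23 → ap G u v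

theorem At.of {G : Pr} (d : Dl da db dt u v) (h1 : v.2.1 < 23) (h2 : v.2.2 < 47) (h : ap G u v) :
    At da db dt G (pos v) := fun u' v' e d' _ _ => by
  obtain rfl : v = v' := pos_inj e h1 h2 (by omega) (by omega)
  rwa [d'.left d]

/-- One link of the level `g` preserves every `G` with `Links g G`. -/
theorem link_step (hz : IsB g z) (hb : Bdd g) (ha : Anti g) (h1 : db ≤ 22) (h2 : dt ≤ 46) {G : Pr}
    (hG : Links g G) (k : Fin 3) (hz' : IsB g' z') (hb' : Bdd g') (i : ℕ)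
    (l : (lk z (oo z da db dt) (ee k)).testBit (i + ee k)) (a : z'.testBit i) :
    At da db dt G i ↔ At da db dt G (i + ee k) := by
  obtain ⟨o, b⟩ := bit_lk.1 l
  obtain ⟨v1, e1, i1⟩ := hz.ex b
  have b1 := hb.lt i1
  obtain ⟨v0, rfl, -, rfl⟩ := hz'.below hb' a e1.symm (by omega) (by omega)
  have i0 := ha k v0 i1
  have b0 := hb.lt i0
  obtain ⟨u0, d, n⟩ := (oo_pos hz hb h1 h2 (by omega)).1 o
  have key := ((links_iff _ _).1 hG).1 k u0 v0 n i1
  rw [e1]
  exact ⟨fun H => At.of ((Dl.stp k).2 d) (by omega) (by omega)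
      (key.1 (H u0 v0 rfl d (by omega) (by omega))),
    fun H => At.of d (by omega) (by omega)
      (key.2 (H _ _ rfl ((Dl.stp k).2 d) (by omega) (by omega)))⟩

/-- The class of a bit is connected. -/
theorem conn (hz : IsB g z) (hb : Bdd g) (ha : Anti g) (h1 : db ≤ 22) (h2 : dt ≤ 46)
    (hs : Sub (cls z (oo z da db dt) i) z) {G : Pr} (hG : Links g G) (h0 : At da db dt G i)
    (u v : T3) (h : ap (PB da db dt (cls z (oo z da db dt) i)) u v) : ap G u v := by
  obtain ⟨p1, p2, p3, p4⟩ := ap_PB.1 h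
  exact fill_ind (Q := At da db dt G) hs
    (fun i l a _ => link_step hz hb ha h1 h2 hG 0 hz hb i l a)
    (fun i l a _ => link_step hz hb ha h1 h2 hG 1 hz hb i l a)
    (fun i l a _ => link_step hz hb ha h1 h2 hG 2 hz hb i l a)
    (fun j a => by rw [bit_one.1 a]; exact h0) _ p4 u v rfl p1 p2 p3

end Pool.Agent.Lib.MP_ed43e6_ag.Q.Bd
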