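import Pool.Agent.Lib.MP_ed43e6_ag.Q.Hook

/-! The board of a staircase with at most five rows, computed without a loop. -/

namespace Pool.Agent.Lib.MP_ed43e6_ag.Q.Bd.XF

noncomputable section

set_option linter.unusedVariables false

def bA (S : Nat) : Nat :=
  pk (Nat.sub (nat_lit 1152) (Nat.mul (nat_lit 12) S)) (nat_lit 5) fun _ => nat_lit 1
def bB (S : Nat) : Nat := pk (nat_lit 1152) (nat_lit 5) fun _ =>
  Nat.pred (Nat.shiftLeft (nat_lit 1) (Nat.mul (nat_lit 12) S))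
def bM1 : Nat := pk (nat_lit 192) (nat_lit 30) fun _ => nat_lit 281474976710655
def bM2 : Nat := pk (nat_lit 96) (nat_lit 60) fun _ => nat_lit 16777215
def bM3 : Nat := pk (nat_lit 48) (nat_lit 120) fun _ => nat_lit 4095
def bE : Nat := pk (nat_lit 48) (nat_lit 120) fun _ => nat_lit 1

def by0 (S H : Nat) : Nat := Nat.land (Nat.mul H (bA S)) (bB S)
def by1 (y : Nat) : Nat := Nat.land
  (Nat.lor (Nat.lor y (Nat.shiftLeft y (nat_lit 144))) (Nat.shiftLeft y (nat_lit 288))) bM1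
def by2 (y : Nat) : Nat := Nat.land (Nat.lor y (Nat.shiftLeft y (nat_lit 72))) bM2
def by3 (y : Nat) : Nat := Nat.land (Nat.lor y (Nat.shiftLeft y (nat_lit 36))) bM3
/-- Multiply the lanes of `x` by `c + 1` where the bit `j` of the lane of `y` is set. -/
def bx (y x j c : Nat) : Nat := Nat.add x (Nat.land (Nat.mul x c)
  (Nat.mul (Nat.land (Nat.shiftRight y j) bE) (nat_lit 4294967295)))
/-- The lanes `h` of `y` become `2 ^ h`. -/
def bP (y : Nat) : Nat :=
  bx y (bx y (bx y (bx y (Nat.add bE (Nat.land y bE)) (nat_lit 1) (nat_lit 3)) (nat_lit 2)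
    (nat_lit 15)) (nat_lit 3) (nat_lit 255)) (nat_lit 4) (nat_lit 65535)
def brd2 (S N H : Nat) : Nat :=
  Nat.shiftLeft (Nat.sub (bP (by3 (by2 (by1 (by0 S H))))) bE) (nat_lit 1201)

def uB : {f // f = brd2} := ⟨_, by delta brd2 bP bx by3 by2 by1 by0; rfl⟩
def vB : Nat → Nat → Nat → Nat := uB.1

end

end Pool.Agent.Lib.MP_ed43e6_ag.Q.Bd.XF
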