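import Pool.Agent.Lib.MP_ed43e6_ag.N.Comb

/-! Borel staircases with at most fifty eight boxes live on a small grid of columns. -/

namespace Pool.Agent.Lib.MP_ed43e6_ag.Q

open Finset N

/-- The largest possible length of row `a`. -/
def W (a : ℕ) : ℕ :=
  if a = 0 then 10 else if a = 1 then 6 else if a = 2 then 4 else if a = 3 then 3
  else if a = 4 then 2 else if a = 5 then 1 else 0

variable {h : ℕ → ℕ → ℕ}

theorem bor_row (hB : Bor h) {a b : ℕ} (k : ℕ) (hp : 0 < h a (b + k)) :
    h a (b + k) + k ≤ h a b := by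
  induction k with
  | zero => exact le_rfl
  | succ k ih =>
    have h1 := hB.1 a (b + k)
    have h2 : h a (b + (k + 1)) = h a (b + k + 1) := rfl
    have h3 := ih (by omega)
    omega

theorem bor_diag (hB : Bor h) (a b k : ℕ) : h (a + k) b ≤ h a (b + k) := by
  induction k generalizing a b with
  | zero => exact le_rfl
  | succ k ih =>
    have h1 := hB.2 (a + k) b
    have h2 := ih a (b + 1)
    have e : b + 1 + k = b + (k + 1) := by omega
    rw [e] at h2
    exact h1.trans h2

theorem bor_low (hB : Bor h) {a0 b0 : ℕ} (hp : 0 < h a0 b0) {a b : ℕ} (ha : a ≤ a0)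
    (hab : a + b ≤ a0 + b0) : a0 + b0 + 1 ≤ h a b + a + b := by
  obtain ⟨k, rfl⟩ := Nat.exists_eq_add_of_le ha
  have h1 := bor_diag hB a b0 k
  obtain ⟨j, hj⟩ : ∃ j, b0 + k = b + j := ⟨b0 + k - b, by omega⟩
  rw [hj] at h1
  have h2 := bor_row hB (a := a) (b := b) j (by omega)
  omega

theorem low_le_size (hB : Bor h) {a0 b0 : ℕ} (hp : 0 < h a0 b0) (A B : ℕ) (hA : A ≤ a0 + 1)
    (hA' : A ≤ 128) (hB' : B ≤ 128) :
    ∑ a ∈ range A, ∑ b ∈ range B, (a0 + b0 + 1 - a - b) ≤ size h := by
  unfold size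
  refine le_trans (sum_le_sum fun a ha => ?_)
    (sum_le_sum_of_subset (range_subset_range.2 hA'))
  refine le_trans (sum_le_sum fun b _ => ?_) (sum_le_sum_of_subset (range_subset_range.2 hB'))
  rw [mem_range] at ha
  by_cases hab : a + b ≤ a0 + b0
  · have := bor_low hB hp (a := a) (b := b) (by omega) hab
    omega
  · omega

theorem pos_mono (hB : Bor h) {a b a' b' : ℕ} (ha : a' ≤ a) (hb : b' ≤ b) (hp : 0 < h a b) :
    0 < h a' b' := by
  have := bor_low hB hp ha (b := b') (by omega)
  omega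

theorem grid (hB : Bor h) (hs : size h ≤ 58) (a b : ℕ) (hb : W a ≤ b) : h a b = 0 := by
  by_contra hne
  have hp : 0 < h a b := Nat.pos_of_ne_zero hne
  have key : ∀ a0 b0, a0 ≤ a → b0 ≤ b → a0 < 128 →
      ∑ x ∈ range (a0 + 1), ∑ y ∈ range 12, (a0 + b0 + 1 - x - y) ≤ 58 := fun a0 b0 h1 h2 h3 =>
    (low_le_size hB (pos_mono hB h1 h2 hp) (a0 + 1) 12 le_rfl (by omega) (by omega)).trans hs
  unfold W at hb
  split_ifs at hb with h0 h1 h2 h3 h4 h5
  · exact absurd (key 0 10 (by omega) hb (by omega)) (by decide)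
  · exact absurd (key 1 6 (by omega) hb (by omega)) (by decide)
  · exact absurd (key 2 4 (by omega) hb (by omega)) (by decide)
  · exact absurd (key 3 3 (by omega) hb (by omega)) (by decide)
  · exact absurd (key 4 2 (by omega) hb (by omega)) (by decide)
  · exact absurd (key 5 1 (by omega) hb (by omega)) (by decide)
  · exact absurd (key 6 0 (by omega) hb (by omega)) (by decide)

theorem W_le (a : ℕ) : W a ≤ 10 ∧ (6 ≤ a → W a = 0) := by
  unfold W
  split_ifs <;> omega

theorem size_grid (hB : Bor h) (hs : size h ≤ 58) (A B : ℕ) (hA : 6 ≤ A) (hA' : A ≤ 128)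
    (hb : 10 ≤ B) (hb' : B ≤ 128) : size h = ∑ a ∈ range A, ∑ b ∈ range B, h a b := by
  unfold size
  symm
  refine (sum_congr rfl fun a _ => ?_).trans (sum_subset (range_subset_range.2 hA')
    fun a _ ha => sum_eq_zero fun b _ => ?_)
  · refine sum_subset (range_subset_range.2 hb') fun b _ hb => ?_
    rw [mem_range] at hb
    exact grid hB hs a b (by have := W_le a; omega)
  · rw [mem_range] at ha
    exact grid hB hs a b (by have := W_le a; omega)

theorem le_size (hB : Bor h) (hs : size h ≤ 58) (a b : ℕ) : h a b ≤ size h := by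
  by_cases hab : a < 128 ∧ b < 128
  · unfold size
    exact (single_le_sum (f := fun b => h a b) (fun _ _ => Nat.zero_le _)
      (mem_range.2 hab.2)).trans (single_le_sum (f := fun a => ∑ b ∈ range 128, h a b)
        (fun _ _ => Nat.zero_le _) (mem_range.2 hab.1))
  · rw [grid hB hs a b (by have := W_le a; omega)]
    exact Nat.zero_le _

end Pool.Agent.Lib.MP_ed43e6_ag.Q
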