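import Pool.Agent.Lib.MP_ed43e6_ag.Q.Base

/-! The first order checker. Small vectors have `N` lanes `S p + q` of twelve bits, big vectors
have `N` blocks of `N` lanes, one block for each column `a, b`. -/

namespace Pool.Agent.Lib.MP_ed43e6_ag.Q

noncomputable section

namespace Fo

def o (N : Nat) : Nat := pk 12 N fun _ => 1
def g (N : Nat) : Nat := Nat.mul (o N) 2048
def c47 (N : Nat) : Nat := Nat.mul (o N) 2047
def c46 (N : Nat) : Nat := Nat.mul (o N) 2046
def full (N : Nat) : Nat := Nat.mul (o N) 4095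
def cX (S : Nat) : Nat := Nat.mul (o S) 128
def cY (S N : Nat) : Nat := pk 12 N fun i => sel (Nat.beq (Nat.mod i S) 0) 128 0
def mE (S N : Nat) : Nat := pk 12 N fun i => sel (Nat.beq (Nat.mod i S) 0) 0 4095
def mQ (S N : Nat) : Nat := pk 12 N fun i => sel (Nat.ble (Nat.add (Nat.mod i S) 2) S) 4095 0
def mR (S N : Nat) : Nat := pk 12 N fun i => sel (Nat.ble (Nat.add (Nat.mod i S) 3) S) 4095 0
def cD (S N : Nat) : Nat := pk 12 N fun i => Nat.add (Nat.div i S) (Nat.mod i S)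
def w1 (N : Nat) : Nat := Nat.mul 12 N
def w0 (N : Nat) : Nat := Nat.mul 12 (Nat.pred N)
def oB (N : Nat) : Nat := pk (w1 N) N fun _ => 1
def sp (N : Nat) : Nat := pk (w0 N) N fun _ => 1
def cF (N : Nat) : Nat := Nat.pred (Nat.shiftLeft 1 (w1 N))
def o1 (N : Nat) : Nat := Nat.mul (o N) (oB N)
def o2 (N : Nat) : Nat := Nat.mul (o1 N) 2
def o4 (N : Nat) : Nat := Nat.mul (o1 N) 4
def bG (N : Nat) : Nat := Nat.mul (o1 N) 2048
def bH (N : Nat) : Nat := Nat.mul (o1 N) 4096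
def b47 (N : Nat) : Nat := Nat.mul (o1 N) 2047
def mL (N : Nat) : Nat := Nat.mul (oB N) 4095
def cP (S N : Nat) : Nat :=
  pk (w1 N) N fun j => Nat.sub (Nat.sub
    (Nat.mul (o N) (Nat.add 2048 (Nat.add (Nat.div j S) (Nat.mod j S)))) (cD S N))
    (o (Nat.succ j))
def m1 (S N : Nat) : Nat :=
  pk (w1 N) N fun j => sel (Nat.ble (Nat.add (Nat.mod j S) 2) S) (full N) 0
def m0 (S N : Nat) : Nat := pk (w1 N) N fun j => sel (Nat.beq (Nat.mod j S) 0) (mE S N) 0
def c0 (S N : Nat) : Nat :=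
  pk (w1 N) N fun j => sel (Nat.beq (Nat.mod j S) 0) (Nat.shiftRight (cY S N) 1)
    (Nat.mul (o N) 64)

/-! Small vectors. -/

def hn (S N H : Nat) : Nat := Nat.land (Nat.shiftRight H 12) (mQ S N)
def ey (S N H : Nat) : Nat := Nat.sub H (hn S N H)
def dx (S N H : Nat) : Nat :=
  Nat.sub (Nat.add (Nat.land (Nat.shiftLeft H (w1 S)) (full N)) (cX S)) H
def dy (S N H : Nat) : Nat := Nat.sub (Nat.add (Nat.shiftLeft H 12) (cY S N)) H
def dz (S N H : Nat) : Nat :=
  Nat.sub (Nat.add (Nat.land (Nat.shiftLeft H (w0 S)) (mQ S N)) (cX S)) H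
def gg (S N H : Nat) : Nat :=
  Nat.sub (mnG (g N) (Nat.add (dx S N H) (g N)) (dy S N H)) (g N)
def zg (S N H : Nat) : Nat := geG (g N) (Nat.add (gg S N H) (c47 N))
def cnt (S N H : Nat) : Nat :=
  Nat.mod (Nat.add (zg S N H) (geG (g N) (Nat.add H (c47 N)))) 4095
def hz (S N H : Nat) : Nat :=
  Nat.sub (Nat.add (Nat.add (Nat.land (Nat.shiftLeft H (w0 (Nat.pred S))) (mR S N)) (cX S)) (g N)) H
def ad (S N H : Nat) : Nat :=
  Nat.shiftRight (Nat.land (Nat.add (dy S N H) (c46 N))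
    (Nat.land (Nat.add (dz S N H) (c47 N)) (g N))) 2
def dl1 (S N H : Nat) : Nat :=
  Nat.land (Nat.add (Nat.sub H (Nat.land (Nat.shiftRight H (w0 S)) (mE S N))) (c47 N)) (g N)
def dl (S N H : Nat) : Nat :=
  Nat.shiftRight (Nat.lor (Nat.land (Nat.add (ey S N H) (c46 N)) (dl1 S N H))
    (Nat.land (Nat.sub (g N) (hn S N H)) (dl1 S N H))) 2

/-- Lane `j` of a small vector goes to the first lane of block `j`. -/
def spr (N v : Nat) : Nat := Nat.land (Nat.mul v (sp N)) (mL N)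
/-- The sum of block `j` goes to its first lane. -/
def bs (N v : Nat) : Nat := Nat.land (Nat.shiftRight (Nat.mul v (o N)) (w0 N)) (mL N)

/-! Big vectors. -/

def x0 (N H : Nat) : Nat := Nat.mul (spr N H) (o N)
def x1 (S N H : Nat) : Nat := Nat.land (Nat.shiftRight (x0 N H) (w1 N)) (m1 S N)
def ge (S N H : Nat) : Nat := Nat.mul (Nat.sub (g N) (ey S N H)) (oB N)
def du (S N H : Nat) : Nat := Nat.add (x1 S N H) (ge S N H)
def uu (S N H : Nat) : Nat := tsG (bG N) (du S N H)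
def zz (S N H : Nat) : Nat := Nat.mul (Nat.add (dz S N H) (g N)) (oB N)
def eb (S N H : Nat) : Nat := Nat.sub (x0 N H) (x1 S N H)
def t3 (S N H : Nat) : Nat := Nat.add (mnG (bG N) (zz S N H) (uu S N H)) (eb S N H)
def d0 (S N H : Nat) : Nat := Nat.sub (Nat.add (x0 N H) (cP S N)) (Nat.mul H (oB N))
def gb (S N H : Nat) : Nat := Nat.mul (gg S N H) (oB N)
def r1 (S N H : Nat) : Nat :=
  mnG (bG N) (mnG (bG N) (t3 S N H) (tsG (bG N) (d0 S N H))) (gb S N H)
def s0 (S N H : Nat) : Nat := Nat.mod (Nat.sub (r1 S N H) (bG N)) 4095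

def rx (S N H : Nat) : Nat :=
  Nat.add (Nat.land (Nat.sub (x0 N H) (Nat.shiftRight (x0 N H) (Nat.mul (w1 N) S))) (m0 S N))
    (c0 S N)
def x2 (S N H : Nat) : Nat := Nat.land (Nat.shiftRight (x1 S N H) (w1 N)) (m1 S N)
def ya (S N H : Nat) : Nat :=
  Nat.add (eb S N H) (tsG (bG N) (Nat.add (Nat.sub (x1 S N H) (x2 S N H)) (ge S N H)))
def ry (S N H : Nat) : Nat :=
  Nat.add (ya S N H) (tsG (bG N) (Nat.sub
    (Nat.add (Nat.sub (x0 N H) (x2 S N H)) (Nat.mul (hz S N H) (oB N))) (ya S N H)))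
def rg (S N H : Nat) : Nat := mnG (bG N) (mnG (bG N) (r1 S N H) (rx S N H)) (ry S N H)
def rm (S N H : Nat) : Nat := Nat.sub (rg S N H) (bG N)
def s1 (S N H : Nat) : Nat := Nat.mod (rm S N H) 4095

def nz (S N H : Nat) : Nat := Nat.land (Nat.add (rm S N H) (b47 N)) (bG N)
def gA (S N H : Nat) : Nat := geG (nz S N H) (Nat.sub (rg S N H) (gb S N H))
def gX (S N H : Nat) : Nat := geG (nz S N H) (Nat.sub (rg S N H) (Nat.mul (dx S N H) (oB N)))
def gY (S N H : Nat) : Nat := geG (nz S N H) (Nat.sub (rg S N H) (Nat.mul (dy S N H) (oB N)))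
def e3 (S N H : Nat) : Nat :=
  Nat.land (Nat.sub (Nat.add (rg S N H) (bG N)) (t3 S N H)) (nz S N H)
def gZ (S N H : Nat) : Nat := geG (e3 S N H) (Nat.sub (Nat.add (uu S N H) (bH N)) (zz S N H))
def gP (S N H : Nat) : Nat :=
  Nat.shiftRight (Nat.sub (e3 S N H) (Nat.land (du S N H) (e3 S N H))) 11
def gB (S N H : Nat) : Nat := Nat.lor (gZ S N H) (gP S N H)
def a0 (S N H : Nat) : Nat := Nat.add (gA S N H) (Nat.shiftLeft (gB S N H) (w1 N))
def xy (S N H : Nat) : Nat :=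
  Nat.add (Nat.shiftRight (gX S N H) (w1 S)) (Nat.shiftRight (gY S N H) 12)
def pz (S N H : Nat) : Nat := Nat.add (gP S N H) (Nat.shiftRight (gZ S N H) (w0 S))
def ov (S N H : Nat) : Nat :=
  Nat.add (Nat.add (Nat.add (xy S N H) (Nat.land (gP S N H) (gA S N H)))
    (Nat.shiftRight (Nat.land (gZ S N H) (gA S N H)) (w0 S)))
    (Nat.shiftLeft (Nat.add (Nat.add (pz S N H)
      (Nat.shiftRight (Nat.land (gX S N H) (gB S N H)) (w1 S)))
      (Nat.shiftRight (Nat.land (gY S N H) (gB S N H)) 12)) (w1 N))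
def eB (S N H : Nat) : Nat := Nat.land (geG (bG N) (d0 S N H)) (Nat.mul (zg S N H) (oB N))
def eC (S N H : Nat) : Nat :=
  geG (Nat.land (Nat.add (x0 N H) (b47 N)) (bG N)) (d0 S N H)
def col (S N H : Nat) : Nat :=
  Nat.mul (Nat.add (bs N (Nat.sub (Nat.add (eB S N H) (o2 N)) (a0 S N H))) (spr N (ad S N H))) (o N)
def kk (S N H n : Nat) : Nat :=
  Nat.sub (Nat.add (s1 S N H) 1026) (Nat.add (Nat.mul 3 n) (Nat.mul 6 N))
def row (S N H n : Nat) : Nat :=
  Nat.mul (Nat.add (Nat.add (Nat.mod (Nat.sub (Nat.add (eC S N H) (o4 N))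
    (Nat.add (xy S N H) (pz S N H))) (cF N)) (dl S N H)) (Nat.mul (o N) (kk S N H n))) (oB N)
def dd (S N H n : Nat) : Nat :=
  tsG (bG N) (Nat.add (Nat.add (col S N H) (row S N H n)) (ov S N H))
def cc (S N H : Nat) : Nat :=
  Nat.add (Nat.mul (bs N (eB S N H)) (o N))
    (Nat.mul (Nat.add (Nat.mod (eC S N H) (cF N)) (Nat.mul (o N) (s1 S N H))) (oB N))

/-- The test at one staircase. -/
def chk0 (hook : Nat → Nat → Nat → Nat → Nat → Nat → Nat → Bool) (S N H n : Nat) : Bool :=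
  bor (Nat.ble n 31)
    (bor (Nat.ble (Nat.add (Nat.add (s0 S N H) (cnt S N H)) 2) (Nat.mul 3 n))
      (bor (Nat.ble (Nat.add (Nat.add (s1 S N H) (cnt S N H)) 2) (Nat.mul 3 n))
        (band (Nat.ble (s1 S N H) 1000)
          (bor (Nat.beq (dd S N H n) 0)
            (hook S N n H (dd S N H n) (cc S N H) (rm S N H))))))

def chk (hook : Nat → Nat → Nat → Nat → Nat → Nat → Nat → Bool) (a S H n : Nat) : Bool :=
  chk0 hook S (Nat.succ (Nat.mul (Nat.succ a) S)) H n

/-! The enumeration. -/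

def ps (S a b : Nat) : Nat := Nat.mul 12 (Nat.add (Nat.mul S a) b)
def get (H S a b : Nat) : Nat := Nat.land (Nat.shiftRight H (ps S a b)) 4095

/-- Put height `v` on the empty column `a, b` and continue with stride `S'`. -/
def put (r : Nat → Nat → Nat → Nat → Nat → Bool) (a b S S' H n v : Nat) : Bool :=
  frc (Nat.add n v) fun n' => r a (Nat.succ b) S' (Nat.add H (Nat.shiftLeft v (ps S a b))) n'

/-- The columns before `a, b` in row major order are filled, `b ≥ 1`. -/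
def go (M : Nat) (cut : Nat → Nat → Nat → Nat → Bool) (ck : Nat → Nat → Nat → Nat → Bool)
    (fuel : Nat) : Nat → Nat → Nat → Nat → Nat → Bool :=
  Nat.rec (fun _ _ _ _ _ => false) (fun _ r a b S H n =>
    bor (cut a b S H) (band (ck a S H n) (band
      (Nat.rec (allLt (mn (Nat.sub M n) (Nat.pred (get H S a (Nat.pred b))))
          fun v => put r a b S (Nat.succ S) H n (Nat.succ v))
        (fun a' _ => allLt (mn (mn (Nat.sub M n) (Nat.pred (get H S a (Nat.pred b))))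
            (get H S a' (Nat.succ b)))
          fun v => put r a b S S H n (Nat.succ v)) a)
      (allLt (mn (Nat.sub M n) (get H S a 1))
        fun v => put r (Nat.succ a) 0 S S H n (Nat.succ v))))) fuel

/-- The key of a node; `m = 0` stands for the whole subtree and `m = 1` for the node alone. -/
def enc (m a b S H : Nat) : Nat :=
  Nat.add (Nat.add (Nat.shiftLeft H 64) (Nat.shiftLeft (Nat.mod H 2251799813685119) 13))
    (Nat.add (Nat.add (Nat.mul m 4096) (Nat.mul S 256)) (Nat.add (Nat.mul b 16) a))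

def job (M : Nat) (ck : Nat → Nat → Nat → Nat → Bool) (k : Nat) : Bool :=
  frc (Nat.land k 15) fun a => frc (Nat.land (Nat.shiftRight k 4) 15) fun b =>
    frc (Nat.land (Nat.shiftRight k 8) 15) fun S =>
      frc (Nat.mod (Nat.shiftRight k 64) 4095) fun n =>
        Bool.rec (ck a S (Nat.shiftRight k 64) n)
          (go M (fun _ _ _ _ => false) ck 30 a b S (Nat.shiftRight k 64) n)
          (Nat.beq (Nat.land (Nat.shiftRight k 12) 1) 0)

/-- All nodes are covered by the keys in `t`. -/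
def walk (M : Nat) (t : KT) : Bool :=
  allLt M fun v => put (go M (fun a b S H => t.has (enc 0 a b S H))
    (fun a S H n => bor (Nat.ble n 31) (t.has (enc 1 a 0 S H))) 30) 0 0 1 2 0 0 (Nat.succ v)

end Fo

end

end Pool.Agent.Lib.MP_ed43e6_ag.Q
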