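import Pool.Agent.Lib.MP_ed43e6_ag.Q.L1
import Pool.Agent.Lib.MP_ed43e6_ag.Q.Fo

/-! The certificate checker called at a staircase with a positive first order deficit. -/

namespace Pool.Agent.Lib.MP_ed43e6_ag.Q.Bd

def colT : Nat := 0x5a0000060000000000000000001e0000005d0000360056000000440000002a00000000260000000e000000000019000000000000255700005e000200001300004e004943000000000000413c16354b0000005c000000000000041700000000224a000014003b5f0050000000003e0000000000004800000045000000000000000000000000460000000000000000000a000000002300001800300000000000003d0d000028000000001000000011000029001a00000000002700002b000c0000003700000000000000000000005b0039083f000051000015000000090005000000005900380042002e00004d4f1b000012000000000100000000000f3100002433000b0000003200470000000000001c00002f00000000000000000000005200003a000000000000544c0021002c2d00005520000003005358000000000000001d0000000000000000340000000040001f000000000007000000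

noncomputable section

/-- `16 a + b` for the column `a, b` of the bit `x = 2 ^ i`. -/
def colOf (x : Nat) : Nat := Nat.land (Nat.shiftRight colT
  (Nat.mul 8 (Nat.mod (Nat.div x (Nat.mod x 281474976710655)) 347))) 255

def colIx (S c : Nat) : Nat := Nat.add (Nat.mul S (Nat.shiftRight c 4)) (Nat.land c 15)

/-- Mark the columns of the bits of a board, in lanes of width `m`. -/
def mark (S m o fuel : Nat) : Nat → Nat :=
  Nat.rec (fun _ => o) (fun _ r x => Bool.rec
    (Nat.lor (r (drop x)) (Nat.shiftLeft 1 (Nat.mul m (colIx S (colOf (Nat.xor x (drop x))))))) 0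
    (Nat.beq x 0)) fuel

/-- The flags that keep the group with the words `wa`, `wb`. -/
def keep (S N z wa wb : Nat) : Nat :=
  Nat.mul (andn (Fo.o N) (mark S 12 (Fo.o N) 30 (Nat.lor (dead2 z wa) (dead2 z wb))))
    (andn (Fo.oB N) (mark S (Fo.w1 N) (Fo.oB N) 30 (Nat.lor (dead0 z wa) (dead0 z wb))))

def gain (S N z C K : Nat) : Nat :=
  Nat.rec 0 (fun g r => Nat.add r
    (frc (wd C (Nat.mul 2 g)) fun wa => frc (wd C (Nat.succ (Nat.mul 2 g))) fun wb =>
      keep S N z wa wb)) K

/-- Clear the lanes of `D` that are at most the lanes of `x`; `G` has the top bits. -/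
def clr (G D x : Nat) : Nat :=
  andn D (Nat.sub (Nat.land (Nat.sub (Nat.add x G) D) G)
    (Nat.shiftRight (Nat.land (Nat.sub (Nat.add x G) D) G) 11))

/-- Run through the blocks of the certificate, then call `fin` on the remaining deficits. -/
def blocks (S N z : Nat) (fin : Nat → Bool) (fuel : Nat) : Nat → Nat → Bool :=
  Nat.rec (fun _ _ => false) (fun _ r C D => Bool.rec
    (band (okBlk z (Nat.shiftRight C 6) (Nat.land C 63))
      (r (Nat.shiftRight C (Nat.add 6 (Nat.mul 81 (Nat.land C 63))))
        (clr (Fo.bG N) D (gain S N z (Nat.shiftRight C 6) (Nat.land C 63)))))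
    (fin D) (Nat.beq C 0)) fuel

/-- The board of the staircase with packed column heights `H`. -/
def brd (S N H : Nat) : Nat :=
  Nat.rec 0 (fun i r => Nat.lor r (Nat.shiftLeft
    (Nat.sub (Nat.shiftLeft 1 (Nat.land (Nat.shiftRight H (Nat.mul 12 i)) 4095)) 1)
    (Nat.add (code (Nat.div i S) (Nat.mod i S) 0) 1201))) N

def lane (D l : Nat) : Nat := Nat.land (Nat.shiftRight D (Nat.mul 12 l)) 4095

/-- Every flag with a remaining deficit is handed to `f`, with the indices of its columns. -/
def rest (N : Nat) (f : Nat → Nat → Bool) (D : Nat) : Bool :=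
  bor (Nat.beq D 0) (allLt N fun j =>
    bor (Nat.beq (Nat.land (Nat.shiftRight D (Nat.mul (Fo.w1 N) j)) (Fo.cF N)) 0)
      (allLt N fun i => bor (Nat.beq (lane D (Nat.add (Nat.mul N j) i)) 0) (f j i)))

def hkey (S H : Nat) : Nat := Nat.mod (Nat.add (Nat.mul H 16) S) 1000000000000000003

/-- The arguments of `l3` are `S N n H z Rm`, the indices of the added and of the shortened
column, the bound for the number of roots and the certificate. -/
def hook (l3 : Nat → Nat → Nat → Nat → Nat → Nat → Nat → Nat → Nat → Nat → Bool) (t : BT)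
    (S N n H D C Rm : Nat) : Bool :=
  band (Nat.ble (Nat.add (Nat.land H 4095) (sel (Nat.beq (Nat.land D (Fo.cF N)) 0) 0 1)) 22)
    (blocks S N (brd S N H) (rest N fun j i => l3 S N n H (brd S N H) Rm j i
        (lane C (Nat.add (Nat.mul N j) i))
        (t.find (Nat.add (Nat.mul (hkey S H) 8192) (Nat.succ (Nat.add (Nat.mul N j) i)))))
      20 (t.find (Nat.mul (hkey S H) 8192)) D)

end

end Pool.Agent.Lib.MP_ed43e6_ag.Q.Bd
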