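import Pool.Agent.Lib.MP_ed43e6_ag.Q.Spec
import Pool.Agent.Lib.MP_ed43e6_ag.Q.Brd

/-! The interface of a checker for one flag. -/

namespace Pool.Agent.Lib.MP_ed43e6_ag.Q.Bd

open N

/-- The arguments are `S N n H z Rm`, the indices of the added and of the shortened column, the
bound for the number of roots in `R1` and the certificate. -/
def L3Sound (P : GP) (l3 : ℕ → ℕ → ℕ → ℕ → ℕ → ℕ → ℕ → ℕ → ℕ → ℕ → Bool) : Prop :=
  ∀ (h h0 h2 : ℕ → ℕ → ℕ) (S N n H D C Rm : ℕ) (d c : ℕ → ℕ) (z p0 q0 a1 b1 cert : ℕ),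
    Spec h S N n H D C Rm d c → IsB h z → h0 = bump h p0 q0 → h = bump h2 a1 b1 →
    Bor h0 → Bor h2 → Bdd h0 →
    l3 S N n H z Rm (S * p0 + q0) (S * a1 + b1) (c (N * (S * p0 + q0) + (S * a1 + b1))) cert = true →
    Fine P h0 h h2

theorem l3Sound_false (P : GP) : L3Sound P fun _ _ _ _ _ _ _ _ _ _ => false :=
  fun _ _ _ _ _ _ _ _ _ _ _ _ _ _ _ _ _ _ _ _ _ _ _ _ _ h => absurd h Bool.false_ne_true

end Pool.Agent.Lib.MP_ed43e6_ag.Q.Bd
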