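import Pool.Agent.Lib.MP_ed43e6_ag.Q.Vec
import Pool.Agent.Lib.MP_ed43e6_ag.Q.Grid
import Pool.Agent.Lib.MP_ed43e6_ag.Q.Blk
import Pool.Agent.Lib.MP_ed43e6_ag.Q.Hook
import Pool.Agent.Lib.MP_ed43e6_ag.Q.L3Spec

/-! Soundness of the certificate checker at one staircase. -/

namespace Pool.Agent.Lib.MP_ed43e6_ag.Q.Bd

open Finset N

theorem rec_beq {α : Type} (a b : α) (x y : ℕ) :
    (Bool.rec a b (Nat.beq x y) : α) = if x = y then b else a := by
  split_ifs with h
  · rw [h, Nat.beq_refl]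
  · rw [Bool.eq_false_iff.2 (mt Nat.eq_of_beq_eq_true h)]

theorem andn_one (w n X : ℕ) (hw : 0 < w) : andn (pk w n fun _ => 1) X =
    pk w n fun i => if X.testBit (w * i) then 0 else 1 := by
  have h2 : 1 < 2 ^ w := Nat.one_lt_two_pow (by omega)
  induction n with
  | zero => simp [pk_zero, andn]
  | succ n ih =>
    have h1 := pk_lt w n (fun _ => 1) fun _ _ => h2
    have h3 := pk_lt w n (fun i => if X.testBit (w * i) then 0 else 1) fun _ _ => by
      split_ifs <;> omega
    apply Nat.eq_of_testBit_eq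
    intro j
    rw [Bool.eq_iff_iff, bit_andn, pk_succ, pk_succ, Nat.testBit_two_pow_mul_add _ h1,
      Nat.testBit_two_pow_mul_add _ h3, ← ih]
    by_cases c : j < w * n
    · rw [if_pos c, if_pos c, bit_andn]
    · rw [if_neg c, if_neg c]
      obtain ⟨k, rfl⟩ := Nat.exists_eq_add_of_le (not_lt.1 c)
      rw [Nat.add_sub_cancel_left]
      cases k with
      | zero => by_cases e : X.testBit (w * n) <;> simp [e]
      | succ k => split_ifs <;> simp [Nat.testBit_succ]

theorem lane_pk {n l : ℕ} {d : ℕ → ℕ} (hd : ∀ i < n, d i < 4096) (hl : l < n) :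
    lane (pk 12 n d) l = d l := pk_get 12 n d l hd hl

theorem brd_bit (S H n x : ℕ) : (brd S n H).testBit x ↔
    ∃ i < n, ∃ t < lane H i, x = ix (i / S + 1) (i % S + 1) (t + 1) := by
  induction n with
  | zero => simp [brd]
  | succ n ih =>
    have e : brd S (n + 1) H = Nat.lor (brd S n H) (Nat.shiftLeft (1 <<< lane H n - 1)
      (ix (n / S) (n % S) 0 + 1201)) := rfl
    rw [e, bit_or, ih, bit_shl, Nat.one_shiftLeft, Nat.testBit_two_pow_sub_one, decide_eq_true_eq,
      Nat.exists_lt_succ_right]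
    refine or_congr_right ⟨fun h => ⟨_, h.2, ?_⟩, ?_⟩
    · have := h.1
      unfold ix at this ⊢
      omega
    · rintro ⟨t, ht, rfl⟩
      unfold ix
      omega

variable {h h0 h2 : ℕ → ℕ → ℕ} {S N n H D C Rm z p0 q0 a1 b1 : ℕ} {d c : ℕ → ℕ}

theorem lane_H (s : Spec h S N n H D C Rm d c) {i : ℕ} (hi : i < N) :
    lane H i = h (i / S) (i % S) := by
  have := s.n_le
  have := s.size_eq
  rw [s.H_eq]
  exact lane_pk (fun i _ => (le_size s.bor (by omega) _ _).trans_lt (by omega)) hi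

theorem brd_isB (s : Spec h S N n H D C Rm d c) : IsB h (brd S N H) := fun x => by
  rw [brd_bit]
  constructor
  · rintro ⟨i, hi, t, ht, e⟩
    exact ⟨_, _, t, e, lane_H s hi ▸ ht⟩
  · rintro ⟨a, b, t, e, ht⟩
    obtain ⟨h1, h2⟩ := s.fits.in_of_pos (Nat.zero_lt_of_lt ht)
    exact ⟨_, h2, t, by rwa [lane_H s h2, idx_div h1, idx_mod h1],
      by rwa [idx_div h1, idx_mod h1]⟩

theorem size_bump_le (h : ℕ → ℕ → ℕ) (p q : ℕ) : size (bump h p q) ≤ size h + 1 := by
  have e : ∀ a b, bump h p q a b = h a b + if a = p then if b = q then 1 else 0 else 0 := by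
    intro a b
    unfold bump
    split_ifs <;> simp_all
  unfold size
  simp only [e, sum_add_distrib]
  refine Nat.add_le_add_left ?_ _
  simp only [sum_ite_irrel, sum_ite_eq', sum_const_zero]
  split_ifs <;> omega

theorem bdd_of (B : Bor h0) (hs : size h0 ≤ 58) (h00 : h0 0 0 ≤ 22) : Bdd h0 := fun a b t ht => by
  have h1 := mt (grid B hs a b) (by omega)
  have h2 := W_le a
  have h3 := bor_diag B 0 b a
  rw [zero_add] at h3
  have h4 := bor_row B (a := 0) (b := 0) (b + a) (by rw [zero_add]; omega)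
  rw [zero_add] at h4
  omega

theorem colOf_eq : ∀ a < 6, ∀ b < 10, ∀ t < 22,
    colOf (2 ^ ix (a + 1) (b + 1) (t + 1)) = 16 * a + b := by
  have : allLt 6 (fun a => allLt 10 fun b => allLt 22 fun t => Nat.beq
      (colOf (2 ^ ix (a + 1) (b + 1) (t + 1))) (16 * a + b)) = true := by decide +kernel
  simpa only [allLt_iff, Nat.beq_eq] using this

theorem colIx_eq {a b : ℕ} (hb : b < 16) : colIx S (16 * a + b) = S * a + b := by
  change S * ((16 * a + b) >>> 4) + ((16 * a + b) &&& (2 ^ 4 - 1)) = _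
  rw [Nat.and_two_pow_sub_one_eq_mod, Nat.shiftRight_eq_div_pow]
  congr 2 <;> omega

theorem mark_bit {m o l : ℕ} (ho : o.testBit (m * colIx S (colOf (2 ^ l)))) (f x : ℕ)
    (hx : x.testBit l) : (mark S m o f x).testBit (m * colIx S (colOf (2 ^ l))) := by
  induction f generalizing x with
  | zero => exact ho
  | succ f ih =>
    have hne : x ≠ 0 := fun e => by simp [e] at hx
    obtain ⟨k, hk⟩ := low_ex hne
    have e : mark S m o (f + 1) x = (Bool.rec (Nat.lor (mark S m o f (drop x))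
      (Nat.shiftLeft 1 (m * colIx S (colOf (Nat.xor x (drop x)))))) 0 (Nat.beq x 0) : ℕ) := rfl
    rw [e, rec_beq, if_neg hne, bit_or, hk.xor_drop, bit_one]
    by_cases c : l = k
    · exact Or.inr (by rw [c])
    · exact Or.inl (ih _ (hk.drop.2 ⟨hx, c⟩))

theorem one_bit {w n i : ℕ} (hw : 0 < w) (hi : i < n) : (pk w n fun _ => 1).testBit (w * i) := by
  have := pk_get w n (fun _ => 1) i (fun _ _ => Nat.one_lt_two_pow (by omega)) hi
  have e : ((pk w n fun _ => 1) >>> (w * i) &&& (2 ^ w - 1)).testBit 0 := by rw [this]; rfl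
  rw [Nat.testBit_and, Nat.testBit_shiftRight, Bool.and_eq_true] at e
  exact e.1

/-- The group survives in the flag with lane `l`. -/
def Kp (S N z wa wb l : ℕ) : Prop :=
  ¬ (mark S 12 (Fo.o N) 30 (Nat.lor (dead2 z wa) (dead2 z wb))).testBit (12 * (l % N)) ∧
  ¬ (mark S (Fo.w1 N) (Fo.oB N) 30 (Nat.lor (dead0 z wa) (dead0 z wb))).testBit (12 * N * (l / N))

open Classical in
theorem keep_eq (hN : 0 < N) (wa wb : ℕ) :
    keep S N z wa wb = pk 12 (N * N) fun l => if Kp S N z wa wb l then 1 else 0 := by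
  change andn (pk 12 N _) _ * andn (pk (12 * N) N _) _ = _
  rw [andn_one _ _ _ (by omega), andn_one _ _ _ (by omega), mul_comm, pk_mul,
    pk_congr _ _ _ _ fun j _ => (mul_comm _ _).trans (pk_mul _ _ _ _), pk_nest]
  refine pk_congr _ _ _ _ fun l _ => ?_
  unfold Kp
  split_ifs <;> simp_all

open Classical in
theorem gain_eq (hN : 0 < N) (K : ℕ) : gain S N z C K = pk 12 (N * N) fun l =>
    ((range K).filter fun g => Kp S N z (wd C (2 * g)) (wd C (2 * g + 1)) l).card := by
  simp only [card_filter]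
  induction K with
  | zero => simp [gain, pk_const_zero]
  | succ K ih =>
    have e : gain S N z C (K + 1) = gain S N z C K + frc (wd C (2 * K)) fun wa =>
      frc (wd C (2 * K + 1)) fun wb => keep S N z wa wb := rfl
    rw [e, frc_eq, frc_eq, ih, keep_eq hN, pk_add]
    simp only [sum_range_succ]

theorem clr_eq {y : ℕ → ℕ} (hd : ∀ l < N * N, d l < 2048) (hy : ∀ l < N * N, y l < 2048) :
    clr (Fo.bG N) (pk 12 (N * N) d) (pk 12 (N * N) y) =
      pk 12 (N * N) fun l => if d l ≤ y l then 0 else d l := by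
  have e : Fo.bG N = pk 12 (N * N) fun _ => 2048 := by
    change pk 12 N _ * pk (12 * N) N _ * 2048 = _
    rw [pk_rep, pk_mul]
  have e' : (pk 12 (N * N) y + Fo.bG N - pk 12 (N * N) d) &&& Fo.bG N =
      pk 12 (N * N) fun l => if d l ≤ y l then 2048 else 0 := by
    rw [e, pk_add, pk_sub _ _ _ _ fun l hl => by have := hd l hl; omega,
      pk_landG' _ _ fun l hl => by have := hy l hl; omega]
    exact pk_congr _ _ _ _ fun l hl => by have := hd l hl; split_ifs <;> omega
  change pk 12 (N * N) d ^^^ (pk 12 (N * N) d &&& ((_ &&& _) - (_ &&& _) >>> 11)) = _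
  erw [e']
  rw [pk_shrG _ _ 11 1 rfl, pk_sub _ _ _ _ fun i _ => by split_ifs <;> omega,
    pk_and 12 _ _ _ (fun l hl => (hd l hl).trans (by norm_num)) fun i _ => by
      split_ifs <;> norm_num,
    pk_xor (by norm_num) (fun l hl => (hd l hl).trans (by norm_num)) fun l hl =>
      Nat.and_le_left.trans_lt ((hd l hl).trans (by norm_num))]
  refine pk_congr _ _ _ _ fun l hl => ?_
  split_ifs
  · rw [show 2048 - 1 = 2 ^ 11 - 1 from rfl, Nat.and_two_pow_sub_one_eq_mod,
      Nat.mod_eq_of_lt (hd l hl), Nat.xor_self]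
  · simp

open Classical in
theorem blocks_sound {F : Prop} {T : ℕ → Prop} {fin : ℕ → Bool} {l : ℕ} (hN : 0 < N)
    (hf : ∀ d : ℕ → ℕ, (∀ l < N * N, d l < 2048) → fin (pk 12 (N * N) d) = true → T (d l) → F)
    (hb : ∀ C K e, K < 64 → okBlk z C K = true → T e → e ≤ lane (gain S N z C K) l → F)
    (hl : l < N * N) (f C : ℕ) (hd : ∀ l < N * N, d l < 2048)
    (e : blocks S N z fin f C (pk 12 (N * N) d) = true) (t : T (d l)) : F := by
  induction f generalizing C d with
  | zero => exact absurd e Bool.false_ne_true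
  | succ f ih =>
    have e' : (Bool.rec (band (okBlk z (C >>> 6) (C &&& 63))
      (blocks S N z fin f (C >>> (6 + 81 * (C &&& 63)))
        (clr (Fo.bG N) (pk 12 (N * N) d) (gain S N z (C >>> 6) (C &&& 63)))))
      (fin (pk 12 (N * N) d)) (Nat.beq C 0) : Bool) = true := e
    rw [rec_beq] at e'
    split_ifs at e'
    · exact hf d hd e' t
    have hK : C &&& 63 < 64 := Nat.lt_succ_of_le Nat.and_le_right
    obtain ⟨e1, e2⟩ := band_iff.1 e'
    have h1 := hb _ _ _ hK e1 t
    have h2 : ∀ (p : ℕ → Prop) [DecidablePred p], ((range (C &&& 63)).filter p).card < 64 :=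
      fun p _ => (card_filter_le _ _).trans_lt (by rwa [card_range])
    rw [gain_eq hN] at h1 e2
    rw [lane_pk (fun _ _ => (h2 _).trans (by norm_num)) hl] at h1
    rw [clr_eq hd fun _ _ => (h2 _).trans (by norm_num)] at e2
    refine (_root_.em _).elim h1 fun c => ih _ (fun l hl => ?_) e2 (by rwa [if_neg c])
    have := hd l hl
    split_ifs <;> omega

theorem block_zero {i j : ℕ} (hd : ∀ l < N * N, d l < 2048) (hi : i < N) (hj : j < N)
    (e : pk 12 (N * N) d >>> (12 * N * j) &&& (1 <<< (12 * N) - 1) = 0) : d (N * j + i) = 0 := by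
  have e1 : pk 12 (N * N) d = pk (12 * N) N fun j => pk 12 N fun i => d (N * j + i) := by
    rw [pk_nest]
    simp only [Nat.div_add_mod]
  rw [e1, Nat.one_shiftLeft, pk_get _ _ _ _ (fun j hj => pk_lt _ _ _ fun i hi =>
    (hd _ (Q.lane_lt hi hj)).trans (by norm_num)) hj] at e
  exact pk_eq_zero _ _ _ e i hi

theorem rest_sound {f : ℕ → ℕ → Bool} {i j : ℕ} (hd : ∀ l < N * N, d l < 2048) (hi : i < N)
    (hj : j < N) (e : rest N f (pk 12 (N * N) d) = true) (h0 : d (N * j + i) ≠ 0) :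
    f j i = true := by
  rcases bor_iff.1 e with e | e
  · exact absurd (pk_eq_zero _ _ _ (Nat.eq_of_beq_eq_true e) _ (Q.lane_lt hi hj)) h0
  rcases bor_iff.1 (allLt_iff.1 e j hj) with e | e
  · exact absurd (block_zero hd hi hj (Nat.eq_of_beq_eq_true e)) h0
  rcases bor_iff.1 (allLt_iff.1 e i hi) with e | e
  · have e1 : lane (pk 12 (N * N) d) (N * j + i) = 0 := Nat.eq_of_beq_eq_true e
    rw [lane_pk (fun l hl => (hd l hl).trans (by norm_num)) (Q.lane_lt hi hj)] at e1
    exact absurd e1 h0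
  · exact e

open Classical in
theorem hook_sound {P : GP} (hP : ∀ g D k, Gain g D k → P g D k)
    {l3 : ℕ → ℕ → ℕ → ℕ → ℕ → ℕ → ℕ → ℕ → ℕ → ℕ → Bool} (h3 : L3Sound P l3) (t : BT) :
    HookSound P (hook l3 t) := by
  intro h S N n H D C Rm d c s e h0 h2 p0 q0 a1 b1 e0 e1 B0 B2
  obtain ⟨f1, f2, f3, f4, f5, -⟩ := s.flag h0 h2 p0 q0 a1 b1 e0 e1 B0 B2
  obtain ⟨g1, g2⟩ := band_iff.1 e
  have hN : 0 < N := by omega
  have hi : S * a1 + b1 < N := by omega
  have hl := Q.lane_lt hi f2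
  have hn := s.size_eq
  by_cases c1 : d (N * (S * p0 + q0) + (S * a1 + b1)) = 0
  · obtain ⟨R, r1, r2⟩ := f5
    exact ⟨R, 0, r1, hP _ _ _ (gain_zero _ _), by omega⟩
  have h00 : h0 0 0 ≤ 22 := by
    have l0 := lane_H s hN
    rw [Nat.zero_div, Nat.zero_mod] at l0
    have l1 : lane H 0 + sel (Nat.beq (D &&& Fo.cF N) 0) 0 1 ≤ 22 := Nat.le_of_ble_eq_true g1
    rw [sel_beq, l0] at l1
    rw [e0]
    unfold bump
    split_ifs with c2
    · obtain ⟨rfl, rfl⟩ := c2
      rwa [if_neg (c := D &&& Fo.cF N = 0) fun c3 =>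
        c1 (block_zero s.d_lt hi f2 (s.D_eq ▸ c3))] at l1
    · omega
  have hb : Bdd h0 := bdd_of B0
    (by have := size_bump_le h p0 q0; have := s.n_le; rw [e0]; omega) h00
  have hz := brd_isB s
  have u0 := hb p0 q0 (h p0 q0) (by rw [e0]; unfold bump; rw [if_pos ⟨rfl, rfl⟩]; omega)
  have k1 : h a1 b1 = h2 a1 b1 + 1 := by rw [e1]; exact if_pos ⟨rfl, rfl⟩
  have u1 := hb a1 b1 (h2 a1 b1) (by rw [e0]; unfold bump; split_ifs <;> omega)
  rw [s.D_eq] at g2
  refine blocks_sound (T := fun x => ∃ R, Roots h0 h h2 R ∧ R.card + 2 ≤ 3 * n + x) hN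
    (fun d' hd' e' r => ?_) (fun C' K x hK ok r hx => ?_) hl _ _ s.d_lt g2 f5
  · obtain ⟨R, r1, r2⟩ := r
    by_cases c0 : d' (N * (S * p0 + q0) + (S * a1 + b1)) = 0
    · exact ⟨R, 0, r1, hP _ _ _ (gain_zero _ _), by omega⟩
    · have := rest_sound hd' hi f2 e' c0
      have e2 : lane C (N * (S * p0 + q0) + (S * a1 + b1)) = _ :=
        s.C_eq ▸ lane_pk (fun l hl => (s.c_lt l hl).trans (by norm_num)) hl
      exact h3 h h0 h2 S N n H D C Rm d c _ p0 q0 a1 b1 _ s hz e0 e1 B0 B2 hb (e2 ▸ this)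
  · obtain ⟨R, r1, r2⟩ := r
    rw [gain_eq hN, lane_pk (fun _ _ => (card_filter_le _ _).trans_lt
      (by rw [card_range]; omega)) hl] at hx
    refine ⟨R, _, r1, hP _ _ _ (blk_sound e0 e1 B0 s.bor B2 hb hz
      (hn ▸ s.n_ge) hK ok _ (filter_subset _ _) fun g hg => ?_),
      r2.trans (Nat.add_le_add (by omega) hx)⟩
    obtain ⟨x2, x0⟩ := (mem_filter.1 hg).2
    rw [idx_mod hi] at x2
    rw [idx_div hi] at x0
    constructor
    · intro y
      have := mark_bit (S := S) (m := 12 * N) (o := Fo.oB N) (l := ix (p0 + 1) (q0 + 1)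
        (h p0 q0 + 1))
      rw [colOf_eq _ u0.1 _ u0.2.1 _ u0.2.2, colIx_eq (by omega)] at this
      exact x0 (this (one_bit (w := 12 * N) (by omega) f2) _ _ y)
    · intro y
      have := mark_bit (S := S) (m := 12) (o := Fo.o N) (l := ix (a1 + 1) (b1 + 1)
        (h2 a1 b1 + 1))
      rw [colOf_eq _ u1.1 _ u1.2.1 _ u1.2.2, colIx_eq (by omega)] at this
      exact x2 (this (one_bit (by norm_num) hi) _ _ (k1 ▸ y))

end Pool.Agent.Lib.MP_ed43e6_ag.Q.Bd
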