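import Pool.Agent.Lib.MP_ed43e6_ag.Q.L2T

/-! Counting the destroyed groups of all flags at once. -/

namespace Pool.Agent.Lib.MP_ed43e6_ag.Q.Bd.X

open Finset N

variable {i j s g K p x w n k t b c S N R D : ℕ} {f : ℕ → ℕ}

theorem bit_mask (hw : 0 < w) (hs : s ≤ w) :
    (pk w n fun _ => 2 ^ s - 1).testBit p ↔ p / w < n ∧ p % w < s := by
  have := Nat.pow_le_pow_right two_pos hs
  have := Nat.two_pow_pos s
  rw [← Nat.div_add_mod p w, pk_bit (fun _ _ => by omega) (Nat.mod_lt _ hw), Nat.div_add_mod,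
    Nat.testBit_two_pow_sub_one, decide_eq_true_eq]

theorem pk_modc (m s n : ℕ) (f : ℕ → ℕ) : pk (m + s) n f ≡ pk s n f [MOD 2 ^ m - 1] := by
  have e : 2 ^ m ≡ 1 [MOD 2 ^ m - 1] :=
    ((Nat.modEq_iff_dvd' Nat.one_le_two_pow).2 dvd_rfl).symm
  induction n with
  | zero => rfl
  | succ n ih =>
    rw [pk_succ, pk_succ, add_mul, pow_add, pow_mul]
    refine Nat.ModEq.add (Nat.ModEq.mul_right _ ?_) ih
    simpa using (e.pow n).mul_right (2 ^ (s * n))

theorem mod_ones {m a v : ℕ} (hv : v = m + s) (ha : a < m) (h : pk s n f < 2 ^ a) :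
    Nat.mod (pk v n f) (Nat.pred (Nat.shiftLeft 1 m)) = pk s n f := by
  have := Nat.pow_lt_pow_right one_lt_two ha
  rw [hv, Nat.shiftLeft_eq', Nat.one_shiftLeft, Nat.pred_eq_sub_one]
  exact Eq.trans (pk_modc m s n f) (Nat.mod_eq_of_lt (by omega))

theorem pk_swap (v m w n : ℕ) (F : ℕ → ℕ → ℕ) :
    (pk v m fun g => pk w n (F g)) = pk w n fun i => pk v m fun g => F g i := by
  induction m with
  | zero => exact (pk_const_zero w n).symm
  | succ m ih =>
    rw [pk_succ, ih, mul_comm, pk_mul, pk_add]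
    exact pk_congr _ _ _ _ fun i _ => by rw [pk_succ, mul_comm]

theorem pk_shand {m : ℕ} (hm : n ≤ m) (hk : k < w) (hf : ∀ i < m, f i < 2 ^ w)
    (hc : c < 2 ^ (w - k)) : Nat.land (Nat.shiftRight (pk w m f) k) (pk w n fun _ => c) =
      pk w n fun i => f i >>> k &&& c := by
  have l := hc.trans_le (Nat.pow_le_pow_right two_pos (Nat.sub_le w k))
  refine Nat.eq_of_testBit_eq fun p => ?_
  have r := Nat.mod_lt p (show 0 < w by omega)
  rw [Bool.eq_iff_iff, ← Nat.div_add_mod p w, bit_and, bit_shr, pk_bit (fun _ _ => l) r,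
    pk_bit (fun _ _ => Nat.and_le_right.trans_lt l) r, Nat.testBit_and, Nat.testBit_shiftRight,
    Bool.and_eq_true]
  by_cases e : c.testBit (p % w)
  · have : p % w < w - k := (Nat.pow_lt_pow_iff_right one_lt_two).1
      ((Nat.ge_two_pow_of_testBit e).trans_lt hc)
    rw [add_assoc, pk_bit hf (by omega), add_comm k]
    exact ⟨fun a => ⟨a.2.1, a.1.2, e⟩, fun a => ⟨⟨by omega, a.2.1⟩, a.1, e⟩⟩
  · simp [e]

/-! ### Cells -/

theorem cel_mul (c : ℕ) : Nat.mul cel c = pk 48 168 fun _ => c :=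
  (pk_mul 48 168 _ c).trans (pk_congr _ _ _ _ fun _ _ => one_mul c)

theorem kK_cel (K c : ℕ) : kK K (Nat.mul cel c) = pk 48 (168 * K) fun _ => c := by
  rw [cel_mul, kK, Nat.mul_eq, mul_comm]
  exact pk_rep 48 168 _ K

theorem dR_eq (hK : K ≤ 44) (hD : ∀ p, D.testBit p → p / 8064 < K ∧ p % 48 < 47) :
    dR K D = pk 48 168 fun i => pk 1 K fun g =>
      if D >>> (48 * (168 * g + i)) % 2 ^ 47 ≠ 0 then 1 else 0 := by
  have e : D = pk 48 (168 * K) fun l => D >>> (48 * l) % 2 ^ 47 :=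
    pk_cut (by omega) (by omega) fun p a => by have := hD p a; omega
  generalize hf : (fun l => D >>> (48 * l) % 2 ^ 47) = f at e
  have l : ∀ i, f i < 2 ^ 47 := fun i => hf ▸ Nat.mod_lt _ (by omega)
  have e1 : Nat.shiftRight (Nat.land (Nat.add D (kK K (Nat.mul cel 140737488355327)))
      (kK K (Nat.mul cel 140737488355328))) 47 =
      pk 8064 K fun g => pk 48 168 fun i => if f (168 * g + i) ≠ 0 then 1 else 0 := by
    rw [kK_cel, kK_cel, e, Nat.add_eq, pk_add, Nat.land_eq,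
      pk_and _ _ _ _ (fun i _ => by have := l i; omega) fun _ _ => by omega,
      pk_congr _ _ _ (fun i => (if f i ≠ 0 then 1 else 0) * 2 ^ 47) fun i _ => ?_,
      Nat.shiftRight_eq', pk_shr]
    · refine ((pk_nest 48 168 K _).trans (pk_congr _ _ _ _ fun i _ => ?_)).symm
      rw [Nat.div_add_mod]
    · have := top_bit (l i)
      change (f i + (2 ^ 47 - 1)) &&& 2 ^ 47 = _
      rw [Nat.and_two_pow]
      split_ifs with c
      · rw [this.2 c]; rfl
      · rw [Bool.eq_false_iff.2 (mt this.1 c)]; rfl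
  have l2 : ∀ i, (pk 1 K fun g => if f (168 * g + i) ≠ 0 then 1 else 0) < 2 ^ 44 := fun i =>
    (pk_lt 1 K _ fun _ _ => by split_ifs <;> omega).trans_le
      (Nat.pow_le_pow_right two_pos (by omega))
  rw [dR, e1, mod_ones (s := 1) (a := 8062) rfl (by omega), pk_swap]
  · exact hf ▸ rfl
  · rw [pk_swap]
    refine Lt.lt fun p a => ?_
    rw [← Nat.div_add_mod p 48, pk_bit (fun i _ => (l2 i).trans (by omega))
      (Nat.mod_lt _ (by omega))] at a
    have := (Nat.pow_lt_pow_iff_right one_lt_two).1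
      ((Nat.ge_two_pow_of_testBit a.2).trans_lt (l2 _))
    omega

theorem dR_bit (hK : K ≤ 44) (hD : ∀ p, D.testBit p → p / 8064 < K ∧ p % 48 < 47) (hg : g < 48) :
    (dR K D).testBit (48 * i + g) ↔
      i < 168 ∧ g < K ∧ D >>> (48 * (168 * g + i)) % 2 ^ 47 ≠ 0 := by
  rw [dR_eq hK hD, pk_bit (fun i _ => (pk_lt 1 K _ fun _ _ => by split_ifs <;> omega).trans_le
    (Nat.pow_le_pow_right two_pos (by omega))) hg]
  refine and_congr_right fun _ => ?_
  have := pk_bit (w := 1) (n := K) (l := g) (r := 0) (f := fun g =>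
    if D >>> (48 * (168 * g + i)) % 2 ^ 47 ≠ 0 then 1 else 0) (fun _ _ => by split_ifs <;> omega)
    one_pos
  rw [one_mul, add_zero] at this
  rw [this]
  refine and_congr_right fun _ => ?_
  split_ifs with c
  · exact iff_of_true rfl c
  · exact iff_of_false Bool.noConfusion c

theorem dR_of (hK : K ≤ 44) (hD : ∀ p, D.testBit p → p / 8064 < K ∧ p % 48 < 47) (hi : i < 168)
    (ht : t < 48) (h : D.testBit (8064 * g + 48 * i + t)) : (dR K D).testBit (48 * i + g) := by
  have := hD _ h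
  refine (dR_bit hK hD (by omega)).2 ⟨hi, by omega, fun e => ?_⟩
  have b : (D >>> (48 * (168 * g + i)) % 2 ^ 47).testBit t := by
    rw [Nat.testBit_mod_two_pow, Nat.testBit_shiftRight, Bool.and_eq_true, decide_eq_true_eq]
    exact ⟨by omega, by rwa [show 48 * (168 * g + i) + t = 8064 * g + 48 * i + t by omega]⟩
  rw [e, Nat.zero_testBit] at b
  exact Bool.noConfusion b

theorem dR_lt (hK : K ≤ 44) (hD : ∀ p, D.testBit p → p / 8064 < K ∧ p % 48 < 47) (hg : g < 48)
    (h : (dR K D).testBit (48 * i + g)) : g < K := ((dR_bit hK hD hg).1 h).2.1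

/-! ### From cells to lanes -/

theorem bit_c1 : (c1 x).testBit p ↔
    (x.testBit p ∨ x.testBit (p + 36)) ∧ p / 96 < 84 ∧ p % 96 < 24 :=
  bit_and.trans (and_congr (bit_or.trans (or_congr_right bit_shr))
    (bit_mask (s := 24) (by omega) (by omega)))

theorem bit_c2 : (c2 x).testBit p ↔
    (x.testBit p ∨ x.testBit (p + 72)) ∧ p / 192 < 42 ∧ p % 192 < 48 :=
  bit_and.trans (and_congr (bit_or.trans (or_congr_right bit_shr))
    (bit_mask (s := 48) (by omega) (by omega)))

theorem c1_at (hx : ∀ p, x.testBit p → p % 48 < 12) (hk : k < 84) (ht : t < 2) (hb : b < 12) :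
    (c1 x).testBit (96 * k + 12 * t + b) ↔ x.testBit (96 * k + 48 * t + b) := by
  rw [bit_c1, and_iff_left (by omega)]
  interval_cases t
  · exact or_iff_left fun a => by have := hx _ a; omega
  · rw [or_iff_right fun a => by have := hx _ a; omega,
      show 96 * k + 12 * 1 + b + 36 = 96 * k + 48 * 1 + b by omega]

theorem c2_at (hx : ∀ p, x.testBit p → p % 96 < 24) (hk : k < 42) (ht : t < 2) (hb : b < 24) :
    (c2 x).testBit (192 * k + 24 * t + b) ↔ x.testBit (192 * k + 96 * t + b) := by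
  rw [bit_c2, and_iff_left (by omega)]
  interval_cases t
  · exact or_iff_left fun a => by have := hx _ a; omega
  · rw [or_iff_right fun a => by have := hx _ a; omega,
      show 192 * k + 24 * 1 + b + 72 = 192 * k + 96 * 1 + b by omega]

theorem c3_at (hx : ∀ p, x.testBit p → p % 192 < 48) (ht : t < 3) (hb : b < 48) :
    (c3 x).testBit (192 * k + 48 * t + b) ↔ x.testBit (192 * k + 192 * t + b) := by
  rw [c3, bit_or, bit_or, bit_shr, bit_shr]
  interval_cases t
  · rw [or_iff_left fun a => by have := hx _ a; omega]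
    exact or_iff_left fun a => by have := hx _ a; omega
  · rw [or_iff_left fun a => by have := hx _ a; omega,
      or_iff_right fun a => by have := hx _ a; omega,
      show 192 * k + 48 * 1 + b + 144 = 192 * k + 192 * 1 + b by omega]
  · rw [or_iff_right fun a => by rcases a with a | a <;> have := hx _ a <;> omega,
      show 192 * k + 48 * 2 + b + 288 = 192 * k + 192 * 2 + b by omega]

theorem cc_at (hk : k < 40) (ht : t < 12) (hb : b < 12) :
    (cc R c).testBit (192 * k + 12 * t + b) ↔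
      b < 11 ∧ R.testBit (48 * (4 * k + t) + (11 * c + b)) := by
  have e : ∀ p, (Nat.land (Nat.shiftRight R (Nat.mul 11 c)) (Nat.mul cel 2047)).testBit p ↔
      R.testBit (p + 11 * c) ∧ p / 48 < 168 ∧ p % 48 < 11 := fun p => by
    rw [cel_mul]
    exact bit_and.trans (and_congr bit_shr (bit_mask (s := 11) (by omega) (by omega)))
  rw [cc, show 192 * k + 12 * t + b = 192 * k + 48 * (t / 4) + (12 * (t % 4) + b) by omega,
    c3_at (fun _ a => (bit_c2.1 a).2.2) (by omega) (by omega),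
    show 192 * k + 192 * (t / 4) + (12 * (t % 4) + b) =
      192 * (k + t / 4) + 24 * (t % 4 / 2) + (12 * (t % 2) + b) by omega,
    c2_at (fun _ a => (bit_c1.1 a).2.2) (by omega) (by omega) (by omega),
    show 192 * (k + t / 4) + 96 * (t % 4 / 2) + (12 * (t % 2) + b) =
      96 * (2 * k + t / 2) + 12 * (t % 2) + b by omega,
    c1_at (fun p a => by have := (e p).1 a; omega) (by omega) (by omega) hb, e,
    show 96 * (2 * k + t / 2) + 48 * (t % 2) + b + 11 * c = 48 * (4 * k + t) + (11 * c + b) by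
      omega, and_comm]
  exact and_congr_left fun _ => by omega

theorem vv_eq (h0 : 0 < S) (hS : S ≤ 11) (hN : N ≤ 6 * S) (x r : ℕ) : vv S N x r =
    pk 12 N fun l => x >>> (r + 1152 * (l / S) + 12 * (l % S)) % 2 ^ 12 := by
  have e : Nat.land (Nat.shiftRight x r)
      (pk 1152 6 fun _ => Nat.pred (Nat.shiftLeft 1 (Fo.w1 S))) =
      pk 1152 6 fun a => x >>> r >>> (1152 * a) % 2 ^ (12 * S) := by
    refine Nat.eq_of_testBit_eq fun p => ?_
    rw [Bool.eq_iff_iff, bit_and, Nat.shiftLeft_eq', Nat.one_shiftLeft, Nat.pred_eq_sub_one,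
      show Fo.w1 S = 12 * S from rfl, bit_mask (by omega) (by omega), bit_cut (by omega) (by omega)]
    rfl
  have l : ∀ a < 6, x >>> r >>> (1152 * a) % 2 ^ (12 * S) < 2 ^ (12 * S) := fun _ _ =>
    Nat.mod_lt _ (Nat.two_pow_pos _)
  rw [vv, e, mod_ones (s := 12 * S) (a := 12 * S * 6) (by change _ = 1152 - 12 * S + _; omega)
    (by change _ < 1152 - 12 * S; omega) (pk_lt _ _ _ l)]
  refine Nat.eq_of_testBit_eq fun p => ?_
  obtain ⟨u, b, hb, rfl⟩ : ∃ u b, b < 12 ∧ p = 12 * u + b :=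
    ⟨p / 12, p % 12, Nat.mod_lt _ (by omega), by omega⟩
  have m := Nat.mod_lt u h0
  rw [Bool.eq_iff_iff, pk_bit (fun _ _ => Nat.mod_lt _ (by omega)) hb, bit_and, Fo.cF, bit_ones,
    show Fo.w1 N = 12 * N from rfl]
  nth_rewrite 1 [show 12 * u + b = 12 * S * (u / S) + (12 * (u % S) + b) by
    rw [mul_assoc, ← add_assoc, ← mul_add, Nat.div_add_mod]]
  rw [pk_bit l (by omega), Nat.testBit_mod_two_pow, Nat.testBit_mod_two_pow, Nat.testBit_shiftRight,
    Nat.testBit_shiftRight, Nat.testBit_shiftRight, Bool.and_eq_true, Bool.and_eq_true,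
    decide_eq_true_eq, decide_eq_true_eq, add_assoc, add_assoc]
  exact ⟨fun a => ⟨by omega, hb, a.1.2.2⟩, fun a => ⟨⟨(Nat.div_lt_iff_lt_mul h0).2 (by omega),
    by omega, a.2.2⟩, by omega⟩⟩

/-! ### The number of bits -/

theorem kN_eq (N c : ℕ) : kN N c = pk 12 (N * N) fun _ => c := by
  change pk 12 N _ * pk (12 * N) N _ * c = _
  rw [pk_rep, pk_mul]
  exact pk_congr _ _ _ _ fun _ _ => one_mul c

def s1 (u : ℕ) : ℕ := u - (u >>> 1 &&& 1365)
def s2 (u : ℕ) : ℕ := (u &&& 819) + (u >>> 2 &&& 819)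

theorem pop_tab : ∀ u < 2048, u >>> 1 &&& 1365 ≤ u ∧ s2 (s1 u) < 4096 ∧
    s2 (s1 u) * 273 / 4096 < 56 ∧ s2 (s1 u) * 273 % 4096 % 256 < 200 ∧
    s2 (s1 u) * 273 % 4096 / 256 = ∑ t ∈ range 11, if u.testBit t then 1 else 0 := by
  decide +kernel

theorem pop_eq (hf : ∀ l < N * N, f l < 2048) : p3 N (p2 N (p1 N (pk 12 (N * N) f))) =
    pk 12 (N * N) fun l => ∑ t ∈ range 11, if (f l).testBit t then 1 else 0 := by
  have l1 : ∀ l < N * N, s1 (f l) < 2 ^ 12 := fun l hl =>
    (Nat.sub_le _ _).trans_lt ((hf l hl).trans (by omega))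
  have e1 : p1 N (pk 12 (N * N) f) = pk 12 (N * N) fun l => s1 (f l) := by
    rw [p1, kN_eq, pk_shand le_rfl (by omega) (fun l hl => (hf l hl).trans (by omega)) (by omega)]
    exact pk_sub _ _ _ _ fun l hl => (pop_tab _ (hf l hl)).1
  have e2 : p2 N (pk 12 (N * N) fun l => s1 (f l)) = pk 12 (N * N) fun l => s2 (s1 (f l)) := by
    rw [p2, kN_eq, pk_shand le_rfl (by omega) l1 (by omega), Nat.land_eq,
      pk_and _ _ _ _ l1 fun _ _ => by omega]
    exact pk_add _ _ _ _
  have e3 : Nat.mul (pk 12 (N * N) fun l => s2 (s1 (f l))) 273 = pk 12 (1 + N * N) fun l =>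
      (if l < N * N then s2 (s1 (f l)) * 273 % 4096 else 0) +
        if 1 ≤ l then s2 (s1 (f (l - 1))) * 273 / 4096 else 0 := by
    rw [← pk_add, ← pk_pad _ _ _ _ (by omega),
      ← pk_shl 12 (N * N) (fun l => s2 (s1 (f l)) * 273 / 4096) 1, Nat.shiftLeft_eq, pk_mul, pk_add,
      Nat.mul_eq, pk_mul]
    exact pk_congr _ _ _ _ fun l _ => by omega
  have b : ∀ l < 1 + N * N, (if 1 ≤ l then s2 (s1 (f (l - 1))) * 273 / 4096 else 0) < 56 :=
    fun l hl => by
      split_ifs
      · exact (pop_tab _ (hf _ (by omega))).2.2.1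
      · omega
  rw [e1, e2, p3, e3, kN_eq, pk_shand (by omega) (by omega) (fun l hl => ?_) (by omega)]
  · refine pk_congr _ _ _ _ fun l hl => ?_
    obtain ⟨-, -, -, t1, t2⟩ := pop_tab _ (hf l hl)
    have u := b l (by omega)
    have v := Nat.mod_lt (s2 (s1 (f l)) * 273) (show 0 < 4096 by omega)
    rw [if_pos hl, ← t2, Nat.shiftRight_eq_div_pow]
    generalize s2 (s1 (f l)) * 273 % 4096 = y at t1 v ⊢
    exact (Nat.and_two_pow_sub_one_eq_mod _ 4).trans (by omega)
  · have u := b l hl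
    by_cases c : l < N * N
    · have t1 := (pop_tab _ (hf l c)).2.2.2.1
      have v := Nat.mod_lt (s2 (s1 (f l)) * 273) (show 0 < 4096 by omega)
      rw [if_pos c]
      generalize s2 (s1 (f l)) * 273 % 4096 = y at t1 v ⊢
      omega
    · rw [if_neg c]
      omega

theorem x0_pk (h2 : 2 ≤ N) (h : ∀ i < N, f i < 2048) :
    Fo.x0 N (pk 12 N f) = pk 12 (N * N) fun l => f (l / N) :=
  (congrArg (· * Fo.o N) (pk_spr N f h2 h)).trans (pk_brd 12 N f N)

theorem oB_pk : Nat.mul (pk 12 N f) (Fo.oB N) = pk 12 (N * N) fun l => f (l % N) := pk_rep 12 N f N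

/-- The cell of the column with index `j`. -/
def ce (S j : ℕ) : ℕ := 24 * (j / S + 1) + (j % S + 1)

/-- The group `g` is marked for the flag with lane `l`. -/
def Mk (S N R l g : ℕ) : Prop :=
  R.testBit (48 * ce S (l / N) + g) ∨ R.testBit (48 * (ce S (l % N) + 12) + g)

open Classical in
theorem cn_eq (h0 : 0 < S) (hS : S ≤ 11) (hN : N ≤ 6 * S) (h2 : 2 ≤ N) (R c : ℕ) :
    cn S N (cc R c) = pk 12 (N * N) fun l =>
      ∑ t ∈ range 11, if Mk S N R l (11 * c + t) then 1 else 0 := by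
  have e : ∀ o r, r = 1164 + 192 * o → o ≤ 3 → ∀ l < N, ∀ t,
      (cc R c >>> (r + 1152 * (l / S) + 12 * (l % S)) % 2 ^ 12).testBit t ↔
      t < 11 ∧ R.testBit (48 * (ce S l + 4 * o) + (11 * c + t)) := fun o r hr ho l hl t => by
    have m := Nat.mod_lt l h0
    have d : l / S < 6 := (Nat.div_lt_iff_lt_mul h0).2 (by omega)
    rw [Nat.testBit_mod_two_pow, Nat.testBit_shiftRight, Bool.and_eq_true, decide_eq_true_eq]
    by_cases ht : t < 12
    · rw [show r + 1152 * (l / S) + 12 * (l % S) + t =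
        192 * (6 * (l / S + 1) + o) + 12 * (l % S + 1) + t by omega,
        cc_at (by omega) (by omega) ht, and_iff_right ht, ce,
        show 4 * (6 * (l / S + 1) + o) + (l % S + 1) = 24 * (l / S + 1) + (l % S + 1) + 4 * o by
          omega]
    · omega
  have e0 := e 0 1164 rfl (by omega)
  have e3 := e 3 1740 rfl le_rfl
  have l0 : ∀ l < N, cc R c >>> (1164 + 1152 * (l / S) + 12 * (l % S)) % 2 ^ 12 < 2 ^ 11 :=
    fun l hl => Lt.lt fun t a => ((e0 l hl t).1 a).1
  have l3 : ∀ l < N, cc R c >>> (1740 + 1152 * (l / S) + 12 * (l % S)) % 2 ^ 12 < 2 ^ 11 :=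
    fun l hl => Lt.lt fun t a => ((e3 l hl t).1 a).1
  have dv : ∀ l < N * N, l / N < N := fun l hl => Nat.div_lt_of_lt_mul hl
  have md : ∀ l, l % N < N := fun l => Nat.mod_lt _ (by omega)
  rw [cn, vv_eq h0 hS hN, vv_eq h0 hS hN, x0_pk h2 l0, oB_pk, Nat.lor_eq,
    pk_or _ _ _ _ (fun i hi => (l0 _ (dv i hi)).trans (by omega))
    fun i _ => (l3 _ (md i)).trans (by omega),
    pop_eq fun i hi => Nat.or_lt_two_pow (l0 _ (dv i hi)) (l3 _ (md i))]
  refine pk_congr _ _ _ _ fun i hi => sum_congr rfl fun t ht => if_congr ?_ rfl rfl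
  rw [Nat.testBit_or, Bool.or_eq_true]
  exact or_congr ((e0 _ (dv i hi) t).trans (and_iff_right (mem_range.1 ht)))
    ((e3 _ (md i) t).trans (and_iff_right (mem_range.1 ht)))

open Classical in
theorem lost_eq (h0 : 0 < S) (hS : S ≤ 11) (hN : N ≤ 6 * S) (h2 : 2 ≤ N) (R m : ℕ) :
    lost S N R m = pk 12 (N * N) fun l =>
      ∑ g ∈ range (11 * m), if Mk S N R l g then 1 else 0 := by
  induction m with
  | zero => exact (pk_const_zero _ _).symm
  | succ m ih =>
    change lost S N R m + cn S N (cc R m) = _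
    rw [ih, cn_eq h0 hS hN h2, pk_add]
    exact pk_congr _ _ _ _ fun l _ => by rw [Nat.mul_succ, sum_range_add]

open Classical in
theorem left_eq (h0 : 0 < S) (hS : S ≤ 11) (hN : N ≤ 6 * S) (h2 : 2 ≤ N) (hK : K ≤ 44)
    (hR : ∀ i, ∀ g < 48, R.testBit (48 * i + g) → g < K) :
    Nat.sub (kN N K) (lost S N R (Nat.div (Nat.add K 10) 11)) = pk 12 (N * N) fun l =>
      ((range K).filter fun g => ¬ Mk S N R l g).card := by
  have e : ∀ l, ((range K).filter fun g => ¬ Mk S N R l g).card +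
      (∑ g ∈ range (11 * ((K + 10) / 11)), if Mk S N R l g then 1 else 0) = K := fun l => by
    rw [← sum_subset (range_subset_range.2 (show K ≤ 11 * ((K + 10) / 11) by omega))
      fun g h1 h2 => if_neg fun a => h2 (mem_range.2 (by
        have := mem_range.1 h1
        exact a.elim (hR _ _ (by omega)) (hR _ _ (by omega)))), card_filter, ← sum_add_distrib,
      sum_congr rfl (g := fun _ => 1) fun g _ => by split_ifs <;> simp_all]
    simp
  rw [kN_eq, lost_eq h0 hS hN h2]
  exact (pk_sub _ _ _ _ fun l _ => Nat.le.intro ((add_comm _ _).trans (e l))).trans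
    (pk_congr _ _ _ _ fun l _ => Nat.sub_eq_of_eq_add (e l).symm)

end Pool.Agent.Lib.MP_ed43e6_ag.Q.Bd.X
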