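import Pool.Agent.Lib.MP_ed43e6_ag.Q.Brd2
import Pool.Agent.Lib.MP_ed43e6_ag.Q.L2C
import Pool.Agent.Lib.MP_ed43e6_ag.Q.HookS

/-! The board without a loop is the board. -/

namespace Pool.Agent.Lib.MP_ed43e6_ag.Q.Bd.XF

open Finset N X

variable {S H y p a k t r j c : ℕ} {f : ℕ → ℕ}

theorem bit_by0 : (by0 S H).testBit p → S ≤ 11 → p % 1152 < 12 * S := fun h hS => by
  have := (bit_and.1 h).2
  rw [show bB S = pk 1152 5 fun _ => 2 ^ (12 * S) - 1 from pk_congr _ _ _ _ fun _ _ => by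
    rw [Nat.shiftLeft_eq', Nat.one_shiftLeft]; rfl, bit_mask (by omega) (by omega)] at this
  exact this.2

theorem by0_at (hS : S ≤ 11) (hH : H < 2 ^ (1152 - 12 * S)) (ha : a < 5) (hr : r < 1152) :
    (by0 S H).testBit (1152 * a + r) ↔ r < 12 * S ∧ H.testBit (12 * S * a + r) := by
  have e : Nat.mul H (bA S) = pk (1152 - 12 * S) 5 fun _ => H := by
    rw [Nat.mul_eq, mul_comm]
    exact (pk_mul _ 5 _ H).trans (pk_congr _ _ _ _ fun _ _ => one_mul H)
  rw [by0, e, bit_and, show bB S = pk 1152 5 fun _ => 2 ^ (12 * S) - 1 from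
    pk_congr _ _ _ _ fun _ _ => by rw [Nat.shiftLeft_eq', Nat.one_shiftLeft]; rfl,
    bit_mask (by omega) (by omega), and_comm,
    show (1152 * a + r) % 1152 = r by omega,
    and_iff_right (show (1152 * a + r) / 1152 < 5 by omega)]
  refine and_congr_right fun h => ?_
  rw [show 1152 * a + r = (1152 - 12 * S) * a + (12 * S * a + r) by interval_cases a <;> omega,
    pk_bit (fun _ _ => hH) (by interval_cases a <;> omega), and_iff_right ha]

theorem bit_by1 : (by1 y).testBit p ↔ ((y.testBit p ∨ 144 ≤ p ∧ y.testBit (p - 144)) ∨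
    288 ≤ p ∧ y.testBit (p - 288)) ∧ p / 192 < 30 ∧ p % 192 < 48 :=
  bit_and.trans (and_congr (bit_or.trans (or_congr (bit_or.trans (or_congr_right bit_shl)) bit_shl))
    (bit_mask (w := 192) (n := 30) (s := 48) (by omega) (by omega)))

theorem bit_by2 : (by2 y).testBit p ↔
    (y.testBit p ∨ 72 ≤ p ∧ y.testBit (p - 72)) ∧ p / 96 < 60 ∧ p % 96 < 24 :=
  bit_and.trans (and_congr (bit_or.trans (or_congr_right bit_shl))
    (bit_mask (w := 96) (n := 60) (s := 24) (by omega) (by omega)))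

theorem bit_by3 : (by3 y).testBit p ↔
    (y.testBit p ∨ 36 ≤ p ∧ y.testBit (p - 36)) ∧ p / 48 < 120 ∧ p % 48 < 12 :=
  bit_and.trans (and_congr (bit_or.trans (or_congr_right bit_shl))
    (bit_mask (w := 48) (n := 120) (s := 12) (by omega) (by omega)))

theorem by1_at (hy : ∀ p, y.testBit p → p % 1152 < 144) (ha : a < 5) (hk : k < 6) (hr : r < 48) :
    (by1 y).testBit (1152 * a + 192 * k + r) ↔ k < 3 ∧ y.testBit (1152 * a + 48 * k + r) := by
  rw [bit_by1, and_iff_left (by omega)]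
  constructor
  · rintro ((h | ⟨_, h⟩) | ⟨_, h⟩) <;> have := hy _ h <;>
      exact ⟨by omega, by convert h using 2; omega⟩
  · rintro ⟨_, h⟩
    interval_cases k
    · exact Or.inl (Or.inl h)
    · exact Or.inl (Or.inr ⟨by omega, by convert h using 2; omega⟩)
    · exact Or.inr ⟨by omega, by convert h using 2; omega⟩

theorem by2_at (hy : ∀ p, y.testBit p → p % 192 < 48) (ha : a < 30) (hk : k < 2) (hr : r < 24) :
    (by2 y).testBit (192 * a + 96 * k + r) ↔ y.testBit (192 * a + 24 * k + r) := by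
  rw [bit_by2, and_iff_left (by omega)]
  constructor
  · rintro (h | ⟨_, h⟩) <;> have := hy _ h <;> convert h using 2 <;> omega
  · intro h
    interval_cases k
    · exact Or.inl h
    · exact Or.inr ⟨by omega, by convert h using 2; omega⟩

theorem by3_at (hy : ∀ p, y.testBit p → p % 96 < 24) (ha : a < 60) (hk : k < 2) (hr : r < 12) :
    (by3 y).testBit (96 * a + 48 * k + r) ↔ y.testBit (96 * a + 12 * k + r) := by
  rw [bit_by3, and_iff_left (by omega)]
  constructor
  · rintro (h | ⟨_, h⟩) <;> have := hy _ h <;> convert h using 2 <;> omega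
  · intro h
    interval_cases k
    · exact Or.inl h
    · exact Or.inr ⟨by omega, by convert h using 2; omega⟩

theorem by_at (hy : ∀ p, y.testBit p → p % 1152 < 144) (hc : c < 120) (ht : t < 12) :
    (by3 (by2 (by1 y))).testBit (48 * c + t) ↔
      c % 24 < 12 ∧ y.testBit (1152 * (c / 24) + (12 * (c % 24) + t)) := by
  rw [show 48 * c + t = 96 * (c / 2) + 48 * (c % 2) + t by omega,
    by3_at (fun _ a => (bit_by2.1 a).2.2) (by omega) (by omega) ht,
    show 96 * (c / 2) + 12 * (c % 2) + t = 192 * (c / 4) + 96 * (c / 2 % 2) + (12 * (c % 2) + t) by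
      omega, by2_at (fun _ a => (bit_by1.1 a).2.2) (by omega) (by omega) (by omega),
    show 192 * (c / 4) + 24 * (c / 2 % 2) + (12 * (c % 2) + t) =
      1152 * (c / 24) + 192 * (c % 24 / 4) + (12 * (c % 4) + t) by omega,
    by1_at hy (by omega) (by omega) (by omega),
    show 1152 * (c / 24) + 48 * (c % 24 / 4) + (12 * (c % 4) + t) =
      1152 * (c / 24) + (12 * (c % 24) + t) by omega]
  exact and_congr_left fun _ => by omega

theorem pow_tab : ∀ j < 5, ∀ h < 32, 2 ^ (h % 2 ^ j) * (2 ^ 2 ^ j - 1) < 2 ^ 48 ∧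
    2 ^ (h % 2 ^ j) + (2 ^ (h % 2 ^ j) * (2 ^ 2 ^ j - 1) &&& (h >>> j &&& 1) * 4294967295) =
      2 ^ (h % 2 ^ (j + 1)) := by decide +kernel

theorem bx_pk (hf : ∀ i < 120, f i < 32) (hj : j < 5) (hc : c = 2 ^ 2 ^ j - 1) :
    bx (pk 48 120 f) (pk 48 120 fun i => 2 ^ (f i % 2 ^ j)) j c =
      pk 48 120 fun i => 2 ^ (f i % 2 ^ (j + 1)) := by
  have e : Nat.land (Nat.shiftRight (pk 48 120 f) j) bE = pk 48 120 fun i => f i >>> j &&& 1 :=
    pk_shand le_rfl (by omega) (fun i hi => (hf i hi).trans (by omega))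
      (Nat.one_lt_two_pow (by omega))
  rw [bx, e, Nat.mul_eq, Nat.mul_eq, pk_mul, pk_mul, Nat.land_eq, hc,
    pk_and _ _ _ _ (fun i hi => (pow_tab j hj _ (hf i hi)).1) fun i _ => by
      have : f i >>> j &&& 1 ≤ 1 := Nat.and_le_right
      change _ * 4294967295 < _
      omega, Nat.add_eq, pk_add]
  exact pk_congr _ _ _ _ fun i hi => (pow_tab j hj _ (hf i hi)).2

theorem bP_pk (hf : ∀ i < 120, f i < 32) : bP (pk 48 120 f) = pk 48 120 fun i => 2 ^ f i := by
  have e : Nat.add bE (Nat.land (pk 48 120 f) bE) = pk 48 120 fun i => 2 ^ (f i % 2 ^ 1) := by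
    change pk 48 120 (fun _ => 1) + (pk 48 120 f &&& pk 48 120 fun _ => 1) = _
    rw [pk_and _ _ _ _ (fun i hi => (hf i hi).trans (by omega)) fun _ _ => by omega, pk_add]
    refine pk_congr _ _ _ _ fun i _ => ?_
    rw [Nat.and_one_is_mod]
    rcases Nat.mod_two_eq_zero_or_one (f i) with a | a <;> rw [pow_one, a] <;> rfl
  rw [bP, e]
  change bx _ (bx _ (bx _ (bx _ _ 1 3) 2 15) 3 255) 4 65535 = _
  rw [bx_pk hf (j := 1) (c := 3) (by omega) rfl, bx_pk hf (j := 2) (c := 15) (by omega) rfl,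
    bx_pk hf (j := 3) (c := 255) (by omega) rfl, bx_pk hf (j := 4) (c := 65535) (by omega) rfl]
  exact pk_congr _ _ _ _ fun i hi => congrArg _ (Nat.mod_eq_of_lt (hf i hi))

variable {h : ℕ → ℕ → ℕ} {N n D C Rm : ℕ} {d c : ℕ → ℕ}

theorem cells_eq (s : Spec h S N n H D C Rm d c) (hN : N ≤ 5 * S + 1) (hh : ∀ a b, h a b < 32) :
    by3 (by2 (by1 (by0 S H))) = pk 48 120 fun i => h (i / 24) (i % 24) := by
  have hS := s.fits.2.1
  have l : ∀ i < N, h (i / S) (i % S) < 2 ^ 12 := fun _ _ => (hh _ _).trans (by omega)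
  have hH : H < 2 ^ (1152 - 12 * S) :=
    s.H_eq ▸ (pk_lt 12 N _ l).trans_le (Nat.pow_le_pow_right two_pos (by omega))
  refine Nat.eq_of_testBit_eq fun p => ?_
  obtain ⟨u, t, ht, rfl⟩ : ∃ u t, t < 48 ∧ p = 48 * u + t :=
    ⟨p / 48, p % 48, Nat.mod_lt _ (by omega), by omega⟩
  rw [Bool.eq_iff_iff, pk_bit (fun _ _ => (hh _ _).trans (by omega)) ht]
  by_cases e : u < 120 ∧ t < 12
  · rw [by_at (fun _ a => by have := bit_by0 a hS; omega) e.1 e.2,
      by0_at hS hH (by omega) (by omega), and_iff_right e.1, s.H_eq,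
      show 12 * S * (u / 24) + (12 * (u % 24) + t) = 12 * (S * (u / 24) + u % 24) + t by ring,
      pk_bit l e.2]
    constructor
    · rintro ⟨-, a, -, b⟩
      rwa [idx_div (by omega), idx_mod (by omega)] at b
    · intro a
      obtain ⟨h1, h2⟩ := s.fits.in_of_pos
        (Nat.lt_of_lt_of_le (Nat.two_pow_pos _) (Nat.ge_two_pow_of_testBit a))
      exact ⟨by omega, by omega, h2, by rwa [idx_div h1, idx_mod h1]⟩
  · refine iff_of_false (fun a => ?_) fun a => ?_
    · have := (bit_by3.1 a).2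
      omega
    · have := (Nat.pow_lt_pow_iff_right one_lt_two).1
        ((Nat.ge_two_pow_of_testBit a.2).trans_lt (show _ < 2 ^ 5 from hh _ _))
      omega

theorem board_bit (hf : ∀ i < 120, f i < 32) : (Nat.shiftLeft (Nat.sub (bP (pk 48 120 f)) bE)
    1201).testBit p ↔ ∃ u t, p = 48 * u + t + 1201 ∧ u < 120 ∧ t < f u := by
  have e : Nat.sub (pk 48 120 fun i => 2 ^ f i) bE = pk 48 120 fun i => 2 ^ f i - 1 :=
    pk_sub _ _ _ _ fun _ _ => Nat.one_le_two_pow
  have b : ∀ u t, t < 48 → ((pk 48 120 fun i => 2 ^ f i - 1).testBit (48 * u + t) ↔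
      u < 120 ∧ t < f u) := fun u t ht => by
    rw [pk_bit (fun i hi => (Nat.sub_one_lt (by positivity)).trans
      (Nat.pow_lt_pow_right one_lt_two ((hf _ hi).trans (by omega)))) ht,
      Nat.testBit_two_pow_sub_one, decide_eq_true_eq]
  rw [bP_pk hf, e, bit_shl]
  constructor
  · rintro ⟨h1, h2⟩
    rw [← Nat.div_add_mod (p - 1201) 48, b _ _ (Nat.mod_lt _ (by omega))] at h2
    exact ⟨_, _, by omega, h2⟩
  · rintro ⟨u, t, e, h1, h2⟩
    have := hf u h1
    rw [show p - 1201 = 48 * u + t by omega, b _ _ (by omega)]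
    exact ⟨by omega, h1, h2⟩

theorem vB_eq : vB = brd2 := by
  delta vB
  exact uB.2

theorem brd2_eq (s : Spec h S N n H D C Rm d c) (hN : N ≤ 5 * S + 1)
    (h22 : Nat.land H 4095 ≤ 22) : vB S N H = brd S N H := by
  have hS := s.fits.1
  have hS' := s.fits.2.1
  have h0 : h 0 0 ≤ 22 := by
    have := lane_H s (i := 0) (by obtain ⟨_, _, _, _, _, e, _⟩ := s.fits; omega)
    rw [Nat.zero_div, Nat.zero_mod] at this
    exact this ▸ h22
  have hh : ∀ a b, h a b < 32 := fun a b => by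
    have h1 := bor_diag s.bor 0 b a
    have h2 := bor_row s.bor (a := 0) (b := 0) (b + a)
    rw [zero_add] at h1 h2
    omega
  refine Nat.eq_of_testBit_eq fun p => ?_
  rewrite [Bool.eq_iff_iff, brd_isB s, vB_eq]
  delta brd2
  rewrite [cells_eq s hN hh]
  refine (board_bit fun _ _ => hh _ _).trans ⟨?_, ?_⟩
  · rintro ⟨u, t, e, -, ht⟩
    exact ⟨_, _, t, by unfold ix; omega, ht⟩
  · rintro ⟨x, y, t, e, ht⟩
    obtain ⟨h1, h2⟩ := s.fits.pos (Nat.zero_lt_of_lt ht)
    have h3 : x < 5 := by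
      by_contra c
      have := Nat.mul_le_mul_left S (not_lt.1 c)
      omega
    refine ⟨24 * x + y, t, by unfold ix at e; omega, by omega, ?_⟩
    rwa [show (24 * x + y) / 24 = x by omega, show (24 * x + y) % 24 = y by omega]

end Pool.Agent.Lib.MP_ed43e6_ag.Q.Bd.XF
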