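import Pool.Agent.Lib.MP_ed43e6_ag.Q.Defs

/-! Arbitrary gain predicates. -/

namespace Pool.Agent.Lib.MP_ed43e6_ag.Q

open MvPolynomial Module Finset N

universe u

/-- Gain predicates: column heights of the three levels, a bound for the characteristic, the
number of generators saved. -/
abbrev GP := (Fin 3 → ℕ → ℕ → ℕ) → ℕ → ℕ → Prop

/-- The predicate `P` really saves generators. -/
def SecondP (P : GP) : Prop :=
  ∀ (K Ω : Type u) [Field K] [Field Ω] [Algebra K Ω] (D : ℕ), 2 ≤ D →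
    (∀ i : ℕ, 0 < i → i ≤ D → (i : Ω) ≠ 0) →
    ∀ (I : Fin 3 → Ideal (SS Ω)) (lam : Fin 3 → Finset (Fin 3 →₀ ℕ))
      (nf : Fin 3 → SS Ω →ₗ[Ω] SS Ω) (h : Fin 3 → ℕ → ℕ → ℕ),
      I 0 ≤ I 1 → I 1 ≤ I 2 → (∀ j, NF (I j) (lam j) (nf j)) →
      (∀ j a b t, N.mon a b t ∈ lam j ↔ t < h j a b) →
      (∀ j a b t, t < h j a b → a < 128 ∧ b < 128 ∧ t < 128) →
      ∀ R, Roots (h 0) (h 1) (h 2) R → ∀ k, P h D k →
        ∃ S : Finset Ω, S.card + k ≤ R.card ∧ ∀ j u v,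
          IsAlgebraic (IntermediateField.adjoin K (S : Set Ω)) (coeff v (nf j (monomial u 1)))

/-- The flag is fine for the gain predicate `P`. -/
def Fine (P : GP) (h0 h1 h2 : ℕ → ℕ → ℕ) : Prop :=
  ∃ R k, Roots h0 h1 h2 R ∧ P ![h0, h1, h2] (size h1) k ∧ R.card + 2 ≤ 3 * size h1 + k

/-- The finite verification for middle staircases of size `32, …, M`. -/
def CheckP (P : GP) (M : ℕ) : Prop :=
  ∀ (h0 h1 h2 : ℕ → ℕ → ℕ) (p0 q0 a1 b1 : ℕ), h0 = bump h1 p0 q0 → h1 = bump h2 a1 b1 →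
    Bor h0 → Bor h1 → Bor h2 → 32 ≤ size h1 → size h1 ≤ M → Fine P h0 h1 h2

theorem secondP_gain : SecondP.{u} Gain ↔ SecondStmt.{u} := Iff.rfl

theorem checkP_gain (M : ℕ) : CheckP Gain M ↔ CheckQ M := Iff.rfl

theorem SecondP.or {P P' : GP} (h : SecondP.{u} P) (h' : SecondP.{u} P') :
    SecondP.{u} fun g D k => P g D k ∨ P' g D k := by
  intro K Ω _ _ _ D hD hc I lam nf g h01 h12 hnf hh hlt R hR k hk
  rcases hk with hk | hk
  · exact h K Ω D hD hc I lam nf g h01 h12 hnf hh hlt R hR k hk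
  · exact h' K Ω D hD hc I lam nf g h01 h12 hnf hh hlt R hR k hk

theorem SecondP.mono {P P' : GP} (h : SecondP.{u} P) (hle : ∀ g D k, P' g D k → P g D k) :
    SecondP.{u} P' := fun K Ω _ _ _ D hD hc I lam nf g h01 h12 hnf hh hlt R hR k hk =>
  h K Ω D hD hc I lam nf g h01 h12 hnf hh hlt R hR k (hle _ _ _ hk)

theorem Fine.mono {P P' : GP} {h0 h1 h2 : ℕ → ℕ → ℕ} (h : Fine P h0 h1 h2)
    (hle : ∀ g D k, P g D k → P' g D k) : Fine P' h0 h1 h2 := by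
  obtain ⟨R, k, a, b, c⟩ := h
  exact ⟨R, k, a, hle _ _ _ b, c⟩

theorem gain_zero (h : Fin 3 → ℕ → ℕ → ℕ) (D : ℕ) : Gain h D 0 :=
  ⟨∅, fun _ _ _ _ _ _ _ => False, fun _ => 0, fun _ => 0, 0,
    ⟨fun _ ha => absurd ha (notMem_empty _), fun _ ha => absurd ha (notMem_empty _),
      fun _ ha => absurd ha (notMem_empty _), fun T hT hc => by
        rw [subset_empty.1 hT, card_empty] at hc
        exact absurd hc (lt_irrefl _)⟩, le_rfl⟩

end Pool.Agent.Lib.MP_ed43e6_ag.Q
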