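import Pool.Agent.Lib.MP_ed43e6_ag.Q.Base
import Pool.Agent.Lib.MP_ed43e6_ag.Q.Gen

/-! The interface between the first order checker and the certificates. -/

namespace Pool.Agent.Lib.MP_ed43e6_ag.Q

open Finset N

section Room

variable (h : ℕ → ℕ → ℕ)

def dx (p q : ℕ) : ℕ := (if p = 0 then 128 else h (p - 1) q) - h p q
def dy (p q : ℕ) : ℕ := (if q = 0 then 128 else h p (q - 1)) - h p q
def dz (p q : ℕ) : ℕ := (if p = 0 then 128 else h (p - 1) (q + 1)) - h p q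
def ey (a b : ℕ) : ℕ := h a b - h a (b + 1)
def gg (p q : ℕ) : ℕ := min (dx h p q) (dy h p q)
def uu (p q a b : ℕ) : ℕ := h a (b + 1) - ey h p q
def t3 (p q a b : ℕ) : ℕ := min (dz h p q) (uu h p q a b) + ey h a b
def tri (p q a b : ℕ) : ℕ := if a < p ∨ (a = p ∧ b < q) then 0 else 1
def pos (p q a b : ℕ) : ℕ := h a b + a + b - (h p q + p + q + tri p q a b)
/-- The basic number of candidate roots from the column `p, q` to the top of `a, b`. -/
def room1 (p q a b : ℕ) : ℕ := min (min (t3 h p q a b) (pos h p q a b)) (gg h p q)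
def rx (q a b : ℕ) : ℕ := if b = 0 ∧ 0 < q then h a 0 - h (a + 1) 0 else 64
def ry (p q a b : ℕ) : ℕ :=
  max (ey h a b + (ey h a (b + 1) - ey h p q))
    (h a b - h a (b + 2) + (if p = 0 then 128 else h (p - 1) (q + 2)) - h p q)
/-- The improved number of candidate roots. -/
def room (p q a b : ℕ) : ℕ := min (min (room1 h p q a b) (rx h q a b)) (ry h p q a b)

end Room

abbrev RT := (ℕ × ℕ × ℕ) × (ℕ × ℕ × ℕ)

/-- Roots in the middle level. -/
def RA (h : ℕ → ℕ → ℕ) (S N : ℕ) (ρ : ℕ → ℕ → ℕ → ℕ → ℕ) : Finset RT :=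
  (range N).biUnion fun j => (range N).biUnion fun i =>
    (range (ρ (i / S) (i % S) (j / S) (j % S))).image fun e =>
      ((i / S, i % S, h (i / S) (i % S) + e), (j / S, j % S, h (j / S) (j % S) - 1))

/-- Roots ending in the extra box of the largest staircase. -/
def RB (h : ℕ → ℕ → ℕ) (S N p0 q0 : ℕ) : Finset RT :=
  ((range N).filter fun i => 0 < gg h (i / S) (i % S) ∧
    key (i / S) (i % S) (h (i / S) (i % S)) < key p0 q0 (h p0 q0)).image
    fun i => ((i / S, i % S, h (i / S) (i % S)), (p0, q0, h p0 q0))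

/-- Roots starting in the missing box of the smallest staircase. -/
def RC (h : ℕ → ℕ → ℕ) (S N a1 b1 : ℕ) : Finset RT :=
  ((range N).filter fun j => 0 < h (j / S) (j % S) ∧
    key a1 b1 (h a1 b1 - 1) < key (j / S) (j % S) (h (j / S) (j % S) - 1)).image
    fun j => ((a1, b1, h a1 b1 - 1), (j / S, j % S, h (j / S) (j % S) - 1))

/-- The explicit root set that only uses the links of the middle level. -/
def R1 (h : ℕ → ℕ → ℕ) (S N p0 q0 a1 b1 : ℕ) : Finset RT :=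
  RA h S N (room h) ∪ RB h S N p0 q0 ∪ RC h S N a1 b1

/-- The staircase has at most `k` rows of length less than `S`, and `N = k S + 1`. -/
def Fits (h : ℕ → ℕ → ℕ) (S N : ℕ) : Prop :=
  2 ≤ S ∧ S ≤ 11 ∧ ∃ k, 1 ≤ k ∧ k ≤ 6 ∧ N = k * S + 1 ∧ ∀ a b, k ≤ a ∨ S ≤ b + 1 → h a b = 0

/-- What the first order checker hands to the certificate checker. The lane of the flag with added
column `p0, q0` and shortened column `a1, b1` is `N (S p0 + q0) + (S a1 + b1)`. -/
structure Spec (h : ℕ → ℕ → ℕ) (S N n H D C Rm : ℕ) (d c : ℕ → ℕ) : Prop where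
  bor : Bor h
  size_eq : size h = n
  n_ge : 32 ≤ n
  n_le : n ≤ 57
  fits : Fits h S N
  H_eq : H = pk 12 N fun i => h (i / S) (i % S)
  D_eq : D = pk 12 (N * N) d
  C_eq : C = pk 12 (N * N) c
  R_eq : Rm = pk 12 (N * N) fun l => room h (l % N / S) (l % N % S) (l / N / S) (l / N % S)
  d_lt : ∀ l < N * N, d l < 2048
  c_lt : ∀ l < N * N, c l < 2048
  flag : ∀ (h0 h2 : ℕ → ℕ → ℕ) (p0 q0 a1 b1 : ℕ), h0 = bump h p0 q0 → h = bump h2 a1 b1 →
    Bor h0 → Bor h2 →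
    q0 < S ∧ S * p0 + q0 < N ∧ b1 + 1 < S ∧ S * a1 + b1 + 1 < N ∧
    (∃ R, Roots h0 h h2 R ∧ R.card + 2 ≤ 3 * n + d (N * (S * p0 + q0) + (S * a1 + b1))) ∧
    Roots h0 h h2 (R1 h S N p0 q0 a1 b1) ∧
    (R1 h S N p0 q0 a1 b1).card ≤ c (N * (S * p0 + q0) + (S * a1 + b1))

/-- All flags with middle staircase `h` are fine. -/
def AllFine (P : GP) (h : ℕ → ℕ → ℕ) : Prop :=
  ∀ (h0 h2 : ℕ → ℕ → ℕ) (p0 q0 a1 b1 : ℕ), h0 = bump h p0 q0 → h = bump h2 a1 b1 →
    Bor h0 → Bor h2 → Fine P h0 h h2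

/-- The arguments of a hook are `S N n H D C Rm`. -/
def HookSound (P : GP) (hook : ℕ → ℕ → ℕ → ℕ → ℕ → ℕ → ℕ → Bool) : Prop :=
  ∀ h S N n H D C Rm d c, Spec h S N n H D C Rm d c → hook S N n H D C Rm = true → AllFine P h

end Pool.Agent.Lib.MP_ed43e6_ag.Q
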