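import Pool.Agent.Lib.MP_ed43e6_ag.N.Comb
import Pool.Agent.Lib.MP_ed43e6_ag.Q.Spec

/-! Root sets for a chain of three staircases, for an abstract room function. -/

namespace Pool.Agent.Lib.MP_ed43e6_ag.Q

open Finset N N.Comb

/-- The room without the positivity condition. -/
def rb (h : ℕ → ℕ → ℕ) (p q a b : ℕ) : ℕ :=
  min (min (min (t3 h p q a b) (gg h p q)) (rx h q a b)) (ry h p q a b)

/-- The column `p, q` has a lane. -/
def In (S N p q : ℕ) : Prop := q < S ∧ S * p + q < N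

theorem room_eq (h : ℕ → ℕ → ℕ) (p q a b : ℕ) :
    room h p q a b = min (rb h p q a b) (pos h p q a b) := by
  unfold room room1 rb
  omega

section Res

variable {g : ℕ → ℕ → ℕ} {G : ℕ → ℕ → ℕ → ℕ → ℕ → ℕ → Prop}

theorem res_x (hB : Bor g) (hL : Links g G) {p q s a b t : ℕ} (ih : Col g G p q)
    (hs : g (p + 1) q ≤ s) (ht : t < g a b) (h : g p q + t < g a b + s) : G (p + 1) q s a b t :=
  move hL (s' := s + (g a b - 1 - t)) (t' := g a b - 1) hs ht (by omega) (by omega) (by omega)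
    (downx hB hL ih (by omega) (by omega))

theorem res_y (hB : Bor g) (hL : Links g G) {p q s a b t : ℕ} (ih : Col g G p q)
    (hs : g p (q + 1) ≤ s) (ht : t < g a b) (h : g p q + t < g a b + s) : G p (q + 1) s a b t :=
  move hL (s' := s + (g a b - 1 - t)) (t' := g a b - 1) hs ht (by omega) (by omega) (by omega)
    (downy hB hL ih (by omega) (by omega))

theorem res_up (hB : Bor g) (hL : Links g G) {p q s a b t : ℕ} (hs : g p q ≤ s) (ht : t < g a b)
    (h : g p q + t < g a (b + 1) + s)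
    (H : ∀ s' t', s' + t = s + t' → g p (q + 1) ≤ s' → t' < g a (b + 1) →
      G p (q + 1) s' a (b + 1) t') : G p q s a b t := by
  by_cases hk : t + g p q < s
  · exact kill hL ht hk
  have h3 := bor_y hB a b
  have h4 := bor_y hB p q
  refine move hL (s' := s + (g a (b + 1) - 1) - t) (t' := g a (b + 1) - 1) hs ht (by omega)
    (by omega) (by omega) ?_
  exact (hL.ly p q _ a b _ (by omega) (by omega)).2 (H _ _ (by omega) (by omega) (by omega))

theorem res (hB : Bor g) (hL : Links g G) (h58 : ∀ a b, g a b ≤ 58) {p q s a b t : ℕ}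
    (ih : ∀ p' < p, ∀ q', Col g G p' q') (ihq : ∀ q' < q, Col g G p q') (hs : g p q ≤ s)
    (ht : t < g a b) (h : rb g p q a b + g p q + t < g a b + s) : G p q s a b t := by
  by_cases hk : t + g p q < s
  · exact kill hL ht hk
  have b1 := h58 p q
  have b2 := h58 a b
  have y1 := bor_y hB a b
  have y2 := bor_y hB a (b + 1)
  have y3 := bor_y hB p q
  by_cases c1 : dx g p q + g p q + t < g a b + s
  · cases p with
    | zero =>
      simp only [dx, if_true] at c1
      omega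
    | succ p =>
      simp only [dx, Nat.add_sub_cancel, if_neg (Nat.succ_ne_zero p)] at c1
      exact res_x hB hL (ih p (by omega) q) hs ht (by omega)
  by_cases c2 : dy g p q + g p q + t < g a b + s
  · cases q with
    | zero =>
      simp only [dy, if_true] at c2
      omega
    | succ q =>
      simp only [dy, Nat.add_sub_cancel, if_neg (Nat.succ_ne_zero q)] at c2
      exact res_y hB hL (ihq q (by omega)) hs ht (by omega)
  by_cases c3 : t3 g p q a b + g p q + t < g a b + s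
  · unfold t3 uu ey at c3
    refine res_up hB hL hs ht (by omega) fun s' t' e hs' ht' => ?_
    by_cases hk' : t' + g p (q + 1) < s'
    · exact kill hL ht' hk'
    cases p with
    | zero =>
      simp only [dz, if_true] at c3
      omega
    | succ p =>
      simp only [dz, Nat.add_sub_cancel, if_neg (Nat.succ_ne_zero p)] at c3
      exact res_x hB hL (ih p (by omega) (q + 1)) hs' ht' (by omega)
  by_cases c4 : rx g q a b + g p q + t < g a b + s
  · unfold rx at c4
    split_ifs at c4 with hc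
    · obtain ⟨rfl, hq⟩ := hc
      obtain ⟨q, rfl⟩ : ∃ k, q = k + 1 := ⟨q - 1, by omega⟩
      have x1 := bor_x hB a 0
      have x2 := hB.2 p q
      refine move hL (s' := s + (g (a + 1) 0 - 1) - t) (t' := g (a + 1) 0 - 1) hs ht (by omega)
        (by omega) (by omega) ?_
      exact (hL.lx p (q + 1) _ a 0 _ (by omega) (by omega)).2
        (hL.ky (p + 1) q _ (a + 1) _ (by omega) (by omega))
    · omega
  have c5 : ry g p q a b + g p q + t < g a b + s := by
    unfold rb gg at h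
    omega
  unfold ry ey at c5
  have e2 : g a (b + 1 + 1) = g a (b + 2) := rfl
  refine res_up hB hL hs ht (by omega) fun s' t' e hs' ht' => ?_
  refine res_up hB hL hs' ht' (by omega) fun s2 t2 e' hs2 ht2 => ?_
  cases p with
  | zero =>
    simp only [if_true] at c5
    omega
  | succ p =>
    simp only [Nat.add_sub_cancel, if_neg (Nat.succ_ne_zero p)] at c5
    have e3 : g p (q + 1 + 1) = g p (q + 2) := rfl
    exact res_x hB hL (ih p (by omega) (q + 1 + 1)) hs2 ht2 (by omega)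

end Res

section Idx

variable {S N : ℕ}

theorem idx_div {p q : ℕ} (hq : q < S) : (S * p + q) / S = p := by
  rw [Nat.mul_add_div (by omega), Nat.div_eq_of_lt hq, add_zero]

theorem idx_mod {p q : ℕ} (hq : q < S) : (S * p + q) % S = q := by
  rw [Nat.mul_add_mod, Nat.mod_eq_of_lt hq]

theorem in_idx (hS : 0 < S) {i : ℕ} (hi : i < N) : In S N (i / S) (i % S) :=
  ⟨Nat.mod_lt _ hS, by rwa [Nat.div_add_mod]⟩

variable {h : ℕ → ℕ → ℕ}

theorem Fits.pos (hF : Fits h S N) {a b : ℕ} (hp : 0 < h a b) :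
    b + 1 < S ∧ S * a + S < N := by
  obtain ⟨_, _, k, _, _, rfl, hz⟩ := hF
  have h1 : ¬ (k ≤ a ∨ S ≤ b + 1) := fun hc => by
    have := hz a b hc
    omega
  have h2 : S * (a + 1) ≤ S * k := Nat.mul_le_mul_left _ (by omega)
  rw [mul_comm k S]
  rw [mul_add, mul_one] at h2
  omega

theorem Fits.in_of_pos (hF : Fits h S N) {a b : ℕ} (hp : 0 < h a b) : In S N a b := by
  have := hF.pos hp
  exact ⟨by omega, by omega⟩

theorem Fits.in_of_gg (hF : Fits h S N) {p q : ℕ} (hp : 0 < gg h p q) : In S N p q := by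
  have hS := hF.1
  have hN : 0 < N := by
    obtain ⟨_, _, k, _, _, rfl, _⟩ := hF
    omega
  unfold gg dx dy at hp
  cases q with
  | zero =>
    cases p with
    | zero => exact ⟨by omega, by omega⟩
    | succ p =>
      simp only [Nat.add_sub_cancel, if_neg (Nat.succ_ne_zero p)] at hp
      have := hF.pos (a := p) (b := 0) (by omega)
      exact ⟨by omega, by rw [mul_add]; omega⟩
  | succ q =>
    simp only [Nat.add_sub_cancel, if_neg (Nat.succ_ne_zero q)] at hp
    have := hF.pos (a := p) (b := q) (by omega)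
    exact ⟨by omega, by omega⟩

theorem mem_RA (hS : 0 < S) {ρ : ℕ → ℕ → ℕ → ℕ → ℕ} {p q s a b t : ℕ} :
    ((p, q, s), (a, b, t)) ∈ RA h S N ρ ↔ In S N p q ∧ In S N a b ∧ h p q ≤ s ∧
      s < h p q + ρ p q a b ∧ t = h a b - 1 := by
  unfold RA
  simp only [mem_biUnion, mem_image, mem_range, Prod.mk.injEq]
  constructor
  · rintro ⟨j, hj, i, hi, e, he, ⟨rfl, rfl, rfl⟩, rfl, rfl, rfl⟩
    exact ⟨in_idx hS hi, in_idx hS hj, by omega, by omega, rfl⟩
  · rintro ⟨⟨h1, h2⟩, ⟨h3, h4⟩, h5, h6, rfl⟩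
    refine ⟨S * a + b, h4, S * p + q, h2, s - h p q, ?_, ?_⟩
    · rw [idx_div h1, idx_mod h1, idx_div h3, idx_mod h3]
      omega
    · rw [idx_div h1, idx_mod h1, idx_div h3, idx_mod h3]
      exact ⟨⟨rfl, rfl, by omega⟩, rfl, rfl, rfl⟩

theorem mem_RB (hS : 0 < S) {p0 q0 p q s a b t : ℕ} :
    ((p, q, s), (a, b, t)) ∈ RB h S N p0 q0 ↔ In S N p q ∧ 0 < gg h p q ∧
      key p q (h p q) < key p0 q0 (h p0 q0) ∧ s = h p q ∧ a = p0 ∧ b = q0 ∧ t = h p0 q0 := by
  unfold RB
  simp only [mem_image, mem_filter, mem_range, Prod.mk.injEq]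
  constructor
  · rintro ⟨i, ⟨hi, h1, h2⟩, ⟨rfl, rfl, rfl⟩, rfl, rfl, rfl⟩
    exact ⟨in_idx hS hi, h1, h2, rfl, rfl, rfl, rfl⟩
  · rintro ⟨⟨h1, h2⟩, h3, h4, rfl, rfl, rfl, rfl⟩
    refine ⟨S * p + q, ?_, ?_⟩
    · rw [idx_div h1, idx_mod h1]
      exact ⟨h2, h3, h4⟩
    · rw [idx_div h1, idx_mod h1]
      exact ⟨⟨rfl, rfl, rfl⟩, rfl, rfl, rfl⟩

theorem mem_RC (hS : 0 < S) {a1 b1 p q s a b t : ℕ} :
    ((p, q, s), (a, b, t)) ∈ RC h S N a1 b1 ↔ In S N a b ∧ 0 < h a b ∧
      key a1 b1 (h a1 b1 - 1) < key a b (h a b - 1) ∧ p = a1 ∧ q = b1 ∧ s = h a1 b1 - 1 ∧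
      t = h a b - 1 := by
  unfold RC
  simp only [mem_image, mem_filter, mem_range, Prod.mk.injEq]
  constructor
  · rintro ⟨i, ⟨hi, h1, h2⟩, ⟨rfl, rfl, rfl⟩, rfl, rfl, rfl⟩
    exact ⟨in_idx hS hi, h1, h2, rfl, rfl, rfl, rfl⟩
  · rintro ⟨⟨h1, h2⟩, h3, h4, rfl, rfl, rfl, rfl⟩
    refine ⟨S * a + b, ?_, ?_⟩
    · rw [idx_div h1, idx_mod h1]
      exact ⟨h2, h3, h4⟩
    · rw [idx_div h1, idx_mod h1]
      exact ⟨⟨rfl, rfl, rfl⟩, rfl, rfl, rfl⟩

theorem card_RA (ρ : ℕ → ℕ → ℕ → ℕ → ℕ) : (RA h S N ρ).card ≤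
    ∑ j ∈ range N, ∑ i ∈ range N, ρ (i / S) (i % S) (j / S) (j % S) := by
  unfold RA
  refine card_biUnion_le.trans (sum_le_sum fun j _ => ?_)
  refine card_biUnion_le.trans (sum_le_sum fun i _ => ?_)
  exact card_image_le.trans (card_range _).le

end Idx

section Steps

variable {G : ℕ → ℕ → ℕ → ℕ → ℕ → ℕ → Prop} {h0 h1 h2 : ℕ → ℕ → ℕ} {p0 q0 a1 b1 S N : ℕ}

/-- Beyond the room every pair is resolved at one of the three levels. -/
def OkR (h0 h1 h2 : ℕ → ℕ → ℕ) (ρ : ℕ → ℕ → ℕ → ℕ → ℕ) : Prop :=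
  ∀ p q s a b t, h1 p q + ρ p q a b ≤ s → t + 1 = h1 a b → key p q s < key a b t →
    rb h1 p q a b + h1 p q + t < h1 a b + s ∨
    (h0 p q ≤ s ∧ rb h0 p q a b + h0 p q + t < h0 a b + s) ∨
    (t < h2 a b ∧ rb h2 p q a b + h2 p q + t < h2 a b + s)

theorem step1 (e0 : h0 = bump h1 p0 q0) (e1 : h1 = bump h2 a1 b1) (B0 : Bor h0) (B1 : Bor h1)
    (B2 : Bor h2) (hF : Fits h1 S N) (h58 : ∀ a b, h0 a b ≤ 58) (L0 : Links h0 G)
    (L1 : Links h1 G) (L2 : Links h2 G)
    (hneg : ∀ p q s a b t, ¬ key p q s < key a b t → G p q s a b t)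
    {ρ : ℕ → ℕ → ℕ → ℕ → ℕ} (hρ : OkR h0 h1 h2 ρ)
    (hA : ∀ r ∈ RA h1 S N ρ, G r.1.1 r.1.2.1 r.1.2.2 r.2.1 r.2.2.1 r.2.2.2)
    {p q : ℕ} (ih : ∀ p' < p, ∀ q', Col h0 G p' q' ∧ Col h1 G p' q' ∧ Col h2 G p' q')
    (ihq : ∀ q' < q, Col h0 G p q' ∧ Col h1 G p q' ∧ Col h2 G p q') {s a b t : ℕ}
    (hs : h1 p q ≤ s) (ht : t + 1 = h1 a b) : G p q s a b t := by
  have l10 : ∀ a b, h1 a b ≤ h0 a b := fun a b => e0 ▸ le_bump h1 p0 q0 a b
  have l21 : ∀ a b, h2 a b ≤ h1 a b := fun a b => e1 ▸ le_bump h2 a1 b1 a b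
  have h41 : ∀ a b, h1 a b ≤ 58 := fun a b => (l10 a b).trans (h58 a b)
  have h42 : ∀ a b, h2 a b ≤ 58 := fun a b => (l21 a b).trans (h41 a b)
  by_cases hpos : key p q s < key a b t
  swap
  · exact hneg _ _ _ _ _ _ hpos
  have r1 := fun h => res B1 L1 h41 (fun p' hp' q' => (ih p' hp' q').2.1)
    (fun q' hq' => (ihq q' hq').2.1) hs (a := a) (b := b) (t := t) (by omega) h
  by_cases hg : 0 < gg h1 p q
  swap
  · refine r1 ?_
    unfold rb
    omega
  by_cases hr : s < h1 p q + ρ p q a b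
  · exact hA _ ((mem_RA (by have := hF.1; omega)).2
      ⟨hF.in_of_gg hg, hF.in_of_pos (by omega), hs, hr, (by omega : t = h1 a b - 1)⟩)
  have l1 := l10 a b
  have l2 := l21 p q
  rcases hρ p q s a b t (by omega) ht hpos with c | c | c
  · exact r1 c
  · exact res B0 L0 h58 (fun p' hp' q' => (ih p' hp' q').1) (fun q' hq' => (ihq q' hq').1) c.1
      (by omega) c.2
  · exact res B2 L2 h42 (fun p' hp' q' => (ih p' hp' q').2.2) (fun q' hq' => (ihq q' hq').2.2)
      (by omega) c.1 c.2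

theorem step3 (e0 : h0 = bump h1 p0 q0) (B0 : Bor h0) (hF : Fits h1 S N)
    (h58 : ∀ a b, h0 a b ≤ 58) (L0 : Links h0 G)
    (hneg : ∀ p q s a b t, ¬ key p q s < key a b t → G p q s a b t)
    (hB : ∀ r ∈ RB h1 S N p0 q0, G r.1.1 r.1.2.1 r.1.2.2 r.2.1 r.2.2.1 r.2.2.2)
    {p q : ℕ} (ih : ∀ p' < p, ∀ q', Col h0 G p' q') (ihq : ∀ q' < q, Col h0 G p q')
    (c1 : Col h1 G p q) : Col h0 G p q := by
  intro s a b t hs ht
  have l10 : ∀ a b, h1 a b ≤ h0 a b := fun a b => e0 ▸ le_bump h1 p0 q0 a b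
  have l1 := l10 p q
  have l58 := h58 p q
  by_cases hc : t < h1 a b
  · exact c1 s a b t (by omega) hc
  by_cases hpos : key p q s < key a b t
  swap
  · exact hneg _ _ _ _ _ _ hpos
  have k3 := bump_cases h1 p0 q0 a b
  rw [← e0] at k3
  obtain ⟨rfl, rfl, k3⟩ : a = p0 ∧ b = q0 ∧ h0 a b = h1 a b + 1 := by
    rcases k3 with k3 | k3
    · exact k3
    · omega
  have et : t = h1 a b := by omega
  by_cases dx' : p ≠ 0 ∧ h0 (p - 1) q ≤ s
  · obtain ⟨p, rfl⟩ : ∃ k, p = k + 1 := ⟨p - 1, by omega⟩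
    exact downx B0 L0 (ih p (by omega) q) dx'.2 ht
  by_cases dy' : q ≠ 0 ∧ h0 p (q - 1) ≤ s
  · obtain ⟨q, rfl⟩ : ∃ k, q = k + 1 := ⟨q - 1, by omega⟩
    exact downy B0 L0 (ihq q (by omega)) dy'.2 ht
  by_cases dz' : h0 p q < s
  · by_cases t0 : t = 0
    · exact kill L0 ht (by omega)
    · refine move L0 (s' := s - 1) (t' := t - 1) hs ht (by omega) (by omega) (by omega) ?_
      exact c1 _ _ _ _ (by omega) (by omega)
  have k2 := bump_cases h1 a b p q
  rw [← e0] at k2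
  have es : s = h1 p q := by
    rcases k2 with ⟨rfl, rfl, k2⟩ | ⟨_, k2⟩
    · unfold key at hpos
      omega
    · omega
  have m1 : 0 < dx h1 p q := by
    unfold dx
    split_ifs with hp0
    · omega
    have k := bump_cases h1 a b (p - 1) q
    rw [← e0] at k
    rcases k with ⟨ea, eb, k⟩ | ⟨_, k⟩
    · have ep : p = a + 1 := by omega
      subst ep
      subst eb
      simp only [Nat.add_sub_cancel] at k dx' ⊢
      unfold key at hpos
      omega
    · omega
  have m2 : 0 < dy h1 p q := by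
    unfold dy
    split_ifs with hq0
    · omega
    have k := bump_cases h1 a b p (q - 1)
    rw [← e0] at k
    rcases k with ⟨ea, eb, k⟩ | ⟨_, k⟩
    · have ep : q = b + 1 := by omega
      subst ep
      subst ea
      simp only [Nat.add_sub_cancel] at k dy' ⊢
      unfold key at hpos
      omega
    · omega
  have hg : 0 < gg h1 p q := lt_min m1 m2
  subst es
  subst et
  exact hB _ ((mem_RB (by have := hF.1; omega)).2 ⟨hF.in_of_gg hg, hg, hpos, rfl, rfl, rfl, rfl⟩)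

theorem step4 (e1 : h1 = bump h2 a1 b1) (hF : Fits h1 S N)
    (L2 : Links h2 G) (hneg : ∀ p q s a b t, ¬ key p q s < key a b t → G p q s a b t)
    (hC : ∀ r ∈ RC h1 S N a1 b1, G r.1.1 r.1.2.1 r.1.2.2 r.2.1 r.2.2.1 r.2.2.2)
    {p q : ℕ} (c1 : Col h1 G p q) : Col h2 G p q := by
  intro s a b t hs ht
  have l21 : h2 a b ≤ h1 a b := e1 ▸ le_bump h2 a1 b1 a b
  by_cases hc : h1 p q ≤ s
  · exact c1 s a b t hc (by omega)
  by_cases hpos : key p q s < key a b t
  swap
  · exact hneg _ _ _ _ _ _ hpos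
  have k2 := bump_cases h2 a1 b1 p q
  have k3 := bump_cases h2 a1 b1 a b
  rw [← e1] at k2 k3
  obtain ⟨rfl, rfl, k2⟩ : p = a1 ∧ q = b1 ∧ h1 p q = h2 p q + 1 := by
    rcases k2 with k2 | k2
    · exact k2
    · omega
  by_cases hu : t + 1 < h2 a b
  · exact (L2.lz p q s a b t hs hu).2 (c1 _ _ _ _ (by omega) (by omega))
  have es : s = h1 p q - 1 := by omega
  have et : t = h1 a b - 1 := by
    rcases k3 with ⟨rfl, rfl, k3⟩ | ⟨_, k3⟩
    · unfold key at hpos
      omega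
    · omega
  subst es
  subst et
  exact hC _ ((mem_RC (by have := hF.1; omega)).2
    ⟨hF.in_of_pos (by omega), by omega, hpos, rfl, rfl, rfl, rfl⟩)

theorem roots (e0 : h0 = bump h1 p0 q0) (e1 : h1 = bump h2 a1 b1) (B0 : Bor h0) (B1 : Bor h1)
    (B2 : Bor h2) (hF : Fits h1 S N) (h58 : ∀ a b, h0 a b ≤ 58)
    {ρ : ℕ → ℕ → ℕ → ℕ → ℕ} (hρ : OkR h0 h1 h2 ρ) :
    Roots h0 h1 h2 (RA h1 S N ρ ∪ RB h1 S N p0 q0 ∪ RC h1 S N a1 b1) := by
  intro G L0 L1 L2 hneg hR
  have hA := fun r hr => hR r (mem_union_left _ (mem_union_left _ hr))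
  have hB := fun r hr => hR r (mem_union_left _ (mem_union_right _ hr))
  have hC := fun r hr => hR r (mem_union_right _ hr)
  have main : ∀ p q, Col h0 G p q ∧ Col h1 G p q ∧ Col h2 G p q := by
    intro p
    induction p using Nat.strong_induction_on with
    | _ p ih =>
      intro q
      induction q using Nat.strong_induction_on with
      | _ q ihq =>
        have c1 : Col h1 G p q := by
          intro s a b t hs ht
          refine move L1 (s' := s + (h1 a b - 1 - t)) (t' := h1 a b - 1) hs ht (by omega)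
            (by omega) (by omega) ?_
          exact step1 e0 e1 B0 B1 B2 hF h58 L0 L1 L2 hneg hρ hA ih ihq (by omega) (by omega)
        exact ⟨step3 e0 B0 hF h58 L0 hneg hB (fun p' hp' q' => (ih p' hp' q').1)
          (fun q' hq' => (ihq q' hq').1) c1, c1, step4 e1 hF L2 hneg hC c1⟩
  intro p q s a b t h
  rcases h with h | h | h
  · exact (main p q).1 s a b t h.1 h.2
  · exact (main p q).2.1 s a b t h.1 h.2
  · exact (main p q).2.2 s a b t h.1 h.2

theorem key_lt_iff {p q s a b t : ℕ} (h1 : b + t < 128) (h2 : q + s < 128) :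
    key p q s < key a b t ↔ s + p + q + tri p q a b ≤ t + a + b := by
  unfold key tri
  split_ifs <;> omega

theorem key_lt_imp {p q s a b t : ℕ} (h1 : b + t < 128) (h : key p q s < key a b t) :
    s + p + q + tri p q a b ≤ t + a + b := by
  unfold key at h
  unfold tri
  split_ifs <;> omega

/-- Any room function that dominates the minimum of the room and the positivity bound. -/
theorem ok_of_le (hF : Fits h1 S N) (h58 : ∀ a b, h1 a b ≤ 58) {ρ : ℕ → ℕ → ℕ → ℕ → ℕ}
    (hρ : ∀ p q a b, room h1 p q a b ≤ ρ p q a b) : OkR h0 h1 h2 ρ := by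
  intro p q s a b t hs ht hk
  have h3 := hF.pos (a := a) (b := b) (by omega)
  have h4 := hF.2.1
  have h5 := h58 a b
  have h6 := key_lt_imp (by omega) hk
  have h7 := hρ p q a b
  rw [room_eq] at h7
  unfold pos at h7
  left
  omega

end Steps

end Pool.Agent.Lib.MP_ed43e6_ag.Q
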