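import Pool.Agent.Lib.MP_ed43e6_ag.Q.Gain

/-! The number of roots of a flag in terms of lane sums. -/

namespace Pool.Agent.Lib.MP_ed43e6_ag.Q

open Finset N N.Comb

section Defs

variable (h : ℕ → ℕ → ℕ)

def EE (p q a b : ℕ) : Prop := h p q + p + q + tri p q a b ≤ h a b + a + b
instance (p q a b : ℕ) : Decidable (EE h p q a b) := by unfold EE; infer_instance
def fEB (p q a b : ℕ) : ℕ := if 0 < gg h p q ∧ EE h p q a b then 1 else 0
def fEC (p q a b : ℕ) : ℕ := if 0 < h a b ∧ EE h p q a b then 1 else 0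
def zs (F : ℕ → ℕ → ℕ → ℕ → ℕ) (p q a b : ℕ) : ℕ := if q = 0 then 0 else F (p + 1) (q - 1) a b
def us (F : ℕ → ℕ → ℕ → ℕ → ℕ) (p q a b : ℕ) : ℕ := if b = 0 then 0 else F p q a (b - 1)
def fa0 (p q a b : ℕ) : ℕ := fA h p q a b + us (fB h) p q a b
def fxy (p q a b : ℕ) : ℕ := fX h (p + 1) q a b + fY h p (q + 1) a b
def fpz (p q a b : ℕ) : ℕ := fP h p q a b + zs (fZ h) p q a b
def fo2 (p q a b : ℕ) : ℕ :=
  fpz h p q a b + fX h (p + 1) q a b * fB h (p + 1) q a b + fY h p (q + 1) a b * fB h p (q + 1) a b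
def fov (p q a b : ℕ) : ℕ :=
  fxy h p q a b + fP h p q a b * fA h p q a b +
    zs (fun p q a b => fZ h p q a b * fA h p q a b) p q a b + us (fo2 h) p q a b

end Defs

variable {h h0 h2 : ℕ → ℕ → ℕ} {p0 q0 a1 b1 S N : ℕ}

theorem room_le_h (hB : Bor h) (p q a b : ℕ) : room h p q a b ≤ h a b := by
  have h1 := (room_le h p q a b).2.1
  have h2 := bor_y hB a b
  unfold t3 uu ey at h1
  omega

theorem f_le (h : ℕ → ℕ → ℕ) (p q a b : ℕ) : fA h p q a b ≤ 1 ∧ fX h p q a b ≤ 1 ∧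
    fY h p q a b ≤ 1 ∧ fZ h p q a b ≤ 1 ∧ fP h p q a b ≤ 1 ∧ fB h p q a b ≤ 1 := by
  unfold fA fX fY fZ fP fB
  split_ifs <;> omega

theorem f_zero {p q a b : ℕ} (hr : room h p q a b = 0) : fA h p q a b = 0 ∧ fX h p q a b = 0 ∧
    fY h p q a b = 0 ∧ fZ h p q a b = 0 ∧ fP h p q a b = 0 ∧ fB h p q a b = 0 := by
  unfold fA fX fY fZ fP fB E3
  split_ifs <;> omega

theorem sum_pt (_hS : 0 < S) (x y : ℕ) (F : ℕ → ℕ → ℕ) (hF : F x y ≠ 0 → In S N x y) :
    ∑ i ∈ range N, (if i / S = x ∧ i % S = y then F (i / S) (i % S) else 0) = F x y := by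
  by_cases hi : In S N x y
  · rw [sum_eq_single (S * x + y)]
    · rw [idx_div hi.1, idx_mod hi.1, if_pos ⟨rfl, rfl⟩]
    · intro i _ hne
      rw [if_neg]
      rintro ⟨rfl, rfl⟩
      exact hne (Nat.div_add_mod i S).symm
    · exact fun hn => absurd (mem_range.2 hi.2) hn
  · have : F x y = 0 := by
      by_contra hc
      exact hi (hF hc)
    rw [this]
    refine sum_eq_zero fun i hi' => ?_
    split_ifs with hc
    · obtain ⟨rfl, rfl⟩ := hc
      exact this
    · rfl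

theorem sum_γ0 (hB : Bor h) (hF : Fits h S N) (p q : ℕ) (V : ℕ → ℕ → ℕ) :
    ∑ j ∈ range N, γ0 h p0 q0 p q (j / S) (j % S) * V (j / S) (j % S) =
      fA h p q p0 q0 * V p0 q0 + us (fun p q a b => fB h p q a b * V a b) p q p0 q0 := by
  have hS : 0 < S := by have := hF.1; omega
  have hin : ∀ a b, room h p q a b ≠ 0 → In S N a b := fun a b hr =>
    hF.in_of_pos (by have := room_le_h hB p q a b; omega)
  simp only [γ0, add_mul, sum_add_distrib, ite_mul, zero_mul]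
  rw [sum_pt hS p0 q0 (fun a b => fA h p q a b * V a b) fun hc => hin _ _ fun hr => hc (by
    rw [(f_zero hr).1, zero_mul])]
  congr 1
  unfold us
  cases q0 with
  | zero => simp
  | succ q0 =>
    simp only [Nat.add_right_cancel_iff, Nat.add_sub_cancel, if_neg (Nat.succ_ne_zero q0)]
    exact sum_pt hS p0 q0 (fun a b => fB h p q a b * V a b) fun hc => hin _ _ fun hr => hc (by
      rw [(f_zero hr).2.2.2.2.2, zero_mul])

theorem sum_γ2 (hF : Fits h S N) (a b : ℕ) (V : ℕ → ℕ → ℕ) :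
    ∑ i ∈ range N, V (i / S) (i % S) * γ2 h a1 b1 (i / S) (i % S) a b =
      V a1 b1 * fP h a1 b1 a b + V (a1 + 1) b1 * fX h (a1 + 1) b1 a b +
        V a1 (b1 + 1) * fY h a1 (b1 + 1) a b +
        zs (fun p q a b => V p q * fZ h p q a b) a1 b1 a b := by
  have hS : 0 < S := by have := hF.1; omega
  have hin : ∀ p q, room h p q a b ≠ 0 → In S N p q := fun p q hr =>
    hF.in_of_gg (by have := (room_le h p q a b).1; omega)
  simp only [γ2, mul_add, sum_add_distrib, mul_ite, mul_zero]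
  rw [sum_pt hS a1 b1 (fun p q => V p q * fP h p q a b) fun hc => hin _ _ fun hr => hc (by
      rw [(f_zero hr).2.2.2.2.1, mul_zero]),
    sum_pt hS (a1 + 1) b1 (fun p q => V p q * fX h p q a b) fun hc => hin _ _ fun hr => hc (by
      rw [(f_zero hr).2.1, mul_zero]),
    sum_pt hS a1 (b1 + 1) (fun p q => V p q * fY h p q a b) fun hc => hin _ _ fun hr => hc (by
      rw [(f_zero hr).2.2.1, mul_zero])]
  congr 1
  unfold zs
  cases b1 with
  | zero => simp
  | succ b1 =>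
    simp only [Nat.add_right_cancel_iff, Nat.add_sub_cancel, if_neg (Nat.succ_ne_zero b1)]
    exact sum_pt hS (a1 + 1) b1 (fun p q => V p q * fZ h p q a b) fun hc => hin _ _ fun hr =>
      hc (by rw [(f_zero hr).2.2.2.1, mul_zero])

theorem card_RB (hq : q0 + h p0 q0 < 128) :
    (RB h S N p0 q0).card ≤ ∑ i ∈ range N, fEB h (i / S) (i % S) p0 q0 := by
  refine card_image_le.trans ?_
  rw [card_filter]
  refine sum_le_sum fun i _ => ?_
  unfold fEB EE
  split_ifs with c1 c2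
  · exact le_rfl
  · exact absurd ⟨c1.1, key_lt_imp hq c1.2⟩ c2
  · exact Nat.zero_le _
  · exact le_rfl

theorem card_RC (hF : Fits h S N) (h58 : ∀ a b, h a b ≤ 58) (hp : 0 < h a1 b1) :
    (RC h S N a1 b1).card ≤ ∑ j ∈ range N, fEC h a1 b1 (j / S) (j % S) := by
  refine card_image_le.trans ?_
  rw [card_filter]
  refine sum_le_sum fun j _ => ?_
  unfold fEC EE
  split_ifs with c1 c2
  · exact le_rfl
  · have h1 := hF.pos c1.1
    have h2 := hF.2.1
    have h3 := h58 (j / S) (j % S)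
    have h4 := key_lt_imp (by omega) c1.2
    exact absurd ⟨c1.1, by omega⟩ c2
  · exact Nat.zero_le _
  · exact le_rfl

theorem sum_ρF (hB : Bor h) (hF : Fits h S N) :
    ∑ j ∈ range N, ∑ i ∈ range N, ρF h p0 q0 a1 b1 (i / S) (i % S) (j / S) (j % S) +
      ∑ i ∈ range N, fa0 h (i / S) (i % S) p0 q0 +
      ∑ j ∈ range N, (fxy h a1 b1 (j / S) (j % S) + fpz h a1 b1 (j / S) (j % S)) ≤
    ∑ j ∈ range N, ∑ i ∈ range N, room h (i / S) (i % S) (j / S) (j % S) + fov h a1 b1 p0 q0 := by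
  have e0 : ∑ i ∈ range N, fa0 h (i / S) (i % S) p0 q0 =
      ∑ j ∈ range N, ∑ i ∈ range N, γ0 h p0 q0 (i / S) (i % S) (j / S) (j % S) := by
    rw [sum_comm]
    refine sum_congr rfl fun i _ => ?_
    have := sum_γ0 (p0 := p0) (q0 := q0) hB hF (i / S) (i % S) fun _ _ => 1
    simp only [mul_one] at this
    exact this.symm
  have e2 : ∑ j ∈ range N, (fxy h a1 b1 (j / S) (j % S) + fpz h a1 b1 (j / S) (j % S)) =
      ∑ j ∈ range N, ∑ i ∈ range N, γ2 h a1 b1 (i / S) (i % S) (j / S) (j % S) := by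
    refine sum_congr rfl fun j _ => ?_
    have := sum_γ2 (a1 := a1) (b1 := b1) hF (j / S) (j % S) fun _ _ => 1
    simp only [one_mul] at this
    rw [this]
    unfold fxy fpz
    change _ = _ + zs (fZ h) a1 b1 (j / S) (j % S)
    omega
  have e3 : ∑ j ∈ range N, ∑ i ∈ range N, γ0 h p0 q0 (i / S) (i % S) (j / S) (j % S) *
      γ2 h a1 b1 (i / S) (i % S) (j / S) (j % S) ≤ fov h a1 b1 p0 q0 := by
    rw [sum_comm, sum_congr rfl fun i _ => sum_γ0 (p0 := p0) (q0 := q0) hB hF (i / S) (i % S)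
      fun a b => γ2 h a1 b1 (i / S) (i % S) a b, sum_add_distrib,
      sum_γ2 hF p0 q0 fun p q => fA h p q p0 q0]
    unfold fov
    refine Nat.add_le_add ?_ ?_
    · unfold fxy zs
      beta_reduce
      have k1 := Nat.mul_le_mul_right (fX h (a1 + 1) b1 p0 q0) (f_le h (a1 + 1) b1 p0 q0).1
      have k2 := Nat.mul_le_mul_right (fY h a1 (b1 + 1) p0 q0) (f_le h a1 (b1 + 1) p0 q0).1
      rw [mul_comm (fP h a1 b1 p0 q0), mul_comm (fZ h (a1 + 1) (b1 - 1) p0 q0)]
      omega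
    · unfold us
      split_ifs
      · simp
      rw [sum_γ2 hF p0 (q0 - 1) fun p q => fB h p q p0 (q0 - 1)]
      unfold fo2 fpz zs
      beta_reduce
      have k1 := Nat.mul_le_mul_right (fP h a1 b1 p0 (q0 - 1))
        (f_le h a1 b1 p0 (q0 - 1)).2.2.2.2.2
      have k2 := Nat.mul_le_mul_right (fZ h (a1 + 1) (b1 - 1) p0 (q0 - 1))
        (f_le h (a1 + 1) (b1 - 1) p0 (q0 - 1)).2.2.2.2.2
      rw [mul_comm (fX h (a1 + 1) b1 p0 (q0 - 1)), mul_comm (fY h a1 (b1 + 1) p0 (q0 - 1))]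
      split_ifs <;> omega
  rw [e0, e2]
  refine le_trans ?_ (Nat.add_le_add_left e3 _)
  simp only [← sum_add_distrib]
  exact sum_le_sum fun j _ => sum_le_sum fun i _ => ρF_le _ _ _ _ _ _ _ _ _

/-- The facts about one flag. -/
theorem flag_facts (e0 : h0 = bump h p0 q0) (e1 : h = bump h2 a1 b1) (B0 : Bor h0)
    (B2 : Bor h2) (hF : Fits h S N) (h57 : ∀ a b, h a b ≤ 57) :
    In S N p0 q0 ∧ 0 < h a1 b1 ∧ 0 < dz h p0 q0 ∧ 1 < dy h p0 q0 ∧
      (if b1 = 0 then 0 else h (a1 + 1) (b1 - 1)) < h a1 b1 ∧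
      (1 < ey h a1 b1 ∨ h a1 (b1 + 1) = 0) ∧ ∀ a b, h0 a b ≤ 58 := by
  have s0 : h0 p0 q0 = h p0 q0 + 1 := by rw [e0, bump_self]
  have s1 : h a1 b1 = h2 a1 b1 + 1 := by rw [e1, bump_self]
  have l0 := h57 p0 q0
  have z : 0 < dz h p0 q0 ∧ 0 < dx h p0 q0 := by
    unfold dz dx
    cases p0 with
    | zero => simp only [if_true]; omega
    | succ p =>
      have k := B0.2 p q0
      have k1 := B0.1 p q0
      have k2 : h0 p (q0 + 1) = h p (q0 + 1) := by rw [e0, bump_ne h (by omega)]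
      have k3 : h0 p q0 = h p q0 := by rw [e0, bump_ne h (by omega)]
      simp only [Nat.add_sub_cancel, if_neg (Nat.succ_ne_zero p)]
      omega
  have y : 1 < dy h p0 q0 := by
    unfold dy
    cases q0 with
    | zero => simp only [if_true]; omega
    | succ q =>
      have k := B0.1 p0 q
      have k3 : h0 p0 q = h p0 q := by rw [e0, bump_ne h (by omega)]
      simp only [Nat.add_sub_cancel, if_neg (Nat.succ_ne_zero q)]
      omega
  refine ⟨hF.in_of_gg (lt_min z.2 (by omega)), by omega, z.1, y, ?_, ?_, fun a b => ?_⟩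
  · cases b1 with
    | zero => simp only [if_true]; omega
    | succ b =>
      have k := B2.2 a1 b
      have k3 : h (a1 + 1) b = h2 (a1 + 1) b := by rw [e1, bump_ne h2 (by omega)]
      simp only [Nat.add_sub_cancel, if_neg (Nat.succ_ne_zero b)]
      omega
  · have k := B2.1 a1 b1
    have k3 : h a1 (b1 + 1) = h2 a1 (b1 + 1) := by rw [e1, bump_ne h2 (by omega)]
    unfold ey
    omega
  · have k := bump_cases h p0 q0 a b
    have := h57 a b
    rw [← e0] at k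
    omega

theorem flag_R1 (e0 : h0 = bump h p0 q0) (e1 : h = bump h2 a1 b1) (B0 : Bor h0) (B1 : Bor h)
    (B2 : Bor h2) (hF : Fits h S N) (h57 : ∀ a b, h a b ≤ 57) :
    Roots h0 h h2 (R1 h S N p0 q0 a1 b1) ∧ (R1 h S N p0 q0 a1 b1).card ≤
      ∑ j ∈ range N, ∑ i ∈ range N, room h (i / S) (i % S) (j / S) (j % S) +
      ∑ i ∈ range N, fEB h (i / S) (i % S) p0 q0 + ∑ j ∈ range N, fEC h a1 b1 (j / S) (j % S) := by
  obtain ⟨f1, f2, -, -, -, -, f3⟩ := flag_facts e0 e1 B0 B2 hF h57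
  have h58 : ∀ a b, h a b ≤ 58 := fun a b => (h57 a b).trans (by omega)
  refine ⟨roots e0 e1 B0 B1 B2 hF f3 (ok_of_le hF h58 fun _ _ _ _ => le_rfl), ?_⟩
  refine (card_union_le _ _).trans (Nat.add_le_add ((card_union_le _ _).trans
    (Nat.add_le_add (card_RA _) (card_RB ?_))) (card_RC hF h58 f2))
  have := f1.1
  have := hF.2.1
  have := h57 p0 q0
  omega

theorem flag_RF (e0 : h0 = bump h p0 q0) (e1 : h = bump h2 a1 b1) (B0 : Bor h0) (B1 : Bor h)
    (B2 : Bor h2) (hF : Fits h S N) (h57 : ∀ a b, h a b ≤ 57) :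
    ∃ R, Roots h0 h h2 R ∧ R.card + ∑ i ∈ range N, fa0 h (i / S) (i % S) p0 q0 +
      ∑ j ∈ range N, (fxy h a1 b1 (j / S) (j % S) + fpz h a1 b1 (j / S) (j % S)) ≤
      ∑ j ∈ range N, ∑ i ∈ range N, room h (i / S) (i % S) (j / S) (j % S) +
      ∑ i ∈ range N, fEB h (i / S) (i % S) p0 q0 + ∑ j ∈ range N, fEC h a1 b1 (j / S) (j % S) +
      fov h a1 b1 p0 q0 := by
  obtain ⟨f1, f2, -, -, -, -, f3⟩ := flag_facts e0 e1 B0 B2 hF h57
  have h58 : ∀ a b, h a b ≤ 58 := fun a b => (h57 a b).trans (by omega)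
  refine ⟨_, roots e0 e1 B0 B1 B2 hF f3 (ok_flag e0 e1 B0 B1 B2 hF h58), ?_⟩
  have c := (card_union_le (RA h S N (ρF h p0 q0 a1 b1) ∪ RB h S N p0 q0) (RC h S N a1 b1)).trans
    (Nat.add_le_add ((card_union_le _ _).trans (Nat.add_le_add (card_RA _) (card_RB (by
      have := f1.1
      have := hF.2.1
      have := h57 p0 q0
      omega)))) (card_RC hF h58 f2))
  have d := sum_ρF (p0 := p0) (q0 := q0) (a1 := a1) (b1 := b1) B1 hF
  omega

end Pool.Agent.Lib.MP_ed43e6_ag.Q
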