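import Pool.Agent.Lib.MP_ed43e6_ag.Q.Second

/-! The generators, weights and quadratic relations of a chain of three ideals. -/

namespace Pool.Agent.Lib.MP_ed43e6_ag.Q

open MvPolynomial Finset N

universe u

theorem thr_eq (E : ℕ) {a : ℕ} (ha : 0 < a) : thr E a + 4 * E = 8 * E * a := by
  obtain ⟨a, rfl⟩ : ∃ a', a = a' + 1 := ⟨a - 1, by omega⟩
  rw [thr, Nat.add_sub_cancel]
  ring

theorem expo (K : Type u) {Ω : Type u} [Field K] [Field Ω] [Algebra K Ω]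
    {I : Fin 3 → Ideal (SS Ω)} {lam : Fin 3 → Finset (Fin 3 →₀ ℕ)}
    {nf : Fin 3 → SS Ω →ₗ[Ω] SS Ω} {h : Fin 3 → ℕ → ℕ → ℕ} (h01 : I 0 ≤ I 1) (h12 : I 1 ≤ I 2)
    (hN : ∀ j, NF (I j) (lam j) (nf j)) (hh : ∀ j a b t, N.mon a b t ∈ lam j ↔ t < h j a b)
    (hb : ∀ j a b t, t < h j a b → a < 128 ∧ b < 128 ∧ t < 128) {R : Finset (T3 × T3)}
    (hR : Roots (h 0) (h 1) (h 2) R) {A : Finset ℕ} {X : ℕ → Pr} {γ η : ℕ → ℕ} {E : ℕ}
    (links : ∀ a ∈ A, ∀ j, Links (h j) (Neg (X a)))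
    (gap : ∀ a ∈ A, 0 < γ a ∧ ∀ u v, ap (X a) u v → ky u + γ a = ky v)
    (seed : ∀ a ∈ A, ∃ u v, ap (X a) u v ∧ (∃ j, ¬ ins (h j) u ∧ ins (h j) v) ∧
      (∀ b ∈ A, b ≠ a → ¬ ap (X b) u v) ∧
      ∀ G : Pr, (∀ j, Links (h j) G) → ap G u v → ∀ u' v', ap (X a) u' v' → ap G u' v')
    (E0 : 0 < E) (hE : ∀ a ∈ A, η a < 2 * E) :
    ∃ (ι : Type) (J : Finset ι) (y : ι → Ω) (ω : ι → ℕ) (f : ℕ → ι), Function.Injective f ∧
      (∀ a ∈ A, f a ∈ J) ∧ J.card ≤ R.card ∧ (∀ i, 0 < ω i) ∧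
      (∀ j u v, ∃ m, coeff v (nf j (monomial u 1)) ∈ Fil K y ω J m) ∧
      (∀ a ∈ A, ω (f a) + 4 * E = 8 * E * γ a + η a) ∧
      ∀ (j : Fin 3) (N : Pr) (g : ℕ), Links (h j) (Neg N) →
        (∀ u v, ap N u v → ky v + g + key 1 1 1 = ky u) →
        (∀ a ∈ A, ∀ b ∈ A, γ a + γ b ≠ g → coef (h j) N (X a) (X b) = 0) ∧
        ∑ a ∈ A, ∑ b ∈ A, (coef (h j) N (X a) (X b) : Ω) * (y (f a) * y (f b)) ∈
          Fil K y ω J (8 * E * g - 6 * E - 1) := by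
  classical
  obtain ⟨hL, tot⟩ := levels cube h01 h12 hN (fun j u => hh j _ _ _) fun j u e => by
    simp only [cube, mem_product, mem_range]
    exact hb j _ _ _ e
  choose! su sv s1 s2 s3 s4 using seed
  choose! sj s2 s2' using s2
  obtain ⟨z, hz⟩ : ∃ z : ℕ → Ω, ∀ a, z a = tab (nf (sj a)) (su a) (sv a) := ⟨_, fun _ => rfl⟩
  have C : Cls h (fun j => tab (nf j)) A X γ z :=
    ⟨links, gap, fun a ha b hb e u v x =>
      s4 a ha (Neg (X b)) (links b hb) (s3 a ha b hb e) u v x,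
      fun a ha => ⟨_, _, _, s1 a ha, s2 a ha, s2' a ha, hz a, s4 a ha⟩⟩
  have : ∀ r : T3 × T3, ∃ j₀, ∀ j, ¬ ins (h j) r.1 → ins (h j) r.2 →
      ¬ ins (h j₀) r.1 ∧ ins (h j₀) r.2 := fun r => by
    by_cases e : ∃ j, ¬ ins (h j) r.1 ∧ ins (h j) r.2
    · exact e.imp fun _ a _ _ _ => a
    · exact ⟨0, fun j a b => (e ⟨j, a, b⟩).elim⟩
  choose lev hlev using this
  obtain ⟨U, hU⟩ : ∃ U : Finset (T3 × T3), ∀ r, r ∈ U ↔ r ∈ R ∧ ∀ a ∈ A, ¬ ap (X a) r.1 r.2 :=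
    ⟨R.filter _, fun _ => mem_filter⟩
  have cnt := C.count hR (U := U) (fun r e => ((hU r).1 e).1) fun r e => ((hU r).1 e).2
  let y : (T3 × T3) ⊕ ℕ → Ω := Sum.elim (fun r => tab (nf (lev r)) r.1 r.2) z
  let ω : (T3 × T3) ⊕ ℕ → ℕ :=
    Sum.elim (fun r => thr E (ky r.2 - ky r.1)) fun a => thr E (γ a) + η a
  let Φ := Fil K y ω (U.disjSum A)
  have mono : ∀ {m n x}, m ≤ n → x ∈ Φ m → x ∈ Φ n := fun a b => Fil.mono a b
  have hz2 : ∀ a ∈ A, z a ∈ Φ (thr E (γ a) + (2 * E - 1)) := fun a ha =>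
    Fil.mono (by have := hE a ha; change thr E (γ a) + η a ≤ _; omega)
      (Fil.gen (i := Sum.inr a) (inr_mem_disjSum.2 ha))
  have H := lin hL tot C (Φ := Φ) Fil.mul' mono E0 hz2 hR fun r hr a j b c =>
    ⟨lev r, (hlev r j b c).1, (hlev r j b c).2,
      Fil.gen (i := Sum.inl r) (inl_mem_disjSum.2 ((hU r).2 ⟨hr, a⟩))⟩
  refine ⟨_, U.disjSum A, y, ω, Sum.inr, Sum.inr_injective, fun a ha => inr_mem_disjSum.2 ha,
    by rwa [card_disjSum], fun i => ?_, fun j u v => ?_, fun a ha => ?_, fun j N g l gN => ?_⟩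
  · rcases i with r | a
    · change 0 < thr E _
      unfold thr
      omega
    · change 0 < thr E _ + _
      unfold thr
      omega
  · rw [← mo_un u, ← mo_un v]
    generalize un u = u
    generalize un v = v
    change ∃ m, tab (nf j) u v ∈ Φ m
    by_cases l : ky u < ky v
    · exact ⟨_, C.small hL (Φ := Φ) mono hz2 (m := ky v - ky u) (by omega)
        (H _ (by omega) u v) (by omega) j⟩
    by_cases e : u = v
    · subst e
      by_cases hu : ins (h j) u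
      · rw [(hL j).fix u u hu, if_pos rfl]; exact ⟨0, Fil.one⟩
      · rw [(hL j).supp u u hu]; exact ⟨0, zero_mem _⟩
    · rw [(hL j).zero e (not_lt.1 l)]; exact ⟨0, zero_mem _⟩
  · have := thr_eq E (gap a ha).1
    change thr E (γ a) + η a + _ = _
    omega
  · have z0 : ∀ a ∈ A, ∀ b ∈ A, γ a + γ b ≠ g → coef (h j) N (X a) (X b) = 0 :=
      fun a ha b hb e => coef_zero gN (gap a ha).2 (gap b hb).2 e
    refine ⟨z0, ?_⟩
    by_cases g2 : 2 ≤ g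
    · obtain ⟨g, rfl⟩ : ∃ g', g = g' + 1 := ⟨g - 1, by omega⟩
      have t1 := thr_add E (a := g) (b := 1) (by omega) one_pos
      have t2 := thr_eq E (a := g + 1) (by omega)
      exact mono (by omega) (row_mem (hL j)
        (C.quad hL (Φ := Φ) Fil.mul' mono hz2 H (a := g) (by omega) one_pos j) l gN)
    · refine sum_mem fun a ha => sum_mem fun b hb => ?_
      have := (gap a ha).1
      have := (gap b hb).1
      rw [z0 a ha b hb (by omega), Int.cast_zero, zero_mul]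
      exact zero_mem _

end Pool.Agent.Lib.MP_ed43e6_ag.Q
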