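import Pool.Agent.Lib.MP_ed43e6_ag.Q.Tr

/-! Extension of a class of the middle level to the three levels of a flag. -/

namespace Pool.Agent.Lib.MP_ed43e6_ag.Q.Bd

open N

/-- Three staircases that differ by the boxes `u0` and `u1`; `z` is the board of the middle one. -/
structure Flag (h0 h h2 : ℕ → ℕ → ℕ) (u0 u1 : T3) (z : ℕ) : Prop where
  i0 : ∀ u, ins h0 u ↔ ins h u ∨ u = u0
  n0 : ¬ ins h u0
  i1 : ∀ u, ins h u ↔ ins h2 u ∨ u = u1
  n1 : ¬ ins h2 u1
  a0 : Anti h0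
  a1 : Anti h
  a2 : Anti h2
  b0 : Bdd h0
  isb : IsB h z
  add : (addB z).testBit (pos u0)
  del : (delB z).testBit (pos u1)

theorem ins_bump (h : ℕ → ℕ → ℕ) (p q : ℕ) (u : T3) :
    ins (bump h p q) u ↔ ins h u ∨ u = (p, q, h p q) := by
  obtain ⟨a, b, t⟩ := u
  simp only [ins, bump, Prod.mk.injEq]
  split_ifs with e
  · obtain ⟨rfl, rfl⟩ := e
    simp only [true_and]
    omega
  · tauto

theorem IsB.dig {g : ℕ → ℕ → ℕ} {z x y w : ℕ} (hz : IsB g z) (hb : Bdd g) (hy : y < 24)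
    (hw : w < 48) : z.testBit (ix x y w) ↔ 0 < x ∧ 0 < y ∧ 0 < w ∧ w - 1 < g (x - 1) (y - 1) := by
  rw [hz]
  constructor
  · rintro ⟨a, b, t, e, l⟩
    have := hb a b t l
    unfold ix at e
    obtain ⟨rfl, rfl, rfl⟩ : x = a + 1 ∧ y = b + 1 ∧ w = t + 1 := by omega
    exact ⟨Nat.succ_pos _, Nat.succ_pos _, Nat.succ_pos _, l⟩
  · rintro ⟨a, b, c, d⟩
    exact ⟨x - 1, y - 1, w - 1, by unfold ix; omega, d⟩

theorem le_bump (h : ℕ → ℕ → ℕ) (p q a b : ℕ) : h a b ≤ bump h p q a b := by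
  unfold bump
  split_ifs <;> omega

theorem add_bit {h : ℕ → ℕ → ℕ} {p q z : ℕ} (B : Bor (bump h p q)) (hb : Bdd (bump h p q))
    (hz : IsB h z) : (addB z).testBit (pos (p, q, h p q)) := by
  have c1 : ∀ x < 6, ∀ y < 10, col1.testBit (ix (x + 1) (y + 1) (0 + 1)) := by decide +kernel
  have c2 : ∀ y < 10, ∀ w < 22, faceA.testBit (ix (0 + 1) (y + 1) (w + 1)) := by decide +kernel
  have c3 : ∀ x < 6, ∀ w < 22, faceB.testBit (ix (x + 1) (0 + 1) (w + 1)) := by decide +kernel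
  have hb' : Bdd h := fun a b t e => hb a b t (e.trans_le (le_bump ..))
  have e0 : bump h p q p q = h p q + 1 := if_pos ⟨rfl, rfl⟩
  have l := hb p q (h p q) (by omega)
  refine bit_and.2 ⟨bit_and.2 ⟨bit_andn.2 ⟨bit_or.2 ?_, ?_⟩, bit_or.2 ?_⟩, bit_or.2 ?_⟩
  · rcases Nat.eq_zero_or_pos (h p q) with e | e
    · rw [e]
      exact Or.inr (c1 p l.1 q l.2.1)
    · refine Or.inl ((bit_shl' (i := ix (p + 1) (q + 1) (h p q)) rfl).2 ?_)
      rw [hz.dig hb' (by omega) (by omega), Nat.add_sub_cancel, Nat.add_sub_cancel]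
      omega
  · rw [hz.iff hb' (by simp only; omega) (by simp only; omega)]
    exact lt_irrefl _
  · cases p with
    | zero => exact Or.inr (c2 q l.2.1 _ l.2.2)
    | succ p =>
      refine Or.inl ((bit_shl' (i := pos (p, q + 1, h (p + 1) q))
        (by simp only [pos, ix]; omega)).2 (hz.pos ?_))
      have := B.2 p q
      rw [e0, bump, if_neg (by omega)] at this
      exact this
  · cases q with
    | zero => exact Or.inr (c3 p l.1 _ l.2.2)
    | succ q =>
      refine Or.inl ((bit_shl' (i := pos (p, q, h p (q + 1) + 1))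
        (by simp only [pos, ix]; omega)).2 (hz.pos ?_))
      have := B.1 p q
      rw [e0, bump, if_neg (by omega)] at this
      change h p (q + 1) + 1 < h p q
      omega

theorem del_bit {h : ℕ → ℕ → ℕ} {a b z : ℕ} (B : Bor h) (hb : Bdd (bump h a b))
    (hz : IsB (bump h a b) z) : (delB z).testBit (pos (a, b, h a b)) := by
  have e0 : bump h a b a b = h a b + 1 := if_pos ⟨rfl, rfl⟩
  have l := hb a b (h a b) (by omega)
  refine bit_andn.2 ⟨bit_andn.2 ⟨bit_andn.2 ⟨hz.pos ?_, ?_⟩, ?_⟩, ?_⟩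
  · change h a b < bump h a b a b
    omega
  · rw [bit_shr, show pos (a, b, h a b) + 1 = ix (a + 1) (b + 1) (h a b + 2) from rfl,
      hz.dig hb (by omega) (by omega), Nat.add_sub_cancel, Nat.add_sub_cancel]
    omega
  · rw [bit_shr, show pos (a, b, h a b) + 1104 = ix (a + 1 + 1) b (h a b + 1) by
      simp only [pos, ix]; omega, hz.dig hb (by omega) (by omega), Nat.add_sub_cancel,
      Nat.add_sub_cancel, bump, if_neg (by omega)]
    rintro ⟨-, x, -, y⟩
    have := B.2 a (b - 1)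
    rw [Nat.sub_add_cancel x] at this
    omega
  · rw [bit_shr, show pos (a, b, h a b) + 47 = ix (a + 1) (b + 1 + 1) (h a b) by
      simp only [pos, ix]; omega, hz.dig hb (by omega) (by omega), Nat.add_sub_cancel,
      Nat.add_sub_cancel, bump, if_neg (by omega)]
    have := B.1 a b
    omega

theorem flag_of {h0 h h2 : ℕ → ℕ → ℕ} {p0 q0 a1 b1 z : ℕ} (e0 : h0 = bump h p0 q0)
    (e1 : h = bump h2 a1 b1) (B0 : Bor h0) (B1 : Bor h) (B2 : Bor h2) (hb : Bdd h0)
    (hz : IsB h z) : Flag h0 h h2 (p0, q0, h p0 q0) (a1, b1, h2 a1 b1) z := by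
  subst e0
  have hb' : Bdd h := fun a b t e => hb a b t (e.trans_le (le_bump ..))
  exact ⟨ins_bump _ _ _, lt_irrefl _, fun u => by rw [e1]; exact ins_bump _ _ _ u, lt_irrefl _,
    anti_of_bor B0, anti_of_bor B1, anti_of_bor B2, hb, hz, add_bit B0 hb hz,
    del_bit B2 (e1 ▸ hb') (e1 ▸ hz)⟩

/-- The class with board `X` together with the new pairs of the two other levels. -/
def XC (u0 u1 : T3) (da db dt X : ℕ) : Pr := cur fun u v =>
  ap (PB da db dt X) u v ∨ Dl da db dt u v ∧ ((sp X).testBit (pos u0) ∧ v = u0 ∨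
    (sm (ush X (code da db dt))).testBit (pos u1) ∧ u = u1)

/-- The class survives at the two other levels. -/
structure Alive (u0 u1 : T3) (z da db dt X : ℕ) : Prop where
  a0 : (sp X).testBit (pos u0) → ¬ (sp (andn (oo z da db dt) X)).testBit (pos u0)
  a2 : (sm (ush X (code da db dt))).testBit (pos u1) →
    ¬ (sm (Nat.xor (ush z (code da db dt)) (ush X (code da db dt)))).testBit (pos u1) ∧
      (ush z (code da db dt)).testBit (pos u1)

variable {h0 h h2 : ℕ → ℕ → ℕ} {u0 u1 u v : T3} {z da db dt X : ℕ}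

theorem ap_XC : ap (XC u0 u1 da db dt X) u v ↔ ap (PB da db dt X) u v ∨
    Dl da db dt u v ∧ ((sp X).testBit (pos u0) ∧ v = u0 ∨
      (sm (ush X (code da db dt))).testBit (pos u1) ∧ u = u1) := Iff.rfl

theorem XC_dl (a : ap (XC u0 u1 da db dt X) u v) : Dl da db dt u v :=
  (ap_XC.1 a).elim (fun b => (ap_PB.1 b).1) fun b => b.1

theorem stp_ne (i : Fin 3) (u : T3) : stp i u ≠ u := fun e => by
  have := pos_stp i u
  rw [e] at this
  fin_cases i <;> simp [ee] at this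

theorem ky_lt (i : Fin 3) (u : T3) : ky u < ky (stp i u) := by
  rw [ky_stp]
  fin_cases i <;> simp [kp]

namespace Flag

variable (F : Flag h0 h h2 u0 u1 z)
include F

theorem b1 : Bdd h := fun a b t e => F.b0.lt (v := (a, b, t)) ((F.i0 _).2 (Or.inl e))

theorem in0 : ins h0 u0 := (F.i0 _).2 (Or.inr rfl)

theorem in1 : ins h u1 := (F.i1 _).2 (Or.inr rfl)

theorem out1 (i : Fin 3) : ¬ ins h (stp i u1) := fun e =>
  ((F.i1 _).1 e).elim (fun a => F.n1 (F.a2 i _ a)) (stp_ne i u1)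

theorem act (hu : ¬ ins h u) (hv : ins h v) :
    ap (XC u0 u1 da db dt X) u v ↔ ap (PB da db dt X) u v := by
  refine ⟨fun a => ?_, Or.inl⟩
  rcases ap_XC.1 a with a | ⟨-, ⟨-, rfl⟩ | ⟨-, rfl⟩⟩
  exacts [a, (F.n0 hv).elim, (hu F.in1).elim]

theorem at0 (A : Act z da db dt X) (hu : ¬ ins h u) :
    ap (XC u0 u1 da db dt X) u u0 ↔ Dl da db dt u u0 ∧ (sp X).testBit (pos u0) := by
  refine ⟨fun a => ?_, fun a => Or.inr ⟨a.1, Or.inl ⟨a.2, rfl⟩⟩⟩
  rcases ap_XC.1 a with a | ⟨a, ⟨b, -⟩ | ⟨-, rfl⟩⟩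
  · obtain ⟨-, a1, a2, a3⟩ := ap_PB.1 a
    exact (F.n0 ((F.isb.iff F.b1 (by omega) (by omega)).1 (A.s.right _ a3))).elim
  · exact ⟨a, b⟩
  · exact (hu F.in1).elim

theorem at1 (A : Act z da db dt X) (hv : ins h v) : ap (XC u0 u1 da db dt X) u1 v ↔
    Dl da db dt u1 v ∧ (sm (ush X (code da db dt))).testBit (pos u1) := by
  refine ⟨fun a => ?_, fun a => Or.inr ⟨a.1, Or.inr ⟨a.2, rfl⟩⟩⟩
  rcases ap_XC.1 a with a | ⟨a, ⟨-, rfl⟩ | ⟨b, -⟩⟩
  · obtain ⟨d, a⟩ := (ap_PB' F.b1 hv).1 a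
    have := F.b1.lt hv
    obtain ⟨u, c, e⟩ := (oo_pos F.isb F.b1 A.b A.t (by omega)).1 (A.s.left _ a)
    exact (e (c.left d ▸ F.in1)).elim
  · exact (F.n0 hv).elim
  · exact ⟨a, b⟩

theorem links (A : Act z da db dt X) (hc : ∀ k, Cl1 (lk z (oo z da db dt) (ee k)) (ee k) X)
    (L : Alive u0 u1 z da db dt X) (j : Fin 3) :
    Links (![h0, h, h2] j) (Neg (XC u0 u1 da db dt X)) := by
  obtain ⟨l1, l2⟩ := (links_iff _ _).1
    (links_of_closed F.isb F.b1 F.a1 A.b A.t hc F.isb F.b1 A.s.right)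
  have m1 : ∀ i u v, ¬ ins h u → ins h (stp i v) → (ap (Neg (XC u0 u1 da db dt X)) u v ↔
      ap (Neg (XC u0 u1 da db dt X)) (stp i u) (stp i v)) := fun i u v hu hv =>
    ((not_congr (F.act hu (F.a1 i v hv))).trans (l1 i u v hu hv)).trans
      (not_congr (F.act (mt (F.a1 i u) hu) hv)).symm
  have m2 : ∀ i u v, ¬ ins h u → ins h v → (∀ m, stp i m ≠ v) →
      ap (Neg (XC u0 u1 da db dt X)) (stp i u) v := fun i u v hu hv h0 a =>
    l2 i u v hu hv h0 ((F.act (mt (F.a1 i u) hu) hv).1 a)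
  have b0 := F.b0.lt F.in0
  have xo : (sp X).testBit (pos u0) → ∀ k i, pos u0 = i + ee k → (oo z da db dt).testBit i →
      X.testBit i := fun t k i e o =>
    not_not.1 fun n => L.a0 t (bit_sp.2 ⟨k, i, e, bit_andn.2 ⟨o, n⟩⟩)
  fin_cases j
  · refine (links_iff h0 _).2 ⟨fun i u v hu hv => ?_, fun i u v hu hv k0 a => ?_⟩
    · have hu' : ¬ ins h u := fun e => hu ((F.i0 u).2 (Or.inl e))
      rcases (F.i0 _).1 hv with hv' | e
      · exact m1 i u v hu' hv'
      have hv0 : ins h v := ((F.i0 v).1 (F.a0 i v hv)).resolve_right fun x => stp_ne i v (e.trans x.symm)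
      have := F.b1.lt hv0
      have p : pos u0 = pos v + ee i := by rw [← e, pos_stp]
      refine not_congr (((F.act hu' hv0).trans (ap_PB' F.b1 hv0)).trans ?_)
      change _ ↔ ap (XC u0 u1 da db dt X) (stp i u) (stp i v)
      rw [← Dl.stp i, e, F.at0 A (mt (F.a1 i u) hu')]
      exact and_congr_right fun d => ⟨fun x => bit_sp.2 ⟨i, _, p, x⟩, fun t => xo t i _ p
        ((oo_pos F.isb F.b1 A.b A.t (by omega)).2 ⟨u, (Dl.stp i).1 (e ▸ d), hu'⟩)⟩
    · have hu' : ¬ ins h u := fun e => hu ((F.i0 u).2 (Or.inl e))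
      rcases (F.i0 _).1 hv with hv' | rfl
      · exact m2 i u v hu' hv' k0 a
      obtain ⟨d, t⟩ := (F.at0 A (mt (F.a1 i u) hu')).1 a
      obtain ⟨p, e, o⟩ := oo_below F.isb F.b1 A.b A.t (by omega) d hu'
      obtain ⟨m, -, -, r⟩ := F.isb.below F.b1 (A.s.right _ (xo t i p e o)) e (by omega) (by omega)
      exact k0 m r
  · exact (links_iff h _).2 ⟨m1, m2⟩
  · refine (links_iff h2 _).2 ⟨fun i u v hu hv => ?_, fun i u v hu hv k0 a => ?_⟩
    · have hv' : ins h (stp i v) := (F.i1 _).2 (Or.inl hv)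
      by_cases hu' : ins h u
      · obtain rfl : u = u1 := ((F.i1 u).1 hu').resolve_left hu
        refine not_congr ((F.at1 A (F.a1 i v hv')).trans ?_)
        change _ ↔ ap (XC u0 u da db dt X) (stp i u) (stp i v)
        rw [F.act (F.out1 i) hv', ap_PB' F.b1 hv', Dl.stp]
        refine and_congr_right fun d => ?_
        have p : pos (stp i v) + 8615 = pos u + ee i + code da db dt := by
          have := d.pos
          rw [pos_stp]
          omega
        refine ⟨fun t => (bit_ush' p).1 ?_, fun x => bit_sm.2 ⟨i, (bit_ush' p).2 x⟩⟩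
        exact (not_not.1 fun n => (L.a2 t).1 (bit_sm.2 ⟨i, bit_xor.2 n⟩)).1
          ((bit_ush' p).2 (F.isb.pos hv'))
      · exact m1 i u v hu' hv'
    · have hv' : ins h v := (F.i1 _).2 (Or.inl hv)
      by_cases hu' : ins h u
      · obtain rfl : u = u1 := ((F.i1 u).1 hu').resolve_left hu
        obtain ⟨d, x⟩ := (ap_PB' F.b1 hv').1 ((F.act (F.out1 i) hv').1 a)
        have p := d.pos
        rw [pos_stp] at p
        obtain ⟨s1, s2⟩ := bit_ush.1 (L.a2 (bit_sm.2 ⟨i, (bit_ush' p.symm).2 x⟩)).2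
        have := F.b1.lt hv'
        obtain ⟨m, -, -, r⟩ := F.isb.below F.b1 (k := i) (v := v) s2 (by omega) (by omega) (by omega)
        exact k0 m r
      · exact m2 i u v hu' hv' k0 a

theorem conn (A : Act z da db dt X) (hg : 676120 ≤ key da db dt) {G : Pr}
    (hG : ∀ j, Links (![h0, h, h2] j) G) (H : ∀ u v, ap (PB da db dt X) u v → ap G u v) (u v : T3)
    (a : ap (XC u0 u1 da db dt X) u v) : ap G u v := by
  rcases ap_XC.1 a with a | ⟨d, ⟨t, rfl⟩ | ⟨t, rfl⟩⟩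
  · exact H u v a
  · obtain ⟨k, i, e, x⟩ := bit_sp.1 t
    obtain ⟨u', v', rfl, iv, d', nu⟩ := A.ex F.isb F.b1 x
    have := F.b0.lt F.in0
    have := F.b1.lt iv
    have := stp_le k v'
    have r : stp k v' = v := pos_inj (by rw [pos_stp, e]) (by omega) (by omega) (by omega) (by omega)
    have l := ky_lt k v'
    have l' := d'.ky
    rw [d.left (r ▸ (Dl.stp k).2 d'), ← r]
    refine (((links_iff h0 _).1 (hG 0)).1 k u' v' (fun n => ?_) (r ▸ F.in0)).1
      (H _ _ ((ap_PB' F.b1 iv).2 ⟨d', x⟩))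
    rcases (F.i0 _).1 n with n | n
    · exact nu n
    · rw [r, ← n] at l
      omega
  · obtain ⟨k, x⟩ := bit_sm.1 t
    have p := d.pos
    rw [bit_ush' (i := pos (stp k v)) (by rw [pos_stp]; omega)] at x
    have := F.b1.lt F.in1
    have := stp_le k v
    have := A.b
    have := A.t
    have iv : ins h (stp k v) := (F.isb.iff F.b1 (by have := d.2.1; omega)
      (by have := d.2.2; omega)).1 (A.s.right _ x)
    have l := ky_lt k v
    have l' := d.ky
    refine (((links_iff h2 _).1 (hG 2)).1 k u v F.n1 (((F.i1 _).1 iv).resolve_right fun n => ?_)).2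
      (H _ _ ((ap_PB' F.b1 iv).2 ⟨(Dl.stp k).2 d, x⟩))
    rw [n] at l
    omega

theorem alive {w : ℕ} (d0 : ¬ (dead0 z w).testBit (pos u0)) (d2 : ¬ (dead2 z w).testBit (pos u1)) :
    Alive u0 u1 z (fda w) (fdb w) (fdt w) (fX z w) := by
  have ne : ∀ {x i : ℕ}, x.testBit i → Nat.beq x 0 = false := fun {x i} a =>
    Bool.eq_false_iff.2 fun e => by
      rw [Nat.eq_of_beq_eq_true e, Nat.zero_testBit] at a
      exact Bool.noConfusion a
  refine ⟨fun t n => d0 ?_, fun t => ?_⟩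
  · have a := bit_and.2 ⟨t, F.add⟩
    rw [dead0, ne a]
    exact bit_and.2 ⟨a, n⟩
  · have a : (Nat.land (sm (fU z w)) (delB z)).testBit (pos u1) := bit_and.2 ⟨t, F.del⟩
    rw [dead2, ne a] at d2
    exact ⟨fun n => d2 (bit_or.2 (Or.inl (bit_and.2 ⟨a, n⟩))),
      not_not.1 fun n => d2 (bit_or.2 (Or.inr (bit_andn.2 ⟨a, n⟩)))⟩

end Flag

end Pool.Agent.Lib.MP_ed43e6_ag.Q.Bd
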