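import Pool.Agent.Lib.MP_ed43e6_ag.Q.Fo

/-! The first order checker with raw literals and unfolded definitions. -/

namespace Pool.Agent.Lib.MP_ed43e6_ag.Q

noncomputable section

namespace F2

set_option linter.unusedVariables false

open Fo (o g c47 c46 full cX cY mE mQ mR cD w1 w0 oB sp cF o1 o2 o4 bG bH b47 mL cP m1 m0 c0)

abbrev HK := Nat → Nat → Nat → Nat → Nat → Nat → Nat → Bool

def tsG (g d : Nat) : Nat :=
  Nat.land d (Nat.sub (Nat.land d g) (Nat.shiftRight (Nat.land d g) (nat_lit 11)))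
def geG (g d : Nat) : Nat := Nat.shiftRight (Nat.land d g) (nat_lit 11)
def mnG (g x y : Nat) : Nat := Nat.sub x (tsG g (Nat.sub x y))
def hn (S N H : Nat) : Nat :=
  Nat.land (Nat.shiftRight H (nat_lit 12)) (mQ S N)
def ey (S N H : Nat) : Nat :=
  Nat.sub H (hn S N H)
def dx (S N H : Nat) : Nat :=
  Nat.sub (Nat.add (Nat.land (Nat.shiftLeft H (w1 S)) (full N)) (cX S)) H
def dy (S N H : Nat) : Nat :=
  Nat.sub (Nat.add (Nat.shiftLeft H (nat_lit 12)) (cY S N)) H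
def dz (S N H : Nat) : Nat :=
  Nat.sub (Nat.add (Nat.land (Nat.shiftLeft H (w0 S)) (mQ S N)) (cX S)) H
def gg (S N H : Nat) : Nat :=
  Nat.sub (mnG (g N) (Nat.add (dx S N H) (g N)) (dy S N H)) (g N)
def zg (S N H : Nat) : Nat :=
  geG (g N) (Nat.add (gg S N H) (c47 N))
def cnt (S N H : Nat) : Nat :=
  Nat.mod (Nat.add (zg S N H) (geG (g N) (Nat.add H (c47 N)))) (nat_lit 4095)
def spr (N v : Nat) : Nat :=
  Nat.land (Nat.mul v (sp N)) (mL N)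
def x0 (N H : Nat) : Nat :=
  Nat.mul (spr N H) (o N)
def x1 (S N H : Nat) : Nat :=
  Nat.land (Nat.shiftRight (x0 N H) (w1 N)) (m1 S N)
def ge (S N H : Nat) : Nat :=
  Nat.mul (Nat.sub (g N) (ey S N H)) (oB N)
def du (S N H : Nat) : Nat :=
  Nat.add (x1 S N H) (ge S N H)
def uu (S N H : Nat) : Nat :=
  tsG (bG N) (du S N H)
def zz (S N H : Nat) : Nat :=
  Nat.mul (Nat.add (dz S N H) (g N)) (oB N)
def eb (S N H : Nat) : Nat :=
  Nat.sub (x0 N H) (x1 S N H)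
def t3 (S N H : Nat) : Nat :=
  Nat.add (mnG (bG N) (zz S N H) (uu S N H)) (eb S N H)
def d0 (S N H : Nat) : Nat :=
  Nat.sub (Nat.add (x0 N H) (cP S N)) (Nat.mul H (oB N))
def gb (S N H : Nat) : Nat :=
  Nat.mul (gg S N H) (oB N)
def r1 (S N H : Nat) : Nat :=
  mnG (bG N) (mnG (bG N) (t3 S N H) (tsG (bG N) (d0 S N H))) (gb S N H)
def s0 (S N H : Nat) : Nat :=
  Nat.mod (Nat.sub (r1 S N H) (bG N)) (nat_lit 4095)
def hz (S N H n vx0 vx1 vge veb vr1 : Nat) : Nat :=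
  Nat.sub (Nat.add (Nat.add (Nat.land (Nat.shiftLeft H (w0 (Nat.pred S))) (mR S N)) (cX S)) (g N))
    H
def rx (S N H n vx0 vx1 vge veb vr1 : Nat) : Nat :=
  Nat.add (Nat.land (Nat.sub vx0 (Nat.shiftRight vx0 (Nat.mul (w1 N) S))) (m0 S N)) (c0 S N)
def x2 (S N H n vx0 vx1 vge veb vr1 : Nat) : Nat :=
  Nat.land (Nat.shiftRight vx1 (w1 N)) (m1 S N)
def ya (S N H n vx0 vx1 vge veb vr1 : Nat) : Nat :=
  Nat.add veb (tsG (bG N) (Nat.add (Nat.sub vx1 (x2 S N H n vx0 vx1 vge veb vr1)) vge))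
def ry (S N H n vx0 vx1 vge veb vr1 : Nat) : Nat :=
  Nat.add (ya S N H n vx0 vx1 vge veb vr1) (tsG (bG N) (Nat.sub (Nat.add (Nat.sub vx0 (x2 S N H n
    vx0 vx1 vge veb vr1)) (Nat.mul (hz S N H n vx0 vx1 vge veb vr1) (oB N))) (ya S N H n vx0 vx1
    vge veb vr1)))
def rg (S N H n vx0 vx1 vge veb vr1 : Nat) : Nat :=
  mnG (bG N) (mnG (bG N) vr1 (rx S N H n vx0 vx1 vge veb vr1)) (ry S N H n vx0 vx1 vge veb vr1)
def rm (S N H n vx0 vx1 vge veb vr1 : Nat) : Nat :=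
  Nat.sub (rg S N H n vx0 vx1 vge veb vr1) (bG N)
def s1 (S N H n vx0 vx1 vge veb vr1 : Nat) : Nat :=
  Nat.mod (rm S N H n vx0 vx1 vge veb vr1) (nat_lit 4095)
def ad (S N H n vx0 vgb vdx vdy vdz vey vhn vt3 vuu vzz vdu vd0 vzg vrg vrm vs1 : Nat) : Nat :=
  Nat.shiftRight (Nat.land (Nat.add vdy (c46 N)) (Nat.land (Nat.add vdz (c47 N)) (g N))) (nat_lit
    2)
def dl1 (S N H n vx0 vgb vdx vdy vdz vey vhn vt3 vuu vzz vdu vd0 vzg vrg vrm vs1 : Nat) : Nat :=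
  Nat.land (Nat.add (Nat.sub H (Nat.land (Nat.shiftRight H (w0 S)) (mE S N))) (c47 N)) (g N)
def dl (S N H n vx0 vgb vdx vdy vdz vey vhn vt3 vuu vzz vdu vd0 vzg vrg vrm vs1 : Nat) : Nat :=
  Nat.shiftRight (Nat.lor (Nat.land (Nat.add vey (c46 N)) (dl1 S N H n vx0 vgb vdx vdy vdz vey vhn
    vt3 vuu vzz vdu vd0 vzg vrg vrm vs1)) (Nat.land (Nat.sub (g N) vhn) (dl1 S N H n vx0 vgb vdx
    vdy vdz vey vhn vt3 vuu vzz vdu vd0 vzg vrg vrm vs1))) (nat_lit 2)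
def bs (N v : Nat) : Nat :=
  Nat.land (Nat.shiftRight (Nat.mul v (o N)) (w0 N)) (mL N)
def nz (S N H n vx0 vgb vdx vdy vdz vey vhn vt3 vuu vzz vdu vd0 vzg vrg vrm vs1 : Nat) : Nat :=
  Nat.land (Nat.add vrm (b47 N)) (bG N)
def gA (S N H n vx0 vgb vdx vdy vdz vey vhn vt3 vuu vzz vdu vd0 vzg vrg vrm vs1 : Nat) : Nat :=
  geG (nz S N H n vx0 vgb vdx vdy vdz vey vhn vt3 vuu vzz vdu vd0 vzg vrg vrm vs1) (Nat.sub vrg
    vgb)
def gX (S N H n vx0 vgb vdx vdy vdz vey vhn vt3 vuu vzz vdu vd0 vzg vrg vrm vs1 : Nat) : Nat :=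
  geG (nz S N H n vx0 vgb vdx vdy vdz vey vhn vt3 vuu vzz vdu vd0 vzg vrg vrm vs1) (Nat.sub vrg
    (Nat.mul vdx (oB N)))
def gY (S N H n vx0 vgb vdx vdy vdz vey vhn vt3 vuu vzz vdu vd0 vzg vrg vrm vs1 : Nat) : Nat :=
  geG (nz S N H n vx0 vgb vdx vdy vdz vey vhn vt3 vuu vzz vdu vd0 vzg vrg vrm vs1) (Nat.sub vrg
    (Nat.mul vdy (oB N)))
def e3 (S N H n vx0 vgb vdx vdy vdz vey vhn vt3 vuu vzz vdu vd0 vzg vrg vrm vs1 : Nat) : Nat :=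
  Nat.land (Nat.sub (Nat.add vrg (bG N)) vt3) (nz S N H n vx0 vgb vdx vdy vdz vey vhn vt3 vuu vzz
    vdu vd0 vzg vrg vrm vs1)
def gZ (S N H n vx0 vgb vdx vdy vdz vey vhn vt3 vuu vzz vdu vd0 vzg vrg vrm vs1 : Nat) : Nat :=
  geG (e3 S N H n vx0 vgb vdx vdy vdz vey vhn vt3 vuu vzz vdu vd0 vzg vrg vrm vs1) (Nat.sub
    (Nat.add vuu (bH N)) vzz)
def gP (S N H n vx0 vgb vdx vdy vdz vey vhn vt3 vuu vzz vdu vd0 vzg vrg vrm vs1 : Nat) : Nat :=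
  Nat.shiftRight (Nat.sub (e3 S N H n vx0 vgb vdx vdy vdz vey vhn vt3 vuu vzz vdu vd0 vzg vrg vrm
    vs1) (Nat.land vdu (e3 S N H n vx0 vgb vdx vdy vdz vey vhn vt3 vuu vzz vdu vd0 vzg vrg vrm
    vs1))) (nat_lit 11)
def gB (S N H n vx0 vgb vdx vdy vdz vey vhn vt3 vuu vzz vdu vd0 vzg vrg vrm vs1 : Nat) : Nat :=
  Nat.lor (gZ S N H n vx0 vgb vdx vdy vdz vey vhn vt3 vuu vzz vdu vd0 vzg vrg vrm vs1) (gP S N H n
    vx0 vgb vdx vdy vdz vey vhn vt3 vuu vzz vdu vd0 vzg vrg vrm vs1)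
def a0 (S N H n vx0 vgb vdx vdy vdz vey vhn vt3 vuu vzz vdu vd0 vzg vrg vrm vs1 : Nat) : Nat :=
  Nat.add (gA S N H n vx0 vgb vdx vdy vdz vey vhn vt3 vuu vzz vdu vd0 vzg vrg vrm vs1)
    (Nat.shiftLeft (gB S N H n vx0 vgb vdx vdy vdz vey vhn vt3 vuu vzz vdu vd0 vzg vrg vrm vs1)
    (w1 N))
def xy (S N H n vx0 vgb vdx vdy vdz vey vhn vt3 vuu vzz vdu vd0 vzg vrg vrm vs1 : Nat) : Nat :=
  Nat.add (Nat.shiftRight (gX S N H n vx0 vgb vdx vdy vdz vey vhn vt3 vuu vzz vdu vd0 vzg vrg vrm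
    vs1) (w1 S)) (Nat.shiftRight (gY S N H n vx0 vgb vdx vdy vdz vey vhn vt3 vuu vzz vdu vd0 vzg
    vrg vrm vs1) (nat_lit 12))
def pz (S N H n vx0 vgb vdx vdy vdz vey vhn vt3 vuu vzz vdu vd0 vzg vrg vrm vs1 : Nat) : Nat :=
  Nat.add (gP S N H n vx0 vgb vdx vdy vdz vey vhn vt3 vuu vzz vdu vd0 vzg vrg vrm vs1)
    (Nat.shiftRight (gZ S N H n vx0 vgb vdx vdy vdz vey vhn vt3 vuu vzz vdu vd0 vzg vrg vrm vs1)
    (w0 S))
def ov (S N H n vx0 vgb vdx vdy vdz vey vhn vt3 vuu vzz vdu vd0 vzg vrg vrm vs1 : Nat) : Nat :=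
  Nat.add (Nat.add (Nat.add (xy S N H n vx0 vgb vdx vdy vdz vey vhn vt3 vuu vzz vdu vd0 vzg vrg
    vrm vs1) (Nat.land (gP S N H n vx0 vgb vdx vdy vdz vey vhn vt3 vuu vzz vdu vd0 vzg vrg vrm
    vs1) (gA S N H n vx0 vgb vdx vdy vdz vey vhn vt3 vuu vzz vdu vd0 vzg vrg vrm vs1)))
    (Nat.shiftRight (Nat.land (gZ S N H n vx0 vgb vdx vdy vdz vey vhn vt3 vuu vzz vdu vd0 vzg vrg
    vrm vs1) (gA S N H n vx0 vgb vdx vdy vdz vey vhn vt3 vuu vzz vdu vd0 vzg vrg vrm vs1)) (w0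
    S))) (Nat.shiftLeft (Nat.add (Nat.add (pz S N H n vx0 vgb vdx vdy vdz vey vhn vt3 vuu vzz vdu
    vd0 vzg vrg vrm vs1) (Nat.shiftRight (Nat.land (gX S N H n vx0 vgb vdx vdy vdz vey vhn vt3 vuu
    vzz vdu vd0 vzg vrg vrm vs1) (gB S N H n vx0 vgb vdx vdy vdz vey vhn vt3 vuu vzz vdu vd0 vzg
    vrg vrm vs1)) (w1 S))) (Nat.shiftRight (Nat.land (gY S N H n vx0 vgb vdx vdy vdz vey vhn vt3
    vuu vzz vdu vd0 vzg vrg vrm vs1) (gB S N H n vx0 vgb vdx vdy vdz vey vhn vt3 vuu vzz vdu vd0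
    vzg vrg vrm vs1)) (nat_lit 12))) (w1 N))
def eB (S N H n vx0 vgb vdx vdy vdz vey vhn vt3 vuu vzz vdu vd0 vzg vrg vrm vs1 : Nat) : Nat :=
  Nat.land (geG (bG N) vd0) (Nat.mul vzg (oB N))
def eC (S N H n vx0 vgb vdx vdy vdz vey vhn vt3 vuu vzz vdu vd0 vzg vrg vrm vs1 : Nat) : Nat :=
  geG (Nat.land (Nat.add vx0 (b47 N)) (bG N)) vd0
def col (S N H n vx0 vgb vdx vdy vdz vey vhn vt3 vuu vzz vdu vd0 vzg vrg vrm vs1 : Nat) : Nat :=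
  Nat.mul (Nat.add (bs N (Nat.sub (Nat.add (eB S N H n vx0 vgb vdx vdy vdz vey vhn vt3 vuu vzz vdu
    vd0 vzg vrg vrm vs1) (o2 N)) (a0 S N H n vx0 vgb vdx vdy vdz vey vhn vt3 vuu vzz vdu vd0 vzg
    vrg vrm vs1))) (spr N (ad S N H n vx0 vgb vdx vdy vdz vey vhn vt3 vuu vzz vdu vd0 vzg vrg vrm
    vs1))) (o N)
def kk (S N H n vx0 vgb vdx vdy vdz vey vhn vt3 vuu vzz vdu vd0 vzg vrg vrm vs1 : Nat) : Nat :=
  Nat.sub (Nat.add vs1 (nat_lit 1026)) (Nat.add (Nat.mul (nat_lit 3) n) (Nat.mul (nat_lit 6) N))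
def row (S N H n vx0 vgb vdx vdy vdz vey vhn vt3 vuu vzz vdu vd0 vzg vrg vrm vs1 : Nat) : Nat :=
  Nat.mul (Nat.add (Nat.add (Nat.mod (Nat.sub (Nat.add (eC S N H n vx0 vgb vdx vdy vdz vey vhn vt3
    vuu vzz vdu vd0 vzg vrg vrm vs1) (o4 N)) (Nat.add (xy S N H n vx0 vgb vdx vdy vdz vey vhn vt3
    vuu vzz vdu vd0 vzg vrg vrm vs1) (pz S N H n vx0 vgb vdx vdy vdz vey vhn vt3 vuu vzz vdu vd0
    vzg vrg vrm vs1))) (cF N)) (dl S N H n vx0 vgb vdx vdy vdz vey vhn vt3 vuu vzz vdu vd0 vzg vrg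
    vrm vs1)) (Nat.mul (o N) (kk S N H n vx0 vgb vdx vdy vdz vey vhn vt3 vuu vzz vdu vd0 vzg vrg
    vrm vs1))) (oB N)
def dd (S N H n vx0 vgb vdx vdy vdz vey vhn vt3 vuu vzz vdu vd0 vzg vrg vrm vs1 : Nat) : Nat :=
  tsG (bG N) (Nat.add (Nat.add (col S N H n vx0 vgb vdx vdy vdz vey vhn vt3 vuu vzz vdu vd0 vzg
    vrg vrm vs1) (row S N H n vx0 vgb vdx vdy vdz vey vhn vt3 vuu vzz vdu vd0 vzg vrg vrm vs1))
    (ov S N H n vx0 vgb vdx vdy vdz vey vhn vt3 vuu vzz vdu vd0 vzg vrg vrm vs1))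
def cc (S N H n vx0 vgb vdx vdy vdz vey vhn vt3 vuu vzz vdu vd0 vzg vrg vrm vs1 : Nat) : Nat :=
  Nat.add (Nat.mul (bs N (eB S N H n vx0 vgb vdx vdy vdz vey vhn vt3 vuu vzz vdu vd0 vzg vrg vrm
    vs1)) (o N)) (Nat.mul (Nat.add (Nat.mod (eC S N H n vx0 vgb vdx vdy vdz vey vhn vt3 vuu vzz
    vdu vd0 vzg vrg vrm vs1) (cF N)) (Nat.mul (o N) vs1)) (oB N))
def tC (hook : HK) (S N H n vx0 vgb vdx vdy vdz vey vhn vt3 vuu vzz vdu vd0 vzg vrg vrm vs1 : Nat)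
  : Bool :=
  Bool.rec false (Bool.rec (hook S N n H (dd S N H n vx0 vgb vdx vdy vdz vey vhn vt3 vuu vzz vdu
    vd0 vzg vrg vrm vs1) (cc S N H n vx0 vgb vdx vdy vdz vey vhn vt3 vuu vzz vdu vd0 vzg vrg vrm
    vs1) vrm) true (Nat.beq (dd S N H n vx0 vgb vdx vdy vdz vey vhn vt3 vuu vzz vdu vd0 vzg vrg
    vrm vs1) (nat_lit 0))) (Nat.ble vs1 (nat_lit 1000))
def uC : {f // f = tC} :=
  ⟨_, by
    delta tC cc dd row kk col eC eB ov pz xy a0 gB gP gZ e3 gY gX gA nz bs dl dl1 ad spr mnG geG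
      tsG
    rfl⟩
def tB (hook : HK) (S N H n vx0 vx1 vge veb vr1 vcnt vgb vdx vdy vdz vey vhn vt3 vuu vzz vdu vd0
  vzg : Nat) : Bool :=
  Bool.rec (uC.1 hook S N H n vx0 vgb vdx vdy vdz vey vhn vt3 vuu vzz vdu vd0 vzg (rg S N H n vx0
    vx1 vge veb vr1) (rm S N H n vx0 vx1 vge veb vr1) (s1 S N H n vx0 vx1 vge veb vr1)) true
    (Nat.ble (Nat.add (Nat.add (s1 S N H n vx0 vx1 vge veb vr1) vcnt) (nat_lit 2)) (Nat.mul
    (nat_lit 3) n))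
def uB : {f // f = tB} :=
  ⟨_, by
    delta tB s1 rm rg ry ya x2 rx hz mnG tsG
    rfl⟩
def tA (hook : HK) (S N H n : Nat) : Bool :=
  Bool.rec (uB.1 hook S N H n (x0 N H) (x1 S N H) (ge S N H) (eb S N H) (r1 S N H) (cnt S N H) (gb
    S N H) (dx S N H) (dy S N H) (dz S N H) (ey S N H) (hn S N H) (t3 S N H) (uu S N H) (zz S N H)
    (du S N H) (d0 S N H) (zg S N H)) true (Nat.ble (Nat.add (Nat.add (s0 S N H) (cnt S N H))
    (nat_lit 2)) (Nat.mul (nat_lit 3) n))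
def uA : {f // f = tA} :=
  ⟨_, by
    delta tA s0 r1 gb d0 t3 eb zz uu du ge x1 x0 spr cnt zg gg dz dy dx ey hn mnG tsG geG
    rfl⟩

def chk (hook : HK) (a S H n : Nat) : Bool :=
  Bool.rec (uA.1 hook S (Nat.succ (Nat.mul (Nat.succ a) S)) H n) true (Nat.ble n (nat_lit 31))

theorem chk_eq : chk = Fo.chk := by
  funext hook a S H n
  rw [chk, uA.2, tA, uB.2, tB, uC.2]
  rfl

def ps (S a b : Nat) : Nat := Nat.mul (nat_lit 12) (Nat.add (Nat.mul S a) b)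
def get (H S a b : Nat) : Nat := Nat.land (Nat.shiftRight H (ps S a b)) (nat_lit 4095)
def put (r : Nat → Nat → Nat → Nat → Nat → Bool) (a b S S' H n v : Nat) : Bool :=
  frc (Nat.add n v) fun n' => r a (Nat.succ b) S' (Nat.add H (Nat.shiftLeft v (ps S a b))) n'
def go (M : Nat) (hook : HK) (fuel : Nat) : Nat → Nat → Nat → Nat → Nat → Bool :=
  Nat.rec (fun _ _ _ _ _ => false) (fun _ r a b S H n =>
    band (chk hook a S H n) (band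
      (Nat.rec (allLt (mn (Nat.sub M n) (Nat.pred (get H S a (Nat.pred b))))
          fun v => put r a b S (Nat.succ S) H n (Nat.succ v))
        (fun a' _ => allLt (mn (mn (Nat.sub M n) (Nat.pred (get H S a (Nat.pred b))))
            (get H S a' (Nat.succ b)))
          fun v => put r a b S S H n (Nat.succ v)) a)
      (allLt (mn (Nat.sub M n) (get H S a (nat_lit 1)))
        fun v => put r (Nat.succ a) (nat_lit 0) S S H n (Nat.succ v)))) fuel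
def uG : {f // f = go} := ⟨_, by delta go chk put get ps band allLt mn frc; rfl⟩

def job (M : Nat) (hook : HK) (k : Nat) : Bool :=
  frc (Nat.land k 15) fun a => frc (Nat.land (Nat.shiftRight k 4) 15) fun b =>
    frc (Nat.land (Nat.shiftRight k 8) 15) fun S =>
      frc (Nat.mod (Nat.shiftRight k 64) 4095) fun n =>
        Bool.rec (chk hook a S (Nat.shiftRight k 64) n)
          (uG.1 M hook 30 a b S (Nat.shiftRight k 64) n)
          (Nat.beq (Nat.land (Nat.shiftRight k 12) 1) 0)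

theorem go_eq (M : Nat) (hook : HK) (f : Nat) :
    go M hook f = Fo.go M (fun _ _ _ _ => false) (chk hook) f := rfl

theorem job_eq (M : Nat) (hook : HK) : job M hook = Fo.job M (Fo.chk hook) := by
  funext k
  rw [job, uG.2, go_eq, chk_eq, Fo.job]

end F2

end

end Pool.Agent.Lib.MP_ed43e6_ag.Q
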