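import Mathlib

/-! A weight filtration by monomials, and finiteness over few elements when enough products of
two generators drop in the filtration. -/

namespace Pool.Agent.Lib.MP_ed43e6_ag.Q

open Finset

universe u

section

variable (K : Type u) [Field K] {Ω : Type u} [Field Ω] [Algebra K Ω] {ι : Type} (y : ι → Ω)
  (ω : ι → ℕ) (J : Finset ι)

/-- The span of the monomials of weight at most `m` in the generators indexed by `J`. -/
def Fil (m : ℕ) : Submodule K Ω :=
  Submodule.span K {x | ∃ l : Multiset ι, (∀ i ∈ l, i ∈ J) ∧ (l.map ω).sum ≤ m ∧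
    x = (l.map y).prod}

variable {K y ω J}

theorem Fil.mono {m n : ℕ} (h : m ≤ n) {x : Ω} (hx : x ∈ Fil K y ω J m) : x ∈ Fil K y ω J n :=
  Submodule.span_mono (by rintro _ ⟨l, a, b, c⟩; exact ⟨l, a, b.trans h, c⟩) hx

theorem Fil.prod (l : Multiset ι) (h : ∀ i ∈ l, i ∈ J) :
    (l.map y).prod ∈ Fil K y ω J (l.map ω).sum :=
  Submodule.subset_span ⟨l, h, le_rfl, rfl⟩

theorem Fil.one : (1 : Ω) ∈ Fil K y ω J 0 := by
  simpa using Fil.prod (K := K) (y := y) (ω := ω) (J := J) 0 (by simp)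

theorem Fil.gen {i : ι} (h : i ∈ J) : y i ∈ Fil K y ω J (ω i) := by
  simpa using Fil.prod (K := K) (y := y) (ω := ω) (J := J) {i} (by simpa)

theorem Fil.mul {m n : ℕ} {x z : Ω} (hx : x ∈ Fil K y ω J m) (hz : z ∈ Fil K y ω J n) :
    x * z ∈ Fil K y ω J (m + n) := by
  have := Submodule.mul_mem_mul hx hz
  rw [Fil, Fil, Submodule.span_mul_span] at this
  refine Submodule.span_mono ?_ this
  rintro _ ⟨_, ⟨l, a, b, rfl⟩, _, ⟨l', a', b', rfl⟩, rfl⟩
  refine ⟨l + l', fun i hi => (Multiset.mem_add.1 hi).elim (a i) (a' i), ?_, by simp⟩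
  rw [Multiset.map_add, Multiset.sum_add]
  omega

theorem Fil.mul' {m n k : ℕ} {x z : Ω} (hx : x ∈ Fil K y ω J m) (hz : z ∈ Fil K y ω J n)
    (h : m + n ≤ k) : x * z ∈ Fil K y ω J k := Fil.mono h (Fil.mul hx hz)

theorem Fil.pow {m : ℕ} {x : Ω} (hx : x ∈ Fil K y ω J m) (n : ℕ) :
    x ^ n ∈ Fil K y ω J (n * m) := by
  induction n with
  | zero => simpa using Fil.one
  | succ n ih => rw [pow_succ, Nat.succ_mul]; exact Fil.mul ih hx

theorem Fil.fprod {m : ℕ} (T : Finset ι) (f : ι → Ω) (h : ∀ i ∈ T, f i ∈ Fil K y ω J m) :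
    ∏ i ∈ T, f i ∈ Fil K y ω J (T.card * m) := by
  classical
  induction T using Finset.induction_on with
  | empty => simpa using Fil.one
  | insert a s ha ih =>
    rw [prod_insert ha, card_insert_of_notMem ha]
    exact Fil.mul' (h a (mem_insert_self _ _)) (ih fun i hi => h i (mem_insert_of_mem hi))
      (by rw [Nat.succ_mul]; omega)

theorem Fil.drop [DecidableEq ι] {W : ℕ} (hW : 0 < W) (k : ι → ℕ) (T : Finset ι)
    (hk : ∀ a ∈ T, a ∈ J ∧ k a * ω a = W ∧ 2 ≤ k a) {a b : ι} (ha : a ∈ T) (hb : b ∈ T)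
    (h : y a * y b ∈ Fil K y ω J (ω a + ω b - 1)) :
    ∏ i ∈ T, -y i ^ k i ∈ Fil K y ω J (T.card * W - 1) := by
  have hY : ∀ i ∈ T, -y i ^ k i ∈ Fil K y ω J W := fun i hi =>
    neg_mem ((hk i hi).2.1 ▸ Fil.pow (Fil.gen (hk i hi).1) _)
  obtain ⟨a1, a2, a3⟩ := hk a ha
  obtain ⟨b1, b2, b3⟩ := hk b hb
  have wa : 0 < ω a := Nat.pos_of_mul_pos_left (a2 ▸ hW)
  by_cases e : a = b
  · subst e
    obtain ⟨c, hc⟩ : ∃ c, k a = c + 2 := ⟨k a - 2, by omega⟩
    have h1 := Fil.fprod (T.erase a) _ fun i hi => hY i (mem_of_mem_erase hi)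
    have h2 : -y a ^ k a ∈ Fil K y ω J (W - 1) := by
      rw [hc, pow_add, sq]
      refine neg_mem (Fil.mul' (Fil.pow (Fil.gen a1) c) h ?_)
      rw [hc, add_mul] at a2
      omega
    rw [← mul_prod_erase T _ ha]
    refine Fil.mul' h2 h1 ?_
    rw [← card_erase_add_one ha, add_mul]
    omega
  · have hb' : b ∈ T.erase a := mem_erase.2 ⟨Ne.symm e, hb⟩
    obtain ⟨c, hc⟩ : ∃ c, k a = c + 1 := ⟨k a - 1, by omega⟩
    obtain ⟨d, hd⟩ : ∃ d, k b = d + 1 := ⟨k b - 1, by omega⟩
    have h1 := Fil.fprod ((T.erase a).erase b) _ fun i hi =>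
      hY i (mem_of_mem_erase (mem_of_mem_erase hi))
    have h2 : -y a ^ k a * -y b ^ k b ∈ Fil K y ω J (W + W - 1) := by
      have : -y a ^ k a * -y b ^ k b = y a ^ c * y b ^ d * (y a * y b) := by
        rw [hc, hd]; ring
      rw [this]
      refine Fil.mul' (Fil.mul (Fil.pow (Fil.gen a1) c) (Fil.pow (Fil.gen b1) d)) h ?_
      rw [hc, add_mul] at a2
      rw [hd, add_mul] at b2
      omega
    rw [← mul_prod_erase T _ ha, ← mul_prod_erase _ _ hb', ← mul_assoc]
    refine Fil.mul' h2 h1 ?_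
    rw [← card_erase_add_one ha, ← card_erase_add_one hb', add_mul, add_mul]
    omega

theorem Fil.span_mul {F : IntermediateField K Ω} {m n : ℕ} {x z : Ω}
    (hx : x ∈ Submodule.span F (Fil K y ω J m : Set Ω)) (hz : z ∈ Fil K y ω J n) :
    x * z ∈ Submodule.span F (Fil K y ω J (m + n) : Set Ω) := by
  induction hx using Submodule.span_induction with
  | mem x h => exact Submodule.subset_span (Fil.mul h hz)
  | zero => simp
  | add a b _ _ ha hb => rw [add_mul]; exact add_mem ha hb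
  | smul c a _ ha => rw [smul_mul_assoc]; exact Submodule.smul_mem _ c ha

/-- If any `α + 1` of the generators in `A` contain a pair whose product drops, then everything
is algebraic over the other generators and `α` further elements. -/
theorem Fil.alg [DecidableEq ι] (hω : ∀ i ∈ J, 0 < ω i) (A : Finset ι) (hA : A ⊆ J) (α : ℕ)
    (hT : ∀ T ⊆ A, α < T.card → ∃ a ∈ T, ∃ b ∈ T,
      y a * y b ∈ Fil K y ω J (ω a + ω b - 1)) :
    ∃ S : Finset Ω, S.card ≤ (J \ A).card + α ∧ ∀ m, ∀ x ∈ Fil K y ω J m,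
      IsAlgebraic (IntermediateField.adjoin K (S : Set Ω)) x := by
  classical
  obtain ⟨W, hW, k, hk⟩ : ∃ W, 0 < W ∧ ∃ k : ι → ℕ, ∀ a ∈ A, a ∈ J ∧ k a * ω a = W ∧ 2 ≤ k a := by
    refine ⟨2 * ∏ a ∈ A, ω a, Nat.mul_pos two_pos (prod_pos fun a ha => hω a (hA ha)),
      fun a => 2 * ∏ b ∈ A.erase a, ω b, fun a ha => ⟨hA ha, ?_, ?_⟩⟩
    · rw [mul_assoc, prod_erase_mul _ _ ha]
    · have : 0 < ∏ b ∈ A.erase a, ω b := prod_pos fun b hb => hω b (hA (mem_of_mem_erase hb))
      show 2 ≤ 2 * ∏ b ∈ A.erase a, ω b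
      omega
  let θ : ℕ → Ω := fun j => ∑ T ∈ powersetCard j A, ∏ i ∈ T, -y i ^ k i
  refine ⟨(J \ A).image y ∪ (range α).image fun j => θ (j + 1), (card_union_le _ _).trans
    (add_le_add card_image_le (card_image_le.trans (card_range α).le)), ?_⟩
  set F := IntermediateField.adjoin K (((J \ A).image y ∪ (range α).image fun j => θ (j + 1) :
    Finset Ω) : Set Ω)
  have hy : ∀ i ∈ J, i ∉ A → y i ∈ F := fun i h1 h2 => IntermediateField.subset_adjoin _ _
    (mem_coe.2 (mem_union_left _ (mem_image_of_mem _ (mem_sdiff.2 ⟨h1, h2⟩))))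
  have hθ : ∀ j < α, θ (j + 1) ∈ F := fun j h => IntermediateField.subset_adjoin _ _
    (mem_coe.2 (mem_union_right _ (mem_image_of_mem (fun j => θ (j + 1)) (mem_range.2 h))))
  have rel : ∀ a ∈ A, (y a ^ k a) ^ A.card ∈
      Submodule.span F (Fil K y ω J (A.card * W - 1) : Set Ω) := fun a ha => by
    have hY : y a ^ k a ∈ Fil K y ω J W := (hk a ha).2.1 ▸ Fil.pow (Fil.gen (hA ha)) _
    have h0 : ∏ b ∈ A, (-y b ^ k b + y a ^ k a) = 0 := prod_eq_zero ha (by ring)
    rw [prod_add, sum_powerset, sum_range_succ', powersetCard_zero, sum_singleton, prod_empty,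
      one_mul, sdiff_empty, prod_const, add_comm, add_eq_zero_iff_eq_neg] at h0
    rw [h0]
    refine neg_mem (sum_mem fun j hj => ?_)
    have hj' := mem_range.1 hj
    have e1 : ∑ T ∈ powersetCard (j + 1) A, (∏ i ∈ T, -y i ^ k i) * ∏ _i ∈ A \ T, y a ^ k a =
        θ (j + 1) * (y a ^ k a) ^ (A.card - (j + 1)) := by
      rw [sum_mul]
      refine sum_congr rfl fun T h => ?_
      rw [prod_const, card_sdiff_of_subset (mem_powersetCard.1 h).1, (mem_powersetCard.1 h).2]
    obtain ⟨d, hd⟩ : ∃ d, A.card = d + (j + 1) := ⟨A.card - (j + 1), by omega⟩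
    have hp := Fil.pow hY d
    rw [e1, hd, Nat.add_sub_cancel]
    by_cases h : j < α
    · exact Submodule.smul_mem _ (⟨_, hθ j h⟩ : F) (Submodule.subset_span
        (Fil.mono (by rw [add_mul, add_mul]; omega) hp))
    · refine Submodule.subset_span (Fil.mul' (m := (j + 1) * W - 1) (sum_mem fun T hT' => ?_) hp
        (by rw [add_mul, add_mul, add_mul]; omega))
      obtain ⟨t1, t2⟩ := mem_powersetCard.1 hT'
      obtain ⟨b, hb, c, hc, hbc⟩ := hT T t1 (by omega)
      exact t2 ▸ Fil.drop hW k T (fun i hi => hk i (t1 hi)) hb hc hbc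
  let B : Multiset ι := ∑ a ∈ A, Multiset.replicate (k a * A.card) a
  let V : Submodule F Ω := Submodule.span F ((fun l : Multiset ι => (l.map y).prod) '' Set.Icc 0 B)
  have hB : ∀ l ≤ B, ∀ i ∈ l, i ∈ J := fun l hl i hi => by
    obtain ⟨a, ha, h⟩ := Multiset.mem_sum.1 (Multiset.mem_of_le hl hi)
    exact Multiset.eq_of_mem_replicate h ▸ hA ha
  have main : ∀ m, ∀ x ∈ Fil K y ω J m, x ∈ V := by
    intro m
    induction m using Nat.strong_induction_on with | _ m ih => ?_
    intro x hx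
    have key : ∀ l : Multiset ι, (∀ i ∈ l, i ∈ J) → (l.map ω).sum ≤ m → (l.map y).prod ∈ V := by
      intro l h1 h2
      by_cases c1 : ∃ i ∈ l, i ∉ A
      · obtain ⟨i, hi, hiA⟩ := c1
        obtain ⟨l', rfl⟩ := Multiset.exists_cons_of_mem hi
        rw [Multiset.map_cons, Multiset.sum_cons] at h2
        rw [Multiset.map_cons, Multiset.prod_cons]
        have := hω i (h1 i hi)
        exact V.smul_mem (⟨_, hy i (h1 i hi) hiA⟩ : F) (ih _ (by omega) _
          (Fil.prod l' fun j hj => h1 j (Multiset.mem_cons_of_mem hj)))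
      by_cases c2 : ∃ a ∈ A, k a * A.card ≤ l.count a
      · obtain ⟨a, ha, h⟩ := c2
        obtain ⟨l', rfl⟩ := Multiset.le_iff_exists_add.1 (Multiset.le_count_iff_replicate_le.1 h)
        rw [Multiset.map_add, Multiset.sum_add, Multiset.map_replicate, Multiset.sum_replicate,
          smul_eq_mul, mul_right_comm, (hk a ha).2.1, mul_comm] at h2
        rw [Multiset.map_add, Multiset.prod_add, Multiset.map_replicate, Multiset.prod_replicate,
          pow_mul]
        have h3 : 0 < A.card * W := Nat.mul_pos (card_pos.2 ⟨a, ha⟩) hW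
        exact Submodule.span_le.2 (fun z hz => ih _ (by omega) z hz) (Fil.span_mul (rel a ha)
          (Fil.prod l' fun j hj => h1 j (Multiset.mem_add.2 (Or.inr hj))))
      · refine Submodule.subset_span ⟨l, ⟨Multiset.zero_le _, Multiset.le_iff_count.2 fun i => ?_⟩,
          rfl⟩
        by_cases hi : i ∈ l
        · have hiA : i ∈ A := not_not.1 fun e => c1 ⟨i, hi, e⟩
          refine (not_le.1 fun e => c2 ⟨i, hiA, e⟩).le.trans ?_
          refine Multiset.le_count_iff_replicate_le.2 ?_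
          exact single_le_sum (f := fun a => Multiset.replicate (k a * A.card) a)
            (fun _ _ => Multiset.zero_le _) hiA
        · rw [Multiset.count_eq_zero_of_notMem hi]
          exact Nat.zero_le _
    induction hx using Submodule.span_induction with
    | mem x h => obtain ⟨l, a, b, rfl⟩ := h; exact key l a b
    | zero => exact zero_mem _
    | add a b _ _ ha hb => exact add_mem ha hb
    | smul c a _ ha => exact V.smul_of_tower_mem c ha
  intro m x hx
  refine (isIntegral_of_smul_mem_submodule V (fun e => ?_)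
    (Submodule.fg_span ((Set.finite_Icc 0 B).image _)) x fun n hn => ?_).isAlgebraic
  · have := main 0 1 Fil.one
    rw [e, Submodule.mem_bot] at this
    exact one_ne_zero this
  · induction hn using Submodule.span_induction with
    | mem z h =>
      obtain ⟨l, hl, rfl⟩ := h
      exact main _ _ (Fil.mul hx (Fil.prod l (hB l hl.2)))
    | zero => simp
    | add a b _ _ ha hb => rw [smul_add]; exact add_mem ha hb
    | smul c a _ ha => rw [smul_comm]; exact V.smul_mem c ha

end

end Pool.Agent.Lib.MP_ed43e6_ag.Q
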