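import Pool.Agent.Lib.MP_ed43e6_ag.Q.Vec
import Pool.Agent.Lib.MP_ed43e6_ag.Q.Grid

/-! Completeness of the depth first enumeration and of its partition into jobs. -/

namespace Pool.Agent.Lib.MP_ed43e6_ag.Q

open Finset N

/-- The test at one staircase proves the property. -/
def CkSound (Qp : (ℕ → ℕ → ℕ) → Prop) (M : ℕ) (ck : ℕ → ℕ → ℕ → ℕ → Bool) : Prop :=
  ∀ h a S, Bor h → size h ≤ M → Fits h S ((a + 1) * S + 1) →
    ∑ i ∈ range ((a + 1) * S + 1), h (i / S) (i % S) = size h →
    ck a S (sm S ((a + 1) * S + 1) h) (size h) = true → Qp h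

/-- The staircase `h` extends the node of the enumeration. -/
structure Node (h : ℕ → ℕ → ℕ) (a b S H : ℕ) : Prop where
  b1 : 1 ≤ b
  bS : b < S
  pos : 0 < h a (b - 1)
  p0 : 0 < h 0 (S - 2)
  r0 : a = 0 → S = b + 1
  r1 : 0 < a → h 0 (S - 1) = 0
  eq : H = sm S (S * a + b) h

/-- The staircase `h` is the one of the node. -/
def Point (h : ℕ → ℕ → ℕ) (a S H : ℕ) : Prop :=
  Fits h S ((a + 1) * S + 1) ∧ H = sm S ((a + 1) * S + 1) h

/-- All staircases described by the key have the property. -/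
def Good (Qp : (ℕ → ℕ → ℕ) → Prop) (M k : ℕ) : Prop :=
  ∀ h, Bor h → size h ≤ M →
    (if k / 4096 % 2 = 0 then Node h (k % 16) (k / 16 % 16) (k / 256 % 16) (k / 2 ^ 64)
      else Point h (k % 16) (k / 256 % 16) (k / 2 ^ 64)) → Qp h

def AllGood (Qp : (ℕ → ℕ → ℕ) → Prop) (M : ℕ) (t : KT) : Prop :=
  ∀ k, t.has k = true → Good Qp M k

variable {h : ℕ → ℕ → ℕ} {a b S H M : ℕ}

theorem sum_idx (S N : ℕ) : ∑ i ∈ range N, h (i / S) (i % S) =
    ∑ x ∈ (range N).image fun i => (i / S, i % S), h x.1 x.2 :=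
  (sum_image (f := fun x : ℕ × ℕ => h x.1 x.2) (g := fun i => (i / S, i % S)) fun i _ j _ e => by
    have e1 : i / S = j / S := (Prod.mk.inj e).1
    have e2 : i % S = j % S := (Prod.mk.inj e).2
    rw [← Nat.div_add_mod i S, e1, e2, Nat.div_add_mod]).symm

theorem sum_le_size (hB : Bor h) (hs : size h ≤ 58) (S N : ℕ) :
    ∑ i ∈ range N, h (i / S) (i % S) ≤ size h := by
  rw [sum_idx, size, ← sum_product']
  refine sum_le_sum_of_ne_zero fun x _ e => ?_
  have := W_le x.1
  have := mt (grid hB hs x.1 x.2) e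
  rw [mem_product, mem_range, mem_range]
  omega

theorem sum_eq_size (hB : Bor h) (hs : size h ≤ 58) {N : ℕ} (hF : Fits h S N) :
    ∑ i ∈ range N, h (i / S) (i % S) = size h := by
  refine (sum_le_size hB hs S N).antisymm ?_
  rw [sum_idx, size, ← sum_product']
  refine sum_le_sum_of_ne_zero fun x _ e => ?_
  obtain ⟨a, b⟩ := hF.in_of_pos (Nat.pos_of_ne_zero e)
  exact mem_image.2 ⟨S * x.1 + x.2, mem_range.2 b, by rw [idx_div a, idx_mod a]⟩

theorem get_sm (hB : Bor h) (hs : size h ≤ 58) {N p q : ℕ} (hq : q < S) (hN : S * p + q < N) :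
    Fo.get (sm S N h) S p q = h p q := by
  have := pk_get 12 N (fun i => h (i / S) (i % S)) (S * p + q)
    (fun i _ => (le_size hB hs _ _).trans_lt (by omega)) hN
  rw [idx_div hq, idx_mod hq] at this
  exact this

theorem put_sm (r : ℕ → ℕ → ℕ → ℕ → ℕ → Bool) (S' : ℕ) (hb : b < S) :
    Fo.put r a b S S' (sm S (S * a + b) h) (∑ i ∈ range (S * a + b), h (i / S) (i % S)) (h a b) =
      r a (b + 1) S' (sm S (S * a + (b + 1)) h)
        (∑ i ∈ range (S * a + (b + 1)), h (i / S) (i % S)) := by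
  rw [Fo.put, frc_eq, ← add_assoc, sum_range_succ, sm, sm, pk_succ, idx_div hb, idx_mod hb,
    Nat.shiftLeft_eq', Nat.shiftLeft_eq, add_comm (2 ^ _ * _), mul_comm (2 ^ _)]
  rfl

theorem Node.bd (n : Node h a b S H) (hB : Bor h) (hs : size h ≤ 58) : a ≤ 5 ∧ S ≤ 11 := by
  have h1 := mt (grid hB hs _ _) n.pos.ne'
  have h2 := mt (grid hB hs _ _) n.p0.ne'
  have h3 := W_le a
  have h4 := W_le 0
  omega

theorem go_succ (cut ck : ℕ → ℕ → ℕ → ℕ → Bool) (f n : ℕ) : Fo.go M cut ck (f + 1) a b S H n =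
    bor (cut a b S H) (band (ck a S H n) (band
      (Nat.rec (allLt (mn (M - n) (Fo.get H S a (b - 1) - 1))
          fun v => Fo.put (Fo.go M cut ck f) a b S (S + 1) H n (v + 1))
        (fun a' _ => allLt (mn (mn (M - n) (Fo.get H S a (b - 1) - 1)) (Fo.get H S a' (b + 1)))
          fun v => Fo.put (Fo.go M cut ck f) a b S S H n (v + 1)) a)
      (allLt (mn (M - n) (Fo.get H S a 1))
        fun v => Fo.put (Fo.go M cut ck f) (a + 1) 0 S S H n (v + 1)))) := rfl

theorem go_sound (hM : M ≤ 57) (hB : Bor h) (hs : size h ≤ M) {cut ck : ℕ → ℕ → ℕ → ℕ → Bool}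
    {Q : Prop} (hc : ∀ a b S H, Node h a b S H → cut a b S H = true → Q)
    (hk : ∀ a S H, a ≤ 5 → Point h a S H → ck a S H (size h) = true → Q) (f : ℕ) :
    ∀ a b S H, Node h a b S H →
      Fo.go M cut ck f a b S H (∑ i ∈ range (S * a + b), h (i / S) (i % S)) = true → Q := by
  have hs' : size h ≤ 58 := by omega
  induction f with
  | zero => exact fun _ _ _ _ _ e => absurd e Bool.false_ne_true
  | succ f ih =>
    intro a b S H n e
    rw [go_succ, bor_iff, band_iff, band_iff, allLt_iff] at e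
    rcases e with e | ⟨e0, e1, e2⟩
    · exact hc _ _ _ _ n e
    obtain ⟨b1, bS, pos, p0, r0, r1, rfl⟩ := id n
    have bd := n.bd hB hs'
    have zero : ∀ {a b p q}, h a b = 0 → a ≤ p → b ≤ q → h p q = 0 := fun z x y =>
      Nat.eq_zero_of_not_pos fun c => (pos_mono hB x y c).ne' z
    rcases (h a b).eq_zero_or_pos with z | z
    · have s0 : h 0 (S - 1) = 0 := by
        rcases a.eq_zero_or_pos with rfl | x
        · rw [r0 rfl]; exact z
        · exact r1 x
      have f0 : ∀ i, S * a + b ≤ i → i < S * (a + 1) → h (i / S) (i % S) = 0 := fun i x y => by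
        obtain ⟨q, rfl⟩ : ∃ q, i = S * a + q := ⟨i - S * a, by omega⟩
        have : q < S := by rw [mul_add] at y; omega
        rw [idx_div this, idx_mod this]
        exact zero z le_rfl (by omega)
      have l : S * a + b ≤ S * (a + 1) := by rw [mul_add]; omega
      have x1 : sm S (S * a + b) h = sm S (S * (a + 1)) h := (pk_ext _ _ _ _ l f0).symm
      have x2 : ∑ i ∈ range (S * a + b), h (i / S) (i % S) =
          ∑ i ∈ range (S * (a + 1)), h (i / S) (i % S) :=
        sum_subset (range_subset_range.2 l) fun i x y =>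
          f0 i (not_lt.1 (mt mem_range.2 y)) (mem_range.1 x)
      rw [x1, x2] at e0 e2
      have S0 : 0 < S := by omega
      have s1 := sum_le_size hB hs' S (S * (a + 1) + 1)
      have dv : S * (a + 1) / S = a + 1 := Nat.mul_div_cancel_left _ S0
      have md : S * (a + 1) % S = 0 := Nat.mul_mod_right _ _
      rw [sum_range_succ, dv, md] at s1
      rcases (h (a + 1) 0).eq_zero_or_pos with w | w
      · have F : Fits h S ((a + 1) * S + 1) := ⟨by omega, bd.2, a + 1, by omega, by omega, rfl,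
          fun p q c => c.elim (fun c => zero w c q.zero_le) fun c => zero s0 p.zero_le (by omega)⟩
        have s2 := sum_eq_size hB hs' F
        rw [mul_comm, sum_range_succ, dv, md, w, add_zero] at s2
        refine hk a S _ bd.1 ⟨F, ?_⟩ (s2 ▸ e0)
        rw [mul_comm (a + 1), sm, sm, pk_succ, dv, md, w, mul_zero, zero_add]
      · have b2 := hB.2 a 0
        have := e2 (h (a + 1) 0 - 1) (by
          rw [mn_eq, get_sm hB hs' (by omega) (by rw [mul_add]; omega)]
          rw [zero_add] at b2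
          omega)
        rw [Nat.sub_add_cancel w] at this
        exact ih _ _ _ _ ⟨le_rfl, by omega, w, p0, fun c => by omega, fun _ => s0, rfl⟩
          ((put_sm (a := a + 1) _ S S0).symm.trans this)
    · have s1 := sum_le_size hB hs' S (S * a + b + 1)
      rw [sum_range_succ, idx_div bS, idx_mod bS] at s1
      have c1 := hB.1 a (b - 1)
      rw [Nat.sub_add_cancel b1] at c1
      have g1 := get_sm hB hs' (N := S * a + b) (S := S) (p := a) (q := b - 1) (by omega) (by omega)
      cases a with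
      | zero =>
        have := (allLt_iff _ _).1 e1 (h 0 b - 1) (by rw [mn_eq, g1]; omega)
        rw [Nat.sub_add_cancel z, put_sm _ _ bS] at this
        obtain rfl := r0 rfl
        have f1 : ∀ i < b + 1, h (i / (b + 1)) (i % (b + 1)) =
            h (i / (b + 1 + 1)) (i % (b + 1 + 1)) := fun i x => by
          rw [Nat.div_eq_of_lt x, Nat.mod_eq_of_lt x, Nat.div_eq_of_lt (by omega),
            Nat.mod_eq_of_lt (by omega)]
        refine ih 0 (b + 1) (b + 1 + 1) _ ⟨by omega, by omega, z, z, fun _ => rfl,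
          fun c => absurd c (lt_irrefl 0), rfl⟩ ?_
        simp only [mul_zero, zero_add] at this ⊢
        rwa [sm, pk_congr _ _ _ _ f1, sum_congr rfl fun i x => f1 i (mem_range.1 x)] at this
      | succ a =>
        have c2 := hB.2 a b
        have c3 : b + 1 < S - 1 := not_le.1 fun c =>
          (z.trans_le c2).ne' (zero (r1 a.succ_pos) a.zero_le c)
        have := (allLt_iff _ _).1 e1 (h (a + 1) b - 1) (by
          rw [mn_eq, mn_eq, g1, get_sm hB hs' (by omega) (by rw [mul_add]; omega)]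
          omega)
        rw [Nat.sub_add_cancel z, put_sm _ _ bS] at this
        exact ih _ _ _ _ ⟨by omega, by omega, z, p0, fun c => by omega, r1, rfl⟩ this

variable {Qp : (ℕ → ℕ → ℕ) → Prop} {ck : ℕ → ℕ → ℕ → ℕ → Bool}

theorem job_sound (hM : M ≤ 57) (hc : CkSound Qp M ck) {k : ℕ} (e : Fo.job M ck k = true) :
    Good Qp M k := by
  intro h hB hs c
  have hs' : size h ≤ 58 := by omega
  have m : ∀ S N, sm S N h % 4095 = ∑ i ∈ range N, h (i / S) (i % S) := fun S N =>
    pk_sum 12 N _ ((sum_le_size hB hs' S N).trans_lt (by omega))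
  have hk : ∀ a S H, Point h a S H → ck a S H (size h) = true → Qp h := by
    rintro a S _ ⟨F, rfl⟩ x
    exact hc h a S hB hs F (sum_eq_size hB hs' F) x
  have a15 : ∀ x, Nat.land x 15 = x % 16 := fun x => Nat.and_two_pow_sub_one_eq_mod x 4
  rw [Fo.job, frc_eq, frc_eq, frc_eq, frc_eq, a15, a15, a15, Nat.land_eq, Nat.and_one_is_mod] at e
  simp only [Nat.shiftRight_eq', Nat.shiftRight_eq_div_pow] at e
  split_ifs at c with z
  · rw [show k / 2 ^ 12 % 2 = 0 from z] at e
    refine go_sound hM hB hs (fun _ _ _ _ _ x => absurd x Bool.false_ne_true)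
      (fun a S H _ => hk a S H) 30 _ _ _ _ c ?_
    rw [← m, ← c.eq]
    exact e
  · rw [show k / 2 ^ 12 % 2 = 1 by omega] at e
    refine hk _ _ _ c ?_
    rw [← sum_eq_size hB hs' c.1, ← m, ← c.2]
    exact e

theorem allGood_of_all (hM : M ≤ 57) (hc : CkSound Qp M ck) {t : KT}
    (e : t.all (Fo.job M ck) = true) : AllGood Qp M t := fun k x =>
  job_sound hM hc (KT.has_all t _ k x e)

theorem allGood_br {p : ℕ} {l r : KT} (hl : AllGood Qp M l) (hr : AllGood Qp M r) :
    AllGood Qp M (KT.br p l r) := fun k x => (KT.has_br x).elim (hl k) (hr k)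

theorem enc_dec {m : ℕ} (hm : m < 2) (ha : a < 16) (hb : b < 16) (hS : S < 16) :
    Fo.enc m a b S H % 16 = a ∧ Fo.enc m a b S H / 16 % 16 = b ∧
      Fo.enc m a b S H / 256 % 16 = S ∧ Fo.enc m a b S H / 4096 % 2 = m ∧
      Fo.enc m a b S H / 2 ^ 64 = H := by
  have e : Fo.enc m a b S H = H * 2 ^ 64 + H % 2251799813685119 * 2 ^ 13 +
      (m * 4096 + S * 256 + (b * 16 + a)) := by
    rw [← Nat.shiftLeft_eq, ← Nat.shiftLeft_eq]
    rfl
  have := Nat.mod_lt H (show 0 < 2251799813685119 by omega)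
  generalize H % 2251799813685119 = r at e this
  omega

theorem walk_sound (hM : M ≤ 57) (h31 : ∀ h, size h ≤ 31 → Qp h) {t : KT} (ht : AllGood Qp M t)
    (e : Fo.walk M t = true) (h : ℕ → ℕ → ℕ) (hB : Bor h) (h0 : 0 < size h) (hs : size h ≤ M) :
    Qp h := by
  have hs' : size h ≤ 58 := by omega
  have p0 : 0 < h 0 0 := by
    by_contra c
    exact h0.ne' (sum_eq_zero fun p _ => sum_eq_zero fun q _ =>
      Nat.eq_zero_of_not_pos fun x => c (pos_mono hB p.zero_le q.zero_le x))
  have := (allLt_iff _ _).1 e (h 0 0 - 1) (by have := le_size hB hs' 0 0; omega)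
  rw [Nat.succ_eq_add_one, Nat.sub_add_cancel p0] at this
  have x := (put_sm (h := h) (a := 0) (b := 0) (S := 1) _ 2 one_pos).symm.trans this
  refine go_sound hM hB hs (fun a b S H n c => ?_) (fun a S H a5 n c => ?_) 30 0 1 2 _
    ⟨le_rfl, one_lt_two, p0, p0, fun _ => rfl, fun c => absurd c (lt_irrefl 0), rfl⟩ x
  · have := n.bd hB hs'
    have := n.bS
    obtain ⟨d1, d2, d3, d4, d5⟩ := enc_dec (m := 0) (a := a) (b := b) (S := S) (H := H) (by omega)
      (by omega) (by omega) (by omega)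
    refine ht _ c h hB hs ?_
    rwa [if_pos d4, d1, d2, d3, d5]
  · rcases (bor_iff _ _).1 c with c | c
    · exact h31 h (Nat.le_of_ble_eq_true c)
    · have := n.1.2.1
      obtain ⟨d1, -, d3, d4, d5⟩ := enc_dec (m := 1) (a := a) (b := 0) (S := S) (H := H) (by omega)
        (by omega) (by omega) (by omega)
      refine ht _ c h hB hs ?_
      rwa [if_neg (by omega), d1, d3, d5]

end Pool.Agent.Lib.MP_ed43e6_ag.Q
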