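import Pool.Agent.Lib.MP_ed43e6_ag.Q.FoT
import Pool.Agent.Lib.MP_ed43e6_ag.Q.GoS

/-! From the kernel runs to the finite verification. -/

namespace Pool.Agent.Lib.MP_ed43e6_ag.Q

open Finset N

/-- The property of a staircase that the runs establish. -/
def QP (P : GP) (h : ℕ → ℕ → ℕ) : Prop := 32 ≤ size h → AllFine P h

variable {P : GP} {M : ℕ} {hook : ℕ → ℕ → ℕ → ℕ → ℕ → ℕ → ℕ → Bool}

theorem chk_sound (hM : M ≤ 57) (hP : ∀ g D, P g D 0) (hH : HookSound P hook) :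
    CkSound (QP P) M (Fo.chk hook) := fun _ _ _ hB hs hF ht e =>
  Ctx.chk0_sound ⟨hB, hF, by omega⟩ hP hH (by omega) e

theorem good_of_run (hM : M ≤ 57) (hP : ∀ g D, P g D 0) (hH : HookSound P hook) {t : KT}
    (e : t.all (Fo.job M (Fo.chk hook)) = true) : AllGood (QP P) M t :=
  allGood_of_all hM (chk_sound hM hP hH) e

theorem checkP_of_walk (hM : M ≤ 57) {t : KT} (ht : AllGood (QP P) M t)
    (e : Fo.walk M t = true) : CheckP P M := fun h0 h1 h2 p0 q0 a1 b1 e0 e1 B0 B1 B2 l u =>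
  walk_sound hM (fun _ hs hl => absurd hl (by omega)) ht e h1 B1 (by omega) u l
    h0 h2 p0 q0 a1 b1 e0 e1 B0 B2

end Pool.Agent.Lib.MP_ed43e6_ag.Q
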