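import Pool.Agent.Lib.MP_ed43e6_ag.Q.Vec

/-! The meaning of the small vectors and of the room vector. -/

namespace Pool.Agent.Lib.MP_ed43e6_ag.Q

open Finset N N.Comb

structure Ctx (h : ℕ → ℕ → ℕ) (S N : ℕ) : Prop where
  bor : Bor h
  fits : Fits h S N
  tot : ∑ i ∈ range N, h (i / S) (i % S) ≤ 57

section Const

variable {S N : ℕ}

theorem o_eq : Fo.o N = sm S N fun _ _ => 1 := rfl
theorem g_eq : Fo.g N = sm S N fun _ _ => 2048 := sm_mul (F := fun _ _ => 1) 2048
theorem c47_eq : Fo.c47 N = sm S N fun _ _ => 2047 := sm_mul (F := fun _ _ => 1) 2047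
theorem c46_eq : Fo.c46 N = sm S N fun _ _ => 2046 := sm_mul (F := fun _ _ => 1) 2046
theorem full_eq : Fo.full N = sm S N fun _ _ => 4095 := sm_mul (F := fun _ _ => 1) 4095
theorem cY_eq : Fo.cY S N = sm S N fun _ q => if q = 0 then 128 else 0 :=
  pk_congr _ _ _ _ fun _ _ => sel_beq _ _ _ _
theorem mE_eq : Fo.mE S N = sm S N fun _ q => if q ≠ 0 then 4095 else 0 :=
  pk_congr _ _ _ _ fun _ _ => (sel_beq _ _ _ _).trans (ite_not _ _ _).symm
theorem mQ_eq : Fo.mQ S N = sm S N fun _ q => if q + 2 ≤ S then 4095 else 0 :=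
  pk_congr _ _ _ _ fun _ _ => sel_ble _ _ _ _
theorem mR_eq : Fo.mR S N = sm S N fun _ q => if q + 3 ≤ S then 4095 else 0 :=
  pk_congr _ _ _ _ fun _ _ => sel_ble _ _ _ _
theorem cD_eq : Fo.cD S N = sm S N fun p q => p + q := rfl
theorem o1_eq : Fo.o1 N = bg S N fun _ _ _ _ => 1 := sm_rep (S := S) fun _ _ => 1
theorem o2_eq : Fo.o2 N = bg S N fun _ _ _ _ => 2 := by
  rw [Fo.o2, o1_eq (S := S), bg_mul]
theorem o4_eq : Fo.o4 N = bg S N fun _ _ _ _ => 4 := by
  rw [Fo.o4, o1_eq (S := S), bg_mul]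
theorem bG_eq : Fo.bG N = bg S N fun _ _ _ _ => 2048 := by
  rw [Fo.bG, o1_eq (S := S), bg_mul]
theorem bH_eq : Fo.bH N = bg S N fun _ _ _ _ => 4096 := by
  rw [Fo.bH, o1_eq (S := S), bg_mul]
theorem b47_eq : Fo.b47 N = bg S N fun _ _ _ _ => 2047 := by
  rw [Fo.b47, o1_eq (S := S), bg_mul]

theorem idx_lt {p q a b : ℕ} (hq : q < S) (hb : b < S) :
    S * a + b < S * p + q ↔ a < p ∨ (a = p ∧ b < q) := by
  rcases lt_trichotomy a p with h | rfl | h
  · have : S * (a + 1) ≤ S * p := Nat.mul_le_mul_left _ h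
    rw [mul_add] at this
    omega
  · omega
  · have : S * (p + 1) ≤ S * a := Nat.mul_le_mul_left _ h
    rw [mul_add] at this
    omega

theorem cX_eq (hS : 0 < S) (hN : S ≤ N) :
    Fo.cX S = sm S N fun p _ => if p = 0 then 128 else 0 := by
  refine (pk_mul 12 S _ 128).trans ((pk_pad 12 S _ N hN).trans (pk_sm hS fun p q hp => ?_))
  have := idx_lt (S := S) (a := p) (b := q) (p := 1) (q := 0) hS hp.1
  split_ifs <;> omega

theorem sm_zero : sm S N (fun _ _ => 0) = 0 := pk_const_zero _ _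

theorem m1_eq : Fo.m1 S N = bg S N fun _ _ _ b => if b + 2 ≤ S then 4095 else 0 := by
  rw [← blk_nest]
  refine pk_congr _ _ _ _ fun j _ => (sel_ble _ _ _ _).trans ?_
  change (if j % S + 2 ≤ S then _ else _) = _
  split_ifs
  · exact full_eq
  · exact sm_zero.symm

theorem m0_eq : Fo.m0 S N = bg S N fun _ q _ b => if b = 0 ∧ q ≠ 0 then 4095 else 0 := by
  rw [← blk_nest]
  refine pk_congr _ _ _ _ fun j _ => (sel_beq _ _ _ _).trans ?_
  change (if j % S = 0 then _ else _) = _
  split_ifs with c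
  · simp only [c, true_and]
    exact mE_eq
  · simp only [c, false_and, if_false]
    exact sm_zero.symm

theorem c0_eq : Fo.c0 S N = bg S N fun _ q _ b => if b = 0 ∧ q ≠ 0 then 0 else 64 := by
  rw [← blk_nest]
  refine pk_congr _ _ _ _ fun j _ => (sel_beq _ _ _ _).trans ?_
  change (if j % S = 0 then _ else _) = _
  split_ifs with c
  · simp only [c, true_and, ite_not]
    rw [cY_eq]
    refine Eq.trans (congrArg (· >>> 1) ?_) (pk_shr 12 N _ 1)
    exact pk_congr _ _ _ _ fun i _ => by beta_reduce; split_ifs <;> rfl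
  · simp only [c, false_and, if_false]
    exact sm_mul (F := fun _ _ => 1) 64

end Const

namespace Ctx

variable {h : ℕ → ℕ → ℕ} {S N : ℕ} (C : Ctx h S N)
include C

theorem dims : 2 ≤ S ∧ S ≤ 11 ∧ S < N ∧ N ≤ 67 := by
  obtain ⟨h1, h2, k, h3, h4, rfl, -⟩ := C.fits
  have := Nat.mul_le_mul h4 h2
  have := Nat.mul_le_mul_right S h3
  omega

theorem hS : 0 < S := by have := C.dims; omega

theorem small {a b : ℕ} (ha : In S N a b) : a ≤ 6 ∧ b ≤ 10 := by
  obtain ⟨h1, h2, k, h3, h4, rfl, -⟩ := C.fits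
  have h5 := ha.1
  have h6 := ha.2
  refine ⟨?_, by omega⟩
  by_contra c
  have : S * (k + 1) ≤ S * a := Nat.mul_le_mul_left _ (by omega)
  rw [mul_add, mul_comm S k] at this
  omega

theorem zero {a b : ℕ} (hz : S ≤ b + 1 ∨ N ≤ S * a + S) : h a b = 0 := by
  by_contra c
  have := C.fits.pos (Nat.pos_of_ne_zero c)
  omega

theorem le57 (a b : ℕ) : h a b ≤ 57 := by
  by_cases c : h a b = 0
  · omega
  have hi := C.fits.in_of_pos (Nat.pos_of_ne_zero c)
  have := single_le_sum (f := fun i => h (i / S) (i % S)) (fun _ _ => Nat.zero_le _)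
    (mem_range.2 hi.2)
  simp only [idx_div hi.1, idx_mod hi.1] at this
  exact this.trans C.tot

theorem lanes : ∀ i, h (i / S) (i % S) < 2 ^ 12 := fun i => by
  have := C.le57 (i / S) (i % S)
  omega

theorem look {x y : ℕ} (hy : y < S) :
    (if S * x + y < N then h ((S * x + y) / S) ((S * x + y) % S) else 0) = h x y := by
  rw [idx_div hy, idx_mod hy]
  split_ifs with c
  · rfl
  · exact (C.zero (by omega)).symm

theorem bnd (p q : ℕ) : h p q ≤ 57 ∧ h p (q + 1) ≤ h p q ∧ h p (q + 2) ≤ h p (q + 1) ∧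
    h (p + 1) q ≤ h p q ∧ dx h p q ≤ 128 ∧ dy h p q ≤ 128 ∧ dz h p q ≤ 128 ∧
    gg h p q ≤ 128 ∧ ey h p q + h p (q + 1) = h p q ∧
    ey h p (q + 1) + h p (q + 2) = h p (q + 1) := by
  have h1 := C.le57 p q
  have h2 := bor_y C.bor p q
  have h3 : h p (q + 2) ≤ h p (q + 1) := bor_y C.bor p (q + 1)
  have h4 := bor_x C.bor p q
  have h5 := C.le57 (p - 1) q
  have h6 := C.le57 p (q - 1)
  have h7 := C.le57 (p - 1) (q + 1)
  have e : h p (q + 1 + 1) = h p (q + 2) := rfl
  unfold gg dx dy dz ey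
  split_ifs <;> omega

theorem hn_eq : Fo.hn S N (sm S N h) = sm S N fun p q => h p (q + 1) := by
  have hS := C.hS
  rw [Fo.hn, mQ_eq]
  refine (congrArg (· &&& _) (pk_shrl 12 N _ 1 fun i _ => C.lanes i)).trans
    ((pk_mask N _ N le_rfl _ fun i _ => ?_).trans (pk_sm hS fun p q hp => ?_))
  · have := C.lanes (i + 1)
    split_ifs <;> omega
  · rw [idx_mod hp.1]
    split_ifs with c
    · rw [add_assoc, idx_div c, idx_mod c]
    · exact (C.zero (by omega)).symm
    · exact (C.zero (by omega)).symm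

theorem ey_eq : Fo.ey S N (sm S N h) = sm S N (ey h) := by
  rw [Fo.ey, C.hn_eq, sm_sub C.hS fun p q _ => (C.bnd p q).2.1]
  rfl

theorem shl_mask (s : ℕ) (c : ℕ → ℕ → Prop) [∀ p q, Decidable (c p q)] (G : ℕ → ℕ → ℕ)
    (hG : ∀ p q, In S N p q → (if c p q then if s ≤ S * p + q then
      h ((S * p + q - s) / S) ((S * p + q - s) % S) else 0 else 0) = G p q) :
    (sm S N h <<< (12 * s)) &&& (sm S N fun p q => if c p q then 4095 else 0) = sm S N G := by
  refine (congrArg (· &&& _) (pk_shl 12 N _ s)).trans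
    ((pk_mask N _ (s + N) (by omega) _ fun i _ => ?_).trans (pk_sm C.hS fun p q hp => ?_))
  · have := C.lanes (i - s)
    split_ifs <;> omega
  · rw [idx_div hp.1, idx_mod hp.1]
    exact hG p q hp

theorem dx_eq : Fo.dx S N (sm S N h) = sm S N (dx h) := by
  have e : Nat.land (Nat.shiftLeft (sm S N h) (Fo.w1 S)) (Fo.full N) =
      sm S N fun p q => if p = 0 then 0 else h (p - 1) q := by
    rw [full_eq (S := S)]
    refine C.shl_mask S (fun _ _ => True) _ fun p q hp => ?_
    have h1 := hp.1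
    cases p with
    | zero => simp [h1]
    | succ p =>
      rw [show S * (p + 1) + q - S = S * p + q by rw [mul_add]; omega, idx_div h1, idx_mod h1,
        if_pos trivial, if_pos (by rw [mul_add]; omega), if_neg (Nat.succ_ne_zero p),
        Nat.add_sub_cancel]
  rw [Fo.dx, e, cX_eq C.hS C.dims.2.2.1.le, sm_add, sm_sub C.hS fun p q _ => ?_]
  · refine sm_congr C.hS fun p q _ => ?_
    unfold dx
    split_ifs <;> rfl
  · have := C.le57 p q
    cases p with
    | zero => simp only [if_true]; omega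
    | succ p => simpa using bor_x C.bor p q

theorem dy_eq : Fo.dy S N (sm S N h) = sm S N (dy h) := by
  have hS := C.hS
  have e : Nat.shiftLeft (sm S N h) 12 = sm S N fun p q => if q = 0 then 0 else h p (q - 1) := by
    refine (pk_shl' 12 N _ 1 fun i hi hi' => C.zero ?_).trans (pk_sm hS fun p q hp => ?_)
    · have := Nat.div_add_mod i S
      have := Nat.mod_lt i hS
      omega
    · have h1 := hp.1
      cases q with
      | zero =>
        cases p with
        | zero => rfl
        | succ p =>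
          rw [show S * (p + 1) + 0 - 1 = S * p + (S - 1) by rw [mul_add]; omega,
            idx_mod (by omega), C.zero (by omega), ite_self, if_pos rfl]
      | succ q =>
        have c : q < S := by omega
        rw [if_pos (by omega), show S * p + (q + 1) - 1 = S * p + q by omega, idx_div c, idx_mod c,
          if_neg (Nat.succ_ne_zero q), Nat.add_sub_cancel]
  rw [Fo.dy, e, cY_eq, sm_add, sm_sub hS fun p q _ => ?_]
  · refine sm_congr C.hS fun p q _ => ?_
    unfold dy
    split_ifs <;> rfl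
  · have := C.le57 p q
    cases q with
    | zero => simp only [if_true]; omega
    | succ q => simpa using bor_y C.bor p q

theorem diag (k : ℕ) (hk : k ≤ S) :
    (sm S N h <<< (12 * (S - k))) &&& (sm S N fun _ q => if q + (k + 1) ≤ S then 4095 else 0) =
      sm S N fun p q => if p = 0 then 0 else h (p - 1) (q + k) := by
  refine C.shl_mask (S - k) (fun _ q => q + (k + 1) ≤ S) _ fun p q hp => ?_
  cases p with
  | zero => split_ifs <;> omega
  | succ p =>
    rw [if_neg (Nat.succ_ne_zero p), Nat.add_sub_cancel]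
    split_ifs with c c'
    · have c2 : q + k < S := by omega
      rw [show S * (p + 1) + q - (S - k) = S * p + (q + k) by rw [mul_add]; omega, idx_div c2,
        idx_mod c2]
    · rw [mul_add] at c'
      omega
    · exact (C.zero (by omega)).symm

theorem dz_eq : Fo.dz S N (sm S N h) = sm S N (dz h) := by
  have e : Nat.land (Nat.shiftLeft (sm S N h) (Fo.w0 S)) (Fo.mQ S N) =
      sm S N fun p q => if p = 0 then 0 else h (p - 1) (q + 1) := by
    rw [mQ_eq]
    exact C.diag 1 C.hS
  rw [Fo.dz, e, cX_eq C.hS C.dims.2.2.1.le, sm_add, sm_sub C.hS fun p q _ => ?_]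
  · refine sm_congr C.hS fun p q _ => ?_
    unfold dz
    split_ifs <;> rfl
  · have := C.le57 p q
    cases p with
    | zero => simp only [if_true]; omega
    | succ p => simpa using C.bor.2 p q

theorem hz_eq : Fo.hz S N (sm S N h) =
    sm S N fun p q => (if p = 0 then 128 else h (p - 1) (q + 2)) + 2048 - h p q := by
  have e : Nat.land (Nat.shiftLeft (sm S N h) (Fo.w0 (Nat.pred S))) (Fo.mR S N) =
      sm S N fun p q => if p = 0 then 0 else h (p - 1) (q + 2) := by
    rw [mR_eq]
    exact C.diag 2 C.dims.1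
  rw [Fo.hz, e, cX_eq C.hS C.dims.2.2.1.le, sm_add, g_eq (S := S), sm_add,
    sm_sub C.hS fun p q _ => by have := C.le57 p q; omega]
  refine sm_congr C.hS fun p q _ => ?_
  split_ifs <;> rfl

theorem gg_eq : Fo.gg S N (sm S N h) = sm S N (gg h) := by
  rw [Fo.gg, C.dx_eq, C.dy_eq, g_eq (S := S), sm_add,
    sm_mnG C.hS fun p q _ => by have := C.bnd p q; omega, sm_sub C.hS fun p q _ => by omega]
  exact sm_congr C.hS fun p q _ => Nat.add_sub_cancel _ _

theorem zg_eq : Fo.zg S N (sm S N h) = sm S N fun p q => if 0 < gg h p q then 1 else 0 := by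
  rw [Fo.zg, C.gg_eq, g_eq (S := S), c47_eq (S := S), sm_add,
    sm_geG' C.hS fun p q _ => by have := C.bnd p q; omega]
  exact sm_congr C.hS fun p q _ => if_congr (by omega) rfl rfl

theorem cnt_eq : Fo.cnt S N (sm S N h) = ∑ i ∈ range N,
    ((if 0 < gg h (i / S) (i % S) then 1 else 0) + if 0 < h (i / S) (i % S) then 1 else 0) := by
  rw [Fo.cnt, C.zg_eq, g_eq (S := S), c47_eq (S := S), sm_add,
    sm_geG' C.hS fun p q _ => by have := C.bnd p q; omega, sm_add,
    sm_congr (G := fun p q => (if 0 < gg h p q then 1 else 0) + if 0 < h p q then 1 else 0) C.hS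
      fun p q _ => congrArg (_ + ·) (if_congr (by omega) rfl rfl)]
  refine pk_sum 12 N _ ((sum_le_card_nsmul _ _ 2 fun i _ => by
    beta_reduce; split_ifs <;> omega).trans_lt ?_)
  have := C.dims
  rw [card_range, smul_eq_mul]
  omega

theorem ad_eq : Fo.ad S N (sm S N h) =
    sm S N fun p q => if 0 < dz h p q ∧ 1 < dy h p q then 512 else 0 := by
  rw [Fo.ad, C.dy_eq, C.dz_eq, g_eq (S := S), c47_eq (S := S), c46_eq (S := S), sm_add, sm_add,
    sm_landG' C.hS fun p q _ => by have := C.bnd p q; omega,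
    sm_landG C.hS fun p q _ => by have := C.bnd p q; omega, sm_shrG 2 512 rfl]
  exact sm_congr C.hS fun p q _ => if_congr (by omega) rfl rfl

theorem dl1_eq : Fo.dl1 S N (sm S N h) =
    sm S N fun p q => if (if q = 0 then 0 else h (p + 1) (q - 1)) < h p q then 2048 else 0 := by
  have hS := C.hS
  have e : Nat.land (Nat.shiftRight (sm S N h) (Fo.w0 S)) (Fo.mE S N) =
      sm S N fun p q => if q = 0 then 0 else h (p + 1) (q - 1) := by
    rw [mE_eq]
    refine (congrArg (· &&& _) (pk_shrl 12 N _ (S - 1) fun i _ => C.lanes i)).trans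
      ((pk_mask N _ N le_rfl _ fun i _ => ?_).trans (pk_sm hS fun p q hp => ?_))
    · have := C.lanes (i + (S - 1))
      split_ifs <;> omega
    · rw [idx_mod hp.1]
      have h1 := hp.1
      cases q with
      | zero => simp
      | succ q =>
        rw [if_pos (Nat.succ_ne_zero q), if_neg (Nat.succ_ne_zero q), Nat.add_sub_cancel,
          show S * p + (q + 1) + (S - 1) = S * (p + 1) + q by rw [mul_add]; omega]
        exact C.look (by omega)
  have le : ∀ p q, (if q = 0 then 0 else h (p + 1) (q - 1)) ≤ h p q := fun p q => by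
    cases q with
    | zero => simp
    | succ q => simpa using C.bor.2 p q
  rw [Fo.dl1, e, sm_sub hS fun p q _ => le p q, g_eq (S := S), c47_eq (S := S), sm_add,
    sm_landG' hS fun p q _ => by have := C.bnd p q; omega]
  exact sm_congr hS fun p q _ => if_congr (by omega) rfl rfl

theorem dl_eq : Fo.dl S N (sm S N h) =
    sm S N fun p q => if (if q = 0 then 0 else h (p + 1) (q - 1)) < h p q ∧
      (1 < ey h p q ∨ h p (q + 1) = 0) then 512 else 0 := by
  have hS := C.hS
  rw [Fo.dl, C.dl1_eq, C.ey_eq, C.hn_eq, g_eq (S := S), c46_eq (S := S), sm_add,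
    sm_sub hS fun p q _ => by have := C.bnd p q; omega,
    sm_landG hS fun p q _ => by have := C.bnd p q; omega,
    sm_landG hS fun p q _ => by omega, sm_orG 2048 (by omega), sm_shrG 2 512 rfl]
  refine sm_congr hS fun p q _ => if_congr ?_ rfl rfl
  have := C.bnd p q
  omega

theorem x0_eq : Fo.x0 N (sm S N h) = bg S N fun _ _ a b => h a b := by
  have := C.dims
  rw [Fo.x0, sm_spr C.hS (by omega) _ fun p q _ => by have := C.le57 p q; omega, blk_brd]

theorem dn1 {f : ℕ → ℕ → ℕ} (k : ℕ) (hf : ∀ a b, f a b = h a (b + k)) :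
    Nat.land (Nat.shiftRight (bg S N fun _ _ a b => f a b) (Fo.w1 N)) (Fo.m1 S N) =
      bg S N fun _ _ a b => h a (b + (k + 1)) := by
  have hS := C.hS
  have hl : ∀ a b, f a b < 4096 := fun a b => by
    have := C.le57 a (b + k)
    rw [hf]
    omega
  have e := bg_dn (N := N) hS (f := f) (g := fun a b => if S * a + b + 1 < N then
    f ((S * a + b + 1) / S) ((S * a + b + 1) % S) else 0) 1 hl fun a b _ => rfl
  rw [mul_one] at e
  rw [m1_eq, show Nat.shiftRight (bg S N fun _ _ a b => f a b) (Fo.w1 N) = _ from e,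
    bg_mask hS fun p q a b _ => by
      split_ifs
      · exact hl _ _
      · omega]
  refine bg_congr hS fun p q a b hp => ?_
  split_ifs with c c'
  · rw [add_assoc, idx_div c, idx_mod c, hf]
    congr 1
    omega
  · exact (C.zero (by omega)).symm
  · exact (C.zero (by omega)).symm

theorem x1_eq : Fo.x1 S N (sm S N h) = bg S N fun _ _ a b => h a (b + 1) := by
  rw [Fo.x1, C.x0_eq]
  exact C.dn1 0 fun _ _ => rfl

theorem x2_eq : Fo.x2 S N (sm S N h) = bg S N fun _ _ a b => h a (b + 2) := by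
  rw [Fo.x2, C.x1_eq]
  exact C.dn1 1 fun _ _ => rfl

theorem cP_eq : Fo.cP S N = bg S N fun p q a b => 2048 + (a + b) - (p + q) - tri p q a b := by
  have hS := C.hS
  rw [← blk_nest]
  refine pk_congr _ _ _ _ fun j hj => ?_
  have e : Fo.o (Nat.succ j) = sm S N fun p q => tri p q (j / S) (j % S) := by
    refine (pk_pad 12 (j + 1) _ N hj).trans (pk_sm hS fun p q hp => ?_)
    have := idx_lt (a := j / S) hp.1 (Nat.mod_lt j hS) (p := p)
    rw [Nat.div_add_mod] at this
    unfold tri
    split_ifs <;> omega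
  rw [e, o_eq (S := S), sm_mul, cD_eq, sm_sub hS fun p q hp => ?_, sm_sub hS fun p q hp => ?_]
  · exact sm_congr hS fun p q _ => by rw [one_mul]; rfl
  · have := C.small hp
    change _ ≤ 1 * (2048 + (j / S + j % S)) - (p + q)
    generalize j / S + j % S = z
    unfold tri
    split_ifs <;> omega
  · have := C.small hp
    change _ ≤ 1 * (2048 + (j / S + j % S))
    generalize j / S + j % S = z
    omega

theorem ge_eq : Fo.ge S N (sm S N h) = bg S N fun p q _ _ => 2048 - ey h p q := by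
  rw [Fo.ge, C.ey_eq, g_eq (S := S), sm_sub C.hS fun p q _ => by have := C.bnd p q; omega, sm_rep]

theorem du_eq : Fo.du S N (sm S N h) = bg S N fun p q a b => h a (b + 1) + (2048 - ey h p q) := by
  rw [Fo.du, C.x1_eq, C.ge_eq, bg_add]

theorem uu_eq : Fo.uu S N (sm S N h) = bg S N (uu h) := by
  rw [Fo.uu, C.du_eq, bG_eq (S := S), bg_tsG C.hS fun p q a b _ => by have := C.bnd a b; omega]
  refine bg_congr C.hS fun p q a b _ => ?_
  have := C.bnd p q
  unfold uu
  omega

theorem zz_eq : Fo.zz S N (sm S N h) = bg S N fun p q _ _ => dz h p q + 2048 := by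
  rw [Fo.zz, C.dz_eq, g_eq (S := S), sm_add, sm_rep]

theorem eb_eq : Fo.eb S N (sm S N h) = bg S N fun _ _ a b => ey h a b := by
  rw [Fo.eb, C.x0_eq, C.x1_eq, bg_sub C.hS fun p q a b _ => (C.bnd a b).2.1]
  rfl

theorem bnd2 (p q a b : ℕ) : uu h p q a b ≤ 57 ∧ t3 h p q a b ≤ 114 ∧ room1 h p q a b ≤ h a b ∧
    room h p q a b ≤ room1 h p q a b ∧ rx h q a b ≤ 64 ∧ ry h p q a b ≤ 200 := by
  have h1 := C.bnd p q
  have h2 := C.bnd a b
  have h3 := C.bnd a 0
  have h4 := C.le57 (p - 1) (q + 2)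
  unfold room room1 t3 uu rx ry
  split_ifs <;> omega

theorem t3_eq : Fo.t3 S N (sm S N h) = bg S N fun p q a b => t3 h p q a b + 2048 := by
  rw [Fo.t3, C.zz_eq, C.uu_eq, C.eb_eq, bG_eq (S := S), bg_mnG C.hS fun p q a b _ => by
    have := C.bnd p q; have := C.bnd2 p q a b; omega, bg_add]
  refine bg_congr C.hS fun p q a b _ => ?_
  unfold t3
  omega

theorem d0_eq : Fo.d0 S N (sm S N h) =
    bg S N fun p q a b => h a b + a + b + 2048 - (h p q + p + q + tri p q a b) := by
  have tr : ∀ p q a b, tri p q a b ≤ 1 := fun p q a b => by unfold tri; split_ifs <;> omega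
  rw [Fo.d0, C.x0_eq, C.cP_eq, sm_rep, bg_add, bg_sub C.hS fun p q a b hp => by
    have := C.small hp.1; have := C.le57 p q; have := tr p q a b; omega]
  refine bg_congr C.hS fun p q a b hp => ?_
  have := C.small hp.1
  have := tr p q a b
  omega

theorem gb_eq : Fo.gb S N (sm S N h) = bg S N fun p q _ _ => gg h p q := by
  rw [Fo.gb, C.gg_eq, sm_rep]

theorem r1_eq : Fo.r1 S N (sm S N h) = bg S N fun p q a b => room1 h p q a b + 2048 := by
  have tr : ∀ p q a b, tri p q a b ≤ 1 := fun p q a b => by unfold tri; split_ifs <;> omega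
  rw [Fo.r1, C.t3_eq, C.d0_eq, C.gb_eq, bG_eq (S := S),
    bg_tsG C.hS fun p q a b hp => by have := C.small hp.2; have := C.le57 a b; omega,
    bg_mnG C.hS fun p q a b hp => by
      have := C.small hp.2; have := C.le57 a b; have := C.bnd2 p q a b; omega,
    bg_mnG C.hS fun p q a b hp => by have := C.bnd p q; have := C.bnd2 p q a b; omega]
  refine bg_congr C.hS fun p q a b hp => ?_
  unfold room1 pos
  omega

theorem sum_lt {F : ℕ → ℕ → ℕ → ℕ → ℕ} (hF : ∀ p q a b, F p q a b ≤ h a b) :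
    ∑ j ∈ range N, ∑ i ∈ range N, F (i / S) (i % S) (j / S) (j % S) < 4095 := by
  rw [sum_comm]
  refine (sum_le_card_nsmul _ _ 57 fun i _ =>
    (sum_le_sum fun j _ => hF _ _ _ _).trans C.tot).trans_lt ?_
  have := C.dims
  rw [card_range, smul_eq_mul]
  omega

theorem s0_eq : Fo.s0 S N (sm S N h) =
    ∑ j ∈ range N, ∑ i ∈ range N, room1 h (i / S) (i % S) (j / S) (j % S) := by
  rw [Fo.s0, C.r1_eq, bG_eq (S := S), bg_sub C.hS fun p q a b _ => by omega,
    bg_congr (G := room1 h) C.hS fun p q a b _ => Nat.add_sub_cancel _ _]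
  exact bg_sum (room1 h) (C.sum_lt fun p q a b => (C.bnd2 p q a b).2.2.1)

theorem rx_eq : Fo.rx S N (sm S N h) = bg S N fun _ q a b => rx h q a b := by
  have hS := C.hS
  have e : Nat.shiftRight (bg S N fun _ _ a b => h a b) (Nat.mul (Fo.w1 N) S) =
      bg S N fun _ _ a b => h (a + 1) b := by
    refine bg_dn hS S (fun a b => by have := C.le57 a b; omega) fun a b ha => ?_
    rw [show S * a + b + S = S * (a + 1) + b by ring]
    exact C.look ha.1
  rw [Fo.rx, C.x0_eq, e, m0_eq, c0_eq, bg_sub hS fun p q a b _ => (C.bnd a b).2.2.2.1,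
    bg_mask hS fun p q a b _ => by have := C.le57 a b; omega, bg_add]
  refine bg_congr hS fun p q a b _ => ?_
  unfold rx
  by_cases c : b = 0 ∧ q ≠ 0
  · rw [if_pos c, if_pos c, if_pos ⟨c.1, by omega⟩, c.1, add_zero]
  · rw [if_neg c, if_neg c, if_neg (by omega)]

theorem ya_eq : Fo.ya S N (sm S N h) =
    bg S N fun p q a b => ey h a b + (ey h a (b + 1) - ey h p q) := by
  rw [Fo.ya, C.eb_eq, C.x1_eq, C.x2_eq, C.ge_eq, bG_eq (S := S),
    bg_sub C.hS fun p q a b _ => (C.bnd a b).2.2.1, bg_add,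
    bg_tsG C.hS fun p q a b _ => by have := C.bnd a b; omega, bg_add]
  refine bg_congr C.hS fun p q a b _ => ?_
  have := C.bnd a b
  have := C.bnd p q
  omega

theorem ry_eq : Fo.ry S N (sm S N h) = bg S N (ry h) := by
  have hb : ∀ p q, (if p = 0 then 128 else h (p - 1) (q + 2)) ≤ 128 := fun p q => by
    have := C.le57 (p - 1) (q + 2)
    split_ifs <;> omega
  rw [Fo.ry, C.ya_eq, C.x0_eq, C.x2_eq, C.hz_eq, sm_rep, bG_eq (S := S),
    bg_sub C.hS fun p q a b _ => by have := C.bnd a b; omega, bg_add,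
    bg_sub C.hS fun p q a b _ => by have := C.bnd a b; have := C.bnd p q; omega,
    bg_tsG C.hS fun p q a b _ => by have := C.bnd a b; have := hb p q; omega, bg_add]
  refine bg_congr C.hS fun p q a b _ => ?_
  have := C.bnd a b
  have := C.bnd p q
  unfold ry
  omega

theorem rg_eq : Fo.rg S N (sm S N h) = bg S N fun p q a b => room h p q a b + 2048 := by
  rw [Fo.rg, C.r1_eq, C.rx_eq, C.ry_eq, bG_eq (S := S),
    bg_mnG C.hS fun p q a b _ => by have := C.bnd a b; have := C.bnd2 p q a b; omega,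
    bg_mnG C.hS fun p q a b _ => by have := C.bnd2 p q a b; omega]
  rfl

theorem rm_eq : Fo.rm S N (sm S N h) = bg S N (room h) := by
  rw [Fo.rm, C.rg_eq, bG_eq (S := S), bg_sub C.hS fun p q a b _ => by omega]
  exact bg_congr C.hS fun p q a b _ => Nat.add_sub_cancel _ _

theorem s1_eq : Fo.s1 S N (sm S N h) =
    ∑ j ∈ range N, ∑ i ∈ range N, room h (i / S) (i % S) (j / S) (j % S) := by
  rw [Fo.s1, C.rm_eq]
  exact bg_sum (room h) (C.sum_lt (room_le_h C.bor))

end Ctx

end Pool.Agent.Lib.MP_ed43e6_ag.Q
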