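import Pool.Agent.Lib.MP_ed43e6_ag.Q.FoS

/-! The meaning of the gain vectors and soundness of the test at one staircase. -/

namespace Pool.Agent.Lib.MP_ed43e6_ag.Q

open Finset N N.Comb

section Defs

variable (h : ℕ → ℕ → ℕ) (S N : ℕ)

def sRoom : ℕ := ∑ j ∈ range N, ∑ i ∈ range N, room h (i / S) (i % S) (j / S) (j % S)
def fcol (a b : ℕ) : ℕ :=
  ∑ i ∈ range N, (fEB h (i / S) (i % S) a b + 2 - fa0 h (i / S) (i % S) a b) +
    if 0 < dz h a b ∧ 1 < dy h a b then 512 else 0
def frow (n p q : ℕ) : ℕ :=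
  ∑ j ∈ range N, (fEC h p q (j / S) (j % S) + 4 -
      (fxy h p q (j / S) (j % S) + fpz h p q (j / S) (j % S))) +
    (if (if q = 0 then 0 else h (p + 1) (q - 1)) < h p q ∧ (1 < ey h p q ∨ h p (q + 1) = 0)
      then 512 else 0) + (sRoom h S N + 1026 - (3 * n + 6 * N))
def fdd (n p q a b : ℕ) : ℕ := fcol h S N a b + frow h S N n p q + fov h p q a b - 2048
def fcc (p q a b : ℕ) : ℕ :=
  ∑ i ∈ range N, fEB h (i / S) (i % S) a b +
    (∑ j ∈ range N, fEC h p q (j / S) (j % S) + sRoom h S N)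

end Defs

theorem mul_bit {x y : ℕ} (hx : x ≤ 1) (hy : y ≤ 1) : x * y ≤ 1 := by
  interval_cases x <;> omega

theorem f_bnd (h : ℕ → ℕ → ℕ) (p q a b : ℕ) : fEB h p q a b ≤ 1 ∧ fEC h p q a b ≤ 1 ∧
    fa0 h p q a b ≤ 2 ∧ fxy h p q a b ≤ 2 ∧ fpz h p q a b ≤ 2 ∧ fo2 h p q a b ≤ 4 := by
  have h1 := f_le h p q a b
  have h2 := f_le h p q a (b - 1)
  have h3 := f_le h (p + 1) q a b
  have h4 := f_le h p (q + 1) a b
  have h5 := f_le h (p + 1) (q - 1) a b
  have h6 := mul_bit h3.2.1 h3.2.2.2.2.2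
  have h7 := mul_bit h4.2.2.1 h4.2.2.2.2.2
  unfold fEB fEC fa0 fo2 fxy fpz us zs
  split_ifs <;> omega

theorem fov_le (h : ℕ → ℕ → ℕ) (p q a b : ℕ) : fov h p q a b ≤ 8 := by
  have h1 := f_le h p q a b
  have h5 := f_le h (p + 1) (q - 1) a b
  have h6 := mul_bit h1.2.2.2.2.1 h1.1
  have h7 := mul_bit h5.2.2.2.1 h5.1
  have h8 := f_bnd h p q a b
  have h9 := f_bnd h p q a (b - 1)
  unfold fov us zs
  beta_reduce
  split_ifs <;> omega

theorem sum_le_mul {n c : ℕ} {f : ℕ → ℕ} (h : ∀ i, f i ≤ c) : ∑ i ∈ range n, f i ≤ n * c := by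
  have := sum_le_card_nsmul (range n) f c fun i _ => h i
  rwa [card_range, smul_eq_mul] at this

theorem sum_sub_add {n c : ℕ} {f g : ℕ → ℕ} (h : ∀ i, g i ≤ c) :
    ∑ i ∈ range n, (f i + c - g i) + ∑ i ∈ range n, g i = ∑ i ∈ range n, f i + n * c := by
  rw [← sum_add_distrib, sum_congr rfl fun i _ => Nat.sub_add_cancel ((h i).trans
    (Nat.le_add_left _ _)), sum_add_distrib, sum_const, card_range, smul_eq_mul]

namespace Ctx

variable {h : ℕ → ℕ → ℕ} {S N : ℕ} (C : Ctx h S N)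
include C

theorem room57 (p q a b : ℕ) : room h p q a b ≤ 57 := (room_le_h C.bor p q a b).trans (C.le57 a b)

theorem nz_eq : Fo.nz S N (sm S N h) =
    bg S N fun p q a b => if 0 < room h p q a b then 2048 else 0 := by
  rw [Fo.nz, C.rm_eq, b47_eq (S := S), bG_eq (S := S), bg_add,
    bg_landG' C.hS fun p q a b _ => by have := C.room57 p q a b; omega]
  exact bg_congr C.hS fun p q a b _ => if_congr (by omega) rfl rfl

theorem gen_eq {F : ℕ → ℕ → ℕ} (hF : ∀ p q, F p q ≤ 128) :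
    geG (Fo.nz S N (sm S N h)) (Nat.sub (Fo.rg S N (sm S N h)) (bg S N fun p q _ _ => F p q)) =
      bg S N fun p q a b => if 0 < room h p q a b ∧ F p q ≤ room h p q a b then 1 else 0 := by
  rw [C.nz_eq, C.rg_eq, bg_sub C.hS fun p q a b _ => by have := hF p q; omega,
    bg_geG C.hS fun p q a b _ => by have := C.room57 p q a b; omega]
  exact bg_congr C.hS fun p q a b _ => if_congr (by have := hF p q; omega) rfl rfl

theorem gA_eq : Fo.gA S N (sm S N h) = bg S N (fA h) := by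
  rw [Fo.gA, C.gb_eq, C.gen_eq fun p q => by have := C.bnd p q; omega]
  rfl

theorem gX_eq : Fo.gX S N (sm S N h) = bg S N (fX h) := by
  rw [Fo.gX, C.dx_eq, sm_rep, C.gen_eq fun p q => by have := C.bnd p q; omega]
  rfl

theorem gY_eq : Fo.gY S N (sm S N h) = bg S N (fY h) := by
  rw [Fo.gY, C.dy_eq, sm_rep, C.gen_eq fun p q => by have := C.bnd p q; omega]
  rfl

theorem e3_eq : Fo.e3 S N (sm S N h) = bg S N fun p q a b => if E3 h p q a b then 2048 else 0 := by
  rw [Fo.e3, C.rg_eq, C.t3_eq, C.nz_eq, bG_eq (S := S), bg_add,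
    bg_sub C.hS fun p q a b _ => by have := C.bnd2 p q a b; omega,
    bg_landG C.hS fun p q a b _ => by have := C.room57 p q a b; omega]
  refine bg_congr C.hS fun p q a b _ => if_congr ?_ rfl rfl
  have := C.bnd2 p q a b
  unfold E3
  omega

theorem gZ_eq : Fo.gZ S N (sm S N h) = bg S N (fZ h) := by
  rw [Fo.gZ, C.e3_eq, C.uu_eq, C.zz_eq, bH_eq (S := S), bg_add,
    bg_sub C.hS fun p q a b _ => by have := C.bnd p q; omega,
    bg_geG C.hS fun p q a b _ => by have := C.bnd2 p q a b; omega]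
  refine bg_congr C.hS fun p q a b _ => if_congr (and_congr_right fun _ => ?_) rfl rfl
  have := C.bnd p q
  omega

theorem gP_eq : Fo.gP S N (sm S N h) = bg S N (fP h) := by
  rw [Fo.gP, C.e3_eq, C.du_eq, bg_landG C.hS fun p q a b _ => by have := C.bnd a b; omega,
    bg_sub C.hS fun p q a b _ => by by_cases c : E3 h p q a b <;> simp [c]; split_ifs <;> omega,
    bg_congr (G := fun p q a b => if E3 h p q a b ∧ h a (b + 1) < ey h p q then 2048 else 0) C.hS
      fun p q a b _ => ?_, bg_shrG 11 1 rfl]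
  · rfl
  · have := C.bnd p q
    by_cases c : E3 h p q a b
    · simp only [c, true_and, if_true]
      split_ifs <;> omega
    · simp only [c, false_and, if_false]

theorem gB_eq : Fo.gB S N (sm S N h) = bg S N (fB h) := by
  rw [Fo.gB, C.gZ_eq, C.gP_eq]
  exact (bg_orG 1 (by omega)).trans
    (bg_congr C.hS fun p q a b _ => if_congr and_or_left.symm rfl rfl)

theorem room_top {a b : ℕ} (hz : b + 1 = S ∨ S * a + b + 1 = N) (p q : ℕ) :
    room h p q a b = 0 := by
  have h1 := room_le_h C.bor p q a b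
  have h2 := C.zero (a := a) (b := b) (by omega)
  omega

theorem room_in {p q a b : ℕ} (hr : room h p q a b ≠ 0) : In S N p q :=
  C.fits.in_of_gg (by have := (room_le h p q a b).1; omega)

theorem fX_zero (q a b : ℕ) : fX h 0 q a b = 0 := by
  have h1 := C.room57 0 q a b
  have h2 := C.le57 0 q
  refine if_neg ?_
  simp only [dx, if_true]
  omega

theorem fY_zero (p a b : ℕ) : fY h p 0 a b = 0 := by
  have h1 := C.room57 p 0 a b
  have h2 := C.le57 p 0
  refine if_neg ?_
  simp only [dy, if_true]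
  omega

theorem fZ_zero (q a b : ℕ) : fZ h 0 q a b = 0 := by
  have h1 := C.bnd2 0 q a b
  have h2 := C.le57 0 q
  refine if_neg fun c => ?_
  have := c.2
  simp only [dz, if_true] at this
  omega

theorem fZ_top (p a b : ℕ) : fZ h p (S - 1) a b = 0 := by
  cases p with
  | zero => exact C.fZ_zero _ _ _
  | succ p =>
    have h1 := (room_le h (p + 1) (S - 1) a b).1
    have h2 := C.zero (a := p) (b := S - 1) (by omega)
    simp only [gg, dx, Nat.add_sub_cancel, if_neg (Nat.succ_ne_zero p)] at h1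
    exact (f_zero (by omega)).2.2.2.1

theorem shX {F : ℕ → ℕ → ℕ → ℕ → ℕ} (hF : ∀ p q a b, F p q a b ≤ fX h p q a b) :
    Nat.shiftRight (bg S N F) (Fo.w1 S) = bg S N fun p q a b => F (p + 1) q a b :=
  bg_shX C.hS C.dims.2.2.1.le
    (fun p q a b => by have := hF p q a b; have := f_le h p q a b; omega)
    (fun q a b => by have := hF 0 q a b; have := C.fX_zero q a b; omega)
    fun p q a b c => C.room_in (a := a) (b := b) fun e => by
      have := hF p q a b; have := f_zero e; omega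

theorem shY {F : ℕ → ℕ → ℕ → ℕ → ℕ} (hF : ∀ p q a b, F p q a b ≤ fY h p q a b) :
    Nat.shiftRight (bg S N F) 12 = bg S N fun p q a b => F p (q + 1) a b :=
  bg_shY C.hS C.dims.2.2.1.le
    (fun p q a b => by have := hF p q a b; have := f_le h p q a b; omega)
    (fun p a b => by have := hF p 0 a b; have := C.fY_zero p a b; omega)
    fun p q a b c => C.room_in (a := a) (b := b) fun e => by
      have := hF p q a b; have := f_zero e; omega

theorem shZ {F : ℕ → ℕ → ℕ → ℕ → ℕ} (hF : ∀ p q a b, F p q a b ≤ fZ h p q a b) :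
    Nat.shiftRight (bg S N F) (Fo.w0 S) = bg S N (zs F) :=
  bg_shZ C.hS C.dims.2.2.1.le
    (fun p q a b => by have := hF p q a b; have := f_le h p q a b; omega)
    (fun q a b => by have := hF 0 q a b; have := C.fZ_zero q a b; omega)
    (fun p a b => by have := hF p (S - 1) a b; have := C.fZ_top p a b; omega)
    fun p q a b c => C.room_in (a := a) (b := b) fun e => by
      have := hF p q a b; have := f_zero e; omega

theorem a0_eq : Fo.a0 S N (sm S N h) = bg S N (fa0 h) := by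
  rw [Fo.a0, C.gA_eq, C.gB_eq,
    bg_up C.hS fun p q a b hz => (f_zero (C.room_top hz p q)).2.2.2.2.2, bg_add]
  rfl

theorem xy_eq : Fo.xy S N (sm S N h) = bg S N (fxy h) := by
  rw [Fo.xy, C.gX_eq, C.gY_eq, C.shX fun _ _ _ _ => le_rfl, C.shY fun _ _ _ _ => le_rfl, bg_add]
  rfl

theorem pz_eq : Fo.pz S N (sm S N h) = bg S N (fpz h) := by
  rw [Fo.pz, C.gP_eq, C.gZ_eq, C.shZ fun _ _ _ _ => le_rfl, bg_add]
  rfl

theorem ov_eq : Fo.ov S N (sm S N h) = bg S N (fov h) := by
  have m : ∀ {x y : ℕ}, y ≤ 1 → x * y ≤ x := fun {x y} hy =>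
    (Nat.mul_le_mul_left x hy).trans (mul_one x).le
  rw [Fo.ov, C.xy_eq, C.pz_eq, C.gP_eq, C.gA_eq, C.gZ_eq, C.gX_eq, C.gY_eq, C.gB_eq,
    bg_bitand (F := fP h) C.hS fun p q a b _ => by have := f_le h p q a b; omega,
    bg_bitand (F := fZ h) C.hS fun p q a b _ => by have := f_le h p q a b; omega,
    bg_bitand (F := fX h) C.hS fun p q a b _ => by have := f_le h p q a b; omega,
    bg_bitand (F := fY h) C.hS fun p q a b _ => by have := f_le h p q a b; omega,
    C.shZ fun p q a b => m (f_le h p q a b).1, C.shX fun p q a b => m (f_le h p q a b).2.2.2.2.2,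
    C.shY fun p q a b => m (f_le h p q a b).2.2.2.2.2, bg_add, bg_add, bg_add, bg_add,
    bg_up C.hS fun p q a b hz => ?_, bg_add]
  · rfl
  · have h1 := f_zero (C.room_top hz p q)
    have h2 := f_zero (C.room_top hz (p + 1) q)
    have h3 := f_zero (C.room_top hz p (q + 1))
    have h4 := f_zero (C.room_top hz (p + 1) (q - 1))
    unfold fpz zs
    rw [h1.2.2.2.2.1, h2.2.1, h3.2.2.1, h4.2.2.2.1]
    simp

theorem d0_lt {p q a b : ℕ} (hp : In S N p q ∧ In S N a b) :
    h a b + a + b + 2048 - (h p q + p + q + tri p q a b) < 4096 ∧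
    (2048 ≤ h a b + a + b + 2048 - (h p q + p + q + tri p q a b) ↔ EE h p q a b) := by
  have := C.small hp.2
  have := C.le57 a b
  unfold EE
  omega

theorem eB_eq : Fo.eB S N (sm S N h) = bg S N (fEB h) := by
  rw [Fo.eB, C.d0_eq, C.zg_eq, sm_rep, bG_eq (S := S),
    bg_geG' C.hS fun p q a b hp => (C.d0_lt hp).1,
    bg_bitand C.hS fun p q a b _ => by split_ifs <;> omega]
  refine bg_congr C.hS fun p q a b hp => ?_
  unfold fEB
  simp only [(C.d0_lt hp).2]
  by_cases c : EE h p q a b <;> simp [c]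

theorem eC_eq : Fo.eC S N (sm S N h) = bg S N (fEC h) := by
  rw [Fo.eC, C.d0_eq, C.x0_eq, b47_eq (S := S), bG_eq (S := S), bg_add,
    bg_landG' C.hS fun p q a b _ => by have := C.le57 a b; omega,
    bg_geG C.hS fun p q a b hp => (C.d0_lt hp).1]
  exact bg_congr C.hS fun p q a b hp =>
    if_congr (and_congr (by omega) (C.d0_lt hp).2) rfl rfl

theorem col_eq : Fo.col S N (sm S N h) = bg S N fun _ _ a b => fcol h S N a b := by
  have hd := C.dims
  rw [Fo.col, C.eB_eq, C.a0_eq, C.ad_eq, o2_eq (S := S), bg_add,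
    bg_sub C.hS fun p q a b _ => by have := f_bnd h p q a b; omega,
    bg_bs C.hS (by omega) _ 3 (by omega) fun p q a b _ => by have := f_bnd h p q a b; omega,
    sm_spr C.hS (by omega) _ fun p q _ => by split_ifs <;> omega, Nat.add_eq, pk_add]
  exact blk_brd (fcol h S N)

theorem row_eq (n : ℕ) : Fo.row S N (sm S N h) n = bg S N fun p q _ _ => frow h S N n p q := by
  have hd := C.dims
  rw [Fo.row, C.eC_eq, C.xy_eq, C.pz_eq, C.dl_eq, o4_eq (S := S), bg_add, bg_add,
    bg_sub C.hS fun p q a b _ => by have := f_bnd h p q a b; omega,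
    bg_fold C.hS (by omega) _ 5 (by omega) fun p q a b _ => by have := f_bnd h p q a b; omega,
    o_eq (S := S), sm_mul, sm_add, sm_add, sm_rep, Fo.kk, C.s1_eq]
  exact bg_congr C.hS fun p q a b _ => by rw [one_mul]; rfl

theorem t_lt (n : ℕ) (hs : sRoom h S N ≤ 1000) (p q a b : ℕ) :
    fcol h S N a b + frow h S N n p q + fov h p q a b < 4096 := by
  have hd := C.dims
  have h1 := sum_le_mul (n := N) (c := 3)
    (f := fun i => fEB h (i / S) (i % S) a b + 2 - fa0 h (i / S) (i % S) a b) fun i => by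
      have := f_bnd h (i / S) (i % S) a b; omega
  have h2 := sum_le_mul (n := N) (c := 5) (f := fun j => fEC h p q (j / S) (j % S) + 4 -
    (fxy h p q (j / S) (j % S) + fpz h p q (j / S) (j % S))) fun j => by
      have := f_bnd h p q (j / S) (j % S); omega
  have h3 := fov_le h p q a b
  unfold fcol frow
  split_ifs <;> omega

theorem dd_eq (n : ℕ) (hs : sRoom h S N ≤ 1000) :
    Fo.dd S N (sm S N h) n = bg S N (fdd h S N n) := by
  rw [Fo.dd, C.col_eq, C.row_eq, C.ov_eq, bG_eq (S := S), bg_add, bg_add,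
    bg_tsG C.hS fun p q a b _ => C.t_lt n hs p q a b]
  rfl

theorem cc_eq : Fo.cc S N (sm S N h) = bg S N (fcc h S N) := by
  have hd := C.dims
  rw [Fo.cc, C.eB_eq, C.eC_eq, C.s1_eq,
    bg_bs C.hS (by omega) _ 1 (by omega) fun p q a b _ => (f_bnd h p q a b).1,
    bg_fold C.hS (by omega) _ 1 (by omega) fun p q a b _ => (f_bnd h p q a b).2.1,
    blk_brd fun a b => ∑ i ∈ range N, fEB h (i / S) (i % S) a b, o_eq (S := S), sm_mul, sm_add,
    sm_rep, bg_add]
  exact bg_congr C.hS fun p q a b _ => by rw [one_mul]; rfl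

theorem spec (hn : 32 ≤ size h) (hn' : size h ≤ 57) (hs : sRoom h S N ≤ 1000) :
    Spec h S N (size h) (sm S N h) (Fo.dd S N (sm S N h) (size h)) (Fo.cc S N (sm S N h))
      (Fo.rm S N (sm S N h))
      (fun l => fdd h S N (size h) (l % N / S) (l % N % S) (l / N / S) (l / N % S))
      fun l => fcc h S N (l % N / S) (l % N % S) (l / N / S) (l / N % S) where
  bor := C.bor
  size_eq := rfl
  n_ge := hn
  n_le := hn'
  fits := C.fits
  H_eq := rfl
  D_eq := C.dd_eq _ hs
  C_eq := C.cc_eq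
  R_eq := C.rm_eq
  d_lt l _ := by
    have := C.t_lt (size h) hs (l % N / S) (l % N % S) (l / N / S) (l / N % S)
    unfold fdd
    omega
  c_lt l _ := by
    have hd := C.dims
    have h1 := sum_le_mul (n := N) (c := 1)
      (f := fun i => fEB h (i / S) (i % S) (l / N / S) (l / N % S)) fun i => (f_bnd h _ _ _ _).1
    have h2 := sum_le_mul (n := N) (c := 1)
      (f := fun j => fEC h (l % N / S) (l % N % S) (j / S) (j % S)) fun i => (f_bnd h _ _ _ _).2.1
    unfold fcc
    omega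
  flag h0 h2 p0 q0 a1 b1 e0 e1 B0 B2 := by
    obtain ⟨f1, f2, f3, f4, f5, f6, -⟩ := flag_facts e0 e1 B0 B2 C.fits C.le57
    have g1 := C.fits.pos f2
    have g2 : S * a1 + b1 < N := by omega
    have g3 : b1 < S := by omega
    have hd := C.dims
    obtain ⟨R, hR, hc⟩ := flag_RF e0 e1 B0 C.bor B2 C.fits C.le57
    obtain ⟨hR1, hc1⟩ := flag_R1 e0 e1 B0 C.bor B2 C.fits C.le57
    simp only [idx_div g2, idx_mod g2, idx_div g3, idx_mod g3, idx_div f1.1, idx_mod f1.1]
    refine ⟨f1.1, f1.2, g1.1, by omega, ⟨R, hR, ?_⟩, hR1, ?_⟩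
    · have s1 := sum_sub_add (n := N) (c := 2) (f := fun i => fEB h (i / S) (i % S) p0 q0)
        (g := fun i => fa0 h (i / S) (i % S) p0 q0) fun i => (f_bnd h _ _ _ _).2.2.1
      have s2 := sum_sub_add (n := N) (c := 4) (f := fun j => fEC h a1 b1 (j / S) (j % S))
        (g := fun j => fxy h a1 b1 (j / S) (j % S) + fpz h a1 b1 (j / S) (j % S)) fun j => by
          have := f_bnd h a1 b1 (j / S) (j % S); omega
      unfold fdd fcol frow sRoom
      rw [if_pos ⟨f3, f4⟩, if_pos ⟨f5, f6⟩]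
      omega
    · unfold fcc sRoom
      omega

theorem easy {P : GP} (hP : ∀ g D, P g D 0)
    (hc : sRoom h S N + Fo.cnt S N (sm S N h) + 2 ≤ 3 * size h) : AllFine P h := by
  intro h0 h2 p0 q0 a1 b1 e0 e1 B0 B2
  obtain ⟨hR1, hc1⟩ := flag_R1 e0 e1 B0 C.bor B2 C.fits C.le57
  refine ⟨_, 0, hR1, hP _ _, ?_⟩
  rw [C.cnt_eq, sum_add_distrib] at hc
  have h1 : ∑ i ∈ range N, fEB h (i / S) (i % S) p0 q0 ≤
      ∑ i ∈ range N, if 0 < gg h (i / S) (i % S) then 1 else 0 := sum_le_sum fun i _ => by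
    unfold fEB
    split_ifs with c1 c2
    · exact le_rfl
    · exact absurd c1.1 c2
    · exact Nat.zero_le _
    · exact le_rfl
  have h2 : ∑ j ∈ range N, fEC h a1 b1 (j / S) (j % S) ≤
      ∑ i ∈ range N, if 0 < h (i / S) (i % S) then 1 else 0 := sum_le_sum fun i _ => by
    unfold fEC
    split_ifs with c1 c2
    · exact le_rfl
    · exact absurd c1.1 c2
    · exact Nat.zero_le _
    · exact le_rfl
  unfold sRoom at hc
  omega

theorem chk0_sound {P : GP} (hP : ∀ g D, P g D 0) {hook : ℕ → ℕ → ℕ → ℕ → ℕ → ℕ → ℕ → Bool}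
    (hH : HookSound P hook) (hn' : size h ≤ 57)
    (e : Fo.chk0 hook S N (sm S N h) (size h) = true) (hn : 32 ≤ size h) : AllFine P h := by
  rw [Fo.chk0, bor_iff, bor_iff, bor_iff, band_iff, bor_iff, Nat.ble_eq, Nat.ble_eq, Nat.ble_eq,
    Nat.ble_eq, Nat.beq_eq, C.s0_eq, C.s1_eq] at e
  simp only [Nat.add_eq, Nat.mul_eq] at e
  rcases e with e | e | e | ⟨e1, e | e⟩
  · omega
  · refine C.easy hP (le_trans ?_ e)
    exact Nat.add_le_add_right (Nat.add_le_add_right
      (sum_le_sum fun j _ => sum_le_sum fun i _ => (C.bnd2 _ _ _ _).2.2.2.1) _) _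
  · exact C.easy hP e
  · have sp := C.spec hn hn' e1
    intro h0 h2 p0 q0 a1 b1 e0 e1' B0 B2
    obtain ⟨f1, f2, f3, f4, ⟨R, hR, hc⟩, -⟩ := sp.flag h0 h2 p0 q0 a1 b1 e0 e1' B0 B2
    have z := pk_eq_zero _ _ _ (sp.D_eq.symm.trans e) _
      (lane_lt (i := S * a1 + b1) (by omega) f2)
    exact ⟨R, 0, hR, hP _ _, by omega⟩
  · exact hH _ _ _ _ _ _ _ _ _ _ (C.spec hn hn' e1) e

end Ctx

end Pool.Agent.Lib.MP_ed43e6_ag.Q
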