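import Pool.Agent.Lib.MP_ed43e6_ag.Q.Comb

/-! The gains coming from the largest and the smallest staircase of a flag. -/

namespace Pool.Agent.Lib.MP_ed43e6_ag.Q

open Finset N N.Comb

section Defs

variable (h : ℕ → ℕ → ℕ)

def fA (p q a b : ℕ) : ℕ := if 0 < room h p q a b ∧ gg h p q ≤ room h p q a b then 1 else 0
def fX (p q a b : ℕ) : ℕ := if 0 < room h p q a b ∧ dx h p q ≤ room h p q a b then 1 else 0
def fY (p q a b : ℕ) : ℕ := if 0 < room h p q a b ∧ dy h p q ≤ room h p q a b then 1 else 0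
def E3 (p q a b : ℕ) : Prop := 0 < room h p q a b ∧ t3 h p q a b ≤ room h p q a b
instance (p q a b : ℕ) : Decidable (E3 h p q a b) := by unfold E3; infer_instance
def fZ (p q a b : ℕ) : ℕ := if E3 h p q a b ∧ dz h p q ≤ uu h p q a b then 1 else 0
def fP (p q a b : ℕ) : ℕ := if E3 h p q a b ∧ h a (b + 1) < ey h p q then 1 else 0
def fB (p q a b : ℕ) : ℕ :=
  if E3 h p q a b ∧ (dz h p q ≤ uu h p q a b ∨ h a (b + 1) < ey h p q) then 1 else 0

/-- The gain from the added column `p0, q0`. -/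
def γ0 (p0 q0 p q a b : ℕ) : ℕ :=
  (if a = p0 ∧ b = q0 then fA h p q a b else 0) + if a = p0 ∧ b + 1 = q0 then fB h p q a b else 0

/-- The gain from the shortened column `a1, b1`. -/
def γ2 (a1 b1 p q a b : ℕ) : ℕ :=
  (if p = a1 ∧ q = b1 then fP h p q a b else 0) +
  (if p = a1 + 1 ∧ q = b1 then fX h p q a b else 0) +
  (if p = a1 ∧ q = b1 + 1 then fY h p q a b else 0) +
  if p = a1 + 1 ∧ q + 1 = b1 then fZ h p q a b else 0

def ρF (p0 q0 a1 b1 p q a b : ℕ) : ℕ :=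
  room h p q a b - max (γ0 h p0 q0 p q a b) (γ2 h a1 b1 p q a b)

end Defs

variable {h h0 h2 : ℕ → ℕ → ℕ} {p0 q0 a1 b1 S N : ℕ}

theorem room_le (h : ℕ → ℕ → ℕ) (p q a b : ℕ) :
    room h p q a b ≤ gg h p q ∧ room h p q a b ≤ t3 h p q a b ∧ room h p q a b ≤ pos h p q a b := by
  unfold room room1
  omega

theorem rb_le (h : ℕ → ℕ → ℕ) (p q a b : ℕ) :
    rb h p q a b ≤ dx h p q ∧ rb h p q a b ≤ dy h p q ∧ rb h p q a b ≤ t3 h p q a b := by
  unfold rb gg
  omega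

theorem γ0_cases (h : ℕ → ℕ → ℕ) (p0 q0 p q a b : ℕ) : γ0 h p0 q0 p q a b = 0 ∨
    (γ0 h p0 q0 p q a b = 1 ∧ 0 < room h p q a b ∧
      ((a = p0 ∧ b = q0 ∧ gg h p q ≤ room h p q a b) ∨
       (a = p0 ∧ b + 1 = q0 ∧ t3 h p q a b ≤ room h p q a b ∧
          (dz h p q ≤ uu h p q a b ∨ h a (b + 1) < ey h p q)))) := by
  unfold γ0 fA fB E3
  split_ifs <;> omega

theorem γ2_cases (h : ℕ → ℕ → ℕ) (a1 b1 p q a b : ℕ) : γ2 h a1 b1 p q a b = 0 ∨
    (γ2 h a1 b1 p q a b = 1 ∧ 0 < room h p q a b ∧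
      ((p = a1 ∧ q = b1 ∧ t3 h p q a b ≤ room h p q a b ∧ h a (b + 1) < ey h p q) ∨
       (p = a1 + 1 ∧ q = b1 ∧ dx h p q ≤ room h p q a b) ∨
       (p = a1 ∧ q = b1 + 1 ∧ dy h p q ≤ room h p q a b) ∨
       (p = a1 + 1 ∧ q + 1 = b1 ∧ t3 h p q a b ≤ room h p q a b ∧
          dz h p q ≤ uu h p q a b))) := by
  unfold γ2 fP fX fY fZ E3
  split_ifs <;> omega

theorem bump_ne (h : ℕ → ℕ → ℕ) {p q a b : ℕ} (hn : ¬ (a = p ∧ b = q)) : bump h p q a b = h a b :=
  if_neg hn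

theorem bump_self (h : ℕ → ℕ → ℕ) (p q : ℕ) : bump h p q p q = h p q + 1 := if_pos ⟨rfl, rfl⟩

theorem roleA {p q a b : ℕ} (r0 : 0 < room h p q a b) (r1 : gg h p q ≤ room h p q a b) :
    bump h a b p q = h p q ∧ rb (bump h a b) p q a b ≤ room h p q a b := by
  obtain ⟨l1, -, l3⟩ := room_le h p q a b
  obtain ⟨m1, m2, -⟩ := rb_le (bump h a b) p q a b
  have n1 : ¬ (p = a ∧ q = b) := by
    rintro ⟨rfl, rfl⟩
    unfold pos tri at l3
    split_ifs at l3 <;> omega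
  have e1 := bump_ne h n1
  refine ⟨e1, ?_⟩
  have k1 := bump_cases h a b (p - 1) q
  have k2 := bump_cases h a b p (q - 1)
  unfold gg at r1 l1
  unfold dx dy at *
  unfold pos tri at l3
  rw [e1] at m1 m2
  by_cases c1 : p - 1 = a ∧ q = b
  · obtain ⟨rfl, rfl⟩ := c1
    split_ifs at * <;> omega
  by_cases c2 : p = a ∧ q - 1 = b
  · obtain ⟨rfl, rfl⟩ := c2
    split_ifs at * <;> omega
  split_ifs at * <;> omega

theorem roleB (B1 : Bor h) {p q a b : ℕ} (B0 : Bor (bump h a (b + 1))) (r0 : 0 < room h p q a b)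
    (r1 : t3 h p q a b ≤ room h p q a b)
    (r2 : dz h p q ≤ uu h p q a b ∨ h a (b + 1) < ey h p q) :
    bump h a (b + 1) p q = h p q ∧ rb (bump h a (b + 1)) p q a b < room h p q a b := by
  obtain ⟨-, l2, l3⟩ := room_le h p q a b
  obtain ⟨-, -, m3⟩ := rb_le (bump h a (b + 1)) p q a b
  have e0 : bump h a (b + 1) a b = h a b := bump_ne h (by omega)
  have e2 := bump_self h a (b + 1)
  have b0 := B0.1 a b
  rw [e0, e2] at b0
  have n1 : ¬ (p = a ∧ q = b + 1) := by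
    rintro ⟨rfl, rfl⟩
    unfold pos tri at l3
    unfold t3 ey at r1
    split_ifs at l3 <;> omega
  have n2 : ¬ (p = a ∧ q + 1 = b + 1) := by
    rintro ⟨rfl, e⟩
    obtain rfl : q = b := by omega
    unfold pos tri at l3
    split_ifs at l3 <;> omega
  have e1 := bump_ne h n1
  have e3 := bump_ne h n2
  refine ⟨e1, ?_⟩
  have e4 : dz (bump h a (b + 1)) p q = dz h p q := by
    unfold dz
    rw [e1]
    split_ifs with hp
    · rfl
    rw [bump_ne h]
    rintro ⟨rfl, e⟩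
    obtain rfl : q = b := by omega
    have b1 := B1.2 (p - 1) q
    rw [Nat.sub_add_cancel (by omega)] at b1
    unfold pos tri at l3
    unfold t3 at r1
    unfold dz uu ey at *
    split_ifs at * <;> omega
  unfold t3 at m3 r1
  rw [e4] at m3
  unfold uu ey at *
  rw [e0, e1, e2, e3] at m3
  omega

theorem roleP {p q a b : ℕ} (B2 : Bor h2) (r0 : 0 < room (bump h2 p q) p q a b)
    (r1 : t3 (bump h2 p q) p q a b ≤ room (bump h2 p q) p q a b)
    (r2 : bump h2 p q a (b + 1) < ey (bump h2 p q) p q) :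
    bump h2 p q a b = h2 a b ∧ rb h2 p q a b ≤ room (bump h2 p q) p q a b := by
  obtain ⟨-, -, l3⟩ := room_le (bump h2 p q) p q a b
  obtain ⟨-, -, m3⟩ := rb_le h2 p q a b
  have n1 : ¬ (a = p ∧ b = q) := by
    rintro ⟨rfl, rfl⟩
    unfold pos tri at l3
    split_ifs at l3 <;> omega
  have n2 : ¬ (a = p ∧ b + 1 = q) := by
    rintro ⟨rfl, rfl⟩
    unfold pos tri at l3
    unfold t3 ey at r1
    split_ifs at l3 <;> omega
  have e1 := bump_ne h2 n1
  have e2 := bump_ne h2 n2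
  have e3 := bump_self h2 p q
  have e4 : bump h2 p q p (q + 1) = h2 p (q + 1) := bump_ne h2 (by omega)
  have y := bor_y B2 p q
  refine ⟨e1, ?_⟩
  unfold t3 uu ey at *
  rw [e1, e2, e3, e4] at r1
  rw [e2, e3, e4] at r2
  omega

theorem roleX {p q a b : ℕ} (r0 : 0 < room (bump h2 p q) (p + 1) q a b)
    (r1 : dx (bump h2 p q) (p + 1) q ≤ room (bump h2 p q) (p + 1) q a b) :
    bump h2 p q a b = h2 a b ∧ bump h2 p q (p + 1) q = h2 (p + 1) q ∧
      rb h2 (p + 1) q a b < room (bump h2 p q) (p + 1) q a b := by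
  obtain ⟨l1, -, l3⟩ := room_le (bump h2 p q) (p + 1) q a b
  obtain ⟨m1, -, -⟩ := rb_le h2 (p + 1) q a b
  have e3 := bump_self h2 p q
  have e4 : bump h2 p q (p + 1) q = h2 (p + 1) q := bump_ne h2 (by omega)
  unfold gg at l1
  unfold dx at *
  simp only [Nat.add_sub_cancel, if_neg (Nat.succ_ne_zero p)] at *
  have n1 : ¬ (a = p ∧ b = q) := by
    rintro ⟨rfl, rfl⟩
    unfold pos tri at l3
    split_ifs at l3 <;> omega
  exact ⟨bump_ne h2 n1, e4, by omega⟩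

theorem roleY {p q a b : ℕ} (r0 : 0 < room (bump h2 p q) p (q + 1) a b)
    (r1 : dy (bump h2 p q) p (q + 1) ≤ room (bump h2 p q) p (q + 1) a b) :
    bump h2 p q a b = h2 a b ∧ bump h2 p q p (q + 1) = h2 p (q + 1) ∧
      rb h2 p (q + 1) a b < room (bump h2 p q) p (q + 1) a b := by
  obtain ⟨l1, -, l3⟩ := room_le (bump h2 p q) p (q + 1) a b
  obtain ⟨-, m1, -⟩ := rb_le h2 p (q + 1) a b
  have e3 := bump_self h2 p q
  have e4 : bump h2 p q p (q + 1) = h2 p (q + 1) := bump_ne h2 (by omega)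
  unfold gg at l1
  unfold dy at *
  simp only [Nat.add_sub_cancel, if_neg (Nat.succ_ne_zero q)] at *
  have n1 : ¬ (a = p ∧ b = q) := by
    rintro ⟨rfl, rfl⟩
    unfold pos tri at l3
    split_ifs at l3 <;> omega
  exact ⟨bump_ne h2 n1, e4, by omega⟩

theorem roleZ {p q a b : ℕ} (B1 : Bor (bump h2 p (q + 1))) (B2 : Bor h2)
    (r0 : 0 < room (bump h2 p (q + 1)) (p + 1) q a b)
    (r1 : t3 (bump h2 p (q + 1)) (p + 1) q a b ≤ room (bump h2 p (q + 1)) (p + 1) q a b)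
    (r2 : dz (bump h2 p (q + 1)) (p + 1) q ≤ uu (bump h2 p (q + 1)) (p + 1) q a b) :
    bump h2 p (q + 1) a b = h2 a b ∧ bump h2 p (q + 1) (p + 1) q = h2 (p + 1) q ∧
      rb h2 (p + 1) q a b < room (bump h2 p (q + 1)) (p + 1) q a b := by
  obtain ⟨-, -, l3⟩ := room_le (bump h2 p (q + 1)) (p + 1) q a b
  obtain ⟨-, -, m3⟩ := rb_le h2 (p + 1) q a b
  have e3 := bump_self h2 p (q + 1)
  have e4 : bump h2 p (q + 1) (p + 1) q = h2 (p + 1) q := bump_ne h2 (by omega)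
  have e5 : bump h2 p (q + 1) (p + 1) (q + 1) = h2 (p + 1) (q + 1) := bump_ne h2 (by omega)
  have z := B2.2 p q
  have y := B1.1 a b
  unfold t3 uu ey dz at *
  simp only [Nat.add_sub_cancel, if_neg (Nat.succ_ne_zero p)] at *
  have n1 : ¬ (a = p ∧ b = q + 1) := by
    rintro ⟨rfl, rfl⟩
    unfold pos tri at l3
    split_ifs at l3 <;> omega
  have n2 : ¬ (a = p ∧ b + 1 = q + 1) := by
    rintro ⟨rfl, e⟩
    obtain rfl : b = q := by omega
    unfold pos tri at l3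
    split_ifs at l3 <;> omega
  have e1 := bump_ne h2 n1
  have e2 := bump_ne h2 n2
  refine ⟨e1, e4, ?_⟩
  rw [e1, e2, e3, e4, e5] at r1
  rw [e2, e3, e4, e5] at r2
  omega

theorem ok_flag (e0 : h0 = bump h p0 q0) (e1 : h = bump h2 a1 b1) (B0 : Bor h0) (B1 : Bor h)
    (B2 : Bor h2) (hF : Fits h S N) (h58 : ∀ a b, h a b ≤ 58) :
    OkR h0 h h2 (ρF h p0 q0 a1 b1) := by
  intro p q s a b t hs ht hk
  by_cases c : h p q + room h p q a b ≤ s
  · have h3 := hF.pos (a := a) (b := b) (by omega)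
    have h4 := hF.2.1
    have h5 := h58 a b
    have h6 := key_lt_imp (by omega) hk
    rw [room_eq] at c
    unfold pos at c
    left
    omega
  unfold ρF at hs
  rcases γ0_cases h p0 q0 p q a b with c0 | ⟨c0, r0, c0'⟩
  · rcases γ2_cases h a1 b1 p q a b with c2 | ⟨c2, r0, c2'⟩
    · omega
    right; right
    rcases c2' with ⟨rfl, rfl, r1, r2⟩ | ⟨rfl, rfl, r1⟩ | ⟨rfl, rfl, r1⟩ | ⟨rfl, rfl, r1, r2⟩
    · subst e1
      have := roleP B2 r0 r1 r2
      have := bump_self h2 p q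
      omega
    · subst e1
      have := roleX r0 r1
      omega
    · subst e1
      have := roleY r0 r1
      omega
    · subst e1
      have := roleZ B1 B2 r0 r1 r2
      omega
  · have c2 : γ2 h a1 b1 p q a b ≤ 1 := by
      rcases γ2_cases h a1 b1 p q a b with c2 | ⟨c2, -⟩ <;> omega
    right; left
    subst e0
    rcases c0' with ⟨rfl, rfl, r1⟩ | ⟨rfl, rfl, r1, r2⟩
    · have := roleA r0 r1
      have := bump_self h a b
      omega
    · have := roleB B1 B0 r0 r1 r2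
      have : bump h a (b + 1) a b = h a b := bump_ne h (by omega)
      omega

theorem ρF_le (h : ℕ → ℕ → ℕ) (p0 q0 a1 b1 p q a b : ℕ) :
    ρF h p0 q0 a1 b1 p q a b + γ0 h p0 q0 p q a b + γ2 h a1 b1 p q a b ≤
      room h p q a b + γ0 h p0 q0 p q a b * γ2 h a1 b1 p q a b := by
  unfold ρF
  rcases γ0_cases h p0 q0 p q a b with c0 | ⟨c0, r0, -⟩ <;>
    rcases γ2_cases h a1 b1 p q a b with c2 | ⟨c2, r2, -⟩ <;> rw [c0, c2] <;> omega

end Pool.Agent.Lib.MP_ed43e6_ag.Q
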