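import Pool.Agent.Lib.MP_ed43e6_ag.N.All
import Pool.Agent.Lib.MP_ed43e6_ag.Q.Punct
import Pool.Agent.Lib.MP_ed43e6_ag.Q.Gen

/-! The reduction to a finite verification, for an arbitrary gain predicate. -/

namespace Pool.Agent.Lib.MP_ed43e6_ag.Q

open MvPolynomial Module Finset N

universe u

open N.Chain in
theorem chainStmtP {P : GP} (hSec : SecondP.{u} P) (M : ℕ) (hM100 : M ≤ 100)
    (hCheck : CheckP P M) (n : ℕ) (hn32 : 32 ≤ n) (hnM : n ≤ M) : Q.ChainStmt.{u} n := by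
  intro K Ω _ _ _ hchar I h01 h12 hM f0 f1 f2 hB
  have hMj : ∀ j, mm Ω ^ (n + 1) ≤ I j := by
    intro j
    fin_cases j
    · exact hM
    · exact hM.trans h01
    · exact (hM.trans h01).trans h12
  choose lam nf hnf using fun j => nfStmt Ω (I j) (n + 1) (by omega) (hMj j)
  choose h hh using fun j => exists_height (hMj j) (hnf j).mem_iff
  have hsub : ∀ j k, I j ≤ I k → lam k ⊆ lam j := fun j k hjk u hu =>
    ((hnf j).mem_iff u).2 fun hi => ((hnf k).mem_iff u).1 hu (ini_mono hjk hi)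
  have c0 := (hnf 0).card
  have c1 := (hnf 1).card
  have c2 := (hnf 2).card
  obtain ⟨p0, q0, e0⟩ := exists_bump (hh 1) (hh 0) (hsub 0 1 h01) (by omega)
  obtain ⟨a1, b1, e1⟩ := exists_bump (hh 2) (hh 1) (hsub 1 2 h12) (by omega)
  have hbor : ∀ j, Bor (h j) := fun j => bor_of (hB j) (hnf j).mem_iff (hh j)
  have hlt : ∀ j a b t, t < h j a b → a < 128 ∧ b < 128 ∧ t < 128 := by
    intro j a b t ht
    by_contra hc
    exact ((hnf j).mem_iff _).1 ((hh j a b t).2 ht) (mem_ini_of_deg (hMj j) (by omega))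
  have hsz : size (h 1) = n := by
    rw [size_eq (hh 1), c1, f1]
    intro a b t hu
    have := hlt 1 a b t ((hh 1 a b t).1 hu)
    exact ⟨this.1, this.2.1⟩
  obtain ⟨R, k, hR, hG, hcnt⟩ := hCheck (h 0) (h 1) (h 2) p0 q0 a1 b1 e0 e1 (hbor 0) (hbor 1)
    (hbor 2) (by omega) (by omega)
  have hh3 : ![h 0, h 1, h 2] = h := by
    funext j
    fin_cases j <;> rfl
  rw [hh3, hsz] at hG
  obtain ⟨S, hS, hmem⟩ := hSec K Ω n (by omega) hchar I lam nf h h01 h12 hnf hh hlt R hR k hG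
  exact ⟨lam, nf, S, hnf, by omega, fun j u v => mem_cl.2 (hmem j u v)⟩

theorem smAllC (M : ℕ) (hC : ∀ n, 32 ≤ n → n ≤ M → Q.ChainStmt.{u} n) (D d : ℕ)
    (hD : d ≤ D) (hd : d ≤ M + 1) : SmAll.{u} D d := by
  induction d using Nat.strong_induction_on with | _ d ih => ?_
  by_cases h32 : d ≤ 32
  · exact smAll D d hD h32
  obtain ⟨n, rfl⟩ : ∃ n, d = n + 1 := ⟨d - 1, by omega⟩
  exact step_of_punct D n (by omega) (Q.punct_of_chain n (by omega) (hC n (by omega) (by omega)))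
    fun e he => ih e he (by omega) (by omega)

theorem tables_primeC (M : ℕ) (hC : ∀ n, 32 ≤ n → n ≤ M → Q.ChainStmt.{u} n)
    (K : Type u) [Field K] [IsAlgClosed K] (d : ℕ) (hd : d ≤ M + 1)
    (hk : ringChar K = 0 ∨ d ≤ ringChar K) : (vanishingIdeal K (tables K (Fin d))).IsPrime :=
  primeStmt K (Fin d) fun I hI h =>
    smAllC M hC d d le_rfl hd K (cast_ne_zero hk) I hI (h.trans (Fintype.card_fin d))

theorem tables_primeP {P : GP} (hS : SecondP.{u} P) (M : ℕ) (hM : M ≤ 100) (hC : CheckP P M)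
    (K : Type u) [Field K] [IsAlgClosed K] (d : ℕ) (hd : d ≤ M + 1)
    (hk : ringChar K = 0 ∨ d ≤ ringChar K) : (vanishingIdeal K (tables K (Fin d))).IsPrime :=
  tables_primeC M (chainStmtP hS M hM hC) K d hd hk

end Pool.Agent.Lib.MP_ed43e6_ag.Q
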