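import Pool.Agent.Lib.MP_ed43e6_ag.Q.Base

/-! The kernel checker, second order part: bitboards. The box `(a, b, t)` sits at the bit
`1152 (a + 1) + 48 (b + 1) + (t + 1)`. A difference `δ` is written `(da - 7, db - 11, dt - 23)`. -/

namespace Pool.Agent.Lib.MP_ed43e6_ag.Q.Bd

def full : Nat := 0xffffff000000ffffff000000ffffff000000ffffff000000ffffff000000ffffff000000ffffff000000ffffff000000ffffff000000ffffff000000ffffff000000ffffff000000000000000000000000000000000000000000000000000000000000000000000000000000000000000000000000000000000000000000000000000000000000000000000000000000ffffff000000ffffff000000ffffff000000ffffff000000ffffff000000ffffff000000ffffff000000ffffff000000ffffff000000ffffff000000ffffff000000ffffff000000000000000000000000000000000000000000000000000000000000000000000000000000000000000000000000000000000000000000000000000000000000000000000000000000ffffff000000ffffff000000ffffff000000ffffff000000ffffff000000ffffff000000ffffff000000ffffff000000ffffff000000ffffff000000ffffff000000ffffff000000000000000000000000000000000000000000000000000000000000000000000000000000000000000000000000000000000000000000000000000000000000000000000000000000ffffff0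00000ffffff000000ffffff000000ffffff000000ffffff000000ffffff000000ffffff000000ffffff000000ffffff000000ffffff000000ffffff000000ffffff000000000000000000000000000000000000000000000000000000000000000000000000000000000000000000000000000000000000000000000000000000000000000000000000000000ffffff000000ffffff000000ffffff000000ffffff000000ffffff000000ffffff000000ffffff000000ffffff000000ffffff000000ffffff000000ffffff000000ffffff000000000000000000000000000000000000000000000000000000000000000000000000000000000000000000000000000000000000000000000000000000000000000000000000000000ffffff000000ffffff000000ffffff000000ffffff000000ffffff000000ffffff000000ffffff000000ffffff000000ffffff000000ffffff000000ffffff000000ffffff000000000000000000000000000000000000000000000000000000000000000000000000000000000000000000000000000000000000000000000000000000000000000000000000000000ffffff000000ffffff000000ffffff000000ffffff000000ffffff000000ffffff000000ffffff000000ffffff000000ffffff000000ffffff000000ffffff000000ffffff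
def col1 : Nat := 0x20000000000020000000000020000000000020000000000020000000000020000000000020000000000020000000000020000000000020000000000000000000000000000000000000000000000000000000000000000000000000000000000000000000000000000000000000000000000000000000000000000000000000000000000000000000000000000000000020000000000020000000000020000000000020000000000020000000000020000000000020000000000020000000000020000000000020000000000000000000000000000000000000000000000000000000000000000000000000000000000000000000000000000000000000000000000000000000000000000000000000000000000000000000000000000000000020000000000020000000000020000000000020000000000020000000000020000000000020000000000020000000000020000000000020000000000000000000000000000000000000000000000000000000000000000000000000000000000000000000000000000000000000000000000000000000000000000000000000000000000000000000000000000000000020000000000020000000000020000000000020000000000020000000000020000000000020000000000020000000000020000000000020000000000000000000000000000000000000000000000000000000000000000000000000000000000000000000000000000000000000000000000000000000000000000000000000000000000000000000000000000000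00002000000000002000000000002000000000002000000000002000000000002000000000002000000000002000000000002000000000002000000000000000000000000000000000000000000000000000000000000000000000000000000000000000000000000000000000000000000000000000000000000000000000000000000000000000000000000000000000002000000000002000000000002000000000002000000000002000000000002000000000002000000000002000000000002000000000002000000000000000000000000000000000000000000000000000000000000000000000000000000000000000000000000000000000000000000000000000000000000000000000000000000000000000000000000000000000000000000000000000000000000000000000000000000000000000000000000000000000000000000000000000000000000000000000000000000000000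
def faceA : Nat := 0xffffffffffffffffffffffffffffffffffffffffffffffffffffffffffffffffffffffffffffffffffffffffffffffffffffffffffffffffffffffffffffffffffffffffffffffffffffffffffffffffffffffffffffffffffffffffffffffffffffffffffffffffffffffffffffffffffffffffffffffffffffffffffffffffffffffffffffffffffffffffffffffff000000000000000000000000000000000000000000000000000000000000000000000000000000000000000000000000000000000000000000000000000000000000000000000000000000000000000000000000000000000000000000000000000000000000000000000000000000000000000000000000000000000000000000000000000000000000000000000000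
def faceB : Nat := 0xffffffffffff000000000000000000000000000000000000000000000000000000000000000000000000000000000000000000000000000000000000000000000000000000000000000000000000000000000000000000000000000000000000000000000000000000000000000000000000000000000000000000000000000000000000000000000000000000000000ffffffffffff000000000000000000000000000000000000000000000000000000000000000000000000000000000000000000000000000000000000000000000000000000000000000000000000000000000000000000000000000000000000000000000000000000000000000000000000000000000000000000000000000000000000000000000000000000000000ffffffffffff000000000000000000000000000000000000000000000000000000000000000000000000000000000000000000000000000000000000000000000000000000000000000000000000000000000000000000000000000000000000000000000000000000000000000000000000000000000000000000000000000000000000000000000000000000000000ffffffffffff0000000000000000000000000000000000000000000000000000000000000000000000000000000000000000000000000000000000000000000000000000000000000000000000000000000000000000000000000000000000000000000000000000000000000000000000000000000000000000000000000000000000000000000000000000000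00000ffffffffffff000000000000000000000000000000000000000000000000000000000000000000000000000000000000000000000000000000000000000000000000000000000000000000000000000000000000000000000000000000000000000000000000000000000000000000000000000000000000000000000000000000000000000000000000000000000000ffffffffffff000000000000000000000000000000000000000000000000000000000000000000000000000000000000000000000000000000000000000000000000000000000000000000000000000000000000000000000000000000000000000000000000000000000000000000000000000000000000000000000000000000000000000000000000000000000000ffffffffffff000000000000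

noncomputable section

def band (a b : Bool) : Bool := Bool.rec false b a
def bor (a b : Bool) : Bool := Bool.rec b true a
def allLt (n : Nat) (f : Nat → Bool) : Bool := Nat.rec true (fun i r => Bool.rec false r (f i)) n
def andn (a t : Nat) : Nat := Nat.xor a (Nat.land a t)
def sub? (a b : Nat) : Bool := Nat.beq (Nat.land a b) a
def code (x y w : Nat) : Nat := Nat.add (Nat.add (Nat.mul 1152 x) (Nat.mul 48 y)) w

/-- Move a board by the difference with code `c`. -/
def shf (B c : Nat) : Nat := Nat.shiftRight (Nat.shiftLeft B (Nat.sub c 8615)) (Nat.sub 8615 c)
/-- Move a board by minus the difference with code `c`. -/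
def ush (B c : Nat) : Nat := Nat.shiftRight (Nat.shiftLeft B (Nat.sub 8615 c)) (Nat.sub c 8615)

/-- The boxes `v` (also in the three layers with a coordinate `-1`) such that `v - δ` has
nonnegative coordinates and lies outside the staircase `z`. -/
def oo (z da db dt : Nat) : Nat :=
  andn (Nat.shiftLeft full (code (Nat.sub da 6) (Nat.sub db 10) (Nat.sub dt 22)))
    (shf z (code da db dt))

def lk (z O e : Nat) : Nat := Nat.land (Nat.shiftLeft O e) z
def up (L e X : Nat) : Nat := Nat.lor X (Nat.land (Nat.shiftLeft X e) L)
def dn (L e X : Nat) : Nat := Nat.lor X (Nat.shiftRight (Nat.land X L) e)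
def step (L0 L1 L2 X : Nat) : Nat :=
  dn L0 1152 (up L0 1152 (dn L1 48 (up L1 48 (dn L2 1 (up L2 1 X)))))

/-- Flood fill along the links; `0` if the fuel runs out. -/
def fill (L0 L1 L2 fuel : Nat) : Nat → Nat :=
  Nat.rec (fun _ => 0) (fun _ r X =>
    Bool.rec (r (step L0 L1 L2 X)) X (Nat.beq (step L0 L1 L2 X) X)) fuel

/-- The class of the bit `i` at the level `z`. -/
def cls (z O i : Nat) : Nat := fill (lk z O 1152) (lk z O 48) (lk z O 1) 40 (Nat.shiftLeft 1 i)

/-- Remove the lowest bit. -/
def drop (x : Nat) : Nat := Nat.land x (Nat.sub x 1)

/-- The number of bits, or at least `100`. -/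
def pc (fuel : Nat) : Nat → Nat :=
  Nat.rec (fun _ => 100) (fun _ r x => Bool.rec (Nat.succ (r (drop x))) 0 (Nat.beq x 0)) fuel

def sp (B : Nat) : Nat :=
  Nat.lor (Nat.lor (Nat.shiftLeft B 1152) (Nat.shiftLeft B 48)) (Nat.shiftLeft B 1)
def sm (B : Nat) : Nat :=
  Nat.lor (Nat.lor (Nat.shiftRight B 1152) (Nat.shiftRight B 48)) (Nat.shiftRight B 1)

/-- A set containing the boxes that can be added. -/
def addB (z : Nat) : Nat :=
  Nat.land (Nat.land (andn (Nat.lor (Nat.shiftLeft z 1) col1) z)
    (Nat.lor (Nat.shiftLeft z 1104) faceA)) (Nat.lor (Nat.shiftLeft z 47) faceB)
/-- A set containing the boxes that can be removed. -/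
def delB (z : Nat) : Nat :=
  andn (andn (andn z (Nat.shiftRight z 1)) (Nat.shiftRight z 1104)) (Nat.shiftRight z 47)

/-! Words of 34 bits describe classes. -/

def wd (C a : Nat) : Nat := Nat.land (Nat.shiftRight C
  (Nat.add (Nat.mul 81 (Nat.shiftRight a 1)) (Nat.mul 34 (Nat.land a 1)))) 17179869183
def fdt (w : Nat) : Nat := Nat.land w 63
def fdb (w : Nat) : Nat := Nat.land (Nat.shiftRight w 6) 31
def fda (w : Nat) : Nat := Nat.land (Nat.shiftRight w 11) 15
def fiv (w : Nat) : Nat := Nat.land (Nat.shiftRight w 15) 8191
def fe (w : Nat) : Nat := Nat.shiftRight w 28
def fc (w : Nat) : Nat := code (fda w) (fdb w) (fdt w)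
def fO (z w : Nat) : Nat := oo z (fda w) (fdb w) (fdt w)
def fX (z w : Nat) : Nat := cls z (fO z w) (fiv w)
def fU (z w : Nat) : Nat := ush (fX z w) (fc w)

def okCl (z w : Nat) : Bool :=
  band (band (Nat.ble (fdt w) 46) (Nat.ble (fdb w) 22))
    (band (Nat.ble 676120 (Nat.add (Nat.add (Nat.mul 16384 (fda w)) (Nat.mul 16512 (fdb w)))
        (Nat.mul 16513 (fdt w))))
      (band (Nat.ble 1 (fX z w)) (sub? (fX z w) (Nat.land (fO z w) z))))

/-- Added boxes that destroy the class. -/
def dead0 (z w : Nat) : Nat :=
  Bool.rec (Nat.land (Nat.land (sp (fX z w)) (addB z)) (sp (andn (fO z w) (fX z w)))) 0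
    (Nat.beq (Nat.land (sp (fX z w)) (addB z)) 0)
/-- Removed boxes that destroy the class. -/
def dead2 (z w : Nat) : Nat :=
  Bool.rec (Nat.lor
      (Nat.land (Nat.land (sm (fU z w)) (delB z)) (sm (Nat.xor (ush z (fc w)) (fU z w))))
      (andn (Nat.land (sm (fU z w)) (delB z)) (ush z (fc w)))) 0
    (Nat.beq (Nat.land (sm (fU z w)) (delB z)) 0)

/-- The second class of a group is a copy of the first one: a loop. -/
def dup (C a : Nat) : Bool :=
  band (Nat.beq (Nat.land a 1) 1) (Nat.beq (wd C a) (wd C (Nat.pred a)))

/-! Matrices of `n` times `n` lanes of 26 bits, lane `n a + b` for the pair of classes `a, b`. -/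

def fk (w : Nat) : Nat := Nat.add (Nat.mul (fc w) 256) (fe w)
def on (n : Nat) : Nat := pk 26 n fun _ => 1
def os (n : Nat) : Nat := pk (Nat.mul 26 n) n fun _ => 1
def oa (n : Nat) : Nat := Nat.mul (on n) (os n)
def g24 (n : Nat) : Nat := Nat.mul (oa n) 16777216
def c25 (n : Nat) : Nat := Nat.mul (oa n) 33554431
def hiM (n : Nat) : Nat := Nat.mul (oa n) 33554304
def cM (n : Nat) : Nat := Nat.mul (oa n) 8388352
/-- The top bits of the lanes with `a + e ≤ b`. -/
def tri (e n : Nat) : Nat := pk (Nat.mul 26 n) n fun a => pk 26 n fun b =>
  Bool.rec 0 33554432 (Nat.ble (Nat.add a e) b)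
def mA (C n : Nat) : Nat := Nat.mul (pk 26 n fun b => frc (wd C b) fk) (os n)
def mB (C n : Nat) : Nat := Nat.mul (pk (Nat.mul 26 n) n fun a => frc (wd C a) fk) (on n)
def mS (C n : Nat) : Nat := Nat.add (Nat.add (mA C n) (mB C n)) (g24 n)
/-- The lanes of the triangle `t` where `x` vanishes. -/
def zer (n t x : Nat) : Nat := Nat.xor (Nat.land (Nat.add x (c25 n)) t) t

/-- The lane of the lowest bit. -/
def low (n x : Nat) : Nat :=
  Nat.sub (Nat.mod (Nat.land (Nat.xor x (Nat.sub x 1)) (oa n)) 67108863) 1

/-- Test `f` at the pairs given by the bits of a matrix. -/
def hits (n : Nat) (f : Nat → Nat → Bool) (fuel : Nat) : Nat → Bool :=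
  Nat.rec (fun _ => false) (fun _ r x => Bool.rec
    (band (f (Nat.div (low n x) n) (Nat.mod (low n x) n)) (r (drop x))) true (Nat.beq x 0)) fuel

def dist (z C n : Nat) : Bool :=
  hits n (fun a b => bor (dup C b) (frc (wd C a) fun wa => frc (wd C b) fun wb =>
      Nat.beq (Nat.land (fX z wa) (fX z wb)) 0)) 300
    (zer n (tri 1 n) (Nat.land (Nat.xor (mA C n) (mB C n)) (cM n)))

/-- The board counted by the trace; `XS` is the first class moved by the difference of `N`, `U`
the sources of the second class. -/
def tb (N XS U i k : Nat) : Nat :=
  Nat.land (Nat.land N (Nat.shiftLeft XS i)) (Nat.shiftRight U k)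

def posP (N XS U : Nat) : Nat :=
  Nat.add (Nat.add (pc 40 (tb N XS U 1152 1)) (pc 40 (tb N XS U 48 1152))) (pc 40 (tb N XS U 1 48))
def posQ (N XS U : Nat) : Nat :=
  Nat.add (Nat.add (pc 40 (tb N XS U 1152 48)) (pc 40 (tb N XS U 48 1))) (pc 40 (tb N XS U 1 1152))

def nosup (N XS U : Nat) : Bool :=
  Nat.beq (Nat.lor (Nat.lor (Nat.lor (tb N XS U 1152 1) (tb N XS U 48 1152))
    (Nat.lor (tb N XS U 1 48) (tb N XS U 1152 48))) (Nat.lor (tb N XS U 48 1) (tb N XS U 1 1152))) 0

def lead (P Q : Nat) : Bool := band (Nat.ble (Nat.add P Q) 32) (Bool.rec true false (Nat.beq P Q))

def ord (z N cN wa wb : Nat) : Bool :=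
  bor (Nat.beq (Nat.land (fX z wa) (sm (ush N cN))) 0)
    (bor (Nat.beq (Nat.land (fU z wb) (sp N)) 0) (nosup N (shf (fX z wa) cN) (fU z wb)))

/-- The lanes of the leading pair of the group `g`. -/
def ldM (C n g : Nat) : Nat :=
  Nat.shiftLeft (Bool.rec 2251799813685248 (Nat.add 2251799847239680
      (Nat.shiftLeft 2251799813685248 (Nat.mul 26 n))) (dup C (Nat.succ (Nat.mul 2 g))))
    (Nat.mul (Nat.mul 52 (Nat.succ n)) g)

def others (z C n g N cN cs es : Nat) : Bool :=
  hits n (fun a b => frc (wd C a) fun wa => frc (wd C b) fun wb =>
      band (ord z N cN wa wb) (ord z N cN wb wa)) 300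
    (andn (zer n (tri 0 n) (Nat.land (Nat.xor (Nat.sub (mS C n)
      (Nat.mul (oa n) (Nat.add (Nat.mul cs 256) es))) (g24 n)) (hiM n))) (ldM C n g))

def row2 (z C n g wa wb O N cN : Nat) : Bool :=
  band (sub? N (Nat.land O z))
    (band (lead (Nat.add (posP N (shf (fX z wa) cN) (fU z wb)) (posP N (shf (fX z wb) cN) (fU z wa)))
        (Nat.add (posQ N (shf (fX z wa) cN) (fU z wb)) (posQ N (shf (fX z wb) cN) (fU z wa))))
      (others z C n g N cN (Nat.add (fc wa) (fc wb)) (Nat.add (fe wa) (fe wb))))

def row1 (z C n g wa wb sa sb st : Nat) : Bool :=
  band (band (Nat.ble sa 20) (band (band (Nat.ble 10 sb) (Nat.ble sb 32))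
      (band (Nat.ble 22 st) (Nat.ble st 68))))
    (row2 z C n g wa wb (oo z (Nat.sub 20 sa) (Nat.sub 32 sb) (Nat.sub 68 st))
      (cls z (oo z (Nat.sub 20 sa) (Nat.sub 32 sb) (Nat.sub 68 st))
        (Nat.land (Nat.shiftRight C (Nat.add (Nat.mul 81 g) 68)) 8191))
      (code (Nat.sub 20 sa) (Nat.sub 32 sb) (Nat.sub 68 st)))

def row (z C n g wa wb : Nat) : Bool :=
  band (band (okCl z wa) (okCl z wb))
    (row1 z C n g wa wb (Nat.add (fda wa) (fda wb)) (Nat.add (fdb wa) (fdb wb))
      (Nat.add (fdt wa) (fdt wb)))

/-- A block of `K` groups is valid. -/
def okBlk (z C K : Nat) : Bool :=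
  frc (Nat.mul 2 K) fun n =>
    band (allLt K fun g => frc (wd C (Nat.mul 2 g)) fun wa =>
      frc (wd C (Nat.succ (Nat.mul 2 g))) fun wb => row z C n g wa wb) (dist z C n)

end

end Pool.Agent.Lib.MP_ed43e6_ag.Q.Bd
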