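import Pool.Agent.Lib.MP_ed43e6_ag.Q.Hook

/-! A faster kernel checker for blocks of groups. The three classes of a group share one board of
`8064` bits (moved by `0`, `24` and `576` bits), and the boards of all groups form one number. -/

namespace Pool.Agent.Lib.MP_ed43e6_ag.Q.Bd

noncomputable section

namespace X

/-! Lanes of 26 bits: `2 K` words, then the derived words of the third classes. -/

def o2 (K : Nat) : Nat := pk 52 K fun _ => 1
def o1 (K : Nat) : Nat := pk 26 (Nat.mul 2 K) fun _ => 1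
def o4 (K : Nat) : Nat := pk 26 (Nat.mul 4 K) fun _ => 1
def k2 (K c : Nat) : Nat := Nat.mul (o2 K) c
def k1 (K c : Nat) : Nat := Nat.mul (o1 K) c
def k4 (K c : Nat) : Nat := Nat.mul (o4 K) c
def wK (K : Nat) : Nat := Nat.mul 52 K
def lw (C K : Nat) : Nat := Nat.land C (k1 K 32767)
def wn (C K : Nat) : Nat := Nat.land (Nat.sub (k2 K 108612)
  (Nat.land (Nat.add (lw C K) (Nat.shiftRight (lw C K) 26)) (k2 K 65535))) (k2 K 32767)
def v3 (C K : Nat) : Nat := Nat.add (lw C K) (Nat.shiftLeft (wn C K) (wK K))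
def ft (C K : Nat) : Nat := Nat.land (v3 C K) (k4 K 63)
def fb (C K : Nat) : Nat := Nat.land (Nat.shiftRight (v3 C K) 6) (k4 K 31)
def fa (C K : Nat) : Nat := Nat.land (Nat.shiftRight (v3 C K) 11) (k4 K 15)
def cv (C K : Nat) : Nat := code (fa C K) (fb C K) (ft C K)
/-- Lanes `128 + x - y` become `x - y` truncated. -/
def ts (K d : Nat) : Nat := Nat.land d (Nat.sub (Nat.land d (k4 K 128))
  (Nat.shiftRight (Nat.land d (k4 K 128)) 7))
def sv (C K : Nat) : Nat := code (ts K (Nat.add (fa C K) (k4 K 122)))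
  (ts K (Nat.add (fb C K) (k4 K 118))) (ts K (Nat.add (ft C K) (k4 K 106)))
def cs (C K : Nat) : Nat :=
  Nat.land (Nat.add (cv C K) (Nat.shiftRight (cv C K) 26)) (k2 K 65535)
def okF (C K : Nat) : Bool :=
  band (Nat.beq (Nat.land (Nat.lor (Nat.add (ft C K) (k4 K 81)) (Nat.add (fb C K) (k4 K 105)))
      (k4 K 128)) 0)
    (band (Nat.beq (Nat.land (Nat.add (Nat.add (Nat.mul (fa C K) 16384) (Nat.mul (fb C K) 16512))
        (Nat.add (Nat.mul (ft C K) 16513) (k1 K 32878312))) (k1 K 33554432)) (k1 K 33554432))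
      (Nat.beq (Nat.add (cs C K) (Nat.shiftRight (cv C K) (wK K))) (k2 K 24644)))

def ga (V g : Nat) : Nat := Nat.land (Nat.shiftRight V (Nat.mul 52 g)) 32767
def gb (V g : Nat) : Nat := Nat.land (Nat.shiftRight (Nat.shiftRight V (Nat.mul 52 g)) 26) 32767
def gn (V K g : Nat) : Nat :=
  Nat.land (Nat.shiftRight (Nat.shiftRight V (Nat.mul 52 g)) (wK K)) 32767
def ig (C K g : Nat) : Nat := Nat.shiftRight (Nat.shiftRight C (wK K)) (Nat.mul 39 g)

/-! Boards. -/

def f1 : Nat := Nat.shiftLeft full 24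
def f2 : Nat := Nat.shiftLeft full 576
def f3 : Nat := Nat.shiftLeft full 600
def oK (K : Nat) : Nat := pk 8064 K fun _ => 1
def kK (K c : Nat) : Nat := Nat.mul (oK K) c
def nz (z : Nat) : Nat := Nat.xor (Nat.pred (Nat.shiftLeft 1 16679)) z
def ob (f r z c s : Nat) : Nat :=
  Nat.land (Nat.land (Nat.shiftLeft f s) f) (Nat.shiftRight (Nat.shiftLeft (nz z) c) r)
def bO (z C K : Nat) : Nat := pk 8064 K fun g =>
  Nat.lor (Nat.lor (ob full 8615 z (ga (cv C K) g) (ga (sv C K) g))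
    (ob f1 8591 z (gb (cv C K) g) (gb (sv C K) g))) (ob f2 8039 z (gn (cv C K) K g) (gn (sv C K) K g))
def bS (C K : Nat) : Nat := pk 8064 K fun g =>
  Nat.lor (Nat.lor (Nat.land (Nat.shiftLeft 1 (Nat.land (ig C K g) 8191)) full)
    (Nat.land (Nat.shiftLeft 16777216 (Nat.land (Nat.shiftRight (ig C K g) 13) 8191)) f1))
    (Nat.land (Nat.shiftLeft (Nat.shiftLeft 1 576) (Nat.land (Nat.shiftRight (ig C K g) 26) 8191)) f2)
def bZ (z K : Nat) : Nat :=
  kK K (Nat.lor (Nat.lor z (Nat.shiftLeft z 24)) (Nat.shiftLeft z 576))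
def bX (z C K : Nat) : Nat :=
  fill (lk (bZ z K) (bO z C K) 1152) (lk (bZ z K) (bO z C K) 48) (lk (bZ z K) (bO z C K) 1) 40
    (bS C K)
def xa (Y g : Nat) : Nat := Nat.land (Nat.shiftRight Y (Nat.mul 8064 g)) full
def xb (Y g : Nat) : Nat := Nat.land (Nat.shiftRight Y (Nat.mul 8064 g)) f1
def mv (x a b f : Nat) : Nat := Nat.land (Nat.shiftRight (Nat.shiftLeft x a) b) f
def bU (z C K Y : Nat) : Nat := pk 8064 K fun g =>
  Nat.lor (Nat.lor (mv (xb Y g) 8591 (gb (cv C K) g) full) (mv (xa Y g) 8639 (ga (cv C K) g) f1))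
    (Nat.lor (mv z 9191 (gb (cv C K) g) f2) (mv z 9215 (ga (cv C K) g) f3))
def bM (C K Y : Nat) : Nat := pk 8064 K fun g =>
  Nat.lor (mv (xa Y g) (gn (cv C K) K g) 8615 full) (mv (xb Y g) (gn (cv C K) K g) 8615 f1)
def bN (K Y : Nat) : Nat := Nat.land (Nat.shiftRight Y 576) (kK K full)
def eN (K Y M e : Nat) : Nat := Nat.land (Nat.mul (bN K Y) 16777217) (Nat.shiftLeft M e)
def t3 (K Y M U a b c : Nat) : Nat :=
  Nat.lor (Nat.lor (Nat.land (eN K Y M 1152) (Nat.shiftRight U a))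
    (Nat.land (eN K Y M 48) (Nat.shiftRight U b))) (Nat.land (eN K Y M 1) (Nat.shiftRight U c))
def tT (K : Nat) : Nat := kK K (Nat.shiftLeft 1 8063)
def tC (K : Nat) : Nat := kK K (Nat.pred (Nat.shiftLeft 1 8063))
/-- Remove the lowest bit of every board. -/
def dr (K x : Nat) : Nat := Nat.land (Nat.sub (Nat.lor x (tT K)) (oK K)) x
def lead1 (K P Q : Nat) : Bool :=
  band (Nat.beq (Nat.land (Nat.xor (Nat.add P (tC K)) (Nat.add Q (tC K))) (tT K)) (tT K))
    (bor (Nat.beq (dr K (Nat.lor P Q)) 0) (Nat.beq (dr K (dr K (Nat.lor P Q))) 0))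
def pX (a : Nat) : Nat := Nat.sub (Nat.mul 4032 a) (Nat.mul 4008 (Nat.land a 1))
def pU (a : Nat) : Nat := Nat.sub (Nat.add (Nat.mul 4032 a) 24) (Nat.mul 4056 (Nat.land a 1))
def at0 (Y p : Nat) : Nat := Nat.land (Nat.shiftRight Y p) full
def lead2 (C K Y U : Nat) : Bool := allLt K fun g =>
  lead (Nat.add (posP (xa (bN K Y) g) (shf (at0 Y (pX (Nat.mul 2 g))) (gn (cv C K) K g))
        (at0 U (pU (Nat.succ (Nat.mul 2 g)))))
      (posP (xa (bN K Y) g) (shf (at0 Y (pX (Nat.succ (Nat.mul 2 g)))) (gn (cv C K) K g))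
        (at0 U (pU (Nat.mul 2 g)))))
    (Nat.add (posQ (xa (bN K Y) g) (shf (at0 Y (pX (Nat.mul 2 g))) (gn (cv C K) K g))
        (at0 U (pU (Nat.succ (Nat.mul 2 g)))))
      (posQ (xa (bN K Y) g) (shf (at0 Y (pX (Nat.succ (Nat.mul 2 g)))) (gn (cv C K) K g))
        (at0 U (pU (Nat.mul 2 g)))))

/-! Pairs of classes. -/

def fK (C K : Nat) : Nat := Nat.add (Nat.mul (Nat.land (cv C K) (k1 K 32767)) 256)
  (Nat.land (Nat.shiftRight C 15) (k1 K 63))
def mA (C K n : Nat) : Nat := Nat.mul (fK C K) (os n)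
def mB (C K n : Nat) : Nat := Nat.mul (Nat.land
  (Nat.mul (fK C K) (pk (Nat.mul 26 (Nat.pred n)) n fun _ => 1)) (Nat.mul (os n) 67108863)) (on n)
def tr (n : Nat) : Nat := pk (Nat.mul 26 n) n fun a =>
  Nat.shiftLeft (Nat.shiftRight (Nat.mul (on n) 33554432) (Nat.mul 26 a)) (Nat.mul 26 a)
def tr1 (n : Nat) : Nat := Nat.sub (tr n) (pk (Nat.mul 26 (Nat.succ n)) n fun _ => 33554432)
/-- The second class of the group is a copy of the first one. -/
def dup (C K g : Nat) : Bool :=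
  band (Nat.beq (Nat.land (Nat.shiftRight C (Nat.mul 52 g)) 2097151)
      (Nat.land (Nat.shiftRight (Nat.shiftRight C (Nat.mul 52 g)) 26) 2097151))
    (Nat.beq (Nat.land (ig C K g) 8191) (Nat.land (Nat.shiftRight (ig C K g) 13) 8191))
def dist (C K n Y : Nat) : Bool :=
  hits n (fun a b => frc a fun a => frc b fun b =>
      bor (Nat.beq (Nat.land (at0 Y (pX a)) (Nat.shiftRight Y (pX b))) 0)
        (band (Nat.beq (Nat.land b 1) 1) (dup C K (Nat.shiftRight b 1)))) 300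
    (zer n (tr1 n) (Nat.land (Nat.xor (mA C K n) (mB C K n)) (cM n)))
def sK (C K : Nat) : Nat := Nat.add (fK C K) (Nat.shiftRight (fK C K) 26)
def mS (C K n : Nat) : Nat := Nat.add (Nat.add (mA C K n) (mB C K n)) (Nat.mul (oa n) 33554432)
def y1 (n d : Nat) : Nat := Nat.land (Nat.xor d (Nat.sub d (Nat.mul (oa n) 128))) (tr n)
def yG (C K n g : Nat) : Nat :=
  Nat.xor (y1 n (Nat.sub (mS C K n) (Nat.mul (oa n)
      (Nat.land (Nat.shiftRight (sK C K) (Nat.mul 52 g)) 67108863))))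
    (Nat.shiftLeft 2251799813685248 (Nat.mul (Nat.mul 52 (Nat.succ n)) g))
def q1 (K Y U g c a b : Nat) : Nat :=
  Nat.land (Nat.land (Nat.shiftRight (Nat.shiftLeft (sp Y) 24152) (Nat.add (pX a) c))
    (xa (bN K Y) g)) (Nat.shiftRight (sm U) (pU b))
def q2 (C K Y U g a b : Nat) : Bool :=
  nosup (xa (bN K Y) g) (shf (at0 Y (pX a)) (gn (cv C K) K g)) (at0 U (pU b))
def others (C K n Y U : Nat) : Bool :=
  allLt K fun g => hits n (fun a b => frc a fun a => frc b fun b =>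
      bor (Nat.beq (Nat.lor (q1 K Y U g (Nat.sub 32767 (gn (cv C K) K g)) a b)
          (q1 K Y U g (Nat.sub 32767 (gn (cv C K) K g)) b a)) 0)
        (bor (band (q2 C K Y U g a b) (q2 C K Y U g b a))
          (band (band (Nat.beq (Nat.shiftRight a 1) g) (Nat.beq (Nat.shiftRight b 1) g))
            (dup C K g)))) 300 (yG C K n g)

def ok2 (z C K n Y U : Nat) : Bool :=
  band (band (okF C K) (sub? Y (Nat.land (bO z C K) (bZ z K))))
    (band (bor (lead1 K (t3 K Y (bM C K Y) U 1 1152 48) (t3 K Y (bM C K Y) U 48 1 1152))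
        (lead2 C K Y U))
      (band (dist C K n Y) (others C K n Y U)))

/-- A block of `K` groups is valid. -/
def okB (z C K : Nat) : Bool :=
  frc (Nat.mul 2 K) fun n => ok2 z C K n (bX z C K) (bU z C K (bX z C K))

/-! The groups that are destroyed by the added or removed box. -/

def f01 : Nat := Nat.lor full f1
def f22 : Nat := Nat.land full (Nat.shiftRight full 1)
def aD (z K : Nat) : Nat := kK K (Nat.mul (Nat.lor (Nat.land (addB z) f22)
  (Nat.shiftLeft (Nat.land (delB z) f22) 576)) 16777217)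
def d0 (z K O Y : Nat) : Nat :=
  Nat.land (Nat.land (Nat.land (sp Y) (sp (Nat.xor O Y))) (aD z K)) (kK K f01)
def d1 (z K U : Nat) : Nat :=
  Nat.land (Nat.land (sm U) (Nat.shiftRight (aD z K) 576)) (kK K f01)
def d2 (z K U : Nat) : Nat :=
  Nat.lor (Nat.land (d1 z K U) (sm (Nat.xor (Nat.shiftRight U 576) U)))
    (andn (d1 z K U) (Nat.shiftRight U 576))
def cel : Nat := pk 48 168 fun _ => 1
def dR (K D : Nat) : Nat :=
  Nat.mod (Nat.shiftRight (Nat.land (Nat.add D (kK K (Nat.mul cel 140737488355327)))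
    (kK K (Nat.mul cel 140737488355328))) 47) (Nat.pred (Nat.shiftLeft 1 8063))
def c1 (x : Nat) : Nat :=
  Nat.land (Nat.lor x (Nat.shiftRight x 36)) (pk 96 84 fun _ => 16777215)
def c2 (x : Nat) : Nat :=
  Nat.land (Nat.lor x (Nat.shiftRight x 72)) (pk 192 42 fun _ => 281474976710655)
def c3 (x : Nat) : Nat := Nat.lor (Nat.lor x (Nat.shiftRight x 144)) (Nat.shiftRight x 288)
def cc (R c : Nat) : Nat :=
  c3 (c2 (c1 (Nat.land (Nat.shiftRight R (Nat.mul 11 c)) (Nat.mul cel 2047))))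
def vv (S N x r : Nat) : Nat :=
  Nat.land (Nat.mod (Nat.land (Nat.shiftRight x r)
    (pk 1152 6 fun _ => Nat.pred (Nat.shiftLeft 1 (Fo.w1 S))))
    (Nat.pred (Nat.shiftLeft 1 (Nat.sub 1152 (Fo.w1 S))))) (Fo.cF N)
def kN (N c : Nat) : Nat := Nat.mul (Fo.o1 N) c
def p1 (N x : Nat) : Nat := Nat.sub x (Nat.land (Nat.shiftRight x 1) (kN N 1365))
def p2 (N x : Nat) : Nat :=
  Nat.add (Nat.land x (kN N 819)) (Nat.land (Nat.shiftRight x 2) (kN N 819))
def p3 (N x : Nat) : Nat := Nat.land (Nat.shiftRight (Nat.mul x 273) 8) (kN N 15)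
def cn (S N x : Nat) : Nat :=
  p3 N (p2 N (p1 N (Nat.lor (Fo.x0 N (vv S N x 1164)) (Nat.mul (vv S N x 1740) (Fo.oB N)))))
def lost (S N R m : Nat) : Nat := Nat.rec 0 (fun c r => Nat.add r (cn S N (cc R c))) m
def gain (S N z C K : Nat) : Nat :=
  Nat.sub (kN N K) (lost S N (dR K (Nat.lor (d0 z K (bO z C K) (bX z C K))
    (Nat.shiftLeft (d2 z K (bU z C K (bX z C K))) 576))) (Nat.div (Nat.add K 10) 11))

/-- Run through the blocks of the certificate, then call `fin` on the remaining deficits. -/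
def blocks (S N z : Nat) (fin : Nat → Bool) (fuel : Nat) : Nat → Nat → Bool :=
  Nat.rec (fun _ _ => false) (fun _ r C D => Bool.rec
    (frc (Nat.land C 63) fun K => band (band (Nat.ble K 44) (okB z (Nat.shiftRight C 6) K))
      (r (Nat.shiftRight C (Nat.add 6 (Nat.mul 91 K)))
        (clr (Fo.bG N) D (gain S N z (Nat.shiftRight C 6) K))))
    (fin D) (Nat.beq C 0)) fuel

def hook (l3 : Nat → Nat → Nat → Nat → Nat → Nat → Nat → Nat → Nat → Nat → Bool) (t : BT)
    (S N n H D C Rm : Nat) : Bool :=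
  band (band (Nat.ble (Nat.add (Nat.land H 4095) (sel (Nat.beq (Nat.land D (Fo.cF N)) 0) 0 1)) 22)
      (Nat.ble N (Nat.succ (Nat.mul 5 S))))
    (blocks S N (brd S N H) (rest N fun j i => l3 S N n H (brd S N H) Rm j i
        (lane C (Nat.add (Nat.mul N j) i))
        (t.find (Nat.add (Nat.mul (hkey S H) 8192) (Nat.succ (Nat.add (Nat.mul N j) i)))))
      20 (t.find (Nat.mul (hkey S H) 8192)) D)

end X

end

end Pool.Agent.Lib.MP_ed43e6_ag.Q.Bd
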