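import Pool.Agent.Lib.MP_ed43e6_ag.Q.L2
import Pool.Agent.Lib.MP_ed43e6_ag.Q.Mx

/-! The lanes of 26 bits of the fast checker. -/

namespace Pool.Agent.Lib.MP_ed43e6_ag.Q.Bd

open Finset N

theorem and_pk {w n : ℕ} {f : ℕ → ℕ} (hw : 0 < w) (hf : ∀ i < n, f i < 2 ^ w) (x : ℕ) :
    x &&& pk w n f = pk w n fun i => x >>> (w * i) &&& f i := by
  refine Nat.eq_of_testBit_eq fun p => ?_
  have r := Nat.mod_lt p hw
  rw [Bool.eq_iff_iff, Nat.testBit_and, Bool.and_eq_true, ← Nat.div_add_mod p w, pk_bit hf r,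
    pk_bit (fun i hi => Nat.and_le_right.trans_lt (hf i hi)) r, Nat.testBit_and,
    Nat.testBit_shiftRight, Bool.and_eq_true]
  tauto

theorem and_mask {w n k : ℕ} (hw : 0 < w) (hk : k ≤ w) (x : ℕ) :
    x &&& pk w n (fun _ => 2 ^ k - 1) = pk w n fun i => x >>> (w * i) % 2 ^ k := by
  rw [and_pk hw fun _ _ => (Nat.sub_one_lt (by positivity)).trans_le
    (Nat.pow_le_pow_right two_pos hk)]
  exact pk_congr _ _ _ _ fun _ _ => Nat.and_two_pow_sub_one_eq_mod _ _

theorem pk_mod_get {w n j k : ℕ} {f : ℕ → ℕ} (hf : ∀ i < n, f i < 2 ^ w) (hj : j < n)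
    (hk : k ≤ w) : pk w n f >>> (w * j) % 2 ^ k = f j % 2 ^ k := by
  rw [← pk_get w n f j hf hj, Nat.and_two_pow_sub_one_eq_mod,
    Nat.mod_mod_of_dvd _ (pow_dvd_pow 2 hk)]

theorem pk_one {w n a : ℕ} (ha : a < n) (c : ℕ) :
    (pk w n fun b => if a = b then c else 0) = 2 ^ (w * a) * c := by
  have := pk_shl' w n (fun i => if i = 0 then c else 0) a fun i _ h => if_neg (by omega)
  rw [pk_first w n (by omega), Nat.shiftLeft_eq, mul_comm] at this
  rw [this]
  exact pk_congr _ _ _ _ fun i _ => by split_ifs <;> omega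

theorem pk_const (w n c : ℕ) : Nat.mul (pk w n fun _ => 1) c = pk w n fun _ => c :=
  (pk_mul w n _ c).trans (pk_congr _ _ _ _ fun _ _ => one_mul c)

theorem pk_spr26 {n : ℕ} {d : ℕ → ℕ} (hn : 2 ≤ n) (h : ∀ i, d i < 2 ^ 25) :
    (pk 26 n d * pk (26 * (n - 1)) n fun _ => 1) &&& (pk (26 * n) n fun _ => 67108863) =
      pk (26 * n) n d := by
  obtain ⟨k, rfl⟩ : ∃ k, n = k + 1 := ⟨n - 1, by omega⟩
  rw [Nat.add_sub_cancel, pk_conv, pk_blk 26 (k + 1) _ (k + 1) (by omega),
    pk_and' _ _ _ _ _ (by nlinarith) ?_ fun _ _ => by split_ifs <;> omega,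
    pk_blk 26 (k + 1) d (k + 1) (by omega)]
  · refine pk_congr _ _ _ _ fun l hl => ?_
    split_ifs with c
    swap
    · exact Nat.and_zero _
    obtain ⟨i, rfl⟩ := Nat.dvd_of_mod_eq_zero c
    have hi : i < k + 1 := Nat.lt_of_mul_lt_mul_left hl
    rw [Nat.mul_div_cancel_left _ (by omega), sum_eq_single i, if_pos (by
      rw [add_mul]; omega), add_mul, one_mul, Nat.add_sub_cancel_left]
    · exact (Nat.and_two_pow_sub_one_eq_mod _ 26).trans (Nat.mod_eq_of_lt ((h i).trans (by omega)))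
    · intro j hj hne
      rw [mem_range] at hj
      rw [if_neg]
      rcases lt_or_gt_of_ne hne with h1 | h1
      · have : k * (j + 1) ≤ k * i := Nat.mul_le_mul_left k h1
        rw [mul_add] at this
        rw [add_mul]
        omega
      · have : k * (i + 1) ≤ k * j := Nat.mul_le_mul_left k h1
        rw [mul_add] at this
        rw [add_mul]
        omega
    · exact fun hn => absurd (mem_range.2 hi) hn
  · intro t _
    have key : ∀ j ∈ range (k + 1), (if k * j ≤ t ∧ t < k * j + (k + 1) then d (t - k * j) else 0) ≤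
        (if j = t / k then 33554431 else 0) + if j = t / k - 1 then 33554431 else 0 := by
      intro j _
      split_ifs with c1 c2 c3 c4 <;> try omega
      all_goals have := h (t - k * j)
      · omega
      · omega
      · omega
      · have h1 : j ≤ t / k := (Nat.le_div_iff_mul_le (by omega)).2 (by rw [mul_comm]; omega)
        have h2 : t / k < j + 2 := (Nat.div_lt_iff_lt_mul (by omega)).2 (by
          rw [add_mul, mul_comm]; omega)
        omega
    refine (sum_le_sum key).trans_lt ?_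
    rw [sum_add_distrib, sum_ite_eq', sum_ite_eq']
    split_ifs <;> omega

namespace X

/-- The seed of the class with index `a`. -/
def iv (C K a : ℕ) : ℕ := (C >>> (52 * K + 39 * (a / 2) + 13 * (a % 2))) % 8192

/-- The word of the class with index `a`. -/
def W (C K a : ℕ) : ℕ :=
  (C >>> (26 * a)) % 32768 + 32768 * iv C K a + 2 ^ 28 * ((C >>> (26 * a + 15)) % 64)

variable {C K a b g : ℕ}

theorem k1_eq (K c : ℕ) : k1 K c = pk 26 (2 * K) fun _ => c := pk_const _ _ _
theorem k2_eq (K c : ℕ) : k2 K c = pk 52 K fun _ => c := pk_const _ _ _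
theorem k4_eq (K c : ℕ) : k4 K c = pk 26 (4 * K) fun _ => c := pk_const _ _ _

theorem W_dig (C K a : ℕ) : fdt (W C K a) = C >>> (26 * a) % 32768 % 64 ∧
    fdb (W C K a) = C >>> (26 * a) % 32768 / 64 % 32 ∧
    fda (W C K a) = C >>> (26 * a) % 32768 / 2048 % 16 ∧ fiv (W C K a) = iv C K a ∧
    fe (W C K a) = C >>> (26 * a + 15) % 64 := by
  have e1 : ∀ w, fdt w = w % 64 := fun w => Nat.and_two_pow_sub_one_eq_mod w 6
  have e2 : ∀ w, fdb w = w / 2 ^ 6 % 32 := fun w =>
    Nat.shiftRight_eq_div_pow w 6 ▸ Nat.and_two_pow_sub_one_eq_mod _ 5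
  have e3 : ∀ w, fda w = w / 2 ^ 11 % 16 := fun w =>
    Nat.shiftRight_eq_div_pow w 11 ▸ Nat.and_two_pow_sub_one_eq_mod _ 4
  have e4 : ∀ w, fiv w = w / 2 ^ 15 % 8192 := fun w =>
    Nat.shiftRight_eq_div_pow w 15 ▸ Nat.and_two_pow_sub_one_eq_mod _ 13
  have e5 : ∀ w, fe w = w / 2 ^ 28 := fun w => Nat.shiftRight_eq_div_pow w 28
  have : iv C K a < 8192 := Nat.mod_lt _ (by omega)
  rw [e1, e2, e3, e4, e5, W]
  omega

theorem fiv_W : fiv (W C K a) = iv C K a := (W_dig C K a).2.2.2.1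

theorem ig_a : Nat.land (ig C K g) 8191 = fiv (W C K (2 * g)) := by
  rw [fiv_W, iv, show 2 * g / 2 = g by omega, show 2 * g % 2 = 0 by omega, mul_zero, add_zero,
    Nat.shiftRight_add]
  exact Nat.and_two_pow_sub_one_eq_mod _ 13

theorem ig_b : Nat.land (Nat.shiftRight (ig C K g) 13) 8191 = fiv (W C K (2 * g + 1)) := by
  rw [fiv_W, iv, show (2 * g + 1) / 2 = g by omega, show (2 * g + 1) % 2 = 1 by omega, mul_one,
    Nat.shiftRight_add, Nat.shiftRight_add]
  exact Nat.and_two_pow_sub_one_eq_mod _ 13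

theorem dup_W (h : dup C K g = true) : W C K (2 * g + 1) = W C K (2 * g) := by
  rw [dup, band_iff, Nat.beq_eq, Nat.beq_eq, ig_a, ig_b, fiv_W, fiv_W] at h
  have e : C >>> (52 * g) % 2 ^ 21 = C >>> (52 * g) >>> 26 % 2 ^ 21 :=
    (Nat.and_two_pow_sub_one_eq_mod _ 21).symm.trans
      (h.1.trans (Nat.and_two_pow_sub_one_eq_mod _ 21))
  rw [W, W, ← h.2, show 26 * (2 * g + 1) = 52 * g + 26 by omega, show 26 * (2 * g) = 52 * g by omega,
    Nat.shiftRight_add C (52 * g + 26) 15, Nat.shiftRight_add C (52 * g) 15,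
    Nat.shiftRight_add C (52 * g) 26]
  generalize C >>> (52 * g) >>> 26 = x at e ⊢
  generalize C >>> (52 * g) = y at e ⊢
  rw [Nat.shiftRight_eq_div_pow, Nat.shiftRight_eq_div_pow]
  omega

/-- The sum of two neighbouring lanes. -/
theorem pair_get {n k : ℕ} {f : ℕ → ℕ} (hf : ∀ i, f i < 2 ^ 25) (hg : 2 * g + 1 < n)
    (hk : k ≤ 26) : (pk 26 n f + pk 26 n f >>> 26) >>> (52 * g) % 2 ^ k =
      (f (2 * g) + f (2 * g + 1)) % 2 ^ k := by
  have e := pk_shrl 26 n f 1 fun i _ => (hf i).trans (by omega)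
  rw [mul_one] at e
  rw [e, pk_add, show 52 * g = 26 * (2 * g) by omega, pk_mod_get (fun i _ => by
    have := hf i
    have := hf (i + 1)
    split_ifs <;> omega) (by omega) hk, if_pos hg]

/-- The low fifteen bits of the lanes. -/
def V (C K a : ℕ) : ℕ :=
  if a < 2 * K then C >>> (26 * a) % 32768 else if a % 2 = 0 then
    (108612 - (C >>> (26 * (a - 2 * K)) % 32768 + C >>> (26 * (a - 2 * K + 1)) % 32768)) % 32768
  else 0

theorem V_lt (C K a : ℕ) : V C K a < 32768 := by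
  unfold V
  split_ifs <;> omega

theorem v3_eq (C K : ℕ) : v3 C K = pk 26 (4 * K) (V C K) := by
  have e1 : lw C K = pk 26 (2 * K) fun a => C >>> (26 * a) % 32768 := by
    rw [lw, k1_eq]
    exact and_mask (k := 15) (by omega) (by omega) C
  have e2 : Nat.land (Nat.add (lw C K) (Nat.shiftRight (lw C K) 26)) (k2 K 65535) =
      pk 52 K fun g => C >>> (26 * (2 * g)) % 32768 + C >>> (26 * (2 * g + 1)) % 32768 := by
    rw [k2_eq, e1]
    refine (and_mask (k := 16) (by omega) (by omega) _).trans (pk_congr _ _ _ _ fun g x => ?_)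
    exact (pair_get (fun i => by omega) (by omega) (by omega)).trans (Nat.mod_eq_of_lt (by omega))
  have e3 : wn C K = pk 52 K fun g =>
      (108612 - (C >>> (26 * (2 * g)) % 32768 + C >>> (26 * (2 * g + 1)) % 32768)) % 32768 := by
    rw [wn, e2, k2_eq, k2_eq, Nat.sub_eq, pk_sub _ _ _ _ fun g _ => by omega, Nat.land_eq,
      pk_and _ _ _ _ (fun _ _ => by omega) fun _ _ => by omega]
    exact pk_congr _ _ _ _ fun _ _ => Nat.and_two_pow_sub_one_eq_mod _ 15
  rw [v3, e3, e1, show 4 * K = 2 * K + 2 * K by omega, pk_split, pk_blk 26 2 _ K two_pos,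
    Nat.shiftLeft_eq', Nat.shiftLeft_eq, mul_comm (pk _ _ _),
    show wK K = 26 * (2 * K) by unfold wK; rw [Nat.mul_eq]; omega]
  congr 1
  · exact pk_congr _ _ _ _ fun a x => (if_pos x).symm
  · congr 1
    refine pk_congr _ _ _ _ fun a x => ?_
    rw [V, if_neg (show ¬ 2 * K + a < 2 * K by omega), Nat.add_sub_cancel_left,
      show (2 * K + a) % 2 = a % 2 by omega]
    split_ifs with c
    · rw [show 2 * (a / 2) = a by omega]
    · rfl

theorem fld (C K s k : ℕ) (h : s + k ≤ 26) :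
    v3 C K >>> s &&& pk 26 (4 * K) (fun _ => 2 ^ k - 1) =
      pk 26 (4 * K) fun a => V C K a / 2 ^ s % 2 ^ k := by
  rw [and_mask (by omega) (by omega)]
  refine pk_congr _ _ _ _ fun a x => ?_
  have e := pk_mod_get (w := 26) (fun i _ => (V_lt C K i).trans (by omega)) x h
  rw [← Nat.shiftRight_add, add_comm, Nat.shiftRight_add, Nat.shiftRight_eq_div_pow _ s,
    ← Nat.mod_mul_right_div_self, ← Nat.mod_mul_right_div_self, ← pow_add, v3_eq, e]

theorem ft_eq (C K : ℕ) : ft C K = pk 26 (4 * K) fun a => V C K a % 64 := by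
  rw [ft, k4_eq]
  exact (fld C K 0 6 (by omega)).trans (pk_congr _ _ _ _ fun _ _ => by omega)

theorem fb_eq (C K : ℕ) : fb C K = pk 26 (4 * K) fun a => V C K a / 64 % 32 := by
  rw [fb, k4_eq]
  exact fld C K 6 5 (by omega)

theorem fa_eq (C K : ℕ) : fa C K = pk 26 (4 * K) fun a => V C K a / 2048 % 16 := by
  rw [fa, k4_eq]
  exact fld C K 11 4 (by omega)

theorem code_pk (n : ℕ) (f g h : ℕ → ℕ) : code (pk 26 n f) (pk 26 n g) (pk 26 n h) =
    pk 26 n fun a => code (f a) (g a) (h a) := by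
  rw [code_eq, ix, mul_comm, mul_comm 48, pk_mul, pk_mul, pk_add, pk_add]
  exact pk_congr _ _ _ _ fun a _ => by rw [code_eq, ix, mul_comm, mul_comm 48]

/-- The code of the lane `a`. -/
def cV (C K a : ℕ) : ℕ := code (V C K a / 2048 % 16) (V C K a / 64 % 32) (V C K a % 64)

/-- The shift of the lane `a`. -/
def sV (C K a : ℕ) : ℕ :=
  code (V C K a / 2048 % 16 - 6) (V C K a / 64 % 32 - 10) (V C K a % 64 - 22)

theorem cV_lt (C K a : ℕ) : cV C K a < 32768 := by
  rw [cV, code_eq, ix]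
  omega

theorem sV_lt (C K a : ℕ) : sV C K a < 32768 := by
  rw [sV, code_eq, ix]
  omega

theorem cv_eq (C K : ℕ) : cv C K = pk 26 (4 * K) (cV C K) := by
  rw [cv, fa_eq, fb_eq, ft_eq, code_pk]
  rfl

theorem ts_pk (K c : ℕ) {f : ℕ → ℕ} (h : ∀ i, f i < 128) (hc : c ≤ 128) :
    ts K (Nat.add (pk 26 (4 * K) f) (k4 K (128 - c))) = pk 26 (4 * K) fun a => f a - c := by
  have d1 : ∀ x < 256, x &&& 128 = x / 128 * 2 ^ 7 := by decide +kernel
  have d2 : ∀ x < 256, x &&& (x / 128 * 2 ^ 7 - x / 128) = x - 128 := by decide +kernel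
  have e : Nat.land (pk 26 (4 * K) fun a => f a + (128 - c)) (k4 K 128) =
      pk 26 (4 * K) fun a => (f a + (128 - c)) / 128 * 2 ^ 7 := by
    rw [k4_eq, Nat.land_eq, pk_and _ _ _ _ (fun i _ => by have := h i; omega) fun _ _ => by omega]
    exact pk_congr _ _ _ _ fun i _ => d1 _ (by have := h i; omega)
  rw [k4_eq K (128 - c), Nat.add_eq, pk_add, ts, e, Nat.shiftRight_eq', pk_shr, Nat.sub_eq,
    pk_sub _ _ _ _ fun _ _ => by omega, Nat.land_eq,
    pk_and _ _ _ _ (fun i _ => by have := h i; omega) fun i _ => by have := h i; omega]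
  refine pk_congr _ _ _ _ fun i _ => ?_
  have := h i
  rw [d2 _ (by omega)]
  omega

theorem sv_eq (C K : ℕ) : sv C K = pk 26 (4 * K) (sV C K) := by
  rw [sv, fa_eq, fb_eq, ft_eq, ts_pk K 6 (fun _ => by omega) (by omega),
    ts_pk K 10 (fun _ => by omega) (by omega), ts_pk K 22 (fun _ => by omega) (by omega), code_pk]
  rfl

theorem get15 {f : ℕ → ℕ} (hf : ∀ i, f i < 32768) {j : ℕ} (hj : j < 4 * K) :
    Nat.land (pk 26 (4 * K) f >>> (26 * j)) 32767 = f j :=
  (Nat.and_two_pow_sub_one_eq_mod _ 15).trans ((pk_mod_get (fun i _ => (hf i).trans (by omega)) hj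
    (by omega)).trans (Nat.mod_eq_of_lt (hf j)))

theorem ga_pk {f : ℕ → ℕ} (hf : ∀ i, f i < 32768) (hg : g < K) :
    ga (pk 26 (4 * K) f) g = f (2 * g) := by
  rw [← get15 (K := K) hf (j := 2 * g) (by omega), show 26 * (2 * g) = 52 * g by omega]
  rfl

theorem gb_pk {f : ℕ → ℕ} (hf : ∀ i, f i < 32768) (hg : g < K) :
    gb (pk 26 (4 * K) f) g = f (2 * g + 1) := by
  rw [← get15 (K := K) hf (j := 2 * g + 1) (by omega), show 26 * (2 * g + 1) = 52 * g + 26 by omega,
    Nat.shiftRight_add]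
  rfl

theorem gn_pk {f : ℕ → ℕ} (hf : ∀ i, f i < 32768) (hg : g < K) :
    gn (pk 26 (4 * K) f) K g = f (2 * K + 2 * g) := by
  rw [← get15 (K := K) hf (j := 2 * K + 2 * g) (by omega),
    show 26 * (2 * K + 2 * g) = 52 * g + 52 * K by omega, Nat.shiftRight_add]
  rfl

theorem V_W (ha : a < 2 * K) : fdt (W C K a) = V C K a % 64 ∧ fdb (W C K a) = V C K a / 64 % 32 ∧
    fda (W C K a) = V C K a / 2048 % 16 := by
  obtain ⟨x, y, z, -⟩ := W_dig C K a
  rw [V, if_pos ha]
  exact ⟨x, y, z⟩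

theorem cV_W (ha : a < 2 * K) : cV C K a = fc (W C K a) := by
  obtain ⟨x, y, z⟩ := V_W (C := C) ha
  rw [fc, x, y, z, cV]

theorem sV_W (ha : a < 2 * K) :
    sV C K a = code (fda (W C K a) - 6) (fdb (W C K a) - 10) (fdt (W C K a) - 22) := by
  obtain ⟨x, y, z⟩ := V_W (C := C) ha
  rw [x, y, z, sV]

theorem ga_cv (hg : g < K) : ga (cv C K) g = fc (W C K (2 * g)) := by
  rw [cv_eq, ga_pk (cV_lt C K) hg, cV_W (by omega)]

theorem gb_cv (hg : g < K) : gb (cv C K) g = fc (W C K (2 * g + 1)) := by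
  rw [cv_eq, gb_pk (cV_lt C K) hg, cV_W (by omega)]

theorem ga_sv (hg : g < K) : ga (sv C K) g = code (fda (W C K (2 * g)) - 6)
    (fdb (W C K (2 * g)) - 10) (fdt (W C K (2 * g)) - 22) := by
  rw [sv_eq, ga_pk (sV_lt C K) hg, sV_W (by omega)]

theorem gb_sv (hg : g < K) : gb (sv C K) g = code (fda (W C K (2 * g + 1)) - 6)
    (fdb (W C K (2 * g + 1)) - 10) (fdt (W C K (2 * g + 1)) - 22) := by
  rw [sv_eq, gb_pk (sV_lt C K) hg, sV_W (by omega)]

theorem okF_lane (h : okF C K = true) (ha : a < 4 * K) :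
    V C K a / 64 % 32 ≤ 22 ∧ V C K a % 64 ≤ 46 := by
  have d : ∀ x < 256, ¬ x.testBit 7 → x < 128 := by decide +kernel
  have e := (band_iff.1 h).1
  rw [ft_eq, fb_eq, k4_eq, k4_eq, k4_eq, Nat.add_eq, Nat.add_eq, pk_add, pk_add] at e
  have := mt (land_zero e (i := 26 * a + 7)) (not_not.2
    ((pk_bit (fun _ _ => by omega) (by omega)).2 ⟨ha, by decide⟩))
  rw [bit_or, pk_bit (fun _ _ => by omega) (by omega), pk_bit (fun _ _ => by omega) (by omega),
    and_iff_right ha, and_iff_right ha, not_or] at this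
  have x := d _ (by omega) this.1
  have y := d _ (by omega) this.2
  omega

theorem okF_cl (h : okF C K = true) (ha : a < 2 * K) : fdb (W C K a) ≤ 22 ∧ fdt (W C K a) ≤ 46 ∧
    676120 ≤ key (fda (W C K a)) (fdb (W C K a)) (fdt (W C K a)) := by
  obtain ⟨x, y, z⟩ := V_W (C := C) ha
  have l := okF_lane h (show a < 4 * K by omega)
  have e := Nat.eq_of_beq_eq_true (band_iff.1 (band_iff.1 h).2).1
  have t : (k1 K 33554432).testBit (26 * a + 25) := by
    rw [k1_eq]
    exact (pk_bit (fun _ _ => by omega) (by omega)).2 ⟨ha, by decide⟩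
  rw [← e, bit_and, ft_eq, fb_eq, fa_eq, k1_eq K 32878312, pk_pad 26 (2 * K) _ (4 * K) (by omega)]
    at t
  simp only [Nat.add_eq, Nat.mul_eq, pk_mul, pk_add] at t
  have := Nat.ge_two_pow_of_testBit
    ((pk_bit (fun _ _ => by split_ifs <;> omega) (by omega)).1 t.1).2
  rw [if_pos ha] at this
  rw [x, y, z, key]
  omega

theorem dig_aux {T B A q : ℕ} (h1 : T + 64 * B + 2048 * A + 32768 * q = 108612)
    (h2 : T + 48 * B + 1152 * A = 24644) (hT : T ≤ 138) (hB : B ≤ 66) :
    A = 20 ∧ B = 32 ∧ T = 68 := by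
  have a : T % 64 = 4 := by omega
  have b : T % 48 = 20 := by omega
  obtain rfl : T = 68 := by omega
  have c : B % 32 = 0 := by omega
  have d : B % 24 = 8 := by omega
  obtain rfl : B = 32 := by omega
  omega

theorem dig_sum {x y n : ℕ} (hx : x < 32768) (hy : y < 32768) (v : n = (108612 - (x + y)) % 32768)
    (l0 : x / 64 % 32 ≤ 22 ∧ x % 64 ≤ 46) (l1 : y / 64 % 32 ≤ 22 ∧ y % 64 ≤ 46)
    (l : n / 64 % 32 ≤ 22 ∧ n % 64 ≤ 46)
    (s : code (x / 2048 % 16) (x / 64 % 32) (x % 64) + code (y / 2048 % 16) (y / 64 % 32) (y % 64) +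
      code (n / 2048 % 16) (n / 64 % 32) (n % 64) = 24644) :
    n / 2048 % 16 + (x / 2048 % 16 + y / 2048 % 16) = 20 ∧
      n / 64 % 32 + (x / 64 % 32 + y / 64 % 32) = 32 ∧ n % 64 + (x % 64 + y % 64) = 68 := by
  have e : ∀ x < 32768, x = x % 64 + 64 * (x / 64 % 32) + 2048 * (x / 2048 % 16) := fun x _ => by
    omega
  have e0 := e x hx
  have e1 := e y hy
  have e2 := e n (by omega)
  have e3 : x + y + n + 32768 * ((108612 - (x + y)) / 32768) = 108612 := by omega
  clear v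
  simp only [code_eq, ix] at s
  generalize (108612 - (x + y)) / 32768 = q at e3
  generalize x / 2048 % 16 = a0, y / 2048 % 16 = a1, n / 2048 % 16 = a2, x / 64 % 32 = b0,
    y / 64 % 32 = b1, n / 64 % 32 = b2, x % 64 = t0, y % 64 = t1, n % 64 = t2 at *
  exact dig_aux (q := q) (by omega) (by omega) (by omega) (by omega)

theorem okF_sum (h : okF C K = true) (hg : g < K) : ∃ na nb nt,
    na + (fda (W C K (2 * g)) + fda (W C K (2 * g + 1))) = 20 ∧
    nb + (fdb (W C K (2 * g)) + fdb (W C K (2 * g + 1))) = 32 ∧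
    nt + (fdt (W C K (2 * g)) + fdt (W C K (2 * g + 1))) = 68 ∧ nb ≤ 22 ∧ nt ≤ 46 ∧
    gn (cv C K) K g = code na nb nt ∧ gn (sv C K) K g = code (na - 6) (nb - 10) (nt - 22) := by
  have e := Nat.eq_of_beq_eq_true (band_iff.1 (band_iff.1 h).2).2
  have c := cV_lt C K
  have e1 : cs C K = pk 52 K fun g => cV C K (2 * g) + cV C K (2 * g + 1) := by
    rw [cs, k2_eq, cv_eq]
    refine (and_mask (k := 16) (by omega) (by omega) _).trans (pk_congr _ _ _ _ fun g x => ?_)
    have := c (2 * g)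
    have := c (2 * g + 1)
    exact (pair_get (fun i => (c i).trans (by omega)) (by omega) (by omega)).trans
      (Nat.mod_eq_of_lt (by omega))
  have s : cV C K (2 * g) + cV C K (2 * g + 1) + cV C K (2 * g + 2 * K) = 24644 := by
    rw [e1, cv_eq, k2_eq, show wK K = 26 * (2 * K) by unfold wK; rw [Nat.mul_eq]; omega,
      Nat.shiftRight_eq', pk_shrl _ _ _ _ fun i _ => (c i).trans (by omega),
      pk_blk 26 2 _ K two_pos, pk_blk 26 2 _ K two_pos, pk_pad 26 (2 * K) _ (4 * K) (by omega),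
      Nat.add_eq, pk_add] at e
    have x := congrArg (fun x => x >>> (26 * (2 * g)) &&& (2 ^ 26 - 1)) e
    rw [pk_get _ _ _ _ (fun i _ => by
        have := c (2 * (i / 2))
        have := c (2 * (i / 2) + 1)
        have := c (i + 2 * K)
        split_ifs <;> omega) (by omega),
      pk_get _ _ _ _ (fun i _ => by split_ifs <;> omega) (by omega), if_pos (by omega),
      if_pos (by omega), if_pos (by omega), if_pos (by omega), show 2 * g / 2 = g by omega] at x
    exact x
  obtain ⟨a1, a2, a3⟩ := V_W (C := C) (show 2 * g < 2 * K by omega)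
  obtain ⟨b1, b2, b3⟩ := V_W (C := C) (show 2 * g + 1 < 2 * K by omega)
  have l := okF_lane h (show 2 * K + 2 * g < 4 * K by omega)
  have l0 := okF_lane h (show 2 * g < 4 * K by omega)
  have l1 := okF_lane h (show 2 * g + 1 < 4 * K by omega)
  have v : V C K (2 * K + 2 * g) = (108612 - (V C K (2 * g) + V C K (2 * g + 1))) % 32768 := by
    rw [V, V, V, if_neg (by omega), if_pos (by omega), if_pos (by omega), if_pos (by omega),
      Nat.add_sub_cancel_left]
  rw [add_comm (2 * g) (2 * K)] at s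
  obtain ⟨s1, s2, s3⟩ := dig_sum (V_lt C K _) (V_lt C K _) v l0 l1 l s
  rw [a1, a2, a3, b1, b2, b3]
  exact ⟨_, _, _, s1, s2, s3, l.1, l.2, by rw [cv_eq, gn_pk c hg, cV],
    by rw [sv_eq, gn_pk (sV_lt C K) hg, sV]⟩

theorem fe_W (C K a : ℕ) : fe (W C K a) < 64 := by
  rw [(W_dig C K a).2.2.2.2]
  omega

theorem fk_W (C K a : ℕ) : fk (W C K a) < 2 ^ 23 := by
  have := fc_le (W C K a)
  have := fe_W C K a
  rw [fk_eq]
  omega

theorem fK_eq (C K : ℕ) : fK C K = pk 26 (2 * K) fun a => fk (W C K a) := by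
  have e1 := and_mask (w := 26) (n := 2 * K) (k := 15) (by omega) (by omega) (cv C K)
  have e2 := and_mask (w := 26) (n := 2 * K) (k := 6) (by omega) (by omega) (C >>> 15)
  rw [fK, k1_eq, k1_eq]
  refine (congrArg₂ (· * 256 + ·) e1 e2).trans ?_
  rw [pk_mul, pk_add]
  refine pk_congr _ _ _ _ fun a x => ?_
  rw [cv_eq, pk_mod_get (fun i _ => (cV_lt C K i).trans (by omega)) (by omega) (by omega),
    Nat.mod_eq_of_lt (show _ < 2 ^ 15 from cV_lt C K a), cV_W x, fk_eq, (W_dig C K a).2.2.2.2, ← Nat.shiftRight_add,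
    add_comm 15]
  rfl

theorem mA_eq (C K : ℕ) : mA C K (2 * K) = mx (2 * K) fun _ b => fk (W C K b) := by
  rw [mA, fK_eq]
  exact pk_rep 26 _ _ _

theorem mB_eq (hK : 0 < K) : mB C K (2 * K) = mx (2 * K) fun a _ => fk (W C K a) := by
  rw [mB, fK_eq, os, pk_const]
  exact (congrArg (· * on (2 * K)) (pk_spr26 (by omega) fun i =>
    (fk_W C K i).trans (by omega))).trans (pk_brd 26 _ _ _)

theorem tr_eq (n : ℕ) : tr n = tri 0 n := by
  refine pk_congr _ _ _ _ fun a x => ?_
  rw [on, pk_const, Nat.shiftRight_eq', Nat.shiftLeft_eq', Nat.mul_eq,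
    pk_shrl _ _ _ _ fun _ _ => by omega, pk_shl' _ _ _ _ fun i _ h => if_neg (by omega)]
  refine pk_congr _ _ _ _ fun b y => Eq.trans ?_ (sel_ble (a + 0) b _ _).symm
  split_ifs <;> omega

theorem tr1_eq (n : ℕ) : tr1 n = tri 1 n := by
  have e : ∀ m, (pk (26 * (n + 1)) m fun _ => 33554432) =
      pk (26 * n) m fun a => 2 ^ (26 * a) * 33554432 := fun m => by
    induction m with
    | zero => rfl
    | succ m ih => rw [pk_succ, pk_succ, ih, ← mul_assoc, ← pow_add, mul_add, mul_one, add_mul]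
  have e' : (pk (26 * (n + 1)) n fun _ => 33554432) =
      mx n fun a b => if a = b then 33554432 else 0 := by
    rw [e]
    exact (pk_congr _ _ _ _ fun a x => (pk_one x _).symm).trans (pk_nest 26 n n _)
  rw [tr1, tr_eq, tri_eq, tri_eq]
  refine (congrArg _ e').trans ((mx_sub fun a b => by split_ifs <;> omega).trans ?_)
  congr 1
  funext a b
  split_ifs <;> omega

variable {Y U : ℕ}

theorem dist_spec (hK : K ≤ 44) (h : dist C K (2 * K) Y = true) (ha : a < 2 * K) (hb : b < a)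
    (d : ¬ (a % 2 = 1 ∧ W C K a = W C K (a - 1))) (e : fc (W C K a) = fc (W C K b)) :
    Nat.land (at0 Y (pX b)) (Nat.shiftRight Y (pX a)) = 0 := by
  rw [dist, mA_eq, mB_eq (by omega), tr1_eq, cM, oa_mul,
    mx_xor_and (fun _ b => (fk_W C K b).trans (by omega))
    (fun a _ => (fk_W C K a).trans (by omega)) (by omega)] at h
  have := hits_spec (by omega) (fun p y => tops_tri 1 _ p (bit_zer.1 y).1) h ha
    (zer_mx (fun _ _ => Nat.and_le_right.trans_lt (by omega)) hb ha (by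
      have := xor_mask 8 (fc (W C K a)) 32767 ((fe_W C K a).trans (by omega))
        ((fe_W C K b).trans (by omega))
      rw [fk_eq, fk_eq, ← e, mul_comm]
      exact this))
  rw [frc_eq, frc_eq, bor_iff, band_iff, Nat.beq_eq, Nat.beq_eq] at this
  refine this.resolve_right fun x => ?_
  rw [Nat.land_eq, Nat.and_one_is_mod, Nat.shiftRight_eq', Nat.shiftRight_one] at x
  have := dup_W x.2
  rw [show 2 * (a / 2) + 1 = a by omega, show 2 * (a / 2) = a - 1 by omega] at this
  exact d ⟨x.1, this⟩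

theorem others_le (hK : K ≤ 44) (h : others C K (2 * K) Y U = true) (hg : g < K) (hab : a ≤ b)
    (hb : b < 2 * K)
    (e : fc (W C K a) + fc (W C K b) = fc (W C K (2 * g)) + fc (W C K (2 * g + 1)))
    (e' : fe (W C K (2 * g)) + fe (W C K (2 * g + 1)) ≤ fe (W C K a) + fe (W C K b)) :
    (a / 2 = g ∧ b / 2 = g ∧ (W C K (2 * g + 1) = W C K (2 * g) ∨ a ≠ b)) ∨
      q1 K Y U g (32767 - gn (cv C K) K g) a b = 0 ∧ q1 K Y U g (32767 - gn (cv C K) K g) b a = 0 ∨
      q2 C K Y U g a b = true ∧ q2 C K Y U g b a = true := by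
  by_cases c : a = 2 * g ∧ b = 2 * g + 1
  · exact Or.inl ⟨by omega, by omega, Or.inr (by omega)⟩
  have h := allLt_iff.1 h g hg
  have k := fk_W C K
  have s : Nat.land (Nat.shiftRight (sK C K) (Nat.mul 52 g)) 67108863 =
      fk (W C K (2 * g)) + fk (W C K (2 * g + 1)) := by
    have := k (2 * g)
    have := k (2 * g + 1)
    rw [sK, fK_eq]
    exact (Nat.and_two_pow_sub_one_eq_mod _ 26).trans ((pair_get (fun i => (k i).trans (by omega))
      (by omega) le_rfl).trans (Nat.mod_eq_of_lt (by omega)))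
  have fl : ∀ p, (Nat.shiftLeft 2251799813685248
      (Nat.mul (Nat.mul 52 (Nat.succ (2 * K))) g)).testBit p →
      p = 26 * (2 * K * (2 * g) + (2 * g + 1)) + 25 := fun p x => by
    obtain ⟨x, y⟩ := bit_shl.1 x
    change (2 ^ 51).testBit _ = true at y
    rw [Nat.testBit_two_pow, decide_eq_true_eq] at y
    have : Nat.mul (Nat.mul 52 (Nat.succ (2 * K))) g = 26 * (2 * K * (2 * g) + 2 * g) := by
      change 52 * (2 * K + 1) * g = _
      ring
    omega
  have k0 := k (2 * g)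
  have k1 := k (2 * g + 1)
  rw [yG, s, y1, mS, mA_eq, mB_eq (by omega), oa_mul, oa_mul, oa_mul, mx_add, mx_add, tr_eq,
    mx_sub fun _ _ => by omega, mx_sub fun _ _ => by omega] at h
  have := hits_spec (a := a) (by omega) (fun p y => ?_) h hb (bit_xor.2 fun y => ?_)
  · rw [frc_eq, frc_eq, bor_iff, bor_iff, band_iff, band_iff, band_iff, Nat.beq_eq, Nat.beq_eq,
      Nat.beq_eq, Nat.lor_eq, Nat.or_eq_zero_iff, Nat.shiftRight_eq', Nat.shiftRight_eq',
      Nat.shiftRight_one, Nat.shiftRight_one] at this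
    rcases this with x | x | x
    exacts [Or.inr (Or.inl x), Or.inr (Or.inr x), Or.inl ⟨x.1.1, x.1.2, Or.inl (dup_W x.2)⟩]
  · by_contra z
    exact bit_xor.1 y (iff_of_false (fun x => z (tops_tri 0 _ p (bit_and.1 x).2))
      fun x => z ⟨_, lane_lt (by omega) (by omega), fl p x⟩)
  · have z := fl _ (y.1 (bit_and.2 ⟨bit_xor.2 fun z => ?_, ?_⟩))
    · have z : 2 * K * a + b = 2 * K * (2 * g) + (2 * g + 1) := by omega
      exact c ⟨by rw [← lane_div (a := a) hb, z, lane_div (by omega)],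
        by rw [← lane_mod (a := a) hb, z, lane_mod (by omega)]⟩
    · have x := fe_W C K a
      have x' := fe_W C K b
      rw [mx_bit (fun a b => by have := k a; have := k b; omega) (by omega) hb,
        mx_bit (fun a b => by have := k a; have := k b; omega) (by omega) hb,
        Nat.testBit_eq_decide_div_mod_eq, Nat.testBit_eq_decide_div_mod_eq, decide_eq_true_eq,
        decide_eq_true_eq] at z
      simp only [fk_eq] at z
      omega
    · rw [tri_eq, mx_bit (fun _ _ => by split_ifs <;> omega) (by omega) hb, if_pos (by omega)]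
      decide

theorem others_spec (hK : K ≤ 44) (h : others C K (2 * K) Y U = true) (hg : g < K)
    (ha : a < 2 * K) (hb : b < 2 * K)
    (e : fc (W C K a) + fc (W C K b) = fc (W C K (2 * g)) + fc (W C K (2 * g + 1))) :
    (a / 2 = g ∧ b / 2 = g ∧ (W C K (2 * g + 1) = W C K (2 * g) ∨ a ≠ b)) ∨
      fe (W C K a) + fe (W C K b) < fe (W C K (2 * g)) + fe (W C K (2 * g + 1)) ∨
      q1 K Y U g (32767 - gn (cv C K) K g) a b = 0 ∨ q2 C K Y U g a b = true := by
  by_cases c : fe (W C K a) + fe (W C K b) < fe (W C K (2 * g)) + fe (W C K (2 * g + 1))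
  · exact Or.inr (Or.inl c)
  rcases le_total a b with l | l
  · exact (others_le hK h hg l hb e (by omega)).imp_right fun x => Or.inr (x.imp And.left And.left)
  · exact (others_le hK h hg l ha (by omega) (by omega)).imp
      (fun x => ⟨x.2.1, x.1, x.2.2.imp_right Ne.symm⟩) fun x => Or.inr (x.imp And.right And.right)

end X

end Pool.Agent.Lib.MP_ed43e6_ag.Q.Bd
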