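import Pool.Agent.Lib.MP_ed43e6_ag.Q.L2P

/-! The slots of the packed boards. -/

namespace Pool.Agent.Lib.MP_ed43e6_ag.Q.Bd.X

open Finset N

variable {i j s s' g K p x y z C Y U M : ℕ}

/-- All bits lie in the slot `s`. -/
def Sb (s x : ℕ) : Prop := Sub x (Nat.shiftLeft full s)

theorem sb_and (s x : ℕ) : Sb s (Nat.land x (Nat.shiftLeft full s)) := fun _ a => (bit_and.1 a).2

theorem sb_zero (s : ℕ) : Sb s 0 := fun _ a => by simp at a

theorem pk4 {F a b c d : ℕ → ℕ} (ha : ∀ g, Sb 0 (a g)) (hb : ∀ g, Sb 24 (b g))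
    (hc : ∀ g, Sb 576 (c g)) (hd : ∀ g, Sb 600 (d g)) (hF : ∀ g i, (F g).testBit i ↔
      ((a g).testBit i ∨ (b g).testBit i) ∨ (c g).testBit i ∨ (d g).testBit i)
    (hg : g < K) (hj : Fu j) :
    ((pk 8064 K F).testBit (j + (8064 * g + 0)) ↔ (a g).testBit (j + 0)) ∧
    ((pk 8064 K F).testBit (j + (8064 * g + 24)) ↔ (b g).testBit (j + 24)) ∧
    ((pk 8064 K F).testBit (j + (8064 * g + 576)) ↔ (c g).testBit (j + 576)) ∧
    ((pk 8064 K F).testBit (j + (8064 * g + 600)) ↔ (d g).testBit (j + 600)) := by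
  have s0 : Sl 0 := Or.inl rfl
  have s1 : Sl 24 := Or.inr (Or.inl rfl)
  have s2 : Sl 576 := Or.inr (Or.inr (Or.inl rfl))
  have s3 : Sl 600 := Or.inr (Or.inr (Or.inr rfl))
  have l : ∀ g < K, Lt 8064 (F g) := fun g _ i e => by
    rcases (hF g i).1 e with (e | e) | e | e
    exacts [slot_lt s0 (ha g i e), slot_lt s1 (hb g i e), slot_lt s2 (hc g i e),
      slot_lt s3 (hd g i e)]
  have n : ∀ {s s' x}, Sl s → Sl s' → Sb s' x → s ≠ s' → ¬ x.testBit (j + s) :=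
    fun u v w e a => e ((bit_slot hj u v).1 (w _ a))
  rw [pk_at l hj s0, pk_at l hj s1, pk_at l hj s2, pk_at l hj s3, hF, hF, hF, hF]
  simp only [hg, true_and, n s0 s1 (hb g) (by omega), n s0 s2 (hc g) (by omega),
    n s0 s3 (hd g) (by omega), n s1 s0 (ha g) (by omega), n s1 s2 (hc g) (by omega),
    n s1 s3 (hd g) (by omega), n s2 s0 (ha g) (by omega), n s2 s1 (hb g) (by omega),
    n s2 s3 (hd g) (by omega), n s3 s0 (ha g) (by omega), n s3 s1 (hb g) (by omega),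
    n s3 s2 (hc g) (by omega), Bool.false_eq_true, or_false, false_or, and_self]

theorem bit_ones {n : ℕ} : (Nat.pred (Nat.shiftLeft 1 n)).testBit i ↔ i < n := by
  rw [Nat.shiftLeft_eq', Nat.one_shiftLeft, Nat.pred_eq_sub_one, Nat.testBit_two_pow_sub_one,
    decide_eq_true_eq]

theorem slot_self (hj : Fu j) : (Nat.shiftLeft full s).testBit (j + s) :=
  (bit_shl' rfl).2 (full_iff.2 hj)

theorem ob_at {r da db dt : ℕ} (hj : Fu j) (hr : r + s = 8615) :
    (ob (Nat.shiftLeft full s) r z (code da db dt) (code (da - 6) (db - 10) (dt - 22))).testBit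
      (j + s) ↔ (oo z da db dt).testBit j := by
  have l : code da db dt ≤ code (da - 6) (db - 10) (dt - 22) + 8615 := by
    simp only [code_eq, ix]
    omega
  have := hj.1
  rw [ob, oo, bit_andn, bit_and, bit_and, and_iff_left (slot_self hj), bit_shr, bit_shf, bit_shl,
    bit_shl, bit_shl, bit_shl, nz, bit_xor, bit_ones, Nat.sub_eq, Nat.sub_eq, Nat.sub_eq,
    show j + s + r = j + 8615 by omega]
  generalize code da db dt = c at l
  generalize code (da - 6) (db - 10) (dt - 22) = c' at l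
  rw [show j + s - c' - s = j - c' by omega, iff_true_intro (show j + 8615 - c < 16679 by omega)]
  constructor
  · rintro ⟨⟨a, b, d⟩, -, e⟩
    exact ⟨⟨by omega, d⟩, fun u => e (iff_of_true trivial u.2)⟩
  · rintro ⟨⟨a, d⟩, e⟩
    exact ⟨⟨by omega, by omega, d⟩, by omega, fun u => e ⟨by omega, u.1 trivial⟩⟩

theorem sb_ob (s r z c c' : ℕ) : Sb s (ob (Nat.shiftLeft full s) r z c c') := fun _ a =>
  (bit_and.1 (bit_and.1 a).1).2

theorem or3 {a b c : ℕ} : (Nat.lor (Nat.lor a b) c).testBit i ↔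
    (a.testBit i ∨ b.testBit i) ∨ c.testBit i ∨ (0 : ℕ).testBit i := by
  simp

theorem bO_at {a1 b1 t1 a2 b2 t2 a3 b3 t3 : ℕ} (hg : g < K) (hj : Fu j)
    (c1 : ga (cv C K) g = code a1 b1 t1) (s1 : ga (sv C K) g = code (a1 - 6) (b1 - 10) (t1 - 22))
    (c2 : gb (cv C K) g = code a2 b2 t2) (s2 : gb (sv C K) g = code (a2 - 6) (b2 - 10) (t2 - 22))
    (c3 : gn (cv C K) K g = code a3 b3 t3)
    (s3 : gn (sv C K) K g = code (a3 - 6) (b3 - 10) (t3 - 22)) :
    ((bO z C K).testBit (j + (8064 * g + 0)) ↔ (oo z a1 b1 t1).testBit j) ∧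
    ((bO z C K).testBit (j + (8064 * g + 24)) ↔ (oo z a2 b2 t2).testBit j) ∧
    ((bO z C K).testBit (j + (8064 * g + 576)) ↔ (oo z a3 b3 t3).testBit j) := by
  obtain ⟨h1, h2, h3, -⟩ := pk4 (K := K)
    (fun g => sb_ob 0 8615 z (ga (cv C K) g) (ga (sv C K) g))
    (fun g => sb_ob 24 8591 z (gb (cv C K) g) (gb (sv C K) g))
    (fun g => sb_ob 576 8039 z (gn (cv C K) K g) (gn (sv C K) K g)) (fun _ => sb_zero 600)
    (fun _ _ => or3) hg hj
  rw [c1, s1, ob_at hj rfl] at h1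
  rw [c2, s2, ob_at hj rfl] at h2
  rw [c3, s3, ob_at hj rfl] at h3
  exact ⟨h1, h2, h3⟩

theorem seed_at (hj : Fu j) : (Nat.land (Nat.shiftLeft (Nat.shiftLeft 1 s) i)
    (Nat.shiftLeft full s)).testBit (j + s) ↔ j = i := by
  rw [bit_and, and_iff_left (slot_self hj), bit_shl, bit_one]
  omega

theorem bS_at (hg : g < K) (hj : Fu j) :
    ((bS C K).testBit (j + (8064 * g + 0)) ↔ j = Nat.land (ig C K g) 8191) ∧
    ((bS C K).testBit (j + (8064 * g + 24)) ↔ j = Nat.land (Nat.shiftRight (ig C K g) 13) 8191) ∧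
    ((bS C K).testBit (j + (8064 * g + 576)) ↔
      j = Nat.land (Nat.shiftRight (ig C K g) 26) 8191) := by
  obtain ⟨h1, h2, h3, -⟩ := pk4 (K := K)
    (fun g => sb_and 0 (Nat.shiftLeft (Nat.shiftLeft 1 0) (Nat.land (ig C K g) 8191)))
    (fun g => sb_and 24 (Nat.shiftLeft (Nat.shiftLeft 1 24)
      (Nat.land (Nat.shiftRight (ig C K g) 13) 8191)))
    (fun g => sb_and 576 (Nat.shiftLeft (Nat.shiftLeft 1 576)
      (Nat.land (Nat.shiftRight (ig C K g) 26) 8191))) (fun _ => sb_zero 600)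
    (fun _ _ => or3) hg hj
  rw [seed_at hj] at h1 h2 h3
  exact ⟨h1, h2, h3⟩

theorem fill_zero (L0 L1 L2 f : ℕ) : fill L0 L1 L2 f 0 = 0 := by
  cases f with
  | zero => rfl
  | succ f => rw [fill_succ, if_pos (by simp [step, dn, up])]

theorem at0_zero (p : ℕ) : at0 0 p = 0 := by simp [at0]

/-- The board in a slot of the common fill is empty or a class. -/
theorem cls_at (hz : ∀ j, z.testBit j → In j) (hg : g < K) (hs : s = 0 ∨ s = 24 ∨ s = 576)
    {O S o : ℕ} (hO : ∀ j, Fu j → (O.testBit (j + (8064 * g + s)) ↔ o.testBit j))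
    (hS : ∀ j, Fu j → (S.testBit (j + (8064 * g + s)) ↔ j = i)) :
    at0 (fill (lk (bZ z K) O 1152) (lk (bZ z K) O 48) (lk (bZ z K) O 1) 40 S) (8064 * g + s) = 0 ∨
    at0 (fill (lk (bZ z K) O 1152) (lk (bZ z K) O 48) (lk (bZ z K) O 1) 40 S) (8064 * g + s) =
      cls z o i := by
  have sl : Sl s := by unfold Sl; omega
  have e : ∀ k, at0 (lk (bZ z K) O (ee k)) (8064 * g + s) = lk z o (ee k) := fun k => by
    refine Nat.eq_of_testBit_eq fun j => ?_
    rw [Bool.eq_iff_iff, bit_at0, lk, lk, bit_and, bit_and, bit_shl, bit_shl]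
    constructor
    · rintro ⟨⟨⟨-, a⟩, b⟩, c⟩
      have d := (bZ_at hz c sl b).2
      obtain ⟨d1, d2⟩ := (hz _ d).dn k
      exact ⟨⟨d1, (hO _ d2).1 (by rwa [Nat.sub_add_comm d1] at a)⟩, d⟩
    · rintro ⟨⟨d1, a⟩, d⟩
      exact ⟨⟨⟨by omega, by rw [Nat.sub_add_comm d1]; exact (hO _ ((hz _ d).dn k).2).2 a⟩,
        bZ_of hz hg hs d⟩, (hz _ d).fu⟩
  have sp : ∀ k, Sep (lk (bZ z K) O (ee k)) (ee k) (8064 * g + s) := fun k =>
    sep_of hz (fun _ a => (bit_and.1 a).2) sl k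
  rcases at_fill (f := 40) (X := S) (sp 0) (sp 1) (sp 2) with h | h
  · exact Or.inl ((congrArg (at0 · _) h).trans (at0_zero _))
  rw [e, e, e] at h
  by_cases c : Fu i
  · refine Or.inr (h.trans (congrArg _ (Nat.eq_of_testBit_eq fun j => ?_)))
    rw [Bool.eq_iff_iff, bit_at0, bit_one]
    exact ⟨fun a => (hS _ a.2).1 a.1, fun a => ⟨(hS _ (a ▸ c)).2 a, a ▸ c⟩⟩
  · refine Or.inl (h.trans ((congrArg _ (Nat.eq_of_testBit_eq fun j => ?_)).trans
      (fill_zero _ _ _ _)))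
    rw [Bool.eq_iff_iff, bit_at0, Nat.zero_testBit]
    exact ⟨fun a => (c ((hS _ a.2).1 a.1 ▸ a.2)).elim, fun a => Bool.noConfusion a⟩

/-! ### Sources and moved classes -/

theorem xa_eq (Y g : ℕ) : xa Y g = at0 Y (8064 * g + 0) := rfl

theorem xb_eq (Y g : ℕ) : xb Y g = Nat.shiftLeft (at0 Y (8064 * g + 24)) 24 := by
  refine Nat.eq_of_testBit_eq fun j => ?_
  have e : (xb Y g).testBit j ↔ Y.testBit (j + 8064 * g) ∧ 24 ≤ j ∧ Fu (j - 24) :=
    bit_and.trans (and_congr bit_shr (bit_shl.trans (and_congr_right fun _ => full_iff)))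
  rw [Bool.eq_iff_iff, e, bit_shl, bit_at0]
  constructor
  · rintro ⟨a, b, c⟩
    exact ⟨b, by rwa [show j - 24 + (8064 * g + 24) = j + 8064 * g by omega], c⟩
  · rintro ⟨b, a, c⟩
    exact ⟨by rwa [show j - 24 + (8064 * g + 24) = j + 8064 * g by omega] at a, b, c⟩

theorem mv_at {a b t : ℕ} (hj : Fu j) :
    (mv (Nat.shiftLeft x t) a b (Nat.shiftLeft full s)).testBit (j + s) ↔
      a + t ≤ j + s + b ∧ x.testBit (j + s + b - (a + t)) := by
  rw [mv, bit_and, and_iff_left (slot_self hj), bit_shr, bit_shl, bit_shl, Nat.sub_sub]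
  exact ⟨fun h => ⟨by omega, h.2.2⟩, fun h => ⟨by omega, by omega, h.2⟩⟩

theorem mv_ush {a c t : ℕ} (hj : Fu j) (h : a + t = 8615 + s) :
    (mv (Nat.shiftLeft x t) a c (Nat.shiftLeft full s)).testBit (j + s) ↔ (ush x c).testBit j := by
  rw [mv_at hj, bit_ush, show j + s + c - (a + t) = j + c - 8615 by omega]
  exact and_congr_left fun _ => by omega

theorem mv_shf {c : ℕ} (hj : Fu j) :
    (mv (Nat.shiftLeft x s) c 8615 (Nat.shiftLeft full s)).testBit (j + s) ↔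
      (shf x c).testBit j := by
  rw [mv_at hj, bit_shf, show j + s + 8615 - (c + s) = j + 8615 - c by omega]
  exact and_congr_left fun _ => by omega

theorem bU_at (hg : g < K) (hj : Fu j) :
    ((bU z C K Y).testBit (j + (8064 * g + 0)) ↔
      (ush (at0 Y (8064 * g + 24)) (gb (cv C K) g)).testBit j) ∧
    ((bU z C K Y).testBit (j + (8064 * g + 24)) ↔
      (ush (at0 Y (8064 * g + 0)) (ga (cv C K) g)).testBit j) ∧
    ((bU z C K Y).testBit (j + (8064 * g + 576)) ↔ (ush z (gb (cv C K) g)).testBit j) ∧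
    ((bU z C K Y).testBit (j + (8064 * g + 600)) ↔ (ush z (ga (cv C K) g)).testBit j) := by
  obtain ⟨h1, h2, h3, h4⟩ := pk4 (K := K)
    (a := fun g => mv (xb Y g) 8591 (gb (cv C K) g) (Nat.shiftLeft full 0))
    (b := fun g => mv (Nat.shiftLeft (xa Y g) 0) 8639 (ga (cv C K) g) (Nat.shiftLeft full 24))
    (c := fun g => mv (Nat.shiftLeft z 0) 9191 (gb (cv C K) g) (Nat.shiftLeft full 576))
    (d := fun g => mv (Nat.shiftLeft z 0) 9215 (ga (cv C K) g) (Nat.shiftLeft full 600))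
    (fun _ => sb_and _ _) (fun _ => sb_and _ _) (fun _ => sb_and _ _) (fun _ => sb_and _ _)
    (fun _ _ => bit_or.trans (or_congr bit_or bit_or)) hg hj
  rw [xb_eq, mv_ush hj (by rfl)] at h1
  rw [mv_ush hj (by rfl)] at h2 h3 h4
  exact ⟨h1, h2, h3, h4⟩

theorem bM_at (hg : g < K) (hj : Fu j) :
    ((bM C K Y).testBit (j + (8064 * g + 0)) ↔
      (shf (at0 Y (8064 * g + 0)) (gn (cv C K) K g)).testBit j) ∧
    ((bM C K Y).testBit (j + (8064 * g + 24)) ↔
      (shf (at0 Y (8064 * g + 24)) (gn (cv C K) K g)).testBit j) := by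
  obtain ⟨h1, h2, -⟩ := pk4 (K := K)
    (F := fun g => Nat.lor (mv (xa Y g) (gn (cv C K) K g) 8615 full)
      (mv (xb Y g) (gn (cv C K) K g) 8615 f1))
    (a := fun g => mv (Nat.shiftLeft (xa Y g) 0) (gn (cv C K) K g) 8615 (Nat.shiftLeft full 0))
    (b := fun g => mv (xb Y g) (gn (cv C K) K g) 8615 (Nat.shiftLeft full 24))
    (fun _ => sb_and _ _) (fun _ => sb_and _ _) (fun _ => sb_zero _) (fun _ => sb_zero _)
    (fun _ _ => bit_or.trans (by simp only [Nat.zero_testBit, Bool.false_eq_true, or_false]; rfl))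
    hg hj
  rw [mv_shf hj] at h1
  rw [xb_eq, mv_shf hj] at h2
  exact ⟨h1, h2⟩

theorem kK_full : (kK K full).testBit p ↔ ∃ g < K, ∃ j, Fu j ∧ p = j + 8064 * g := by
  have l : ∀ g < K, Lt 8064 full := fun _ _ _ a => (full_iff.1 a).1
  rw [kK_eq]
  constructor
  · intro a
    obtain ⟨g, hg, r, -, e, b⟩ := pk_ex l a
    exact ⟨g, hg, r, full_iff.1 b, by omega⟩
  · rintro ⟨g, hg, j, a, rfl⟩
    rw [add_comm, pk8 l a.1]
    exact ⟨hg, full_iff.2 a⟩

theorem bit_bN : (bN K Y).testBit p ↔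
    ∃ g < K, ∃ j, p = j + 8064 * g ∧ (at0 Y (8064 * g + 576)).testBit j := by
  rw [bN, bit_and, bit_shr, kK_full]
  constructor
  · rintro ⟨a, g, hg, j, b, rfl⟩
    exact ⟨g, hg, j, rfl, bit_at0.2 ⟨by rwa [← add_assoc], b⟩⟩
  · rintro ⟨g, hg, j, rfl, a⟩
    obtain ⟨a, b⟩ := bit_at0.1 a
    exact ⟨by rwa [add_assoc], g, hg, j, b, rfl⟩

theorem xa_bN (hg : g < K) : xa (bN K Y) g = at0 Y (8064 * g + 576) := by
  refine Nat.eq_of_testBit_eq fun j => ?_
  rw [Bool.eq_iff_iff, xa_eq, bit_at0, bit_bN]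
  constructor
  · rintro ⟨⟨g', -, j', e, a⟩, b⟩
    obtain ⟨rfl, rfl, -⟩ := uniq (g' := g') b (bit_at0.1 a).2 (Or.inl rfl) (Or.inl rfl) e
    exact a
  · exact fun a => ⟨⟨g, hg, j, rfl, a⟩, (bit_at0.1 a).2⟩

theorem bit_NN : (Nat.mul (bN K Y) 16777217).testBit p ↔ ∃ g < K, ∃ s j, (s = 0 ∨ s = 24) ∧
    p = j + (8064 * g + s) ∧ (at0 Y (8064 * g + 576)).testBit j := by
  rw [bit_dbl fun i a => by
    obtain ⟨g, -, j, rfl, b⟩ := bit_bN.1 a
    have := (bit_at0.1 b).2.2.2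
    omega, bit_bN, bit_bN]
  constructor
  · rintro (⟨g, hg, j, e, a⟩ | ⟨b, g, hg, j, e, a⟩)
    exacts [⟨g, hg, 0, j, Or.inl rfl, e, a⟩, ⟨g, hg, 24, j, Or.inr rfl, by omega, a⟩]
  · rintro ⟨g, hg, s, j, rfl | rfl, e, a⟩
    exacts [Or.inl ⟨g, hg, j, e, a⟩, Or.inr ⟨by omega, g, hg, j, by omega, a⟩]

theorem eN_at (hg : g < K) (hj : Fu j) (hs : s = 0 ∨ s = 24) {XS V : ℕ}
    (hN : ∀ j, (at0 Y (8064 * g + 576)).testBit j → In j)
    (hM : ∀ j, Fu j → (M.testBit (j + (8064 * g + s)) ↔ XS.testBit j))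
    (hU : ∀ j, Fu j → (U.testBit (j + (8064 * g + s)) ↔ V.testBit j)) (k l : Fin 3) :
    (Nat.land (eN K Y M (ee k)) (Nat.shiftRight U (ee l))).testBit (j + (8064 * g + s)) ↔
      (tb (at0 Y (8064 * g + 576)) XS V (ee k) (ee l)).testBit j := by
  have e : (Nat.mul (bN K Y) 16777217).testBit (j + (8064 * g + s)) ↔
      (at0 Y (8064 * g + 576)).testBit j := by
    rw [bit_NN]
    refine ⟨?_, fun a => ⟨g, hg, s, j, hs, rfl, a⟩⟩
    rintro ⟨g', -, s', j', a, b, c⟩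
    obtain ⟨rfl, rfl, -⟩ := uniq hj (bit_at0.1 c).2 (by unfold Sl; omega) (by unfold Sl; omega) b
    exact c
  rw [eN, tb, bit_and, bit_and, bit_and, bit_and, e, and_assoc, and_assoc]
  refine and_congr_right fun a => ?_
  obtain ⟨d1, d2⟩ := (hN _ a).dn k
  rw [bit_shl, bit_shl, bit_shr, bit_shr, Nat.sub_add_comm d1, hM _ d2, add_right_comm,
    hU _ ((hN _ a).up l), and_iff_right d1, and_iff_right (d1.trans (Nat.le_add_right _ _))]

end Pool.Agent.Lib.MP_ed43e6_ag.Q.Bd.X
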