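import Pool.Agent.Lib.MP_ed43e6_ag.Q.Blk

/-! The meaning of a valid block of groups, independent of the way it is checked. -/

namespace Pool.Agent.Lib.MP_ed43e6_ag.Q.Bd

open Finset N

/-- The words `W 0, …, W (2 K - 1)` describe `K` valid groups of classes on the board `z`. -/
structure Sem (z K : ℕ) (W : ℕ → ℕ) : Prop where
  cl : ∀ a < 2 * K, Act z (fda (W a)) (fdb (W a)) (fdt (W a)) (fX z (W a)) ∧
    676120 ≤ key (fda (W a)) (fdb (W a)) (fdt (W a)) ∧ fX z (W a) ≠ 0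
  dist : ∀ a < 2 * K, ∀ b < a, ¬ (a % 2 = 1 ∧ W a = W (a - 1)) → fc (W a) = fc (W b) →
    ∀ i, (fX z (W a)).testBit i → ¬ (fX z (W b)).testBit i
  row : ∀ g < K, ∃ na nb nt N, na + (fda (W (2 * g)) + fda (W (2 * g + 1))) = 20 ∧
    nb + (fdb (W (2 * g)) + fdb (W (2 * g + 1))) = 32 ∧
    nt + (fdt (W (2 * g)) + fdt (W (2 * g + 1))) = 68 ∧ Act z na nb nt N ∧
    (∀ k, Cl1 (lk z (oo z na nb nt) (ee k)) (ee k) N) ∧
    lead (posP N (shf (fX z (W (2 * g))) (code na nb nt)) (fU z (W (2 * g + 1))) +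
        posP N (shf (fX z (W (2 * g + 1))) (code na nb nt)) (fU z (W (2 * g))))
      (posQ N (shf (fX z (W (2 * g))) (code na nb nt)) (fU z (W (2 * g + 1))) +
        posQ N (shf (fX z (W (2 * g + 1))) (code na nb nt)) (fU z (W (2 * g)))) = true ∧
    ∀ a < 2 * K, ∀ b < 2 * K, fc (W a) + fc (W b) = fc (W (2 * g)) + fc (W (2 * g + 1)) →
      (a / 2 = g ∧ b / 2 = g ∧ (W (2 * g + 1) = W (2 * g) ∨ a ≠ b)) ∨
        fe (W a) + fe (W b) < fe (W (2 * g)) + fe (W (2 * g + 1)) ∨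
        nosup N (shf (fX z (W a)) (code na nb nt)) (fU z (W b)) = true

/-- The class is a copy of the previous one. -/
def Dup (W : ℕ → ℕ) (a : ℕ) : Prop := a % 2 = 1 ∧ W a = W (a - 1)

variable {z K b g : ℕ} {W : ℕ → ℕ} {h0 h h2 : ℕ → ℕ → ℕ} {u0 u1 : T3}

theorem Sem.edge (s : Sem z K W) (F : Flag h0 h h2 u0 u1 z) {D : ℕ} (hD : 32 ≤ D) (hg : g < K)
    {A : Finset ℕ} (hA : ∀ a ∈ A, a < 2 * K ∧ ¬ Dup W a)
    (hb : b = 2 * g ∧ Dup W (2 * g + 1) ∨ b = 2 * g + 1 ∧ ¬ Dup W (2 * g + 1)) :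
    Edge ![h0, h, h2] D A (fun a => XW u0 u1 z (W a)) (fun a => gW (W a))
      (fun a => fe (W a)) (2 * g) b := by
  have wb : W (2 * g + 1) = W b := by
    rcases hb with ⟨rfl, x⟩ | ⟨rfl, -⟩
    exacts [x.2, rfl]
  obtain ⟨na, nb, nt, N, e1, e2, e3, hN, hc, l, ho⟩ := s.row g hg
  obtain ⟨a1, a2, -⟩ := s.cl (2 * g) (by omega)
  obtain ⟨b1, b2, -⟩ := s.cl (2 * g + 1) (by omega)
  have hd : W (2 * g + 1) = W (2 * g) → Dup W (2 * g + 1) := fun x => ⟨by omega, x⟩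
  rw [wb] at e1 e2 e3 l ho b1 b2 hd
  obtain ⟨l1, l2⟩ := band_iff.1 l
  replace l1 := Nat.le_of_ble_eq_true l1
  have lk := links_of_closed F.isb F.b1 F.a1 hN.b hN.t hc F.isb F.b1 hN.s.right
  clear l
  have sy : ∀ w w', sym ![h0, h, h2] [(1, 1, PB na nb nt N)] (XW u0 u1 z w) (XW u0 u1 z w') =
      coef h (PB na nb nt N) (PB (fda w) (fdb w) (fdt w) (fX z w))
        (PB (fda w') (fdb w') (fdt w') (fX z w')) +
      coef h (PB na nb nt N) (PB (fda w') (fdb w') (fdt w') (fX z w'))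
        (PB (fda w) (fdb w) (fdt w) (fX z w)) := fun w w' => by
    have e : ![h0, h, h2] 1 = h := rfl
    have c : ∀ w u v, ¬ ins h u → ins h v → (ap (XW u0 u1 z w) u v ↔
        ap (PB (fda w) (fdb w) (fdt w) (fX z w)) u v) := fun _ _ _ => F.act
    rw [sym_one, e, coef_congr (c w) (c w'), coef_congr (c w') (c w)]
  obtain ⟨t1, t2, t3, t4, t5, t6⟩ := lead_aux l1 l2 hD
  clear l1 l2
  have v := sy (W (2 * g)) (W b)
  rw [coef_eq F.isb F.b1 hN a1 b1 (by omega) t1 t3, coef_eq F.isb F.b1 hN b1 a1 (by omega) t2 t4]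
    at v
  refine ⟨[(1, 1, PB na nb nt N)], fun e he => ?_, v ▸ t5, v ▸ t6, fun a' ha' b' hb' => ?_⟩
  all_goals clear v t1 t2 t3 t4 t5 t6
  · rw [List.mem_singleton.1 he]
    refine ⟨lk, fun u v x => ?_⟩
    have := (ap_PB.1 x).1.ky
    change ky v + (gW (W (2 * g)) + gW (W b)) + key 1 1 1 = ky u
    unfold gW
    unfold key at *
    omega
  have Z : ∀ a' ∈ A, ∀ b' ∈ A, ¬ (a' = 2 * g ∧ b' = b) → ¬ (a' = b ∧ b' = 2 * g) →
      ¬ fe (W a') + fe (W b') < fe (W (2 * g)) + fe (W b) →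
      coef h (PB na nb nt N) (PB (fda (W a')) (fdb (W a')) (fdt (W a')) (fX z (W a')))
        (PB (fda (W b')) (fdb (W b')) (fdt (W b')) (fX z (W b'))) = 0 := by
    intro a' ha' b' hb' n1 n2 n3
    by_contra x
    have y := coef_ne x
    obtain ⟨p1, p2⟩ := hA a' ha'
    obtain ⟨q1, q2⟩ := hA b' hb'
    rcases ho a' p1 b' q1 (by simp only [fc, code_eq, ix]; omega) with r | r | r
    · have c1 : Dup W (2 * g + 1) → a' ≠ 2 * g + 1 := fun d e => p2 (e ▸ d)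
      have c2 : Dup W (2 * g + 1) → b' ≠ 2 * g + 1 := fun d e => q2 (e ▸ d)
      rcases hb with ⟨rfl, d⟩ | ⟨rfl, d⟩
      · have := c1 d
        have := c2 d
        omega
      · have := r.2.2.resolve_left (mt hd d)
        omega
    · exact n3 r
    · exact x (coef_nosup F.isb F.b1 hN (s.cl a' p1).1 (s.cl b' q1).1 r)
  by_contra x
  simp only [not_or] at x
  obtain ⟨x1, x2, x3, x4⟩ := x
  refine x3 ?_
  rw [sy, Z a' ha' b' hb' x1 x2 x4, Z b' hb' a' ha' (fun y => x2 y.symm) (fun y => x1 y.symm)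
    (by rwa [add_comm]), add_zero]

theorem Sem.flag (s : Sem z K W) (F : Flag h0 h h2 u0 u1 z) {D : ℕ} (hD : 32 ≤ D)
    {Al : Finset ℕ} (hK : Al ⊆ range K)
    (al : ∀ g ∈ Al,
      ¬ (Nat.lor (dead0 z (W (2 * g))) (dead0 z (W (2 * g + 1)))).testBit (pos u0) ∧
      ¬ (Nat.lor (dead2 z (W (2 * g))) (dead2 z (W (2 * g + 1)))).testBit (pos u1)) :
    Gain ![h0, h, h2] D Al.card := by
  classical
  have hg : ∀ g ∈ Al, g < K := fun g e => mem_range.1 (hK e)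
  obtain ⟨A, mA⟩ : ∃ A : Finset ℕ, ∀ a, a ∈ A ↔ a / 2 ∈ Al ∧ ¬ Dup W a :=
    ⟨(range (2 * K)).filter fun a => a / 2 ∈ Al ∧ ¬ Dup W a, fun a => by
      rw [mem_filter, mem_range]
      exact and_iff_right_of_imp fun x => by have := mem_range.1 (hK x.1); omega⟩
  have par : ∀ a, a = 2 * (a / 2) ∨ a = 2 * (a / 2) + 1 := fun a => by omega
  have hA : ∀ a ∈ A, a < 2 * K ∧ ¬ Dup W a := fun a ha => by
    obtain ⟨x, y⟩ := (mA a).1 ha
    have := hg _ x
    exact ⟨by omega, y⟩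
  have hL : ∀ a ∈ A, Alive u0 u1 z (fda (W a)) (fdb (W a)) (fdt (W a)) (fX z (W a)) :=
    fun a ha => by
      obtain ⟨x, y⟩ := al _ ((mA a).1 ha).1
      rw [bit_or, not_or] at x y
      rcases par a with e | e <;> rw [e]
      exacts [F.alive x.1 y.1, F.alive x.2 y.2]
  have ev : ∀ g, ¬ Dup W (2 * g) := fun g x => by have := x.1; omega
  refine ⟨A, fun a => XW u0 u1 z (W a), fun a => gW (W a), fun a => fe (W a),
    (Al.filter fun g => ¬ Dup W (2 * g + 1)).card,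
    ⟨fun a ha => F.links (s.cl a (hA a ha).1).1 (cls_closed _ _ _) (hL a ha),
      fun a ha => ?_, fun a ha => ?_, fun T hT hc => ?_⟩, ?_⟩
  · have := (s.cl a (hA a ha).1).2.1
    refine ⟨by unfold gW; omega, fun u v x => ?_⟩
    have := (XC_dl x).ky
    unfold gW
    omega
  · obtain ⟨c1, c2, c3⟩ := s.cl a (hA a ha).1
    have sd := cls_seed c3
    obtain ⟨u, v, e, iv, d, nu⟩ := c1.ex F.isb F.b1 sd
    have bv := F.b1.lt iv
    refine ⟨u, v, Or.inl ((ap_PB' F.b1 iv).2 ⟨d, e ▸ sd⟩), ⟨1, nu, iv⟩, fun b hb ne x => ?_,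
      fun G hG x => F.conn c1 c2 hG (conn F.isb F.b1 F.a1 c1.b c1.t c1.s.right (hG 1)
        (e ▸ At.of d (by omega) (by omega) x))⟩
    obtain ⟨d', y⟩ := (ap_PB' F.b1 iv).1 ((F.act nu iv).1 x)
    have ec : fc (W a) = fc (W b) := by
      have := d.pos
      have := d'.pos
      unfold fc
      omega
    rcases lt_or_gt_of_ne ne with l | l
    · exact s.dist a (hA a ha).1 b l (hA a ha).2 ec _ (e ▸ sd) y
    · exact s.dist b (hA b hb).1 a l (hA b hb).2 ec.symm _ y (e ▸ sd)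
  · by_cases c : ∃ a ∈ T, Dup W (2 * (a / 2) + 1)
    · obtain ⟨a, ha, d⟩ := c
      obtain ⟨x, y⟩ := (mA a).1 (hT ha)
      have e : 2 * (a / 2) = a := ((par a).resolve_right fun e => y (e ▸ d)).symm
      exact ⟨_, e.symm ▸ ha, _, e.symm ▸ ha, s.edge F hD (hg _ x) hA (Or.inl ⟨rfl, d⟩)⟩
    · obtain ⟨a, ha, b, hb, ne, e⟩ := exists_ne_map_eq_of_card_lt_of_maps_to hc
        (f := fun a => a / 2) fun a ha => mem_coe.2 (mem_filter.2
          ⟨((mA a).1 (hT ha)).1, fun d => c ⟨a, ha, d⟩⟩)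
      have e' : a / 2 = b / 2 := e
      have t : 2 * (a / 2) ∈ T ∧ 2 * (a / 2) + 1 ∈ T := by
        rcases par a with x | x
        · exact ⟨x ▸ ha, (show b = 2 * (a / 2) + 1 by omega) ▸ hb⟩
        · exact ⟨(show b = 2 * (a / 2) by omega) ▸ hb, x ▸ ha⟩
      exact ⟨_, t.1, _, t.2, s.edge F hD (hg _ ((mA a).1 (hT ha)).1) hA
        (Or.inr ⟨rfl, fun d => c ⟨a, ha, d⟩⟩)⟩
  · rw [← card_image_of_injective (Al.filter fun g => ¬ Dup W (2 * g + 1))
      (f := fun g => 2 * g + 1) fun _ _ e => by simpa using e,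
      ← card_image_of_injective Al (f := fun g => 2 * g) fun _ _ e => by simpa using e,
      ← card_union_of_disjoint]
    · refine card_le_card (union_subset (image_subset_iff.2 fun g x => (mA _).2 ?_)
        (image_subset_iff.2 fun g x => (mA _).2 ?_))
      · rw [show (2 * g + 1) / 2 = g by omega]
        exact mem_filter.1 x
      · rw [show 2 * g / 2 = g by omega]
        exact ⟨x, ev g⟩
    · refine disjoint_left.2 fun a x y => ?_
      obtain ⟨g, -, rfl⟩ := mem_image.1 x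
      obtain ⟨g', -, e⟩ := mem_image.1 y
      omega

theorem Sem.gain (s : Sem z K W) {p0 q0 a1 b1 D : ℕ} (e0 : h0 = bump h p0 q0) (e1 : h = bump h2 a1 b1)
    (B0 : Bor h0) (B1 : Bor h) (B2 : Bor h2) (hb : Bdd h0) (hz : IsB h z) (hD : 32 ≤ D)
    (Al : Finset ℕ) (hK : Al ⊆ range K)
    (al : ∀ g ∈ Al,
      ¬ (Nat.lor (dead0 z (W (2 * g))) (dead0 z (W (2 * g + 1)))).testBit
        (ix (p0 + 1) (q0 + 1) (h p0 q0 + 1)) ∧
      ¬ (Nat.lor (dead2 z (W (2 * g))) (dead2 z (W (2 * g + 1)))).testBit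
        (ix (a1 + 1) (b1 + 1) (h a1 b1))) :
    Gain ![h0, h, h2] D Al.card := by
  have e : h a1 b1 = h2 a1 b1 + 1 := by rw [e1]; exact if_pos ⟨rfl, rfl⟩
  rw [e] at al
  exact s.flag (flag_of e0 e1 B0 B1 B2 hb hz) hD hK al

end Pool.Agent.Lib.MP_ed43e6_ag.Q.Bd
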