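import Pool.Agent.Lib.MP_ed43e6_ag.Q.L2C
import Pool.Agent.Lib.MP_ed43e6_ag.Q.Sem

/-! The packed checker certifies valid blocks and marks every destroyed group. -/

namespace Pool.Agent.Lib.MP_ed43e6_ag.Q.Bd.X

open Finset N

variable {a j s g K p u w z C O Y U : ℕ} {W : ℕ → ℕ}

theorem bit_f22 : f22.testBit j ↔ Fu j ∧ Fu (j + 1) :=
  bit_and.trans (and_congr full_iff (bit_shr.trans full_iff))

theorem bit_aD : (aD z K).testBit p ↔ ∃ g < K, ∃ s j, (s = 0 ∨ s = 24) ∧ Fu j ∧ Fu (j + 1) ∧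
    (p = j + (8064 * g + s) ∧ (addB z).testBit j ∨
      p = j + (8064 * g + s) + 576 ∧ (delB z).testBit j) := by
  have e : ∀ r, (Nat.lor (Nat.land (addB z) f22)
      (Nat.shiftLeft (Nat.land (delB z) f22) 576)).testBit r ↔ ∃ j, Fu j ∧ Fu (j + 1) ∧
      (r = j ∧ (addB z).testBit j ∨ r = j + 576 ∧ (delB z).testBit j) := fun r => by
    rw [bit_or, bit_and, bit_shl, bit_and, bit_f22, bit_f22]
    constructor
    · rintro (⟨a, b, c⟩ | ⟨d, a, b, c⟩)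
      exacts [⟨r, b, c, Or.inl ⟨rfl, a⟩⟩, ⟨r - 576, b, c, Or.inr ⟨by omega, a⟩⟩]
    · rintro ⟨j, b, c, ⟨rfl, a⟩ | ⟨rfl, a⟩⟩
      · exact Or.inl ⟨a, b, c⟩
      · rw [Nat.add_sub_cancel]
        exact Or.inr ⟨by omega, a, b, c⟩
  rw [aD, kK_eq]
  generalize Nat.lor _ _ = v at e ⊢
  have e2 : ∀ r, (Nat.mul v 16777217).testBit r ↔ ∃ s i, (s = 0 ∨ s = 24) ∧ r = i + s ∧
      v.testBit i := fun r => by
    rw [bit_dbl fun i a => by
      obtain ⟨j, b, -, c⟩ := (e i).1 a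
      have := b.2.2
      omega]
    constructor
    · rintro (a | ⟨b, a⟩)
      exacts [⟨0, r, Or.inl rfl, rfl, a⟩, ⟨24, r - 24, Or.inr rfl, by omega, a⟩]
    · rintro ⟨s, i, rfl | rfl, rfl, a⟩
      exacts [Or.inl a, Or.inr ⟨by omega, by rwa [Nat.add_sub_cancel]⟩]
  have l : Lt 8064 (Nat.mul v 16777217) := fun r a => by
    obtain ⟨s, i, a1, rfl, a2⟩ := (e2 r).1 a
    obtain ⟨j, b, -, c⟩ := (e i).1 a2
    unfold Fu at b
    omega
  constructor
  · intro h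
    obtain ⟨g, hg, r, -, e1, b⟩ := pk_ex (fun _ _ => l) h
    obtain ⟨s, i, a1, e3, a2⟩ := (e2 r).1 b
    obtain ⟨j, b1, b2, c⟩ := (e i).1 a2
    exact ⟨g, hg, s, j, a1, b1, b2, c.imp (fun x => ⟨by omega, x.2⟩) fun x => ⟨by omega, x.2⟩⟩
  · rintro ⟨g, hg, s, j, a1, b1, b2, ⟨rfl, c⟩ | ⟨rfl, c⟩⟩
    · have := (e2 _).2 ⟨s, j, a1, rfl, (e _).2 ⟨j, b1, b2, Or.inl ⟨rfl, c⟩⟩⟩
      rw [show j + (8064 * g + s) = 8064 * g + (j + s) by omega, pk8 (fun _ _ => l) (l _ this)]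
      exact ⟨hg, this⟩
    · have := (e2 _).2 ⟨s, _, a1, rfl, (e _).2 ⟨j, b1, b2, Or.inr ⟨rfl, c⟩⟩⟩
      rw [show j + (8064 * g + s) + 576 = 8064 * g + (j + 576 + s) by omega,
        pk8 (fun _ _ => l) (l _ this)]
      exact ⟨hg, this⟩

theorem f01_at (hg : g < K) (hs : s = 0 ∨ s = 24) (hj : Fu j) :
    (kK K f01).testBit (j + (8064 * g + s)) := by
  have l : Lt 8064 f01 := Lt.or (fun _ a => (full_iff.1 a).1)
    fun _ a => slot_lt (s := 24) (Or.inr (Or.inl rfl)) a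
  rw [kK_eq, pk_at (fun _ _ => l) hj (by unfold Sl; omega)]
  refine ⟨hg, bit_or.2 ?_⟩
  rcases hs with rfl | rfl
  exacts [Or.inl (full_iff.2 hj), Or.inr (slot_self hj)]

theorem dead_sup (h : (Nat.lor (d0 z K O Y) (Nat.shiftLeft (d2 z K U) 576)).testBit p) :
    p / 8064 < K ∧ p % 48 < 47 := by
  have e : (aD z K).testBit p := by
    rcases bit_or.1 h with h | h
    · exact (bit_and.1 (bit_and.1 h).1).2
    · obtain ⟨l, h⟩ := bit_shl.1 h
      have : (d1 z K U).testBit (p - 576) :=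
        (bit_or.1 h).elim (fun x => (bit_and.1 x).1) fun x => (bit_andn.1 x).1
      have := bit_shr.1 (bit_and.1 (bit_and.1 this).1).2
      rwa [Nat.sub_add_cancel l] at this
  obtain ⟨g, hg, s, j, a, b, c, d⟩ := bit_aD.1 e
  unfold Fu at b c
  omega

theorem rec_bit {x y i : ℕ} (h : (Bool.rec x 0 (Nat.beq y 0) : ℕ).testBit i) : x.testBit i := by
  cases e : Nat.beq y 0 <;> rw [e] at h
  · exact h
  · simp at h

theorem d0_of (hg : g < K) (hs : s = 0 ∨ s = 24) (h1 : Fu u) (h2 : Fu (u + 1))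
    (h3 : ∀ k, Fu (u - ee k))
    (hO : ∀ j, Fu j → (O.testBit (j + (8064 * g + s)) ↔ (fO z w).testBit j))
    (hY : at0 Y (8064 * g + s) = fX z w) (h : (dead0 z w).testBit u) :
    (d0 z K O Y).testBit (u + (8064 * g + s)) := by
  rw [dead0] at h
  obtain ⟨a, c⟩ := bit_and.1 (rec_bit h)
  obtain ⟨a, b⟩ := bit_and.1 a
  obtain ⟨k, i, e, a⟩ := bit_sp.1 a
  obtain ⟨k', i', e', c⟩ := bit_sp.1 c
  obtain ⟨c1, c2⟩ := bit_andn.1 c
  have f : Fu i' := by have := h3 k'; rwa [e', Nat.add_sub_cancel] at this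
  rw [← hY, bit_at0] at a c2
  refine bit_and.2 ⟨bit_and.2 ⟨bit_and.2 ⟨bit_sp.2 ⟨k, _, by omega, a.1⟩,
    bit_sp.2 ⟨k', i' + (8064 * g + s), by omega, bit_xor.2 fun x => c2 ⟨x.1 ((hO _ f).2 c1), f⟩⟩⟩,
    bit_aD.2 ⟨g, hg, s, u, hs, h1, h2, Or.inl ⟨rfl, b⟩⟩⟩, f01_at hg hs h1⟩

theorem d2_of (hg : g < K) (hs : s = 0 ∨ s = 24) (h1 : In u)
    (hU : ∀ j, Fu j → (U.testBit (j + (8064 * g + s)) ↔ (fU z w).testBit j))
    (hV : ∀ j, Fu j → (U.testBit (j + (8064 * g + s) + 576) ↔ (ush z (fc w)).testBit j))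
    (h : (dead2 z w).testBit u) : (d2 z K U).testBit (u + (8064 * g + s)) := by
  have e : (Nat.land (sm (fU z w)) (delB z)).testBit u →
      (d1 z K U).testBit (u + (8064 * g + s)) := fun x => by
    obtain ⟨a, b⟩ := bit_and.1 x
    obtain ⟨k, a⟩ := bit_sm.1 a
    have c := (hU _ (h1.up k)).2 a
    rw [add_right_comm] at c
    exact bit_and.2 ⟨bit_and.2 ⟨bit_sm.2 ⟨k, c⟩, bit_shr.2 (bit_aD.2
      ⟨g, hg, s, u, hs, h1.fu, h1.up 2, Or.inr ⟨rfl, b⟩⟩)⟩, f01_at hg hs h1.fu⟩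
  rw [dead2] at h
  rcases bit_or.1 (rec_bit h) with x | x
  · obtain ⟨a, b⟩ := bit_and.1 x
    obtain ⟨k, b⟩ := bit_sm.1 b
    have c := hU _ (h1.up k)
    have d := hV _ (h1.up k)
    rw [add_right_comm u] at c d
    exact bit_or.2 (Or.inl (bit_and.2 ⟨e a, bit_sm.2 ⟨k, bit_xor.2 fun y =>
      bit_xor.1 b (d.symm.trans (bit_shr.symm.trans (y.trans c)))⟩⟩))
  · obtain ⟨a, b⟩ := bit_andn.1 x
    exact bit_or.2 (Or.inr (bit_andn.2 ⟨e a, fun y => b ((hV _ h1.fu).1 (bit_shr.1 y))⟩))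

theorem pX_0 (g : ℕ) : pX (2 * g) = 8064 * g + 0 := by
  simp only [pX, Nat.sub_eq, Nat.mul_eq, Nat.land_eq, Nat.and_one_is_mod]
  omega

theorem pX_1 (g : ℕ) : pX (2 * g + 1) = 8064 * g + 24 := by
  simp only [pX, Nat.sub_eq, Nat.mul_eq, Nat.land_eq, Nat.and_one_is_mod]
  omega

theorem pU_0 (g : ℕ) : pU (2 * g) = 8064 * g + 24 := by
  simp only [pU, Nat.sub_eq, Nat.mul_eq, Nat.add_eq, Nat.land_eq, Nat.and_one_is_mod]
  omega

theorem pU_1 (g : ℕ) : pU (2 * g + 1) = 8064 * g + 0 := by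
  simp only [pU, Nat.sub_eq, Nat.mul_eq, Nat.add_eq, Nat.land_eq, Nat.and_one_is_mod]
  omega

/-- The words `W` are the classes listed in the certificate. -/
structure Fmt (C K : ℕ) (W : ℕ → ℕ) : Prop where
  ia : ∀ g < K, Nat.land (ig C K g) 8191 = fiv (W (2 * g))
  ib : ∀ g < K, Nat.land (Nat.shiftRight (ig C K g) 13) 8191 = fiv (W (2 * g + 1))
  ca : ∀ g < K, ga (cv C K) g = fc (W (2 * g))
  cb : ∀ g < K, gb (cv C K) g = fc (W (2 * g + 1))
  sa : ∀ g < K, ga (sv C K) g =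
    code (fda (W (2 * g)) - 6) (fdb (W (2 * g)) - 10) (fdt (W (2 * g)) - 22)
  sb : ∀ g < K, gb (sv C K) g =
    code (fda (W (2 * g + 1)) - 6) (fdb (W (2 * g + 1)) - 10) (fdt (W (2 * g + 1)) - 22)
  ok : okF C K → ∀ a < 2 * K, fdb (W a) ≤ 22 ∧ fdt (W a) ≤ 46 ∧
    676120 ≤ key (fda (W a)) (fdb (W a)) (fdt (W a))
  on : okF C K → ∀ g < K, ∃ na nb nt, na + (fda (W (2 * g)) + fda (W (2 * g + 1))) = 20 ∧
    nb + (fdb (W (2 * g)) + fdb (W (2 * g + 1))) = 32 ∧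
    nt + (fdt (W (2 * g)) + fdt (W (2 * g + 1))) = 68 ∧ nb ≤ 22 ∧ nt ≤ 46 ∧
    gn (cv C K) K g = code na nb nt ∧ gn (sv C K) K g = code (na - 6) (nb - 10) (nt - 22)
  dist : ∀ Y, dist C K (2 * K) Y → ∀ a < 2 * K, ∀ b < a, ¬ (a % 2 = 1 ∧ W a = W (a - 1)) →
    fc (W a) = fc (W b) → Nat.land (at0 Y (pX b)) (Nat.shiftRight Y (pX a)) = 0
  oth : ∀ Y U, others C K (2 * K) Y U → ∀ g < K, ∀ a < 2 * K, ∀ b < 2 * K,
    fc (W a) + fc (W b) = fc (W (2 * g)) + fc (W (2 * g + 1)) →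
    (a / 2 = g ∧ b / 2 = g ∧ (W (2 * g + 1) = W (2 * g) ∨ a ≠ b)) ∨
      fe (W a) + fe (W b) < fe (W (2 * g)) + fe (W (2 * g + 1)) ∨
      q1 K Y U g (32767 - gn (cv C K) K g) a b = 0 ∨ q2 C K Y U g a b = true

/-- The slots of the packed boards hold the boards of the classes. -/
structure Brd (z K O Y U : ℕ) (W : ℕ → ℕ) : Prop where
  o : ∀ a < 2 * K, ∀ j, Fu j → (O.testBit (j + pX a) ↔ (fO z (W a)).testBit j)
  y : ∀ a < 2 * K, at0 Y (pX a) = fX z (W a)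
  u : ∀ a < 2 * K, ∀ j, Fu j → (U.testBit (j + pU a) ↔ (fU z (W a)).testBit j)
  v : ∀ a < 2 * K, ∀ j, Fu j → (U.testBit (j + pU a + 576) ↔ (ush z (fc (W a))).testBit j)

theorem par {P : ℕ → Prop} (h : ∀ g < K, P (2 * g) ∧ P (2 * g + 1)) : ∀ a < 2 * K, P a :=
  fun a ha => by
    have := h (a / 2) (by omega)
    rcases (show a = 2 * (a / 2) ∨ a = 2 * (a / 2) + 1 by omega) with e | e <;> rw [e]
    exacts [this.1, this.2]

theorem shf_zero {x : ℕ} (h : x = 0) (c : ℕ) : shf x c = 0 :=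
  Nat.zero_of_testBit_eq_false fun _ => Bool.eq_false_iff.2 fun a => by
    have := (bit_shf.1 a).2
    rw [h, Nat.zero_testBit] at this
    exact Bool.noConfusion this

theorem ush_zero {x : ℕ} (h : x = 0) (c : ℕ) : ush x c = 0 :=
  Nat.zero_of_testBit_eq_false fun _ => Bool.eq_false_iff.2 fun a => by
    have := (bit_ush.1 a).2
    rw [h, Nat.zero_testBit] at this
    exact Bool.noConfusion this

theorem ok_sound (F : Fmt C K W) (hz : ∀ j, z.testBit j → In j) (ok : okB z C K) :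
    Sem z K W ∧ Brd z K (bO z C K) (bX z C K) (bU z C K (bX z C K)) W := by
  rw [okB, frc_eq] at ok
  obtain ⟨h1, h2⟩ := band_iff.1 ok
  obtain ⟨hF, hs⟩ := band_iff.1 h1
  obtain ⟨hl, h3⟩ := band_iff.1 h2
  obtain ⟨hd, ho⟩ := band_iff.1 h3
  rw [sub_iff] at hs
  choose! na nb nt n1 n2 n3 n4 n5 n6 n7 using F.on hF
  have hO := fun g (hg : g < K) j (hj : Fu j) => bO_at (z := z) hg hj (F.ca g hg) (F.sa g hg)
    (F.cb g hg) (F.sb g hg) (n6 g hg) (n7 g hg)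
  have cA := fun g (hg : g < K) => cls_at hz hg (Or.inl rfl) (fun j hj => (hO g hg j hj).1)
    fun j hj => (bS_at (C := C) hg hj).1
  have cB := fun g (hg : g < K) => cls_at hz hg (Or.inr (Or.inl rfl))
    (fun j hj => (hO g hg j hj).2.1) fun j hj => (bS_at (C := C) hg hj).2.1
  have cN := fun g (hg : g < K) => cls_at hz hg (Or.inr (Or.inr rfl))
    (fun j hj => (hO g hg j hj).2.2) fun j hj => (bS_at (C := C) hg hj).2.2
  change ∀ g < K, at0 (bX z C K) _ = 0 ∨ at0 (bX z C K) _ = _ at cA cB cN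
  generalize bX z C K = Y at *
  have act : ∀ {g s o}, Sl s → (∀ j, Fu j → ((bO z C K).testBit (j + (8064 * g + s)) ↔
      Nat.testBit o j)) → Sub (at0 Y (8064 * g + s)) (Nat.land o z) := fun sl h j a => by
    obtain ⟨a, b⟩ := bit_at0.1 a
    exact bit_and.2 ⟨(h j b).1 (hs.left _ a), (bZ_at hz b sl (hs.right _ a)).2⟩
  have aN := fun g (hg : g < K) => act (Or.inr (Or.inr (Or.inl rfl)))
    fun j hj => (hO g hg j hj).2.2
  have hN := fun g (hg : g < K) j a => hz j ((aN g hg).right j a)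
  have hU := fun g (hg : g < K) j (hj : Fu j) => bU_at (z := z) (C := C) (Y := Y) hg hj
  have ld : ∀ g < K, lead
      (Nat.add (posP (at0 Y (8064 * g + 576)) (shf (at0 Y (8064 * g + 0)) (gn (cv C K) K g))
          (ush (at0 Y (8064 * g + 24)) (gb (cv C K) g)))
        (posP (at0 Y (8064 * g + 576)) (shf (at0 Y (8064 * g + 24)) (gn (cv C K) K g))
          (ush (at0 Y (8064 * g + 0)) (ga (cv C K) g))))
      (Nat.add (posQ (at0 Y (8064 * g + 576)) (shf (at0 Y (8064 * g + 0)) (gn (cv C K) K g))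
          (ush (at0 Y (8064 * g + 24)) (gb (cv C K) g)))
        (posQ (at0 Y (8064 * g + 576)) (shf (at0 Y (8064 * g + 24)) (gn (cv C K) K g))
          (ush (at0 Y (8064 * g + 0)) (ga (cv C K) g)))) := fun g hg => by
    rcases bor_iff.1 hl with x | x
    · exact lead1_lead hN x hg (fun j hj => (bM_at hg hj).1) (fun j hj => (bM_at hg hj).2)
        (fun j hj => (hU g hg j hj).1) fun j hj => (hU g hg j hj).2.1
    · have y := allLt_iff.1 x g hg
      have e0 := fun XS => pos_congr (XS := XS) (hN g hg)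
        fun j hj => bit_at0.trans ((and_iff_left hj).trans (hU g hg j hj).1)
      have e1 := fun XS => pos_congr (XS := XS) (hN g hg)
        fun j hj => bit_at0.trans ((and_iff_left hj).trans (hU g hg j hj).2.1)
      rwa [Nat.succ_eq_add_one, Nat.mul_eq, pX_0, pX_1, pU_0, pU_1, xa_bN hg, (e0 _).1, (e1 _).1,
        (e0 _).2.1, (e1 _).2.1] at y
  have ne : ∀ g < K, at0 Y (8064 * g + 0) ≠ 0 ∧ at0 Y (8064 * g + 24) ≠ 0 := fun g hg =>
    ⟨fun e => lead_ne (ld g hg) ⟨Or.inl (shf_zero e _), Or.inr (ush_zero e _)⟩,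
      fun e => lead_ne (ld g hg) ⟨Or.inr (ush_zero e _), Or.inl (shf_zero e _)⟩⟩
  have yA : ∀ g < K, at0 Y (8064 * g + 0) = fX z (W (2 * g)) := fun g hg =>
    ((cA g hg).resolve_left (ne g hg).1).trans (by rw [F.ia g hg]; rfl)
  have yB : ∀ g < K, at0 Y (8064 * g + 24) = fX z (W (2 * g + 1)) := fun g hg =>
    ((cB g hg).resolve_left (ne g hg).2).trans (by rw [F.ib g hg]; rfl)
  have B : Brd z K (bO z C K) Y (bU z C K Y) W := by
    refine ⟨par fun g hg => ?_, par fun g hg => ?_, par fun g hg => ?_, par fun g hg => ?_⟩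
    · rw [pX_0, pX_1]
      exact ⟨fun j hj => (hO g hg j hj).1, fun j hj => (hO g hg j hj).2.1⟩
    · rw [pX_0, pX_1]
      exact ⟨yA g hg, yB g hg⟩
    · rw [pU_0, pU_1, fU, fU, ← yA g hg, ← yB g hg, ← F.ca g hg, ← F.cb g hg]
      exact ⟨fun j hj => (hU g hg j hj).2.1, fun j hj => (hU g hg j hj).1⟩
    · rw [pU_0, pU_1, ← F.ca g hg, ← F.cb g hg]
      refine ⟨fun j hj => ?_, fun j hj => ?_⟩
      · rw [show j + (8064 * g + 24) + 576 = j + (8064 * g + 600) by omega]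
        exact (hU g hg j hj).2.2.2
      · rw [show j + (8064 * g + 0) + 576 = j + (8064 * g + 576) by omega]
        exact (hU g hg j hj).2.2.1
  refine ⟨⟨par fun g hg => ?_, fun a ha b hb d e i x y => ?_, fun g hg =>
    ⟨na g, nb g, nt g, at0 Y (8064 * g + 576), n1 g hg, n2 g hg, n3 g hg,
      ⟨n4 g hg, n5 g hg, aN g hg⟩, fun k => ?_, ?_, fun a ha b hb e => ?_⟩⟩, B⟩
  · obtain ⟨a1, a2, a3⟩ := F.ok hF (2 * g) (by omega)
    obtain ⟨b1, b2, b3⟩ := F.ok hF (2 * g + 1) (by omega)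
    rw [← yA g hg, ← yB g hg]
    exact ⟨⟨⟨a1, a2, act (Or.inl rfl) fun j hj => (hO g hg j hj).1⟩, a3, (ne g hg).1⟩,
      ⟨b1, b2, act (Or.inr (Or.inl rfl)) fun j hj => (hO g hg j hj).2.1⟩, b3, (ne g hg).2⟩
  · rw [← B.y a ha] at x
    rw [← B.y b (by omega)] at y
    have := bit_and.2 ⟨y, bit_shr.2 (bit_at0.1 x).1⟩
    rw [F.dist Y hd a ha b hb d e, Nat.zero_testBit] at this
    exact Bool.noConfusion this
  · rcases cN g hg with x | x <;> rw [x]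
    · exact fun _ _ => by simp
    · exact cls_closed _ _ _ k
  · have := ld g hg
    rwa [yA g hg, yB g hg, F.ca g hg, F.cb g hg, n6 g hg] at this
  · refine (F.oth Y _ ho g hg a ha b hb e).imp_right (Or.imp_right fun x => ?_)
    have y : nosup (at0 Y (8064 * g + 576)) (shf (at0 Y (pX a)) (gn (cv C K) K g))
        (at0 (bU z C K Y) (pU b)) := by
      rcases x with x | x
      · exact q1_nosup hg Nat.and_le_right x
      · rwa [q2, xa_bN hg] at x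
    rwa [B.y a ha, n6 g hg, (pos_congr (hN g hg) fun j hj =>
      bit_at0.trans ((and_iff_left hj).trans (B.u b hb j hj))).2.2] at y

end Pool.Agent.Lib.MP_ed43e6_ag.Q.Bd.X
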