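import Pool.Agent.Lib.MP_ed43e6_ag.Q.L2
import Pool.Agent.Lib.MP_ed43e6_ag.Q.Brd2

/-! The packed checker with raw literals and unfolded definitions. -/

namespace Pool.Agent.Lib.MP_ed43e6_ag.Q.Bd

noncomputable section

namespace XF

set_option linter.unusedVariables false

open X (f1 f2 f3 oK kK tT tC pX pU lead2 f01 f22 kN)

def geo (w n : Nat) : Nat :=
  Nat.div (Nat.pred (Nat.shiftLeft (nat_lit 1) (Nat.mul w n))) (Nat.pred (Nat.shiftLeft (nat_lit
    1) w))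
def o2 (K : Nat) : Nat :=
  geo (nat_lit 52) K
def o1 (K : Nat) : Nat :=
  geo (nat_lit 26) (Nat.mul (nat_lit 2) K)
def o4 (K : Nat) : Nat :=
  geo (nat_lit 26) (Nat.mul (nat_lit 4) K)
def k2 (K c : Nat) : Nat :=
  Nat.mul (o2 K) c
def k1 (K c : Nat) : Nat :=
  Nat.mul (o1 K) c
def k4 (K c : Nat) : Nat :=
  Nat.mul (o4 K) c
def wK (K : Nat) : Nat :=
  Nat.mul (nat_lit 52) K
def on (n : Nat) : Nat :=
  geo (nat_lit 26) n
def os (n : Nat) : Nat :=
  geo (Nat.mul (nat_lit 26) n) n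
def od (n : Nat) : Nat :=
  geo (Nat.mul (nat_lit 26) (Nat.succ n)) n
def oe (n : Nat) : Nat :=
  geo (Nat.mul (nat_lit 26) (Nat.pred n)) n
def oa (n : Nat) : Nat :=
  Nat.mul (on n) (os n)
def c25 (n : Nat) : Nat :=
  Nat.mul (oa n) (nat_lit 33554431)
def cM (n : Nat) : Nat :=
  Nat.mul (oa n) (nat_lit 8388352)
def tr (n : Nat) : Nat :=
  Nat.mul (Nat.div (Nat.sub (Nat.shiftLeft (os n) (Nat.mul (nat_lit 26) n)) (od n)) (nat_lit
    67108863)) (nat_lit 33554432)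
def tr1 (n : Nat) : Nat :=
  Nat.sub (tr n) (Nat.mul (od n) (nat_lit 33554432))
def pXs : Nat := 0x152a60054a80014ac60052b000142e60050b80013b06004ec00013326004cc80012b46004ad000123660048d80011b860046e000113a60044e80010bc60042f000103e60040f8000fc06003f00000f426003d08000ec46003b10000e466003918000dc86003720000d4a6003528000ccc6003330000c4e6003138000bd06002f40000b526002d48000ad46002b50000a5660029580009d8600276000095a60025680008dc600237000085e60021780007e06001f800007626001d880006e46001b9000066660019980005e860017a000056a60015a80004ec60013b000046e60011b80003f06000fc00003726000dc80002f46000bd000027660009d80001f860007e000017a60005e80000fc60003f000007e60001f800000060000000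
def pC (n : Nat) : Nat :=
  Nat.land pXs (Nat.pred (Nat.shiftLeft (nat_lit 1) (Nat.mul (nat_lit 26) n)))
def pA (n : Nat) : Nat :=
  Nat.mul (Nat.land (Nat.mul (pC n) (oe n)) (Nat.mul (os n) (nat_lit 67108863))) (on n)
def pB (n : Nat) : Nat :=
  Nat.mul (pC n) (os n)
def cel : Nat := geo 48 168
def m96 : Nat := Nat.mul (geo 96 84) 16777215
def m192 : Nat := Nat.mul (geo 192 42) 281474976710655
def n1 : Nat := Nat.mul (geo 192 30) 281474976710655
def n2 : Nat := Nat.mul (geo 96 60) 16777215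
def nE : Nat := geo 48 120
def n3 : Nat := Nat.mul nE 4095
def cy1 (y : Nat) : Nat :=
  Nat.land (Nat.lor (Nat.lor y (Nat.shiftLeft y (nat_lit 144))) (Nat.shiftLeft y (nat_lit 288)))
    n1
def cy2 (y : Nat) : Nat :=
  Nat.land (Nat.lor y (Nat.shiftLeft y (nat_lit 72))) n2
def cy3 (y : Nat) : Nat :=
  Nat.land (Nat.lor y (Nat.shiftLeft y (nat_lit 36))) n3
def cx (y x j c : Nat) : Nat :=
  Nat.add x (Nat.land (Nat.mul x c) (Nat.mul (Nat.land (Nat.shiftRight y j) nE) (nat_lit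
    4294967295)))
def cP (y : Nat) : Nat :=
  cx y (cx y (cx y (cx y (Nat.add nE (Nat.land y nE)) (nat_lit 1) (nat_lit 3)) (nat_lit 2)
    (nat_lit 15)) (nat_lit 3) (nat_lit 255)) (nat_lit 4) (nat_lit 65535)
def brd3 (S N H : Nat) : Nat :=
  Nat.shiftLeft (Nat.sub (cP (cy3 (cy2 (cy1 (by0 S H))))) nE) (nat_lit 1201)
def uC : {f // f = brd3} :=
  ⟨_, by
    delta brd3 cP cx cy3 cy2 cy1 by0
    rfl⟩
def vC := uC.1
def andn (a t : Nat) : Nat :=
  Nat.xor a (Nat.land a t)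
def sub? (a b : Nat) : Bool :=
  Nat.beq (Nat.land a b) a
def code (x y w : Nat) : Nat :=
  Nat.add (Nat.add (Nat.mul (nat_lit 1152) x) (Nat.mul (nat_lit 48) y)) w
def lk (z O e : Nat) : Nat :=
  Nat.land (Nat.shiftLeft O e) z
def up (L e X : Nat) : Nat :=
  Nat.lor X (Nat.land (Nat.shiftLeft X e) L)
def dn (L e X : Nat) : Nat :=
  Nat.lor X (Nat.shiftRight (Nat.land X L) e)
def step (L0 L1 L2 X : Nat) : Nat :=
  dn L0 (nat_lit 1152) (up L0 (nat_lit 1152) (dn L1 (nat_lit 48) (up L1 (nat_lit 48) (dn L2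
    (nat_lit 1) (up L2 (nat_lit 1) X)))))
def drop (x : Nat) : Nat :=
  Nat.land x (Nat.sub x (nat_lit 1))
def sp (B : Nat) : Nat :=
  Nat.lor (Nat.lor (Nat.shiftLeft B (nat_lit 1152)) (Nat.shiftLeft B (nat_lit 48))) (Nat.shiftLeft
    B (nat_lit 1))
def sm (B : Nat) : Nat :=
  Nat.lor (Nat.lor (Nat.shiftRight B (nat_lit 1152)) (Nat.shiftRight B (nat_lit 48)))
    (Nat.shiftRight B (nat_lit 1))
def addB (z : Nat) : Nat :=
  Nat.land (Nat.land (andn (Nat.lor (Nat.shiftLeft z (nat_lit 1)) col1) z) (Nat.lor (Nat.shiftLeft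
    z (nat_lit 1104)) faceA)) (Nat.lor (Nat.shiftLeft z (nat_lit 47)) faceB)
def delB (z : Nat) : Nat :=
  andn (andn (andn z (Nat.shiftRight z (nat_lit 1))) (Nat.shiftRight z (nat_lit 1104)))
    (Nat.shiftRight z (nat_lit 47))
def zer (n t x : Nat) : Nat :=
  Nat.xor (Nat.land (Nat.add x (c25 n)) t) t
def low (n x : Nat) : Nat :=
  Nat.sub (Nat.mod (Nat.land (Nat.xor x (Nat.sub x (nat_lit 1))) (oa n)) (nat_lit 67108863))
    (nat_lit 1)
def clr (G D x : Nat) : Nat :=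
  andn D (Nat.sub (Nat.land (Nat.sub (Nat.add x G) D) G) (Nat.shiftRight (Nat.land (Nat.sub
    (Nat.add x G) D) G) (nat_lit 11)))
def lane (D l : Nat) : Nat :=
  Nat.land (Nat.shiftRight D (Nat.mul (nat_lit 12) l)) (nat_lit 4095)
def spr (N v : Nat) : Nat :=
  Nat.land (Nat.mul v (Fo.sp N)) (Fo.mL N)
def x0 (N H : Nat) : Nat :=
  Nat.mul (spr N H) (Fo.o N)
def fill (L0 L1 L2 fuel : Nat) : Nat → Nat :=
  Nat.rec (fun _ => nat_lit 0) (fun _ r X =>
    Bool.rec (r (step L0 L1 L2 X)) X (Nat.beq (step L0 L1 L2 X) X)) fuel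
def uF : {f // f = fill} :=
  ⟨_, by
    delta fill step dn up
    rfl⟩
def vF := uF.1
def lp (G : Nat → Nat) (s : Nat → Bool) (fuel : Nat) : Nat → Bool :=
  Nat.rec (fun _ => false) (fun _ r x => Bool.rec
    (Bool.rec (band (s x) (r (drop x))) (r (drop x)) (Nat.beq (G x) (nat_lit 0))) true
    (Nat.beq x (nat_lit 0))) fuel
def pp (n : Nat) (f : Nat → Nat) : Nat :=
  Nat.rec (nat_lit 0) (fun i r => Nat.add r (Nat.shiftLeft (f i) (Nat.mul (nat_lit 8064) i))) n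
def al (n : Nat) (f : Nat → Bool) : Bool := Nat.rec true (fun i r => Bool.rec false r (f i)) n
def get (T x : Nat) : Nat :=
  Nat.mod (Nat.land T (Nat.sub (Nat.xor x (drop x)) (Nat.shiftRight (Nat.xor x (drop x)) (nat_lit
    25)))) (nat_lit 67108863)
def lw (C K : Nat) : Nat :=
  Nat.land C (k1 K (nat_lit 32767))
def wn (C K : Nat) : Nat :=
  Nat.land (Nat.sub (k2 K (nat_lit 108612)) (Nat.land (Nat.add (lw C K) (Nat.shiftRight (lw C K)
    (nat_lit 26))) (k2 K (nat_lit 65535)))) (k2 K (nat_lit 32767))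
def v3 (C K : Nat) : Nat :=
  Nat.add (lw C K) (Nat.shiftLeft (wn C K) (wK K))
def ft (C K : Nat) : Nat :=
  Nat.land (v3 C K) (k4 K (nat_lit 63))
def fb (C K : Nat) : Nat :=
  Nat.land (Nat.shiftRight (v3 C K) (nat_lit 6)) (k4 K (nat_lit 31))
def fa (C K : Nat) : Nat :=
  Nat.land (Nat.shiftRight (v3 C K) (nat_lit 11)) (k4 K (nat_lit 15))
def cv (C K : Nat) : Nat :=
  code (fa C K) (fb C K) (ft C K)
def ts (K d : Nat) : Nat :=
  Nat.land d (Nat.sub (Nat.land d (k4 K (nat_lit 128))) (Nat.shiftRight (Nat.land d (k4 K (nat_lit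
    128))) (nat_lit 7)))
def sv (C K : Nat) : Nat :=
  code (ts K (Nat.add (fa C K) (k4 K (nat_lit 122)))) (ts K (Nat.add (fb C K) (k4 K (nat_lit
    118)))) (ts K (Nat.add (ft C K) (k4 K (nat_lit 106))))
def cs (C K : Nat) : Nat :=
  Nat.land (Nat.add (cv C K) (Nat.shiftRight (cv C K) (nat_lit 26))) (k2 K (nat_lit 65535))
def okF (C K : Nat) : Bool :=
  band (Nat.beq (Nat.land (Nat.lor (Nat.add (ft C K) (k4 K (nat_lit 81))) (Nat.add (fb C K) (k4 K
    (nat_lit 105)))) (k4 K (nat_lit 128))) (nat_lit 0)) (band (Nat.beq (Nat.land (Nat.add (Nat.add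
    (Nat.mul (fa C K) (nat_lit 16384)) (Nat.mul (fb C K) (nat_lit 16512))) (Nat.add (Nat.mul (ft C
    K) (nat_lit 16513)) (k1 K (nat_lit 32878312)))) (k1 K (nat_lit 33554432))) (k1 K (nat_lit
    33554432))) (Nat.beq (Nat.add (cs C K) (Nat.shiftRight (cv C K) (wK K))) (k2 K (nat_lit
    24644))))
def ga (V g : Nat) : Nat :=
  Nat.land (Nat.shiftRight V (Nat.mul (nat_lit 52) g)) (nat_lit 32767)
def gb (V g : Nat) : Nat :=
  Nat.land (Nat.shiftRight (Nat.shiftRight V (Nat.mul (nat_lit 52) g)) (nat_lit 26)) (nat_lit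
    32767)
def gn (V K g : Nat) : Nat :=
  Nat.land (Nat.shiftRight (Nat.shiftRight V (Nat.mul (nat_lit 52) g)) (wK K)) (nat_lit 32767)
def ig (C K g : Nat) : Nat :=
  Nat.shiftRight (Nat.shiftRight C (wK K)) (Nat.mul (nat_lit 39) g)
def nz (z : Nat) : Nat :=
  Nat.xor (Nat.pred (Nat.shiftLeft (nat_lit 1) (nat_lit 16679))) z
def ob (f r z c s : Nat) : Nat :=
  Nat.land (Nat.land (Nat.shiftLeft f s) f) (Nat.shiftRight (Nat.shiftLeft z c) r)
def bOL (z V W K g : Nat) : Nat :=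
  Nat.lor (Nat.lor (ob full (nat_lit 8615) z (ga V g) (ga W g)) (ob f1 (nat_lit 8591) z (gb V g)
    (gb W g))) (ob f2 (nat_lit 8039) z (gn V K g) (gn W K g))
def bO (z V W K : Nat) : Nat :=
  pp K (bOL z V W K)
def bSL (I K g : Nat) : Nat :=
  Nat.lor (Nat.lor (Nat.land (Nat.shiftLeft (nat_lit 1) (Nat.land (Nat.shiftRight I (Nat.mul
    (nat_lit 39) g)) (nat_lit 8191))) full) (Nat.land (Nat.shiftLeft (nat_lit 16777216) (Nat.land
    (Nat.shiftRight (Nat.shiftRight I (Nat.mul (nat_lit 39) g)) (nat_lit 13)) (nat_lit 8191)))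
    f1)) (Nat.land (Nat.shiftLeft (Nat.shiftLeft (nat_lit 1) (nat_lit 576)) (Nat.land
    (Nat.shiftRight (Nat.shiftRight I (Nat.mul (nat_lit 39) g)) (nat_lit 26)) (nat_lit 8191))) f2)
def bS (I K : Nat) : Nat :=
  pp K (bSL I K)
def bZ (z K : Nat) : Nat :=
  kK K (Nat.lor (Nat.lor z (Nat.shiftLeft z (nat_lit 24))) (Nat.shiftLeft z (nat_lit 576)))
def bX (z O S K : Nat) : Nat :=
  vF (lk (bZ z K) O (nat_lit 1152)) (lk (bZ z K) O (nat_lit 48)) (lk (bZ z K) O (nat_lit 1))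
    (nat_lit 40) S
def xa (Y g : Nat) : Nat :=
  Nat.land (Nat.shiftRight Y (Nat.mul (nat_lit 8064) g)) full
def xb (Y g : Nat) : Nat :=
  Nat.land (Nat.shiftRight Y (Nat.mul (nat_lit 8064) g)) f1
def mv (x a b f : Nat) : Nat :=
  Nat.land (Nat.shiftRight (Nat.shiftLeft x a) b) f
def bUL (z V K Y g : Nat) : Nat :=
  Nat.lor (Nat.lor (mv (xb Y g) (nat_lit 8591) (gb V g) full) (mv (xa Y g) (nat_lit 8639) (ga V g)
    f1)) (Nat.lor (mv z (nat_lit 9191) (gb V g) f2) (mv z (nat_lit 9215) (ga V g) f3))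
def bU (z V K Y : Nat) : Nat :=
  pp K (bUL z V K Y)
def bML (V K Y g : Nat) : Nat :=
  Nat.lor (mv (xa Y g) (gn V K g) (nat_lit 8615) full) (mv (xb Y g) (gn V K g) (nat_lit 8615) f1)
def bM (V K Y : Nat) : Nat :=
  pp K (bML V K Y)
def bN (K Y : Nat) : Nat :=
  Nat.land (Nat.shiftRight Y (nat_lit 576)) (kK K full)
def eN (K Y M e : Nat) : Nat :=
  Nat.land (Nat.mul (bN K Y) (nat_lit 16777217)) (Nat.shiftLeft M e)
def t3 (K Y M U a b c : Nat) : Nat :=
  Nat.lor (Nat.lor (Nat.land (eN K Y M (nat_lit 1152)) (Nat.shiftRight U a)) (Nat.land (eN K Y M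
    (nat_lit 48)) (Nat.shiftRight U b))) (Nat.land (eN K Y M (nat_lit 1)) (Nat.shiftRight U c))
def dr (K x : Nat) : Nat :=
  Nat.land (Nat.sub (Nat.lor x (tT K)) (oK K)) x
def lead1 (K P Q : Nat) : Bool :=
  band (Nat.beq (Nat.land (Nat.xor (Nat.add P (tC K)) (Nat.add Q (tC K))) (tT K)) (tT K)) (bor
    (Nat.beq (dr K (Nat.lor P Q)) (nat_lit 0)) (Nat.beq (dr K (dr K (Nat.lor P Q))) (nat_lit 0)))
def at0 (Y p : Nat) : Nat :=
  Nat.land (Nat.shiftRight Y p) full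
def fK (C K : Nat) : Nat :=
  Nat.add (Nat.mul (Nat.land (cv C K) (k1 K (nat_lit 32767))) (nat_lit 256)) (Nat.land
    (Nat.shiftRight C (nat_lit 15)) (k1 K (nat_lit 63)))
def mA (C K n : Nat) : Nat :=
  Nat.mul (fK C K) (os n)
def mB (C K n : Nat) : Nat :=
  Nat.mul (Nat.land (Nat.mul (fK C K) (oe n)) (Nat.mul (os n) (nat_lit 67108863))) (on n)
def sK (C K : Nat) : Nat :=
  Nat.add (fK C K) (Nat.shiftRight (fK C K) (nat_lit 26))
def mS (C K n : Nat) : Nat :=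
  Nat.add (Nat.add (mA C K n) (mB C K n)) (Nat.mul (oa n) (nat_lit 33554432))
def y1 (n d : Nat) : Nat :=
  Nat.land (Nat.xor d (Nat.sub d (Nat.mul (oa n) (nat_lit 128)))) (tr n)
def gD (n Y x : Nat) : Nat :=
  Nat.land (at0 Y (get (pA n) x)) (Nat.shiftRight Y (get (pB n) x))
def sD (C K n x : Nat) : Bool :=
  frc (Nat.mod (low n x) n) fun b => band (Nat.beq (Nat.land b (nat_lit 1)) (nat_lit 1)) (X.dup C
    K (Nat.shiftRight b (nat_lit 1)))
def dist (f C K n Y : Nat) : Bool :=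
  lp (gD n Y) (sD C K n) f (zer n (tr1 n) (Nat.land (Nat.xor (mA C K n) (mB C K n)) (cM n)))
def uD : {f // f = dist} :=
  ⟨_, by
    delta dist lp gD get drop at0 zer mB mA fK cv fa fb ft v3 wn lw code
    rfl⟩
def vD := uD.1
def yG (A B n g : Nat) : Nat :=
  Nat.xor (y1 n (Nat.sub A (Nat.mul (oa n) (Nat.land (Nat.shiftRight B (Nat.mul (nat_lit 52) g))
    (nat_lit 67108863))))) (Nat.shiftLeft (nat_lit 2251799813685248) (Nat.mul (Nat.mul (nat_lit
    52) (Nat.succ n)) g))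
def q1 (P N T c a b : Nat) : Nat :=
  Nat.land (Nat.land (Nat.shiftRight P (Nat.add a c)) N) (Nat.shiftRight T (Nat.xor b (nat_lit
    24)))
def gO (P N T c n x : Nat) : Nat :=
  Nat.lor (q1 P N T c (get (pA n) x) (get (pB n) x)) (q1 P N T c (get (pB n) x) (get (pA n) x))
def shf (B c : Nat) : Nat :=
  Nat.shiftRight (Nat.shiftLeft B (Nat.sub c (nat_lit 8615))) (Nat.sub (nat_lit 8615) c)
def tb (N XS U i k : Nat) : Nat :=
  Nat.land (Nat.land N (Nat.shiftLeft XS i)) (Nat.shiftRight U k)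
def nosup (N XS U : Nat) : Bool :=
  Nat.beq (Nat.lor (Nat.lor (Nat.lor (tb N XS U (nat_lit 1152) (nat_lit 1)) (tb N XS U (nat_lit
    48) (nat_lit 1152))) (Nat.lor (tb N XS U (nat_lit 1) (nat_lit 48)) (tb N XS U (nat_lit 1152)
    (nat_lit 48)))) (Nat.lor (tb N XS U (nat_lit 48) (nat_lit 1)) (tb N XS U (nat_lit 1) (nat_lit
    1152)))) (nat_lit 0)
def q2 (Y U N d a b : Nat) : Bool :=
  nosup N (shf (at0 Y a) d) (at0 U (Nat.xor b (nat_lit 24)))
def s4 (C K n Y U g N d x : Nat) : Bool :=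
  bor (band (q2 Y U N d (get (pA n) x) (get (pB n) x)) (q2 Y U N d (get (pB n) x) (get (pA n) x)))
    (band (band (Nat.beq (Nat.shiftRight (Nat.div (low n x) n) (nat_lit 1)) g) (Nat.beq
    (Nat.shiftRight (Nat.mod (low n x) n) (nat_lit 1)) g)) (X.dup C K g))
def uS : {f // f = s4} :=
  ⟨_, by
    delta s4 q2 nosup tb shf at0 get drop
    rfl⟩
def vS := uS.1
def r3 (f C K n Y U P T g N d y : Nat) : Bool :=
  lp (gO P N T (Nat.sub (nat_lit 32767) d) n) (vS C K n Y U g N d) f y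
def uQ : {f // f = r3} :=
  ⟨_, by
    delta r3 lp gO q1 get drop
    rfl⟩
def vQ := uQ.1
def r2 (C K n Y U V A B P Q T g : Nat) : Bool :=
  Bool.rec (vQ (nat_lit 300) C K n Y U P T g (xa Q g) (gn V K g) (yG A B n g)) true (Nat.beq (yG A
    B n g) (nat_lit 0))
def others (C K n Y U V A B P Q T : Nat) : Bool :=
  al K (r2 C K n Y U V A B P Q T)
def uO : {f // f = others} :=
  ⟨_, by
    delta others al r2 yG y1 xa gn
    rfl⟩
def vO := uO.1
def aD (z K : Nat) : Nat :=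
  kK K (Nat.mul (Nat.lor (Nat.land (addB z) f22) (Nat.shiftLeft (Nat.land (delB z) f22) (nat_lit
    576))) (nat_lit 16777217))
def d0 (z K O Y : Nat) : Nat :=
  Nat.land (Nat.land (Nat.land (sp Y) (sp (Nat.xor O Y))) (aD z K)) (kK K f01)
def d1 (z K U : Nat) : Nat :=
  Nat.land (Nat.land (sm U) (Nat.shiftRight (aD z K) (nat_lit 576))) (kK K f01)
def d2 (z K U : Nat) : Nat :=
  Nat.lor (Nat.land (d1 z K U) (sm (Nat.xor (Nat.shiftRight U (nat_lit 576)) U))) (andn (d1 z K U)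
    (Nat.shiftRight U (nat_lit 576)))
def dR (K D : Nat) : Nat :=
  Nat.mod (Nat.shiftRight (Nat.land (Nat.add D (kK K (Nat.mul cel (nat_lit 140737488355327)))) (kK
    K (Nat.mul cel (nat_lit 140737488355328)))) (nat_lit 47)) (Nat.pred (Nat.shiftLeft (nat_lit 1)
    (nat_lit 8063)))
def c1 (x : Nat) : Nat :=
  Nat.land (Nat.lor x (Nat.shiftRight x (nat_lit 36))) m96
def c2 (x : Nat) : Nat :=
  Nat.land (Nat.lor x (Nat.shiftRight x (nat_lit 72))) m192
def c3 (x : Nat) : Nat :=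
  Nat.lor (Nat.lor x (Nat.shiftRight x (nat_lit 144))) (Nat.shiftRight x (nat_lit 288))
def cc (R c : Nat) : Nat :=
  c3 (c2 (c1 (Nat.land (Nat.shiftRight R (Nat.mul (nat_lit 11) c)) (Nat.mul cel (nat_lit 2047)))))
def vv (S N x r : Nat) : Nat :=
  Nat.land (Nat.mod (Nat.land (Nat.shiftRight x r) (pk (nat_lit 1152) (nat_lit 6) fun _ =>
    Nat.pred (Nat.shiftLeft (nat_lit 1) (Fo.w1 S)))) (Nat.pred (Nat.shiftLeft (nat_lit 1) (Nat.sub
    (nat_lit 1152) (Fo.w1 S))))) (Fo.cF N)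
def p1 (N x : Nat) : Nat :=
  Nat.sub x (Nat.land (Nat.shiftRight x (nat_lit 1)) (kN N (nat_lit 1365)))
def p2 (N x : Nat) : Nat :=
  Nat.add (Nat.land x (kN N (nat_lit 819))) (Nat.land (Nat.shiftRight x (nat_lit 2)) (kN N
    (nat_lit 819)))
def p3 (N x : Nat) : Nat :=
  Nat.land (Nat.shiftRight (Nat.mul x (nat_lit 273)) (nat_lit 8)) (kN N (nat_lit 15))
def cn (S N x : Nat) : Nat :=
  p3 N (p2 N (p1 N (Nat.lor (x0 N (vv S N x (nat_lit 1164))) (Nat.mul (vv S N x (nat_lit 1740))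
    (Fo.oB N)))))
def lost (S N R m : Nat) : Nat :=
  Nat.rec (nat_lit 0) (fun c r => Nat.add r (cn S N (cc R c))) m
def uL : {f // f = lost} :=
  ⟨_, by
    delta lost cn p3 p2 p1 x0 spr vv cc c3 c2 c1
    rfl⟩
def vL := uL.1
def s3 (r : Nat → Bool) (S N D z C K n V O Y U : Nat) : Bool :=
  band (band (band (okF C K) (sub? Y (Nat.land O (bZ z K)))) (band (bor (lead1 K (t3 K Y (bM V K
    Y) U (nat_lit 1) (nat_lit 1152) (nat_lit 48)) (t3 K Y (bM V K Y) U (nat_lit 48) (nat_lit 1)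
    (nat_lit 1152))) (lead2 C K Y U)) (band (vD (nat_lit 300) C K n Y) (vO C K n Y U V (mS C K n)
    (sK C K) (Nat.shiftLeft (sp Y) (nat_lit 24152)) (bN K Y) (sm U))))) (r (clr (Fo.bG N) D
    (Nat.sub (kN N K) (vL S N (dR K (Nat.lor (d0 z K O Y) (Nat.shiftLeft (d2 z K U) (nat_lit
    576)))) (Nat.div (Nat.add K (nat_lit 10)) (nat_lit 11))))))
def s2 (r : Nat → Bool) (S N D z C K n V O Y : Nat) : Bool :=
  s3 r S N D z C K n V O Y (bU z V K Y)
def u2 : {f // f = s2} :=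
  ⟨_, by
    delta s2 s3 clr dR d2 d1 d0 aD mS sK mB mA fK lead1 dr t3 eN bN bM bU pp bML bUL mv xb xa bZ
      okF cs cv fa fb ft v3 wn lw ga gb gn addB delB sp sm code sub? andn
    rfl⟩
def v2 := u2.1
def s1 (r : Nat → Bool) (S N D z C K n V W I Z : Nat) : Bool :=
  v2 r S N D z C K n V (bO Z V W K) (bX z (bO Z V W K) (bS I K) K)
def u1 : {f // f = s1} :=
  ⟨_, by
    delta s1 bX bS bO pp bSL bOL bZ ob lk ga gb gn
    rfl⟩
def v1 := u1.1
def s0 (r : Nat → Bool) (S N D z C K n : Nat) : Bool :=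
  v1 r S N D z C K n (cv C K) (sv C K) (Nat.shiftRight C (wK K)) (nz z)
def u0 : {f // f = s0} :=
  ⟨_, by
    delta s0 sv ts cv fa fb ft v3 wn lw code nz
    rfl⟩
def v0 := u0.1

def blocks (S N z : Nat) (fin : Nat → Bool) (fuel : Nat) : Nat → Nat → Bool :=
  Nat.rec (fun _ _ => false) (fun _ r C D => Bool.rec
    (frc (Nat.land C (nat_lit 63)) fun K => band (Nat.ble K (nat_lit 44))
      (frc (Nat.mul (nat_lit 2) K) fun n =>
        v0 (r (Nat.shiftRight C (Nat.add (nat_lit 6) (Nat.mul (nat_lit 91) K)))) S N D z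
          (Nat.shiftRight C (nat_lit 6)) K n))
    (fin D) (Nat.beq C (nat_lit 0))) fuel

/-- The certificate with key `k` in the table `v` with modulus `p`. -/
def cut (v e : Nat) : Nat :=
  Nat.land (Nat.shiftRight v (Nat.land e (nat_lit 1048575))) (Nat.pred (Nat.shiftLeft (nat_lit 1)
    (Nat.sub (Nat.land (Nat.shiftRight e (nat_lit 20)) (nat_lit 1048575))
      (Nat.land e (nat_lit 1048575)))))
def look (t : BT) (k : Nat) : Nat :=
  BT.rec (nat_lit 0)
    (fun p v _ _ _ _ => cut v (Nat.shiftRight v (Nat.mul (nat_lit 20) (Nat.mod k p)))) t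

def hk (l3 : Nat → Nat → Nat → Nat → Nat → Nat → Nat → Nat → Nat → Nat → Bool) (t : BT)
    (S N n H D C Rm z : Nat) : Bool :=
  blocks S N z (rest N fun j i => l3 S N n H z Rm j i (Bd.lane C (Nat.add (Nat.mul N j) i)) 0)
    (nat_lit 20) (look t (Nat.add H S)) D

def hook (l3 : Nat → Nat → Nat → Nat → Nat → Nat → Nat → Nat → Nat → Nat → Bool) (t : BT)
    (S N n H D C Rm : Nat) : Bool :=
  band (band (Nat.ble (Nat.add (Nat.land H (nat_lit 4095))
        (sel (Nat.beq (Nat.land D (Fo.cF N)) (nat_lit 0)) (nat_lit 0) (nat_lit 1))) (nat_lit 22))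
      (Nat.ble N (Nat.succ (Nat.mul (nat_lit 5) S))))
    (hk l3 t S N n H D C Rm (vC S N H))

end XF

end

end Pool.Agent.Lib.MP_ed43e6_ag.Q.Bd
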