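import Pool.Agent.Lib.MP_ed43e6_ag.Q.L2H
import Pool.Agent.Lib.MP_ed43e6_ag.Q.L2A

/-! Soundness of the packed certificate checker. -/

namespace Pool.Agent.Lib.MP_ed43e6_ag.Q.Bd.X

theorem fmt_W {C K : ℕ} (hK : K ≤ 44) : Fmt C K (W C K) where
  ia _ _ := ig_a
  ib _ _ := ig_b
  ca _ := ga_cv
  cb _ := gb_cv
  sa _ := ga_sv
  sb _ := gb_sv
  ok h _ := okF_cl h
  on h _ := okF_sum h
  dist _ h _ ha _ hb := dist_spec hK h ha hb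
  oth _ _ h _ hg _ ha _ hb := others_spec hK h hg ha hb

theorem hook_sound {P : GP} (hP : ∀ g D k, Gain g D k → P g D k)
    {l3 : ℕ → ℕ → ℕ → ℕ → ℕ → ℕ → ℕ → ℕ → ℕ → ℕ → Bool} (h3 : L3Sound P l3) (t : BT) :
    HookSound P (hook l3 t) :=
  hook_of (fun _ _ hK => ⟨_, fmt_W hK⟩) hP h3 t

end Pool.Agent.Lib.MP_ed43e6_ag.Q.Bd.X
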