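import Pool.Agent.Lib.MP_ed43e6_ag.Q.L2F
import Pool.Agent.Lib.MP_ed43e6_ag.Q.L2S
import Pool.Agent.Lib.MP_ed43e6_ag.Q.Brd2S

/-! The constants and the loops of the unfolded packed checker. -/

namespace Pool.Agent.Lib.MP_ed43e6_ag.Q.Bd.XF

open Finset N

theorem geo_eq {w n : ℕ} (h : 0 < w ∨ n = 0) : geo w n = pk w n fun _ => 1 := by
  rcases h with h | rfl
  swap
  · exact Nat.zero_div _
  have e := pk_full w n
  rw [← pk_const] at e
  have p : 0 < 2 ^ w - 1 := Nat.sub_pos_of_lt (Nat.one_lt_two_pow (by omega))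
  change (1 <<< (w * n) - 1) / (1 <<< w - 1) = _
  rw [Nat.one_shiftLeft, Nat.one_shiftLeft, ← e, Nat.add_sub_cancel]
  exact Nat.mul_div_cancel _ p

theorem k1_e : k1 = X.k1 := by
  funext K c
  exact congrArg (Nat.mul · c) (geo_eq (Or.inl (by decide)))

theorem k2_e : k2 = X.k2 := by
  funext K c
  exact congrArg (Nat.mul · c) (geo_eq (Or.inl (by decide)))

theorem k4_e : k4 = X.k4 := by
  funext K c
  exact congrArg (Nat.mul · c) (geo_eq (Or.inl (by decide)))

theorem on_e : on = Bd.on := funext fun _ => geo_eq (Or.inl (by decide))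

theorem os_e : os = Bd.os := funext fun n => geo_eq (by
  change 0 < 26 * n ∨ _
  omega)

theorem od_e (n : ℕ) : od n = pk (26 * (n + 1)) n fun _ => 1 := geo_eq (Or.inl (by
  change 0 < 26 * (n + 1)
  omega))

theorem oe_e {n : ℕ} (h : n ≠ 1) : oe n = pk (26 * (n - 1)) n fun _ => 1 := geo_eq (by
  change 0 < 26 * (n - 1) ∨ _
  omega)

theorem oa_e : oa = Bd.oa := by
  funext n
  rw [oa, on_e, os_e, Bd.oa]

theorem c25_e : c25 = Bd.c25 := by
  funext n
  rw [c25, oa_e]
  rfl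

theorem cM_e : cM = Bd.cM := by
  funext n
  rw [cM, oa_e]
  rfl

theorem row_geo (a k : ℕ) :
    (pk 26 (a + k) fun b => if a ≤ b then 1 else 0) * 67108863 + 2 ^ (26 * a) =
      2 ^ (26 * (a + k)) := by
  induction k with
  | zero =>
    rw [pk_congr 26 (a + 0) _ (fun _ => 0) fun b x => if_neg (by omega), pk_const_zero, zero_mul,
      zero_add, add_zero]
  | succ k ih =>
    rw [← add_assoc, pk_succ, if_pos (by omega), add_mul, add_assoc, ih, mul_add 26 (a + k),
      pow_add 2 (26 * (a + k))]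
    generalize 2 ^ (26 * (a + k)) = y
    rw [mul_one, ← Nat.mul_succ]
    exact congrArg (y * ·) (by norm_num)

theorem tr_e : tr = X.tr := by
  funext n
  have e : ∀ m, (pk (26 * (n + 1)) m fun _ => 1) = pk (26 * n) m fun a => 2 ^ (26 * a) := fun m => by
    induction m with
    | zero => rfl
    | succ m ih => rw [pk_succ, pk_succ, ih, ← pow_add, mul_add, mul_one, mul_one, add_mul]
  have t : (pk (26 * n) n fun a => pk 26 n fun b => if a ≤ b then 1 else 0) * 67108863 +
      od n = Bd.os n <<< (26 * n) := by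
    rw [od_e, e, pk_mul, pk_add, Nat.shiftLeft_eq]
    refine Eq.trans (pk_congr _ _ _ _ fun a x => ?_) (pk_const _ _ _).symm
    obtain ⟨k, rfl⟩ := Nat.exists_eq_add_of_le x.le
    exact row_geo a k
  rw [X.tr_eq, tr, os_e]
  change (Bd.os n <<< (26 * n) - od n) / 67108863 * 33554432 = _
  rw [← t, Nat.add_sub_cancel, Nat.mul_div_cancel _ (by omega), pk_mul]
  refine pk_congr _ _ _ _ fun a _ => (pk_mul _ _ _ _).trans (pk_congr _ _ _ _ fun b _ => ?_)
  refine Eq.trans ?_ (sel_ble (a + 0) b _ _).symm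
  by_cases c : a ≤ b
  · exact (congrArg (· * 33554432) (if_pos c)).trans ((one_mul _).trans (if_pos c).symm)
  · exact (congrArg (· * 33554432) (if_neg c)).trans ((zero_mul _).trans (if_neg c).symm)

theorem tr1_e : tr1 = X.tr1 := by
  funext n
  rw [tr1, tr_e, od_e, pk_const]
  rfl

theorem pXs_eq : pXs = pk 26 88 X.pX := by decide +kernel

theorem pX_lt : ∀ a < 88, X.pX a < 2 ^ 25 ∧ Nat.xor (X.pX a) 24 = X.pU a := by decide +kernel

/-- The positions of the boards. -/
def pz (a : ℕ) : ℕ := if a < 88 then X.pX a else 0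

theorem pz_lt (a : ℕ) : pz a < 2 ^ 25 := by
  unfold pz
  split_ifs with c
  exacts [(pX_lt a c).1, by omega]

variable {n x l : ℕ}

theorem pC_eq (hn : n ≤ 88) : pC n = pk 26 n pz := by
  obtain ⟨k, e⟩ := Nat.exists_eq_add_of_le hn
  change pXs &&& (1 <<< (26 * n) - 1) = _
  rw [Nat.one_shiftLeft, Nat.and_two_pow_sub_one_eq_mod, pXs_eq,
    pk_congr 26 88 X.pX pz fun a x => (if_pos x).symm, e, pk_split, Nat.add_mul_mod_self_left,
    Nat.mod_eq_of_lt (pk_lt 26 n _ fun a _ => (pz_lt a).trans (by omega))]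

theorem pB_eq (hn : n ≤ 88) : pB n = mx n fun _ b => pz b := by
  rw [pB, pC_eq hn, os_e]
  exact pk_rep 26 _ _ _

theorem pA_eq (hn : n ≤ 88) (h2 : 2 ≤ n) : pA n = mx n fun a _ => pz a := by
  rw [pA, pC_eq hn, os_e, on_e, oe_e (by omega), Bd.os, pk_const]
  exact (congrArg (· * Bd.on n) (pk_spr26 h2 pz_lt)).trans (pk_brd 26 _ _ _)

theorem get_pk {m : ℕ} {f : ℕ → ℕ} (hf : ∀ i, f i < 2 ^ 25) (hl : l < m)
    (h : Low x (26 * l + 25)) : get (pk 26 m f) x = f l := by
  have e : Nat.xor x (drop x) = 2 ^ (26 * l + 25) := h.xor_drop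
  have e2 : 2 ^ (26 * l + 25) - 2 ^ (26 * l + 25) >>> 25 = 2 ^ (26 * l) * 33554431 := by
    rw [Nat.shiftRight_eq_div_pow, pow_add, Nat.mul_div_cancel _ (by omega)]
    omega
  rw [get, e]
  change (pk 26 m f &&& (2 ^ (26 * l + 25) - 2 ^ (26 * l + 25) >>> 25)) % (2 ^ 26 - 1) = _
  rw [e2, ← pk_one hl, pk_and _ _ _ _ (fun i _ => (hf i).trans (by omega))
    (fun i _ => by split_ifs <;> omega),
    pk_congr _ _ _ (fun i => if l = i then f l else 0) fun i _ => ?_, pk_sum, sum_ite_eq,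
    if_pos (mem_range.2 hl)]
  · rw [sum_ite_eq, if_pos (mem_range.2 hl)]
    have := hf l
    omega
  · split_ifs with c
    · exact c ▸ (Nat.and_two_pow_sub_one_eq_mod _ 25).trans (Nat.mod_eq_of_lt (hf l))
    · exact Nat.and_zero _

theorem get_A (hn : n ≤ 88) (h2 : 2 ≤ n) (hl : l < n * n) (h : Low x (26 * l + 25)) :
    get (pA n) x = X.pX (l / n) := by
  rw [pA_eq hn h2, mx, get_pk (fun _ => pz_lt _) hl h]
  exact if_pos ((Nat.div_lt_of_lt_mul hl).trans_le hn)

theorem get_B (hn : n ≤ 88) (h2 : 2 ≤ n) (hl : l < n * n) (h : Low x (26 * l + 25)) :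
    get (pB n) x = X.pX (l % n) := by
  rw [pB_eq hn, mx, get_pk (fun _ => pz_lt _) hl h]
  exact if_pos ((Nat.mod_lt _ (by omega)).trans_le hn)

theorem low_e : low = Bd.low := by
  funext n x
  rw [low, oa_e]
  rfl

theorem lp_hits {G : ℕ → ℕ} {s : ℕ → Bool} {f : ℕ → ℕ → Bool} (hn : n ≤ 126)
    (hf : ∀ x l, l < n * n → Low x (26 * l + 25) → G x = 0 ∨ s x = true →
      f (l / n) (l % n) = true) {k : ℕ} (hx : Tops n x) (h : lp G s k x = true) :
    hits n f k x = true := by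
  induction k generalizing x with
  | zero => exact Bool.noConfusion h
  | succ k ih =>
    change (Bool.rec (Bool.rec (band (s x) (lp G s k (Bd.drop x))) (lp G s k (Bd.drop x))
      (Nat.beq (G x) 0)) true (Nat.beq x 0) : Bool) = true at h
    change (Bool.rec (band (f (Bd.low n x / n) (Bd.low n x % n)) (hits n f k (Bd.drop x))) true
      (Nat.beq x 0) : Bool) = true
    by_cases x0 : x = 0
    · rw [x0]
      rfl
    rw [Bool.eq_false_iff.2 (mt Nat.eq_of_beq_eq_true x0)] at h ⊢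
    obtain ⟨p, hp⟩ := low_ex x0
    obtain ⟨l, hl, rfl⟩ := hx p hp.1
    have t : Tops n (Bd.drop x) := fun q y => hx q (hp.drop.1 y).1
    rw [low_eq hn hl hp]
    by_cases c : G x = 0
    · rw [c] at h
      exact band_iff.2 ⟨hf x l hl hp (Or.inl c), ih t h⟩
    · rw [Bool.eq_false_iff.2 (mt Nat.eq_of_beq_eq_true c)] at h
      exact band_iff.2 ⟨hf x l hl hp (Or.inr (band_iff.1 h).1), ih t (band_iff.1 h).2⟩

end Pool.Agent.Lib.MP_ed43e6_ag.Q.Bd.XF
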