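import Pool.Agent.Lib.MP_ed43e6_ag.Q.L2D
import Pool.Agent.Lib.MP_ed43e6_ag.Q.HookS

/-! Soundness of the packed certificate checker at one staircase. -/

namespace Pool.Agent.Lib.MP_ed43e6_ag.Q.Bd.X

open Finset N

variable {S N z C K : ℕ} {d : ℕ → ℕ}

/-- The marks of the destroyed groups. -/
noncomputable def mk (z C K : ℕ) : ℕ := dR K (Nat.lor (d0 z K (bO z C K) (bX z C K))
  (Nat.shiftLeft (d2 z K (bU z C K (bX z C K))) 576))

open Classical in
theorem gain_eq (h0 : 0 < S) (hS : S ≤ 11) (hN : N ≤ 6 * S) (h2 : 2 ≤ N) (hK : K ≤ 44) :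
    gain S N z C K = pk 12 (N * N) fun l =>
      ((range K).filter fun g => ¬ Mk S N (mk z C K) l g).card :=
  left_eq h0 hS hN h2 hK fun _ _ hg => dR_lt hK (fun _ => dead_sup) hg

open Classical in
theorem blocks_sound {F : Prop} {T : ℕ → Prop} {fin : ℕ → Bool} {l : ℕ} (h0 : 0 < S) (hS : S ≤ 11)
    (hN : N ≤ 6 * S) (h2 : 2 ≤ N)
    (hf : ∀ d : ℕ → ℕ, (∀ l < N * N, d l < 2048) → fin (pk 12 (N * N) d) = true → T (d l) → F)
    (hb : ∀ C K e, K ≤ 44 → okB z C K = true → T e →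
      e ≤ ((range K).filter fun g => ¬ Mk S N (mk z C K) l g).card → F)
    (f C : ℕ) (hd : ∀ l < N * N, d l < 2048)
    (e : blocks S N z fin f C (pk 12 (N * N) d) = true) (t : T (d l)) : F := by
  induction f generalizing C d with
  | zero => exact absurd e Bool.false_ne_true
  | succ f ih =>
    have e' : (Bool.rec (frc (Nat.land C 63) fun K =>
      band (band (Nat.ble K 44) (okB z (Nat.shiftRight C 6) K))
        (blocks S N z fin f (Nat.shiftRight C (Nat.add 6 (Nat.mul 91 K)))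
          (clr (Fo.bG N) (pk 12 (N * N) d) (gain S N z (Nat.shiftRight C 6) K))))
      (fin (pk 12 (N * N) d)) (Nat.beq C 0) : Bool) = true := e
    rw [rec_beq, frc_eq] at e'
    split_ifs at e'
    · exact hf d hd e' t
    obtain ⟨e1, e2⟩ := band_iff.1 e'
    obtain ⟨e0, e1⟩ := band_iff.1 e1
    have hK := Nat.le_of_ble_eq_true e0
    have h1 := hb _ _ _ hK e1 t
    rw [gain_eq h0 hS hN h2 hK, clr_eq hd fun _ _ => (card_filter_le _ _).trans_lt
      (by rw [card_range]; omega)] at e2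
    refine (_root_.em _).elim h1 fun c => ih _ (fun l hl => ?_) e2 (by rwa [if_neg c])
    have := hd l hl
    split_ifs <;> omega

theorem mark0 {W : ℕ → ℕ} {O Y U g a x y t : ℕ} (B : Brd z K O Y U W) (hK : K ≤ 44) (hg : g < K)
    (ha : a = 2 * g ∨ a = 2 * g + 1) (hx : x < 6) (hy : y < 10) (ht : t < 22)
    (h : (dead0 z (W a)).testBit (ix (x + 1) (y + 1) (t + 1))) :
    (dR K (Nat.lor (d0 z K O Y) (Nat.shiftLeft (d2 z K U) 576))).testBit
      (48 * (24 * (x + 1) + (y + 1)) + g) := by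
  obtain ⟨s, hs, e⟩ : ∃ s, (s = 0 ∨ s = 24) ∧ pX a = 8064 * g + s := by
    rcases ha with rfl | rfl
    exacts [⟨0, Or.inl rfl, pX_0 g⟩, ⟨24, Or.inr rfl, pX_1 g⟩]
  have o := B.o a (by omega)
  have u := B.y a (by omega)
  rw [e] at o u
  have := d0_of hg hs (by unfold Fu ix; omega) (by unfold Fu ix; omega) (fun k => by
    unfold Fu ix
    fin_cases k <;> simp only [ee, Matrix.cons_val, Fin.reduceFinMk] <;> omega) o u h
  refine dR_of (t := t + 1 + s) hK (fun _ => dead_sup) (by omega) (by omega) (bit_or.2 (Or.inl ?_))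
  rwa [show 8064 * g + 48 * (24 * (x + 1) + (y + 1)) + (t + 1 + s) =
    ix (x + 1) (y + 1) (t + 1) + (8064 * g + s) by unfold ix; omega]

theorem mark2 {W : ℕ → ℕ} {O Y U g a x y t : ℕ} (B : Brd z K O Y U W) (hK : K ≤ 44) (hg : g < K)
    (ha : a = 2 * g ∨ a = 2 * g + 1) (hx : x < 5) (hy : y < 10) (ht : t < 22)
    (h : (dead2 z (W a)).testBit (ix (x + 1) (y + 1) (t + 1))) :
    (dR K (Nat.lor (d0 z K O Y) (Nat.shiftLeft (d2 z K U) 576))).testBit
      (48 * (24 * (x + 1) + (y + 1) + 12) + g) := by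
  obtain ⟨s, hs, e⟩ : ∃ s, (s = 0 ∨ s = 24) ∧ pU a = 8064 * g + s := by
    rcases ha with rfl | rfl
    exacts [⟨24, Or.inr rfl, pU_0 g⟩, ⟨0, Or.inl rfl, pU_1 g⟩]
  have u := B.u a (by omega)
  have v := B.v a (by omega)
  rw [e] at u v
  have := d2_of hg hs (by unfold In ix; omega) u v h
  refine dR_of (t := t + 1 + s) hK (fun _ => dead_sup) (by omega) (by omega) (bit_or.2 (Or.inr ?_))
  exact (bit_shl' (by unfold ix; omega)).2 this

open Classical in
theorem hook_of (hW : ∀ C K, K ≤ 44 → ∃ W, Fmt C K W) {P : GP}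
    (hP : ∀ g D k, Gain g D k → P g D k)
    {l3 : ℕ → ℕ → ℕ → ℕ → ℕ → ℕ → ℕ → ℕ → ℕ → ℕ → Bool} (h3 : L3Sound P l3) (t : BT) :
    HookSound P (hook l3 t) := by
  intro h S N n H D C Rm d c s e h0 h2 p0 q0 a1 b1 e0 e1 B0 B2
  obtain ⟨f1, f2, f3, f4, f5, -⟩ := s.flag h0 h2 p0 q0 a1 b1 e0 e1 B0 B2
  obtain ⟨g1, g2⟩ := band_iff.1 e
  obtain ⟨g1, g0⟩ := band_iff.1 g1
  have g0 : N ≤ 5 * S + 1 := Nat.le_of_ble_eq_true g0
  obtain ⟨S2, S11, k, -, -, hk, hz0⟩ := s.fits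
  have k5 : k ≤ 5 := Nat.le_of_mul_le_mul_right (c := S) (by omega) (by omega)
  have hN : 0 < N := by omega
  have hi : S * a1 + b1 < N := by omega
  have hl := Q.lane_lt hi f2
  have hn := s.size_eq
  by_cases c1 : d (N * (S * p0 + q0) + (S * a1 + b1)) = 0
  · obtain ⟨R, r1, r2⟩ := f5
    exact ⟨R, 0, r1, hP _ _ _ (gain_zero _ _), by omega⟩
  have h00 : h0 0 0 ≤ 22 := by
    have l0 := lane_H s hN
    rw [Nat.zero_div, Nat.zero_mod] at l0
    have l1 : lane H 0 + sel (Nat.beq (D &&& Fo.cF N) 0) 0 1 ≤ 22 := Nat.le_of_ble_eq_true g1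
    rw [sel_beq, l0] at l1
    rw [e0]
    unfold bump
    split_ifs with c2
    · obtain ⟨rfl, rfl⟩ := c2
      rwa [if_neg (c := D &&& Fo.cF N = 0) fun c3 =>
        c1 (block_zero s.d_lt hi f2 (s.D_eq ▸ c3))] at l1
    · omega
  have hb : Bdd h0 := bdd_of B0
    (by have := size_bump_le h p0 q0; have := s.n_le; rw [e0]; omega) h00
  have hz := brd_isB s
  have r5 : ∀ a b t, t < h a b → a < 5 := fun a b t x => by
    by_contra y
    rw [hz0 a b (Or.inl (by omega))] at x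
    omega
  have hI : ∀ j, (brd S N H).testBit j → In j := fun j x => by
    obtain ⟨a, b, t, rfl, y⟩ := (hz j).1 x
    have := r5 a b t y
    have := hb a b t (y.trans_le (e0 ▸ le_bump ..))
    unfold In ix
    omega
  have u0 := hb p0 q0 (h p0 q0) (by rw [e0]; unfold bump; rw [if_pos ⟨rfl, rfl⟩]; omega)
  have k1 : h a1 b1 = h2 a1 b1 + 1 := by rw [e1]; exact if_pos ⟨rfl, rfl⟩
  have u1 := hb a1 b1 (h2 a1 b1) (by rw [e0]; unfold bump; split_ifs <;> omega)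
  rw [s.D_eq] at g2
  refine blocks_sound (T := fun x => ∃ R, Roots h0 h h2 R ∧ R.card + 2 ≤ 3 * n + x) (by omega) S11
    (by omega) (by omega) (fun d' hd' e' r => ?_) (fun C' K x hK ok r hx => ?_) _ _ s.d_lt g2 f5
  · obtain ⟨R, r1, r2⟩ := r
    by_cases c0 : d' (N * (S * p0 + q0) + (S * a1 + b1)) = 0
    · exact ⟨R, 0, r1, hP _ _ _ (gain_zero _ _), by omega⟩
    · have := rest_sound hd' hi f2 e' c0
      have e2 : lane C (N * (S * p0 + q0) + (S * a1 + b1)) = _ :=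
        s.C_eq ▸ lane_pk (fun l hl => (s.c_lt l hl).trans (by norm_num)) hl
      exact h3 h h0 h2 S N n H D C Rm d c _ p0 q0 a1 b1 _ s hz e0 e1 B0 B2 hb (e2 ▸ this)
  · obtain ⟨R, r1, r2⟩ := r
    obtain ⟨W, F⟩ := hW C' K hK
    obtain ⟨sm, B⟩ := ok_sound F hI ok
    refine ⟨R, _, r1, hP _ _ _ (sm.gain e0 e1 B0 s.bor B2 hb hz (hn ▸ s.n_ge) _
      (filter_subset _ _) fun g hg => ?_), r2.trans (Nat.add_le_add (by omega) hx)⟩
    obtain ⟨hg, x⟩ := mem_filter.1 hg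
    rw [mem_range] at hg
    rw [Mk, idx_mod hi, idx_div hi, ce, ce, idx_div f1, idx_mod f1, idx_div (by omega),
      idx_mod (by omega), not_or] at x
    rw [k1, bit_or, bit_or]
    have a5 := r5 a1 b1 (h2 a1 b1) (by omega)
    exact ⟨fun y => x.1 (y.elim (mark0 B hK hg (Or.inl rfl) u0.1 u0.2.1 u0.2.2)
        (mark0 B hK hg (Or.inr rfl) u0.1 u0.2.1 u0.2.2)),
      fun y => x.2 (y.elim (mark2 B hK hg (Or.inl rfl) a5 u1.2.1 u1.2.2)
        (mark2 B hK hg (Or.inr rfl) a5 u1.2.1 u1.2.2))⟩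

end Pool.Agent.Lib.MP_ed43e6_ag.Q.Bd.X
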