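import Pool.Agent.Lib.MP_ed43e6_ag.Q.L2G

/-! Soundness of the unfolded packed checker. -/

namespace Pool.Agent.Lib.MP_ed43e6_ag.Q.Bd.XF

open N

theorem lw_e : lw = X.lw := by
  funext C K
  delta lw
  rewrite [k1_e]
  rfl

theorem wn_e : wn = X.wn := by
  funext C K
  delta wn
  rewrite [lw_e, k2_e]
  rfl

theorem v3_e : v3 = X.v3 := by
  funext C K
  delta v3
  rewrite [lw_e, wn_e]
  rfl

theorem ft_e : ft = X.ft := by
  funext C K
  delta ft
  rewrite [v3_e, k4_e]
  rfl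

theorem fb_e : fb = X.fb := by
  funext C K
  delta fb
  rewrite [v3_e, k4_e]
  rfl

theorem fa_e : fa = X.fa := by
  funext C K
  delta fa
  rewrite [v3_e, k4_e]
  rfl

theorem cv_e : cv = X.cv := by
  funext C K
  delta cv
  rewrite [fa_e, fb_e, ft_e]
  rfl

theorem ts_e : ts = X.ts := by
  funext K d
  delta ts
  rewrite [k4_e]
  rfl

theorem sv_e : sv = X.sv := by
  funext C K
  delta sv
  rewrite [fa_e, fb_e, ft_e, ts_e, k4_e]
  rfl

theorem cs_e : cs = X.cs := by
  funext C K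
  delta cs
  rewrite [cv_e, k2_e]
  rfl

theorem okF_e : okF = X.okF := by
  funext C K
  delta okF
  rewrite [cs_e, cv_e, fa_e, fb_e, ft_e, k1_e, k2_e, k4_e]
  rfl

theorem fK_e : fK = X.fK := by
  funext C K
  delta fK
  rewrite [cv_e, k1_e]
  rfl

theorem mA_e : mA = X.mA := by
  funext C K n
  delta mA
  rewrite [fK_e, os_e]
  rfl

theorem mB_e (C K : ℕ) : mB C K (2 * K) = X.mB C K (2 * K) := by
  delta mB
  rewrite [fK_e, os_e, on_e, oe_e (by omega)]
  rfl

theorem sK_e : sK = X.sK := by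
  funext C K
  delta sK
  rewrite [fK_e]
  rfl

theorem mS_e (C K : ℕ) : mS C K (2 * K) = X.mS C K (2 * K) := by
  delta mS
  rewrite [mA_e, mB_e, oa_e]
  rfl

theorem y1_e : y1 = X.y1 := by
  funext n d
  delta y1
  rewrite [tr_e, oa_e]
  rfl

theorem yG_e (C K n g : ℕ) : yG (X.mS C K n) (X.sK C K) n g = X.yG C K n g := by
  delta yG
  rewrite [y1_e, oa_e]
  rfl

theorem zer_e : zer = Bd.zer := by
  funext n t x
  delta zer
  rewrite [c25_e]
  rfl

theorem cel_e : cel = X.cel := geo_eq (Or.inl (by decide))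

theorem geo_mul {w : ℕ} (h : 0 < w) (n c : ℕ) : Nat.mul (geo w n) c = pk w n fun _ => c :=
  (congrArg (Nat.mul · c) (geo_eq (Or.inl h))).trans (pk_const w n c)

theorem m96_e : m96 = pk 96 84 fun _ => 16777215 := geo_mul (by decide) _ _
theorem m192_e : m192 = pk 192 42 fun _ => 281474976710655 := geo_mul (by decide) _ _
theorem n1_e : n1 = bM1 := geo_mul (w := 192) (by decide) 30 281474976710655
theorem n2_e : n2 = bM2 := geo_mul (w := 96) (by decide) 60 16777215
theorem nE_e : nE = bE := geo_eq (w := 48) (n := 120) (Or.inl (by decide))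
theorem n3_e : n3 = bM3 := geo_mul (w := 48) (by decide) 120 4095

theorem vC_e : vC = vB := by
  delta vC
  rewrite [uC.2, vB_eq]
  delta brd3 cP cx cy3 cy2 cy1
  rewrite [n1_e, n2_e, n3_e, nE_e]
  rfl

theorem dR_e : dR = X.dR := by
  funext K D
  delta dR
  rewrite [cel_e]
  rfl

theorem cc_e : cc = X.cc := by
  funext R c
  delta cc c1 c2
  rewrite [cel_e, m96_e, m192_e]
  rfl

theorem vL_e : vL = X.lost := by
  delta vL
  rewrite [uL.2]
  delta lost
  rewrite [cc_e]
  rfl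

theorem vF_e : vF = Bd.fill := uF.2.trans rfl

theorem vD_e : vD = dist := uD.2
theorem vS_e : vS = s4 := uS.2
theorem vQ_e : vQ = r3 := uQ.2
theorem vO_e : vO = others := uO.2

variable {C K Y U g : ℕ}

theorem vD_imp (hK : K ≤ 44) (h : vD 300 C K (2 * K) Y = true) :
    X.dist C K (2 * K) Y = true := by
  rewrite [vD_e, dist, zer_e, tr1_e, mA_e, mB_e, cM_e] at h
  rewrite [X.dist]
  refine lp_hits (by omega) (fun x l hl hx e => ?_)
    (fun p y => tops_tri 1 _ p (X.tr1_eq _ ▸ (bit_zer.1 y).1)) h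
  have k : 2 ≤ 2 * K := by
    rcases Nat.eq_zero_or_pos K with rfl | c
    · exact absurd hl (Nat.not_lt_zero _)
    · omega
  rw [frc_eq, frc_eq, bor_iff, Nat.beq_eq]
  refine e.imp (fun e => ?_) fun e => ?_
  · rw [gD, get_A (by omega) k hl hx, get_B (by omega) k hl hx] at e
    exact e
  · rw [sD, frc_eq, low_e, low_eq (by omega) hl hx] at e
    exact e

theorem tops_yG (hg : g < K) : Tops (2 * K) (X.yG C K (2 * K) g) := fun p y => by
  by_contra z
  refine bit_xor.1 y (iff_of_false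
    (fun x => z (tops_tri 0 _ p (X.tr_eq _ ▸ (bit_and.1 x).2))) fun x => z ?_)
  obtain ⟨x, y⟩ := bit_shl.1 x
  change (2 ^ 51).testBit _ = true at y
  rw [Nat.testBit_two_pow, decide_eq_true_eq] at y
  have : Nat.mul (Nat.mul 52 (Nat.succ (2 * K))) g = 26 * (2 * K * (2 * g) + 2 * g) := by
    change 52 * (2 * K + 1) * g = _
    ring
  exact ⟨2 * K * (2 * g) + (2 * g + 1), lane_lt (by omega) (by omega), by omega⟩

theorem vQ_imp {f : ℕ} (hK : K ≤ 44) (hg : g < K) (h : vQ f C K (2 * K) Y U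
    (Nat.shiftLeft (Bd.sp Y) 24152) (Bd.sm U) g (xa (X.bN K Y) g) (gn (X.cv C K) K g)
    (X.yG C K (2 * K) g) = true) :
    hits (2 * K) (fun a b => frc a fun a => frc b fun b =>
      bor (Nat.beq (Nat.lor (X.q1 K Y U g (Nat.sub 32767 (X.gn (X.cv C K) K g)) a b)
          (X.q1 K Y U g (Nat.sub 32767 (X.gn (X.cv C K) K g)) b a)) 0)
        (bor (band (X.q2 C K Y U g a b) (X.q2 C K Y U g b a))
          (band (band (Nat.beq (Nat.shiftRight a 1) g) (Nat.beq (Nat.shiftRight b 1) g))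
            (X.dup C K g)))) f (X.yG C K (2 * K) g) = true := by
  rewrite [vQ_e, r3] at h
  refine lp_hits (by omega) (fun x l hl hx e => ?_) (tops_yG hg) h
  have a := get_A (by omega) (by omega) hl hx
  have b := get_B (by omega) (by omega) hl hx
  have a' := (pX_lt (l / (2 * K)) ((Nat.div_lt_of_lt_mul hl).trans_le (by omega))).2
  have b' := (pX_lt (l % (2 * K)) ((Nat.mod_lt _ (by omega)).trans_le (by omega))).2
  rw [frc_eq, frc_eq, bor_iff, Nat.beq_eq]
  refine e.imp (fun e => ?_) fun e => ?_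
  · rw [gO, a, b] at e
    rw [X.q1, X.q1, ← a', ← b']
    exact e
  · rw [vS_e, s4, a, b, low_e, low_eq (by omega) hl hx] at e
    rw [X.q2, X.q2, ← a', ← b']
    exact e

theorem hits_zero (n : ℕ) (f : ℕ → ℕ → Bool) {k : ℕ} (hk : 0 < k) : hits n f k 0 = true := by
  cases k with
  | zero => omega
  | succ k => rfl

theorem vO_imp (hK : K ≤ 44) (h : vO C K (2 * K) Y U (X.cv C K) (X.mS C K (2 * K)) (X.sK C K)
    (Nat.shiftLeft (Bd.sp Y) 24152) (X.bN K Y) (Bd.sm U) = true) :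
    X.others C K (2 * K) Y U = true := by
  rewrite [vO_e, others] at h
  rewrite [X.others]
  refine allLt_iff.2 fun g hg => ?_
  have h := allLt_iff.1 h g hg
  rewrite [r2, yG_e, rec_beq] at h
  split_ifs at h with c
  · rewrite [c]
    exact hits_zero _ _ (by omega)
  · exact vQ_imp hK hg h

theorem v0_imp {r : ℕ → Bool} {S N D z : ℕ} (hK : K ≤ 44) (h : v0 r S N D z C K (2 * K) = true) :
    X.ok2 z C K (2 * K) (X.bX z C K) (X.bU z C K (X.bX z C K)) = true ∧
      r (Bd.clr (Fo.bG N) D (X.gain S N z C K)) = true := by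
  have e2 : bO (nz z) (X.cv C K) (X.sv C K) K = X.bO z C K := rfl
  have e3 : ∀ Y, bU z (X.cv C K) K Y = X.bU z C K Y := fun _ => rfl
  have e4 : bX z (X.bO z C K) (bS (Nat.shiftRight C (wK K)) K) K = X.bX z C K := by
    delta bX
    rewrite [vF_e]
    rfl
  delta v0 at h
  rewrite [u0.2] at h
  delta s0 v1 at h
  rewrite [u1.2] at h
  delta s1 v2 at h
  rewrite [u2.2] at h
  delta s2 s3 at h
  rewrite [cv_e, sv_e, e2, e4, e3, okF_e, mS_e, sK_e, vL_e, dR_e] at h
  obtain ⟨h, h5⟩ := band_iff.1 h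
  obtain ⟨h1, h⟩ := band_iff.1 h
  obtain ⟨h2, h⟩ := band_iff.1 h
  obtain ⟨h3, h4⟩ := band_iff.1 h
  exact ⟨band_iff.2 ⟨h1, band_iff.2 ⟨h2, band_iff.2 ⟨vD_imp hK h3, vO_imp hK h4⟩⟩⟩, h5⟩

theorem blocks_imp {S N z : ℕ} {fin : ℕ → Bool} {f D : ℕ} (h : blocks S N z fin f C D = true) :
    X.blocks S N z fin f C D = true := by
  induction f generalizing C D with
  | zero => exact h
  | succ f ih =>
    have h : (Bool.rec (frc (Nat.land C 63) fun K => band (Nat.ble K 44)
      (frc (Nat.mul 2 K) fun n => v0 (blocks S N z fin f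
        (Nat.shiftRight C (Nat.add 6 (Nat.mul 91 K)))) S N D z (Nat.shiftRight C 6) K n))
      (fin D) (Nat.beq C 0) : Bool) = true := h
    change (Bool.rec (frc (Nat.land C 63) fun K =>
      band (band (Nat.ble K 44) (X.okB z (Nat.shiftRight C 6) K))
        (X.blocks S N z fin f (Nat.shiftRight C (Nat.add 6 (Nat.mul 91 K)))
          (Bd.clr (Fo.bG N) D (X.gain S N z (Nat.shiftRight C 6) K))))
      (fin D) (Nat.beq C 0) : Bool) = true
    cases e : Nat.beq C 0
    swap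
    · rw [e] at h
      exact h
    rw [e] at h
    have h : frc _ _ = true := h
    change frc _ _ = true
    rw [frc_eq] at h ⊢
    obtain ⟨h1, h2⟩ := band_iff.1 h
    rw [frc_eq] at h2
    obtain ⟨h2, h3⟩ := v0_imp (Nat.le_of_ble_eq_true h1) h2
    refine band_iff.2 ⟨band_iff.2 ⟨h1, ?_⟩, ih h3⟩
    rw [X.okB, frc_eq]
    exact h2

theorem hook_sound {P : GP} (hP : ∀ g D k, Gain g D k → P g D k)
    {l3 : ℕ → ℕ → ℕ → ℕ → ℕ → ℕ → ℕ → ℕ → ℕ → ℕ → Bool} (h3 : L3Sound P l3) (t : BT) :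
    HookSound P (hook l3 t) := by
  intro h S N n H D C Rm d c s e
  obtain ⟨e1, e2⟩ := band_iff.1 e
  have e0 : vC S N H = brd S N H := by
    rw [vC_e]
    exact brd2_eq s (Nat.le_of_ble_eq_true (band_iff.1 e1).2)
      ((Nat.le_add_right _ _).trans (Nat.le_of_ble_eq_true (band_iff.1 e1).1))
  rw [e0, hk] at e2
  refine X.hook_sound hP (l3 := fun S N n H z Rm j i c _ => l3 S N n H z Rm j i c 0)
    (fun h h0 h2 S N n H D C Rm d c z p0 q0 a1 b1 _ => h3 h h0 h2 S N n H D C Rm d c z p0 q0 a1 b1 0)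
    (BT.node (Nat.mul (hkey S H) 8192) (look t (Nat.add H S)) BT.leaf BT.leaf)
    h S N n H D C Rm d c s (band_iff.2 ⟨e1, ?_⟩)
  have f : ∀ k v, (BT.node k v BT.leaf BT.leaf).find k = v := fun k v => by
    change (Bool.rec _ v (Nat.beq k k) : ℕ) = v
    rw [Nat.beq_refl]
  rw [f]
  exact blocks_imp e2

end Pool.Agent.Lib.MP_ed43e6_ag.Q.Bd.XF
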