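import Pool.Agent.Lib.MP_ed43e6_ag.Q.Mx
import Pool.Agent.Lib.MP_ed43e6_ag.Q.L2

/-! Packed boards: slots, extraction of one board, and the common flood fill. -/

namespace Pool.Agent.Lib.MP_ed43e6_ag.Q.Bd.X

open Finset N

variable {j j' s s' g g' K p x y z e f : ℕ}

/-- The position `j` lies in the first slot. -/
def Fu (j : ℕ) : Prop := j < 8064 ∧ j % 1152 < 576 ∧ j % 48 < 24

/-- The four slots of a board. -/
def Sl (s : ℕ) : Prop := s = 0 ∨ s = 24 ∨ s = 576 ∨ s = 600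

/-- The bits of a staircase with at most five rows. -/
def In (j : ℕ) : Prop :=
  1152 ≤ j ∧ j < 6912 ∧ 48 ≤ j % 1152 ∧ j % 1152 < 528 ∧ 1 ≤ j % 48 ∧ j % 48 < 23

theorem full_iff : full.testBit j ↔ Fu j := by
  have := full_bit (x := j / 1152) (y := j % 1152 / 48) (w := j % 48) (by omega) (by omega)
  rw [show ix (j / 1152) (j % 1152 / 48) (j % 48) = j by unfold ix; omega] at this
  rw [this, Fu]
  omega

theorem In.fu (h : In j) : Fu j := by unfold In at h; unfold Fu; omega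

theorem In.up (h : In j) (k : Fin 3) : Fu (j + ee k) := by
  unfold In at h
  unfold Fu
  fin_cases k <;> simp only [ee, Matrix.cons_val, Fin.reduceFinMk] <;> omega

theorem In.dn (h : In j) (k : Fin 3) : ee k ≤ j ∧ Fu (j - ee k) := by
  unfold In at h
  unfold Fu
  fin_cases k <;> simp only [ee, Matrix.cons_val, Fin.reduceFinMk] <;> omega

theorem uniq (h : Fu j) (h' : Fu j') (hs : Sl s) (hs' : Sl s')
    (e : j + (8064 * g + s) = j' + (8064 * g' + s')) : j = j' ∧ g = g' ∧ s = s' := by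
  unfold Fu at h h'
  rcases hs with rfl | rfl | rfl | rfl <;> rcases hs' with rfl | rfl | rfl | rfl <;> omega

theorem Fu.lt (h : Fu j) (hs : Sl s) : j + s < 8064 := by
  unfold Fu at h
  rcases hs with rfl | rfl | rfl | rfl <;> omega

theorem bit_at0 {Y : ℕ} : (at0 Y p).testBit j ↔ Y.testBit (j + p) ∧ Fu j := by
  rw [at0, bit_and, bit_shr, full_iff]

/-- The mask of the slot `s`. -/
theorem bit_slot (h : Fu j) (hs : Sl s) (hs' : Sl s') :
    (Nat.shiftLeft full s').testBit (j + s) ↔ s = s' := by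
  rw [bit_shl, full_iff]
  refine ⟨fun a => (uniq (g := 0) (g' := 0) h a.2 hs hs' (by omega)).2.2, ?_⟩
  rintro rfl
  exact ⟨by omega, by rwa [Nat.add_sub_cancel]⟩

theorem slot_lt (hs : Sl s) (h : (Nat.shiftLeft full s).testBit j) : j < 8064 := by
  obtain ⟨a, b⟩ := bit_shl.1 h
  have := (full_iff.1 b).lt hs
  omega

/-- All bits are below `n`. -/
def Lt (n x : ℕ) : Prop := ∀ j, x.testBit j → j < n

theorem Lt.lt {n : ℕ} (h : Lt n x) : x < 2 ^ n :=
  Nat.lt_pow_two_of_testBit x fun i hi => Bool.eq_false_iff.2 fun a => (h i a).not_ge hi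

theorem Lt.or {n : ℕ} (h : Lt n x) (h' : Lt n y) : Lt n (Nat.lor x y) := fun j a =>
  (bit_or.1 a).elim (h j) (h' j)

theorem pk8 {F : ℕ → ℕ} (h : ∀ g < K, Lt 8064 (F g)) {r : ℕ} (hr : r < 8064) :
    (pk 8064 K F).testBit (8064 * g + r) ↔ g < K ∧ (F g).testBit r :=
  pk_bit (fun g hg => (h g hg).lt) hr

theorem pk_at {F : ℕ → ℕ} (h : ∀ g < K, Lt 8064 (F g)) (hj : Fu j) (hs : Sl s) :
    (pk 8064 K F).testBit (j + (8064 * g + s)) ↔ g < K ∧ (F g).testBit (j + s) := by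
  rw [show j + (8064 * g + s) = 8064 * g + (j + s) by omega, pk8 h (hj.lt hs)]

theorem pk_ex {F : ℕ → ℕ} (h : ∀ g < K, Lt 8064 (F g)) (a : (pk 8064 K F).testBit p) :
    ∃ g < K, ∃ r < 8064, p = 8064 * g + r ∧ (F g).testBit r := by
  rw [← Nat.div_add_mod p 8064, pk8 h (Nat.mod_lt _ (by omega))] at a
  exact ⟨_, a.1, _, Nat.mod_lt _ (by omega), (Nat.div_add_mod p 8064).symm, a.2⟩

theorem kK_eq (K c : ℕ) : kK K c = pk 8064 K fun _ => c :=
  (pk_mul 8064 K _ c).trans (pk_congr _ _ _ _ fun _ _ => one_mul c)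

theorem add_bit_or (h : ∀ i, x.testBit i → ¬ y.testBit i) : x + y = Nat.lor x y := by
  induction x using Nat.binaryRec generalizing y with
  | zero => simp
  | bit a x ih =>
    induction y using Nat.binaryRec with
    | zero => simp
    | bit b y _ =>
      have h0 := h 0
      have h1 := ih (y := y) fun i u v => h (i + 1) (by rwa [Nat.testBit_bit_succ])
        (by rwa [Nat.testBit_bit_succ])
      rw [Nat.testBit_bit_zero, Nat.testBit_bit_zero] at h0
      rw [Nat.lor_eq, Nat.lor_bit, ← Nat.lor_eq, ← h1, Nat.bit_val, Nat.bit_val, Nat.bit_val]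
      cases a <;> cases b <;> simp at h0 ⊢ <;> omega

theorem bit_dbl (h : ∀ i, x.testBit i → i % 48 < 24) :
    (Nat.mul x 16777217).testBit p ↔ x.testBit p ∨ 24 ≤ p ∧ x.testBit (p - 24) := by
  rw [show Nat.mul x 16777217 = x + Nat.shiftLeft x 24 by
    rw [Nat.mul_eq, Nat.shiftLeft_eq', Nat.shiftLeft_eq]; omega, add_bit_or, bit_or, bit_shl]
  intro i a b
  have := h i a
  have := h _ (bit_shl.1 b).2
  have := (bit_shl.1 b).1
  omega

/-! ### The levels -/

theorem bZ_lt (hz : ∀ j, z.testBit j → In j) :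
    Lt 8064 (Nat.lor (Nat.lor z (Nat.shiftLeft z 24)) (Nat.shiftLeft z 576)) := fun j a => by
  rcases bit_or.1 a with a | a
  · rcases bit_or.1 a with a | a
    · have := (hz _ a).2.1
      omega
    · have := (hz _ (bit_shl.1 a).2).2.1
      omega
  · have := (hz _ (bit_shl.1 a).2).2.1
    omega

theorem bZ_ex (hz : ∀ j, z.testBit j → In j) (a : (bZ z K).testBit p) :
    ∃ g < K, ∃ s j, Sl s ∧ z.testBit j ∧ p = j + (8064 * g + s) := by
  rw [bZ, kK_eq] at a
  obtain ⟨g, hg, r, -, e, b⟩ := pk_ex (fun _ _ => bZ_lt hz) a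
  rcases bit_or.1 b with b | b
  · rcases bit_or.1 b with b | b
    · exact ⟨g, hg, 0, r, Or.inl rfl, b, by omega⟩
    · obtain ⟨c, b⟩ := bit_shl.1 b
      exact ⟨g, hg, 24, r - 24, Or.inr (Or.inl rfl), b, by omega⟩
  · obtain ⟨c, b⟩ := bit_shl.1 b
    exact ⟨g, hg, 576, r - 576, Or.inr (Or.inr (Or.inl rfl)), b, by omega⟩

theorem bZ_at (hz : ∀ j, z.testBit j → In j) (hj : Fu j) (hs : Sl s)
    (a : (bZ z K).testBit (j + (8064 * g + s))) : g < K ∧ z.testBit j := by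
  obtain ⟨g', hg, s', j', c, d, e⟩ := bZ_ex hz a
  obtain ⟨rfl, rfl, -⟩ := uniq hj (hz _ d).fu hs c e
  exact ⟨hg, d⟩

theorem bZ_of (hz : ∀ j, z.testBit j → In j) (hg : g < K) (hs : s = 0 ∨ s = 24 ∨ s = 576)
    (a : z.testBit j) : (bZ z K).testBit (j + (8064 * g + s)) := by
  rw [bZ, kK_eq, pk_at (fun _ _ => bZ_lt hz) (hz _ a).fu (by unfold Sl; omega), bit_or, bit_or]
  refine ⟨hg, ?_⟩
  rcases hs with rfl | rfl | rfl
  exacts [Or.inl (Or.inl a), Or.inl (Or.inr ((bit_shl' rfl).2 a)), Or.inr ((bit_shl' rfl).2 a)]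

/-! ### The common flood fill -/

/-- The links of `L` do not leave or enter the slot at the position `p`. -/
def Sep (L e p : ℕ) : Prop :=
  (∀ j, L.testBit (j + p) → Fu j → e ≤ j ∧ Fu (j - e)) ∧
    ∀ j, L.testBit (j + e + p) → Fu j → Fu (j + e)

theorem sep_of (hz : ∀ j, z.testBit j → In j) {L : ℕ} (h : Sub L (bZ z K)) (hs : Sl s)
    (k : Fin 3) : Sep L (ee k) (8064 * g + s) := by
  refine ⟨fun j a b => (hz _ (bZ_at hz b hs (h _ a)).2).dn k, fun j a b => ?_⟩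
  obtain ⟨g', -, s', j', c, d, e⟩ := bZ_ex hz (h _ a)
  obtain ⟨d1, d2⟩ := (hz _ d).dn k
  obtain ⟨rfl, -⟩ := uniq (g := g) (g' := g') b d2 hs c (by omega)
  rw [Nat.sub_add_cancel d1]
  exact (hz _ d).fu

variable {L L0 L1 L2 X : ℕ}

theorem at_up (h : Sep L e p) : at0 (up L e X) p = up (at0 L p) e (at0 X p) := by
  refine Nat.eq_of_testBit_eq fun j => ?_
  rw [Bool.eq_iff_iff, up, up, bit_at0, bit_or, bit_or, bit_and, bit_and, bit_shl, bit_shl, bit_at0,
    bit_at0, bit_at0]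
  constructor
  · rintro ⟨a | ⟨⟨-, a⟩, b⟩, c⟩
    · exact Or.inl ⟨a, c⟩
    · obtain ⟨d1, d2⟩ := h.1 j b c
      exact Or.inr ⟨⟨d1, by rwa [show j - e + p = j + p - e by omega], d2⟩, b, c⟩
  · rintro (⟨a, c⟩ | ⟨⟨d, a, -⟩, b, c⟩)
    · exact ⟨Or.inl a, c⟩
    · exact ⟨Or.inr ⟨⟨by omega, by rwa [show j + p - e = j - e + p by omega]⟩, b⟩, c⟩

theorem at_dn (h : Sep L e p) : at0 (dn L e X) p = dn (at0 L p) e (at0 X p) := by
  refine Nat.eq_of_testBit_eq fun j => ?_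
  rw [Bool.eq_iff_iff, bit_at0, bit_dn, bit_dn, bit_at0, bit_at0, bit_at0, add_right_comm j p e]
  constructor
  · rintro ⟨a | ⟨a, b⟩, c⟩
    · exact Or.inl ⟨a, c⟩
    · exact Or.inr ⟨⟨a, h.2 j b c⟩, b, h.2 j b c⟩
  · rintro (⟨a, c⟩ | ⟨⟨a, c⟩, b, -⟩)
    · exact ⟨Or.inl a, c⟩
    · exact ⟨Or.inr ⟨a, b⟩, by simpa using (h.1 _ b c).2⟩

theorem at_fill (h0 : Sep L0 1152 p) (h1 : Sep L1 48 p) (h2 : Sep L2 1 p) :
    fill L0 L1 L2 f X = 0 ∨
      at0 (fill L0 L1 L2 f X) p = fill (at0 L0 p) (at0 L1 p) (at0 L2 p) f (at0 X p) := by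
  have st : ∀ X, at0 (step L0 L1 L2 X) p = step (at0 L0 p) (at0 L1 p) (at0 L2 p) (at0 X p) :=
    fun X => by rw [step, step, at_dn h0, at_up h0, at_dn h1, at_up h1, at_dn h2, at_up h2]
  induction f generalizing X with
  | zero => exact Or.inl rfl
  | succ f ih =>
    rw [fill_succ, fill_succ, ← st]
    split_ifs with a b b
    · exact Or.inr rfl
    · exact (b (by rw [a])).elim
    · refine (ih (X := step L0 L1 L2 X)).elim Or.inl fun c => ?_
      cases f with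
      | zero => exact Or.inl rfl
      | succ f => exact Or.inr (by rw [c, fill_succ, b, ← st, if_pos b])
    · exact ih

end Pool.Agent.Lib.MP_ed43e6_ag.Q.Bd.X
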