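import Pool.Agent.Lib.MP_ed43e6_ag.Q.L2B

/-! The leading coefficients and the support test on packed boards. -/

namespace Pool.Agent.Lib.MP_ed43e6_ag.Q.Bd.X

open Finset N

variable {i j s g K p x y z C Y U M w v n : ℕ}

theorem bit_cut (hw : 0 < w) (hs : s ≤ w) :
    (pk w n fun i => x >>> (w * i) % 2 ^ s).testBit p ↔ x.testBit p ∧ p / w < n ∧ p % w < s := by
  rw [← Nat.div_add_mod p w, pk_bit (fun _ _ => (Nat.mod_lt _ (by positivity)).trans_le
    (Nat.pow_le_pow_right two_pos hs)) (Nat.mod_lt _ hw), Nat.testBit_mod_two_pow,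
    Nat.testBit_shiftRight, Nat.div_add_mod, Bool.and_eq_true, decide_eq_true_eq]
  tauto

theorem pk_cut (hw : 0 < w) (hs : s ≤ w) (h : ∀ p, x.testBit p → p / w < n ∧ p % w < s) :
    x = pk w n fun i => x >>> (w * i) % 2 ^ s :=
  Nat.eq_of_testBit_eq fun p => by
    rw [Bool.eq_iff_iff, bit_cut hw hs]
    exact ⟨fun a => ⟨a, h p a⟩, fun a => a.1⟩

theorem top_bit {f : ℕ} (h : f < 2 ^ w) : (f + (2 ^ w - 1)).testBit w ↔ f ≠ 0 := by
  by_cases e : f = 0
  · rw [Nat.testBit_lt_two_pow (by omega)]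
    simp [e]
  · rw [Nat.testBit_of_two_pow_le_and_two_pow_add_one_gt (by omega) (by rw [pow_succ]; omega)]
    simp [e]

theorem drop_top {f : ℕ} (h : f < 2 ^ w) : ((f ||| 2 ^ w) - 1) &&& f = drop f := by
  rcases Nat.eq_zero_or_pos f with rfl | e
  · simp [drop]
  have e1 : f ||| 2 ^ w = 2 ^ w * 1 + f := by
    rw [Nat.two_pow_add_eq_or_of_lt h, mul_one, Nat.or_comm]
  refine Nat.eq_of_testBit_eq fun i => ?_
  rw [e1, Nat.add_sub_assoc e, drop, Nat.land_eq, Nat.testBit_and, Nat.testBit_and,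
    Nat.testBit_two_pow_mul_add _ (by omega), Bool.and_comm]
  split_ifs with c
  · rfl
  · rw [Nat.testBit_lt_two_pow (h.trans_le (Nat.pow_le_pow_right two_pos (by omega)))]
    rfl

theorem drop_lt {f : ℕ} (h : f < 2 ^ w) : drop f < 2 ^ w := Nat.and_le_left.trans_lt h

theorem pk_drop {f : ℕ → ℕ} (hv : v = w + 1) (h : ∀ g < K, f g < 2 ^ w) :
    Nat.land (Nat.sub (Nat.lor (pk v K f) (pk v K fun _ => Nat.shiftLeft 1 w)) (pk v K fun _ => 1))
      (pk v K f) = pk v K fun g => drop (f g) := by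
  have l : 2 ^ w < 2 ^ v := Nat.pow_lt_pow_right one_lt_two (by omega)
  have l' : ∀ g < K, f g ||| 2 ^ w < 2 ^ v := fun g hg => Nat.or_lt_two_pow ((h g hg).trans l) l
  rw [Nat.shiftLeft_eq', Nat.one_shiftLeft, Nat.lor_eq, Nat.sub_eq, Nat.land_eq,
    pk_or _ _ _ _ (fun g hg => (h g hg).trans l) fun _ _ => l,
    pk_sub _ _ _ _ fun g _ => (Nat.one_le_two_pow).trans Nat.right_le_or,
    pk_and _ _ _ _ (fun g hg => (Nat.sub_le _ _).trans_lt (l' g hg)) fun g hg => (h g hg).trans l]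
  exact pk_congr _ _ _ _ fun g hg => drop_top (h g hg)

theorem pk_top {f f' : ℕ → ℕ} (hv : v = w + 1) (h : ∀ g < K, f g < 2 ^ w)
    (h' : ∀ g < K, f' g < 2 ^ w) (hg : g < K)
    (e : Nat.land (Nat.xor (Nat.add (pk v K f) (pk v K fun _ => Nat.pred (Nat.shiftLeft 1 w)))
      (Nat.add (pk v K f') (pk v K fun _ => Nat.pred (Nat.shiftLeft 1 w))))
      (pk v K fun _ => Nat.shiftLeft 1 w) = pk v K fun _ => Nat.shiftLeft 1 w) :
    ¬ (f g ≠ 0 ↔ f' g ≠ 0) := by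
  have l : 2 ^ v = 2 * 2 ^ w := by rw [hv, pow_succ']
  rw [Nat.shiftLeft_eq', Nat.one_shiftLeft, Nat.pred_eq_sub_one] at e
  have b : (pk v K fun _ => 2 ^ w).testBit (v * g + w) :=
    (pk_bit (f := fun _ => 2 ^ w) (fun _ _ => Nat.pow_lt_pow_right one_lt_two (by omega))
      (by omega)).2 ⟨hg, Nat.testBit_two_pow_self⟩
  rw [← e, bit_and, bit_xor, Nat.add_eq, Nat.add_eq, pk_add, pk_add,
    pk_bit (fun g hg => by have := h g hg; omega) (by omega),
    pk_bit (fun g hg => by have := h' g hg; omega) (by omega), top_bit (h g hg), top_bit (h' g hg),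
    and_iff_right hg, and_iff_right hg] at b
  exact b.1

theorem card_drop (x : ℕ) : (bits x).card ≤ (bits (drop x)).card + 1 := by
  by_cases a : x = 0
  · simp [a, bits_zero]
  obtain ⟨l, hl⟩ := low_ex a
  have e : bits (drop x) = (bits x).erase l := by
    ext i
    rw [mem_bits, hl.drop, mem_erase, mem_bits, and_comm]
  rw [e, card_erase_add_one (mem_bits.2 hl.1)]

theorem pc_card {f : ℕ} (h : (bits x).card < f) : pc f x = (bits x).card := by
  induction f generalizing x with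
  | zero => omega
  | succ f ih =>
    rw [pc_succ]
    split_ifs with a
    · rw [a, bits_zero, card_empty]
    · obtain ⟨l, hl⟩ := low_ex a
      have e : bits (drop x) = (bits x).erase l := by
        ext i
        rw [mem_bits, hl.drop, mem_erase, mem_bits, and_comm]
      have := card_erase_add_one (mem_bits.2 hl.1)
      rw [ih (by rw [e]; omega), e, this]

theorem pc_small {t T : ℕ} (hT : (bits T).card ≤ 2) (h : ∀ j, t.testBit j → T.testBit (j + s)) :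
    pc 40 t ≤ 2 ∧ (pc 40 t = 0 ↔ t = 0) := by
  have c : (bits t).card ≤ (bits T).card := card_le_card_of_injOn (· + s)
    (fun j a => mem_coe.2 (mem_bits.2 (h j (mem_bits.1 (mem_coe.1 a)))))
    fun _ _ _ _ e => Nat.add_right_cancel e
  rw [pc_card (by omega)]
  refine ⟨by omega, fun a => ?_, fun a => by rw [a, bits_zero, card_empty]⟩
  by_contra b
  obtain ⟨i, hi⟩ := Nat.exists_testBit_of_ne_zero b
  exact card_ne_zero_of_mem (mem_bits.2 hi) a

/-- The board of the group `g`. -/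
def ln (x g : ℕ) : ℕ := x >>> (8064 * g) % 2 ^ 8063

theorem bit_ln {r : ℕ} : (ln x g).testBit r ↔ r < 8063 ∧ x.testBit (r + 8064 * g) := by
  rw [ln, Nat.testBit_mod_two_pow, Nat.testBit_shiftRight, Bool.and_eq_true, decide_eq_true_eq,
    add_comm]

theorem ln_lt (x g : ℕ) : ln x g < 2 ^ 8063 := Lt.lt fun _ a => (bit_ln.1 a).1

theorem lead1_spec {P Q : ℕ} (hP : ∀ p, P.testBit p → p / 8064 < K ∧ p % 8064 < 8063)
    (hQ : ∀ p, Q.testBit p → p / 8064 < K ∧ p % 8064 < 8063) (h : lead1 K P Q) (hg : g < K) :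
    ¬ (ln P g ≠ 0 ↔ ln Q g ≠ 0) ∧ (bits (ln (Nat.lor P Q) g)).card ≤ 2 := by
  have l : ∀ x, ∀ g < K, ln x g < 2 ^ 8063 := fun x g _ => ln_lt x g
  have eP : P = pk 8064 K (ln P) := pk_cut (by omega) (by omega) hP
  have eQ : Q = pk 8064 K (ln Q) := pk_cut (by omega) (by omega) hQ
  have eR : Nat.lor P Q = pk 8064 K (ln (Nat.lor P Q)) :=
    pk_cut (by omega) (by omega) fun p a => (bit_or.1 a).elim (hP p) (hQ p)
  have d : ∀ f : ℕ → ℕ, (∀ g < K, f g < 2 ^ 8063) →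
      dr K (pk 8064 K f) = pk 8064 K fun g => drop (f g) := fun f hf => by
    rw [dr, tT, kK_eq]
    exact pk_drop rfl hf
  obtain ⟨h1, h2⟩ := band_iff.1 h
  constructor
  · rw [tT, tC, kK_eq, kK_eq, eP, eQ] at h1
    exact pk_top rfl (l P) (l Q) hg (Nat.eq_of_beq_eq_true h1)
  · have c1 := card_drop (ln (Nat.lor P Q) g)
    have c2 := card_drop (drop (ln (Nat.lor P Q) g))
    rw [eR, d _ (l _), d _ fun g hg => drop_lt (l _ g hg), bor_iff] at h2
    rcases h2 with h2 | h2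
    · rw [pk_eq_zero _ _ _ (Nat.eq_of_beq_eq_true h2) g hg, bits_zero, card_empty] at c1
      omega
    · rw [pk_eq_zero _ _ _ (Nat.eq_of_beq_eq_true h2) g hg, bits_zero, card_empty] at c2
      omega

theorem t3_ex (hN : ∀ g < K, ∀ j, (at0 Y (8064 * g + 576)).testBit j → In j) {a b c : ℕ}
    (h : (t3 K Y M U a b c).testBit p) :
    ∃ g < K, ∃ s j, (s = 0 ∨ s = 24) ∧ p = j + (8064 * g + s) ∧ In j := by
  have e : (Nat.mul (bN K Y) 16777217).testBit p := by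
    rcases bit_or.1 h with h | h
    · rcases bit_or.1 h with h | h <;> exact (bit_and.1 (bit_and.1 h).1).1
    · exact (bit_and.1 (bit_and.1 h).1).1
  obtain ⟨g, hg, s, j, a, b, c⟩ := bit_NN.1 e
  exact ⟨g, hg, s, j, a, b, hN g hg j c⟩

theorem tb_in {N XS V a b : ℕ} (hN : ∀ j, N.testBit j → In j) (h : (tb N XS V a b).testBit j) :
    In j := hN _ (bit_and.1 (bit_and.1 h).1).1

/-- The three boards of one slot. -/
theorem three {P T N XS V a b c : ℕ} (hs : s = 0 ∨ s = 24) (hN : ∀ j, N.testBit j → In j)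
    (hT : (bits (ln T g)).card ≤ 2) (hP : Sub P T)
    (h : ∀ j, Fu j → (P.testBit (j + (8064 * g + s)) ↔ ((tb N XS V 1152 a).testBit j ∨
      (tb N XS V 48 b).testBit j) ∨ (tb N XS V 1 c).testBit j)) :
    pc 40 (tb N XS V 1152 a) + pc 40 (tb N XS V 48 b) + pc 40 (tb N XS V 1 c) ≤ 6 ∧
    (pc 40 (tb N XS V 1152 a) + pc 40 (tb N XS V 48 b) + pc 40 (tb N XS V 1 c) ≠ 0 ↔
      ∃ j, In j ∧ P.testBit (j + (8064 * g + s))) := by
  have u : ∀ j, In j → P.testBit (j + (8064 * g + s)) → (ln T g).testBit (j + s) := fun j a b =>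
    bit_ln.2 ⟨by have := a.2.1; omega, hP _ (by rwa [add_assoc, add_comm s])⟩
  obtain ⟨a1, a2⟩ := pc_small (t := tb N XS V 1152 a) hT fun j e =>
    u j (tb_in hN e) ((h j (tb_in hN e).fu).2 (Or.inl (Or.inl e)))
  obtain ⟨b1, b2⟩ := pc_small (t := tb N XS V 48 b) hT fun j e =>
    u j (tb_in hN e) ((h j (tb_in hN e).fu).2 (Or.inl (Or.inr e)))
  obtain ⟨c1, c2⟩ := pc_small (t := tb N XS V 1 c) hT fun j e =>
    u j (tb_in hN e) ((h j (tb_in hN e).fu).2 (Or.inr e))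
  refine ⟨by omega, ?_⟩
  rw [Ne, Nat.add_eq_zero_iff, Nat.add_eq_zero_iff, a2, b2, c2]
  constructor
  · intro e
    by_contra d
    refine e ⟨⟨?_, ?_⟩, ?_⟩ <;> refine Nat.zero_of_testBit_eq_false fun j => ?_ <;>
      refine Bool.eq_false_iff.2 fun x => d ⟨j, tb_in hN x, (h j (tb_in hN x).fu).2 ?_⟩
    exacts [Or.inl (Or.inl x), Or.inl (Or.inr x), Or.inr x]
  · rintro ⟨j, d, e⟩ ⟨⟨x1, x2⟩, x3⟩
    rw [h j d.fu, x1, x2, x3] at e
    simp at e

theorem ln_ne {P : ℕ} (hP : ∀ p, P.testBit p →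
    ∃ g < K, ∃ s j, (s = 0 ∨ s = 24) ∧ p = j + (8064 * g + s) ∧ In j) :
    ln P g ≠ 0 ↔ (∃ j, In j ∧ P.testBit (j + (8064 * g + 0))) ∨
      ∃ j, In j ∧ P.testBit (j + (8064 * g + 24)) := by
  constructor
  · intro e
    obtain ⟨r, hr⟩ := Nat.exists_testBit_of_ne_zero e
    obtain ⟨r1, r2⟩ := bit_ln.1 hr
    obtain ⟨g', -, s, j, a, b, c⟩ := hP _ r2
    have := c.2.1
    obtain rfl : g' = g := by omega
    rcases a with rfl | rfl
    exacts [Or.inl ⟨j, c, b ▸ r2⟩, Or.inr ⟨j, c, b ▸ r2⟩]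
  · rintro (⟨j, a, b⟩ | ⟨j, a, b⟩) e
    · have := (bit_ln (r := j)).2 ⟨by have := a.2.1; omega, b⟩
      simp [e] at this
    · have := (bit_ln (r := j + 24)).2 ⟨by have := a.2.1; omega, by rwa [add_assoc, add_comm 24]⟩
      simp [e] at this

theorem lead1_lead (hN : ∀ g < K, ∀ j, (at0 Y (8064 * g + 576)).testBit j → In j)
    (h : lead1 K (t3 K Y M U 1 1152 48) (t3 K Y M U 48 1 1152)) (hg : g < K) {A B V W : ℕ}
    (hA : ∀ j, Fu j → (M.testBit (j + (8064 * g + 0)) ↔ A.testBit j))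
    (hB : ∀ j, Fu j → (M.testBit (j + (8064 * g + 24)) ↔ B.testBit j))
    (hV : ∀ j, Fu j → (U.testBit (j + (8064 * g + 0)) ↔ V.testBit j))
    (hW : ∀ j, Fu j → (U.testBit (j + (8064 * g + 24)) ↔ W.testBit j)) :
    lead (Nat.add (posP (at0 Y (8064 * g + 576)) A V) (posP (at0 Y (8064 * g + 576)) B W))
      (Nat.add (posQ (at0 Y (8064 * g + 576)) A V) (posQ (at0 Y (8064 * g + 576)) B W)) := by
  have r : ∀ a b c p, (t3 K Y M U a b c).testBit p → p / 8064 < K ∧ p % 8064 < 8063 :=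
    fun a b c p e => by
      obtain ⟨g, hg, s, j, a, b, c⟩ := t3_ex hN e
      have := c.2.1
      omega
  obtain ⟨h1, h2⟩ := lead1_spec (r _ _ _) (r _ _ _) h hg
  rw [ln_ne fun p e => t3_ex hN e, ln_ne fun p e => t3_ex hN e] at h1
  have t : ∀ {s XS V} (hs : s = 0 ∨ s = 24) (a b c : Fin 3),
      (∀ j, Fu j → (M.testBit (j + (8064 * g + s)) ↔ XS.testBit j)) →
      (∀ j, Fu j → (U.testBit (j + (8064 * g + s)) ↔ V.testBit j)) → ∀ j, Fu j →
      ((t3 K Y M U (ee a) (ee b) (ee c)).testBit (j + (8064 * g + s)) ↔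
        ((tb (at0 Y (8064 * g + 576)) XS V 1152 (ee a)).testBit j ∨
        (tb (at0 Y (8064 * g + 576)) XS V 48 (ee b)).testBit j) ∨
        (tb (at0 Y (8064 * g + 576)) XS V 1 (ee c)).testBit j) := fun hs a b c u v j hj =>
    bit_or.trans (or_congr (bit_or.trans (or_congr (eN_at hg hj hs (hN g hg) u v 0 a)
      (eN_at hg hj hs (hN g hg) u v 1 b))) (eN_at hg hj hs (hN g hg) u v 2 c))
  obtain ⟨a1, a2⟩ := three (Or.inl rfl) (hN g hg) h2 (fun _ e => bit_or.2 (Or.inl e))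
    (t (Or.inl rfl) 2 0 1 hA hV)
  obtain ⟨b1, b2⟩ := three (Or.inr rfl) (hN g hg) h2 (fun _ e => bit_or.2 (Or.inl e))
    (t (Or.inr rfl) 2 0 1 hB hW)
  obtain ⟨c1, c2⟩ := three (Or.inl rfl) (hN g hg) h2 (fun _ e => bit_or.2 (Or.inr e))
    (t (Or.inl rfl) 1 2 0 hA hV)
  obtain ⟨d1, d2⟩ := three (Or.inr rfl) (hN g hg) h2 (fun _ e => bit_or.2 (Or.inr e))
    (t (Or.inr rfl) 1 2 0 hB hW)
  rw [← a2, ← b2, ← c2, ← d2] at h1
  change posP _ A V ≤ 6 at a1
  change posP _ B W ≤ 6 at b1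
  change posQ _ A V ≤ 6 at c1
  change posQ _ B W ≤ 6 at d1
  change ¬ (posP _ A V ≠ 0 ∨ posP _ B W ≠ 0 ↔ posQ _ A V ≠ 0 ∨ posQ _ B W ≠ 0) at h1
  rw [lead, band_iff, Nat.ble_eq, Bool.eq_false_iff.2 (mt Nat.eq_of_beq_eq_true ?_)]
  · exact ⟨by simp only [Nat.add_eq]; omega, rfl⟩
  · simp only [Nat.add_eq]
    omega

/-- Only the bits next to the staircase matter. -/
theorem tb_congr {N XS V V' : ℕ} (hN : ∀ j, N.testBit j → In j)
    (h : ∀ j, Fu j → (V.testBit j ↔ V'.testBit j)) (a : ℕ) (k : Fin 3) :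
    tb N XS V a (ee k) = tb N XS V' a (ee k) := by
  refine Nat.eq_of_testBit_eq fun j => ?_
  rw [Bool.eq_iff_iff, tb, tb, bit_and, bit_and (y := Nat.shiftRight V' _), bit_shr, bit_shr]
  exact and_congr_right fun e => h _ ((hN _ (bit_and.1 e).1).up k)

theorem pos_congr {N XS V V' : ℕ} (hN : ∀ j, N.testBit j → In j)
    (h : ∀ j, Fu j → (V.testBit j ↔ V'.testBit j)) :
    posP N XS V = posP N XS V' ∧ posQ N XS V = posQ N XS V' ∧ nosup N XS V = nosup N XS V' := by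
  have e0 : ∀ a, tb N XS V a 1152 = tb N XS V' a 1152 := fun a => tb_congr hN h a 0
  have e1 : ∀ a, tb N XS V a 48 = tb N XS V' a 48 := fun a => tb_congr hN h a 1
  have e2 : ∀ a, tb N XS V a 1 = tb N XS V' a 1 := fun a => tb_congr hN h a 2
  simp only [posP, posQ, nosup, e0, e1, e2, and_self]

theorem q1_nosup {c a b : ℕ} (hg : g < K) (hc : c ≤ 32767)
    (h : q1 K Y U g (32767 - c) a b = 0) :
    nosup (at0 Y (8064 * g + 576)) (shf (at0 Y (pX a)) c) (at0 U (pU b)) := by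
  have e : ∀ i k, tb (at0 Y (8064 * g + 576)) (shf (at0 Y (pX a)) c) (at0 U (pU b)) (ee i) (ee k) =
      0 := fun i k => by
    by_contra d
    obtain ⟨p, hp⟩ := Nat.exists_testBit_of_ne_zero d
    obtain ⟨h1, h3⟩ := bit_and.1 hp
    obtain ⟨h1, h2⟩ := bit_and.1 h1
    obtain ⟨l2, h2⟩ := bit_shl.1 h2
    obtain ⟨l2', h2⟩ := bit_shf.1 h2
    have : (q1 K Y U g (32767 - c) a b).testBit p := by
      rw [q1, xa_bN hg, bit_and, bit_and, bit_shr, bit_shr, bit_shl, bit_sp, bit_sm, Nat.add_eq]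
      exact ⟨⟨⟨by omega, i, _, by omega, (bit_at0.1 h2).1⟩, h1⟩, k, by
        rw [add_right_comm]
        exact (bit_at0.1 (bit_shr.1 h3)).1⟩
    rw [h, Nat.zero_testBit] at this
    exact Bool.noConfusion this
  have e1 : tb _ _ _ 1152 1 = 0 := e 0 2
  have e2 : tb _ _ _ 48 1152 = 0 := e 1 0
  have e3 : tb _ _ _ 1 48 = 0 := e 2 1
  have e4 : tb _ _ _ 1152 48 = 0 := e 0 1
  have e5 : tb _ _ _ 48 1 = 0 := e 1 2
  have e6 : tb _ _ _ 1 1152 = 0 := e 2 0
  rw [nosup, e1, e2, e3, e4, e5, e6]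
  rfl

theorem lead_ne {N A B V W : ℕ} (h : lead (Nat.add (posP N A V) (posP N B W))
    (Nat.add (posQ N A V) (posQ N B W))) : ¬ ((A = 0 ∨ V = 0) ∧ (B = 0 ∨ W = 0)) := by
  have e : ∀ A V, A = 0 ∨ V = 0 → posP N A V = 0 ∧ posQ N A V = 0 := fun A V u => by
    have : ∀ a b, pc 40 (tb N A V a b) = 0 := fun a b => by
      rw [show tb N A V a b = 0 by rcases u with rfl | rfl <;> simp [tb]]
      rfl
    rw [posP, posQ, this, this, this, this, this, this]
    exact ⟨rfl, rfl⟩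
  rintro ⟨u, v⟩
  rw [(e _ _ u).1, (e _ _ u).2, (e _ _ v).1, (e _ _ v).2] at h
  exact Bool.noConfusion h

end Pool.Agent.Lib.MP_ed43e6_ag.Q.Bd.X
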