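import Pool.Agent.Lib.MP_ed43e6_ag.Q.Lev

/-! Linearisation: modulo lower terms of a filtration, a normal form coefficient depends only on
the class of its pair of boxes. -/

namespace Pool.Agent.Lib.MP_ed43e6_ag.Q

open Finset N

universe u

variable {K Ω : Type u} [Field K] [Field Ω] [Algebra K Ω] {Q : Finset T3}

/-- Products of two coefficients with positive gaps adding to `n` lie in `V`. -/
def Prd (V : Submodule K Ω) (c c' : T3 → T3 → Ω) (n : ℕ) : Prop :=
  ∀ u w u' w', ky u < ky w → ky u' < ky w' → ky u + ky u' + n = ky w + ky w' →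
    c u w * c' u' w' ∈ V

section

variable {V : Submodule K Ω} {g g' : ℕ → ℕ → ℕ} {c c' : T3 → T3 → Ω} {n k : ℕ} {u v : T3}

theorem term (h : Lev Q g c) (h' : Lev Q g' c') (P : Prd V c c' n) (hu : ¬ ins g u) {w w' : T3}
    (hw : ky w' = ky w + k) (hn : ky u + k + n = ky v) (hne : w' ≠ v) : c u w * c' w' v ∈ V := by
  by_cases h0 : c u w = 0
  · rw [h0, zero_mul]; exact zero_mem _
  have h1 := h.lt u w hu h0
  by_cases h3 : ky v ≤ ky w'
  · rw [h'.zero hne h3, mul_zero]; exact zero_mem _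
  · exact P _ _ _ _ h1 (not_le.1 h3) (by omega)

theorem rel (h : Lev Q g c) (h' : Lev Q g' c') (P : Prd V c c' n) (hu : ¬ ins g u) (s : T3 → T3)
    (hs : ∀ w, ky (s w) = ky w + k) (inj : ∀ w, s w = s v → w = v) (hv : v ∈ Q)
    (hv' : ins g' (s v)) (hn : ky u + n = ky v) :
    ∑ w ∈ Q, c u w * c' (s w) (s v) - c u v ∈ V := by
  classical
  rw [← add_sum_erase _ _ hv, h'.fix _ _ hv', if_pos rfl, mul_one, add_sub_cancel_left]
  exact sum_mem fun w hw => term h h' P hu (hs w) (by rw [hs]; omega)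
    fun e => ne_of_mem_erase hw (inj w e)

end

variable {h : Fin 3 → ℕ → ℕ → ℕ} {c : Fin 3 → T3 → T3 → Ω}

/-- The coefficient at the pair `(u, v)` of gap `n` agrees with `Y u v` modulo `V`. -/
def Near (h : Fin 3 → ℕ → ℕ → ℕ) (c : Fin 3 → T3 → T3 → Ω) (V : Submodule K Ω) (n : ℕ)
    (Y : T3 → T3 → Ω) (u v : T3) : Prop :=
  ky u + n = ky v → ∀ j, ¬ ins (h j) u → ins (h j) v → c j u v - Y u v ∈ V

theorem near_of (hL : ∀ j, Lev Q (h j) (c j))
    (tot : ∀ j j', Cmp Q (c j) (c j') ∨ Cmp Q (c j') (c j)) {V : Submodule K Ω} {n : ℕ}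
    (P : ∀ j j', Prd V (c j) (c j') n) {Y : T3 → T3 → Ω} {j : Fin 3} {u v : T3}
    (hu : ¬ ins (h j) u) (hv : ins (h j) v) (H : ky u + n = ky v → c j u v - Y u v ∈ V) :
    Near h c V n Y u v := by
  intro e j' hu' hv'
  rcases tot j j' with t | t
  · have := rel (k := 0) (hL j) (hL j') (P j j') hu id (fun _ => rfl) (fun _ e => e)
      ((hL j).bd v hv) hv' e
    rw [id, show ∑ w ∈ Q, c j u w * c j' (id w) v = c j' u v from (t u v).symm] at this
    simpa using add_mem this (H e)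
  · have := rel (k := 0) (hL j') (hL j) (P j' j) hu' id (fun _ => rfl) (fun _ e => e)
      ((hL j).bd v hv) hv e
    rw [id, show ∑ w ∈ Q, c j' u w * c j (id w) v = c j u v from (t u v).symm] at this
    simpa using sub_mem (H e) this

theorem near_links (hL : ∀ j, Lev Q (h j) (c j))
    (tot : ∀ j j', Cmp Q (c j) (c j') ∨ Cmp Q (c j') (c j)) {V : Submodule K Ω} {n : ℕ}
    (P : ∀ j j', Prd V (c j) (c j') n) {Y : T3 → T3 → Ω}
    (Y1 : ∀ j i u v, ¬ ins (h j) u → ins (h j) (stp i v) → Y (stp i u) (stp i v) = Y u v)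
    (Y2 : ∀ j i u v, ¬ ins (h j) u → ins (h j) v → (∀ m, stp i m ≠ v) → Y (stp i u) v = 0)
    (j : Fin 3) : Links (h j) (cur (Near h c V n Y)) := by
  refine (links_iff _ _).2 ⟨fun i u v hu hv => ?_, fun i u v hu hv h0 => ?_⟩
  · have hv0 : ins (h j) v := not_not.1 fun e => (hL j).up i v e hv
    have hu1 := (hL j).up i u hu
    have r : ky u + n = ky v → c j (stp i u) (stp i v) - c j u v ∈ V := fun e => by
      rw [(hL j).exp]
      exact rel (hL j) (hL j) (P j j) hu (stp i) (ky_stp i) (fun _ => stp_inj)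
        ((hL j).bd v hv0) hv e
    refine ⟨fun H => near_of hL tot P hu1 hv fun e => ?_,
      fun H => near_of hL tot P hu hv0 fun e => ?_⟩
    · change ky (stp i u) + n = ky (stp i v) at e
      change c j (stp i u) (stp i v) - Y (stp i u) (stp i v) ∈ V
      have e' : ky u + n = ky v := by rw [ky_stp, ky_stp] at e; omega
      rw [Y1 j i u v hu hv]
      simpa using add_mem (r e') (H e' j hu hv0)
    · change ky u + n = ky v at e
      change c j u v - Y u v ∈ V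
      have := H (show ky (stp i u) + n = ky (stp i v) by rw [ky_stp, ky_stp]; omega) j hu1 hv
      change c j (stp i u) (stp i v) - Y (stp i u) (stp i v) ∈ V at this
      rw [Y1 j i u v hu hv] at this
      simpa using sub_mem this (r e)
  · refine near_of hL tot P ((hL j).up i u hu) hv fun e => ?_
    change c j (stp i u) v - Y (stp i u) v ∈ V
    change ky (stp i u) + n = ky v at e
    rw [Y2 j i u v hu hv h0, sub_zero, (hL j).exp]
    exact sum_mem fun w _ => term (hL j) (hL j) (P j j) hu (ky_stp i w)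
      (by rw [← ky_stp]; exact e) (h0 w)

/-- The weight bound for gap `n`. -/
def thr (E n : ℕ) : ℕ := 8 * E * (n - 1) + 4 * E

theorem thr_add (E : ℕ) {a b : ℕ} (ha : 0 < a) (hb : 0 < b) :
    thr E a + thr E b + 4 * E = thr E (a + b) := by
  obtain ⟨a, rfl⟩ : ∃ a', a = a' + 1 := ⟨a - 1, by omega⟩
  obtain ⟨b, rfl⟩ : ∃ b', b = b' + 1 := ⟨b - 1, by omega⟩
  rw [thr, thr, thr, show a + 1 + (b + 1) - 1 = a + b + 1 by omega, Nat.add_sub_cancel,
    Nat.add_sub_cancel]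
  ring

open Classical in
/-- The value attached to the class of the pair `(u, v)`. -/
noncomputable def Yv (A : Finset ℕ) (X : ℕ → Pr) (z : ℕ → Ω) (u v : T3) : Ω :=
  ∑ a ∈ A, if ap (X a) u v then z a else 0

/-- Disjoint classes of pairs with chosen values. -/
structure Cls (h : Fin 3 → ℕ → ℕ → ℕ) (c : Fin 3 → T3 → T3 → Ω) (A : Finset ℕ) (X : ℕ → Pr)
    (γ : ℕ → ℕ) (z : ℕ → Ω) : Prop where
  links : ∀ a ∈ A, ∀ j, Links (h j) (Neg (X a))
  gap : ∀ a ∈ A, 0 < γ a ∧ ∀ u v, ap (X a) u v → ky u + γ a = ky v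
  disj : ∀ a ∈ A, ∀ b ∈ A, b ≠ a → ∀ u v, ap (X a) u v → ¬ ap (X b) u v
  seed : ∀ a ∈ A, ∃ u v j, ap (X a) u v ∧ ¬ ins (h j) u ∧ ins (h j) v ∧ z a = c j u v ∧
    ∀ G : Pr, (∀ j, Links (h j) G) → ap G u v → ∀ u' v', ap (X a) u' v' → ap G u' v'

variable {A : Finset ℕ} {X : ℕ → Pr} {γ : ℕ → ℕ} {z : ℕ → Ω}

theorem Yv_zero {u v : T3} (H : ∀ a ∈ A, ¬ ap (X a) u v) : Yv A X z u v = 0 :=
  sum_eq_zero fun a ha => if_neg (H a ha)

theorem Cls.Yv_eq (C : Cls h c A X γ z) {a : ℕ} (ha : a ∈ A) {u v : T3} (H : ap (X a) u v) :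
    Yv A X z u v = z a := by
  rw [Yv, sum_eq_single_of_mem a ha fun b hb e => if_neg (C.disj a ha b hb e u v H), if_pos H]

theorem Cls.Yv_le (C : Cls h c A X γ z) {u v : T3} (H : ky v ≤ ky u) : Yv A X z u v = 0 :=
  Yv_zero fun a ha e => by have := (C.gap a ha).1; have := (C.gap a ha).2 u v e; omega

theorem Cls.Yv_mem (C : Cls h c A X γ z) {Φ : ℕ → Submodule K Ω} {B : ℕ → ℕ}
    (hz : ∀ a ∈ A, z a ∈ Φ (B (γ a))) {u v : T3} {n : ℕ} (e : ky u + n = ky v) :
    Yv A X z u v ∈ Φ (B n) := by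
  by_cases H : ∃ a ∈ A, ap (X a) u v
  · obtain ⟨a, ha, H⟩ := H
    have := (C.gap a ha).2 u v H
    rw [C.Yv_eq ha H, show n = γ a by omega]
    exact hz a ha
  · rw [Yv_zero fun a ha e => H ⟨a, ha, e⟩]
    exact zero_mem _

theorem Cls.small (C : Cls h c A X γ z) (hL : ∀ j, Lev Q (h j) (c j)) {Φ : ℕ → Submodule K Ω}
    (mono : ∀ {m n x}, m ≤ n → x ∈ Φ m → x ∈ Φ n) {E : ℕ}
    (hz : ∀ a ∈ A, z a ∈ Φ (thr E (γ a) + (2 * E - 1))) {m : ℕ} (hm : 0 < m) {u v : T3}
    (H : Near h c (Φ (thr E m)) m (Yv A X z) u v) (e : ky u + m = ky v) (j : Fin 3) :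
    c j u v ∈ Φ (thr E m + (2 * E - 1)) := by
  by_cases hu : ins (h j) u
  · rw [(hL j).fix u v hu, if_neg (by rintro rfl; omega)]; exact zero_mem _
  by_cases hv : ins (h j) v
  · simpa using add_mem (mono (Nat.le_add_right _ (2 * E - 1)) (H e j hu hv))
      (C.Yv_mem (B := fun m => thr E m + (2 * E - 1)) hz e)
  · rw [(hL j).supp u v hv]; exact zero_mem _

theorem lin (hL : ∀ j, Lev Q (h j) (c j))
    (tot : ∀ j j', Cmp Q (c j) (c j') ∨ Cmp Q (c j') (c j)) (C : Cls h c A X γ z)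
    {Φ : ℕ → Submodule K Ω} (mul : ∀ {m n k x y}, x ∈ Φ m → y ∈ Φ n → m + n ≤ k → x * y ∈ Φ k)
    (mono : ∀ {m n x}, m ≤ n → x ∈ Φ m → x ∈ Φ n) {E : ℕ} (hE : 0 < E)
    (hz : ∀ a ∈ A, z a ∈ Φ (thr E (γ a) + (2 * E - 1))) {R : Finset (T3 × T3)}
    (hR : Roots (h 0) (h 1) (h 2) R)
    (hr : ∀ r ∈ R, (∀ a ∈ A, ¬ ap (X a) r.1 r.2) → ∀ j, ¬ ins (h j) r.1 → ins (h j) r.2 →
      ∃ j, ¬ ins (h j) r.1 ∧ ins (h j) r.2 ∧ c j r.1 r.2 ∈ Φ (thr E (ky r.2 - ky r.1)))
    (n : ℕ) : 0 < n → ∀ u v, Near h c (Φ (thr E n)) n (Yv A X z) u v := by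
  induction n using Nat.strong_induction_on with | _ n ih => ?_
  intro hn
  have sm : ∀ m < n, 0 < m → ∀ j u v, ky u + m = ky v → c j u v ∈ Φ (thr E m + (2 * E - 1)) :=
    fun m h1 h2 j u v e => C.small hL mono hz h2 (ih m h1 h2 u v) e j
  have P : ∀ j j', Prd (Φ (thr E n)) (c j) (c j') n := fun j j' u w u' w' h1 h2 h3 => by
    have := thr_add E (a := ky w - ky u) (b := ky w' - ky u') (by omega) (by omega)
    rw [show ky w - ky u + (ky w' - ky u') = n by omega] at this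
    exact mul (sm (ky w - ky u) (by omega) (by omega) j u w (by omega))
      (sm (ky w' - ky u') (by omega) (by omega) j' u' w' (by omega)) (by omega)
  have L := near_links hL tot P (Y := Yv A X z)
    (fun j i u v hu hv => sum_congr rfl fun a ha => by
      classical
      have := ((links_iff _ _).1 (C.links a ha j)).1 i u v hu hv
      exact if_congr (not_iff_not.1 this).symm rfl rfl)
    fun j i u v hu hv h0 => Yv_zero fun a ha => ((links_iff _ _).1 (C.links a ha j)).2 i u v hu hv h0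
  have main := hR _ (L 0) (L 1) (L 2)
    (fun p q s a b t h1 e => (h1 (by change key p q s + n = key a b t at e; omega)).elim)
    fun r hr' => by
      change Near h c (Φ (thr E n)) n (Yv A X z) r.1 r.2
      by_cases H : ∃ a ∈ A, ap (X a) r.1 r.2
      · obtain ⟨a, ha, H⟩ := H
        obtain ⟨u, v, j, s1, s2, s3, s4, s5⟩ := C.seed a ha
        refine s5 _ L (near_of hL tot P s2 s3 fun _ => ?_) _ _ H
        change c j u v - Yv A X z u v ∈ _
        rw [C.Yv_eq ha s1, s4, sub_self]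
        exact zero_mem _
      · intro e j hu hv
        have H' : ∀ a ∈ A, ¬ ap (X a) r.1 r.2 := fun a ha e => H ⟨a, ha, e⟩
        obtain ⟨j', a1, a2, a3⟩ := hr r hr' H' j hu hv
        refine near_of hL tot P a1 a2 (fun _ => ?_) e j hu hv
        rwa [Yv_zero H', sub_zero, show n = ky r.2 - ky r.1 by omega]
  intro u v e j hu hv
  have h2 : h j u.1 u.2.1 ≤ u.2.2 ∧ v.2.2 < h j v.1 v.2.1 := ⟨not_lt.1 hu, hv⟩
  exact main u.1 u.2.1 u.2.2 v.1 v.2.1 v.2.2 (by
    fin_cases j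
    exacts [Or.inl h2, Or.inr (Or.inl h2), Or.inr (Or.inr h2)]) e j hu hv

/-- Products of two coefficients with gaps adding to `n` agree with those of `Y` modulo `V`. -/
def Quad (V : Submodule K Ω) (g : ℕ → ℕ → ℕ) (c Y : T3 → T3 → Ω) (n : ℕ) : Prop :=
  ∀ u w u' w', ¬ ins g u → ins g w → ¬ ins g u' → ins g w' → ky u + ky u' + n = ky w + ky w' →
    c u w * c u' w' - Y u w * Y u' w' ∈ V

theorem Cls.quad (C : Cls h c A X γ z) (hL : ∀ j, Lev Q (h j) (c j)) {Φ : ℕ → Submodule K Ω}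
    (mul : ∀ {m n k x y}, x ∈ Φ m → y ∈ Φ n → m + n ≤ k → x * y ∈ Φ k)
    (mono : ∀ {m n x}, m ≤ n → x ∈ Φ m → x ∈ Φ n) {E : ℕ}
    (hz : ∀ a ∈ A, z a ∈ Φ (thr E (γ a) + (2 * E - 1)))
    (H : ∀ m, 0 < m → ∀ u v, Near h c (Φ (thr E m)) m (Yv A X z) u v) {a b : ℕ} (ha : 0 < a)
    (hb : 0 < b) (j : Fin 3) :
    Quad (Φ (thr E a + thr E b + (2 * E - 1))) (h j) (c j) (Yv A X z) (a + b) := by
  intro u w u' w' h1 h2 h3 h4 e
  by_cases l : ky w ≤ ky u
  · rw [not_not.1 fun x => ((hL j).lt u w h1 x).not_ge l, C.Yv_le l, zero_mul, zero_mul, sub_zero]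
    exact zero_mem _
  by_cases l' : ky w' ≤ ky u'
  · rw [not_not.1 fun x => ((hL j).lt u' w' h3 x).not_ge l', C.Yv_le l', mul_zero, mul_zero,
      sub_zero]
    exact zero_mem _
  obtain ⟨m, hm⟩ : ∃ m, ky u + m = ky w := ⟨ky w - ky u, by omega⟩
  obtain ⟨n, hn⟩ : ∃ n, ky u' + n = ky w' := ⟨ky w' - ky u', by omega⟩
  have t1 := thr_add E ha hb
  have t2 := thr_add E (a := m) (b := n) (by omega) (by omega)
  rw [show m + n = a + b by omega] at t2
  have := add_mem (mul (H m (by omega) u w hm j h1 h2)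
      (C.small hL mono hz (by omega) (H n (by omega) u' w') hn j)
      (show _ ≤ thr E a + thr E b + (2 * E - 1) by omega))
    (mul (C.Yv_mem (B := fun m => thr E m + (2 * E - 1)) hz hm) (H n (by omega) u' w' hn j h3 h4)
      (show thr E m + (2 * E - 1) + _ ≤ _ by omega))
  convert this using 1
  ring

end Pool.Agent.Lib.MP_ed43e6_ag.Q
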