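import Pool.Agent.Lib.MP_ed43e6_ag.Q.Hook

/-! The statements proved by the run files. -/

namespace Pool.Agent.Lib.MP_ed43e6_ag.Q

/-- Every key of the tree passes the test `f` with some table of certificates. -/
inductive Ok (f : BT → Nat → Bool) : KT → Prop where
  | leaf (b : BT) (t : KT) : t.all (f b) = true → Ok f t
  | br (p : Nat) (l r : KT) : Ok f l → Ok f r → Ok f (KT.br p l r)

noncomputable section

/-- The key of a flag that is left to the third layer. -/
def fkey (S N n H j i c : Nat) : Nat :=
  Nat.add (Nat.shiftLeft H 44) (Nat.add (Nat.add (Nat.add (Nat.shiftLeft S 40) (Nat.shiftLeft N 33))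
    (Nat.add (Nat.shiftLeft n 27) (Nat.shiftLeft j 20))) (Nat.add (Nat.shiftLeft i 13) c))

/-- The flag is in the list `fl`. -/
def l3k (fl : KT) (S N n H _z _Rm j i c _cert : Nat) : Bool := fl.has (fkey S N n H j i c)

/-- The first two layers at the job with key `k`. -/
def jb (M : Nat) (fl : KT) (b : BT) (k : Nat) : Bool := Fo.job M (Fo.chk (Bd.hook (l3k fl) b)) k

/-- The third layer at the flag with key `k`. -/
def jc (l3 : Nat → Nat → Nat → Nat → Nat → Nat → Nat → Nat → Nat → Nat → Bool) (b : BT)
    (k : Nat) : Bool :=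
  frc (Nat.shiftRight k 44) fun H => frc (Nat.land (Nat.shiftRight k 40) 15) fun S =>
    frc (Nat.land (Nat.shiftRight k 33) 127) fun N => frc (Nat.land (Nat.shiftRight k 27) 63) fun n =>
      frc (Nat.land (Nat.shiftRight k 20) 127) fun j =>
        frc (Nat.land (Nat.shiftRight k 13) 127) fun i => frc (Nat.land k 8191) fun c =>
          l3 S N n H (Bd.brd S N H) (Fo.rm S N H) j i c (b.find k)

end

end Pool.Agent.Lib.MP_ed43e6_ag.Q
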