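import Pool.Agent.Lib.MP_ed43e6_ag.Q.Ok
import Pool.Agent.Lib.MP_ed43e6_ag.Q.F2
import Pool.Agent.Lib.MP_ed43e6_ag.Q.L2F

/-! The fast version of the test made by the run files. -/

namespace Pool.Agent.Lib.MP_ed43e6_ag.Q

/-- The first two layers at the job with key `k`. -/
noncomputable def jb2 (M : Nat) (fl : KT) (b : BT) (k : Nat) : Bool :=
  F2.job M (Bd.XF.hook (l3k fl) b) k

end Pool.Agent.Lib.MP_ed43e6_ag.Q
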