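import Pool.Agent.Lib.MP_ed43e6_ag.Q.Ok
import Pool.Agent.Lib.MP_ed43e6_ag.Q.HookS
import Pool.Agent.Lib.MP_ed43e6_ag.Q.FoAll

/-! What the statements of the run files give. -/

namespace Pool.Agent.Lib.MP_ed43e6_ag.Q

open Finset N

theorem Ok.has {f : BT → ℕ → Bool} {t : KT} (h : Ok f t) {k : ℕ} (x : t.has k = true) :
    ∃ b, f b k = true := by
  induction h with
  | leaf b t e => exact ⟨b, KT.has_all t _ k x e⟩
  | br p l r _ _ il ir => exact (KT.has_br x).elim il ir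

theorem fkey_dec {S N n H j i c : ℕ} (hS : S < 16) (hN : N < 128) (hn : n < 64) (hj : j < 128)
    (hi : i < 128) (hc : c < 8192) {k : ℕ} (e : k = fkey S N n H j i c) :
    k / 2 ^ 44 = H ∧ k / 2 ^ 40 % 16 = S ∧ k / 2 ^ 33 % 128 = N ∧ k / 2 ^ 27 % 64 = n ∧
      k / 2 ^ 20 % 128 = j ∧ k / 2 ^ 13 % 128 = i ∧ k % 8192 = c := by
  have e' : k = H * 2 ^ 44 + (S * 2 ^ 40 + N * 2 ^ 33 + (n * 2 ^ 27 + j * 2 ^ 20) +
      (i * 2 ^ 13 + c)) := by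
    simp only [← Nat.shiftLeft_eq]
    exact e
  omega

theorem jc_eq (l3 : ℕ → ℕ → ℕ → ℕ → ℕ → ℕ → ℕ → ℕ → ℕ → ℕ → Bool) (b : BT) (k : ℕ) :
    jc l3 b k = l3 (k / 2 ^ 40 % 16) (k / 2 ^ 33 % 128) (k / 2 ^ 27 % 64) (k / 2 ^ 44)
      (Bd.brd (k / 2 ^ 40 % 16) (k / 2 ^ 33 % 128) (k / 2 ^ 44))
      (Fo.rm (k / 2 ^ 40 % 16) (k / 2 ^ 33 % 128) (k / 2 ^ 44))
      (k / 2 ^ 20 % 128) (k / 2 ^ 13 % 128) (k % 8192) (b.find k) := by
  have a4 : ∀ x, Nat.land x 15 = x % 16 := fun x => Nat.and_two_pow_sub_one_eq_mod x 4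
  have a6 : ∀ x, Nat.land x 63 = x % 64 := fun x => Nat.and_two_pow_sub_one_eq_mod x 6
  have a7 : ∀ x, Nat.land x 127 = x % 128 := fun x => Nat.and_two_pow_sub_one_eq_mod x 7
  have a13 : ∀ x, Nat.land x 8191 = x % 8192 := fun x => Nat.and_two_pow_sub_one_eq_mod x 13
  simp only [jc, frc_eq, a4, a6, a7, a13, Nat.shiftRight_eq', Nat.shiftRight_eq_div_pow]

variable {P : GP}

theorem l3k_sound {l3 : ℕ → ℕ → ℕ → ℕ → ℕ → ℕ → ℕ → ℕ → ℕ → ℕ → Bool} {fl : KT}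
    (h3 : Bd.L3Sound P l3) (h : Ok (jc l3) fl) : Bd.L3Sound P (l3k fl) := by
  intro g h0 h2 S N n H D C Rm d c z p0 q0 a1 b1 cert s _ e0 e1 B0 B2 bd x
  obtain ⟨b, e⟩ := h.has x
  obtain ⟨-, f1, -, f2, -⟩ := s.flag h0 h2 p0 q0 a1 b1 e0 e1 B0 B2
  have hs : size g ≤ 58 := by have := s.size_eq; have := s.n_le; omega
  have hN : N < 128 := by
    obtain ⟨-, u, k, -, v, rfl, -⟩ := s.fits
    have := Nat.mul_le_mul v u
    omega
  have hc := s.c_lt _ (Bd.lane_lt f1 (show S * a1 + b1 < N by omega))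
  obtain ⟨k1, k2, k3, k4, k5, k6, k7⟩ := fkey_dec (S := S) (n := n) (H := H)
    (by have := s.fits.2.1; omega) hN (by have := s.n_le; omega) (f1.trans hN)
    (show S * a1 + b1 < 128 by omega) (hc.trans (by omega)) rfl
  rw [jc_eq, k1, k2, k3, k4, k5, k6, k7] at e
  have hH : H = sm S N g := s.H_eq
  have X : Ctx g S N := ⟨s.bor, s.fits, by
    have := sum_le_size s.bor hs S N; have := s.size_eq; have := s.n_le; omega⟩
  have r : Fo.rm S N H = Rm := by rw [hH, X.rm_eq]; exact s.R_eq.symm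
  rw [r] at e
  exact h3 g h0 h2 S N n H D C Rm d c _ p0 q0 a1 b1 _ s (Bd.brd_isB s) e0 e1 B0 B2 bd e

theorem l3k_nil (P : GP) : Bd.L3Sound P (l3k KT.nil) := Bd.l3Sound_false P

theorem allGood_of_ok {M : ℕ} {fl t : KT} (hM : M ≤ 57) (hP : ∀ g D k, Gain g D k → P g D k)
    (h3 : Bd.L3Sound P (l3k fl)) (h : Ok (jb M fl) t) : AllGood (QP P) M t :=
  fun _ x => (h.has x).elim fun b e =>
    job_sound hM (chk_sound hM (fun _ _ => hP _ _ _ (gain_zero _ _)) (Bd.hook_sound hP h3 b)) e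

theorem checkP_of_ok {M : ℕ} {fl t : KT} (hM : M ≤ 57) (hP : ∀ g D k, Gain g D k → P g D k)
    (h3 : Bd.L3Sound P (l3k fl)) (h : Ok (jb M fl) t) (e : Fo.walk M t = true) : CheckP P M :=
  checkP_of_walk hM (allGood_of_ok hM hP h3 h) e

/-- The case without a third layer. -/
theorem checkQ_of_ok {M : ℕ} {t : KT} (hM : M ≤ 57) (h : Ok (jb M KT.nil) t)
    (e : Fo.walk M t = true) : CheckQ M :=
  (checkP_gain M).1 (checkP_of_ok hM (fun _ _ _ x => x) (l3k_nil _) h e)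

end Pool.Agent.Lib.MP_ed43e6_ag.Q
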