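import Pool.Agent.Lib.MP_ed43e6_ag.Q.Ok2
import Pool.Agent.Lib.MP_ed43e6_ag.Q.OkS
import Pool.Agent.Lib.MP_ed43e6_ag.Q.L2I

/-! What the fast test gives. -/

namespace Pool.Agent.Lib.MP_ed43e6_ag.Q

open N

variable {P : GP}

theorem allGood_of_ok2 {M : ℕ} {fl t : KT} (hM : M ≤ 57) (hP : ∀ g D k, Gain g D k → P g D k)
    (h3 : Bd.L3Sound P (l3k fl)) (h : Ok (jb2 M fl) t) : AllGood (QP P) M t :=
  fun _ x => (h.has x).elim fun b e =>
    job_sound hM (chk_sound hM (fun _ _ => hP _ _ _ (gain_zero _ _)) (Bd.XF.hook_sound hP h3 b))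
      (F2.job_eq M _ ▸ e)

theorem checkP_of_ok2 {M : ℕ} {fl t : KT} (hM : M ≤ 57) (hP : ∀ g D k, Gain g D k → P g D k)
    (h3 : Bd.L3Sound P (l3k fl)) (h : Ok (jb2 M fl) t) (e : Fo.walk M t = true) : CheckP P M :=
  checkP_of_walk hM (allGood_of_ok2 hM hP h3 h) e

end Pool.Agent.Lib.MP_ed43e6_ag.Q
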