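import Pool.Agent.Lib.MP_ed43e6_ag.Q.Lin

/-! The quadratic relation attached to a dual class. -/

namespace Pool.Agent.Lib.MP_ed43e6_ag.Q

open Finset N Matrix

universe u

theorem cyc {ι R : Type*} [Fintype ι] [DecidableEq ι] [CommRing R] (N P C : Fin 3 → Matrix ι ι R)
    (hM : ∀ i k, (P i + C i) * (P k + C k) = (P k + C k) * (P i + C i))
    (hP : ∀ i k, P i * P k = P k * P i)
    (hN : ∀ i k, N i * P k + P i * N k = N k * P i + P k * N i) :
    ∑ i : Fin 3, (trace (N i * C (i + 2) * C (i + 1)) - trace (N i * C (i + 1) * C (i + 2))) = 0 := by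
  have h1 : ∀ i j k, trace (N i * P j * C k) + trace (P k * N i * C j) + trace (N i * C j * C k) =
      trace (N i * P k * C j) + trace (P j * N i * C k) + trace (N i * C k * C j) := fun i j k => by
    have e := hM j k
    simp only [add_mul, mul_add] at e
    rw [hP j k, add_assoc, add_assoc, add_left_cancel_iff] at e
    have e' := congrArg (fun x => trace (N i * x)) e
    simp only [mul_add, trace_add, ← mul_assoc] at e'
    rw [trace_mul_cycle (N i) (C j) (P k), trace_mul_cycle (N i) (C k) (P j)] at e'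
    linear_combination e'
  have h2 : ∀ i k j, trace (N i * P k * C j) + trace (P i * N k * C j) =
      trace (N k * P i * C j) + trace (P k * N i * C j) := fun i k j => by
    rw [← trace_add, ← add_mul, hN, add_mul, trace_add]
  rw [Fin.sum_univ_three]
  change trace (N 0 * C 2 * C 1) - trace (N 0 * C 1 * C 2) +
    (trace (N 1 * C 0 * C 2) - trace (N 1 * C 2 * C 0)) +
    (trace (N 2 * C 1 * C 0) - trace (N 2 * C 0 * C 1)) = 0
  linear_combination (h2 0 1 2 + h2 1 2 0 + h2 2 0 1) - (h1 0 1 2 + h1 1 2 0 + h1 2 0 1)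

variable {K Ω : Type u} [Field K] [Field Ω] [Algebra K Ω] {Q : Finset T3}

/-- The matrix of a table. -/
def mk (Q : Finset T3) (f : T3 → T3 → Ω) : Matrix Q Q Ω := Matrix.of fun w v => f w v

theorem mk_mul (f g : T3 → T3 → Ω) :
    mk Q f * mk Q g = mk Q fun w v => ∑ m ∈ Q, f w m * g m v := by
  ext w v
  exact sum_coe_sort Q fun m => f w m * g m v

theorem mk_add (f g : T3 → T3 → Ω) : mk Q f + mk Q g = mk Q fun w v => f w v + g w v := rfl

/-- The sum over closed walks of length three. -/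
def trq (Q : Finset T3) (n a b : T3 → T3 → Ω) : Ω :=
  ∑ x ∈ Q ×ˢ Q ×ˢ Q, n x.1 x.2.1 * b x.2.1 x.2.2 * a x.2.2 x.1

theorem trace_mk (n a b : T3 → T3 → Ω) : trace (mk Q n * mk Q b * mk Q a) = trq Q n a b := by
  rw [mk_mul, mk_mul, trq, sum_product]
  refine (sum_coe_sort Q fun w => ∑ m ∈ Q, (∑ v ∈ Q, n w v * b v m) * a m w).trans
    (sum_congr rfl fun w _ => ?_)
  rw [sum_product, sum_comm]
  exact sum_congr rfl fun m _ => sum_mul ..

open Classical in
/-- The moves that stay inside the staircase. -/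
noncomputable def Pf (g : ℕ → ℕ → ℕ) (i : Fin 3) (w v : T3) : Ω :=
  if stp i w = v ∧ ins g v then 1 else 0

open Classical in
/-- The moves that leave the staircase. -/
noncomputable def Cf (g : ℕ → ℕ → ℕ) (c : T3 → T3 → Ω) (i : Fin 3) (w v : T3) : Ω :=
  if ins g w ∧ ¬ ins g (stp i w) then c (stp i w) v else 0

open Classical in
/-- The moves given by a class of pairs. -/
noncomputable def Nf (g : ℕ → ℕ → ℕ) (N : Pr) (i : Fin 3) (w v : T3) : Ω :=
  if Arr g N i w v ∧ ins g v then 1 else 0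

variable {g : ℕ → ℕ → ℕ} {c : T3 → T3 → Ω}

open Classical in
theorem Pf_left (h : Lev Q g c) (f : T3 → T3 → Ω) (i : Fin 3) (w v : T3) :
    ∑ m ∈ Q, Pf g i w m * f m v = if ins g (stp i w) then f (stp i w) v else 0 := by
  split_ifs with e
  · rw [sum_eq_single_of_mem _ (h.bd _ e) fun m _ x => by
      rw [Pf, if_neg fun y => x y.1.symm, zero_mul], Pf, if_pos ⟨rfl, e⟩, one_mul]
  · exact sum_eq_zero fun m _ => by
      rw [Pf, if_neg (by rintro ⟨rfl, y⟩; exact e y), zero_mul]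

open Classical in
theorem Nf_right (h : Lev Q g c) {N : Pr} (hN : Links g (Neg N)) (i k : Fin 3) (w v : T3) :
    ∑ m ∈ Q, Nf g N i w m * Pf g k m v = if ins g w ∧ ¬ ins g (stp i w) ∧ ins g v ∧
      ap N (stp k (stp i w)) v then (1 : Ω) else 0 := by
  obtain ⟨l1, l2⟩ := (links_iff _ _).1 hN
  by_cases hv : ins g v
  · by_cases e : ∃ m, stp k m = v
    · obtain ⟨m, rfl⟩ := e
      have hm : ins g m := not_not.1 fun x => h.up k m x hv
      rw [sum_eq_single_of_mem _ (h.bd _ hm) fun m' _ x => by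
        rw [Pf, if_neg fun y => x (stp_inj y.1), mul_zero], Pf, if_pos ⟨rfl, hv⟩, mul_one, Nf]
      exact if_congr ⟨fun x => ⟨x.1.1, x.1.2.1, hv,
        (not_iff_not.1 (l1 k _ _ x.1.2.1 hv)).1 x.1.2.2⟩, fun x => ⟨⟨x.1, x.2.1,
        (not_iff_not.1 (l1 k _ _ x.2.1 hv)).2 x.2.2.2⟩, hm⟩⟩ rfl rfl
    · rw [if_neg fun x => l2 k _ v x.2.1 hv (fun m y => e ⟨m, y⟩) x.2.2.2]
      exact sum_eq_zero fun m _ => by rw [Pf, if_neg fun y => e ⟨m, y.1⟩, mul_zero]
  · rw [if_neg fun x => hv x.2.2.1]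
    exact sum_eq_zero fun m _ => by rw [Pf, if_neg fun y => hv y.2, mul_zero]

theorem row_zero (h : Lev Q g c) {N : Pr} (hN : Links g (Neg N)) :
    ∑ i : Fin 3, (trq Q (Nf g N i) (Cf g c (i + 1)) (Cf g c (i + 2)) -
      trq Q (Nf g N i) (Cf g c (i + 2)) (Cf g c (i + 1))) = 0 := by
  classical
  have down : ∀ {i w}, ins g (stp i w) → ins g w := fun {i w} x => not_not.1 fun y => h.up i w y x
  simp only [← trace_mk]
  refine cyc (fun i => mk Q (Nf g N i)) (fun i => mk Q (Pf g i)) (fun i => mk Q (Cf g c i))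
    (fun i k => ?_) (fun i k => ?_) fun i k => ?_
  · have e : ∀ i, mk Q (Pf g i) + mk Q (Cf g c i) =
        mk Q fun w v => if ins g w then c (stp i w) v else 0 := fun i => by
      rw [mk_add]
      congr 1
      funext w v
      rw [Pf, Cf]
      by_cases a : ins g (stp i w)
      · rw [if_neg (fun x : _ ∧ ¬ _ => x.2 a), if_pos (down a), add_zero, h.fix _ _ a]
        exact if_congr ⟨fun x => x.1, fun x => ⟨x, x ▸ a⟩⟩ rfl rfl
      · rw [if_neg (by rintro ⟨rfl, y⟩; exact a y), zero_add]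
        exact if_congr ⟨fun x => x.1, fun x => ⟨x, a⟩⟩ rfl rfl
    have e' : ∀ i k w v, ∑ m ∈ Q, (if ins g w then c (stp i w) m else 0) *
        (if ins g m then c (stp k m) v else 0) =
        if ins g w then c (stp k (stp i w)) v else 0 := fun i k w v => by
      split_ifs with a
      · rw [h.exp k]
        refine sum_congr rfl fun m _ => ?_
        split_ifs with b
        · rfl
        · rw [h.supp _ m b, zero_mul, zero_mul]
      · simp
    rw [e, e, mk_mul, mk_mul]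
    congr 1
    funext w v
    rw [e', e', stp_comm]
  · rw [mk_mul, mk_mul]
    congr 1
    funext w v
    have e : ∀ i k, ∑ m ∈ Q, Pf g i w m * Pf g k m v = (Pf g k (stp i w) v : Ω) := fun i k => by
      rw [Pf_left h]
      split_ifs with a
      · rfl
      · rw [Pf, if_neg fun x => a (down (x.1 ▸ x.2))]
    rw [e, e, Pf, Pf, stp_comm]
  · have e : ∀ i k, mk Q (Nf g N i) * mk Q (Pf g k) + mk Q (Pf g i) * mk Q (Nf g N k) =
        mk Q fun w v => if ins g w ∧ ¬ ins g (stp k (stp i w)) ∧ ins g v ∧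
          ap N (stp k (stp i w)) v then (1 : Ω) else 0 := fun i k => by
      rw [mk_mul, mk_mul, mk_add]
      congr 1
      funext w v
      rw [Nf_right h hN, Pf_left h]
      by_cases a : ins g (stp i w)
      · rw [if_neg fun x => x.2.1 a, if_pos a, zero_add, Nf]
        exact if_congr ⟨fun x => ⟨down a, x.1.2.1, x.2, x.1.2.2⟩,
          fun x => ⟨⟨a, x.2.1, x.2.2.2⟩, x.2.2.1⟩⟩ rfl rfl
      · rw [if_neg a, add_zero]
        exact if_congr ⟨fun x => ⟨x.1, h.up k _ a, x.2.2⟩, fun x => ⟨x.1, a, x.2.2⟩⟩ rfl rfl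
    rw [e, e]
    simp only [stp_comm i k]

theorem trq_sub {V : Submodule K Ω} {Y : T3 → T3 → Ω} {n : ℕ} (H : Quad V g c Y n) {N : Pr}
    (gN : ∀ u v, ap N u v → ky v + n + key 1 1 1 = ky u) {i j k : Fin 3}
    (e : kp i + kp j + kp k = key 1 1 1) :
    trq Q (Nf g N i) (Cf g c j) (Cf g c k) - trq Q (Nf g N i) (Cf g Y j) (Cf g Y k) ∈ V := by
  rw [trq, trq, ← sum_sub_distrib]
  refine sum_mem fun x _ => ?_
  obtain ⟨w, v, m⟩ := x
  simp only [Nf, Cf]
  split_ifs with a b d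
  · rw [one_mul, one_mul]
    have := gN _ _ a.1.2.2
    exact H _ _ _ _ b.2 d.1 d.2 a.1.1 (by rw [ky_stp] at this; rw [ky_stp, ky_stp]; omega)
  all_goals simp

variable {A : Finset ℕ} {X : ℕ → Pr} {z : ℕ → Ω}

theorem trq_Yv (N : Pr) (i j k : Fin 3) :
    trq cube (Nf g N i) (Cf g (Yv A X z) j) (Cf g (Yv A X z) k) =
      ∑ a ∈ A, ∑ b ∈ A, (tr3 g N (X a) (X b) i j k : Ω) * (z a * z b) := by
  classical
  have e : ∀ i w v, Cf g (Yv A X z) i w v = ∑ a ∈ A, if Arr g (X a) i w v then z a else 0 := by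
    intro i w v
    rw [Cf]
    split_ifs with a
    · exact sum_congr rfl fun b _ => if_congr ⟨fun x => ⟨a.1, a.2, x⟩, fun x => x.2.2⟩ rfl rfl
    · exact (sum_eq_zero fun b _ => if_neg fun x => a ⟨x.1, x.2.1⟩).symm
  unfold tr3
  generalize cube = Q
  simp only [trq, e, card_filter, Nat.cast_sum, sum_mul, mul_sum]
  rw [sum_comm]
  refine sum_congr rfl fun a _ => ?_
  rw [sum_comm]
  refine sum_congr rfl fun b _ => sum_congr rfl fun x _ => ?_
  rw [Nf]
  by_cases h1 : Arr g (X b) k x.2.1 x.2.2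
  · by_cases h2 : Arr g (X a) j x.2.2 x.1
    · by_cases h3 : Arr g N i x.1 x.2.1
      · simp [h1, h2, h3, h1.1, mul_comm]
      · simp [h3]
    · simp [h2]
  · simp [h1]

theorem row_mem (h : Lev cube g c) {V : Submodule K Ω} {n : ℕ} (H : Quad V g c (Yv A X z) n)
    {N : Pr} (hN : Links g (Neg N)) (gN : ∀ u v, ap N u v → ky v + n + key 1 1 1 = ky u) :
    ∑ a ∈ A, ∑ b ∈ A, (coef g N (X a) (X b) : Ω) * (z a * z b) ∈ V := by
  have h1 := sum_mem (t := univ) fun (i : Fin 3) _ => sub_mem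
    (trq_sub (Q := cube) H gN (i := i) (j := i + 2) (k := i + 1) (by have := kp_sum i; omega))
    (trq_sub (Q := cube) H gN (kp_sum i))
  have h2 := row_zero h hN
  have h3 : ∑ a ∈ A, ∑ b ∈ A, (coef g N (X a) (X b) : Ω) * (z a * z b) =
      ∑ i : Fin 3, (trq cube (Nf g N i) (Cf g (Yv A X z) (i + 1)) (Cf g (Yv A X z) (i + 2)) -
        trq cube (Nf g N i) (Cf g (Yv A X z) (i + 2)) (Cf g (Yv A X z) (i + 1))) := by
    simp only [trq_Yv, coef, Int.cast_sum, Int.cast_sub, Int.cast_natCast, sum_mul, sub_mul,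
      ← sum_sub_distrib]
    exact (sum_congr rfl fun a _ => sum_comm).trans sum_comm
  have h4 := add_mem h1 (h2 ▸ V.zero_mem)
  rw [← sum_add_distrib] at h4
  rw [h3]
  convert h4 using 2
  ring

theorem coef_zero {N A B : Pr} {n α β : ℕ} (gN : ∀ u v, ap N u v → ky v + n + key 1 1 1 = ky u)
    (gA : ∀ u v, ap A u v → ky u + α = ky v) (gB : ∀ u v, ap B u v → ky u + β = ky v)
    (hne : α + β ≠ n) : coef g N A B = 0 := by
  have e : ∀ i j k, kp i + kp j + kp k = key 1 1 1 → tr3 g N A B i j k = 0 := fun i j k e => by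
    classical
    unfold tr3
    generalize cube = Q
    refine card_eq_zero.2 (filter_eq_empty_iff.2 fun x _ y => hne ?_)
    have a1 := gN _ _ y.1.2.2
    have a2 := gB _ _ y.2.1.2.2
    have a3 := gA _ _ y.2.2.2.2
    rw [ky_stp] at a1 a2 a3
    omega
  refine sum_eq_zero fun i _ => ?_
  rw [e _ _ _ (kp_sum i), e _ _ _ (by have := kp_sum i; omega), sub_self]

variable {h : Fin 3 → ℕ → ℕ → ℕ} {c : Fin 3 → T3 → T3 → Ω}

theorem sym_comm (row : List (Fin 3 × ℤ × Pr)) (A B : Pr) : sym h row A B = sym h row B A := by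
  simp only [sym, add_comm]

theorem sym_zero {row : List (Fin 3 × ℤ × Pr)} {A B : Pr} {n α β : ℕ}
    (gN : ∀ e ∈ row, ∀ u v, ap e.2.2 u v → ky v + n + key 1 1 1 = ky u)
    (gA : ∀ u v, ap A u v → ky u + α = ky v) (gB : ∀ u v, ap B u v → ky u + β = ky v)
    (hne : α + β ≠ n) : sym h row A B = 0 := by
  refine List.sum_eq_zero fun x hx => ?_
  obtain ⟨e, he, rfl⟩ := List.mem_map.1 hx
  rw [coef_zero (gN e he) gA gB hne, coef_zero (gN e he) gB gA (by omega), add_zero, mul_zero]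

theorem sym_mem (hL : ∀ j, Lev cube (h j) (c j)) {V : Submodule K Ω} {n : ℕ}
    (H : ∀ j, Quad V (h j) (c j) (Yv A X z) n) (row : List (Fin 3 × ℤ × Pr))
    (hr : ∀ e ∈ row, Links (h e.1) (Neg e.2.2) ∧
      ∀ u v, ap e.2.2 u v → ky v + n + key 1 1 1 = ky u) :
    ∑ a ∈ A, ∑ b ∈ A, (sym h row (X a) (X b) : Ω) * (z a * z b) ∈ V := by
  induction row with
  | nil => simp [sym]
  | cons e row ih =>
    have h1 := row_mem (hL e.1) (H e.1) (hr e List.mem_cons_self).1 (hr e List.mem_cons_self).2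
    have h2 := h1
    rw [sum_comm] at h2
    have h3 := add_mem (zsmul_mem (add_mem h1 h2) e.2.1)
      (ih fun x hx => hr x (List.mem_cons_of_mem _ hx))
    simp only [zsmul_eq_mul, ← sum_add_distrib, mul_sum] at h3
    convert h3 using 3
    simp only [sym, List.map_cons, List.sum_cons]
    push_cast
    ring

theorem int_cancel {V : Submodule K Ω} {n : ℤ} (hn : (n : Ω) ≠ 0) {x : Ω} (H : n * x ∈ V) :
    x ∈ V := by
  have h1 : (n : K) ≠ 0 := fun e => hn (by rw [← map_intCast (algebraMap K Ω), e, map_zero])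
  have := V.smul_mem (n : K)⁻¹ H
  rwa [← zsmul_eq_mul, ← Int.cast_smul_eq_zsmul K, inv_smul_smul₀ h1] at this

theorem edge_drop (hL : ∀ j, Lev cube (h j) (c j)) {γ η : ℕ → ℕ} (C : Cls h c A X γ z)
    {Φ : ℕ → Submodule K Ω} (mul : ∀ {m n k x y}, x ∈ Φ m → y ∈ Φ n → m + n ≤ k → x * y ∈ Φ k)
    (mono : ∀ {m n x}, m ≤ n → x ∈ Φ m → x ∈ Φ n) {E : ℕ} (hE : ∀ a ∈ A, η a < E)
    (hz : ∀ a ∈ A, z a ∈ Φ (thr E (γ a) + E + η a))
    (H : ∀ m, 0 < m → ∀ u v, Near h c (Φ (thr E m)) m (Yv A X z) u v) {D : ℕ} (hD : 2 ≤ D)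
    (ch : ∀ i : ℕ, 0 < i → i ≤ D → (i : Ω) ≠ 0) {a b : ℕ} (ha : a ∈ A) (hb : b ∈ A)
    (e : Edge h D A X γ η a b) :
    z a * z b ∈ Φ (thr E (γ a) + E + η a + (thr E (γ b) + E + η b) - 1) := by
  obtain ⟨row, r1, r2, r3, r4⟩ := e
  have Ea := hE a ha
  have h1 := mono (show _ ≤ thr E (γ a) + E + η a + (thr E (γ b) + E + η b) - 1 by omega)
    (sym_mem hL (C.quad hL mul mono (fun x hx => mono (by have := hE x hx; omega) (hz x hx)) H
      (C.gap a ha).1 (C.gap b hb).1) row r1)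
  rw [← sum_product'] at h1
  have sub : {(a, b), (b, a)} ⊆ A ×ˢ A := by
    simp [insert_subset_iff, ha, hb]
  rw [← sum_sdiff sub] at h1
  have h2 := (Submodule.add_mem_iff_right _ (sum_mem fun x hx => ?_)).1 h1
  · have s0 : ((sym h row (X a) (X b) : ℤ) : Ω) ≠ 0 := by
      have := ch _ (Int.natAbs_pos.2 r2) r3
      rcases Int.natAbs_eq (sym h row (X a) (X b)) with y | y <;> rw [y] <;> simpa using this
    by_cases ab : a = b
    · subst ab
      rw [pair_eq_singleton, sum_singleton] at h2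
      exact int_cancel s0 h2
    · rw [sum_pair (by simp [ab])] at h2
      refine int_cancel (n := 2 * sym h row (X a) (X b)) ?_ ?_
      · push_cast
        exact mul_ne_zero (by simpa using ch 2 two_pos hD) s0
      · convert h2 using 1
        rw [sym_comm row (X b)]
        push_cast
        ring
  · obtain ⟨x1, x2⟩ := mem_sdiff.1 hx
    obtain ⟨y1, y2⟩ := mem_product.1 x1
    by_cases s0 : sym h row (X x.1) (X x.2) = 0
    · rw [s0, Int.cast_zero, zero_mul]; exact zero_mem _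
    have g1 : γ x.1 + γ x.2 = γ a + γ b := not_not.1 fun y =>
      s0 (sym_zero (fun e he => (r1 e he).2) (C.gap _ y1).2 (C.gap _ y2).2 y)
    have t1 := thr_add E (C.gap _ y1).1 (C.gap _ y2).1
    have t2 := thr_add E (C.gap _ ha).1 (C.gap _ hb).1
    rw [g1] at t1
    rcases r4 _ y1 _ y2 with y | y | y | y
    · exact (x2 (mem_insert.2 (Or.inl (Prod.ext y.1 y.2)))).elim
    · exact (x2 (mem_insert.2 (Or.inr (mem_singleton.2 (Prod.ext y.1 y.2))))).elim
    · exact (s0 y).elim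
    · rw [← zsmul_eq_mul]
      exact zsmul_mem (mul (hz _ y1) (hz _ y2) (by omega)) _

end Pool.Agent.Lib.MP_ed43e6_ag.Q
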