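import Pool.Agent.Lib.MP_ed43e6_ag.Q.Row
import Pool.Agent.Lib.MP_ed43e6_ag.Q.Fil

/-! The normal form coefficients of a chain of three ideals are algebraic over few elements. -/

namespace Pool.Agent.Lib.MP_ed43e6_ag.Q

open MvPolynomial Finset N

universe u

theorem Cls.count {Ω : Type u} [Field Ω] {h : Fin 3 → ℕ → ℕ → ℕ} {c : Fin 3 → T3 → T3 → Ω}
    {A : Finset ℕ} {X : ℕ → Pr} {γ : ℕ → ℕ} {z : ℕ → Ω} (C : Cls h c A X γ z)
    {R U : Finset (T3 × T3)} (hR : Roots (h 0) (h 1) (h 2) R) (hU : U ⊆ R)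
    (hU' : ∀ r ∈ U, ∀ a ∈ A, ¬ ap (X a) r.1 r.2) : U.card + A.card ≤ R.card := by
  classical
  have ex : ∀ a ∈ A, ∃ r ∈ R, ap (X a) r.1 r.2 := fun a ha => by
    by_contra H
    obtain ⟨u, v, j, s1, s2, s3, -⟩ := C.seed a ha
    have h2 : h j u.1 u.2.1 ≤ u.2.2 ∧ v.2.2 < h j v.1 v.2.1 := ⟨not_lt.1 s2, s3⟩
    refine hR (Neg (X a)) (C.links a ha 0) (C.links a ha 1) (C.links a ha 2)
      (fun p q s a' b t h1 e => h1 ?_) (fun r hr e => H ⟨r, hr, e⟩)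
      u.1 u.2.1 u.2.2 v.1 v.2.1 v.2.2 (by
        fin_cases j
        exacts [Or.inl h2, Or.inr (Or.inl h2), Or.inr (Or.inr h2)]) s1
    have h3 : key p q s + γ a = key a' b t := (C.gap a ha).2 (p, q, s) (a', b, t) e
    have := (C.gap a ha).1
    omega
  choose! ρ r1 r2 using ex
  have h1 : A.card ≤ (R \ U).card := card_le_card_of_injOn ρ
    (fun a ha => mem_coe.2 (mem_sdiff.2 ⟨r1 a ha, fun e => hU' _ e a ha (r2 a ha)⟩))
    fun a ha b hb e => not_not.1 fun x => C.disj b hb a ha x _ _ (r2 b hb) (e ▸ r2 a ha)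
  have h2 := card_sdiff_add_card_eq_card hU
  omega

theorem levels {Ω : Type u} [Field Ω] (Q : Finset T3) {I : Fin 3 → Ideal (SS Ω)}
    {lam : Fin 3 → Finset (Fin 3 →₀ ℕ)} {nf : Fin 3 → SS Ω →ₗ[Ω] SS Ω} {h : Fin 3 → ℕ → ℕ → ℕ}
    (h01 : I 0 ≤ I 1) (h12 : I 1 ≤ I 2) (hN : ∀ j, NF (I j) (lam j) (nf j))
    (hg : ∀ j u, mo u ∈ lam j ↔ ins (h j) u) (hQ : ∀ j u, ins (h j) u → u ∈ Q) :
    (∀ j, Lev Q (h j) (tab (nf j))) ∧
      ∀ j j', Cmp Q (tab (nf j)) (tab (nf j')) ∨ Cmp Q (tab (nf j')) (tab (nf j)) := by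
  have tot : ∀ j j', I j ≤ I j' ∨ I j' ≤ I j := by
    have := h01.trans h12
    intro j j'
    fin_cases j <;> fin_cases j' <;> simp [*]
  exact ⟨fun j => lev_tab (hN j) (hg j) (hQ j), fun j j' => (tot j j').imp
    (fun e => cmp_tab (hN j) (hN j') e fun u x => hQ j u ((hg j u).1 x))
    fun e => cmp_tab (hN j') (hN j) e fun u x => hQ j' u ((hg j' u).1 x)⟩

theorem secondStmt : SecondStmt.{u} := by
  classical
  rintro K Ω _ _ _ D hD ch I lam nf h h01 h12 hN hh hb R hR k ⟨A, X, γ, η, α, V, hk⟩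
  obtain ⟨hL, tot⟩ := levels cube h01 h12 hN (fun j u => hh j _ _ _) fun j u e => by
    simp only [cube, mem_product, mem_range]
    exact hb j _ _ _ e
  choose! su sv s1 s2 s3 s4 using V.seed
  choose! sj s2 s2' using s2
  obtain ⟨z, hz⟩ : ∃ z : ℕ → Ω, ∀ a, z a = tab (nf (sj a)) (su a) (sv a) := ⟨_, fun _ => rfl⟩
  have C : Cls h (fun j => tab (nf j)) A X γ z :=
    ⟨V.links, V.gap, fun a ha b hb e u v x =>
      s4 a ha (Neg (X b)) (V.links b hb) (s3 a ha b hb e) u v x,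
      fun a ha => ⟨_, _, _, s1 a ha, s2 a ha, s2' a ha, hz a, s4 a ha⟩⟩
  have : ∀ r : T3 × T3, ∃ j₀, ∀ j, ¬ ins (h j) r.1 → ins (h j) r.2 →
      ¬ ins (h j₀) r.1 ∧ ins (h j₀) r.2 := fun r => by
    by_cases e : ∃ j, ¬ ins (h j) r.1 ∧ ins (h j) r.2
    · exact e.imp fun _ a _ _ _ => a
    · exact ⟨0, fun j a b => (e ⟨j, a, b⟩).elim⟩
  choose lev hlev using this
  obtain ⟨E, E0, hE⟩ : ∃ E, 0 < E ∧ ∀ a ∈ A, η a < E :=
    ⟨A.sup η + 1, Nat.succ_pos _, fun a ha => Nat.lt_succ_of_le (le_sup ha)⟩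
  obtain ⟨U, hU⟩ : ∃ U : Finset (T3 × T3), ∀ r, r ∈ U ↔ r ∈ R ∧ ∀ a ∈ A, ¬ ap (X a) r.1 r.2 :=
    ⟨R.filter _, fun _ => mem_filter⟩
  have cnt := C.count hR (U := U) (fun r e => ((hU r).1 e).1) fun r e => ((hU r).1 e).2
  let y : (T3 × T3) ⊕ ℕ → Ω := Sum.elim (fun r => tab (nf (lev r)) r.1 r.2) z
  let ω : (T3 × T3) ⊕ ℕ → ℕ :=
    Sum.elim (fun r => thr E (ky r.2 - ky r.1)) fun a => thr E (γ a) + E + η a
  let Φ := Fil K y ω (U.disjSum A)
  have mono : ∀ {m n x}, m ≤ n → x ∈ Φ m → x ∈ Φ n := fun a b => Fil.mono a b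
  have hz1 : ∀ a ∈ A, z a ∈ Φ (thr E (γ a) + E + η a) := fun a ha =>
    Fil.gen (i := Sum.inr a) (inr_mem_disjSum.2 ha)
  have hz2 : ∀ a ∈ A, z a ∈ Φ (thr E (γ a) + (2 * E - 1)) := fun a ha =>
    Fil.mono (by have := hE a ha; omega) (hz1 a ha)
  have H := lin hL tot C (Φ := Φ) Fil.mul' mono E0 hz2 hR fun r hr a j b c =>
    ⟨lev r, (hlev r j b c).1, (hlev r j b c).2,
      Fil.gen (i := Sum.inl r) (inl_mem_disjSum.2 ((hU r).2 ⟨hr, a⟩))⟩
  have sub : A.map Function.Embedding.inr ⊆ U.disjSum A := fun i hi => by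
    obtain ⟨a, ha, rfl⟩ := mem_map.1 hi
    exact inr_mem_disjSum.2 ha
  obtain ⟨S, S1, S2⟩ := Fil.alg (K := K) (y := y) (ω := ω) (J := U.disjSum A)
    (fun i _ => by
      rcases i with r | a
      · change 0 < thr E _
        unfold thr
        omega
      · change 0 < thr E _ + E + _
        omega) _ sub α fun T hT hc => by
      obtain ⟨T, t1, rfl⟩ := subset_map_iff.1 hT
      rw [card_map] at hc
      obtain ⟨a, ha, b, hb, e⟩ := V.indep T t1 hc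
      exact ⟨_, mem_map_of_mem _ ha, _, mem_map_of_mem _ hb,
        edge_drop hL C (Φ := Φ) Fil.mul' mono hE hz1 H hD ch (t1 ha) (t1 hb) e⟩
  rw [card_sdiff_of_subset sub, card_disjSum, card_map, Nat.add_sub_cancel] at S1
  refine ⟨S, by omega, fun j u v => ?_⟩
  rw [← mo_un u, ← mo_un v]
  generalize un u = u
  generalize un v = v
  change IsAlgebraic _ (tab (nf j) u v)
  by_cases l : ky u < ky v
  · exact S2 _ _ (C.small hL (Φ := Φ) mono hz2 (m := ky v - ky u) (by omega)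
      (H _ (by omega) u v) (by omega) j)
  by_cases e : u = v
  · subst e
    by_cases hu : ins (h j) u
    · rw [(hL j).fix u u hu, if_pos rfl]; exact isAlgebraic_one
    · rw [(hL j).supp u u hu]; exact isAlgebraic_zero
  · rw [(hL j).zero e (not_lt.1 l)]; exact isAlgebraic_zero

end Pool.Agent.Lib.MP_ed43e6_ag.Q
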