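import Pool.Agent.Lib.MP_ed43e6_ag.Q.Brd

/-! The number of closed walks of length three is the number of bits of a board. -/

namespace Pool.Agent.Lib.MP_ed43e6_ag.Q.Bd

open Finset N

/-- The set of the bits of a number. -/
def bits (x : ℕ) : Finset ℕ := (range x).filter fun i => x.testBit i

theorem mem_bits {x i : ℕ} : i ∈ bits x ↔ x.testBit i := by
  rw [bits, mem_filter, mem_range]
  exact and_iff_right_of_imp fun h => Nat.lt_two_pow_self.trans_le (Nat.ge_two_pow_of_testBit h)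

theorem bits_zero : bits 0 = ∅ := rfl

/-- `l` is the lowest bit of `x`. -/
def Low (x l : ℕ) : Prop :=
  x.testBit l ∧ (∀ i < l, ¬ x.testBit i) ∧ ∀ i, (x - 1).testBit i ↔ i < l ∨ (l < i ∧ x.testBit i)

theorem low_ex {x : ℕ} (hx : x ≠ 0) : ∃ l, Low x l := by
  obtain ⟨l, m, ⟨k, rfl⟩, rfl⟩ := Nat.exists_eq_two_pow_mul_odd hx
  have p : 0 < 2 ^ l := by positivity
  have e : 2 ^ l * (2 * k + 1) - 1 = 2 ^ l * (2 * k) + (2 ^ l - 1) := by
    rw [mul_add, mul_one, Nat.add_sub_assoc p]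
  have b : ∀ j, (2 * k + 1).testBit (j + 1) = (2 * k).testBit (j + 1) := fun j => by
    rw [Nat.testBit_succ, Nat.testBit_succ, show (2 * k + 1) / 2 = 2 * k / 2 by omega]
  refine ⟨l, ?_, fun i h => ?_, fun i => ?_⟩
  · simp [Nat.testBit_two_pow_mul]
  · simp [Nat.testBit_two_pow_mul, h.not_ge]
  · rw [e, Nat.testBit_two_pow_mul_add _ (by omega), Nat.testBit_two_pow_mul]
    split_ifs with h
    · simp [h]
    · obtain ⟨j, rfl⟩ := Nat.exists_eq_add_of_le (not_lt.1 h)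
      cases j with
      | zero => simp
      | succ j => simp [b]

theorem Low.drop {x l i : ℕ} (h : Low x l) : (drop x).testBit i ↔ x.testBit i ∧ i ≠ l := by
  rw [Bd.drop, bit_and, Nat.sub_eq, h.2.2]
  refine and_congr_right fun a => ⟨?_, fun b => ?_⟩
  · omega
  · exact (lt_or_gt_of_ne b).imp_right fun c => ⟨c, a⟩

theorem Low.xor_drop {x l : ℕ} (h : Low x l) : Nat.xor x (Bd.drop x) = 2 ^ l := by
  refine Nat.eq_of_testBit_eq fun i => ?_
  rw [Bool.eq_iff_iff, bit_xor, h.drop, Nat.testBit_two_pow, decide_eq_true_eq]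
  by_cases e : i = l
  · simp [e, h.1]
  · simp [e, Ne.symm e]

theorem Low.xor_pred {x l : ℕ} (h : Low x l) : Nat.xor x (x - 1) = 2 ^ (l + 1) - 1 := by
  refine Nat.eq_of_testBit_eq fun i => ?_
  rw [Bool.eq_iff_iff, bit_xor, h.2.2, Nat.testBit_two_pow_sub_one, decide_eq_true_eq]
  rcases lt_trichotomy i l with e | rfl | e
  · simp [e, h.2.1 i e, e.le]
  · simp [h.1]
  · simp [e, e.not_gt, e.not_ge]

theorem pc_succ (f x : ℕ) : pc (f + 1) x = if x = 0 then 0 else pc f (drop x) + 1 := by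
  change (Bool.rec (pc f (drop x) + 1) 0 (Nat.beq x 0) : ℕ) = _
  split_ifs with h
  · rw [h, Nat.beq_refl]
  · rw [Bool.eq_false_iff.2 (mt Nat.eq_of_beq_eq_true h)]

theorem pc_eq {f x : ℕ} (h : pc f x < 100) : pc f x = (bits x).card := by
  induction f generalizing x with
  | zero => exact absurd h (lt_irrefl 100)
  | succ f ih =>
    rw [pc_succ] at h ⊢
    split_ifs at h ⊢ with a
    · rw [a, bits_zero, card_empty]
    · obtain ⟨l, hl⟩ := low_ex a
      have e : bits (drop x) = (bits x).erase l := by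
        ext i
        rw [mem_bits, hl.drop, mem_erase, mem_bits, and_comm]
      rw [ih (by omega), e, card_erase_add_one (mem_bits.2 hl.1)]

variable {g : ℕ → ℕ → ℕ} {i j k : Fin 3}

theorem tr3_congr {N A B N' A' B' : Pr}
    (hN : ∀ u v, ¬ ins g u → ins g v → (ap N u v ↔ ap N' u v))
    (hA : ∀ u v, ¬ ins g u → ins g v → (ap A u v ↔ ap A' u v))
    (hB : ∀ u v, ¬ ins g u → ins g v → (ap B u v ↔ ap B' u v)) :
    tr3 g N A B i j k = tr3 g N' A' B' i j k := by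
  classical
  unfold tr3
  generalize cube = Q
  refine congrArg card (filter_congr fun x _ => ⟨?_, ?_⟩)
  · rintro ⟨⟨a1, a2, a3⟩, ⟨b1, b2, b3⟩, c1, c2, c3⟩
    exact ⟨⟨a1, a2, (hN _ _ a2 b1).1 a3⟩, ⟨b1, b2, (hB _ _ b2 c1).1 b3⟩, c1, c2,
      (hA _ _ c2 a1).1 c3⟩
  · rintro ⟨⟨a1, a2, a3⟩, ⟨b1, b2, b3⟩, c1, c2, c3⟩
    exact ⟨⟨a1, a2, (hN _ _ a2 b1).2 a3⟩, ⟨b1, b2, (hB _ _ b2 c1).2 b3⟩, c1, c2,
      (hA _ _ c2 a1).2 c3⟩

theorem coef_congr {N A B A' B' : Pr}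
    (hA : ∀ u v, ¬ ins g u → ins g v → (ap A u v ↔ ap A' u v))
    (hB : ∀ u v, ¬ ins g u → ins g v → (ap B u v ↔ ap B' u v)) :
    coef g N A B = coef g N A' B' :=
  sum_congr rfl fun _ _ => by
    rw [tr3_congr (fun _ _ _ _ => Iff.rfl) hA hB, tr3_congr (fun _ _ _ _ => Iff.rfl) hA hB]

theorem tr3_ex {N A B : Pr} (h : tr3 g N A B i j k ≠ 0) :
    ∃ w v m, Arr g N i w v ∧ Arr g B k v m ∧ Arr g A j m w := by
  classical
  revert h
  unfold tr3
  generalize cube = Q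
  intro h
  obtain ⟨x, hx⟩ := card_ne_zero.1 h
  exact ⟨_, _, _, (mem_filter.1 hx).2⟩

/-- The three indices are distinct. -/
def Cy (i j k : Fin 3) : Prop := ∀ u : T3, stp i (stp j (stp k u)) = (u.1 + 1, u.2.1 + 1, u.2.2 + 1)

theorem cy1 (i : Fin 3) : Cy i (i + 1) (i + 2) := fun _ => by fin_cases i <;> rfl

theorem cy2 (i : Fin 3) : Cy i (i + 2) (i + 1) := fun _ => by fin_cases i <;> rfl

theorem stp_add (i : Fin 3) (u : T3) : (stp i u).1 = u.1 + (stp i 0).1 ∧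
    (stp i u).2.1 = u.2.1 + (stp i 0).2.1 ∧ (stp i u).2.2 = u.2.2 + (stp i 0).2.2 := by
  fin_cases i <;> simp [stp]

theorem Cy.sum (c : Cy i j k) : (stp i 0).1 + (stp j 0).1 + (stp k 0).1 = 1 ∧
    (stp i 0).2.1 + (stp j 0).2.1 + (stp k 0).2.1 = 1 ∧
    (stp i 0).2.2 + (stp j 0).2.2 + (stp k 0).2.2 = 1 := by
  have a := stp_add i (stp j (stp k 0))
  have b := stp_add j (stp k 0)
  rw [c] at a
  simp only [Prod.fst_zero, Prod.snd_zero] at a
  omega

variable {z na nb nt aa ab at' ba bb bt N A B : ℕ} {w v m : T3}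

theorem Cy.dl (c : Cy i j k) (h1 : Dl na nb nt (stp i w) v) (h2 : Dl ba bb bt (stp k v) m) :
    Dl aa ab at' (stp j m) w ↔ na + aa + ba = 20 ∧ nb + ab + bb = 32 ∧ nt + at' + bt = 68 := by
  have := c.sum
  have := stp_add i w
  have := stp_add k v
  have := stp_add j m
  unfold Dl at *
  omega

theorem tr3_dl (c : Cy i j k)
    (h : tr3 g (PB na nb nt N) (PB aa ab at' A) (PB ba bb bt B) i j k ≠ 0) :
    na + aa + ba = 20 ∧ nb + ab + bb = 32 ∧ nt + at' + bt = 68 := by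
  obtain ⟨w, v, m, a, b, d⟩ := tr3_ex h
  exact (c.dl (ap_PB.1 a.2.2).1 (ap_PB.1 b.2.2).1).1 (ap_PB.1 d.2.2).1

theorem ee_le (i : Fin 3) (v : T3) : ee i ≤ pos v := by
  fin_cases i <;> simp [ee, pos, ix] <;> omega

/-- A board of active pairs with a given difference. -/
structure Act (z da db dt X : ℕ) : Prop where
  b : db ≤ 22
  t : dt ≤ 46
  s : Sub X (Nat.land (oo z da db dt) z)

theorem Act.ex {da db dt X p : ℕ} (h : Act z da db dt X) (hz : IsB g z) (hb : Bdd g)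
    (a : X.testBit p) : ∃ u v, p = pos v ∧ ins g v ∧ Dl da db dt u v ∧ ¬ ins g u := by
  obtain ⟨v, rfl, b⟩ := hz.ex (h.s.right _ a)
  have := hb.lt b
  obtain ⟨u, c⟩ := (oo_pos hz hb h.b h.t (by omega)).1 (h.s.left _ a)
  exact ⟨u, v, rfl, b, c⟩

theorem tr3_eq (hz : IsB g z) (hb : Bdd g) (c : Cy i j k) (hN : Act z na nb nt N)
    (hA : Act z aa ab at' A) (hB : Act z ba bb bt B)
    (hs : na + aa + ba = 20 ∧ nb + ab + bb = 32 ∧ nt + at' + bt = 68) :
    tr3 g (PB na nb nt N) (PB aa ab at' A) (PB ba bb bt B) i j k =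
      (bits (tb N (shf A (code na nb nt)) (ush B (code ba bb bt)) (ee i) (ee k))).card := by
  classical
  have hQ : ∀ u, ins g u → u ∈ cube := fun u e => by
    have := hb.lt e
    simp only [cube, mem_product, mem_range]
    omega
  unfold tr3
  generalize cube = Q at hQ ⊢
  refine card_nbij (fun x => pos x.2.1) ?_ ?_ ?_
  · rintro ⟨w, v, m⟩ hx
    obtain ⟨-, a, b, d⟩ := mem_filter.1 (mem_coe.1 hx)
    obtain ⟨a1, -, -, a2⟩ := ap_PB.1 a.2.2
    obtain ⟨b1, -, -, b2⟩ := ap_PB.1 b.2.2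
    obtain ⟨-, -, -, d2⟩ := ap_PB.1 d.2.2
    have p1 := a1.pos
    have p2 := b1.pos
    have p3 := ee_le i v
    rw [pos_stp] at p1 p2
    simp only at *
    refine mem_coe.2 (mem_bits.2 (bit_and.2 ⟨bit_and.2 ⟨a2, bit_shl.2 ⟨p3, ?_⟩⟩, bit_shr.2 ?_⟩))
    · exact (bit_shf' (by omega)).2 d2
    · exact (bit_ush' (by omega)).2 b2
  · rintro ⟨w, v, m⟩ hx ⟨w', v', m'⟩ hx' e
    obtain ⟨-, a, b, -⟩ := mem_filter.1 (mem_coe.1 hx)
    obtain ⟨-, a', b', -⟩ := mem_filter.1 (mem_coe.1 hx')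
    have := hb.lt (v := v) b.1
    have := hb.lt (v := v') b'.1
    obtain rfl : v = v' := pos_inj e (by omega) (by omega) (by omega) (by omega)
    obtain rfl : w = w' := stp_inj ((ap_PB.1 a.2.2).1.left (ap_PB.1 a'.2.2).1)
    obtain ⟨b1, b2, b3⟩ := (ap_PB.1 b.2.2).1
    obtain ⟨c1, c2, c3⟩ := (ap_PB.1 b'.2.2).1
    obtain rfl : m = m' := Prod.ext (by simp only at *; omega)
      (Prod.ext (by simp only at *; omega) (by simp only at *; omega))
    rfl
  · intro p hp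
    obtain ⟨h1, h3⟩ := bit_and.1 (mem_bits.1 (mem_coe.1 hp))
    obtain ⟨h1, h2⟩ := bit_and.1 h1
    obtain ⟨l2, h2⟩ := bit_shl.1 h2
    obtain ⟨l2', h2⟩ := bit_shf.1 h2
    obtain ⟨l3, h3⟩ := bit_ush.1 (bit_shr.1 h3)
    obtain ⟨uN, v, rfl, iv, dN, nN⟩ := hN.ex hz hb h1
    obtain ⟨uA, w, ew, iw, dA, nA⟩ := hA.ex hz hb h2
    obtain ⟨uB, m, em, im, dB, nB⟩ := hB.ex hz hb h3
    have := hb.lt iv
    have := hb.lt iw
    have := hb.lt im
    have := stp_le i w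
    have := stp_le k v
    have p1 := dN.pos
    have p2 := dB.pos
    obtain rfl : uN = stp i w := pos_inj (by rw [pos_stp]; omega) (by have := dN.2.1; omega)
      (by have := dN.2.2; omega) (by omega) (by omega)
    obtain rfl : uB = stp k v := pos_inj (by rw [pos_stp]; omega) (by have := dB.2.1; omega)
      (by have := dB.2.2; omega) (by omega) (by omega)
    obtain rfl : uA = stp j m := dA.left ((c.dl dN dB).2 hs)
    exact ⟨(w, v, m), mem_coe.2 (mem_filter.2 ⟨mem_product.2 ⟨hQ _ iw, mem_product.2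
      ⟨hQ _ iv, hQ _ im⟩⟩, ⟨iw, nN, (ap_PB' hb iv).2 ⟨dN, h1⟩⟩,
      ⟨iv, nB, (ap_PB' hb im).2 ⟨dB, em ▸ h3⟩⟩, im, nA, (ap_PB' hb iw).2 ⟨dA, ew ▸ h2⟩⟩), rfl⟩

theorem coef_eq (hz : IsB g z) (hb : Bdd g) (hN : Act z na nb nt N)
    (hA : Act z aa ab at' A) (hB : Act z ba bb bt B)
    (hs : na + aa + ba = 20 ∧ nb + ab + bb = 32 ∧ nt + at' + bt = 68)
    (hP : posP N (shf A (code na nb nt)) (ush B (code ba bb bt)) < 100)
    (hQ : posQ N (shf A (code na nb nt)) (ush B (code ba bb bt)) < 100) :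
    coef g (PB na nb nt N) (PB aa ab at' A) (PB ba bb bt B) =
      (posP N (shf A (code na nb nt)) (ush B (code ba bb bt)) : ℤ) -
        (posQ N (shf A (code na nb nt)) (ush B (code ba bb bt)) : ℤ) := by
  simp only [posP, posQ, Nat.add_eq] at hP hQ ⊢
  rw [coef, Fin.sum_univ_three, tr3_eq hz hb (cy1 0) hN hA hB hs, tr3_eq hz hb (cy1 1) hN hA hB hs,
    tr3_eq hz hb (cy1 2) hN hA hB hs, tr3_eq hz hb (cy2 0) hN hA hB hs,
    tr3_eq hz hb (cy2 1) hN hA hB hs, tr3_eq hz hb (cy2 2) hN hA hB hs,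
    pc_eq (x := tb _ _ _ 1152 1) (by omega), pc_eq (x := tb _ _ _ 48 1152) (by omega),
    pc_eq (x := tb _ _ _ 1 48) (by omega), pc_eq (x := tb _ _ _ 1152 48) (by omega),
    pc_eq (x := tb _ _ _ 48 1) (by omega), pc_eq (x := tb _ _ _ 1 1152) (by omega)]
  generalize shf A (code na nb nt) = S
  generalize ush B (code ba bb bt) = U
  change ((bits (tb N S U 1152 1)).card : ℤ) - (bits (tb N S U 1152 48)).card +
    ((bits (tb N S U 48 1152)).card - (bits (tb N S U 48 1)).card) +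
    ((bits (tb N S U 1 48)).card - (bits (tb N S U 1 1152)).card) = _
  push_cast
  ring

theorem coef_ne (h : coef g (PB na nb nt N) (PB aa ab at' A) (PB ba bb bt B) ≠ 0) :
    na + aa + ba = 20 ∧ nb + ab + bb = 32 ∧ nt + at' + bt = 68 := by
  by_contra e
  refine h (sum_eq_zero fun i _ => ?_)
  rw [not_not.1 fun x => e (tr3_dl (cy1 i) x), not_not.1 fun x => e (tr3_dl (cy2 i) x), sub_self]

theorem coef_nosup (hz : IsB g z) (hb : Bdd g) (hN : Act z na nb nt N)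
    (hA : Act z aa ab at' A) (hB : Act z ba bb bt B)
    (h : nosup N (shf A (code na nb nt)) (ush B (code ba bb bt))) :
    coef g (PB na nb nt N) (PB aa ab at' A) (PB ba bb bt B) = 0 := by
  by_contra e
  simp only [nosup, Nat.beq_eq, Nat.lor_eq, Nat.or_eq_zero_iff] at h
  obtain ⟨⟨⟨h1, h2⟩, h3, h4⟩, h5, h6⟩ := h
  have p : pc 40 0 = 0 := rfl
  have hP : posP N (shf A (code na nb nt)) (ush B (code ba bb bt)) = 0 := by
    rw [posP, h1, h2, h3, p]
  have hQ : posQ N (shf A (code na nb nt)) (ush B (code ba bb bt)) = 0 := by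
    rw [posQ, h4, h5, h6, p]
  refine e ?_
  rw [coef_eq hz hb hN hA hB (coef_ne e) (by omega) (by omega), hP, hQ, sub_self]

end Pool.Agent.Lib.MP_ed43e6_ag.Q.Bd
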