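import Pool.Agent.Lib.MP_ed43e6_ag.Q.Count
import Pool.Agent.Lib.MP_ed43e6_ag.Q.Pk
import Pool.Agent.Lib.MP_ed43e6_ag.Q.Fo

/-! Small and big vectors indexed by columns. -/

namespace Pool.Agent.Lib.MP_ed43e6_ag.Q

open Finset N

def sm (S N : ℕ) (F : ℕ → ℕ → ℕ) : ℕ := pk 12 N fun i => F (i / S) (i % S)

def bg (S N : ℕ) (F : ℕ → ℕ → ℕ → ℕ → ℕ) : ℕ :=
  pk 12 (N * N) fun l => F (l % N / S) (l % N % S) (l / N / S) (l / N % S)

theorem smI {S N : ℕ} {P : ℕ → ℕ → Prop} (hS : 0 < S) (h : ∀ p q, In S N p q → P p q) :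
    ∀ i < N, P (i / S) (i % S) := fun _ hi => h _ _ (in_idx hS hi)

theorem bgI {S N : ℕ} {P : ℕ → ℕ → ℕ → ℕ → Prop} (hS : 0 < S)
    (h : ∀ p q a b, In S N p q ∧ In S N a b → P p q a b) :
    ∀ l < N * N, P (l % N / S) (l % N % S) (l / N / S) (l / N % S) := fun l hl =>
  h _ _ _ _ ⟨in_idx hS (Nat.mod_lt _ (Nat.pos_of_mul_pos_left (a := N) (by omega))),
    in_idx hS (Nat.div_lt_of_lt_mul hl)⟩

section

variable {S N : ℕ} {F G : ℕ → ℕ → ℕ} {c c' : ℕ → ℕ → Prop} [∀ p q, Decidable (c p q)]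
  [∀ p q, Decidable (c' p q)]

theorem sm_congr (hS : 0 < S) (h : ∀ p q, In S N p q → F p q = G p q) : sm S N F = sm S N G :=
  pk_congr _ _ _ _ (smI hS h)
theorem sm_add : Nat.add (sm S N F) (sm S N G) = sm S N fun p q => F p q + G p q :=
  pk_add _ _ _ _
theorem sm_mul (k : ℕ) : Nat.mul (sm S N F) k = sm S N fun p q => F p q * k := pk_mul _ _ _ _
theorem sm_sub (hS : 0 < S) (h : ∀ p q, In S N p q → G p q ≤ F p q) :
    Nat.sub (sm S N F) (sm S N G) = sm S N fun p q => F p q - G p q :=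
  pk_sub _ _ _ _ (smI hS h)
theorem sm_landG (hS : 0 < S) (h : ∀ p q, In S N p q → F p q < 4096) :
    Nat.land (sm S N F) (sm S N fun p q => if c p q then 2048 else 0) =
      sm S N fun p q => if c p q ∧ 2048 ≤ F p q then 2048 else 0 :=
  pk_landG _ _ _ (smI hS h)
theorem sm_landG' (hS : 0 < S) (h : ∀ p q, In S N p q → F p q < 4096) :
    Nat.land (sm S N F) (sm S N fun _ _ => 2048) =
      sm S N fun p q => if 2048 ≤ F p q then 2048 else 0 :=
  pk_landG' _ _ (smI hS h)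
theorem sm_mask (hS : 0 < S) (h : ∀ p q, In S N p q → F p q < 4096) :
    Nat.land (sm S N F) (sm S N fun p q => if c p q then 4095 else 0) =
      sm S N fun p q => if c p q then F p q else 0 :=
  pk_mask _ _ _ le_rfl _ (smI hS h)
theorem sm_shrG (k e : ℕ) (he : e * 2 ^ k = 2048) :
    Nat.shiftRight (sm S N fun p q => if c p q then 2048 else 0) k =
      sm S N fun p q => if c p q then e else 0 := pk_shrG _ _ k e he
theorem sm_geG (hS : 0 < S) (h : ∀ p q, In S N p q → F p q < 4096) :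
    geG (sm S N fun p q => if c p q then 2048 else 0) (sm S N F) =
      sm S N fun p q => if c p q ∧ 2048 ≤ F p q then 1 else 0 := pk_geG _ _ _ (smI hS h)
theorem sm_geG' (hS : 0 < S) (h : ∀ p q, In S N p q → F p q < 4096) :
    geG (sm S N fun _ _ => 2048) (sm S N F) =
      sm S N fun p q => if 2048 ≤ F p q then 1 else 0 := pk_geG' _ _ (smI hS h)
theorem sm_tsG (hS : 0 < S) (h : ∀ p q, In S N p q → F p q < 4096) :
    tsG (sm S N fun _ _ => 2048) (sm S N F) = sm S N fun p q => F p q - 2048 :=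
  pk_tsG _ _ (smI hS h)
theorem sm_mnG (hS : 0 < S) (h : ∀ p q, In S N p q → F p q < 2048 ∧ G p q ≤ 2048) :
    mnG (sm S N fun _ _ => 2048) (sm S N fun p q => F p q + 2048) (sm S N G) =
      sm S N fun p q => min (F p q) (G p q) + 2048 := pk_mnG _ _ _ (smI hS h)
theorem sm_bitand (hS : 0 < S) (h : ∀ p q, In S N p q → F p q ≤ 1 ∧ G p q ≤ 1) :
    Nat.land (sm S N F) (sm S N G) = sm S N fun p q => F p q * G p q :=
  pk_bitand _ _ _ (smI hS h)
theorem sm_orG (e : ℕ) (he : e < 4096) :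
    Nat.lor (sm S N fun p q => if c p q then e else 0) (sm S N fun p q => if c' p q then e else 0) =
      sm S N fun p q => if c p q ∨ c' p q then e else 0 := pk_orG _ _ _ e he

end

section

variable {S N : ℕ} {F G : ℕ → ℕ → ℕ → ℕ → ℕ} {c c' : ℕ → ℕ → ℕ → ℕ → Prop} [∀ p q a b, Decidable (c p q a b)]
  [∀ p q a b, Decidable (c' p q a b)]

theorem bg_congr (hS : 0 < S) (h : ∀ p q a b, In S N p q ∧ In S N a b → F p q a b = G p q a b) : bg S N F = bg S N G :=
  pk_congr _ _ _ _ (bgI hS h)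
theorem bg_add : Nat.add (bg S N F) (bg S N G) = bg S N fun p q a b => F p q a b + G p q a b :=
  pk_add _ _ _ _
theorem bg_mul (k : ℕ) : Nat.mul (bg S N F) k = bg S N fun p q a b => F p q a b * k := pk_mul _ _ _ _
theorem bg_sub (hS : 0 < S) (h : ∀ p q a b, In S N p q ∧ In S N a b → G p q a b ≤ F p q a b) :
    Nat.sub (bg S N F) (bg S N G) = bg S N fun p q a b => F p q a b - G p q a b :=
  pk_sub _ _ _ _ (bgI hS h)
theorem bg_landG (hS : 0 < S) (h : ∀ p q a b, In S N p q ∧ In S N a b → F p q a b < 4096) :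
    Nat.land (bg S N F) (bg S N fun p q a b => if c p q a b then 2048 else 0) =
      bg S N fun p q a b => if c p q a b ∧ 2048 ≤ F p q a b then 2048 else 0 :=
  pk_landG _ _ _ (bgI hS h)
theorem bg_landG' (hS : 0 < S) (h : ∀ p q a b, In S N p q ∧ In S N a b → F p q a b < 4096) :
    Nat.land (bg S N F) (bg S N fun _ _ _ _ => 2048) =
      bg S N fun p q a b => if 2048 ≤ F p q a b then 2048 else 0 :=
  pk_landG' _ _ (bgI hS h)
theorem bg_mask (hS : 0 < S) (h : ∀ p q a b, In S N p q ∧ In S N a b → F p q a b < 4096) :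
    Nat.land (bg S N F) (bg S N fun p q a b => if c p q a b then 4095 else 0) =
      bg S N fun p q a b => if c p q a b then F p q a b else 0 :=
  pk_mask _ _ _ le_rfl _ (bgI hS h)
theorem bg_shrG (k e : ℕ) (he : e * 2 ^ k = 2048) :
    Nat.shiftRight (bg S N fun p q a b => if c p q a b then 2048 else 0) k =
      bg S N fun p q a b => if c p q a b then e else 0 := pk_shrG _ _ k e he
theorem bg_geG (hS : 0 < S) (h : ∀ p q a b, In S N p q ∧ In S N a b → F p q a b < 4096) :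
    geG (bg S N fun p q a b => if c p q a b then 2048 else 0) (bg S N F) =
      bg S N fun p q a b => if c p q a b ∧ 2048 ≤ F p q a b then 1 else 0 := pk_geG _ _ _ (bgI hS h)
theorem bg_geG' (hS : 0 < S) (h : ∀ p q a b, In S N p q ∧ In S N a b → F p q a b < 4096) :
    geG (bg S N fun _ _ _ _ => 2048) (bg S N F) =
      bg S N fun p q a b => if 2048 ≤ F p q a b then 1 else 0 := pk_geG' _ _ (bgI hS h)
theorem bg_tsG (hS : 0 < S) (h : ∀ p q a b, In S N p q ∧ In S N a b → F p q a b < 4096) :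
    tsG (bg S N fun _ _ _ _ => 2048) (bg S N F) = bg S N fun p q a b => F p q a b - 2048 :=
  pk_tsG _ _ (bgI hS h)
theorem bg_mnG (hS : 0 < S) (h : ∀ p q a b, In S N p q ∧ In S N a b → F p q a b < 2048 ∧ G p q a b ≤ 2048) :
    mnG (bg S N fun _ _ _ _ => 2048) (bg S N fun p q a b => F p q a b + 2048) (bg S N G) =
      bg S N fun p q a b => min (F p q a b) (G p q a b) + 2048 := pk_mnG _ _ _ (bgI hS h)
theorem bg_bitand (hS : 0 < S) (h : ∀ p q a b, In S N p q ∧ In S N a b → F p q a b ≤ 1 ∧ G p q a b ≤ 1) :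
    Nat.land (bg S N F) (bg S N G) = bg S N fun p q a b => F p q a b * G p q a b :=
  pk_bitand _ _ _ (bgI hS h)
theorem bg_orG (e : ℕ) (he : e < 4096) :
    Nat.lor (bg S N fun p q a b => if c p q a b then e else 0) (bg S N fun p q a b => if c' p q a b then e else 0) =
      bg S N fun p q a b => if c p q a b ∨ c' p q a b then e else 0 := pk_orG _ _ _ e he

end

section Shift

variable {S N : ℕ}

theorem pk_sm (hS : 0 < S) {f : ℕ → ℕ} {G : ℕ → ℕ → ℕ}
    (h : ∀ p q, In S N p q → f (S * p + q) = G p q) : pk 12 N f = sm S N G :=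
  pk_congr _ _ _ _ fun i hi => by
    have := h _ _ (in_idx hS hi)
    rwa [Nat.div_add_mod] at this

theorem pk_bg (hS : 0 < S) {f : ℕ → ℕ} {G : ℕ → ℕ → ℕ → ℕ → ℕ}
    (h : ∀ p q a b, In S N p q → In S N a b → f (N * (S * a + b) + (S * p + q)) = G p q a b) :
    pk 12 (N * N) f = bg S N G :=
  pk_congr _ _ _ _ fun l hl => by
    have := bgI (P := fun p q a b => f (N * (S * a + b) + (S * p + q)) = G p q a b) hS
      (fun p q a b e => h p q a b e.1 e.2) l hl
    simp only [Nat.div_add_mod] at this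
    exact this

theorem lane_lt {i j : ℕ} (hi : i < N) (hj : j < N) : N * j + i < N * N := by
  have : N * (j + 1) ≤ N * N := Nat.mul_le_mul_left _ hj
  rw [mul_add] at this
  omega

theorem lane_ge {i j : ℕ} (hj : N ≤ j) : ¬ N * j + i < N * N := by
  have : N * N ≤ N * j := Nat.mul_le_mul_left _ hj
  omega

theorem sm_rep (F : ℕ → ℕ → ℕ) : Nat.mul (sm S N F) (Fo.oB N) = bg S N fun p q _ _ => F p q :=
  pk_rep 12 N _ N

theorem blk_brd (f : ℕ → ℕ → ℕ) : Nat.mul (pk (12 * N) N fun j => f (j / S) (j % S)) (Fo.o N) =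
    bg S N fun _ _ a b => f a b := pk_brd 12 N _ N

theorem blk_nest (F : ℕ → ℕ → ℕ → ℕ → ℕ) :
    (pk (12 * N) N fun j => sm S N fun p q => F p q (j / S) (j % S)) = bg S N F :=
  pk_nest 12 N N fun j i => F (i / S) (i % S) (j / S) (j % S)

theorem bg_shr (hS : 0 < S) {F G : ℕ → ℕ → ℕ → ℕ → ℕ} (s : ℕ) (hs : s ≤ N)
    (hF : ∀ p q a b, In S N p q ∧ In S N a b → F p q a b < 4096)
    (hz : ∀ i < s, ∀ a b, F (i / S) (i % S) a b = 0)
    (h : ∀ p q a b, In S N p q → (if S * p + q + s < N then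
      F ((S * p + q + s) / S) ((S * p + q + s) % S) a b else 0) = G p q a b) :
    bg S N F >>> (12 * s) = bg S N G := by
  rw [bg, pk_shrl _ _ _ _ (bgI hS hF)]
  refine pk_bg hS fun p q a b hp ha => ?_
  rw [← h p q a b hp]
  by_cases c : S * p + q + s < N
  · rw [add_assoc, if_pos (lane_lt c ha.2), if_pos c, idx_div c, idx_mod c, idx_div ha.1,
      idx_mod ha.1]
  · rw [if_neg c]
    split_ifs
    · have h1 := hp.2
      have h2 : S * p + q + s - N < N := by omega
      rw [show N * (S * a + b) + (S * p + q) + s = N * (S * a + b + 1) + (S * p + q + s - N) by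
        rw [mul_add N _ 1]; omega, idx_mod h2]
      exact hz _ (by omega) _ _
    · rfl

theorem bg_shX (hS : 0 < S) (hN : S ≤ N) {F : ℕ → ℕ → ℕ → ℕ → ℕ}
    (hF : ∀ p q a b, F p q a b < 4096) (hz : ∀ q a b, F 0 q a b = 0)
    (hi : ∀ p q a b, F p q a b ≠ 0 → In S N p q) :
    Nat.shiftRight (bg S N F) (Fo.w1 S) = bg S N fun p q a b => F (p + 1) q a b := by
  refine bg_shr hS S hN (fun _ _ _ _ _ => hF _ _ _ _) (fun i hi a b => ?_) fun p q a b hp => ?_
  · rw [Nat.div_eq_of_lt hi, hz]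
  · rw [show S * p + q + S = S * (p + 1) + q by ring, idx_div hp.1, idx_mod hp.1]
    split_ifs with c
    · rfl
    · by_contra e
      exact c (hi _ _ _ _ fun e' => e e'.symm).2

theorem bg_shY (hS : 0 < S) (hN : S ≤ N) {F : ℕ → ℕ → ℕ → ℕ → ℕ}
    (hF : ∀ p q a b, F p q a b < 4096) (hz : ∀ p a b, F p 0 a b = 0)
    (hi : ∀ p q a b, F p q a b ≠ 0 → In S N p q) :
    Nat.shiftRight (bg S N F) 12 = bg S N fun p q a b => F p (q + 1) a b := by
  refine bg_shr hS 1 (by omega) (fun _ _ _ _ _ => hF _ _ _ _) (fun i hi a b => ?_)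
    fun p q a b hp => ?_
  · obtain rfl : i = 0 := by omega
    rw [Nat.zero_mod, hz]
  · by_cases c : q + 1 < S
    · rw [add_assoc, idx_div c, idx_mod c]
      split_ifs with c
      · rfl
      · by_contra e
        exact c (hi _ _ _ _ fun e' => e e'.symm).2
    · have h1 := hp.1
      rw [show S * p + q + 1 = S * (p + 1) + 0 by rw [mul_add]; omega, idx_mod hS, hz, ite_self]
      by_contra e
      exact c (hi _ _ _ _ fun e' => e e'.symm).1

theorem bg_shZ (hS : 0 < S) (hN : S ≤ N) {F : ℕ → ℕ → ℕ → ℕ → ℕ}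
    (hF : ∀ p q a b, F p q a b < 4096) (hz : ∀ q a b, F 0 q a b = 0)
    (hz' : ∀ p a b, F p (S - 1) a b = 0) (hi : ∀ p q a b, F p q a b ≠ 0 → In S N p q) :
    Nat.shiftRight (bg S N F) (Fo.w0 S) = bg S N (zs F) := by
  refine bg_shr hS (S - 1) (by omega) (fun _ _ _ _ _ => hF _ _ _ _) (fun i hi a b => ?_)
    fun p q a b hp => ?_
  · rw [Nat.div_eq_of_lt (by omega), hz]
  · unfold zs
    have h1 := hp.1
    cases q with
    | zero => rw [add_zero, idx_mod (by omega), hz', ite_self, if_pos rfl]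
    | succ q =>
      have c : q < S := by omega
      rw [show S * p + (q + 1) + (S - 1) = S * (p + 1) + q by rw [mul_add]; omega, idx_div c,
        idx_mod c, if_neg (Nat.succ_ne_zero q), Nat.add_sub_cancel]
      split_ifs with c
      · rfl
      · by_contra e
        exact c (hi _ _ _ _ fun e' => e e'.symm).2

theorem bg_up (hS : 0 < S) {F : ℕ → ℕ → ℕ → ℕ → ℕ}
    (hz : ∀ p q a b, b + 1 = S ∨ S * a + b + 1 = N → F p q a b = 0) :
    Nat.shiftLeft (bg S N F) (Fo.w1 N) = bg S N (us F) := by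
  refine (pk_shl' 12 (N * N) _ N fun l hl hl' => ?_).trans (pk_bg hS fun p q a b hp ha => ?_)
  · refine hz _ _ _ _ (Or.inr ?_)
    rw [Nat.div_add_mod]
    have h1 := Nat.div_lt_of_lt_mul hl
    by_contra c
    have h2 : l / N + 2 ≤ N := by omega
    have h3 := Nat.mul_le_mul_left N h2
    have h4 := Nat.div_add_mod l N
    have h5 := Nat.mod_lt l (show 0 < N by omega)
    rw [mul_add] at h3
    omega
  · unfold us
    have h1 := hp.2
    have h2 := ha.1
    by_cases c : S * a + b = 0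
    · rw [c, if_neg (by omega), if_pos (by omega)]
    obtain ⟨j, hj⟩ : ∃ j, S * a + b = j + 1 := ⟨S * a + b - 1, by omega⟩
    rw [hj, show N * (j + 1) + (S * p + q) = N * j + (S * p + q) + N by ring, if_pos (by omega),
      Nat.add_sub_cancel, idx_div h1, idx_mod h1, idx_div hp.1, idx_mod hp.1]
    cases b with
    | zero =>
      obtain ⟨a, rfl⟩ : ∃ k, a = k + 1 := ⟨a - 1, by
        rcases a with _ | a
        · exact absurd rfl c
        · rfl⟩
      rw [show j = S * a + (S - 1) by rw [mul_add] at hj; omega, idx_mod (by omega), if_pos rfl]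
      exact hz _ _ _ _ (Or.inl (by omega))
    | succ b =>
      have c : b < S := by omega
      rw [show j = S * a + b by omega, idx_div c, idx_mod c, if_neg (Nat.succ_ne_zero b),
        Nat.add_sub_cancel]

theorem bg_dn (hS : 0 < S) {f g : ℕ → ℕ → ℕ} (s : ℕ) (hf : ∀ a b, f a b < 4096)
    (h : ∀ a b, In S N a b → (if S * a + b + s < N then
      f ((S * a + b + s) / S) ((S * a + b + s) % S) else 0) = g a b) :
    (bg S N fun _ _ a b => f a b) >>> (12 * N * s) = bg S N fun _ _ a b => g a b := by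
  rw [bg, mul_assoc, pk_shrl _ _ _ _ fun _ _ => hf _ _]
  refine pk_bg hS fun p q a b hp ha => ?_
  rw [← h a b ha, show N * (S * a + b) + (S * p + q) + N * s = N * (S * a + b + s) + (S * p + q) by
    ring, idx_div hp.2]
  by_cases c : S * a + b + s < N
  · rw [if_pos (lane_lt hp.2 c), if_pos c]
  · rw [if_neg (lane_ge (by omega)), if_neg c]

theorem sum_bg (F : ℕ → ℕ → ℕ → ℕ → ℕ) :
    ∑ l ∈ range (N * N), F (l % N / S) (l % N % S) (l / N / S) (l / N % S) =
      ∑ j ∈ range N, ∑ i ∈ range N, F (i / S) (i % S) (j / S) (j % S) := by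
  rw [Lane.sum_split]
  refine sum_congr rfl fun j _ => sum_congr rfl fun i hi => ?_
  rw [idx_div (mem_range.1 hi), idx_mod (mem_range.1 hi)]

theorem bg_sum (F : ℕ → ℕ → ℕ → ℕ → ℕ)
    (h : ∑ j ∈ range N, ∑ i ∈ range N, F (i / S) (i % S) (j / S) (j % S) < 4095) :
    Nat.mod (bg S N F) 4095 = ∑ j ∈ range N, ∑ i ∈ range N, F (i / S) (i % S) (j / S) (j % S) := by
  rw [← sum_bg] at h ⊢
  exact pk_sum 12 (N * N) _ h

theorem bg_bs (hS : 0 < S) (hN : 0 < N) (F : ℕ → ℕ → ℕ → ℕ → ℕ) (c : ℕ) (hc : N * c < 4096)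
    (h : ∀ p q a b, In S N p q ∧ In S N a b → F p q a b ≤ c) : Fo.bs N (bg S N F) =
      pk (12 * N) N fun j => ∑ i ∈ range N, F (i / S) (i % S) (j / S) (j % S) := by
  refine (pk_bs N _ hN c hc (bgI hS h)).trans (pk_congr _ _ _ _ fun j _ => ?_)
  refine sum_congr rfl fun i hi => ?_
  rw [idx_div (mem_range.1 hi), idx_mod (mem_range.1 hi)]

theorem bg_fold (hS : 0 < S) (hN : 0 < N) (F : ℕ → ℕ → ℕ → ℕ → ℕ) (c : ℕ) (hc : N * c < 4095)
    (h : ∀ p q a b, In S N p q ∧ In S N a b → F p q a b ≤ c) : Nat.mod (bg S N F) (Fo.cF N) =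
      sm S N fun p q => ∑ j ∈ range N, F p q (j / S) (j % S) := by
  have e : Fo.cF N = 2 ^ (12 * N) - 1 := by
    change 1 <<< (12 * N) - 1 = _
    rw [Nat.one_shiftLeft]
  rw [e]
  refine pk_fold 12 N N hN (fun j i => F (i / S) (i % S) (j / S) (j % S)) fun i hi => ?_
  refine (sum_le_card_nsmul _ _ c fun j hj => h _ _ _ _
    ⟨in_idx hS hi, in_idx hS (mem_range.1 hj)⟩).trans_lt ?_
  rwa [card_range, smul_eq_mul]

theorem sm_spr (hS : 0 < S) (hN : 2 ≤ N) (F : ℕ → ℕ → ℕ) (h : ∀ p q, In S N p q → F p q < 2048) :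
    Fo.spr N (sm S N F) = pk (12 * N) N fun j => F (j / S) (j % S) := pk_spr N _ hN (smI hS h)

end Shift

end Pool.Agent.Lib.MP_ed43e6_ag.Q
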