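import Pool.Agent.Lib.MP_ed43e6_ag.Q.Fo

/-! The top walk in pieces, and nested walks. -/

namespace Pool.Agent.Lib.MP_ed43e6_ag.Q

/-- The part of the walk with first column of height `v + 1`. -/
noncomputable def wk (M : Nat) (t : KT) (v : Nat) : Bool :=
  Fo.put (Fo.go M (fun a b S H => t.has (Fo.enc 0 a b S H))
    (fun a S H n => bor (Nat.ble n 31) (t.has (Fo.enc 1 a 0 S H))) 30) 0 0 1 2 0 0 (Nat.succ v)

theorem walk_of {M : Nat} {t : KT} (h : allLt M (wk M t) = true) : Fo.walk M t = true := h

theorem allLt_nil (f : Nat → Bool) : allLt 0 f = true := rfl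

theorem allLt_step {f : Nat → Bool} (n : Nat) (h : f n = true) (h' : allLt n f = true) :
    allLt (n + 1) f = true := by
  change (Bool.rec false (allLt n f) (f n) : Bool) = true
  rw [h]
  exact h'

/-- The key `k` is in `t`, or its subtree is covered by the keys in `t`. -/
noncomputable def wj (M : Nat) (t : KT) (k : Nat) : Bool :=
  bor (t.has k) (frc (Nat.land k 15) fun a => frc (Nat.land (Nat.shiftRight k 4) 15) fun b =>
    frc (Nat.land (Nat.shiftRight k 8) 15) fun S =>
      frc (Nat.mod (Nat.shiftRight k 64) 4095) fun n =>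
        band (Nat.beq (Nat.land (Nat.shiftRight k 12) 1) 0)
          (Fo.go M (fun a b S H => t.has (Fo.enc 0 a b S H))
            (fun a S H n => bor (Nat.ble n 31) (t.has (Fo.enc 1 a 0 S H))) 30 a b S
            (Nat.shiftRight k 64) n))

/-- Every key of the tree passes the test `f`, or is covered by a tree of this kind. -/
inductive OkW (M : Nat) (f : BT → Nat → Bool) : KT → Prop where
  | leaf (b : BT) (t : KT) : t.all (f b) = true → OkW M f t
  | br (p : Nat) (l r : KT) : OkW M f l → OkW M f r → OkW M f (KT.br p l r)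
  | lift (t u : KT) : OkW M f t → u.all (wj M t) = true → OkW M f u

end Pool.Agent.Lib.MP_ed43e6_ag.Q
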