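import Pool.Agent.Lib.MP_ed43e6_ag.Q.GoS
import Pool.Agent.Lib.MP_ed43e6_ag.Q.Wk

/-! Soundness of nested walks. -/

namespace Pool.Agent.Lib.MP_ed43e6_ag.Q

open Finset N

variable {Qp : (ℕ → ℕ → ℕ) → Prop} {M : ℕ}

theorem wj_sound (hM : M ≤ 57) (h31 : ∀ h, size h ≤ 31 → Qp h) {t : KT} (ht : AllGood Qp M t)
    {k : ℕ} (e : wj M t k = true) : Good Qp M k := by
  rcases (bor_iff _ _).1 e with e | e
  · exact ht k e
  intro h hB hs c
  have hs' : size h ≤ 58 := by omega
  have m : ∀ S N, sm S N h % 4095 = ∑ i ∈ range N, h (i / S) (i % S) := fun S N =>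
    pk_sum 12 N _ ((sum_le_size hB hs' S N).trans_lt (by omega))
  have a15 : ∀ x, Nat.land x 15 = x % 16 := fun x => Nat.and_two_pow_sub_one_eq_mod x 4
  rw [frc_eq, frc_eq, frc_eq, frc_eq, a15, a15, a15, Nat.land_eq, Nat.and_one_is_mod, band_iff,
    Nat.beq_eq] at e
  simp only [Nat.shiftRight_eq', Nat.shiftRight_eq_div_pow] at e
  obtain ⟨z, e⟩ := e
  rw [if_pos (show k / 4096 % 2 = 0 from z)] at c
  refine go_sound hM hB hs (fun a b S H n c => ?_) (fun a S H a5 n c => ?_) 30 _ _ _ _ c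
    (by rw [← m, ← c.eq]; exact e)
  · have := n.bd hB hs'
    have := n.bS
    obtain ⟨d1, d2, d3, d4, d5⟩ := enc_dec (m := 0) (a := a) (b := b) (S := S) (H := H) (by omega)
      (by omega) (by omega) (by omega)
    refine ht _ c h hB hs ?_
    rwa [if_pos d4, d1, d2, d3, d5]
  · rcases (bor_iff _ _).1 c with c | c
    · exact h31 h (Nat.le_of_ble_eq_true c)
    · have := n.1.2.1
      obtain ⟨d1, -, d3, d4, d5⟩ := enc_dec (m := 1) (a := a) (b := 0) (S := S) (H := H) (by omega)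
        (by omega) (by omega) (by omega)
      refine ht _ c h hB hs ?_
      rwa [if_neg (by omega), d1, d3, d5]

theorem OkW.good (hM : M ≤ 57) (h31 : ∀ h, size h ≤ 31 → Qp h) {f : BT → ℕ → Bool}
    (hf : ∀ b k, f b k = true → Good Qp M k) {t : KT} (h : OkW M f t) : AllGood Qp M t := by
  induction h with
  | leaf b t e => exact fun k x => hf b k (KT.has_all t _ k x e)
  | br p l r _ _ hl hr => exact allGood_br hl hr
  | lift t u _ e ht => exact fun k x => wj_sound hM h31 ht (KT.has_all u _ k x e)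

end Pool.Agent.Lib.MP_ed43e6_ag.Q
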